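import Pool.Agent.VDC.T2

/-!
# VDC, target ALG: from the zero sets to the equations
-/

set_option autoImplicit false

open MvPolynomial

namespace Pool.Agent.VDC

namespace ALG_

lemma roots (a b : ℂ) : ∃ x y z : ℂ, x + y + z = 0 ∧ a = -(x ^ 2 + x * y + y ^ 2) ∧
    b = -(x * y * z) := by
  obtain ⟨x, hx⟩ : ∃ x : ℂ, x ^ 3 + a * x + b = 0 := by
    have h1 : (Polynomial.X ^ 3 + Polynomial.C a * Polynomial.X + Polynomial.C b :
        Polynomial ℂ).degree = 3 := by
      compute_degree!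
    obtain ⟨x, hx⟩ := IsAlgClosed.exists_root
      (Polynomial.X ^ 3 + Polynomial.C a * Polynomial.X + Polynomial.C b : Polynomial ℂ)
      (by rw [h1]; norm_num)
    refine ⟨x, ?_⟩
    simpa [Polynomial.IsRoot] using hx
  obtain ⟨s, hs⟩ : ∃ s : ℂ, s ^ 2 = x ^ 2 - 4 * (a + x ^ 2) :=
    IsAlgClosed.exists_pow_nat_eq _ (by norm_num)
  refine ⟨x, (-x + s) / 2, (-x - s) / 2, by ring, ?_, ?_⟩
  · linear_combination (1 / 4) * hs
  · linear_combination hx - (x / 4) * hs

lemma cubic {a b a' b' lam ν : ℂ} (hlam : lam ≠ 0) (hD : 4 * a ^ 3 + 27 * b ^ 2 ≠ 0)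
    (h : ∀ c, c ^ 3 + a * c + b = 0 → (ν + lam * c) ^ 3 + a' * (ν + lam * c) + b' = 0) :
    a' * lam = lam ^ 3 * a ∧ b' = lam ^ 3 * b := by
  obtain ⟨x, y, z, h1, h2, h3⟩ := roots a b
  have hz : z = -x - y := by linear_combination h1
  have hxy : x - y ≠ 0 := by
    intro h0
    apply hD
    have : x = y := by linear_combination h0
    subst this
    rw [h2, h3, hz]
    ring
  have hxz : x - z ≠ 0 := by
    intro h0
    apply hD
    have hy : y = -2 * x := by linear_combination h0 + hz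
    rw [h2, h3, hz, hy]
    ring
  have hyz : y - z ≠ 0 := by
    intro h0
    apply hD
    have hx : x = -2 * y := by linear_combination h0 + hz
    rw [h2, h3, hz, hx]
    ring
  have ex := h x (by rw [h2, h3, hz]; ring)
  have ey := h y (by rw [h2, h3, hz]; ring)
  have ez := h z (by rw [h2, h3, hz]; ring)
  set X := ν + lam * x with hX
  set Y := ν + lam * y with hY
  set Z := ν + lam * z with hZ
  have kxy : X - Y ≠ 0 := by
    have : X - Y = lam * (x - y) := by rw [hX, hY]; ring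
    rw [this]
    exact mul_ne_zero hlam hxy
  have kxz : X - Z ≠ 0 := by
    have : X - Z = lam * (x - z) := by rw [hX, hZ]; ring
    rw [this]
    exact mul_ne_zero hlam hxz
  have kyz : Y - Z ≠ 0 := by
    have : Y - Z = lam * (y - z) := by rw [hY, hZ]; ring
    rw [this]
    exact mul_ne_zero hlam hyz
  have e1 : X ^ 2 + X * Y + Y ^ 2 + a' = 0 := by
    apply mul_left_cancel₀ kxy
    linear_combination ex - ey
  have e2 : X ^ 2 + X * Z + Z ^ 2 + a' = 0 := by
    apply mul_left_cancel₀ kxz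
    linear_combination ex - ez
  have e3 : X + Y + Z = 0 := by
    apply mul_left_cancel₀ kyz
    linear_combination e1 - e2
  have e4 : ν = 0 := by
    have : 3 * ν = 0 := by
      rw [hX, hY, hZ] at e3
      linear_combination e3 - lam * h1
    simpa using this
  have hX' : X = lam * x := by rw [hX, e4]; ring
  have hY' : Y = lam * y := by rw [hY, e4]; ring
  have e5 : a' = lam ^ 2 * a := by
    rw [hX', hY'] at e1
    rw [h2]
    linear_combination e1
  refine ⟨by rw [e5]; ring, ?_⟩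
  rw [hX', e5] at ex
  rw [h3, hz]
  rw [h2] at ex
  linear_combination ex

lemma eval_indep {p : Sr} (hp : ∀ a, coeff a p ≠ 0 → a 3 = 0) (v : Fin 3 → ℂ) (c d : ℂ) :
    eval (vp v c) p = eval (vp v d) p := by
  rw [eval_eq', eval_eq']
  refine Finset.sum_congr rfl fun a ha => ?_
  have h := hp a (mem_support_iff.1 ha)
  rw [Fin.prod_univ_four, Fin.prod_univ_four, h, pow_zero, pow_zero]
  rfl

lemma vp_self (q : Fin 4 → ℂ) : vp ![q 0, q 1, q 2] (q 3) = q := by
  funext i
  fin_cases i <;> rfl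

lemma pull (g : (Fin 3 → ℂ) ≃ₗ[ℂ] (Fin 3 → ℂ)) (lam : ℂ) (p : Sr) :
    ∃ P : Sr, ∀ q : Fin 4 → ℂ,
      eval q P = eval (vp (g ![q 0, q 1, q 2]) (lam * q 3)) p := by
  have hg : ∀ (v : Fin 3 → ℂ) (i : Fin 3), g v i = v 0 * g ![1, 0, 0] i + v 1 * g ![0, 1, 0] i +
      v 2 * g ![0, 0, 1] i := by
    intro v i
    have h1 : v = v 0 • ![1, 0, 0] + v 1 • ![0, 1, 0] + v 2 • ![0, 0, 1] := by
      funext j
      fin_cases j <;> simp
    have h2 : g v = v 0 • g ![1, 0, 0] + v 1 • g ![0, 1, 0] + v 2 • g ![0, 0, 1] := by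
      conv_lhs => rw [h1]
      rw [map_add, map_add, map_smul, map_smul, map_smul]
    rw [h2]
    rfl
  let L : Fin 3 → Sr := fun i => X 0 * C (g ![1, 0, 0] i) + X 1 * C (g ![0, 1, 0] i) +
      X 2 * C (g ![0, 0, 1] i)
  let G : Fin 4 → Sr := ![L 0, L 1, L 2, C lam * X 3]
  refine ⟨bind₁ G p, fun q => ?_⟩
  have h1 : (fun i => eval q (G i)) = vp (g ![q 0, q 1, q 2]) (lam * q 3) := by
    have hL : ∀ i, eval q (L i) = g ![q 0, q 1, q 2] i := by
      intro i
      rw [hg]
      simp [L]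
    funext i
    fin_cases i
    · exact hL 0
    · exact hL 1
    · exact hL 2
    · show eval q (C lam * X 3) = lam * q 3
      simp
  rw [← h1]
  induction p using MvPolynomial.induction_on with
  | C a => simp
  | add p p' h h' => simp only [map_add, h, h']
  | mul_X p i h => simp only [map_mul, h, bind₁_X_right, eval_X]

end ALG_

theorem p_ALG (h1 : T_DISC) : T_ALG := by
  intro f f' hf hf' g lam hlam H
  have hf0 := hf
  obtain ⟨⟨f₄, f₆, h4, h6, i4, i6, ef⟩, -⟩ := hf
  obtain ⟨⟨f₄', f₆', h4', h6', i4', i6', ef'⟩, -⟩ := hf'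
  have hD : 4 * f₄ ^ 3 + 27 * f₆ ^ 2 ≠ 0 := h1 f f₄ f₆ hf0 h4 h6 i4 i6 ef
  obtain ⟨P, hP⟩ := ALG_.pull g lam f'
  have ev : ∀ v c, eval (vp v c) f = c ^ 3 + eval (vp v 0) f₄ * c + eval (vp v 0) f₆ := by
    intro v c
    rw [ef, ALG_.eval_indep i4 v 0 c, ALG_.eval_indep i6 v 0 c]
    simp only [map_add, map_mul, map_pow, eval_X]
    rfl
  have ev' : ∀ v c, eval (vp v c) f' = c ^ 3 + eval (vp v 0) f₄' * c + eval (vp v 0) f₆' := by
    intro v c
    rw [ef', ALG_.eval_indep i4' v 0 c, ALG_.eval_indep i6' v 0 c]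
    simp only [map_add, map_mul, map_pow, eval_X]
    rfl
  have key : X 0 * ((4 * f₄ ^ 3 + 27 * f₆ ^ 2) * (P - C (lam ^ 3) * f)) = 0 := by
    apply MvPolynomial.funext
    intro q
    rw [map_mul, map_mul, map_zero, eval_X]
    by_cases hq : q 0 = 0
    · rw [hq, zero_mul]
    by_cases hDq : eval q (4 * f₄ ^ 3 + 27 * f₆ ^ 2) = 0
    · rw [hDq, zero_mul, mul_zero]
    have hv : (![q 0, q 1, q 2] : Fin 3 → ℂ) ≠ 0 := fun h => hq (congrFun h 0)
    obtain ⟨ν, hν⟩ := H _ hv
    set v : Fin 3 → ℂ := ![q 0, q 1, q 2] with hvdef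
    have hqv : vp v (q 3) = q := ALG_.vp_self q
    have hD2 : 4 * eval (vp v 0) f₄ ^ 3 + 27 * eval (vp v 0) f₆ ^ 2 ≠ 0 := by
      intro h0
      apply hDq
      rw [← hqv, map_add, map_mul, map_mul, map_pow, map_pow, ALG_.eval_indep i4 v (q 3) 0,
        ALG_.eval_indep i6 v (q 3) 0]
      simpa using h0
    obtain ⟨r1, r2⟩ := ALG_.cubic (a' := eval (vp (g v) 0) f₄') (b' := eval (vp (g v) 0) f₆')
      (ν := ν) hlam hD2 (by
        intro c hc
        rw [← ev']
        exact (hν c).1 (by rw [ev]; exact hc))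
    have e1 : eval q P = lam ^ 3 * eval q f := by
      rw [hP, ev']
      conv_rhs => rw [← hqv]
      rw [ev]
      linear_combination (q 3) * r1 + r2
    rw [map_sub, map_mul, eval_C, e1, sub_self, mul_zero, mul_zero]
  have key2 : P - C (lam ^ 3) * f = 0 := by
    rcases mul_eq_zero.1 key with h | h
    · exact absurd h (X_ne_zero 0)
    · rcases mul_eq_zero.1 h with h | h
      · exact absurd h hD
      · exact h
  intro v c
  have h2 := congrArg (eval (vp v c)) key2
  rw [map_sub, map_mul, eval_C, map_zero, hP] at h2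
  have h3 : (![vp v c 0, vp v c 1, vp v c 2] : Fin 3 → ℂ) = v := by
    funext i
    fin_cases i <;> rfl
  rw [h3] at h2
  exact sub_eq_zero.1 h2

end Pool.Agent.VDC
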