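import Pool.Agent.VDC.T1

/-!
# VDC-CH1: inverting the connecting maps
-/

set_option autoImplicit false

open MvPolynomial CategoryTheory

noncomputable section

namespace Pool.Agent.VDC

namespace CH1_

lemma Hmg_pow {l : Sr} {e : ℤ} (h : Hmg l e) (k : ℕ) : Hmg (l ^ k) (k * e) := by
  induction k with
  | zero => simpa using Hmg.one
  | succ k ih =>
    rw [pow_succ]
    exact (ih.mul h).congr (by push_cast; ring)

lemma HId_mI (hspan : T_HSPAN) (J : Finset (Fin 4)) (n : Fin 4 → ℕ) : HId (mI J n) := by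
  apply hspan.1
  rintro p ⟨j, _, rfl⟩
  exact ⟨_, Hmg_pow (Hmg.X j) _⟩

lemma dd_HM {X Y : PO} {s ρ : ℤ} {g : Matrix Y.ι X.ι Sr} (hg : g ∈ HM X Y ρ) :
    dd X Y s g ∈ HM X Y (ρ + 3) := by
  intro i j
  rw [dd_apply, Matrix.sub_apply]
  apply Hmg.sub
  · rw [Matrix.mul_apply]
    exact Hmg.sum fun k _ => ((Y.hom i k).mul (hg k j)).congr (by ring)
  · rw [Matrix.smul_apply]
    apply Hmg.zsmul
    rw [Matrix.mul_apply]
    exact Hmg.sum fun k _ => ((hg i k).mul (X.hom k j)).congr (by ring)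

lemma dd_IM {X Y : PO} {s : ℤ} {I : Ideal Sr} {g : Matrix Y.ι X.ι Sr}
    (hg : g ∈ IM I Y.ι X.ι) : dd X Y s g ∈ IM I Y.ι X.ι := by
  intro i j
  rw [dd_apply, Matrix.sub_apply]
  apply I.sub_mem
  · rw [Matrix.mul_apply]
    exact I.sum_mem fun k _ => I.mul_mem_left _ (hg k j)
  · rw [Matrix.smul_apply, zsmul_eq_mul]
    apply I.mul_mem_left
    rw [Matrix.mul_apply]
    exact I.sum_mem fun k _ => I.mul_mem_right _ (hg i k)

lemma dd_dd {f : Sr} (X Y : CM f) {s : ℤ} (hs : s * s = 1) (g : Matrix Y.ι X.ι Sr) :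
    dd X.toPO Y.toPO (-s) (dd X.toPO Y.toPO s g) = 0 := by
  rw [dd_apply, dd_apply]
  have h1 : Y.Φ * (Y.Φ * g) = -(f • g) := by
    rw [← Matrix.mul_assoc, Y.sq, Matrix.neg_mul, Matrix.smul_mul, Matrix.one_mul]
  have h2 : g * X.Φ * X.Φ = -(f • g) := by
    rw [Matrix.mul_assoc, X.sq, Matrix.mul_neg, Matrix.mul_smul, Matrix.mul_one]
  have h3 : (s • (g * X.Φ)) * X.Φ = s • (g * X.Φ * X.Φ) := by rw [Matrix.smul_mul]
  have h4 : Y.Φ * (s • (g * X.Φ)) = s • (Y.Φ * g * X.Φ) := by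
    rw [Matrix.mul_smul, Matrix.mul_assoc]
  rw [Matrix.mul_sub, Matrix.sub_mul, h1, h3, h4, h2, smul_sub, smul_smul, neg_smul,
    neg_mul, hs, neg_smul, one_smul]
  abel

lemma dd_lsmul {X Y : PO} (s : ℤ) (l : Sr) (g : Matrix Y.ι X.ι Sr) :
    dd X Y s (l • g) = l • dd X Y s g := by
  rw [dd_apply, dd_apply, Matrix.mul_smul, Matrix.smul_mul, smul_sub, smul_comm s l]

/-- one connecting map -/
lemma step (hdiv : T_DIV) {f : Sr} (X Y : CM f) (I : Ideal Sr) (l : Sr) (e s ρ : ℤ)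
    (hs : s * s = 1) (hI : HId I) (hl : Hmg l e) (hnz : NZ l I) (g : Matrix Y.ι X.ι Sr)
    (hg : g ∈ Zc X.toPO Y.toPO (I ⊔ Ideal.span {l}) s ρ) :
    ∃ g' ∈ Zc X.toPO Y.toPO I (-s) (ρ + 3 - e),
      dd X.toPO Y.toPO s g - l • g' ∈ IM I Y.ι X.ι := by
  obtain ⟨h1, h2⟩ := hg
  obtain ⟨g', h3, h4⟩ := hdiv X.toPO Y.toPO I l e (ρ + 3) hI hl _ (dd_HM (s := s) h1) h2
  refine ⟨g', ⟨h3, ?_⟩, h4⟩
  intro i j
  apply hnz
  have h5 : l • dd X.toPO Y.toPO (-s) g' =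
      - dd X.toPO Y.toPO (-s) (dd X.toPO Y.toPO s g - l • g') := by
    rw [map_sub, dd_dd X Y hs, dd_lsmul, zero_sub, neg_neg]
  have h6 : (l • dd X.toPO Y.toPO (-s) g') i j ∈ I := by
    rw [h5, Matrix.neg_apply]
    exact I.neg_mem (dd_IM h4 i j)
  rwa [Matrix.smul_apply, smul_eq_mul] at h6

end CH1_

open CH1_ in
theorem p_CH1 (hdiv : T_DIV) (hmnz : T_MNZ) (hmins : T_MINS) (hspan : T_HSPAN) : T_CH1 := by
  intro f X Y n s ρ hs b hb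
  have hs' : -s * -s = 1 := by rw [neg_mul_neg]; exact hs
  have key : ∀ r : Fin 4, Hmg ((MvPolynomial.X r : Sr) ^ n r) (n r * wt r) := fun r =>
    Hmg_pow (Hmg.X r) _
  have e3 : (Finset.univ : Finset (Fin 4)) = insert 3 {0, 1, 2} := by decide
  have e2 : ({0, 1, 2} : Finset (Fin 4)) = insert 2 {0, 1} := by decide
  have e1 : ({0, 1} : Finset (Fin 4)) = insert 1 {0} := by decide
  have e0 : ({0} : Finset (Fin 4)) = insert 0 ∅ := by decide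
  rw [e3, hmins.2] at hb
  obtain ⟨b₃, hb₃, h3⟩ := step hdiv X Y (mI {0, 1, 2} n) _ _ s ρ hs (HId_mI hspan _ n) (key 3)
    (hmnz _ n 3 (by decide)) b hb
  rw [e2, hmins.2] at hb₃
  obtain ⟨b₂, hb₂, h2⟩ := step hdiv X Y (mI {0, 1} n) _ _ (-s) _ hs' (HId_mI hspan _ n) (key 2)
    (hmnz _ n 2 (by decide)) b₃ hb₃
  rw [neg_neg, e1, hmins.2] at hb₂
  obtain ⟨b₁, hb₁, h1⟩ := step hdiv X Y (mI {0} n) _ _ s _ hs (HId_mI hspan _ n) (key 1)
    (hmnz _ n 1 (by decide)) b₂ hb₂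
  rw [e0, hmins.2] at hb₁
  obtain ⟨c, hc, h0⟩ := step hdiv X Y (mI ∅ n) _ _ (-s) _ hs' (HId_mI hspan _ n) (key 0)
    (hmnz _ n 0 (by decide)) b₁ hb₁
  rw [neg_neg, hmins.1] at hc
  rw [hmins.1] at h0
  refine ⟨c, ?_, b₃, b₂, b₁, h3, h2, h1, ?_⟩
  · have hdeg : ρ + 3 - n 3 * wt 3 + 3 - n 2 * wt 2 + 3 - n 1 * wt 1 + 3 - n 0 * wt 0 =
        ρ + 12 - ∑ i, (n i : ℤ) * wt i := by
      rw [Fin.sum_univ_four]; ring
    rw [← hdeg]
    exact hc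
  · ext1 i j
    have h4 := h0 i j
    rw [Ideal.mem_bot, Matrix.sub_apply, sub_eq_zero] at h4
    exact h4

end Pool.Agent.VDC
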