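import Pool.Agent.VDC.T1

/-!
# VDC: CH2, every cycle is obtained
-/

set_option autoImplicit false

open MvPolynomial CategoryTheory

noncomputable section

namespace Pool.Agent.VDC

namespace CH2_

lemma IM_mul {I : Ideal Sr} {ι κ μ : Type} [Fintype ι] (t : Matrix μ ι Sr) {g : Matrix ι κ Sr}
    (hg : g ∈ IM I ι κ) : t * g ∈ IM I μ κ := by
  intro i j
  rw [Matrix.mul_apply]
  exact I.sum_mem fun k _ => I.mul_mem_left _ (hg k j)

lemma IM_mono {I J : Ideal Sr} {ι κ : Type} {g : Matrix ι κ Sr} (h : I ≤ J)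
    (hg : g ∈ IM I ι κ) : g ∈ IM J ι κ := fun i j => h (hg i j)

lemma IM_smul {I : Ideal Sr} {ι κ : Type} {l : Sr} (hl : l ∈ I) (g : Matrix ι κ Sr) :
    l • g ∈ IM I ι κ := fun i j => by
  rw [Matrix.smul_apply, smul_eq_mul]
  exact I.mul_mem_right _ hl

lemma mem_mI {J : Finset (Fin 4)} {n : Fin 4 → ℕ} {i : Fin 4} (h : i ∈ J) :
    (MvPolynomial.X i : Sr) ^ n i ∈ mI J n :=
  Ideal.subset_span ⟨i, h, rfl⟩

lemma mI_mono {J K : Finset (Fin 4)} {n : Fin 4 → ℕ} (h : J ⊆ K) : mI J n ≤ mI K n :=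
  Ideal.span_mono (Set.image_mono (Finset.coe_subset.2 h))

lemma dd_t {X Y : PO} {t : Matrix Y.ι Y.ι Sr} {l : Sr}
    (h : Y.Φ * t + t * Y.Φ = l • (1 : Matrix Y.ι Y.ι Sr)) (s : ℤ) (b : Matrix Y.ι X.ι Sr) :
    dd X Y s (t * b) = l • b - t * dd X Y (-s) b := by
  rw [dd_apply, dd_apply, Matrix.mul_sub, ← Matrix.mul_assoc, eq_sub_of_add_eq h,
    Matrix.sub_mul, Matrix.smul_mul, Matrix.one_mul, Matrix.mul_assoc, Matrix.mul_assoc,
    neg_smul, Matrix.mul_neg, Matrix.mul_smul]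
  abel

end CH2_

open CH2_ in
theorem p_CH2 : T_CH2 := by
  intro f X Y n s ρ _ hN c hc
  obtain ⟨t0, -, h0⟩ := hN 0
  obtain ⟨t1, -, h1⟩ := hN 1
  obtain ⟨t2, -, h2⟩ := hN 2
  obtain ⟨t3, -, h3⟩ := hN 3
  have hc0 : dd X.toPO Y.toPO s c = 0 := by
    ext1 i j
    exact (Ideal.mem_bot).1 (hc.2 i j)
  have e1 : dd X.toPO Y.toPO (-s) (t0 * c) = (MvPolynomial.X 0 : Sr) ^ n 0 • c := by
    rw [dd_t h0, neg_neg, hc0, Matrix.mul_zero, sub_zero]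
  have e2 : dd X.toPO Y.toPO s (t1 * (t0 * c)) =
      (MvPolynomial.X 1 : Sr) ^ n 1 • (t0 * c) - t1 * dd X.toPO Y.toPO (-s) (t0 * c) :=
    dd_t h1 s _
  have e3 : dd X.toPO Y.toPO (-s) (t2 * (t1 * (t0 * c))) =
      (MvPolynomial.X 2 : Sr) ^ n 2 • (t1 * (t0 * c)) -
        t2 * dd X.toPO Y.toPO s (t1 * (t0 * c)) := by
    have := dd_t (X := X.toPO) h2 (-s) (t1 * (t0 * c))
    rwa [neg_neg] at this
  have e4 : dd X.toPO Y.toPO s (t3 * (t2 * (t1 * (t0 * c)))) =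
      (MvPolynomial.X 3 : Sr) ^ n 3 • (t2 * (t1 * (t0 * c))) -
        t3 * dd X.toPO Y.toPO (-s) (t2 * (t1 * (t0 * c))) := dd_t h3 s _
  have m1 : dd X.toPO Y.toPO (-s) (t0 * c) ∈ IM (mI {0} n) Y.ι X.ι := by
    rw [e1]
    exact IM_smul (mem_mI (by decide)) _
  have m2 : dd X.toPO Y.toPO s (t1 * (t0 * c)) ∈ IM (mI {0, 1} n) Y.ι X.ι := by
    rw [e2]
    exact Submodule.sub_mem _ (IM_smul (mem_mI (by decide)) _)
      (IM_mul _ (IM_mono (mI_mono (by decide)) m1))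
  have m3 : dd X.toPO Y.toPO (-s) (t2 * (t1 * (t0 * c))) ∈ IM (mI {0, 1, 2} n) Y.ι X.ι := by
    rw [e3]
    exact Submodule.sub_mem _ (IM_smul (mem_mI (by decide)) _)
      (IM_mul _ (IM_mono (mI_mono (by decide)) m2))
  refine ⟨t3 * (t2 * (t1 * (t0 * c))), t2 * (t1 * (t0 * c)), t1 * (t0 * c), t0 * c,
    ?_, ?_, ?_, e1⟩
  · rw [e4, sub_sub_cancel_left]
    exact Submodule.neg_mem _ (IM_mul _ m3)
  · rw [e3, sub_sub_cancel_left]
    exact Submodule.neg_mem _ (IM_mul _ m2)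
  · rw [e2, sub_sub_cancel_left]
    exact Submodule.neg_mem _ (IM_mul _ m1)

end Pool.Agent.VDC
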