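import Pool.Agent.VDC.T1

/-!
# VDC: target CH3, linearity and composition of the chain relation
-/

set_option autoImplicit false

open MvPolynomial CategoryTheory

noncomputable section

namespace Pool.Agent.VDC

namespace CH3_

lemma cyc_eq {X Y : PO} {m : ℤ} {a : Matrix Y.ι X.ι Sr} (ha : a ∈ Zc X Y ⊥ 1 m) :
    Y.Φ * a = a * X.Φ := by
  obtain ⟨h1, h2⟩ := ha
  ext1 i j
  have h4 := h2 i j
  rw [dd_apply, Ideal.mem_bot, Matrix.sub_apply, sub_eq_zero, one_smul] at h4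
  exact h4

lemma dd_right {W X Y : PO} (s : ℤ) (b : Matrix Y.ι X.ι Sr) (a : Matrix X.ι W.ι Sr)
    (ha : X.Φ * a = a * W.Φ) : dd W Y s (b * a) = dd X Y s b * a := by
  rw [dd_apply, dd_apply, Matrix.sub_mul, Matrix.smul_mul, Matrix.mul_assoc, Matrix.mul_assoc,
    Matrix.mul_assoc, ha]

lemma dd_left {X Y W : PO} (s : ℤ) (b : Matrix Y.ι X.ι Sr) (a : Matrix W.ι Y.ι Sr)
    (ha : W.Φ * a = a * Y.Φ) : dd X W s (a * b) = a * dd X Y s b := by
  rw [dd_apply, dd_apply, Matrix.mul_sub, Matrix.mul_smul, ← Matrix.mul_assoc, ha,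
    Matrix.mul_assoc, Matrix.mul_assoc]

lemma IM_mul_right {I : Ideal Sr} {ι κ τ : Type} [Fintype κ] {g : Matrix ι κ Sr}
    (hg : g ∈ IM I ι κ) (a : Matrix κ τ Sr) : g * a ∈ IM I ι τ := by
  intro i j
  rw [Matrix.mul_apply]
  exact I.sum_mem fun k _ => I.mul_mem_right _ (hg i k)

lemma IM_mul_left {I : Ideal Sr} {ι κ τ : Type} [Fintype ι] {g : Matrix ι κ Sr}
    (hg : g ∈ IM I ι κ) (a : Matrix τ ι Sr) : a * g ∈ IM I τ κ := by
  intro i j
  rw [Matrix.mul_apply]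
  exact I.sum_mem fun k _ => I.mul_mem_left _ (hg k j)

lemma lin_step {X Y : PO} {I : Ideal Sr} (s : ℤ) (q : Sr) (t : ℂ)
    {b b' c c' : Matrix Y.ι X.ι Sr} (h : dd X Y s b - q • c ∈ IM I Y.ι X.ι)
    (h' : dd X Y s b' - q • c' ∈ IM I Y.ι X.ι) :
    dd X Y s (b + t • b') - q • (c + t • c') ∈ IM I Y.ι X.ι := by
  have e : dd X Y s (b + t • b') - q • (c + t • c') =
      (dd X Y s b - q • c) + t • (dd X Y s b' - q • c') := by
    rw [map_add, map_smul, smul_add, smul_comm q t c', smul_sub]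
    abel
  rw [e]
  exact add_mem h (Submodule.smul_mem _ t h')

lemma right_step {W X Y : PO} {I : Ideal Sr} (s : ℤ) (q : Sr)
    {b c : Matrix Y.ι X.ι Sr} (a : Matrix X.ι W.ι Sr) (ha : X.Φ * a = a * W.Φ)
    (h : dd X Y s b - q • c ∈ IM I Y.ι X.ι) :
    dd W Y s (b * a) - q • (c * a) ∈ IM I Y.ι W.ι := by
  have e : dd W Y s (b * a) - q • (c * a) = (dd X Y s b - q • c) * a := by
    rw [dd_right s b a ha, Matrix.sub_mul, Matrix.smul_mul]
  rw [e]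
  exact IM_mul_right h a

lemma left_step {X Y W : PO} {I : Ideal Sr} (s : ℤ) (q : Sr)
    {b c : Matrix Y.ι X.ι Sr} (a : Matrix W.ι Y.ι Sr) (ha : W.Φ * a = a * Y.Φ)
    (h : dd X Y s b - q • c ∈ IM I Y.ι X.ι) :
    dd X W s (a * b) - q • (a * c) ∈ IM I W.ι X.ι := by
  have e : dd X W s (a * b) - q • (a * c) = a * (dd X Y s b - q • c) := by
    rw [dd_left s b a ha, Matrix.mul_sub, Matrix.mul_smul]
  rw [e]
  exact IM_mul_left h a

end CH3_

open CH3_ in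
theorem p_CH3 : T_CH3 := by
  refine ⟨?_, ?_, ?_⟩
  · rintro X Y n s b c b' c' t ⟨b₃, b₂, b₁, h3, h2, h1, h0⟩ ⟨b₃', b₂', b₁', h3', h2', h1', h0'⟩
    refine ⟨b₃ + t • b₃', b₂ + t • b₂', b₁ + t • b₁', lin_step s _ t h3 h3',
      lin_step (-s) _ t h2 h2', lin_step s _ t h1 h1', ?_⟩
    rw [map_add, map_smul, h0, h0', smul_add,
      smul_comm ((MvPolynomial.X 0 : Sr) ^ n 0) t c']
  · rintro W X Y n s m b c ⟨b₃, b₂, b₁, h3, h2, h1, h0⟩ a ha
    have ha' := cyc_eq ha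
    refine ⟨b₃ * a, b₂ * a, b₁ * a, right_step s _ a ha' h3, right_step (-s) _ a ha' h2,
      right_step s _ a ha' h1, ?_⟩
    rw [dd_right _ b₁ a ha', h0, Matrix.smul_mul]
  · rintro X Y W n s m b c ⟨b₃, b₂, b₁, h3, h2, h1, h0⟩ a ha
    have ha' := cyc_eq ha
    refine ⟨a * b₃, a * b₂, a * b₁, left_step s _ a ha' h3, left_step (-s) _ a ha' h2,
      left_step s _ a ha' h1, ?_⟩
    rw [dd_left _ b₁ a ha', h0, Matrix.mul_smul]

end Pool.Agent.VDC
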