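import Pool.Agent.VDC.T2

/-!
# VDC-CISO: isomorphic maps have isomorphic cones
-/

set_option autoImplicit false

open MvPolynomial CategoryTheory

noncomputable section

namespace Pool.Agent.VDC

namespace CISO_

variable {f : Sr}

/-- the map of cones given by a square commuting up to homotopy -/
def coneM {X Y X' Y' : CM f} (g : mor X Y) (g' : mor X' Y') (a : mor X X') (b : mor Y Y')
    (h : Matrix Y'.ι X.ι Sr) (hh : ∀ i j, Hmg (h i j) (X.deg j - 3 - Y'.deg i))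
    (e : b.1 * g.1 - g'.1 * a.1 = Y'.Φ * h + h * X.Φ) : mor (cone g) (cone g') :=
  ⟨Matrix.fromBlocks b.1 h 0 a.1, by
    constructor
    · rintro (i | i) (j | j)
      · exact b.2.1 i j
      · exact hh i j
      · exact Hmg.zero _
      · exact (a.2.1 i j).congr (by show _ = (X.deg j - 3) - (X'.deg i - 3); ring)
    · show Matrix.fromBlocks Y'.Φ g'.1 0 (-X'.Φ) * Matrix.fromBlocks b.1 h 0 a.1 =
        Matrix.fromBlocks b.1 h 0 a.1 * Matrix.fromBlocks Y.Φ g.1 0 (-X.Φ)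
      have hb : Y'.Φ * b.1 = b.1 * Y.Φ := b.2.2
      have ha : X'.Φ * a.1 = a.1 * X.Φ := a.2.2
      have e2 : Y'.Φ * h + g'.1 * a.1 = b.1 * g.1 + -(h * X.Φ) := by
        rw [sub_eq_iff_eq_add] at e
        rw [e]; abel
      rw [Matrix.fromBlocks_multiply, Matrix.fromBlocks_multiply]
      simp only [Matrix.mul_zero, Matrix.zero_mul, add_zero, zero_add, Matrix.mul_neg,
        Matrix.neg_mul, hb, ha, e2]⟩

/-- the existence of the map of cones -/
lemma ex_cone {X Y X' Y' : CM f} (g : mor X Y) (g' : mor X' Y') (a : X ⟶ X') (b : Y ⟶ Y')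
    (e : cls g ≫ b = a ≫ cls g') : ∃ θ : cone g ⟶ cone g',
      cls (inclM g) ≫ θ = b ≫ cls (inclM g') ∧
      θ ≫ cls (projM g') = cls (projM g) ≫ (sh f).map a := by
  obtain ⟨a, rfl⟩ := Submodule.mkQ_surjective _ a
  obtain ⟨b, rfl⟩ := Submodule.mkQ_surjective _ b
  have e1 : cls (compM g b) = cls (compM a g') := e
  obtain ⟨h, hh, e2⟩ := (Submodule.Quotient.eq _).1 e1
  have e3 : b.1 * g.1 - g'.1 * a.1 = Y'.Φ * h + h * X.Φ := e2
  refine ⟨cls (coneM g g' a b h hh e3), ?_, ?_⟩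
  · show cls (compM (inclM g) (coneM g g' a b h hh e3)) = cls (compM b (inclM g'))
    congr 1
    apply Subtype.ext
    show Matrix.fromBlocks b.1 h 0 a.1 * Matrix.fromRows 1 0 = Matrix.fromRows 1 0 * b.1
    rw [Matrix.fromBlocks_mul_fromRows, Matrix.fromRows_mul]
    simp
  · show cls (compM (coneM g g' a b h hh e3) (projM g')) =
      cls (compM (projM g) (twM 3 (-1) a))
    congr 1
    apply Subtype.ext
    show Matrix.fromCols 0 1 * Matrix.fromBlocks b.1 h 0 a.1 = a.1 * Matrix.fromCols 0 1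
    rw [Matrix.fromCols_mul_fromBlocks, Matrix.mul_fromCols]
    simp

lemma aux {C : Type*} [Category C] {A B P Q : C} (u : A ⟶ B) (u' : B ⟶ A) (p : A ⟶ P)
    (q : B ⟶ Q) (s : P ⟶ Q) (t : Q ⟶ P) (h1 : u ≫ q = p ≫ s) (h2 : u' ≫ p = q ≫ t)
    (h3 : s ≫ t = 𝟙 P) : (u ≫ u') ≫ p = p := by
  rw [Category.assoc, h2, ← Category.assoc, h1, Category.assoc, h3, Category.comp_id]

lemma shf {X Y : CM f} {a : X ⟶ Y} {b : Y ⟶ X} (h : a ≫ b = 𝟙 X) :
    (sh f).map a ≫ (sh f).map b = 𝟙 ((sh f).obj X) := by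
  rw [← Functor.map_comp, h, CategoryTheory.Functor.map_id]

/-- an endomorphism which is the identity on both ends is invertible -/
lemma unip (hWC : T_WC) {X Y : CM f} (g : mor X Y) (u : cone g ⟶ cone g)
    (h1 : cls (inclM g) ≫ u = cls (inclM g)) (h2 : u ≫ cls (projM g) = cls (projM g)) :
    ∃ v : cone g ⟶ cone g, u ≫ v = 𝟙 _ ∧ v ≫ u = 𝟙 _ := by
  have h3 : cls (inclM g) ≫ (u - 𝟙 _) = 0 := by
    rw [Preadditive.comp_sub, h1, Category.comp_id, sub_self]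
  obtain ⟨k, hk⟩ := hWC f X Y (cone g) g _ h3
  have h4 : (u - 𝟙 _) ≫ (u - 𝟙 _) = 0 := by
    have h5 : (u - 𝟙 _) ≫ cls (projM g) = 0 := by
      rw [Preadditive.sub_comp, h2, Category.id_comp, sub_self]
    calc (u - 𝟙 _) ≫ (u - 𝟙 _) = (u - 𝟙 _) ≫ (cls (projM g) ≫ k) := by rw [← hk]
      _ = ((u - 𝟙 _) ≫ cls (projM g)) ≫ k := (Category.assoc _ _ _).symm
      _ = 0 := by rw [h5, Limits.zero_comp]
  refine ⟨𝟙 _ - (u - 𝟙 _), ?_, ?_⟩
  · have h6 : u = 𝟙 _ + (u - 𝟙 _) := by abel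
    generalize hw : u - 𝟙 (cone g) = w at h4 h6
    rw [h6, Preadditive.add_comp, Preadditive.comp_sub, Preadditive.comp_sub, h4,
      Category.comp_id, Category.comp_id, Category.id_comp, sub_zero]
    abel
  · have h6 : u = 𝟙 _ + (u - 𝟙 _) := by abel
    generalize hw : u - 𝟙 (cone g) = w at h4 h6
    rw [h6, Preadditive.comp_add, Preadditive.sub_comp, Preadditive.sub_comp, h4,
      Category.comp_id, Category.comp_id, Category.id_comp, sub_zero]
    abel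

end CISO_

open CISO_ in
/-- CISO -/
theorem p_CISO (hWC : T_WC) : T_CISO := by
  intro f X Y X' Y' g g' a b e
  obtain ⟨θ, t1, t2⟩ := ex_cone g g' a.hom b.hom e
  have e' : cls g' ≫ b.inv = a.inv ≫ cls g := by
    rw [Iso.comp_inv_eq, Category.assoc, e, Iso.inv_hom_id_assoc]
  obtain ⟨θ', s1, s2⟩ := ex_cone g' g a.inv b.inv e'
  obtain ⟨v, hv1, _⟩ := unip hWC g (θ ≫ θ')
    (by rw [← Category.assoc, t1, Category.assoc, s1, Iso.hom_inv_id_assoc])
    (aux θ θ' (cls (projM g)) (cls (projM g')) ((sh f).map a.hom) ((sh f).map a.inv) t2 s2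
      (shf a.hom_inv_id))
  obtain ⟨v', _, hv'⟩ := unip hWC g' (θ' ≫ θ)
    (by rw [← Category.assoc, s1, Category.assoc, t1, Iso.inv_hom_id_assoc])
    (aux θ' θ (cls (projM g')) (cls (projM g)) ((sh f).map a.inv) ((sh f).map a.hom) s2 t2
      (shf a.inv_hom_id))
  have r1 : θ ≫ (θ' ≫ v) = 𝟙 _ := by rw [← Category.assoc]; exact hv1
  have l1 : (v' ≫ θ') ≫ θ = 𝟙 _ := by rw [Category.assoc]; exact hv'
  have r2 : θ' ≫ v = v' ≫ θ' := by
    calc θ' ≫ v = ((v' ≫ θ') ≫ θ) ≫ (θ' ≫ v) := by rw [l1, Category.id_comp]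
      _ = (v' ≫ θ') ≫ (θ ≫ (θ' ≫ v)) := Category.assoc _ _ _
      _ = v' ≫ θ' := by rw [r1, Category.comp_id]
  exact ⟨⟨θ, θ' ≫ v, r1, by rw [r2]; exact l1⟩, t1, t2⟩

end Pool.Agent.VDC
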