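import Pool.Agent.VDC.P_EUL

/-!
# VDC: target CLS (helper75)

An object with the same endomorphism dimensions as `k`, on which all polynomials of degree `2` act
by zero, is a twist of `k`.
-/

set_option autoImplicit false

open MvPolynomial CategoryTheory

noncomputable section

namespace Pool.Agent.VDC

namespace CLS_

/-- two objects with one dimensional endomorphism algebras are isomorphic if there are maps with
nonzero composition -/
theorem iso_of {f : Sr} {G K : CM f} (hG : Module.finrank ℂ (G ⟶ G) = 1)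
    (hK : Module.finrank ℂ (K ⟶ K) = 1) (a : G ⟶ K) (b : K ⟶ G) (hab : a ≫ b ≠ 0) :
    Nonempty (G ≅ K) := by
  have key : ∀ {X : CM f}, Module.finrank ℂ (X ⟶ X) = 1 → 𝟙 X ≠ 0 → ∀ g : X ⟶ X,
      ∃ c : ℂ, c • 𝟙 X = g := by
    intro X h1 h2 g
    exact (finrank_eq_one_iff_of_nonzero' (𝟙 X) h2).1 h1 g
  have hG1 : 𝟙 G ≠ 0 := by
    intro h
    exact hab (by rw [← Category.id_comp (a ≫ b), h, Limits.zero_comp])
  have ha : a ≠ 0 := by
    intro h
    exact hab (by rw [h, Limits.zero_comp])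
  have hK1 : 𝟙 K ≠ 0 := by
    intro h
    exact ha (by rw [← Category.comp_id a, h, Limits.comp_zero])
  obtain ⟨c, hc⟩ := key hG hG1 (a ≫ b)
  obtain ⟨c', hc'⟩ := key hK hK1 (b ≫ a)
  have hc0 : c ≠ 0 := by
    intro h
    exact hab (by rw [← hc, h, zero_smul])
  have h1 : c • a = c' • a := by
    have e1 : (a ≫ b) ≫ a = c • a := by rw [← hc, Linear.smul_comp, Category.id_comp]
    have e2 : a ≫ (b ≫ a) = c' • a := by rw [← hc', Linear.comp_smul, Category.comp_id]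
    rw [← e1, Category.assoc, e2]
  have h2 : c = c' := smul_left_injective ℂ ha h1
  refine ⟨⟨a, c⁻¹ • b, ?_, ?_⟩⟩
  · rw [Linear.comp_smul, ← hc, smul_smul, inv_mul_cancel₀ hc0, one_smul]
  · rw [Linear.smul_comp, ← hc', ← h2, smul_smul, inv_mul_cancel₀ hc0, one_smul]

/-- twists are equivalences -/
theorem tw_equiv (hT : T_TWC) (f : Sr) (m : ℤ) : (twF f m 1).IsEquivalence := by
  have h1 : Nonempty (twF f m 1 ⋙ twF f (-m) 1 ≅ 𝟭 (CM f)) := by
    obtain ⟨e⟩ := (hT f m (-m) 1 1).1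
    obtain ⟨z⟩ := (hT f 0 0 1 1).2
    rw [add_neg_cancel, mul_one] at e
    exact ⟨e ≪≫ z⟩
  have h2 : Nonempty (twF f (-m) 1 ⋙ twF f m 1 ≅ 𝟭 (CM f)) := by
    obtain ⟨e⟩ := (hT f (-m) m 1 1).1
    obtain ⟨z⟩ := (hT f 0 0 1 1).2
    rw [neg_add_cancel, mul_one] at e
    exact ⟨e ≪≫ z⟩
  obtain ⟨e1⟩ := h1
  obtain ⟨e2⟩ := h2
  exact (CategoryTheory.Equivalence.mk (twF f m 1) (twF f (-m) 1) e1.symm e2).isEquivalence_functor

/-- twists preserve the dimensions -/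
theorem tw_finrank (hT : T_TWC) (f : Sr) (m : ℤ) (X Y : CM f) :
    Module.finrank ℂ (tw m 1 X ⟶ tw m 1 Y) = Module.finrank ℂ (X ⟶ Y) := by
  have := tw_equiv hT f m
  let L : (X ⟶ Y) →ₗ[ℂ] (tw m 1 X ⟶ tw m 1 Y) :=
    Submodule.mapQ (nul X Y) (nul (tw m 1 X) (tw m 1 Y)) (twL m 1 X Y)
      (fun g hg => twM_nul m 1 g hg)
  have hL : Function.Bijective L :=
    ⟨(twF f m 1).map_injective, (twF f m 1).map_surjective⟩
  exact (LinearEquiv.finrank_eq (LinearEquiv.ofBijective L hL)).symm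

/-- the trivial twist -/
theorem tw_zero (hT : T_TWC) (f : Sr) (X Y : CM f) :
    Module.finrank ℂ (X ⟶ tw 0 1 Y) = Module.finrank ℂ (X ⟶ Y) := by
  obtain ⟨z⟩ := (hT f 0 0 1 1).2
  exact LinearEquiv.finrank_eq (Linear.homCongr ℂ (Iso.refl X) (z.app Y))

end CLS_

open CLS_ in
theorem p_CLS (h_NHQ : T_NHQ) (h_HD : T_HD) (h_PK : T_PK) (h_VAR : T_VAR) (h_RET : T_RET)
    (h_ZK : T_ZK) (h_TWC : T_TWC) : T_CLS := by
  intro f hf D G hG hdims
  have h1 : ∀ i, NH G.toPO ((X i : Sr) ^ n2 i) 2 := fun i =>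
    (h_NHQ f G _ (EUL_.hX i)).1 (hG _ _)
  have hsq : ∀ ρ : ℤ, ((ρ.negOnePow : ℤˣ) : ℤ) * ((ρ.negOnePow : ℤˣ) : ℤ) = 1 := fun ρ => by
    rw [← Units.val_mul, Int.units_mul_self, Units.val_one]
  have h2 : ∀ ρ : ℤ, hdim G.toPO G.toPO ⊥ ρ.negOnePow ρ = pk ρ := by
    intro ρ
    rw [h_HD, hdims, ← h_HD, h_PK f D _ ρ (hsq ρ)]
  have h3 := h_VAR f hf G h1 h2
  obtain ⟨a, b, hab⟩ := h_RET f D G h3
  have hk1 : Module.finrank ℂ (kk D ⟶ kk D) = 1 := by
    have e1 := h_PK f D 1 0 (by norm_num)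
    have e2 := h_HD f (kk D) (kk D) 0 1
    rw [Units.val_one, e1, tw_zero h_TWC] at e2
    rw [← e2]
    simp [pk]
  have hG1 : Module.finrank ℂ (G ⟶ G) = 1 := by
    have e1 := h2 0
    rw [Int.negOnePow_zero] at e1
    have e2 := h_HD f G G 0 1
    rw [e1, tw_zero h_TWC] at e2
    rw [← e2]
    simp [pk]
  have h4 : ∃ i, a i ≫ b i ≠ 0 := by
    by_contra h
    push Not at h
    have e1 : 𝟙 G = 0 := by
      rw [hab]
      exact Finset.sum_eq_zero fun i _ => h i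
    have e2 : Subsingleton (G ⟶ G) := ⟨fun g g' => by
      rw [← Category.comp_id g, ← Category.comp_id g', e1, Limits.comp_zero, Limits.comp_zero]⟩
    rw [Module.finrank_zero_of_subsingleton] at hG1
    exact absurd hG1 (by norm_num)
  obtain ⟨i, hi⟩ := h4
  obtain ⟨e⟩ := iso_of hG1 (by rw [tw_finrank h_TWC, hk1]) (a i) (b i) hi
  refine ⟨-(G.deg i), ?_⟩
  rcases Int.units_eq_one_or (-(G.deg i)).negOnePow with h5 | h5
  · rw [h5]
    exact ⟨e⟩
  · rw [h5]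
    obtain ⟨z⟩ := h_ZK f D
    obtain ⟨t⟩ := (h_TWC f 0 (-(G.deg i)) (-1) 1).1
    rw [zero_add, mul_one] at t
    exact ⟨e ≪≫ (twF f (-(G.deg i)) 1).mapIso z ≪≫ t.app (kk D)⟩

end Pool.Agent.VDC
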