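import Pool.Agent.VDC.T1

/-!
# VDC: homogeneous components
-/

set_option autoImplicit false

open MvPolynomial

noncomputable section

namespace Pool.Agent.VDC

namespace CMP_

theorem coeff_cmp (m : ℤ) (p : Sr) (a : Fin 4 →₀ ℕ) :
    coeff a (cmp m p) = if wd a = m then coeff a p else 0 := by
  have h : wd a = Finsupp.weight wt a := by
    rw [Finsupp.weight_apply, wd, Finsupp.sum_fintype _ _ (fun i => by simp)]
    exact Finset.sum_congr rfl fun i _ => by simp [mul_comm]
  rw [h]
  unfold cmp
  rw [coeff_weightedHomogeneousComponent]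

theorem cmp_mul (l : Sr) (e : ℤ) (p : Sr) (m : ℤ) (hl : Hmg l e) :
    cmp m (l * p) = l * cmp (m - e) p := by
  classical
  ext a
  rw [coeff_cmp, coeff_mul, coeff_mul]
  have key : ∀ x ∈ Finset.HasAntidiagonal.antidiagonal a, coeff x.1 l * coeff x.2 (cmp (m - e) p) =
      if wd a = m then coeff x.1 l * coeff x.2 p else 0 := by
    rintro ⟨b, c⟩ hbc
    rw [Finset.HasAntidiagonal.mem_antidiagonal] at hbc
    simp only at hbc
    show coeff b l * coeff c (cmp (m - e) p) = if wd a = m then coeff b l * coeff c p else 0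
    rw [coeff_cmp]
    by_cases hb : coeff b l = 0
    · rw [hb]; simp
    · have h1 := hl b hb
      have h2 : wd a = e + wd c := by rw [← hbc, wd_add, h1]
      by_cases h3 : wd a = m
      · rw [if_pos h3, if_pos (by omega)]
      · rw [if_neg h3, if_neg (by omega), mul_zero]
  rw [Finset.sum_congr rfl key]
  by_cases h3 : wd a = m
  · simp [h3]
  · simp [h3]

end CMP_

open CMP_ in
theorem p_CMP : T_CMP := by
  refine ⟨fun p m a ha => ?_, fun p m hp => ?_, fun p m k hp hk => ?_,
    fun l e p m hl => cmp_mul l e p m hl⟩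
  · rw [coeff_cmp] at ha
    by_contra h
    exact ha (if_neg h)
  · ext a
    rw [coeff_cmp]
    by_cases h : coeff a p = 0
    · rw [h]; simp
    · rw [if_pos (hp a h)]
  · ext a
    rw [coeff_cmp]
    by_cases h : coeff a p = 0
    · rw [h]; simp
    · rw [if_neg (by rw [hp a h]; exact hk.symm)]
      simp

end Pool.Agent.VDC

end
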