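import Pool.Agent.VDC.T2

/-! COF: the linear coefficients of the operator on `k`. -/

set_option autoImplicit false

open MvPolynomial CategoryTheory

noncomputable section

namespace Pool.Agent.VDC

namespace COF_

/-- the linear coefficients of the Koszul construction -/
def TC {α : Type} [DecidableEq α] (C : Fin 4 → α → α → ℤ) (r : Fin 4) :
    Fin 4 → α ⊕ α → α ⊕ α → ℤ
  | k, Sum.inl i, Sum.inl j => C k i j
  | _, Sum.inl _, Sum.inr _ => 0
  | k, Sum.inr i, Sum.inl j => if i = j then (if k = r then 1 else 0) else 0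
  | k, Sum.inr i, Sum.inr j => -C k i j

lemma lc_X (r k : Fin 4) : coeff (Finsupp.single k 1) (X r : Sr) = if k = r then 1 else 0 := by
  classical
  rw [coeff_X]
  by_cases h : k = r
  · subst h
    simp
  · rw [if_neg h, if_neg]
    intro h1
    apply h
    have h2 := (Finsupp.single_left_inj (one_ne_zero : (1 : ℕ) ≠ 0)).1 h1
    exact h2.symm

lemma TTc (Y : PO) (r : Fin 4) (a : Sr) (e : ℤ) (hl : Hmg (X r : Sr) e) (ha : Hmg a (6 - e))
    (C : Fin 4 → Y.ι → Y.ι → ℤ)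
    (hY : ∀ k i j, coeff (Finsupp.single k 1) (Y.Φ i j) = (C k i j : ℂ))
    (h0 : ∀ k, coeff (Finsupp.single k 1) a = 0) (k : Fin 4)
    (i j : (TT Y (X r) a e hl ha).ι) :
    coeff (Finsupp.single k 1) ((TT Y (X r) a e hl ha).Φ i j) = ((TC C r k i j : ℤ) : ℂ) := by
  rcases i with i | i <;> rcases j with j | j
  · exact hY k i j
  · show coeff (Finsupp.single k 1) ((a • (1 : Matrix Y.ι Y.ι Sr)) i j) = ((0 : ℤ) : ℂ)
    rw [Matrix.smul_apply, smul_eq_mul, Matrix.one_apply]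
    split_ifs
    · rw [mul_one, h0, Int.cast_zero]
    · rw [mul_zero, coeff_zero, Int.cast_zero]
  · show coeff (Finsupp.single k 1) (((X r : Sr) • (1 : Matrix Y.ι Y.ι Sr)) i j) =
      ((if i = j then (if k = r then 1 else 0) else 0 : ℤ) : ℂ)
    rw [Matrix.smul_apply, smul_eq_mul, Matrix.one_apply]
    split_ifs with h1 h2
    · rw [mul_one, lc_X, if_pos h2, Int.cast_one]
    · rw [mul_one, lc_X, if_neg h2, Int.cast_zero]
    · rw [mul_zero, coeff_zero, Int.cast_zero]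
  · show coeff (Finsupp.single k 1) (-(Y.Φ i j)) = ((-C k i j : ℤ) : ℂ)
    rw [coeff_neg, hY, Int.cast_neg]

/-- the index types -/
abbrev B4 : Type := (((Unit ⊕ Unit) ⊕ (Unit ⊕ Unit)) ⊕ ((Unit ⊕ Unit) ⊕ (Unit ⊕ Unit))) ⊕
  (((Unit ⊕ Unit) ⊕ (Unit ⊕ Unit)) ⊕ ((Unit ⊕ Unit) ⊕ (Unit ⊕ Unit)))

local instance iF : Fintype B4 := inferInstance

local instance iD : DecidableEq B4 := inferInstance

/-- all linear coefficients -/
def C4 : Fin 4 → B4 → B4 → ℤ :=
  TC (TC (TC (TC (fun _ (_ _ : Unit) => (0 : ℤ)) 1) 2) 3) 0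

/-- all degrees -/
def d4 : B4 → ℤ :=
  Sum.elim (Sum.elim (Sum.elim (Sum.elim (fun _ : Unit => -7) fun _ => -7 + 3 - 1)
    (fun i => Sum.elim (fun _ : Unit => -7) (fun _ => -7 + 3 - 1) i + 3 - 1))
    (fun i => Sum.elim (Sum.elim (fun _ : Unit => -7) fun _ => -7 + 3 - 1)
      (fun i => Sum.elim (fun _ : Unit => -7) (fun _ => -7 + 3 - 1) i + 3 - 1) i + 3 - 2))
    (fun i => Sum.elim (Sum.elim (Sum.elim (fun _ : Unit => -7) fun _ => -7 + 3 - 1)
      (fun i => Sum.elim (fun _ : Unit => -7) (fun _ => -7 + 3 - 1) i + 3 - 1))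
      (fun i => Sum.elim (Sum.elim (fun _ : Unit => -7) fun _ => -7 + 3 - 1)
        (fun i => Sum.elim (fun _ : Unit => -7) (fun _ => -7 + 3 - 1) i + 3 - 1) i + 3 - 2) i +
          3 - 1)

/-- a summand -/
def sd {α : Type} (b : Bool) (x : α) : α ⊕ α := if b then Sum.inr x else Sum.inl x

/-- an index from its bits -/
def mk (b : Fin 4 → Bool) : B4 := sd (b 0) (sd (b 3) (sd (b 2) (sd (b 1) ())))

/-- one position changed -/
def tt (i : Fin 4) : B4 := mk fun k => decide (k ≠ i)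

/-- two positions changed -/
def qq (i j : Fin 4) : B4 := mk fun k => decide (k ≠ i ∧ k ≠ j)

/-- the top index -/
def tp : B4 := Sum.inr (Sum.inr (Sum.inr (Sum.inr ())))

lemma wt_eq (i : Fin 4) : wt i = if i = 3 then 2 else 1 := by
  fin_cases i <;> simp [wt]

lemma tt_inj : Function.Injective tt := by
  intro i j
  revert i j
  decide

set_option maxRecDepth 100000 in
lemma d_two : ∀ j : B4, d4 j = -2 ↔ ∃ i : Fin 3, j = tt (Fin.castSucc i) := by
  decide

set_option maxRecDepth 100000 in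
lemma d_one : ∀ j : B4, d4 j = -1 ↔ j = tt 3 := by
  decide

set_option maxRecDepth 100000 in
lemma c_one : ∀ i j : Fin 4, C4 i tp (tt j) ≠ 0 ↔ i = j := by
  decide

set_option maxRecDepth 100000 in
lemma c_two : ∀ i : Fin 4, ∀ j : B4, C4 i tp j ≠ 0 → j = tt i := by
  decide

set_option maxRecDepth 100000 in
lemma d_q : ∀ i j : Fin 4, i ≠ j →
    d4 (qq i j) = (if i = 3 then 2 else 1) + (if j = 3 then 2 else 1) - 6 := by
  decide

set_option maxRecDepth 100000 in
lemma q_symm : ∀ i j : Fin 4, qq i j = qq j i := by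
  decide

set_option maxRecDepth 100000 in
lemma c_q : ∀ i j k l : Fin 4, i ≠ j →
    (C4 k (tt l) (qq i j) ≠ 0 ↔ (k = i ∧ l = j) ∨ (k = j ∧ l = i)) := by
  decide

end COF_

theorem p_COF : T_COF := by
  intro f D K o hK ho
  subst hK
  have ho' : o = tg D.kd (-7) := eq_of_heq ho
  subst ho'
  have hwt : ∀ i k : Fin 4, wt k ≠ 6 - wt i := by
    intro i k
    rw [COF_.wt_eq, COF_.wt_eq]
    split_ifs <;> norm_num
  have ha : ∀ i k, coeff (Finsupp.single k 1) (D.a i) = 0 := by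
    intro i k
    by_contra h
    have h1 := D.ha i _ h
    have h2 : wd (Finsupp.single k 1) = wt k := by
      rw [wd, Finset.sum_eq_single k]
      · simp
      · intro b _ hb
        simp [hb.symm]
      · simp
    rw [h2] at h1
    exact hwt i k h1
  have hC : ∀ (k : Fin 4) (i j : COF_.B4),
      coeff (Finsupp.single k 1) ((kk D).Φ i j) = ((COF_.C4 k i j : ℤ) : ℂ) := by
    intro k i j
    have h1 := COF_.TTc (UU (-7)) 1 (D.a 1) (wt 1) (Hmg.X 1) (D.ha 1) (fun _ _ _ => 0)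
      (fun k i j => by
        show coeff (Finsupp.single k 1) (0 : Sr) = ((0 : ℤ) : ℂ)
        rw [coeff_zero, Int.cast_zero]) (ha 1)
    have h2 := COF_.TTc _ 2 (D.a 2) (wt 2) (Hmg.X 2) (D.ha 2) _ h1 (ha 2)
    have h3 := COF_.TTc _ 3 (D.a 3) (wt 3) (Hmg.X 3) (D.ha 3) _ h2 (ha 3)
    have h4 := COF_.TTc _ 0 (D.a 0) (wt 0) (Hmg.X 0) (D.ha 0) _ h3 (ha 0)
    exact h4 k i j
  have hd : ∀ j : COF_.B4, (kk D).deg j = COF_.d4 j := by
    intro j
    rcases j with ((j | j) | (j | j)) | ((j | j) | (j | j)) <;> rcases j with j | j <;> rfl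
  refine ⟨COF_.tt, COF_.tt_inj, ?_, ?_, ?_, ?_, COF_.qq, ?_, COF_.q_symm, ?_⟩
  · intro j
    rw [hd]
    exact COF_.d_two j
  · intro j
    rw [hd]
    exact COF_.d_one j
  · intro i j
    have h := hC i COF_.tp (COF_.tt j)
    change coeff (Finsupp.single i 1) ((kk D).Φ COF_.tp (COF_.tt j)) ≠ 0 ↔ i = j
    rw [h, Int.cast_ne_zero]
    exact COF_.c_one i j
  · intro i j hj
    have h := hC i COF_.tp j
    change coeff (Finsupp.single i 1) ((kk D).Φ COF_.tp j) ≠ 0 at hj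
    rw [h, Int.cast_ne_zero] at hj
    exact COF_.c_two i j hj
  · intro i j hij
    rw [hd, COF_.wt_eq, COF_.wt_eq]
    exact COF_.d_q i j hij
  · intro i j k l hij
    have h := hC k (COF_.tt l) (COF_.qq i j)
    rw [h, Int.cast_ne_zero]
    exact COF_.c_q i j k l hij

end Pool.Agent.VDC
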