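import Pool.Agent.VDC.T1

/-!
# VDC: descending the symmetry
-/

set_option autoImplicit false

open MvPolynomial CategoryTheory

noncomputable section

namespace Pool.Agent.VDC

namespace DEC_

lemma hdim_zero (X Y : PO) (I : Ideal Sr) (s ρ : ℤ) (h : HM X Y ρ = ⊥) :
    hdim X Y I s ρ = 0 := by
  have h1 : Zc X Y I s ρ = ⊥ := by
    rw [eq_bot_iff, ← h]
    exact inf_le_left
  have h2 : Subsingleton (Zc X Y I s ρ) := by
    rw [h1]
    infer_instance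
  unfold hdim
  have h3 : Subsingleton (Zc X Y I s ρ ⧸ (Bc X Y I s ρ).comap (Zc X Y I s ρ).subtype) :=
    (Submodule.mkQ_surjective _).subsingleton
  exact Module.finrank_zero_of_subsingleton

lemma periodic (δ : ℤ → ℤ) (c ρ₀ : ℤ) (hc : c ≠ 0) (h : ∀ ρ, δ ρ = δ (ρ + c))
    (h0 : ∀ ρ ≤ ρ₀, δ ρ = 0) (ρ : ℤ) : δ ρ = 0 := by
  have hn : ∀ (n : ℕ) (ρ : ℤ), δ ρ = δ (ρ + n * c) := by
    intro n
    induction n with
    | zero => intro ρ; simp
    | succ n ih =>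
      intro ρ
      rw [ih ρ, h (ρ + n * c)]
      congr 1
      push_cast
      ring
  rcases lt_or_gt_of_ne hc with hc' | hc'
  · set n : ℕ := (|ρ| + |ρ₀|).toNat with hnd
    have hn1 : (n : ℤ) = |ρ| + |ρ₀| := Int.toNat_of_nonneg (by positivity)
    rw [hn n ρ]
    apply h0
    have h1 : (n : ℤ) * c ≤ (n : ℤ) * (-1) :=
      mul_le_mul_of_nonneg_left (by omega) (by positivity)
    have h2 := le_abs_self ρ
    have h3 := neg_abs_le ρ₀
    linarith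
  · set n : ℕ := (|ρ| + |ρ₀|).toNat with hnd
    have hn1 : (n : ℤ) = |ρ| + |ρ₀| := Int.toNat_of_nonneg (by positivity)
    have h4 := hn n (ρ - n * c)
    rw [sub_add_cancel] at h4
    rw [← h4]
    apply h0
    have h1 : (n : ℤ) * 1 ≤ (n : ℤ) * c :=
      mul_le_mul_of_nonneg_left (by omega) (by positivity)
    have h2 := le_abs_self ρ
    have h3 := neg_abs_le ρ₀
    linarith

end DEC_

theorem p_DEC (hLES : T_LES) (hHVAN : T_HVAN) : T_DEC := by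
  intro f X Y I l e hI hl hnz he hNH hsym s ρ hs
  obtain ⟨ρ₀, hρ₀⟩ := hHVAN X.toPO Y.toPO
  have hs' : (-s) * (-s) = 1 := by rw [neg_mul_neg]; exact hs
  have hper : ∀ ρ : ℤ, (hdim X.toPO Y.toPO I s ρ : ℤ) - hdim X.toPO Y.toPO I (-s) ρ =
      (hdim X.toPO Y.toPO I s (ρ + (3 - e)) : ℤ) - hdim X.toPO Y.toPO I (-s) (ρ + (3 - e)) := by
    intro ρ
    have h1 := hLES f X Y I l e s ρ hs hI hl hnz (Or.inr hNH)
    have h2 := hLES f X Y I l e (-s) ρ hs' hI hl hnz (Or.inr hNH)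
    have h3 := hsym s ρ hs
    rw [h1, h2, neg_neg] at h3
    have h4 : ρ + 3 - e = ρ + (3 - e) := by ring
    rw [h4] at h3
    have h5 : (hdim X.toPO Y.toPO I s ρ : ℤ) + hdim X.toPO Y.toPO I (-s) (ρ + (3 - e)) =
        hdim X.toPO Y.toPO I (-s) ρ + hdim X.toPO Y.toPO I s (ρ + (3 - e)) := by
      exact_mod_cast h3
    linarith
  have hz : ∀ ρ ≤ ρ₀, (hdim X.toPO Y.toPO I s ρ : ℤ) - hdim X.toPO Y.toPO I (-s) ρ = 0 := by
    intro ρ hρ
    rw [DEC_.hdim_zero _ _ _ _ _ (hρ₀ ρ hρ), DEC_.hdim_zero _ _ _ _ _ (hρ₀ ρ hρ)]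
    simp
  have hfin := DEC_.periodic
    (fun ρ => (hdim X.toPO Y.toPO I s ρ : ℤ) - hdim X.toPO Y.toPO I (-s) ρ) (3 - e) ρ₀
    (by intro h; apply he; omega) hper hz ρ
  have : (hdim X.toPO Y.toPO I s ρ : ℤ) = hdim X.toPO Y.toPO I (-s) ρ := by linarith
  exact_mod_cast this

end Pool.Agent.VDC
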