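import Pool.Agent.VDC.T2

/-!
# VDC: the discriminant does not vanish identically
-/

set_option autoImplicit false

open MvPolynomial CategoryTheory

noncomputable section

namespace Pool.Agent.VDC

lemma DISC_vars {g : Sr} (h : ∀ a, coeff a g ≠ 0 → a 3 = 0) : (3 : Fin 4) ∉ g.vars := by
  classical
  intro h3
  rw [mem_vars_iff_mem_support] at h3
  obtain ⟨d, hd, hd3⟩ := h3
  exact (Finsupp.mem_support_iff.1 hd3) (h d (mem_support_iff.1 hd))

lemma DISC_pd {g : Sr} (h : ∀ a, coeff a g ≠ 0 → a 3 = 0) : pderiv (3 : Fin 4) g = 0 :=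
  pderiv_eq_zero_of_notMem_vars (DISC_vars h)

lemma DISC_ev {g : Sr} (h : ∀ a, coeff a g ≠ 0 → a 3 = 0) (v w : Fin 4 → ℂ)
    (hvw : ∀ i, i ≠ 3 → v i = w i) : eval v g = eval w g := by
  refine eval₂Hom_congr' rfl (fun i hi _ => hvw i ?_) rfl
  rintro rfl
  exact DISC_vars h hi

lemma DISC_zero {g : Sr} {m : ℤ} (hm : m ≠ 0) (h : Hmg g m) : eval (0 : Fin 4 → ℂ) g = 0 := by
  have h0 : coeff 0 g = 0 := by
    by_contra hc
    have := h 0 hc
    apply hm
    rw [← this]
    simp [wd]
  have : eval (0 : Fin 4 → ℂ) g = constantCoeff g := by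
    rw [← MvPolynomial.constantCoeff_eq] at h0
    rw [show eval (0 : Fin 4 → ℂ) g = constantCoeff g from by
      rw [MvPolynomial.eval_zero]]
  rw [this, constantCoeff_eq, h0]

theorem p_DISC : T_DISC := by
  intro f f₄ f₆ hf h4 h6 h4' h6' hfe hD
  obtain ⟨-, hs⟩ := hf
  by_cases hz : f₄ = 0
  · subst hz
    have h60 : f₆ = 0 := by
      have h1 : (27 : Sr) * f₆ ^ 2 = 0 := by
        rw [← hD]; ring
      rcases mul_eq_zero.1 h1 with h2 | h2
      · exfalso
        have h3 : (27 : Sr) = C 27 := (map_ofNat C 27).symm
        rw [h3] at h2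
        have h4 : (27 : ℂ) = 0 := by
          have := (C_eq_zero (σ := Fin 4) (R := ℂ)).1 h2
          exact this
        norm_num at h4
      · exact pow_eq_zero_iff (two_ne_zero) |>.1 h2
    subst h60
    have hf2 : f = X 3 ^ 3 := by rw [hfe]; ring
    have := hs (Pi.single 0 1) (fun i => by
      rw [hf2, pderiv_pow]
      simp)
    have h0 := congrFun this 0
    simp at h0
  · obtain ⟨v, hv⟩ : ∃ v : Fin 4 → ℂ, eval v f₄ ≠ 0 := by
      by_contra hc
      push Not at hc
      apply hz
      apply MvPolynomial.funext
      intro v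
      rw [hc v, map_zero]
    set c : ℂ := -3 * eval v f₆ / (2 * eval v f₄) with hc
    set p : Fin 4 → ℂ := Function.update v 3 c with hp
    have hpv : ∀ i, i ≠ 3 → p i = v i := fun i hi => by
      rw [hp, Function.update_of_ne hi]
    have hp3 : p 3 = c := by rw [hp, Function.update_self]
    have e4 : eval p f₄ = eval v f₄ := DISC_ev h4' p v hpv
    have e6 : eval p f₆ = eval v f₆ := DISC_ev h6' p v hpv
    rw [← e4] at hv
    rw [← e4, ← e6] at hc
    have hDe : 4 * (eval p f₄) ^ 3 + 27 * (eval p f₆) ^ 2 = 0 := by
      have := congrArg (eval p) hD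
      simpa using this
    have hp0 : p = 0 := by
      apply hs
      intro i
      have hDi : 12 * (eval p f₄) ^ 2 * eval p (pderiv i f₄) +
          54 * eval p f₆ * eval p (pderiv i f₆) = 0 := by
        have h1 : pderiv i (4 * f₄ ^ 3 + 27 * f₆ ^ 2) = 0 := by rw [hD, map_zero]
        have h2 : pderiv i (4 * f₄ ^ 3 + 27 * f₆ ^ 2) =
            12 * f₄ ^ 2 * pderiv i f₄ + 54 * f₆ * pderiv i f₆ := by
          have h4C : (4 : Sr) = C 4 := (map_ofNat C 4).symm
          have h27C : (27 : Sr) = C 27 := (map_ofNat C 27).symm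
          rw [map_add]
          rw [h4C, h27C, pderiv_C_mul, pderiv_C_mul, pderiv_pow, pderiv_pow, ← h4C, ← h27C]
          push_cast
          ring
        have h3 := congrArg (eval p) (h2.symm.trans h1)
        simpa using h3
      have hb : eval p f₆ ≠ 0 := by
        intro hb
        rw [hb] at hDe
        apply hv
        have : (eval p f₄) ^ 3 = 0 := by linear_combination hDe / 4
        exact pow_eq_zero_iff (three_ne_zero) |>.1 this
      by_cases hi : i = 3
      · subst hi
        have hpd : pderiv 3 f = 3 * X 3 ^ 2 + f₄ := by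
          rw [hfe, map_add, map_add, pderiv_pow, pderiv_mul, DISC_pd h4', DISC_pd h6',
            pderiv_X_self]
          push_cast
          ring
        rw [hpd]
        simp only [map_add, map_mul, map_pow, eval_X, hp3, map_ofNat]
        rw [hc]
        field_simp
        push_cast
        linear_combination hDe
      · have hpd : pderiv i f = pderiv i f₄ * X 3 + pderiv i f₆ := by
          rw [hfe, map_add, map_add, pderiv_pow, pderiv_mul, pderiv_X_of_ne (Ne.symm hi)]
          ring
        rw [hpd]
        simp only [map_add, map_mul, eval_X, hp3]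
        have key : 54 * eval p f₆ * (eval p (pderiv i f₄) * c + eval p (pderiv i f₆)) = 0 := by
          have hc2 : c * (2 * eval p f₄) = -3 * eval p f₆ := by
            rw [hc]
            field_simp
          refine (mul_eq_zero.1 (?_ : eval p f₄ * (54 * eval p f₆ *
            (eval p (pderiv i f₄) * c + eval p (pderiv i f₆))) = 0)).resolve_left hv
          linear_combination (27 * eval p f₆ * eval p (pderiv i f₄)) * hc2 +
            (-3 * eval p (pderiv i f₄)) * hDe + eval p f₄ * hDi
        rcases mul_eq_zero.1 key with h | h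
        · exfalso
          rcases mul_eq_zero.1 h with h | h
          · norm_num at h
          · exact hb h
        · exact h
    rw [hp0] at hv
    exact hv (DISC_zero (by norm_num) h4)

end Pool.Agent.VDC
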