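import Pool.Agent.VDC.T1

/-! DIV: division with homogeneous quotient. -/

set_option autoImplicit false

open MvPolynomial CategoryTheory

noncomputable section

namespace Pool.Agent.VDC

theorem p_DIV (h1 : T_CMP) : T_DIV := by
  intro X Y I l e ρ hI hl g hg hgI
  obtain ⟨c1, c2, -, c4⟩ := h1
  have key : ∀ i j, ∃ u ∈ I, ∃ v : Sr, g i j = u + l * v := by
    intro i j
    obtain ⟨u, hu, w, hw, h⟩ := Submodule.mem_sup.1 (hgI i j)
    obtain ⟨v, hv⟩ := Ideal.mem_span_singleton.1 hw
    exact ⟨u, hu, v, by rw [← h, hv]⟩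
  choose u hu v huv using key
  refine ⟨Matrix.of fun i j => cmp (X.deg j + ρ - Y.deg i - e) (v i j), ?_, ?_⟩
  · intro i j
    exact (c1 (v i j) _).congr (by ring)
  · intro i j
    have h2 : g i j = cmp (X.deg j + ρ - Y.deg i) (u i j) +
        l * cmp (X.deg j + ρ - Y.deg i - e) (v i j) := by
      have h3 := c2 (g i j) _ (hg i j)
      rw [← c4 l e _ _ hl, ← h3]
      conv_lhs => rw [huv i j]
      unfold cmp
      rw [map_add]
    show g i j - l * cmp (X.deg j + ρ - Y.deg i - e) (v i j) ∈ I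
    rw [h2, add_sub_cancel_right]
    exact hI _ (hu i j) _

end Pool.Agent.VDC
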