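import Pool.Agent.VDC.T1

/-!
# VDC: DUAL, duality of finite dimensional complexes
-/

set_option autoImplicit false

open MvPolynomial CategoryTheory

noncomputable section

namespace Pool.Agent.VDC

namespace DUAL_

lemma Tr_add {ι : Type} [Fintype ι] (n : Fin 4 → ℕ) (x y : Matrix ι ι Sr) :
    Tr n (x + y) = Tr n x + Tr n y := by
  simp only [Tr, Matrix.trace_add, coeff_add]

lemma Tr_sub {ι : Type} [Fintype ι] (n : Fin 4 → ℕ) (x y : Matrix ι ι Sr) :
    Tr n (x - y) = Tr n x - Tr n y := by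
  simp only [Tr, Matrix.trace_sub, coeff_sub]

lemma Tr_smul {ι : Type} [Fintype ι] (n : Fin 4 → ℕ) (c : ℂ) (x : Matrix ι ι Sr) :
    Tr n (c • x) = c * Tr n x := by
  simp only [Tr, Matrix.trace_smul, coeff_smul, smul_eq_mul]

lemma Tr_zsmul {ι : Type} [Fintype ι] (n : Fin 4 → ℕ) (c : ℤ) (x : Matrix ι ι Sr) :
    Tr n (c • x) = (c : ℂ) * Tr n x := by
  rw [Tr, Tr, Matrix.trace_smul, coeff_smul, zsmul_eq_mul]

lemma Tr_comm {ι κ : Type} [Fintype ι] [Fintype κ] (n : Fin 4 → ℕ) (x : Matrix ι κ Sr)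
    (y : Matrix κ ι Sr) : Tr n (x * y) = Tr n (y * x) := by
  rw [Tr, Tr, Matrix.trace_mul_comm]

/-- the pairing -/
def pr (ι κ : Type) [Fintype ι] [Fintype κ] (n : Fin 4 → ℕ) :
    Matrix ι κ Sr →ₗ[ℂ] Matrix κ ι Sr →ₗ[ℂ] ℂ :=
  LinearMap.mk₂ ℂ (fun b a => Tr n (b * a))
    (fun x y z => by rw [Matrix.add_mul, Tr_add])
    (fun c x y => by rw [Matrix.smul_mul, Tr_smul, smul_eq_mul])
    (fun x y z => by rw [Matrix.mul_add, Tr_add])
    (fun c x y => by rw [Matrix.mul_smul, Tr_smul, smul_eq_mul])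

lemma pr_apply (ι κ : Type) [Fintype ι] [Fintype κ] (n : Fin 4 → ℕ) (b : Matrix ι κ Sr)
    (a : Matrix κ ι Sr) : pr ι κ n b a = Tr n (b * a) := rfl

/-- the differential raises the degree by three -/
lemma dd_HM (X Y : PO) (s ρ : ℤ) (g : Matrix Y.ι X.ι Sr) (hg : g ∈ HM X Y ρ) :
    dd X Y s g ∈ HM X Y (ρ + 3) := by
  intro i j
  rw [dd_apply, Matrix.sub_apply, Matrix.smul_apply, Matrix.mul_apply, Matrix.mul_apply]
  apply Hmg.sub
  · exact Hmg.sum fun k _ => ((Y.hom i k).mul (hg k j)).congr (by ring)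
  · apply Hmg.zsmul
    exact Hmg.sum fun k _ => ((hg i k).mul (X.hom k j)).congr (by ring)

/-- the adjoint of the differential -/
lemma adj (X Y : PO) (n : Fin 4 → ℕ) (s : ℤ) (hs : s * s = 1) (b : Matrix X.ι Y.ι Sr)
    (h : Matrix Y.ι X.ι Sr) :
    Tr n (b * dd X Y (-s) h) = (s : ℂ) * Tr n (dd Y X (-s) b * h) := by
  have hs' : (s : ℂ) * (s : ℂ) = 1 := by exact_mod_cast hs
  have e1 : Tr n (b * dd X Y (-s) h) =
      Tr n (b * (Y.Φ * h)) + (s : ℂ) * Tr n (b * (h * X.Φ)) := by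
    rw [dd_apply, neg_smul, sub_neg_eq_add, Matrix.mul_add, Tr_add, Matrix.mul_smul, Tr_zsmul]
  have e2 : Tr n (dd Y X (-s) b * h) =
      Tr n (X.Φ * b * h) + (s : ℂ) * Tr n (b * Y.Φ * h) := by
    rw [dd_apply, neg_smul, sub_neg_eq_add, Matrix.add_mul, Tr_add, Matrix.smul_mul, Tr_zsmul]
  have e3 : Tr n (b * (h * X.Φ)) = Tr n (X.Φ * b * h) := by
    rw [← Matrix.mul_assoc, Tr_comm, ← Matrix.mul_assoc]
  rw [e1, e2, e3, Matrix.mul_assoc b, mul_add, ← mul_assoc (s : ℂ) (s : ℂ), hs', one_mul, add_comm]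

lemma wd_sub (u v : Fin 4 →₀ ℕ) (h : ∀ i, v i ≤ u i) : wd (u - v) = wd u - wd v := by
  simp only [wd, Finsupp.coe_tsub, Pi.sub_apply]
  rw [← Finset.sum_sub_distrib]
  refine Finset.sum_congr rfl fun i _ => ?_
  rw [Nat.cast_sub (h i)]
  ring

lemma wd_soc (n : Fin 4 → ℕ) (hn : ∀ i, 1 ≤ n i) : wd (soc n) = ∑ i, ((n i : ℤ) - 1) * wt i := by
  rw [wd]
  refine Finset.sum_congr rfl fun i _ => ?_
  have h1 : soc n i = n i - 1 := rfl
  rw [h1, Nat.cast_sub (hn i), Nat.cast_one, mul_comm]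

/-- matrices with entries in the ideal are orthogonal to everything -/
lemma orth (hM : T_MMEM) (n : Fin 4 → ℕ) (hn : ∀ i, 1 ≤ n i) {ι κ : Type} [Fintype ι] [Fintype κ]
    (b : Matrix ι κ Sr) (c : Matrix κ ι Sr) (hc : c ∈ IM (mI Finset.univ n) κ ι) :
    Tr n (b * c) = 0 := by
  have h1 : Matrix.trace (b * c) ∈ mI Finset.univ n := by
    rw [Matrix.trace]
    refine Ideal.sum_mem _ fun i _ => ?_
    rw [Matrix.diag_apply, Matrix.mul_apply]
    exact Ideal.sum_mem _ fun j _ => Ideal.mul_mem_left _ _ (hc j i)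
  by_contra h2
  obtain ⟨j, -, hj⟩ := (hM _ _ _).1 h1 (soc n) h2
  have h3 : soc n j = n j - 1 := rfl
  have h4 := hn j
  omega

/-- the pairing is nondegenerate modulo the ideal -/
lemma nondeg (hM : T_MMEM) (n : Fin 4 → ℕ) (hn : ∀ i, 1 ≤ n i) (X Y : PO) (ρ : ℤ)
    (c : Matrix Y.ι X.ι Sr) (hc : c ∈ HM X Y ρ)
    (h : ∀ b ∈ HM Y X (∑ i, ((n i : ℤ) - 1) * wt i - ρ), Tr n (b * c) = 0) :
    c ∈ IM (mI Finset.univ n) Y.ι X.ι := by
  classical
  intro i j
  rw [hM]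
  intro u hu
  by_contra hlt
  push Not at hlt
  have hlt' : ∀ k, u k ≤ soc n k := by
    intro k
    have h1 := hlt k (Finset.mem_univ k)
    have h2 : soc n k = n k - 1 := rfl
    omega
  have hsub : soc n - u + u = soc n := by
    ext k
    have := hlt' k
    simp only [Finsupp.coe_add, Finsupp.coe_tsub, Pi.add_apply, Pi.sub_apply]
    omega
  have hb : Matrix.single j i (monomial (soc n - u) (1 : ℂ)) ∈
      HM Y X (∑ i, ((n i : ℤ) - 1) * wt i - ρ) := by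
    intro j' i'
    by_cases hji : j = j' ∧ i = i'
    · obtain ⟨rfl, rfl⟩ := hji
      rw [Matrix.single_apply_same]
      intro v hv
      rw [coeff_monomial] at hv
      have hv' : soc n - u = v := by
        by_contra h2
        exact hv (if_neg h2)
      rw [← hv', wd_sub _ _ hlt', wd_soc n hn, hc i j u hu]
      ring
    · rw [Matrix.single_apply_of_ne _ _ _ _ _ hji]
      exact Hmg.zero _
  have h1 := h _ hb
  apply hu
  have h2 : Matrix.trace (Matrix.single j i (monomial (soc n - u) (1 : ℂ)) * c) =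
      monomial (soc n - u) (1 : ℂ) * c i j := by
    rw [Matrix.trace, Finset.sum_eq_single j]
    · rw [Matrix.diag_apply, Matrix.single_mul_apply_same]
    · intro k _ hk
      rw [Matrix.diag_apply, Matrix.single_mul_apply_of_ne _ _ _ _ _ hk]
    · intro hk
      exact absurd (Finset.mem_univ j) hk
  rw [Tr, h2] at h1
  have h3 : coeff (soc n - u + u) (monomial (soc n - u) (1 : ℂ) * c i j) = coeff u (c i j) := by
    rw [coeff_monomial_mul, one_mul]
  rw [← h3, hsub]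
  exact h1

end DUAL_

open DUAL_

theorem p_DUAL (hF : T_HFIN) (hM : T_MMEM) : T_DUAL := by
  intro f X Y n s ρ hn hs a ha hort
  have hs' : (s : ℂ) * (s : ℂ) = 1 := by exact_mod_cast hs
  set σ : ℤ := ∑ i, ((n i : ℤ) - 1) * wt i with hσ
  -- the spaces
  let V := HM Y.toPO X.toPO (σ - ρ)
  let H := HM X.toPO Y.toPO (ρ - 3)
  have : Module.Finite ℂ H := hF _ _ _
  -- the functional of `a`
  let φ : Module.Dual ℂ V := ((pr X.ι Y.ι n).flip a).comp V.subtype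
  -- the map to the dual space
  let Λ : V →ₗ[ℂ] Module.Dual ℂ H :=
    (LinearMap.lcomp ℂ ℂ H.subtype).comp
      ((pr X.ι Y.ι n).comp ((dd Y.toPO X.toPO (-s)).comp V.subtype))
  have hΛ : ∀ (b : V) (h : H), Λ b h = Tr n (dd Y.toPO X.toPO (-s) b.1 * h.1) := fun b h => rfl
  have hφ : ∀ b : V, φ b = Tr n (b.1 * a) := fun b => rfl
  have hker : φ ∈ (LinearMap.ker Λ).dualAnnihilator := by
    rw [Submodule.mem_dualAnnihilator]
    intro b hb
    rw [LinearMap.mem_ker] at hb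
    rw [hφ]
    apply hort
    refine ⟨b.2, ?_⟩
    show dd Y.toPO X.toPO (-s) b.1 ∈ IM (mI Finset.univ n) X.ι Y.ι
    apply nondeg hM n hn Y.toPO X.toPO (σ - ρ + 3) _ (dd_HM _ _ _ _ _ b.2)
    intro h hh
    have e1 : σ - (σ - ρ + 3) = ρ - 3 := by ring
    rw [← hσ, e1] at hh
    have e2 := hΛ b ⟨h, hh⟩
    rw [hb, LinearMap.zero_apply] at e2
    rw [Tr_comm]
    exact e2.symm
  rw [← LinearMap.range_dualMap_eq_dualAnnihilator_ker] at hker
  obtain ⟨ψ, hψ⟩ := hker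
  obtain ⟨h, hh⟩ := (Module.evalEquiv ℂ H).surjective ψ
  have key : ∀ b ∈ V, Tr n (b * a) = Tr n (dd Y.toPO X.toPO (-s) b * h.1) := by
    intro b hb
    have e1 : φ ⟨b, hb⟩ = ψ (Λ ⟨b, hb⟩) := by
      rw [← hψ]; rfl
    rw [hφ, ← hh, Module.evalEquiv_apply, Module.Dual.eval_apply, hΛ] at e1
    exact e1
  have hdh : dd X.toPO Y.toPO (-s) (s • h.1) ∈ HM X.toPO Y.toPO ρ := by
    have e1 : s • h.1 ∈ HM X.toPO Y.toPO (ρ - 3) := by
      intro i j
      exact (h.2 i j).zsmul s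
    have e2 := dd_HM _ _ (-s) _ _ e1
    rwa [sub_add_cancel] at e2
  have hc : a - dd X.toPO Y.toPO (-s) (s • h.1) ∈ IM (mI Finset.univ n) Y.ι X.ι := by
    apply nondeg hM n hn X.toPO Y.toPO ρ _ (Submodule.sub_mem _ ha.1 hdh)
    intro b hb
    rw [Matrix.mul_sub, Tr_sub, key b hb, adj X.toPO Y.toPO n s hs, Matrix.mul_smul, Tr_zsmul,
      ← mul_assoc, hs', one_mul, sub_self]
  refine ⟨ha.1, ?_⟩
  rw [← add_sub_cancel (dd X.toPO Y.toPO (-s) (s • h.1)) a]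
  refine Submodule.add_mem_sup ⟨s • h.1, ?_, rfl⟩ hc
  intro i j
  exact (h.2 i j).zsmul s

end Pool.Agent.VDC
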