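import Pool.Agent.VDC.T1

/-!
# VDC: target ETA (see Blueprint.lean.txt)
-/

set_option autoImplicit false

open MvPolynomial CategoryTheory

noncomputable section

namespace Pool.Agent.VDC

namespace ETA_

lemma HM_mul {X Y Z : PO} {a b c : ℤ} {g : Matrix Y.ι X.ι Sr} {h : Matrix Z.ι Y.ι Sr}
    (hg : g ∈ HM X Y a) (hh : h ∈ HM Y Z b) (hc : c = a + b) : h * g ∈ HM X Z c := by
  intro i j
  rw [Matrix.mul_apply]
  exact Hmg.sum fun k _ => ((hh i k).mul (hg k j)).congr (by rw [hc]; ring)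

lemma HM_psmul {X Y : PO} {a m c : ℤ} {g : Matrix Y.ι X.ι Sr} {p : Sr} (hp : Hmg p m)
    (hg : g ∈ HM X Y a) (hc : c = a + m) : p • g ∈ HM X Y c := by
  intro i j
  rw [Matrix.smul_apply, smul_eq_mul]
  exact (hp.mul (hg i j)).congr (by rw [hc]; ring)

lemma HM_phi (X : PO) : X.Φ ∈ HM X X 3 := X.hom

/-- boundaries, when `I = ⊥` -/
lemma mem_Bc {X Y : PO} {s ρ : ℤ} {g : Matrix Y.ι X.ι Sr} :
    g ∈ Bc X Y ⊥ s ρ ↔ ∃ h ∈ HM X Y (ρ - 3), g = Y.Φ * h + s • (h * X.Φ) := by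
  constructor
  · rintro ⟨_, h2⟩
    obtain ⟨_, ⟨h, hh, rfl⟩, c, hc, rfl⟩ := Submodule.mem_sup.1 h2
    refine ⟨h, hh, ?_⟩
    have h0 : c = 0 := by
      ext1 i j
      exact hc i j
    rw [h0, add_zero, dd_apply, neg_smul, sub_neg_eq_add]
  · rintro ⟨h, hh, rfl⟩
    have h1 : Y.Φ * h + s • (h * X.Φ) = dd X Y (-s) h := by
      rw [dd_apply, neg_smul, sub_neg_eq_add]
    refine ⟨?_, ?_⟩
    · refine add_mem (HM_mul hh (HM_phi Y) (by ring)) ?_
      intro i j
      exact ((HM_mul (HM_phi X) hh (c := ρ) (by ring)) i j).zsmul s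
    · rw [h1]
      exact Submodule.mem_sup_left ⟨h, hh, rfl⟩

/-- multiples of boundaries -/
lemma Bc_psmul {X Y : PO} {s ρ m c : ℤ} {g : Matrix Y.ι X.ι Sr} {p : Sr} (hp : Hmg p m)
    (hg : g ∈ Bc X Y ⊥ s ρ) (hc : c = ρ + m) : p • g ∈ Bc X Y ⊥ s c := by
  obtain ⟨h, hh, rfl⟩ := mem_Bc.1 hg
  refine mem_Bc.2 ⟨p • h, HM_psmul hp hh (by rw [hc]; ring), ?_⟩
  rw [Matrix.mul_smul, Matrix.smul_mul, smul_add, smul_comm s p]

/-- cycles, when `I = ⊥` -/
lemma mem_Zc {X Y : PO} {s ρ : ℤ} {g : Matrix Y.ι X.ι Sr} :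
    g ∈ Zc X Y ⊥ s ρ ↔ g ∈ HM X Y ρ ∧ Y.Φ * g = s • (g * X.Φ) := by
  constructor
  · rintro ⟨h1, h2⟩
    refine ⟨h1, ?_⟩
    have h0 : dd X Y s g = 0 := by
      ext1 i j
      exact h2 i j
    rw [dd_apply, sub_eq_zero] at h0
    exact h0
  · rintro ⟨h1, h2⟩
    refine ⟨h1, ?_⟩
    show dd X Y s g ∈ IM ⊥ Y.ι X.ι
    rw [dd_apply, h2, sub_self]
    exact zero_mem _

lemma le_of_hdim (hf : T_HFIN) {X Y : PO} {I : Ideal Sr} {s ρ : ℤ} (h : hdim X Y I s ρ = 0) :
    Zc X Y I s ρ ≤ Bc X Y I s ρ := by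
  have : Module.Finite ℂ (HM X Y ρ) := hf X Y ρ
  have : Module.Finite ℂ (Zc X Y I s ρ) :=
    Module.Finite.of_injective (Submodule.inclusion (inf_le_left : Zc X Y I s ρ ≤ HM X Y ρ))
      (Submodule.inclusion_injective _)
  have h1 : Subsingleton (Zc X Y I s ρ ⧸ (Bc X Y I s ρ).comap (Zc X Y I s ρ).subtype) :=
    Module.finrank_zero_iff.1 h
  rw [Submodule.Quotient.subsingleton_iff] at h1
  intro g hg
  have h2 : (⟨g, hg⟩ : Zc X Y I s ρ) ∈ (Bc X Y I s ρ).comap (Zc X Y I s ρ).subtype := by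
    rw [h1]; trivial
  exact h2

/-- the derivative of the entries -/
def D {ι κ : Type} (r : Fin 4) (A : Matrix ι κ Sr) : Matrix ι κ Sr := A.map (pderiv r)

lemma D_mul {ι κ ν : Type} [Fintype κ] (r : Fin 4) (A : Matrix ι κ Sr) (B : Matrix κ ν Sr) :
    D r (A * B) = D r A * B + A * D r B := by
  ext1 i j
  simp only [D, Matrix.map_apply, Matrix.mul_apply, Matrix.add_apply, map_sum,
    Derivation.leibniz, smul_eq_mul, Finset.sum_add_distrib]
  rw [add_comm]
  congr 1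
  exact Finset.sum_congr rfl fun k _ => mul_comm _ _

lemma D_add {ι κ : Type} (r : Fin 4) (A B : Matrix ι κ Sr) : D r (A + B) = D r A + D r B := by
  ext1 i j
  simp only [D, Matrix.map_apply, Matrix.add_apply, map_add]

lemma D_neg {ι κ : Type} (r : Fin 4) (A : Matrix ι κ Sr) : D r (-A) = -D r A := by
  ext1 i j
  simp only [D, Matrix.map_apply, Matrix.neg_apply, map_neg]

lemma D_smul_one {ι : Type} [DecidableEq ι] (r : Fin 4) (p : Sr) :
    D r (p • (1 : Matrix ι ι Sr)) = pderiv r p • 1 := by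
  ext1 i j
  simp only [D, Matrix.map_apply, Matrix.smul_apply, smul_eq_mul]
  by_cases h : i = j
  · subst h; simp
  · simp [h]

lemma Hmg.pderiv {p : Sr} {m : ℤ} (r : Fin 4) (hp : Hmg p m) :
    Hmg (MvPolynomial.pderiv r p) (m - wt r) := by
  classical
  intro a h
  rw [coeff_pderiv] at h
  have h1 := hp _ (left_ne_zero_of_mul h)
  rw [wd_add] at h1
  have h2 : wd (Finsupp.single r 1) = wt r := by
    rw [wd, Finset.sum_eq_single r]
    · simp
    · intro b _ hb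
      simp [hb.symm]
    · simp
  rw [h2] at h1
  linarith

lemma D_mem {X Y : PO} {ρ c : ℤ} (r : Fin 4) {g : Matrix Y.ι X.ι Sr} (hg : g ∈ HM X Y ρ)
    (hc : c = ρ - wt r) : D r g ∈ HM X Y c := by
  intro i j
  exact (Hmg.pderiv r (hg i j)).congr (by rw [hc]; ring)

/-- division of a homogeneous polynomial by powers of variables -/
lemma decomp (J : Finset (Fin 4)) (n : Fin 4 → ℕ) : ∀ (p : Sr) (m : ℤ), Hmg p m →
    (∀ a, coeff a p ≠ 0 → ∃ j ∈ J, n j ≤ a j) →
    ∃ q : Fin 4 → Sr, (∀ j, Hmg (q j) (m - n j * wt j)) ∧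
      p = ∑ j ∈ J, q j * (MvPolynomial.X j : Sr) ^ n j := by
  classical
  induction J using Finset.induction_on with
  | empty =>
    intro p m hp h
    refine ⟨fun _ => 0, fun j => Hmg.zero _, ?_⟩
    rw [Finset.sum_empty]
    ext a
    by_contra h1
    obtain ⟨j, hj, _⟩ := h a (by simpa using h1)
    simp at hj
  | insert r J hr ih =>
    intro p m hp h
    set s : Fin 4 →₀ ℕ := Finsupp.single r (n r) with hs
    have hws : wd s = n r * wt r := by
      rw [wd, Finset.sum_eq_single r]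
      · simp [hs, mul_comm]
      · intro b _ hb
        simp [hs, hb.symm]
      · simp
    have h1 : Hmg (modMonomial p s) m := by
      intro a ha
      by_cases hsa : s ≤ a
      · exact absurd (coeff_modMonomial_of_le p hsa) ha
      · rw [coeff_modMonomial_of_not_le p hsa] at ha
        exact hp a ha
    have h2 : ∀ a, coeff a (modMonomial p s) ≠ 0 → ∃ j ∈ J, n j ≤ a j := by
      intro a ha
      by_cases hsa : s ≤ a
      · exact absurd (coeff_modMonomial_of_le p hsa) ha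
      · rw [coeff_modMonomial_of_not_le p hsa] at ha
        obtain ⟨j, hj, hja⟩ := h a ha
        rw [Finset.mem_insert] at hj
        rcases hj with rfl | hj
        · exfalso
          apply hsa
          rw [hs, Finsupp.single_le_iff]
          exact hja
        · exact ⟨j, hj, hja⟩
    obtain ⟨q, hq, hq'⟩ := ih _ m h1 h2
    refine ⟨fun j => if j = r then divMonomial p s else q j, fun j => ?_, ?_⟩
    · beta_reduce
      by_cases hj : j = r
      · subst hj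
        rw [if_pos rfl]
        intro a ha
        rw [coeff_divMonomial] at ha
        have := hp _ ha
        rw [wd_add, hws] at this
        linarith
      · rw [if_neg hj]
        exact hq j
    · beta_reduce
      rw [Finset.sum_insert hr, if_pos rfl]
      have h3 : ∑ j ∈ J, (if j = r then divMonomial p s else q j) * (MvPolynomial.X j : Sr) ^ n j =
          modMonomial p s := by
        rw [hq']
        refine Finset.sum_congr rfl fun j hj => ?_
        rw [if_neg]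
        rintro rfl
        exact hr hj
      rw [h3]
      conv_lhs => rw [← divMonomial_add_modMonomial p s]
      congr 1
      rw [mul_comm, MvPolynomial.X_pow_eq_monomial]

lemma Hmg_X3 : Hmg (MvPolynomial.X 3 : Sr) 2 := Hmg.X 3

/-- the anticommutator of two null homotopies is a cycle -/
lemma anti_cycle {X : PO} {a b : Sr} {d e c : ℤ} {l t : Matrix X.ι X.ι Sr} (hl : l ∈ HM X X d)
    (ht : t ∈ HM X X e) (h1 : X.Φ * l + l * X.Φ = a • (1 : Matrix X.ι X.ι Sr))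
    (h2 : X.Φ * t + t * X.Φ = b • (1 : Matrix X.ι X.ι Sr)) (hc : c = d + e) :
    l * t + t * l ∈ Zc X X ⊥ 1 c := by
  refine mem_Zc.2 ⟨add_mem (HM_mul ht hl (by rw [hc]; ring)) (HM_mul hl ht hc), ?_⟩
  rw [one_smul]
  have e1 : X.Φ * l = a • 1 - l * X.Φ := eq_sub_of_add_eq h1
  have e2 : X.Φ * t = b • 1 - t * X.Φ := eq_sub_of_add_eq h2
  rw [Matrix.mul_add, ← Matrix.mul_assoc, ← Matrix.mul_assoc, e1, e2, Matrix.sub_mul,
    Matrix.sub_mul, Matrix.mul_assoc l X.Φ t, Matrix.mul_assoc t X.Φ l, e1, e2]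
  simp only [Matrix.mul_sub, Matrix.smul_mul, Matrix.one_mul, Matrix.mul_smul, Matrix.mul_one,
    Matrix.add_mul, Matrix.mul_assoc]
  abel

lemma pderiv_eq_zero {p : Sr} (r : Fin 4) (h : ∀ a, coeff a p ≠ 0 → a r = 0) :
    pderiv r p = 0 := by
  classical
  ext a
  rw [coeff_pderiv, coeff_zero]
  by_contra h1
  have h2 := h _ (left_ne_zero_of_mul h1)
  simp at h2

end ETA_

open ETA_ in
theorem p_ETA (hf : T_HFIN) : T_ETA := by
  rintro f ⟨⟨f₄, f₆, h4, h6, h4', h6', hfe⟩, _⟩ G hG hd l hl hl'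
  obtain ⟨q, hq, hq'⟩ := decomp {0, 1, 2} (fun _ => 2) f₄ 4 h4 (by
    intro a ha
    have h3 := h4' a ha
    have hw := h4 a ha
    rw [wd, Fin.sum_univ_four, h3] at hw
    simp only [wt, Matrix.cons_val_zero, Matrix.cons_val_one, Matrix.cons_val] at hw
    by_contra hc
    push Not at hc
    have c0 := hc 0 (by simp)
    have c1 := hc 1 (by simp)
    have c2 := hc 2 (by simp)
    omega)
  choose t ht ht' using hG
  have hcyc : Zc G.toPO G.toPO ⊥ 1 (-2) ≤ Bc G.toPO G.toPO ⊥ 1 (-2) := le_of_hdim hf hd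
  have hq4 : f₄ = q 0 * (X 0 : Sr) ^ 2 + q 1 * (X 1 : Sr) ^ 2 + q 2 * (X 2 : Sr) ^ 2 := by
    rw [hq']
    rw [Finset.sum_insert (by decide), Finset.sum_insert (by decide), Finset.sum_singleton,
      ← add_assoc]
  have hqd : ∀ j ∈ ({0, 1, 2} : Finset (Fin 4)), Hmg (q j) 2 := by
    intro j hj
    have h0 := hq j
    fin_cases hj
    · exact h0.congr (by simp [wt])
    · exact h0.congr (by simp [wt])
    · exact h0.congr (by simp [wt])
  have hpd : pderiv 3 f = 3 * (X 3 : Sr) ^ 2 + f₄ := by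
    rw [hfe, map_add, map_add, Derivation.leibniz, Derivation.leibniz_pow, pderiv_X_self,
      pderiv_eq_zero 3 h4', pderiv_eq_zero 3 h6']
    simp
  have e0 : G.Φ * t 0 + t 0 * G.Φ = (X 0 : Sr) ^ 2 • (1 : Matrix G.ι G.ι Sr) := ht' 0
  have e1 : G.Φ * t 1 + t 1 * G.Φ = (X 1 : Sr) ^ 2 • (1 : Matrix G.ι G.ι Sr) := ht' 1
  have e2 : G.Φ * t 2 + t 2 * G.Φ = (X 2 : Sr) ^ 2 • (1 : Matrix G.ι G.ι Sr) := ht' 2
  have m0 : t 0 ∈ HM G.toPO G.toPO (-1) := ht 0
  have m1 : t 1 ∈ HM G.toPO G.toPO (-1) := ht 1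
  have m2 : t 2 ∈ HM G.toPO G.toPO (-1) := ht 2
  have hX : Hmg (3 * X 3 : Sr) 2 := by
    have : (3 * X 3 : Sr) = (3 : ℂ) • X 3 := by
      rw [MvPolynomial.smul_eq_C_mul, map_ofNat]
    rw [this]
    exact Hmg_X3.csmul 3
  have hDP : D 3 G.Φ * G.Φ + G.Φ * D 3 G.Φ = -(pderiv 3 f • 1) := by
    rw [← D_mul, G.sq, D_neg, D_smul_one]
  have hDl : D 3 G.Φ * l + G.Φ * D 3 l + (D 3 l * G.Φ + l * D 3 G.Φ) = 1 := by
    rw [← D_mul, ← D_mul, ← D_add, hl', D_smul_one, pderiv_X_self, one_smul]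
  refine ⟨D 3 G.Φ + (3 * X 3 : Sr) • l + (q 0 • t 0 + q 1 • t 1 + q 2 • t 2), ?_, ?_⟩
  · refine mem_Zc.2 ⟨?_, ?_⟩
    · refine add_mem (add_mem (D_mem 3 (HM_phi _) (by simp [wt])) (HM_psmul hX hl (by norm_num)))
        (add_mem (add_mem (HM_psmul (hqd 0 (by simp)) m0 (by norm_num))
          (HM_psmul (hqd 1 (by simp)) m1 (by norm_num)))
          (HM_psmul (hqd 2 (by simp)) m2 (by norm_num)))
    · rw [neg_smul, one_smul, eq_neg_iff_add_eq_zero]
      calc _ = (D 3 G.Φ * G.Φ + G.Φ * D 3 G.Φ) + (3 * X 3 : Sr) • (G.Φ * l + l * G.Φ) +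
          (q 0 • (G.Φ * t 0 + t 0 * G.Φ) + q 1 • (G.Φ * t 1 + t 1 * G.Φ) +
            q 2 • (G.Φ * t 2 + t 2 * G.Φ)) := by
            simp only [Matrix.mul_add, Matrix.add_mul, Matrix.mul_smul, Matrix.smul_mul, smul_add]
            abel
        _ = 0 := by
            rw [hDP, hl', e0, e1, e2, hpd, hq4]
            simp only [smul_smul, ← add_smul, ← neg_smul]
            rw [← zero_smul Sr (1 : Matrix G.ι G.ι Sr)]
            congr 1
            ring
  · have key : l * (D 3 G.Φ + (3 * X 3 : Sr) • l + (q 0 • t 0 + q 1 • t 1 + q 2 • t 2)) +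
        (D 3 G.Φ + (3 * X 3 : Sr) • l + (q 0 • t 0 + q 1 • t 1 + q 2 • t 2)) * l - 1 =
        (G.Φ * (-D 3 l) + (1 : ℤ) • ((-D 3 l) * G.Φ)) + (3 * X 3 : Sr) • (l * l + l * l) +
        (q 0 • (l * t 0 + t 0 * l) + q 1 • (l * t 1 + t 1 * l) + q 2 • (l * t 2 + t 2 * l)) := by
      rw [← hDl, one_smul]
      simp only [Matrix.mul_add, Matrix.add_mul, Matrix.mul_smul, Matrix.smul_mul, smul_add,
        Matrix.mul_neg, Matrix.neg_mul]
      abel
    rw [key]
    refine add_mem (add_mem (mem_Bc.2 ⟨-D 3 l, neg_mem (D_mem 3 hl (by simp [wt])), rfl⟩) ?_)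
      (add_mem (add_mem ?_ ?_) ?_)
    · exact Bc_psmul hX (hcyc (anti_cycle hl hl hl' hl' (by norm_num))) (by norm_num)
    · exact Bc_psmul (hqd 0 (by simp)) (hcyc (anti_cycle hl m0 hl' e0 (by norm_num))) (by norm_num)
    · exact Bc_psmul (hqd 1 (by simp)) (hcyc (anti_cycle hl m1 hl' e1 (by norm_num))) (by norm_num)
    · exact Bc_psmul (hqd 2 (by simp)) (hcyc (anti_cycle hl m2 hl' e2 (by norm_num))) (by norm_num)

end Pool.Agent.VDC
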