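import Pool.Agent.VDC.T1

/-!
# VDC: target EUL (helper75)

The Euler class: `f = ∑ X_j ^ n_j f_j`, `Φ + 2 ∑ f_j t_j` is a cycle which commutes with `l`.
-/

set_option autoImplicit false

open MvPolynomial CategoryTheory

noncomputable section

namespace Pool.Agent.VDC

namespace EUL_

theorem IM_bot {ι κ : Type} {g : Matrix ι κ Sr} (h : g ∈ IM ⊥ ι κ) : g = 0 := by
  ext1 i j
  exact (Ideal.mem_bot).1 (h i j)

/-- degrees of multiples -/
theorem HM_smul {X Y : PO} {ρ : ℤ} {g : Matrix Y.ι X.ι Sr} (hg : g ∈ HM X Y ρ) {q : Sr} {d : ℤ}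
    (hq : Hmg q d) : q • g ∈ HM X Y (d + ρ) := by
  intro i j
  have h2 : Hmg (q * g i j) (d + (X.deg j + ρ - Y.deg i)) := hq.mul (hg i j)
  exact h2.congr (by ring)

theorem HM_mul {X Y Z : PO} {ρ σ : ℤ} {g : Matrix Y.ι X.ι Sr} (hg : g ∈ HM X Y ρ)
    {h : Matrix Z.ι Y.ι Sr} (hh : h ∈ HM Y Z σ) : h * g ∈ HM X Z (ρ + σ) := by
  intro i j
  rw [Matrix.mul_apply]
  exact Hmg.sum fun k _ => ((hh i k).mul (hg k j)).congr (by ring)

theorem HM_cast {X Y : PO} {ρ σ : ℤ} {g : Matrix Y.ι X.ι Sr} (hg : g ∈ HM X Y ρ)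
    (h : ρ = σ) : g ∈ HM X Y σ := h ▸ hg

/-- powers of the variables are homogeneous of degree `2` -/
theorem hX (j : Fin 4) : Hmg ((X j : Sr) ^ n2 j) 2 := by
  fin_cases j
  · exact ((pow_two (X 0 : Sr)).symm ▸ (Hmg.X 0).mul (Hmg.X 0))
  · exact ((pow_two (X 1 : Sr)).symm ▸ (Hmg.X 1).mul (Hmg.X 1))
  · exact ((pow_two (X 2 : Sr)).symm ▸ (Hmg.X 2).mul (Hmg.X 2))
  · exact ((pow_one (X 3 : Sr)).symm ▸ (Hmg.X 3))

/-- homogeneous polynomials of degree at least `4` are in the ideal -/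
theorem mem_of_hmg (hM : T_MMEM) {p : Sr} {m : ℤ} (hp : Hmg p m) (hm : 4 ≤ m) :
    p ∈ mI Finset.univ n2 := by
  rw [hM]
  intro a ha
  have h1 := hp a ha
  by_contra h2
  push Not at h2
  have e0 : a 0 < 2 := h2 0 (Finset.mem_univ _)
  have e1 : a 1 < 2 := h2 1 (Finset.mem_univ _)
  have e2 : a 2 < 2 := h2 2 (Finset.mem_univ _)
  have e3 : a 3 < 1 := h2 3 (Finset.mem_univ _)
  have h3 : wd a = (a 0 : ℤ) + a 1 + a 2 + 2 * a 3 := by
    rw [wd, Fin.sum_univ_four]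
    show (1 : ℤ) * a 0 + 1 * a 1 + 1 * a 2 + 2 * a 3 = _
    ring
  omega

/-- the decomposition of `f` -/
theorem dec (hM : T_MMEM) (hC : T_CMP) {f : Sr} (hf : Hmg f 6) :
    ∃ c : Fin 4 → Sr, (∀ j, Hmg (c j) 4) ∧ f = ∑ j, (X j : Sr) ^ n2 j * c j := by
  have h1 := mem_of_hmg hM hf (by norm_num)
  rw [mI, Finset.coe_univ, Set.image_univ, Ideal.mem_span_range_iff_exists_fun] at h1
  obtain ⟨c, hc⟩ := h1
  refine ⟨fun j => cmp 4 (c j), fun j => hC.1 _ _, ?_⟩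
  have h2 : cmp 6 f = f := hC.2.1 f 6 hf
  have h3 : cmp 6 f = ∑ j, cmp 6 ((X j : Sr) ^ n2 j * c j) := by
    unfold cmp
    rw [← map_sum, ← hc]
    congr 1
    exact Finset.sum_congr rfl fun j _ => mul_comm _ _
  rw [← h2, h3]
  refine Finset.sum_congr rfl fun j _ => ?_
  rw [hC.2.2.2 _ 2 _ _ (hX j)]
  norm_num

/-- membership in the boundaries modulo zero -/
theorem Bc_of {X Y : PO} {s ρ : ℤ} {h : Matrix Y.ι X.ι Sr} (hh : h ∈ HM X Y (ρ - 3))
    {g : Matrix Y.ι X.ι Sr} (hg : g = Y.Φ * h + s • (h * X.Φ)) : g ∈ Bc X Y ⊥ s ρ := by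
  have h1 : g = dd X Y (-s) h := by
    rw [hg, dd_apply, neg_smul, sub_neg_eq_add]
  refine ⟨?_, Submodule.mem_sup_left ⟨h, hh, h1.symm⟩⟩
  have h2 : Y.Φ * h ∈ HM X Y ρ := by
    intro i j
    rw [Matrix.mul_apply]
    exact Hmg.sum fun k _ => ((Y.hom i k).mul (hh k j)).congr (by ring)
  have h3 : h * X.Φ ∈ HM X Y ρ := by
    intro i j
    rw [Matrix.mul_apply]
    exact Hmg.sum fun k _ => ((hh i k).mul (X.hom k j)).congr (by ring)
  rw [hg]
  refine add_mem h2 ?_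
  intro i j
  exact (h3 i j).zsmul s

theorem of_Bc {X Y : PO} {s ρ : ℤ} {g : Matrix Y.ι X.ι Sr} (hg : g ∈ Bc X Y ⊥ s ρ) :
    ∃ h ∈ HM X Y (ρ - 3), g = Y.Φ * h + s • (h * X.Φ) := by
  obtain ⟨-, h2⟩ := hg
  obtain ⟨b, ⟨h, hh, rfl⟩, c, hc, hbc⟩ := Submodule.mem_sup.1 h2
  refine ⟨h, hh, ?_⟩
  rw [← hbc, IM_bot hc, add_zero, dd_apply, neg_smul, sub_neg_eq_add]

theorem Zc_of {X Y : PO} {s ρ : ℤ} {g : Matrix Y.ι X.ι Sr} (hg : g ∈ HM X Y ρ)
    (h : Y.Φ * g = s • (g * X.Φ)) : g ∈ Zc X Y ⊥ s ρ := by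
  refine ⟨hg, ?_⟩
  show dd X Y s g ∈ IM ⊥ Y.ι X.ι
  rw [dd_apply, h, sub_self]
  exact zero_mem _

/-- a subspace of dimension zero modulo another one -/
theorem le_of_finrank {V : Type} [AddCommGroup V] [Module ℂ V] (A B : Submodule ℂ V)
    (hA : Module.Finite ℂ A) (h : Module.finrank ℂ (A ⧸ B.comap A.subtype) = 0) : A ≤ B := by
  intro x hx
  have h1 : Subsingleton (A ⧸ B.comap A.subtype) := Module.finrank_zero_iff.1 h
  have h2 : (B.comap A.subtype).mkQ ⟨x, hx⟩ = 0 := Subsingleton.elim _ _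
  have h3 := (Submodule.Quotient.mk_eq_zero _).1 h2
  exact h3

end EUL_

open EUL_ in
theorem p_EUL (hF : T_HFIN) (hK : T_KA) (hM : T_MMEM) (hC : T_CMP) : T_EUL := by
  intro f hf G hN hd l hl hly hk
  obtain ⟨c, hc, hfc⟩ := dec hM hC (hK f hf).1
  choose t ht hta using hN
  have ht' : ∀ j, t j ∈ HM G.toPO G.toPO (-1) := fun j => HM_cast (ht j) (by norm_num)
  -- `l t_j + t_j l` is a boundary
  have hb : ∀ j, ∃ k ∈ HM G.toPO G.toPO (-5), l * t j + t j * l = G.Φ * k + k * G.Φ := by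
    intro j
    have h1 : l * t j + t j * l ∈ Zc G.toPO G.toPO ⊥ 1 (-2) := by
      refine Zc_of (add_mem (HM_cast (HM_mul (ht' j) hl) (by norm_num))
        (HM_cast (HM_mul hl (ht' j)) (by norm_num))) ?_
      have e1 : G.Φ * l = (X 3 : Sr) • (1 : Matrix G.ι G.ι Sr) - l * G.Φ :=
        eq_sub_of_add_eq hly
      have e2 : G.Φ * t j = ((X j : Sr) ^ n2 j) • (1 : Matrix G.ι G.ι Sr) - t j * G.Φ :=
        eq_sub_of_add_eq (hta j)
      rw [one_smul, Matrix.mul_add, ← Matrix.mul_assoc, ← Matrix.mul_assoc, e1, e2,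
        Matrix.sub_mul, Matrix.sub_mul, Matrix.mul_assoc l, Matrix.mul_assoc (t j), e1, e2,
        Matrix.mul_sub, Matrix.mul_sub, Matrix.add_mul]
      simp only [Matrix.smul_mul, Matrix.mul_smul, Matrix.one_mul, Matrix.mul_one,
        ← Matrix.mul_assoc]
      abel
    have h2 : Module.Finite ℂ (Zc G.toPO G.toPO ⊥ 1 (-2)) := by
      have := hF G.toPO G.toPO (-2)
      exact Submodule.finiteDimensional_of_le (inf_le_left : Zc G.toPO G.toPO ⊥ 1 (-2) ≤ _)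
    have h3 := le_of_finrank _ _ h2 hd h1
    obtain ⟨k, hk1, hk2⟩ := of_Bc h3
    exact ⟨k, HM_cast hk1 (by norm_num), by rw [hk2, one_smul]⟩
  choose k hk1 hk2 using hb
  -- the cycle
  set eps : Matrix G.ι G.ι Sr := G.Φ + ∑ j, (2 * c j) • t j with heps
  have h2c : ∀ j, Hmg (2 * c j) 4 := by
    intro j
    rw [two_mul]
    exact (hc j).add (hc j)
  have hsum : ∑ j, (2 * c j) • t j ∈ HM G.toPO G.toPO 3 :=
    Submodule.sum_mem _ fun j _ => HM_cast (HM_smul (ht' j) (h2c j)) (by norm_num)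
  have hepsH : eps ∈ HM G.toPO G.toPO 3 := add_mem (fun i j => G.hom i j) hsum
  have hcyc : G.Φ * eps + eps * G.Φ = 0 := by
    have e1 : ∀ j, G.Φ * ((2 * c j) • t j) + ((2 * c j) • t j) * G.Φ =
        ((2 : Sr) * ((X j : Sr) ^ n2 j * c j)) • (1 : Matrix G.ι G.ι Sr) := by
      intro j
      rw [Matrix.mul_smul, Matrix.smul_mul, ← smul_add, hta j, smul_smul]
      congr 1
      ring
    have e2 : G.Φ * (∑ j, (2 * c j) • t j) + (∑ j, (2 * c j) • t j) * G.Φ =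
        ((2 : Sr) * f) • (1 : Matrix G.ι G.ι Sr) := by
      rw [Matrix.mul_sum, Matrix.sum_mul, ← Finset.sum_add_distrib,
        Finset.sum_congr rfl fun j _ => e1 j, ← Finset.sum_smul, ← Finset.mul_sum, ← hfc]
    have e3 : G.Φ * eps + eps * G.Φ = (G.Φ * G.Φ + G.Φ * G.Φ) +
        (G.Φ * (∑ j, (2 * c j) • t j) + (∑ j, (2 * c j) • t j) * G.Φ) := by
      rw [heps, Matrix.mul_add, Matrix.add_mul]
      abel
    rw [e3, e2, G.sq, two_mul, add_smul]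
    abel
  have hZ : eps ∈ Zc G.toPO G.toPO ⊥ (-1) 3 := by
    refine Zc_of hepsH ?_
    rw [neg_smul, one_smul]
    exact eq_neg_of_add_eq_zero_left hcyc
  have hB : l * eps + eps * l ∈ Bc G.toPO G.toPO ⊥ 1 2 := by
    have hh : l + ∑ j, (2 * c j) • k j ∈ HM G.toPO G.toPO (2 - 3) :=
      add_mem (HM_cast hl (by norm_num))
        (Submodule.sum_mem _ fun j _ => HM_cast (HM_smul (hk1 j) (h2c j)) (by norm_num))
    refine Bc_of hh ?_
    have e1 : ∀ j, l * ((2 * c j) • t j) + ((2 * c j) • t j) * l =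
        G.Φ * ((2 * c j) • k j) + ((2 * c j) • k j) * G.Φ := by
      intro j
      rw [Matrix.mul_smul, Matrix.smul_mul, ← smul_add, hk2 j, Matrix.mul_smul, Matrix.smul_mul,
        smul_add]
    have e2 : l * (∑ j, (2 * c j) • t j) + (∑ j, (2 * c j) • t j) * l =
        G.Φ * (∑ j, (2 * c j) • k j) + (∑ j, (2 * c j) • k j) * G.Φ := by
      rw [Matrix.mul_sum, Matrix.sum_mul, ← Finset.sum_add_distrib,
        Finset.sum_congr rfl fun j _ => e1 j, Finset.sum_add_distrib, Matrix.mul_sum,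
        Matrix.sum_mul]
    rw [one_smul, heps, Matrix.mul_add, Matrix.add_mul, Matrix.mul_add, Matrix.add_mul]
    calc l * G.Φ + l * (∑ j, (2 * c j) • t j) + (G.Φ * l + (∑ j, (2 * c j) • t j) * l)
        = (G.Φ * l + l * G.Φ) + (l * (∑ j, (2 * c j) • t j) + (∑ j, (2 * c j) • t j) * l) := by
          abel
      _ = (G.Φ * l + l * G.Φ) + (G.Φ * (∑ j, (2 * c j) • k j) +
          (∑ j, (2 * c j) • k j) * G.Φ) := by rw [e2]
      _ = _ := by abel
  have hKc : eps ∈ Kc G.toPO l (-1) 3 := by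
    refine ⟨hZ, ?_⟩
    show l * eps - (-1 : ℤ) • (eps * l) ∈ Bc G.toPO G.toPO ⊥ (-(-1)) (3 - 1)
    have e1 : l * eps - (-1 : ℤ) • (eps * l) = l * eps + eps * l := by
      rw [neg_smul, one_smul, sub_neg_eq_add]
    have e2 : (-(-1) : ℤ) = 1 := by norm_num
    have e3 : (3 - 1 : ℤ) = 2 := by norm_num
    rw [e1, e2, e3]
    exact hB
  have hfin : Module.Finite ℂ (Kc G.toPO l (-1) 3) := by
    have := hF G.toPO G.toPO 3
    exact Submodule.finiteDimensional_of_le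
      ((inf_le_left : Kc G.toPO l (-1) 3 ≤ _).trans (inf_le_left : Zc G.toPO G.toPO ⊥ (-1) 3 ≤ _))
  have hBc : eps ∈ Bc G.toPO G.toPO ⊥ (-1) 3 := le_of_finrank _ _ hfin hk hKc
  obtain ⟨h, hh, hhe⟩ := of_Bc hBc
  refine ⟨h, HM_cast hh (by norm_num), ?_⟩
  have e1 : G.Φ * h - h * G.Φ - G.Φ = ∑ j, (2 * c j) • t j := by
    have e2 : G.Φ * h - h * G.Φ = eps := by
      rw [hhe, neg_smul, one_smul, sub_eq_add_neg]
    rw [e2, heps, add_sub_cancel_left]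
  rw [e1]
  refine Submodule.sum_mem _ fun j _ => ?_
  intro i i'
  show (2 * c j) * t j i i' ∈ _
  exact Ideal.mul_mem_right _ _ (mem_of_hmg hM (h2c j) le_rfl)

end Pool.Agent.VDC
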