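import Pool.Agent.VDC.T1

/-!
# VDC-EXT: the mapping cone represents the functionals of the next level
-/

set_option autoImplicit false
set_option linter.unusedSectionVars false

open MvPolynomial CategoryTheory

noncomputable section

namespace Pool.Agent.VDC.EXT_

open Pool.Agent.VDC

/-- the composition of a functional with a matrix, evaluated at `p` -/
def ev {ι κ : Type} [Fintype ι] (p : Fin 4 → ℂ) (γ : ι → ℂ) (g : Matrix ι κ Sr) : κ → ℂ :=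
  fun j => ∑ i, γ i * eval p (g i j)

section ev

variable {ι κ l : Type} [Fintype ι] [Fintype κ] (p : Fin 4 → ℂ)

lemma ev_add_left (γ γ' : ι → ℂ) (g : Matrix ι κ Sr) (j : κ) :
    ev p (γ + γ') g j = ev p γ g j + ev p γ' g j := by
  simp only [ev, Pi.add_apply, add_mul, Finset.sum_add_distrib]

lemma ev_sub_left (γ γ' : ι → ℂ) (g : Matrix ι κ Sr) (j : κ) :
    ev p (γ - γ') g j = ev p γ g j - ev p γ' g j := by
  simp only [ev, Pi.sub_apply, sub_mul, Finset.sum_sub_distrib]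

lemma ev_neg_left (γ : ι → ℂ) (g : Matrix ι κ Sr) (j : κ) :
    ev p (-γ) g j = -ev p γ g j := by
  simp only [ev, Pi.neg_apply, neg_mul, Finset.sum_neg_distrib]

lemma ev_smul_left (c : ℂ) (γ : ι → ℂ) (g : Matrix ι κ Sr) (j : κ) :
    ev p (c • γ) g j = c * ev p γ g j := by
  simp only [ev, Pi.smul_apply, smul_eq_mul, mul_assoc, Finset.mul_sum]

lemma ev_add (γ : ι → ℂ) (g g' : Matrix ι κ Sr) (j : κ) :
    ev p γ (g + g') j = ev p γ g j + ev p γ g' j := by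
  simp only [ev, Matrix.add_apply, map_add, mul_add, Finset.sum_add_distrib]

lemma ev_neg (γ : ι → ℂ) (g : Matrix ι κ Sr) (j : κ) :
    ev p γ (-g) j = -ev p γ g j := by
  simp only [ev, Matrix.neg_apply, map_neg, mul_neg, Finset.sum_neg_distrib]

lemma ev_zero (γ : ι → ℂ) (j : κ) : ev p γ (0 : Matrix ι κ Sr) j = 0 := by
  simp [ev]

lemma ev_zsmul (γ : ι → ℂ) (s : ℤ) (g : Matrix ι κ Sr) (j : κ) :
    ev p γ (s • g) j = (s : ℂ) * ev p γ g j := by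
  simp only [ev, Matrix.smul_apply, Finset.mul_sum]
  refine Finset.sum_congr rfl fun i _ => ?_
  rw [zsmul_eq_mul, map_mul, map_intCast]
  ring

lemma ev_mul (γ : ι → ℂ) (g : Matrix ι κ Sr) (h : Matrix κ l Sr) (j : l) :
    ev p γ (g * h) j = ev p (ev p γ g) h j := by
  simp only [ev, Matrix.mul_apply, map_sum, map_mul, Finset.mul_sum, Finset.sum_mul]
  rw [Finset.sum_comm]
  refine Finset.sum_congr rfl fun i _ => Finset.sum_congr rfl fun k _ => ?_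
  ring

lemma ev_congr (γ γ' : ι → ℂ) (g : Matrix ι κ Sr) (j : κ)
    (h : ∀ i, γ i = γ' i ∨ g i j = 0) : ev p γ g j = ev p γ' g j := by
  refine Finset.sum_congr rfl fun i _ => ?_
  rcases h i with h | h
  · rw [h]
  · rw [h, map_zero, mul_zero, mul_zero]

end ev

lemma wd_nonneg (a : Fin 4 →₀ ℕ) : 0 ≤ wd a := by
  refine Finset.sum_nonneg fun i _ => mul_nonneg ?_ (Int.natCast_nonneg _)
  fin_cases i <;> simp [wt]

lemma hmg_neg {q : Sr} {m : ℤ} (h : Hmg q m) (hm : m < 0) : q = 0 := by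
  ext a
  rw [coeff_zero]
  by_contra h1
  have h2 := h a h1
  have h3 := wd_nonneg a
  omega

lemma ev_deg {X Y : PO} {p : Fin 4 → ℂ} {σ a : ℤ} {g : Matrix Y.ι X.ι Sr} (hg : g ∈ HM X Y σ)
    {γ : Y.ι → ℂ} (hγ : ∀ i, γ i ≠ 0 → a ≤ Y.deg i) {j : X.ι} (hj : X.deg j + σ < a) :
    ev p γ g j = 0 := by
  refine Finset.sum_eq_zero fun i _ => ?_
  by_cases h : γ i = 0
  · rw [h, zero_mul]
  · have h1 := hγ i h
    rw [hmg_neg (hg i j) (by omega), map_zero, mul_zero]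

lemma phi_mem (X : PO) : X.Φ ∈ HM X X 3 := fun i j => X.hom i j

lemma zc_iff {X Y : PO} {s σ : ℤ} {g : Matrix Y.ι X.ι Sr} :
    g ∈ Zc X Y ⊥ s σ ↔ g ∈ HM X Y σ ∧ Y.Φ * g = s • (g * X.Φ) := by
  constructor
  · rintro ⟨h1, h2⟩
    refine ⟨h1, ?_⟩
    ext1 i j
    have h4 := h2 i j
    rw [dd_apply, Ideal.mem_bot, Matrix.sub_apply, sub_eq_zero] at h4
    exact h4
  · rintro ⟨h1, h2⟩
    refine ⟨h1, fun i j => ?_⟩
    show dd X Y s g i j ∈ _
    rw [dd_apply, h2, sub_self]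
    exact Ideal.zero_mem _

lemma bc_iff {X Y : PO} {s σ : ℤ} {g : Matrix Y.ι X.ι Sr} :
    g ∈ Bc X Y ⊥ s σ ↔ g ∈ HM X Y σ ∧ ∃ h ∈ HM X Y (σ - 3), g = Y.Φ * h + s • (h * X.Φ) := by
  constructor
  · rintro ⟨h1, h2⟩
    refine ⟨h1, ?_⟩
    obtain ⟨y, hy, z, hz, hyz⟩ := Submodule.mem_sup.1 h2
    obtain ⟨h, hh, rfl⟩ := hy
    refine ⟨h, hh, ?_⟩
    have hz0 : z = 0 := by
      ext1 i j
      exact (Ideal.mem_bot).1 (hz i j)
    rw [← hyz, hz0, add_zero, dd_apply, neg_smul, sub_neg_eq_add]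
  · rintro ⟨h1, h, hh, h2⟩
    refine ⟨h1, Submodule.mem_sup_left ⟨h, hh, ?_⟩⟩
    rw [h2, dd_apply, neg_smul, sub_neg_eq_add]

lemma pull_apply (X Y : PO) (p : Fin 4 → ℂ) (n ρ : ℤ) (γ : Y.ι → ℂ) (g : Matrix Y.ι X.ι Sr)
    (j : X.ι) : pull X Y p n ρ γ g j = if X.deg j + ρ < n then ev p γ g j else 0 := rfl

lemma dl_apply (X : PO) (p : Fin 4 → ℂ) (n ρ : ℤ) (γ : X.ι → ℂ) (j : X.ι) :
    dl X p n ρ γ j = if X.deg j + ρ + 3 = n then ev p γ X.Φ j else 0 := rfl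

lemma mem_ZF {X : PO} {p : Fin 4 → ℂ} {n ρ : ℤ} {γ : X.ι → ℂ} :
    γ ∈ ZF X p n ρ ↔ (∀ i, γ i ≠ 0 → 0 ≤ X.deg i + ρ ∧ X.deg i + ρ < n) ∧
      ∀ j, X.deg j + ρ + 3 < n → ev p γ X.Φ j = 0 := Iff.rfl

lemma mem_BF {X : PO} {p : Fin 4 → ℂ} {n ρ : ℤ} {γ : X.ι → ℂ} :
    γ ∈ BF X p n ρ ↔ (∀ i, γ i ≠ 0 → 0 ≤ X.deg i + ρ ∧ X.deg i + ρ < n) ∧
      ∃ μ : X.ι → ℂ, (∀ i, μ i ≠ 0 → 0 ≤ X.deg i + (ρ - 3) ∧ X.deg i + (ρ - 3) < n) ∧
      ∀ j, X.deg j + ρ < n → γ j = ev p μ X.Φ j := Iff.rfl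

/-- a criterion for boundaries of level `0` -/
lemma bf_one {X : PO} {p : Fin 4 → ℂ} {σ : ℤ} {κ : X.ι → ℂ} (ν : X.ι → ℂ)
    (hν : ∀ i, ν i ≠ 0 → X.deg i = 3 - σ) (h0 : ∀ j, X.deg j ≠ -σ → κ j = 0)
    (h1 : ∀ j, X.deg j = -σ → κ j = ev p ν X.Φ j) : κ ∈ BF X p 1 σ := by
  rw [mem_BF]
  refine ⟨fun i hi => ?_, ν, fun i hi => ?_, fun j hj => ?_⟩
  · have h2 : X.deg i = -σ := by
      by_contra h3
      exact hi (h0 i h3)
    omega
  · have h2 := hν i hi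
    omega
  · by_cases h2 : X.deg j = -σ
    · exact h1 j h2
    · rw [h0 j h2]
      refine (ev_deg (a := 3 - σ) (phi_mem X) (fun i hi => (hν i hi).ge) ?_).symm
      omega

/-- the connecting map commutes with compositions -/
lemma lemL {f : Sr} {A X : CM f} {p : Fin 4 → ℂ} {n r ρ s : ℤ} {γ : A.ι → ℂ}
    (hγ : γ ∈ ZF A.toPO p n r) {g : Matrix A.ι X.ι Sr} (hg : g ∈ Zc X.toPO A.toPO ⊥ s (ρ - r)) :
    pull X.toPO A.toPO p 1 (ρ + 3 - n) (dl A.toPO p n r γ) g -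
      (s : ℂ) • dl X.toPO p n ρ (pull X.toPO A.toPO p n ρ γ g) ∈ BF X.toPO p 1 (ρ + 3 - n) := by
  obtain ⟨hg1, hg2⟩ := zc_iff.1 hg
  obtain ⟨hγ1, hγ2⟩ := mem_ZF.1 hγ
  refine bf_one (fun l => if X.deg l + ρ = n then (s : ℂ) * ev p γ g l else 0) ?_ ?_ ?_
  · intro i hi
    by_cases h : X.deg i + ρ = n
    · omega
    · exact absurd (if_neg h) hi
  · intro j hj
    rw [Pi.sub_apply, Pi.smul_apply, pull_apply, dl_apply,
      if_neg (show ¬ X.deg j + ρ + 3 = n by omega), smul_zero, sub_zero]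
    split_ifs with h
    · refine ev_deg (a := n - r - 3) hg1 (fun i hi => ?_) (by omega)
      rw [dl_apply] at hi
      by_cases h2 : A.deg i + r + 3 = n
      · omega
      · exact absurd (if_neg h2) hi
    · rfl
  · intro j hj
    rw [Pi.sub_apply, Pi.smul_apply, pull_apply, dl_apply, if_pos (by omega), if_pos (by omega),
      smul_eq_mul]
    have e1 : ev p (dl A.toPO p n r γ) g j = ev p (ev p γ A.Φ) g j := by
      refine ev_congr p _ _ g j fun i => ?_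
      rw [dl_apply]
      by_cases h2 : A.deg i + r + 3 = n
      · left; rw [if_pos h2]
      · by_cases h3 : A.deg i + r + 3 < n
        · left; rw [if_neg h2, hγ2 i h3]
        · right; exact hmg_neg (hg1 i j) (by omega)
    have e2 : ev p (pull X.toPO A.toPO p n ρ γ g) X.Φ j +
        ev p (fun l => if X.deg l + ρ = n then ev p γ g l else 0) X.Φ j =
        ev p (ev p γ g) X.Φ j := by
      rw [← ev_add_left]
      refine ev_congr p _ _ X.Φ j fun i => ?_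
      rw [Pi.add_apply, pull_apply]
      by_cases h2 : X.deg i + ρ < n
      · left; rw [if_pos h2, if_neg (by omega), add_zero]
      · by_cases h3 : X.deg i + ρ = n
        · left; rw [if_neg h2, if_pos h3, zero_add]
        · right; exact hmg_neg (X.hom i j) (by omega)
    have e3 : ev p (fun l => if X.deg l + ρ = n then (s : ℂ) * ev p γ g l else 0) X.Φ j =
        (s : ℂ) * ev p (fun l => if X.deg l + ρ = n then ev p γ g l else 0) X.Φ j := by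
      rw [← ev_smul_left]
      refine ev_congr p _ _ X.Φ j fun i => Or.inl ?_
      rw [Pi.smul_apply, smul_eq_mul, mul_ite, mul_zero]
    rw [e1, ← ev_mul, hg2, ev_zsmul, ev_mul, ← e2, e3]
    ring

/-- the connecting map on boundaries -/
lemma lemD {f : Sr} {X : CM f} {p : Fin 4 → ℂ} {n ρ : ℤ} (hn : n ≤ 5) {τ : X.ι → ℂ}
    (hτ : τ ∈ BF X.toPO p n ρ) : dl X.toPO p n ρ τ ∈ BF X.toPO p 1 (ρ + 3 - n) := by
  obtain ⟨h1, μ, h2, h3⟩ := mem_BF.1 hτ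
  refine bf_one (fun l => if X.deg l + ρ = n then -ev p μ X.Φ l else 0) ?_ ?_ ?_
  · intro i hi
    by_cases h : X.deg i + ρ = n
    · omega
    · exact absurd (if_neg h) hi
  · intro j hj
    rw [dl_apply, if_neg (by omega)]
  · intro j hj
    rw [dl_apply, if_pos (by omega)]
    have e1 : ev p (ev p μ X.Φ) X.Φ j = 0 := by
      rw [← ev_mul, X.sq]
      refine Finset.sum_eq_zero fun i _ => ?_
      rw [Matrix.neg_apply, Matrix.smul_apply, Matrix.one_apply]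
      split_ifs with h
      · subst h
        have h4 : μ i = 0 := by
          by_contra h5
          have := h2 i h5
          omega
        rw [h4, zero_mul]
      · simp
    have e2 : ev p τ X.Φ j + ev p (fun l => if X.deg l + ρ = n then ev p μ X.Φ l else 0) X.Φ j =
        ev p (ev p μ X.Φ) X.Φ j := by
      rw [← ev_add_left]
      refine ev_congr p _ _ X.Φ j fun i => ?_
      rw [Pi.add_apply]
      by_cases h4 : X.deg i + ρ < n
      · left; rw [h3 i h4, if_neg (by omega), add_zero]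
      · by_cases h5 : X.deg i + ρ = n
        · left
          have h6 : τ i = 0 := by
            by_contra h7
            exact h4 (h1 i h7).2
          rw [if_pos h5, h6, zero_add]
        · right; exact hmg_neg (X.hom i j) (by omega)
    have e3 : ev p (fun l => if X.deg l + ρ = n then -ev p μ X.Φ l else 0) X.Φ j =
        -ev p (fun l => if X.deg l + ρ = n then ev p μ X.Φ l else 0) X.Φ j := by
      rw [← ev_neg_left]
      refine ev_congr p _ _ X.Φ j fun i => Or.inl ?_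
      rw [Pi.neg_apply]
      split_ifs
      · rfl
      · rw [neg_zero]
    rw [e3, eq_neg_iff_add_eq_zero, e2, e1]

/-- the part of level `< n` -/
def cut (X : PO) (n ρ : ℤ) (γ : X.ι → ℂ) : X.ι → ℂ := fun i => if X.deg i + ρ < n then γ i else 0

lemma lemG {f : Sr} {X : CM f} {p : Fin 4 → ℂ} {n ρ : ℤ} {γ : X.ι → ℂ}
    (hγ : ∀ i, γ i ≠ 0 → 0 ≤ X.deg i + ρ ∧ X.deg i + ρ < n + 1)
    (h : ∀ j, X.deg j + ρ + 3 < n → ev p γ X.Φ j = 0) :
    cut X.toPO n ρ γ ∈ ZF X.toPO p n ρ := by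
  rw [mem_ZF]
  refine ⟨fun i hi => ?_, fun j hj => ?_⟩
  · by_cases h1 : X.deg i + ρ < n
    · refine ⟨(hγ i fun h2 => hi ?_).1, h1⟩
      show (if X.deg i + ρ < n then γ i else 0) = 0
      rw [if_pos h1, h2]
    · exact absurd (if_neg h1) hi
  · rw [← h j hj]
    refine ev_congr p _ _ X.Φ j fun i => ?_
    by_cases h1 : X.deg i + ρ < n
    · left; exact if_pos h1
    · right; exact hmg_neg (X.hom i j) (by omega)

lemma lemG' {f : Sr} {X : CM f} {p : Fin 4 → ℂ} {n ρ : ℤ} {γ κ : X.ι → ℂ}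
    (hγ : ∀ i, γ i ≠ 0 → 0 ≤ X.deg i + ρ ∧ X.deg i + ρ < n + 1)
    (h0 : ∀ j, X.deg j + ρ + 3 ≠ n → κ j = 0)
    (h1 : ∀ j, X.deg j + ρ + 3 = n → κ j = ev p γ X.Φ j) :
    κ - dl X.toPO p n ρ (cut X.toPO n ρ γ) ∈ BF X.toPO p 1 (ρ + 3 - n) := by
  refine bf_one (fun i => if X.deg i + ρ < n then 0 else γ i) ?_ ?_ ?_
  · intro i hi
    by_cases h : X.deg i + ρ < n
    · exact absurd (if_pos h) hi
    · have hi2 : γ i ≠ 0 := by
        intro h3
        apply hi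
        show (if X.deg i + ρ < n then 0 else γ i) = 0
        rw [if_neg h, h3]
      have := hγ i hi2
      omega
  · intro j hj
    rw [Pi.sub_apply, dl_apply, if_neg (by omega), h0 j (by omega), sub_zero]
  · intro j hj
    rw [Pi.sub_apply, dl_apply, if_pos (by omega), h1 j (by omega), sub_eq_iff_eq_add,
      ← ev_add_left]
    refine ev_congr p _ _ X.Φ j fun i => Or.inl ?_
    rw [Pi.add_apply, cut]
    split_ifs
    · rw [zero_add]
    · rw [add_zero]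


lemma hm_cast {X Y : PO} {a b : ℤ} {g : Matrix Y.ι X.ι Sr} (h : g ∈ HM X Y a) (e : a = b) :
    g ∈ HM X Y b := e ▸ h

lemma zc_cast {X Y : PO} {s a b : ℤ} {g : Matrix Y.ι X.ι Sr} (h : g ∈ Zc X Y ⊥ s a)
    (e : a = b) : g ∈ Zc X Y ⊥ s b := e ▸ h

lemma bf_cast {X : PO} {p : Fin 4 → ℂ} {n a b : ℤ} {γ : X.ι → ℂ} (h : γ ∈ BF X p n a)
    (e : a = b) : γ ∈ BF X p n b := e ▸ h

lemma hm_mul {X Y Z : PO} {a b : ℤ} {g : Matrix Z.ι Y.ι Sr} {h : Matrix Y.ι X.ι Sr}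
    (hg : g ∈ HM Y Z a) (hh : h ∈ HM X Y b) : g * h ∈ HM X Z (a + b) := by
  intro i j
  rw [Matrix.mul_apply]
  exact Hmg.sum fun k _ => ((hg i k).mul (hh k j)).congr (by ring)

lemma hm_zsmul {X Y : PO} {a : ℤ} {g : Matrix Y.ι X.ι Sr} (hg : g ∈ HM X Y a) (c : ℤ) :
    c • g ∈ HM X Y a := fun i j => (hg i j).zsmul c

section cone

variable {f : Sr} {A K X : CM f} {c σ s : ℤ} {u : mor A (tw c 1 K)}

lemma hm_rows {g1 : Matrix K.ι X.ι Sr} {g2 : Matrix A.ι X.ι Sr} :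
    (Matrix.fromRows g1 g2 : Matrix (cone u).ι X.ι Sr) ∈ HM X.toPO (cone u).toPO σ ↔
      g1 ∈ HM X.toPO K.toPO (σ + c) ∧ g2 ∈ HM X.toPO A.toPO (σ + 3) := by
  constructor
  · intro h
    refine ⟨fun i j => (h (Sum.inl i) j).congr ?_, fun i j => (h (Sum.inr i) j).congr ?_⟩
    · show X.deg j + σ - (K.deg i - c) = _
      ring
    · show X.deg j + σ - (A.deg i - 3) = _
      ring
  · rintro ⟨h1, h2⟩ (i | i) j
    · refine (h1 i j).congr ?_
      show _ = X.deg j + σ - (K.deg i - c)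
      ring
    · refine (h2 i j).congr ?_
      show _ = X.deg j + σ - (A.deg i - 3)
      ring

lemma phi_rows (g1 : Matrix K.ι X.ι Sr) (g2 : Matrix A.ι X.ι Sr) :
    (cone u).Φ * (Matrix.fromRows g1 g2 : Matrix (cone u).ι X.ι Sr) =
      Matrix.fromRows (K.Φ * g1 + u.1 * g2) (-(A.Φ * g2)) := by
  show Matrix.fromBlocks (((1 : ℤˣ) : ℤ) • K.Φ) u.1 0 (-A.Φ) * Matrix.fromRows g1 g2 = _
  rw [Matrix.fromBlocks_mul_fromRows, Units.val_one, one_smul, Matrix.zero_mul, zero_add,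
    Matrix.neg_mul]

lemma zc_rows {g1 : Matrix K.ι X.ι Sr} {g2 : Matrix A.ι X.ι Sr} :
    (Matrix.fromRows g1 g2 : Matrix (cone u).ι X.ι Sr) ∈ Zc X.toPO (cone u).toPO ⊥ s σ ↔
      (g1 ∈ HM X.toPO K.toPO (σ + c) ∧ g2 ∈ HM X.toPO A.toPO (σ + 3)) ∧
      K.Φ * g1 + u.1 * g2 = s • (g1 * X.Φ) ∧ A.Φ * g2 = (-s) • (g2 * X.Φ) := by
  rw [zc_iff, hm_rows]
  refine and_congr_right fun _ => ?_
  have e : s • ((Matrix.fromRows g1 g2 : Matrix (cone u).ι X.ι Sr) * X.Φ) =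
      Matrix.fromRows (s • (g1 * X.Φ)) (s • (g2 * X.Φ)) := by
    rw [Matrix.fromRows_mul]
    ext (i | i) j <;> rfl
  rw [phi_rows, e, Matrix.fromRows_inj.eq_iff, neg_smul, ← neg_eq_iff_eq_neg]

lemma ev_rows (p : Fin 4 → ℂ) (β : K.ι → ℂ) (α : A.ι → ℂ) (g1 : Matrix K.ι X.ι Sr)
    (g2 : Matrix A.ι X.ι Sr) (j : X.ι) :
    ev (ι := (cone u).ι) p (Sum.elim β α) (Matrix.fromRows g1 g2) j =
      ev p β g1 j + ev p α g2 j := by
  show ∑ i : K.ι ⊕ A.ι, _ = _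
  rw [Fintype.sum_sum_type]
  rfl

end cone


lemma pull_sub_left (X Y : PO) (p : Fin 4 → ℂ) (n ρ : ℤ) (γ γ' : Y.ι → ℂ)
    (g : Matrix Y.ι X.ι Sr) :
    pull X Y p n ρ (γ - γ') g = pull X Y p n ρ γ g - pull X Y p n ρ γ' g := by
  funext j
  rw [Pi.sub_apply, pull_apply, pull_apply, pull_apply]
  split_ifs
  · exact ev_sub_left p γ γ' g j
  · rw [sub_zero]

lemma pull_add (X Y : PO) (p : Fin 4 → ℂ) (n ρ : ℤ) (γ : Y.ι → ℂ)
    (g g' : Matrix Y.ι X.ι Sr) :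
    pull X Y p n ρ γ (g + g') = pull X Y p n ρ γ g + pull X Y p n ρ γ g' := by
  funext j
  rw [Pi.add_apply, pull_apply, pull_apply, pull_apply]
  split_ifs
  · exact ev_add p γ g g' j
  · rw [add_zero]

lemma pull_zsmul (X Y : PO) (p : Fin 4 → ℂ) (n ρ : ℤ) (γ : Y.ι → ℂ) (s : ℤ)
    (g : Matrix Y.ι X.ι Sr) :
    pull X Y p n ρ γ (s • g) = (s : ℂ) • pull X Y p n ρ γ g := by
  funext j
  rw [Pi.smul_apply, pull_apply, pull_apply]
  split_ifs
  · exact ev_zsmul p γ s g j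
  · rw [smul_zero]

lemma dl_sub (X : PO) (p : Fin 4 → ℂ) (n ρ : ℤ) (γ γ' : X.ι → ℂ) :
    dl X p n ρ (γ - γ') = dl X p n ρ γ - dl X p n ρ γ' := by
  funext j
  rw [Pi.sub_apply, dl_apply, dl_apply, dl_apply]
  split_ifs
  · exact ev_sub_left p γ γ' X.Φ j
  · rw [sub_zero]

lemma lemM (hPULL : T_PULL) (hPULC : T_PULC) {f : Sr} {A K X : CM f} {p : Fin 4 → ℂ}
    {n r ρ s : ℤ} (hs : s * s = 1) {α : A.ι → ℂ} {β : K.ι → ℂ} {u : Matrix K.ι A.ι Sr}
    (hα : α ∈ ZF A.toPO p n r) (hβ : β ∈ ZF K.toPO p 1 0)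
    (hu : u ∈ HM A.toPO K.toPO (r + 3 - n))
    (h0 : dl A.toPO p n r α - pull A.toPO K.toPO p 1 (r + 3 - n) β u ∈
      BF A.toPO p 1 (r + 3 - n))
    {g : Matrix A.ι X.ι Sr} (hg : g ∈ Zc X.toPO A.toPO ⊥ s (ρ - r)) :
    pull X.toPO K.toPO p 1 (ρ + 3 - n) β (u * g) -
      (s : ℂ) • dl X.toPO p n ρ (pull X.toPO A.toPO p n ρ α g) ∈ BF X.toPO p 1 (ρ + 3 - n) := by
  have h1 := lemL hα hg
  have h2 := (hPULL f A X p 1 (r + 3 - n) (ρ + 3 - n) s hs).2.1 _ h0 g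
    (zc_cast hg (by ring))
  have h3 := hPULC.1 X.toPO A.toPO K.toPO p 1 (r + 3 - n) 0 (ρ + 3 - n) β hβ.1 u
    (hm_cast hu (by ring)) g (hm_cast hg.1 (by ring))
  rw [pull_sub_left, h3] at h2
  convert sub_mem h1 h2 using 1
  abel


section main

variable {f : Sr} {A K : CM f} {p : Fin 4 → ℂ} {n r : ℤ} {α ν : A.ι → ℂ} {β : K.ι → ℂ}
  {u : mor A (tw (r + 3 - n) 1 K)}

lemma extMem (hn : 1 ≤ n) (hα : α ∈ ZF A.toPO p n r) (hβ : β ∈ ZF K.toPO p 1 0)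
    (hν : ∀ i, ν i ≠ 0 → A.deg i + r = n)
    (h0 : ∀ j, A.deg j + (r + 3 - n) < 1 →
      (dl A.toPO p n r α - pull A.toPO K.toPO p 1 (r + 3 - n) β u.1) j = ev p ν A.Φ j) :
    (Sum.elim β (α + -ν) : (cone u).ι → ℂ) ∈ ZF (cone u).toPO p (n + 1) (r + 3) := by
  rw [mem_ZF]
  constructor
  · rintro (i | i) hi
    · have h1 : 0 ≤ K.deg i + 0 ∧ K.deg i + 0 < 1 := hβ.1 i hi
      show 0 ≤ K.deg i - (r + 3 - n) + (r + 3) ∧ K.deg i - (r + 3 - n) + (r + 3) < n + 1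
      omega
    · show 0 ≤ A.deg i - 3 + (r + 3) ∧ A.deg i - 3 + (r + 3) < n + 1
      by_cases h1 : α i = 0
      · have h2 := hν i fun h3 => hi (by
          show α i + -ν i = 0
          rw [h1, h3, neg_zero, add_zero])
        omega
      · have h2 : 0 ≤ A.deg i + r ∧ A.deg i + r < n := hα.1 i h1
        omega
  · have e : (cone u).Φ = Matrix.fromCols (Matrix.fromRows K.Φ 0) (Matrix.fromRows u.1 (-A.Φ)) := by
      show Matrix.fromBlocks (((1 : ℤˣ) : ℤ) • K.Φ) u.1 0 (-A.Φ) = _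
      rw [Units.val_one, one_smul]
      ext (i | i) (j | j) <;> rfl
    rintro (j | j) hj
    · have hj2 : K.deg j - (r + 3 - n) + (r + 3) + 3 < n + 1 := hj
      have h1 : ev p (Sum.elim β (α + -ν)) (cone u).Φ (Sum.inl j) =
          ev p β K.Φ j + ev p (α + -ν) (0 : Matrix A.ι K.ι Sr) j := by
        rw [e]
        exact ev_rows (X := K) (u := u) p β (α + -ν) K.Φ 0 j
      rw [h1, ev_zero, add_zero]
      exact hβ.2 j (by omega)
    · have hj2 : A.deg j - 3 + (r + 3) + 3 < n + 1 := hj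
      have h1 : ev p (Sum.elim β (α + -ν)) (cone u).Φ (Sum.inr j) =
          ev p β u.1 j + ev p (α + -ν) (-A.Φ) j := by
        rw [e]
        exact ev_rows (X := A) (u := u) p β (α + -ν) u.1 (-A.Φ) j
      have h2 := h0 j (by omega)
      have h3 : dl A.toPO p n r α j = ev p α A.Φ j := by
        rw [dl_apply]
        split_ifs with h4
        · rfl
        · exact (hα.2 j (by omega)).symm
      rw [Pi.sub_apply, h3, pull_apply, if_pos (by omega)] at h2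
      rw [h1, ev_neg, ev_add_left, ev_neg_left, ← h2]
      ring

/-- low levels of the functional on the cone -/
lemma evLow {X : CM f} {ρ : ℤ} (hβ : β ∈ ZF K.toPO p 1 0) (hν : ∀ i, ν i ≠ 0 → A.deg i + r = n)
    {g1 : Matrix K.ι X.ι Sr} {g2 : Matrix A.ι X.ι Sr}
    (h1 : g1 ∈ HM X.toPO K.toPO (ρ - n)) (h2 : g2 ∈ HM X.toPO A.toPO (ρ - r)) {j : X.ι}
    (hj : X.deg j + ρ < n) : ev p β g1 j + ev p (α + -ν) g2 j = ev p α g2 j := by
  have e1 : ev p β g1 j = 0 := by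
    refine ev_deg (a := 0) h1 (fun i hi => ?_) (by omega)
    have := (hβ.1 i hi).1
    omega
  have e2 : ev p ν g2 j = 0 := by
    refine ev_deg (a := n - r) h2 (fun i hi => ?_) (by omega)
    have := hν i hi
    omega
  rw [ev_add_left, ev_neg_left, e1, e2, neg_zero, add_zero, zero_add]

lemma pullTop {X : CM f} {ρ : ℤ} (g1 : Matrix K.ι X.ι Sr) :
    pull X.toPO (cone u).toPO p (n + 1) ρ (Sum.elim β (α + -ν)) (Matrix.fromRows g1 0) =
      pull X.toPO K.toPO p 1 (ρ - n) β g1 := by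
  funext j
  rw [pull_apply, pull_apply]
  have e : ev (ι := (cone u).ι) p (Sum.elim β (α + -ν)) (Matrix.fromRows g1 0) j =
      ev p β g1 j := by
    rw [ev_rows, ev_zero, add_zero]
  by_cases h : X.deg j + ρ < n + 1
  · rw [if_pos h, if_pos (by omega)]
    exact e
  · rw [if_neg h, if_neg (by omega)]

lemma bfUp {X : CM f} {ρ : ℤ} {κ : X.ι → ℂ} (hn : 1 ≤ n) (h : κ ∈ BF X.toPO p 1 (ρ - n)) :
    κ ∈ BF X.toPO p (n + 1) ρ := by
  obtain ⟨h1, μ, h2, h3⟩ := mem_BF.1 h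
  refine mem_BF.2 ⟨fun i hi => ?_, μ, fun i hi => ?_, fun j hj => h3 j (by omega)⟩
  · have := h1 i hi
    omega
  · have := h2 i hi
    omega

lemma extSurj (hPULL : T_PULL) (hPULC : T_PULC) (hBZF : T_BZF) (hn : 1 ≤ n) (hn2 : n ≤ 2)
    (hA : Rp A p n r α) (hK : Rp K p 1 0 β)
    (hd : dl A.toPO p n r α - pull A.toPO K.toPO p 1 (r + 3 - n) β u.1 ∈
      BF A.toPO p 1 (r + 3 - n))
    (hν : ∀ i, ν i ≠ 0 → A.deg i + r = n)
    (hm : (Sum.elim β (α + -ν) : (cone u).ι → ℂ) ∈ ZF (cone u).toPO p (n + 1) (r + 3))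
    (X : CM f) (s ρ : ℤ) (hs : s * s = 1) (γ : X.ι → ℂ) (hγ : γ ∈ ZF X.toPO p (n + 1) ρ) :
    ∃ g ∈ Zc X.toPO (cone u).toPO ⊥ s (ρ - (r + 3)),
      γ - pull X.toPO (cone u).toPO p (n + 1) ρ (Sum.elim β (α + -ν)) g ∈
        BF X.toPO p (n + 1) ρ := by
  have hs' : -s * -s = 1 := by rw [neg_mul_neg, hs]
  have hu : u.1 ∈ Zc A.toPO K.toPO ⊥ 1 (r + 3 - n) := toZ (s := 1) u
  obtain ⟨hu1, hu2⟩ := zc_iff.1 hu
  rw [one_smul] at hu2
  obtain ⟨hγ1, hγ2⟩ := mem_ZF.1 hγ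
  have hγ' : cut X.toPO n ρ γ ∈ ZF X.toPO p n ρ :=
    lemG hγ1 fun j hj => hγ2 j (by omega)
  obtain ⟨gA, hgA, hτ⟩ := hA.surj X (-s) ρ hs' _ hγ'
  set τ : X.ι → ℂ := cut X.toPO n ρ γ - pull X.toPO A.toPO p n ρ α gA with hτd
  obtain ⟨hgA1, hgA2⟩ := zc_iff.1 hgA
  -- `u gA` is a boundary
  have k1 := lemM hPULL hPULC hs' hA.mem hK.mem hu1 hd hgA
  have k2 : pull X.toPO A.toPO p n ρ α gA = cut X.toPO n ρ γ - τ := by
    rw [hτd]; abel
  have k3 := lemD (by omega) hτ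
  have k4 : (0 : X.ι → ℂ) - dl X.toPO p n ρ (cut X.toPO n ρ γ) ∈ BF X.toPO p 1 (ρ + 3 - n) :=
    lemG' hγ1 (fun _ _ => rfl) fun j hj => (hγ2 j (by omega)).symm
  have k5 : pull X.toPO K.toPO p 1 (ρ + 3 - n) β (u.1 * gA) ∈ BF X.toPO p 1 (ρ + 3 - n) := by
    rw [k2, dl_sub] at k1
    convert sub_mem (sub_mem k1 (Submodule.smul_mem _ ((-s : ℤ) : ℂ) k4))
      (Submodule.smul_mem _ ((-s : ℤ) : ℂ) k3) using 1
    module
  have k6 : u.1 * gA ∈ Zc X.toPO K.toPO ⊥ (-s) (ρ + 3 - n - 0) := by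
    rw [zc_iff]
    refine ⟨hm_cast (hm_mul hu1 hgA1) (by ring), ?_⟩
    rw [← Matrix.mul_assoc, hu2, Matrix.mul_assoc, hgA2, Matrix.mul_smul, Matrix.mul_assoc]
  obtain ⟨-, h, hh, k7⟩ := bc_iff.1 (hK.inj X (-s) (ρ + 3 - n) hs' _ k6 k5)
  -- the first cycle
  have k8 : (Matrix.fromRows (-h) gA : Matrix (cone u).ι X.ι Sr) ∈
      Zc X.toPO (cone u).toPO ⊥ s (ρ - (r + 3)) := by
    rw [zc_rows]
    refine ⟨⟨hm_cast (neg_mem hh) (by ring), hm_cast hgA1 (by ring)⟩, ?_, hgA2⟩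
    rw [k7, Matrix.mul_neg, Matrix.neg_mul, smul_neg, neg_smul]
    abel
  set P := pull X.toPO (cone u).toPO p (n + 1) ρ (Sum.elim β (α + -ν))
    (Matrix.fromRows (-h) gA) with hP
  have k9 : P ∈ ZF X.toPO p (n + 1) ρ :=
    (hPULL f (cone u) X p (n + 1) (r + 3) ρ s hs).1 _ hm _ k8
  obtain ⟨hτ1, μ, hμ1, hμ2⟩ := mem_BF.1 hτ
  set b : X.ι → ℂ := fun j => if X.deg j + ρ < n + 1 then ev p μ X.Φ j else 0 with hb
  have k10 : b ∈ BF X.toPO p (n + 1) ρ := by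
    refine mem_BF.2 ⟨fun i hi => ?_, μ, fun i hi => ?_, fun j hj => if_pos hj⟩
    · have h1 : X.deg i + ρ < n + 1 := by
        by_contra h2
        exact hi (if_neg h2)
      refine ⟨?_, h1⟩
      by_contra h2
      apply hi
      show (if X.deg i + ρ < n + 1 then ev p μ X.Φ i else 0) = 0
      rw [if_pos h1]
      refine ev_deg (a := 3 - ρ) (phi_mem X.toPO) (fun i hi => ?_) (by omega)
      have := hμ1 i hi
      omega
    · have := hμ1 i hi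
      omega
  have k11 : b ∈ ZF X.toPO p (n + 1) ρ := hBZF f X p (n + 1) ρ (by omega) k10
  have k12 : γ - P - b ∈ ZF X.toPO p (n + 1) ρ := sub_mem (sub_mem hγ k9) k11
  have k13 : ∀ j, X.deg j + ρ < n → (γ - P - b) j = 0 := by
    intro j hj
    have e1 : P j = ev p α gA j := by
      rw [hP, pull_apply, if_pos (by omega)]
      rw [ev_rows (X := X) (u := u)]
      exact evLow hK.mem hν (hm_cast (neg_mem hh) (by ring)) hgA1 hj
    have e2 : τ j = γ j - ev p α gA j := by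
      rw [hτd, Pi.sub_apply, pull_apply, if_pos hj, cut, if_pos hj]
    have e3 := hμ2 j hj
    rw [Pi.sub_apply, Pi.sub_apply, e1, hb]
    show γ j - ev p α gA j - (if X.deg j + ρ < n + 1 then ev p μ X.Φ j else 0) = 0
    rw [if_pos (by omega), ← e3, e2, sub_self]
  obtain ⟨hδ1, hδ2⟩ := mem_ZF.1 k12
  have k14 : γ - P - b ∈ ZF X.toPO p 1 (ρ - n) := by
    refine mem_ZF.2 ⟨fun i hi => ?_, fun j hj => hδ2 j (by omega)⟩
    have h1 := hδ1 i hi
    have h2 : ¬ X.deg i + ρ < n := fun h3 => hi (k13 i h3)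
    omega
  obtain ⟨gK, hgK, k15⟩ := hK.surj X s (ρ - n) hs _ k14
  obtain ⟨hgK1, hgK2⟩ := zc_iff.1 hgK
  have k16 : (Matrix.fromRows gK 0 : Matrix (cone u).ι X.ι Sr) ∈
      Zc X.toPO (cone u).toPO ⊥ s (ρ - (r + 3)) := by
    rw [zc_rows]
    refine ⟨⟨hm_cast hgK1 (by ring), zero_mem _⟩, ?_, ?_⟩
    · rw [Matrix.mul_zero, add_zero, hgK2]
    · rw [Matrix.mul_zero, Matrix.zero_mul, smul_zero]
  refine ⟨_, add_mem k8 k16, ?_⟩
  rw [pull_add, pullTop, ← hP]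
  convert add_mem (bfUp hn k15) k10 using 1
  abel

lemma extInj (hPULL : T_PULL) (hPULC : T_PULC) (hn : 1 ≤ n) (hn2 : n ≤ 2)
    (hA : Rp A p n r α) (hK : Rp K p 1 0 β)
    (hd : dl A.toPO p n r α - pull A.toPO K.toPO p 1 (r + 3 - n) β u.1 ∈
      BF A.toPO p 1 (r + 3 - n))
    (hν : ∀ i, ν i ≠ 0 → A.deg i + r = n)
    (hm : (Sum.elim β (α + -ν) : (cone u).ι → ℂ) ∈ ZF (cone u).toPO p (n + 1) (r + 3))
    (X : CM f) (s ρ : ℤ) (hs : s * s = 1) (g : Matrix (cone u).ι X.ι Sr)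
    (hg : g ∈ Zc X.toPO (cone u).toPO ⊥ s (ρ - (r + 3)))
    (hgB : pull X.toPO (cone u).toPO p (n + 1) ρ (Sum.elim β (α + -ν)) g ∈
        BF X.toPO p (n + 1) ρ) : g ∈ Bc X.toPO (cone u).toPO ⊥ s (ρ - (r + 3)) := by
  have hs' : -s * -s = 1 := by rw [neg_mul_neg, hs]
  have hsC : (s : ℂ) * (s : ℂ) = 1 := by exact_mod_cast hs
  have hu : u.1 ∈ Zc A.toPO K.toPO ⊥ 1 (r + 3 - n) := toZ (s := 1) u
  obtain ⟨hu1, hu2⟩ := zc_iff.1 hu
  rw [one_smul] at hu2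
  obtain ⟨gK, gA, rfl⟩ : ∃ (gK : Matrix K.ι X.ι Sr) (gA : Matrix A.ι X.ι Sr),
      g = (Matrix.fromRows gK gA : Matrix (cone u).ι X.ι Sr) :=
    ⟨Matrix.toRows₁ g, Matrix.toRows₂ g, (Matrix.fromRows_toRows g).symm⟩
  obtain ⟨⟨hgK, hgA⟩, hg1, hg2⟩ := zc_rows.1 hg
  have hgK' := hm_cast hgK (b := ρ - n) (by ring)
  have hgA' := hm_cast hgA (b := ρ - r) (by ring)
  set P := pull X.toPO (cone u).toPO p (n + 1) ρ (Sum.elim β (α + -ν))
    (Matrix.fromRows gK gA) with hP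
  have hlow : ∀ j, X.deg j + ρ < n → P j = ev p α gA j := by
    intro j hj
    rw [hP, pull_apply, if_pos (by omega), ev_rows (X := X) (u := u)]
    exact evLow hK.mem hν hgK' hgA' hj
  obtain ⟨hP1, μ, hμ1, hμ2⟩ := mem_BF.1 hgB
  -- `gA` is a boundary
  have k1 : gA ∈ Zc X.toPO A.toPO ⊥ (-s) (ρ - r) := zc_iff.2 ⟨hgA', hg2⟩
  have k2 : pull X.toPO A.toPO p n ρ α gA ∈ BF X.toPO p n ρ := by
    have k3 := (hPULL f A X p n r ρ (-s) hs').1 α hA.mem gA k1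
    refine mem_BF.2 ⟨k3.1, cut X.toPO n (ρ - 3) μ, fun i hi => ?_, fun j hj => ?_⟩
    · by_cases h1 : X.deg i + (ρ - 3) < n
      · refine ⟨(hμ1 i fun h2 => hi ?_).1, h1⟩
        show (if X.deg i + (ρ - 3) < n then μ i else 0) = 0
        rw [if_pos h1, h2]
      · exact absurd (if_neg h1) hi
    · rw [pull_apply, if_pos hj, ← hlow j hj, hμ2 j (by omega)]
      refine ev_congr p _ _ X.Φ j fun i => ?_
      by_cases h1 : X.deg i + (ρ - 3) < n
      · left; exact (if_pos h1).symm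
      · right; exact hmg_neg (X.hom i j) (by omega)
  obtain ⟨-, hA2, hhA, k4⟩ := bc_iff.1 (hA.inj X (-s) ρ hs' _ k1 k2)
  -- subtract a boundary
  have k5 : (Matrix.fromRows (-(u.1 * hA2)) gA : Matrix (cone u).ι X.ι Sr) ∈
      Bc X.toPO (cone u).toPO ⊥ s (ρ - (r + 3)) := by
    rw [bc_iff]
    refine ⟨hm_rows.2 ⟨hm_cast (neg_mem (hm_mul hu1 hhA)) (by ring), hgA⟩,
      (Matrix.fromRows 0 (-hA2) : Matrix (cone u).ι X.ι Sr),
      hm_rows.2 ⟨zero_mem _, hm_cast (neg_mem hhA) (by ring)⟩, ?_⟩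
    rw [phi_rows, Matrix.fromRows_mul]
    ext (i | i) j
    · simp
    · have := congrFun (congrFun k4 i) j
      simp only [Matrix.fromRows_apply_inr, Matrix.add_apply, Matrix.smul_apply, Matrix.mul_neg,
        Matrix.neg_mul, neg_neg, Matrix.neg_apply] at this ⊢
      rw [this]
      simp
  obtain ⟨g1, hg1d⟩ : ∃ g1 : Matrix K.ι X.ι Sr, g1 = gK + u.1 * hA2 := ⟨_, rfl⟩
  have k6 : K.Φ * g1 = s • (g1 * X.Φ) := by
    have e : K.Φ * gK = s • (gK * X.Φ) - u.1 * gA := eq_sub_of_add_eq hg1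
    rw [hg1d, Matrix.mul_add, e, Matrix.add_mul, ← Matrix.mul_assoc, hu2, k4, Matrix.mul_add,
      Matrix.mul_smul, Matrix.mul_assoc, Matrix.mul_assoc, neg_smul, smul_add]
    abel
  have k7 : g1 ∈ HM X.toPO K.toPO (ρ - n) :=
    hg1d ▸ add_mem hgK' (hm_cast (hm_mul hu1 hhA) (by ring))
  have k8 : (Matrix.fromRows gK gA : Matrix (cone u).ι X.ι Sr) =
      Matrix.fromRows g1 0 + Matrix.fromRows (-(u.1 * hA2)) gA := by
    ext (i | i) j
    · simp [hg1d]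
    · simp
  have k9 : pull X.toPO K.toPO p 1 (ρ - n) β g1 ∈ BF X.toPO p (n + 1) ρ := by
    have h1 := (hPULL f (cone u) X p (n + 1) (r + 3) ρ s hs).2.2 _ hm _ k5
    have h2 := sub_mem hgB h1
    rw [hP, k8, pull_add, add_sub_cancel_right, pullTop] at h2
    exact h2
  set Q := pull X.toPO K.toPO p 1 (ρ - n) β g1 with hQ
  have hQlow : ∀ j, X.deg j + (ρ - 3) + 3 ≠ n → Q j = 0 := by
    intro j hj
    rw [hQ, pull_apply]
    split_ifs with h1
    · refine ev_deg (a := 0) k7 (fun i hi => ?_) (by omega)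
      have := (hK.mem.1 i hi).1
      omega
    · rfl
  obtain ⟨hQ1, μ', hμ1', hμ2'⟩ := mem_BF.1 k9
  have k10 : cut X.toPO n (ρ - 3) μ' ∈ ZF X.toPO p n (ρ - 3) :=
    lemG hμ1' fun j hj => by rw [← hμ2' j (by omega), hQlow j (by omega)]
  obtain ⟨hA', hhA', k11⟩ := hA.surj X s (ρ - 3) hs _ k10
  set τ := cut X.toPO n (ρ - 3) μ' - pull X.toPO A.toPO p n (ρ - 3) α hA' with hτd
  have k12 : pull X.toPO A.toPO p n (ρ - 3) α hA' = cut X.toPO n (ρ - 3) μ' - τ := by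
    rw [hτd]; abel
  have k13 := lemM hPULL hPULC hs hA.mem hK.mem hu1 hd hhA'
  have k14 := lemD (by omega) k11
  have k15 : Q - dl X.toPO p n (ρ - 3) (cut X.toPO n (ρ - 3) μ') ∈
      BF X.toPO p 1 (ρ - 3 + 3 - n) :=
    lemG' hμ1' hQlow fun j hj => hμ2' j (by omega)
  have e0 : ρ - 3 + 3 - n = ρ - n := by ring
  rw [k12, dl_sub, e0] at k13
  rw [e0] at k14 k15
  obtain ⟨hhA1', hhA2'⟩ := zc_iff.1 hhA'
  have k16 : pull X.toPO K.toPO p 1 (ρ - n) β (g1 + (-s) • (u.1 * hA')) ∈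
      BF X.toPO p 1 (ρ - n) := by
    rw [pull_add, pull_zsmul, ← hQ]
    have h1 := add_mem (sub_mem k15 (Submodule.smul_mem _ (s : ℂ) k13)) k14
    convert h1 using 1
    rw [← sub_eq_zero]
    rw [smul_sub, smul_smul, hsC, one_smul, Int.cast_neg, neg_smul]
    abel
  have k17 : g1 + (-s) • (u.1 * hA') ∈ Zc X.toPO K.toPO ⊥ s (ρ - n - 0) := by
    rw [zc_iff]
    refine ⟨add_mem (hm_cast k7 (by ring))
      (hm_zsmul (hm_cast (hm_mul hu1 hhA1') (by ring)) _), ?_⟩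
    have e6 : K.Φ * (u.1 * hA') = s • (u.1 * hA' * X.Φ) := by
      rw [← Matrix.mul_assoc, hu2, Matrix.mul_assoc, hhA2', Matrix.mul_smul, ← Matrix.mul_assoc]
    rw [Matrix.mul_add, k6, Matrix.mul_smul, e6, Matrix.add_mul, smul_add, Matrix.smul_mul,
      smul_comm (-s) s]
  obtain ⟨-, k, hk, k18⟩ := bc_iff.1 (hK.inj X s (ρ - n) hs _ k17 k16)
  rw [bc_iff]
  refine ⟨hm_rows.2 ⟨hgK, hgA⟩,
    (Matrix.fromRows k (-hA2 + s • hA') : Matrix (cone u).ι X.ι Sr), hm_rows.2 ⟨hm_cast hk (by ring),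
      add_mem (hm_cast (neg_mem hhA) (by ring)) (hm_zsmul (hm_cast hhA1' (by ring)) _)⟩, ?_⟩
  have e1 : s • ((Matrix.fromRows k (-hA2 + s • hA') : Matrix (cone u).ι X.ι Sr) * X.Φ) =
      Matrix.fromRows (s • (k * X.Φ)) (s • ((-hA2 + s • hA') * X.Φ)) := by
    rw [Matrix.fromRows_mul]
    ext (i | i) j <;> rfl
  have e2 : gK = K.Φ * k + u.1 * (-hA2 + s • hA') + s • (k * X.Φ) := by
    have e3 : g1 = K.Φ * k + s • (k * X.Φ) + s • (u.1 * hA') := by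
      rw [← k18, neg_smul]; abel
    have e4 : gK = g1 - u.1 * hA2 := by rw [hg1d]; abel
    rw [e4, e3, Matrix.mul_add, Matrix.mul_neg, Matrix.mul_smul]
    abel
  have e3 : gA = -(A.Φ * (-hA2 + s • hA')) + s • ((-hA2 + s • hA') * X.Φ) := by
    rw [Matrix.mul_add, Matrix.add_mul, Matrix.mul_smul, Matrix.smul_mul, hhA2', smul_add,
      smul_smul, hs, one_smul, Matrix.mul_neg, Matrix.neg_mul]
    nth_rewrite 1 [k4]
    rw [neg_smul, smul_neg]
    abel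
  rw [phi_rows, e1]
  refine Matrix.ext fun i j => ?_
  rcases i with i | i
  · exact congrFun (congrFun e2 i) j
  · exact congrFun (congrFun e3 i) j

end main

end Pool.Agent.VDC.EXT_

namespace Pool.Agent.VDC

open EXT_

theorem p_EXT (hPULL : T_PULL) (hPULC : T_PULC) (hBZF : T_BZF) : T_EXT := by
  intro f A K p n r α β u hn hn2 hA hK hd
  obtain ⟨-, ν, hν, h0⟩ := mem_BF.1 hd
  have hν' : ∀ i, ν i ≠ 0 → A.deg i + r = n := by
    intro i hi
    have := hν i hi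
    omega
  have hm := extMem hn hA.mem hK.mem hν' h0
  refine ⟨-ν, fun i hi => hν' i fun h1 => hi ?_, hm, ?_, ?_⟩
  · rw [Pi.neg_apply, h1, neg_zero]
  · exact extSurj hPULL hPULC hBZF hn hn2 hA hK hd hν' hm
  · exact extInj hPULL hPULC hn hn2 hA hK hd hν' hm

end Pool.Agent.VDC
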