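import Pool.Agent.VDC.T1

/-!
# VDC: target FDH (helper75)

The `Hom` spaces are finite dimensional.
-/

set_option autoImplicit false

open MvPolynomial CategoryTheory

noncomputable section

namespace Pool.Agent.VDC

namespace FDH_

theorem mor_le {f : Sr} (X Y : CM f) : mor X Y ≤ HM X.toPO Y.toPO 0 := by
  rintro g ⟨h1, h2⟩ i j
  exact (h1 i j).congr (by ring)

end FDH_

theorem p_FDH (h1 : T_HFIN) : T_FDH := by
  intro f X Y
  have h2 : Module.Finite ℂ (HM X.toPO Y.toPO 0) := h1 X.toPO Y.toPO 0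
  have h3 : Module.Finite ℂ (mor X Y) :=
    Submodule.finiteDimensional_of_le (FDH_.mor_le X Y)
  exact inferInstanceAs (Module.Finite ℂ (mor X Y ⧸ nul X Y))

end Pool.Agent.VDC
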