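import Pool.Agent.VDC.T2

/-!
# VDC: target `FIN` (comparison of the branch divisors)
-/

set_option autoImplicit false

open MvPolynomial CategoryTheory

noncomputable section

namespace Pool.Agent.VDC

namespace FIN_

/-- conjugation of `E.F.map` -/
def cj {f f' : Sr} (E : ExactEquiv f f') {X Y : CM f} {X' Y' : CM f'} (φ : E.F.obj X ≅ X')
    (ψ : E.F.obj Y ≅ Y') : (X ⟶ Y) →ₗ[ℂ] (X' ⟶ Y') where
  toFun a := φ.inv ≫ E.F.map a ≫ ψ.hom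
  map_add' a b := by
    have := E.additive
    have h : E.F.map (a + b) = E.F.map a + E.F.map b := E.F.map_add
    rw [h, Preadditive.add_comp, Preadditive.comp_add]
  map_smul' c a := by
    have := E.additive
    have := E.linear
    have h : E.F.map (c • a) = c • E.F.map a := E.F.map_smul c a
    rw [h, Linear.smul_comp, Linear.comp_smul, RingHom.id_apply]

lemma cj_apply {f f' : Sr} (E : ExactEquiv f f') {X Y : CM f} {X' Y' : CM f'}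
    (φ : E.F.obj X ≅ X') (ψ : E.F.obj Y ≅ Y') (a : X ⟶ Y) :
    cj E φ ψ a = φ.inv ≫ E.F.map a ≫ ψ.hom := rfl

lemma cj_bij {f f' : Sr} (E : ExactEquiv f f') {X Y : CM f} {X' Y' : CM f'}
    (φ : E.F.obj X ≅ X') (ψ : E.F.obj Y ≅ Y') : Function.Bijective (cj E φ ψ) := by
  have := E.isEquiv
  constructor
  · intro a b h
    rw [cj_apply, cj_apply, cancel_epi, cancel_mono] at h
    exact E.F.map_injective h
  · intro b
    obtain ⟨a, ha⟩ := E.F.map_surjective (φ.hom ≫ b ≫ ψ.inv)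
    refine ⟨a, ?_⟩
    rw [cj_apply, ha]
    simp

/-- scaling of an isomorphism -/
def sc {f : Sr} {X Y : CM f} (μ : ℂ) (hμ : μ ≠ 0) (φ : X ≅ Y) : X ≅ Y where
  hom := μ⁻¹ • φ.hom
  inv := μ • φ.inv
  hom_inv_id := by
    rw [Linear.smul_comp, Linear.comp_smul, smul_smul, inv_mul_cancel₀ hμ, one_smul,
      φ.hom_inv_id]
  inv_hom_id := by
    rw [Linear.smul_comp, Linear.comp_smul, smul_smul, mul_inv_cancel₀ hμ, one_smul,
      φ.inv_hom_id]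

lemma xi_sq {f : Sr} {K : CM f} {o : K.ι} (A : XE K o) (v : Fin 3 → ℂ) :
    A.xi v ≫ sxx (A.xi v) = 0 := by
  have h := A.anti v v
  have h2 : (2 : ℂ) • (A.xi v ≫ sxx (A.xi v)) = 0 := by
    rw [two_smul]
    nth_rewrite 1 [h]
    exact neg_add_cancel _
  rcases smul_eq_zero.1 h2 with h3 | h3
  · norm_num at h3
  · exact h3

end FIN_

open FIN_ in
theorem p_FIN (hSTP : T_STP) (hG : T_GMU) (hT : T_TWQ) : T_FIN := by
  rintro f f' hf hf' K o K' o' hK hK' A A' E ⟨φ₀⟩ ⟨φ₂⟩ ⟨φ₄⟩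
  have hadd := E.additive
  have hlin := E.linear
  have hequ := E.isEquiv
  -- the bijections `sxx` and `szy`
  have bx : Function.Bijective (sxx : (K ⟶ tw 2 1 K) →ₗ[ℂ] (tw 2 1 K ⟶ tw 4 1 K)) :=
    hT f K K 2 1 2 1 4 1 (by norm_num) (by norm_num)
  have bx' : Function.Bijective (sxx : (K' ⟶ tw 2 1 K') →ₗ[ℂ] (tw 2 1 K' ⟶ tw 4 1 K')) :=
    hT f' K' K' 2 1 2 1 4 1 (by norm_num) (by norm_num)
  have bz : Function.Bijective (szy : (K ⟶ tw 1 (-1) K) →ₗ[ℂ] (tw 3 (-1) K ⟶ tw 4 1 K)) :=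
    hT f K K 1 (-1) 3 (-1) 4 1 (by norm_num) (by norm_num)
  have bz' : Function.Bijective
      (szy : (K' ⟶ tw 1 (-1) K') →ₗ[ℂ] (tw 3 (-1) K' ⟶ tw 4 1 K')) :=
    hT f' K' K' 1 (-1) 3 (-1) 4 1 (by norm_num) (by norm_num)
  let e02 : (K ⟶ tw 2 1 K) ≃ₗ[ℂ] (K' ⟶ tw 2 1 K') :=
    LinearEquiv.ofBijective (cj E φ₀ φ₂) (cj_bij E φ₀ φ₂)
  let e24 : (tw 2 1 K ⟶ tw 4 1 K) ≃ₗ[ℂ] (tw 2 1 K' ⟶ tw 4 1 K') :=
    LinearEquiv.ofBijective (cj E φ₂ φ₄) (cj_bij E φ₂ φ₄)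
  let sx : (K ⟶ tw 2 1 K) ≃ₗ[ℂ] (tw 2 1 K ⟶ tw 4 1 K) := LinearEquiv.ofBijective sxx bx
  let sx' : (K' ⟶ tw 2 1 K') ≃ₗ[ℂ] (tw 2 1 K' ⟶ tw 4 1 K') := LinearEquiv.ofBijective sxx bx'
  let g : (Fin 3 → ℂ) ≃ₗ[ℂ] (Fin 3 → ℂ) := (A.xi.trans e02).trans A'.xi.symm
  let g2 : (Fin 3 → ℂ) ≃ₗ[ℂ] (Fin 3 → ℂ) :=
    (((A.xi.trans sx).trans e24).trans sx'.symm).trans A'.xi.symm
  have hg : ∀ v, A'.xi (g v) = φ₀.inv ≫ E.F.map (A.xi v) ≫ φ₂.hom := by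
    intro v
    show A'.xi (A'.xi.symm (e02 (A.xi v))) = _
    rw [LinearEquiv.apply_symm_apply]
    rfl
  have hg2 : ∀ v, sxx (A'.xi (g2 v)) = φ₂.inv ≫ E.F.map (sxx (A.xi v)) ≫ φ₄.hom := by
    intro v
    show sx' (A'.xi (A'.xi.symm (sx'.symm (e24 (sx (A.xi v)))))) = _
    rw [LinearEquiv.apply_symm_apply, LinearEquiv.apply_symm_apply]
    rfl
  have hdep : ∀ v, ¬ LinearIndependent ℂ ![g v, g2 v] := by
    intro v
    refine A'.prod (g v) (g2 v) ?_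
    rw [hg v, hg2 v]
    simp only [Category.assoc, Iso.hom_inv_id_assoc]
    rw [← Functor.map_comp_assoc, xi_sq A v, Functor.map_zero]
    simp
  obtain ⟨μ, hμ, hμg⟩ := hG g g2 hdep
  let φ₄' : E.F.obj (tw 4 1 K) ≅ tw 4 1 K' := sc μ hμ φ₄
  have h2 : ∀ v, E.F.map (sxx (A.xi v)) ≫ φ₄'.hom = φ₂.hom ≫ sxx (A'.xi (g v)) := by
    intro v
    have h3 : sxx (A'.xi (g2 v)) = μ • sxx (A'.xi (g v)) := by
      rw [hμg v, map_smul, map_smul]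
    have h4 : sxx (A'.xi (g v)) = μ⁻¹ • (φ₂.inv ≫ E.F.map (sxx (A.xi v)) ≫ φ₄.hom) := by
      rw [← hg2 v, h3, smul_smul, inv_mul_cancel₀ hμ, one_smul]
    rw [h4]
    show E.F.map (sxx (A.xi v)) ≫ (μ⁻¹ • φ₄.hom) = _
    rw [Linear.comp_smul, Linear.comp_smul, Iso.hom_inv_id_assoc]
  -- the map `et`
  let ψ : E.F.obj (tw 3 (-1) K) ≅ tw 3 (-1) K' := E.comm.app K ≪≫ (sh f').mapIso φ₀
  obtain ⟨b, hb⟩ := bz'.2 (ψ.inv ≫ E.F.map (szy A.et) ≫ φ₄'.hom)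
  obtain ⟨lam, hlam⟩ := A'.span b
  have h5 : E.F.map (szy A.et) ≫ φ₄'.hom =
      lam • (E.comm.hom.app K ≫ (sh f').map φ₀.hom ≫ szy A'.et) := by
    have h6 : E.F.map (szy A.et) ≫ φ₄'.hom = ψ.hom ≫ szy b := by
      rw [hb, Iso.hom_inv_id_assoc]
    have h7 : szy b = lam • szy A'.et := by
      rw [hlam, map_smul]
    rw [h6, h7, Linear.comp_smul]
    congr 1
    exact Category.assoc _ _ _
  have hlam0 : lam ≠ 0 := by
    intro h0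
    rw [h0, zero_smul] at h5
    have h6 : E.F.map (szy A.et) = 0 := by
      have h7 : E.F.map (szy A.et) ≫ φ₄'.hom = 0 ≫ φ₄'.hom := by
        rw [h5, Limits.zero_comp]
        rfl
      exact (cancel_mono φ₄'.hom).1 h7
    have h8 : szy A.et = (0 : tw 3 (-1) K ⟶ tw 4 1 K) := by
      refine E.F.map_injective ?_
      rw [h6, Functor.map_zero]
    refine A.ne (bz.1 ?_)
    rw [h8, map_zero]
  refine ⟨g, lam, hlam0, fun v hv => ?_⟩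
  have hgv : g v ≠ 0 := fun h => hv (g.map_eq_zero_iff.1 h)
  refine hSTP f f' hf hf' K o K' o' hK hK' A A' E φ₀ φ₂ φ₄' v (g v) lam hv hgv hlam0 ?_ (h2 v) h5
  rw [hg v, Iso.hom_inv_id_assoc]

end Pool.Agent.VDC
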