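import Pool.Agent.VDC.T1

/-!
# VDC: the frames for `n = 3`
-/

set_option autoImplicit false

open MvPolynomial CategoryTheory

noncomputable section

namespace Pool.Agent.VDC

lemma FRM_wd (a : Fin 4 →₀ ℕ) : wd a = (a 0 : ℤ) + a 1 + a 2 + 2 * a 3 := by
  simp [wd, Fin.sum_univ_four, wt]

lemma FRM_pow {p : Sr} {m : ℤ} (hp : Hmg p m) (k : ℕ) : Hmg (p ^ k) (k * m) := by
  induction k with
  | zero => exact (Hmg.one).congr (by simp)
  | succ k ih =>
    rw [pow_succ]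
    exact (ih.mul hp).congr (by push_cast; ring)

lemma FRM_C (c : ℂ) : Hmg (C c : Sr) 0 := by
  have h := (Hmg.one).csmul c
  rwa [← C_mul', mul_one] at h

lemma FRM_X (i : Fin 4) : Hmg (X i : Sr) (wt i) := by
  classical
  intro a h
  rw [coeff_X] at h
  have h1 : Finsupp.single i 1 = a := by
    by_contra h2
    exact h (if_neg h2)
  rw [← h1, FRM_wd]
  fin_cases i <;> simp [wt]

/-- substitution by homogeneous polynomials preserves homogeneity -/
lemma FRM_aeval (F : Fin 4 → Sr) (hF : ∀ i, Hmg (F i) (wt i)) (q : Sr) (m : ℤ) (hq : Hmg q m) :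
    Hmg (aeval F q) m := by
  have h1 : aeval F q = ∑ a ∈ q.support, C (coeff a q) * ∏ i, F i ^ a i := by
    rw [aeval_def, eval₂_eq']
    rfl
  rw [h1]
  refine Hmg.sum fun a ha => ?_
  have h2 : wd a = m := hq a (mem_support_iff.1 ha)
  have h3 : Hmg (∏ i, F i ^ a i) (wd a) := by
    rw [Fin.prod_univ_four]
    refine (((((FRM_pow (hF 0) (a 0)).mul (FRM_pow (hF 1) (a 1))).mul
      (FRM_pow (hF 2) (a 2))).mul (FRM_pow (hF 3) (a 3)))).congr ?_
    rw [FRM_wd]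
    simp [wt]
    ring
  exact ((FRM_C _).mul h3).congr (by rw [h2]; ring)

/-- linear forms given by a matrix -/
def FRM_L (M : Matrix (Fin 3) (Fin 3) ℂ) (i : Fin 3) : Sr := ∑ j, C (M i j) * X j.castSucc

lemma FRM_L_hom (M : Matrix (Fin 3) (Fin 3) ℂ) (i : Fin 3) : Hmg (FRM_L M i) 1 := by
  refine Hmg.sum fun j _ => ?_
  refine ((FRM_C _).mul (FRM_X _)).congr ?_
  fin_cases j <;> simp [wt]

lemma FRM_L_mul (M N : Matrix (Fin 3) (Fin 3) ℂ) (h : N * M = 1) (i : Fin 3) :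
    ∑ j, C (N i j) * FRM_L M j = X i.castSucc := by
  have h1 : ∑ j, C (N i j) * FRM_L M j = ∑ k, C ((N * M) i k) * X k.castSucc := by
    simp only [FRM_L, Finset.mul_sum]
    rw [Finset.sum_comm]
    refine Finset.sum_congr rfl fun k _ => ?_
    rw [Matrix.mul_apply, map_sum, Finset.sum_mul]
    refine Finset.sum_congr rfl fun j _ => ?_
    rw [C_mul, mul_assoc]
  rw [h1, h]
  rw [Finset.sum_eq_single i]
  · rw [Matrix.one_apply_eq, C_1, one_mul]
  · intro b _ hb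
    rw [Matrix.one_apply_ne (Ne.symm hb), C_0, zero_mul]
  · intro h2
    exact absurd (Finset.mem_univ i) h2

/-- the substitution -/
def FRM_F (M : Matrix (Fin 3) (Fin 3) ℂ) (u : Sr) : Fin 4 → Sr :=
  ![FRM_L M 0, FRM_L M 1, FRM_L M 2, X 3 + u]

lemma FRM_F_castSucc (M : Matrix (Fin 3) (Fin 3) ℂ) (u : Sr) (j : Fin 3) :
    FRM_F M u j.castSucc = FRM_L M j := by
  fin_cases j <;> rfl

lemma FRM_F_hom (M : Matrix (Fin 3) (Fin 3) ℂ) (u : Sr) (hu : Hmg u 2) (i : Fin 4) :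
    Hmg (FRM_F M u i) (wt i) := by
  fin_cases i
  · exact FRM_L_hom M 0
  · exact FRM_L_hom M 1
  · exact FRM_L_hom M 2
  · exact (FRM_X 3).add (hu.congr (by simp [wt]))

lemma FRM_aeval_L (M N : Matrix (Fin 3) (Fin 3) ℂ) (h : N * M = 1) (u : Sr) (i : Fin 3) :
    aeval (FRM_F M u) (FRM_L N i) = X i.castSucc := by
  rw [← FRM_L_mul M N h i]
  simp only [FRM_L, map_sum, map_mul, aeval_X, FRM_F_castSucc]
  refine Finset.sum_congr rfl fun j _ => ?_
  rw [← algebraMap_eq, AlgHom.commutes]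

lemma FRM_comp (M N : Matrix (Fin 3) (Fin 3) ℂ) (h : N * M = 1) (u w : Sr)
    (huw : aeval (FRM_F M u) w = -u) :
    (aeval (FRM_F M u)).comp (aeval (FRM_F N w)) = AlgHom.id ℂ Sr := by
  refine MvPolynomial.algHom_ext fun i => ?_
  rw [AlgHom.comp_apply, aeval_X]
  fin_cases i
  · exact FRM_aeval_L M N h u 0
  · exact FRM_aeval_L M N h u 1
  · exact FRM_aeval_L M N h u 2
  · show aeval (FRM_F M u) (X 3 + w) = X 3
    rw [map_add, huw, aeval_X]
    show X 3 + u + -u = X 3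
    ring

/-- evaluation at `(1,0,0,0)` -/
lemma FRM_eval (q : Sr) (m : ℤ) (hq : Hmg q m) :
    eval ![1, 0, 0, 0] q = 0 ↔ ∀ a, coeff a q ≠ 0 → a 1 ≠ 0 ∨ a 2 ≠ 0 ∨ a 3 ≠ 0 := by
  have h0 : ∀ a : Fin 4 →₀ ℕ, (∏ i, (![1, 0, 0, 0] : Fin 4 → ℂ) i ^ a i) =
      if a 1 ≠ 0 ∨ a 2 ≠ 0 ∨ a 3 ≠ 0 then 0 else 1 := by
    intro a
    rw [Fin.prod_univ_four]
    by_cases h1 : a 1 = 0
    · by_cases h2 : a 2 = 0
      · by_cases h3 : a 3 = 0
        · simp [h1, h2, h3]
        · simp [h1, h2, h3]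
      · simp [h1, h2]
    · simp [h1]
  have h1 : eval ![1, 0, 0, 0] q = ∑ a ∈ q.support, coeff a q *
      ∏ i, (![1, 0, 0, 0] : Fin 4 → ℂ) i ^ a i := eval_eq' _ _
  constructor
  · intro h a ha
    by_contra h2
    have h3 : a 1 = 0 ∧ a 2 = 0 ∧ a 3 = 0 := by tauto
    have h4 : ∑ a ∈ q.support, coeff a q *
      ∏ i, (![1, 0, 0, 0] : Fin 4 → ℂ) i ^ a i = coeff a q := by
      rw [Finset.sum_eq_single a]
      · rw [h0, if_neg h2, mul_one]
      · intro b hb hab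
        rw [h0]
        split_ifs with h5
        · rw [mul_zero]
        · exfalso
          apply hab
          have h6 := hq a ha
          have h7 := hq b (mem_support_iff.1 hb)
          rw [FRM_wd] at h6 h7
          have h8 : b 1 = 0 ∧ b 2 = 0 ∧ b 3 = 0 := by tauto
          ext i
          fin_cases i
          · show b 0 = a 0
            omega
          · show b 1 = a 1
            omega
          · show b 2 = a 2
            omega
          · show b 3 = a 3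
            omega
      · intro h5
        exact absurd (mem_support_iff.2 ha) h5
    rw [h1, h4] at h
    exact ha h
  · intro h
    rw [h1]
    refine Finset.sum_eq_zero fun a ha => ?_
    rw [h0, if_pos (h a (mem_support_iff.1 ha)), mul_zero]

/-- division of a homogeneous polynomial of degree `6` -/
lemma FRM_div (g : Sr) (hg : Hmg g 6) : ∃ (b1 b2 b3 : Sr) (κ : ℂ), Hmg b1 5 ∧ Hmg b2 5 ∧
    Hmg b3 4 ∧ g = X 0 ^ 3 * (C κ * X 0 ^ 3) + X 1 * b1 + X 2 * b2 + X 3 * b3 ∧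
    κ = eval ![1, 0, 0, 0] g := by
  classical
  have key : ∀ (i : Fin 4) (p : Sr) (m : ℤ), Hmg p m → ∃ b r : Sr, Hmg b (m - wt i) ∧ Hmg r m ∧
      p = X i * b + r ∧ (∀ a, coeff a r ≠ 0 → coeff a p ≠ 0 ∧ a i = 0) := by
    intro i p m hp
    refine ⟨p.divMonomial (Finsupp.single i 1), p.modMonomial (Finsupp.single i 1), ?_, ?_, ?_, ?_⟩
    · intro a ha
      rw [coeff_divMonomial] at ha
      have h1 := hp _ ha
      rw [wd_add] at h1
      have h2 : wd (Finsupp.single i 1) = wt i := by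
        rw [FRM_wd]
        fin_cases i <;> simp [wt]
      rw [h2] at h1
      linarith
    · intro a ha
      by_cases h1 : Finsupp.single i 1 ≤ a
      · exact absurd (coeff_modMonomial_of_le _ h1) ha
      · rw [coeff_modMonomial_of_not_le _ h1] at ha
        exact hp a ha
    · have h1 := divMonomial_add_modMonomial p (Finsupp.single i 1)
      exact h1.symm
    · intro a ha
      by_cases h1 : Finsupp.single i 1 ≤ a
      · exact absurd (coeff_modMonomial_of_le _ h1) ha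
      · rw [coeff_modMonomial_of_not_le _ h1] at ha
        refine ⟨ha, ?_⟩
        by_contra h2
        apply h1
        rw [Finsupp.single_le_iff]
        omega
  obtain ⟨b1, r1, hb1, hr1, e1, s1⟩ := key 1 g 6 hg
  obtain ⟨b2, r2, hb2, hr2, e2, s2⟩ := key 2 r1 6 hr1
  obtain ⟨b3, r3, hb3, hr3, e3, s3⟩ := key 3 r2 6 hr2
  have h1 : r3 = X 0 ^ 3 * (C (coeff (Finsupp.single 0 6) r3) * X 0 ^ 3) := by
    have h2 : (X 0 : Sr) ^ 3 * (C (coeff (Finsupp.single 0 6) r3) * X 0 ^ 3) =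
        monomial (Finsupp.single 0 6) (coeff (Finsupp.single 0 6) r3) := by
      rw [show (monomial (Finsupp.single 0 6) (coeff (Finsupp.single 0 6) r3) : Sr) =
        C (coeff (Finsupp.single 0 6) r3) * X 0 ^ 6 from by
          rw [C_mul_X_pow_eq_monomial]]
      ring
    rw [h2]
    ext a
    rw [coeff_monomial]
    split_ifs with h3
    · rw [h3]
    · by_contra h4
      apply h3
      obtain ⟨h5, h6⟩ := s3 a h4
      obtain ⟨h7, h8⟩ := s2 a h5
      obtain ⟨h9, h10⟩ := s1 a h7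
      have h11 := hg a h9
      rw [FRM_wd] at h11
      ext i
      fin_cases i
      · show (Finsupp.single 0 6 : Fin 4 →₀ ℕ) 0 = a 0
        rw [Finsupp.single_eq_same]
        omega
      · show (Finsupp.single 0 6 : Fin 4 →₀ ℕ) 1 = a 1
        rw [Finsupp.single_eq_of_ne (by decide)]
        omega
      · show (Finsupp.single 0 6 : Fin 4 →₀ ℕ) 2 = a 2
        rw [Finsupp.single_eq_of_ne (by decide)]
        omega
      · show (Finsupp.single 0 6 : Fin 4 →₀ ℕ) 3 = a 3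
        rw [Finsupp.single_eq_of_ne (by decide)]
        omega
  refine ⟨b1, b2, b3, coeff (Finsupp.single 0 6) r3, hb1.congr (by simp [wt]),
    hb2.congr (by simp [wt]), hb3.congr (by simp [wt]), ?_, ?_⟩
  · rw [← h1, e1, e2, e3]
    ring
  · generalize coeff (Finsupp.single 0 6) r3 = κ at h1
    rw [e1, e2, e3, h1]
    simp

/-- the frame of the monomial ideal -/
lemma FRM_std (hNZ : T_MNZ) (hINS : T_MINS) (hMEM : T_MMEM) :
    NZ ((X 0 : Sr) ^ 3) ⊥ ∧ NZ (X 3 : Sr) (Ideal.span {(X 0 : Sr) ^ 3}) ∧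
    NZ (X 2 : Sr) (Ideal.span {(X 0 : Sr) ^ 3} ⊔ Ideal.span {(X 3 : Sr)}) ∧
    NZ (X 1 : Sr) (Ideal.span {(X 0 : Sr) ^ 3} ⊔ Ideal.span {(X 3 : Sr)} ⊔
      Ideal.span {(X 2 : Sr)}) ∧
    ∀ (q : Sr) (m : ℤ), Hmg q m → (q ∈ Ideal.span {(X 0 : Sr) ^ 3} ⊔ Ideal.span {(X 3 : Sr)} ⊔
      Ideal.span {(X 2 : Sr)} ⊔ Ideal.span {(X 1 : Sr)} ↔ 3 ≤ m ∨ eval ![1, 0, 0, 0] q = 0) := by
  have h0 : mI {0} ![3, 1, 1, 1] = Ideal.span {(X 0 : Sr) ^ 3} := by
    have := hINS.2 ∅ ![3, 1, 1, 1] 0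
    rw [hINS.1, bot_sup_eq] at this
    exact this
  have h3 : mI {3, 0} ![3, 1, 1, 1] = Ideal.span {(X 0 : Sr) ^ 3} ⊔ Ideal.span {(X 3 : Sr)} := by
    have := hINS.2 {0} ![3, 1, 1, 1] 3
    rw [h0, show (![3, 1, 1, 1] : Fin 4 → ℕ) 3 = 1 from rfl, pow_one] at this
    exact this
  have h2 : mI {2, 3, 0} ![3, 1, 1, 1] =
      Ideal.span {(X 0 : Sr) ^ 3} ⊔ Ideal.span {(X 3 : Sr)} ⊔ Ideal.span {(X 2 : Sr)} := by
    have := hINS.2 {3, 0} ![3, 1, 1, 1] 2
    rw [h3, show (![3, 1, 1, 1] : Fin 4 → ℕ) 2 = 1 from rfl, pow_one] at this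
    exact this
  have h1 : mI {1, 2, 3, 0} ![3, 1, 1, 1] =
      Ideal.span {(X 0 : Sr) ^ 3} ⊔ Ideal.span {(X 3 : Sr)} ⊔ Ideal.span {(X 2 : Sr)} ⊔
        Ideal.span {(X 1 : Sr)} := by
    have := hINS.2 {2, 3, 0} ![3, 1, 1, 1] 1
    rw [h2, show (![3, 1, 1, 1] : Fin 4 → ℕ) 1 = 1 from rfl, pow_one] at this
    exact this
  refine ⟨?_, ?_, ?_, ?_, ?_⟩
  · have := hNZ ∅ ![3, 1, 1, 1] 0 (by simp)
    rw [hINS.1] at this
    exact this
  · have := hNZ {0} ![3, 1, 1, 1] 3 (by decide)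
    rw [h0, show (![3, 1, 1, 1] : Fin 4 → ℕ) 3 = 1 from rfl, pow_one] at this
    exact this
  · have := hNZ {3, 0} ![3, 1, 1, 1] 2 (by decide)
    rw [h3, show (![3, 1, 1, 1] : Fin 4 → ℕ) 2 = 1 from rfl, pow_one] at this
    exact this
  · have := hNZ {2, 3, 0} ![3, 1, 1, 1] 1 (by decide)
    rw [h2, show (![3, 1, 1, 1] : Fin 4 → ℕ) 1 = 1 from rfl, pow_one] at this
    exact this
  · intro q m hq
    rw [← h1, hMEM, FRM_eval q m hq]
    have hJ : ∀ a : Fin 4 →₀ ℕ, (∃ j ∈ ({1, 2, 3, 0} : Finset (Fin 4)),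
        (![3, 1, 1, 1] : Fin 4 → ℕ) j ≤ a j) ↔ 3 ≤ a 0 ∨ 1 ≤ a 1 ∨ 1 ≤ a 2 ∨ 1 ≤ a 3 := by
      intro a
      constructor
      · rintro ⟨j, _, hj⟩
        fin_cases j
        · exact Or.inl hj
        · exact Or.inr (Or.inl hj)
        · exact Or.inr (Or.inr (Or.inl hj))
        · exact Or.inr (Or.inr (Or.inr hj))
      · rintro (h | h | h | h)
        · exact ⟨0, by decide, h⟩
        · exact ⟨1, by decide, h⟩
        · exact ⟨2, by decide, h⟩
        · exact ⟨3, by decide, h⟩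
    simp only [hJ]
    constructor
    · intro h
      by_cases hm : 3 ≤ m
      · exact Or.inl hm
      · right
        intro a ha
        have h4 := h a ha
        have h5 := hq a ha
        rw [FRM_wd] at h5
        by_contra h6
        have h7 : a 1 = 0 ∧ a 2 = 0 ∧ a 3 = 0 := by tauto
        omega
    · rintro (h | h) a ha
      · have h5 := hq a ha
        rw [FRM_wd] at h5
        by_cases h6 : a 1 = 0 ∧ a 2 = 0 ∧ a 3 = 0
        · left
          omega
        · omega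
      · have := h a ha
        omega

lemma FRM_span (φ : Sr ≃ₐ[ℂ] Sr) (l : Sr) :
    (Ideal.span {l}).map (φ : Sr →+* Sr) = Ideal.span {φ l} := by
  rw [Ideal.map_span, Set.image_singleton]
  rfl

lemma FRM_mem (φ : Sr ≃ₐ[ℂ] Sr) (I : Ideal Sr) (q : Sr) :
    φ q ∈ I.map (φ : Sr →+* Sr) ↔ q ∈ I := by
  constructor
  · intro h
    have h1 := Ideal.mem_map_of_mem (φ.symm : Sr →+* Sr) h
    rw [Ideal.map_map] at h1
    have h2 : ((φ.symm : Sr →+* Sr)).comp (φ : Sr →+* Sr) = RingHom.id Sr := by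
      ext x
      · simp
      · simp
    rw [h2, Ideal.map_id] at h1
    have h3 : (φ.symm : Sr →+* Sr) (φ q) = q := by simp
    rwa [h3] at h1
  · intro h
    exact Ideal.mem_map_of_mem (φ : Sr →+* Sr) h

lemma FRM_NZ (φ : Sr ≃ₐ[ℂ] Sr) (l : Sr) (I : Ideal Sr) (h : NZ l I) :
    NZ (φ l) (I.map (φ : Sr →+* Sr)) := by
  intro p hp
  obtain ⟨q, rfl⟩ := φ.surjective p
  rw [← map_mul, FRM_mem] at hp
  rw [FRM_mem]
  exact h q hp

lemma FRM_ae (p : Fin 4 → ℂ) (q : Sr) : aeval (R := ℂ) p q = eval p q := by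
  rw [aeval_def, eval₂_eq', eval_eq']
  rfl

lemma FRM_matrix (v : Fin 3 → ℂ) (hv : v ≠ 0) : ∃ M N : Matrix (Fin 3) (Fin 3) ℂ,
    N * M = 1 ∧ M * N = 1 ∧ M.mulVec v = Pi.single 0 1 := by
  obtain ⟨A, hA⟩ := SeparatingDual.exists_continuousLinearEquiv_apply_eq (R := ℂ) hv
    (y := (Pi.single 0 1 : Fin 3 → ℂ)) (by simp)
  refine ⟨LinearMap.toMatrix' (A.toLinearEquiv : (Fin 3 → ℂ) →ₗ[ℂ] (Fin 3 → ℂ)),
    LinearMap.toMatrix' (A.toLinearEquiv.symm : (Fin 3 → ℂ) →ₗ[ℂ] (Fin 3 → ℂ)), ?_, ?_, ?_⟩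
  · rw [← LinearMap.toMatrix'_comp]
    simp
  · rw [← LinearMap.toMatrix'_comp]
    simp
  · rw [LinearMap.toMatrix'_mulVec]
    exact hA

lemma FRM_eval_L (M : Matrix (Fin 3) (Fin 3) ℂ) (v : Fin 3 → ℂ) (c : ℂ) (i : Fin 3) :
    eval (vp v c) (FRM_L M i) = M.mulVec v i := by
  simp only [FRM_L, map_sum, map_mul, eval_C, eval_X, Matrix.mulVec, dotProduct]
  refine Finset.sum_congr rfl fun j _ => ?_
  congr 1
  fin_cases j <;> rfl

theorem p_FRM (hNZ : T_MNZ) (hINS : T_MINS) (hMEM : T_MMEM) : T_FRM := by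
  intro f hf v c hv
  obtain ⟨M, N, hNM, hMN, hMv⟩ := FRM_matrix v hv
  obtain ⟨s0, s3, s2, s1, sm⟩ := FRM_std hNZ hINS hMEM
  set u : Sr := -(c • FRM_L M 0 ^ 2) with hu
  set w : Sr := c • (X 0 : Sr) ^ 2 with hw
  have hu2 : Hmg u 2 := (((FRM_pow (FRM_L_hom M 0) 2).congr (by norm_num)).csmul c).neg
  have hw2 : Hmg w 2 := ((FRM_pow (FRM_X 0) 2).congr (by norm_num [wt])).csmul c
  have huw : aeval (FRM_F M u) w = -u := by
    rw [hw, hu, map_smul, map_pow, aeval_X, neg_neg]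
    rfl
  have hwu : aeval (FRM_F N w) u = -w := by
    rw [hw, hu, map_neg, map_smul, map_pow, FRM_aeval_L N M hMN]
    rfl
  let φ : Sr ≃ₐ[ℂ] Sr := AlgEquiv.ofAlgHom (aeval (FRM_F M u)) (aeval (FRM_F N w))
    (FRM_comp M N hNM u w huw) (FRM_comp N M hMN w u hwu)
  have hφ : ∀ q, φ q = aeval (FRM_F M u) q := fun q => rfl
  have hψ : ∀ q, φ.symm q = aeval (FRM_F N w) q := fun q => rfl
  have hφh : ∀ q m, Hmg q m → Hmg (φ q) m := fun q m h =>
    FRM_aeval _ (FRM_F_hom M u hu2) q m h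
  have hψh : ∀ q m, Hmg q m → Hmg (φ.symm q) m := fun q m h =>
    FRM_aeval _ (FRM_F_hom N w hw2) q m h
  have hev : ∀ q, eval (vp v c) (φ q) = eval ![1, 0, 0, 0] q := by
    intro q
    have h1 : (aeval (R := ℂ) (vp v c)).comp (aeval (FRM_F M u)) =
        aeval (R := ℂ) (![1, 0, 0, 0] : Fin 4 → ℂ) := by
      refine MvPolynomial.algHom_ext fun i => ?_
      rw [AlgHom.comp_apply, aeval_X, aeval_X]
      rw [FRM_ae]
      fin_cases i
      · show eval (vp v c) (FRM_L M 0) = 1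
        rw [FRM_eval_L, hMv]
        simp
      · show eval (vp v c) (FRM_L M 1) = 0
        rw [FRM_eval_L, hMv]
        simp
      · show eval (vp v c) (FRM_L M 2) = 0
        rw [FRM_eval_L, hMv]
        simp
      · show eval (vp v c) (X 3 + u) = 0
        rw [hu, map_add, map_neg, smul_eval, map_pow, FRM_eval_L, hMv, eval_X]
        simp [vp]
    have h3 := congrArg (fun g : Sr →ₐ[ℂ] ℂ => g q) h1
    simp only [AlgHom.comp_apply] at h3
    rw [FRM_ae, FRM_ae] at h3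
    exact h3
  obtain ⟨b1, b2, b3, κ, hb1, hb2, hb3, hg, hκ⟩ := FRM_div (φ.symm (-f)) (hψh _ _ hf.neg)
  have hsum : φ (X 0 ^ 3) * φ (C κ * X 0 ^ 3) + φ (X 1) * φ b1 + φ (X 2) * φ b2 +
      φ (X 3) * φ b3 = -f := by
    have h1 := congrArg φ hg
    rw [AlgEquiv.apply_symm_apply] at h1
    rw [h1]
    simp only [map_add, map_mul]
  have hX0 : Hmg (X 0 ^ 3 : Sr) 3 := (FRM_pow (FRM_X 0) 3).congr (by norm_num [wt])
  let D : KD f :=
    { l := ![φ (X 0 ^ 3), φ (X 1), φ (X 2), φ (X 3)]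
      a := ![φ (C κ * X 0 ^ 3), φ b1, φ b2, φ b3]
      e := ![3, 1, 1, 2]
      hl := by
        intro i
        fin_cases i
        · exact hφh _ _ hX0
        · exact hφh _ _ (FRM_X 1)
        · exact hφh _ _ (FRM_X 2)
        · exact hφh _ _ (FRM_X 3)
      ha := by
        intro i
        fin_cases i
        · exact (hφh _ _ ((FRM_C κ).mul hX0)).congr (by norm_num)
        · exact (hφh _ _ hb1).congr (by norm_num)
        · exact (hφh _ _ hb2).congr (by norm_num)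
        · exact (hφh _ _ hb3).congr (by norm_num)
      sum := by
        rw [Fin.sum_univ_four]
        exact hsum }
  have hD0 : D.l 0 = φ (X 0 ^ 3) := rfl
  have hD1 : D.l 1 = φ (X 1) := rfl
  have hD2 : D.l 2 = φ (X 2) := rfl
  have hD3 : D.l 3 = φ (X 3) := rfl
  refine ⟨D, ?_, rfl, ?_, ?_⟩
  · refine
      { pos := by norm_num
        one := ?_
        nz0 := ?_
        nz3 := ?_
        nz2 := ?_
        nz1 := ?_
        mem := ?_ }
    · intro m hm _
      refine ⟨φ (X 0 ^ m.toNat), hφh _ _ ((FRM_pow (FRM_X 0) m.toNat).congr ?_), ?_⟩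
      · simp [wt, Int.toNat_of_nonneg hm]
      · rw [hev]
        simp
    · have := FRM_NZ φ _ _ s0
      rw [Ideal.map_bot] at this
      exact this
    · have := FRM_NZ φ _ _ s3
      rw [FRM_span] at this
      exact this
    · have := FRM_NZ φ _ _ s2
      rw [Ideal.map_sup, FRM_span, FRM_span] at this
      exact this
    · have := FRM_NZ φ _ _ s1
      rw [Ideal.map_sup, Ideal.map_sup, FRM_span, FRM_span, FRM_span] at this
      exact this
    · intro q m hq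
      have h1 := sm (φ.symm q) m (hψh _ _ hq)
      rw [← FRM_mem φ, Ideal.map_sup, Ideal.map_sup, Ideal.map_sup, FRM_span, FRM_span, FRM_span,
        FRM_span, AlgEquiv.apply_symm_apply, ← hev, AlgEquiv.apply_symm_apply] at h1
      exact h1
  · rw [hD0, hev]
    simp
  · show eval (vp v c) (φ (C κ * X 0 ^ 3)) = -eval (vp v c) f
    rw [hev, hκ, ← hev (φ.symm (-f)), AlgEquiv.apply_symm_apply]
    simp

end Pool.Agent.VDC
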