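import Pool.Agent.VDC.T1

/-!
# VDC: the frame given by the variables
-/

set_option autoImplicit false

open MvPolynomial CategoryTheory

noncomputable section

namespace Pool.Agent.VDC

lemma FRX_wd (a : Fin 4 →₀ ℕ) (h : wd a ≤ 0) : a = 0 := by
  have h1 : (a 0 : ℤ) + a 1 + a 2 + 2 * a 3 ≤ 0 := by
    have h2 : wd a = (a 0 : ℤ) + a 1 + a 2 + 2 * a 3 := by
      simp [wd, Fin.sum_univ_four, wt]
    rw [← h2]; exact h
  ext i
  fin_cases i <;> simp <;> omega

lemma FRX_ex (a : Fin 4 →₀ ℕ) (h : a ≠ 0) : ∃ j, 1 ≤ a j := by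
  by_contra h1
  push Not at h1
  exact h (Finsupp.ext fun j => by simpa using h1 j)

lemma FRX_const (q : Sr) (m : ℤ) (hq : Hmg q m) (hm : m ≤ 0) (p : Fin 4 → ℂ) :
    eval p q = coeff 0 q := by
  classical
  have h1 : q = C (coeff 0 q) := by
    ext a
    rw [coeff_C]
    split_ifs with h
    · rw [← h]
    · by_contra h1
      have h2 := hq a h1
      exact h (FRX_wd a (by omega)).symm
  conv_lhs => rw [h1]
  rw [eval_C]

theorem p_FRX (hNZ : T_MNZ) (hINS : T_MINS) (hMEM : T_MMEM) : T_FRX := by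
  intro f D p
  have h0 : mI {0} (fun _ => 1) = Ideal.span {(X 0 : Sr)} := by
    have := hINS.2 ∅ (fun _ => 1) 0
    rw [hINS.1, bot_sup_eq, pow_one] at this
    exact this
  have h3 : mI {3, 0} (fun _ => 1) = Ideal.span {(X 0 : Sr)} ⊔ Ideal.span {(X 3 : Sr)} := by
    have := hINS.2 {0} (fun _ => 1) 3
    rw [h0, pow_one] at this
    exact this
  have h2 : mI {2, 3, 0} (fun _ => 1) =
      Ideal.span {(X 0 : Sr)} ⊔ Ideal.span {(X 3 : Sr)} ⊔ Ideal.span {(X 2 : Sr)} := by
    have := hINS.2 {3, 0} (fun _ => 1) 2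
    rw [h3, pow_one] at this
    exact this
  have h1 : mI {1, 2, 3, 0} (fun _ => 1) =
      Ideal.span {(X 0 : Sr)} ⊔ Ideal.span {(X 3 : Sr)} ⊔ Ideal.span {(X 2 : Sr)} ⊔
        Ideal.span {(X 1 : Sr)} := by
    have := hINS.2 {2, 3, 0} (fun _ => 1) 1
    rw [h2, pow_one] at this
    exact this
  refine
    { pos := le_refl _
      one := ?_
      nz0 := ?_
      nz3 := ?_
      nz2 := ?_
      nz1 := ?_
      mem := ?_ }
  · intro m hm0 hm1
    have : m = 0 := by omega
    subst this
    exact ⟨1, Hmg.one, map_one _⟩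
  · have := hNZ ∅ (fun _ => 1) 0 (by simp)
    rw [hINS.1, pow_one] at this
    exact this
  · have := hNZ {0} (fun _ => 1) 3 (by decide)
    rw [h0, pow_one] at this
    exact this
  · have := hNZ {3, 0} (fun _ => 1) 2 (by decide)
    rw [h3, pow_one] at this
    exact this
  · have := hNZ {2, 3, 0} (fun _ => 1) 1 (by decide)
    rw [h2, pow_one] at this
    exact this
  · intro q m hq
    have hmem : q ∈ Ideal.span {(X 0 : Sr)} ⊔ Ideal.span {(X 3 : Sr)} ⊔
        Ideal.span {(X 2 : Sr)} ⊔ Ideal.span {(X 1 : Sr)} ↔ coeff 0 q = 0 := by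
      rw [← h1, hMEM]
      constructor
      · intro h
        by_contra h4
        obtain ⟨j, _, hj⟩ := h 0 h4
        simp at hj
      · intro h a ha
        have h5 : a ≠ 0 := by
          rintro rfl
          exact ha h
        obtain ⟨j, hj⟩ := FRX_ex a h5
        exact ⟨j, by fin_cases j <;> decide, hj⟩
    refine hmem.trans ?_
    constructor
    · intro h
      by_cases h4 : 1 ≤ m
      · exact Or.inl h4
      · right
        rw [FRX_const q m hq (by omega) p]
        exact h
    · intro h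
      by_cases h4 : 1 ≤ m
      · by_contra h5
        have h6 := hq 0 h5
        simp [wd] at h6
        omega
      · rcases h with h | h
        · exact absurd h h4
        · rwa [FRX_const q m hq (by omega) p] at h

end Pool.Agent.VDC
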