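import Pool.Agent.VDC.T2

/-!
# VDC: target GMU (helper92)

Linear maps which agree up to scalars at each vector agree up to one scalar.
-/

set_option autoImplicit false

open MvPolynomial CategoryTheory

noncomputable section

namespace Pool.Agent.VDC

theorem p_GMU : T_GMU := by
  intro g g' h
  obtain ⟨μ, hμ⟩ := LinearMap.exists_eq_smul_id_of_forall_notLinearIndependent
    (R := ℂ) (V := Fin 3 → ℂ) (f := g.symm.toLinearMap ∘ₗ g'.toLinearMap) (by
      intro v hv
      apply h v
      have h1 := hv.map' g.toLinearMap (LinearEquiv.ker g)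
      have h2 : (⇑g.toLinearMap ∘ ![v, (g.symm.toLinearMap ∘ₗ g'.toLinearMap) v]) =
          ![g v, g' v] := by
        funext i
        fin_cases i <;> simp
      rwa [h2] at h1)
  have h3 : ∀ v, g' v = μ • g v := by
    intro v
    have h4 := LinearMap.congr_fun hμ v
    have h5 : g.symm (g' v) = μ • v := by simpa using h4
    rw [← map_smul, ← h5, LinearEquiv.apply_symm_apply]
  refine ⟨μ, ?_, h3⟩
  rintro rfl
  have h6 := h3 (Pi.single 0 1)
  rw [zero_smul, LinearEquiv.map_eq_zero_iff] at h6
  have h7 := congrFun h6 0
  simp at h7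

end Pool.Agent.VDC
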