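import Pool.Agent.VDC.T1

/-!
# VDC: target HD (helper75)

`hdim` is the dimension of the `Hom` spaces.
-/

set_option autoImplicit false

open MvPolynomial CategoryTheory

noncomputable section

namespace Pool.Agent.VDC

namespace HD_

/-- maps into a twist are cycles -/
def equ (f : Sr) (X Y : CM f) (m : ℤ) (s : ℤˣ) :
    mor X (tw m s Y) ≃ₗ[ℂ] Zc X.toPO Y.toPO ⊥ s m where
  toFun g := ⟨g.1, toZ g⟩
  map_add' _ _ := rfl
  map_smul' _ _ := rfl
  invFun z := ofZ m s z.1 z.2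
  left_inv _ := Subtype.ext rfl
  right_inv _ := Subtype.ext rfl

theorem IM_bot {ι κ : Type} {g : Matrix ι κ Sr} (h : g ∈ IM ⊥ ι κ) : g = 0 := by
  ext1 i j
  exact (Ideal.mem_bot).1 (h i j)

theorem map_nul (f : Sr) (X Y : CM f) (m : ℤ) (s : ℤˣ) :
    (nul X (tw m s Y)).map (equ f X Y m s : mor X (tw m s Y) →ₗ[ℂ] Zc X.toPO Y.toPO ⊥ s m) =
      (Bc X.toPO Y.toPO ⊥ s m).comap (Zc X.toPO Y.toPO ⊥ s m).subtype := by
  have hs : (s : ℤ) * (s : ℤ) = 1 := by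
    rw [← Units.val_mul, Int.units_mul_self, Units.val_one]
  ext z
  constructor
  · rintro ⟨g, hg, rfl⟩
    obtain ⟨h, h1, h2⟩ := hg
    refine ⟨(toZ g).1, ?_⟩
    refine Submodule.mem_sup_left ⟨(s : ℤ) • h, fun i j => ?_, ?_⟩
    · exact ((h1 i j).zsmul _).congr (by
        show X.deg j - 3 - (Y.deg i - m) = X.deg j + (m - 3) - Y.deg i
        ring)
    · have h3 : g.1 = ((s : ℤ) • Y.Φ) * h + h * X.Φ := h2
      show dd X.toPO Y.toPO (-(s : ℤ)) ((s : ℤ) • h) = g.1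
      rw [dd_apply, h3, Matrix.mul_smul, Matrix.smul_mul, Matrix.smul_mul, smul_smul, neg_mul, hs,
        neg_smul, one_smul, sub_neg_eq_add]
  · rintro ⟨hz1, hz2⟩
    obtain ⟨b, ⟨h, hh, rfl⟩, c, hc, hbc⟩ := Submodule.mem_sup.1 hz2
    refine ⟨ofZ m s z.1 z.2, ⟨(s : ℤ) • h, fun i j => ?_, ?_⟩, Subtype.ext rfl⟩
    · exact ((hh i j).zsmul _).congr (by
        show X.deg j + (m - 3) - Y.deg i = X.deg j - 3 - (Y.deg i - m)
        ring)
    · show z.1 = ((s : ℤ) • Y.Φ) * ((s : ℤ) • h) + ((s : ℤ) • h) * X.Φ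
      rw [IM_bot hc, add_zero] at hbc
      have h4 : dd X.toPO Y.toPO (-(s : ℤ)) h = z.1 := hbc
      rw [← h4, dd_apply, Matrix.mul_smul, Matrix.smul_mul, Matrix.smul_mul, smul_smul, hs,
        one_smul, neg_smul, sub_neg_eq_add]

end HD_

open HD_ in
theorem p_HD : T_HD := by
  intro f X Y m s
  exact (LinearEquiv.finrank_eq (Submodule.Quotient.equiv _ _ (equ f X Y m s)
    (map_nul f X Y m s))).symm

end Pool.Agent.VDC
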