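import Pool.Agent.VDC.T1

/-!
# VDC-HFIN: the spaces of homogeneous matrices are finite dimensional
-/

set_option autoImplicit false

open MvPolynomial CategoryTheory

noncomputable section

namespace Pool.Agent.VDC

namespace HFIN_

lemma wt_pos : ∀ i, 1 ≤ wt i := by decide

lemma le_wd (a : Fin 4 →₀ ℕ) (i : Fin 4) : (a i : ℤ) ≤ wd a := by
  unfold wd
  have h0 : ∀ j, 0 ≤ wt j * (a j : ℤ) := fun j =>
    mul_nonneg (by have := wt_pos j; omega) (Int.natCast_nonneg _)
  calc (a i : ℤ) = 1 * (a i : ℤ) := (one_mul _).symm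
    _ ≤ wt i * (a i : ℤ) := mul_le_mul_of_nonneg_right (wt_pos i) (Int.natCast_nonneg _)
    _ ≤ ∑ j, wt j * (a j : ℤ) :=
      Finset.single_le_sum (f := fun j => wt j * (a j : ℤ)) (fun j _ => h0 j) (Finset.mem_univ i)

/-- the exponents bounded by `N` -/
def box (N : ℕ) : Finset (Fin 4 →₀ ℕ) := Finset.Iic (Finsupp.equivFunOnFinite.symm fun _ => N)

lemma mem_box {N : ℕ} {a : Fin 4 →₀ ℕ} (h : ∀ i, a i ≤ N) : a ∈ box N := by
  unfold box
  rw [Finset.mem_Iic]
  intro i
  exact h i

/-- the coefficients with exponents in the box -/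
def cf (X Y : PO) (ρ : ℤ) (N : ℕ) : HM X Y ρ →ₗ[ℂ] (Y.ι → X.ι → box N → ℂ) where
  toFun g := fun i j a => coeff a.1 (g.1 i j)
  map_add' a b := by
    funext i j c
    simp
  map_smul' r a := by
    funext i j c
    simp

end HFIN_

open HFIN_ in
theorem p_HFIN : T_HFIN := by
  intro X Y ρ
  set N : ℕ := ∑ i, ∑ j, (X.deg j + ρ - Y.deg i).natAbs with hN
  have hNle : ∀ i j, (X.deg j + ρ - Y.deg i).natAbs ≤ N := by
    intro i j
    calc (X.deg j + ρ - Y.deg i).natAbs ≤ ∑ j, (X.deg j + ρ - Y.deg i).natAbs :=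
          Finset.single_le_sum (f := fun j => (X.deg j + ρ - Y.deg i).natAbs)
            (fun _ _ => Nat.zero_le _) (Finset.mem_univ j)
      _ ≤ N := Finset.single_le_sum (f := fun i => ∑ j, (X.deg j + ρ - Y.deg i).natAbs)
            (fun _ _ => Nat.zero_le _) (Finset.mem_univ i)
  apply Module.Finite.of_injective (cf X Y ρ N)
  intro g h hgh
  apply Subtype.ext
  ext i j a
  by_cases ha : a ∈ box N
  · exact congrFun (congrFun (congrFun hgh i) j) ⟨a, ha⟩
  · have key : ∀ u : HM X Y ρ, coeff a (u.1 i j) = 0 := by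
      intro u
      by_contra hne
      have h1 := u.2 i j a hne
      apply ha
      apply mem_box
      intro k
      have h2 := le_wd a k
      have h3 := hNle i j
      omega
    rw [key g, key h]

end Pool.Agent.VDC
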