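import Pool.Agent.VDC.T1

/-!
# VDC: spans of homogeneous polynomials are homogeneous (helper32)
-/

set_option autoImplicit false

open MvPolynomial CategoryTheory

noncomputable section

namespace Pool.Agent.VDC

theorem HSPAN_.cmp_add (m : ℤ) (p q : Sr) : cmp m (p + q) = cmp m p + cmp m q := by
  unfold cmp
  exact map_add _ _ _

theorem HSPAN_.cmp_zero (m : ℤ) : cmp m 0 = 0 := by
  unfold cmp
  exact map_zero _

theorem p_HSPAN (h1 : T_CMP) : T_HSPAN := by
  obtain ⟨-, -, -, hmul⟩ := h1
  refine ⟨fun s hs p hp m => ?_, fun I J hI hJ p hp m => ?_⟩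
  · have key : ∀ q : Sr, ∀ m : ℤ, cmp m (q * p) ∈ Ideal.span s := by
      refine Submodule.span_induction (p := fun x _ => ∀ q : Sr, ∀ m : ℤ,
        cmp m (q * x) ∈ Ideal.span s) ?_ ?_ ?_ ?_ hp
      · intro x hx q m
        obtain ⟨e, he⟩ := hs x hx
        rw [mul_comm q x, hmul x e q m he]
        exact Ideal.mul_mem_right _ _ (Ideal.subset_span hx)
      · intro q m
        rw [mul_zero, HSPAN_.cmp_zero]
        exact Ideal.zero_mem _
      · intro x y _ _ hx hy q m
        rw [mul_add, HSPAN_.cmp_add]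
        exact Ideal.add_mem _ (hx q m) (hy q m)
      · intro a x _ hx q m
        rw [smul_eq_mul, ← mul_assoc]
        exact hx (q * a) m
    have h2 := key 1 m
    rwa [one_mul] at h2
  · obtain ⟨a, ha, b, hb, rfl⟩ := Submodule.mem_sup.1 hp
    rw [HSPAN_.cmp_add]
    exact Ideal.add_mem _ (Ideal.mem_sup_left (hI a ha m)) (Ideal.mem_sup_right (hJ b hb m))

end Pool.Agent.VDC
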