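import Pool.Agent.VDC.T1

/-!
# VDC: idempotents of the objects representing the functionals of level `< 3` (target `T_IDEM`)
-/

set_option autoImplicit false

open MvPolynomial CategoryTheory

noncomputable section

namespace Pool.Agent.VDC

theorem p_IDEM (h1 : T_FRM) (h2 : T_R) (h3 : T_YON) (h4 : T_IDK) (h5 : T_IDI) : T_IDEM := by
  intro f hf E v c r α hv hE
  obtain ⟨D, hFr, he, hl, ha⟩ := h1 f hf v c hv
  have hR := h2 f D (vp v c) 3 (∑ i, D.e i - 12) hFr rfl
  have hY := h3 f E (D.obj (∑ i, D.e i - 12)) (vp v c) 3 r 0 α _ (by norm_num) hE hR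
  rw [h5.1 f E _ hY, h5.2.1]
  exact h4 f D _ _ hFr he hl ha rfl

end Pool.Agent.VDC
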