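import Pool.Agent.VDC.T1

/-!
# VDC, target IDI: idempotents and isomorphisms, twists, equivalences
-/

set_option autoImplicit false

open MvPolynomial CategoryTheory

noncomputable section

namespace Pool.Agent.VDC

namespace IDI_

lemma of_iso {f : Sr} {X Y : CM f} (φ : X ≅ Y) (h : Idem X) : Idem Y := by
  obtain ⟨e, he, h0, h1⟩ := h
  have hback : φ.hom ≫ (φ.inv ≫ e ≫ φ.hom) ≫ φ.inv = e := by simp
  refine ⟨φ.inv ≫ e ≫ φ.hom, ?_, ?_, ?_⟩
  · have h2 : (φ.inv ≫ e ≫ φ.hom) ≫ φ.inv ≫ e ≫ φ.hom = φ.inv ≫ (e ≫ e) ≫ φ.hom := by simp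
    rw [h2, he]
  · intro h2
    apply h0
    rw [← hback, h2]
    simp
  · intro h2
    apply h1
    rw [← hback, h2]
    simp

lemma map_idem {f f' : Sr} (G : CM f ⥤ CM f') [G.Full] [G.Faithful] (X : CM f)
    (hz : G.map (0 : X ⟶ X) = 0) : Idem (G.obj X) ↔ Idem X := by
  constructor
  · rintro ⟨e', he, h0, h1⟩
    obtain ⟨e, rfl⟩ := G.map_surjective e'
    refine ⟨e, G.map_injective ?_, ?_, ?_⟩
    · rw [G.map_comp, he]
    · rintro rfl
      exact h0 hz
    · rintro rfl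
      exact h1 (G.map_id X)
  · rintro ⟨e, he, h0, h1⟩
    refine ⟨G.map e, ?_, ?_, ?_⟩
    · rw [← G.map_comp, he]
    · intro h2
      exact h0 (G.map_injective (h2.trans hz.symm))
    · intro h2
      exact h1 (G.map_injective (h2.trans (G.map_id X).symm))

lemma twF_map {f : Sr} (m : ℤ) (s : ℤˣ) {X Y : CM f} (g : mor X Y) :
    (twF f m s).map (cls g) = cls (twM m s g) := rfl

lemma tw_nul {f : Sr} (m : ℤ) (s : ℤˣ) {X Y : CM f} (g : mor X Y)
    (hg : twM m s g ∈ nul (tw m s X) (tw m s Y)) : g ∈ nul X Y := by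
  obtain ⟨h, h1, h2⟩ := hg
  refine ⟨(s : ℤ) • h, fun i j => (Hmg.zsmul _ (h1 i j)).congr
    (by show (X.deg j - m) - 3 - (Y.deg i - m) = _; ring), ?_⟩
  have h3 : g.1 = ((s : ℤ) • Y.Φ) * h + h * ((s : ℤ) • X.Φ) := h2
  rw [h3, Matrix.smul_mul, Matrix.mul_smul, Matrix.smul_mul, Matrix.mul_smul]

instance twF_faithful (f : Sr) (m : ℤ) (s : ℤˣ) : (twF f m s).Faithful where
  map_injective {X Y} a b hab := by
    obtain ⟨a, rfl⟩ := Submodule.mkQ_surjective _ a
    obtain ⟨b, rfl⟩ := Submodule.mkQ_surjective _ b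
    have h1 : (nul (tw m s X) (tw m s Y)).mkQ (twM m s a) =
        (nul (tw m s X) (tw m s Y)).mkQ (twM m s b) := hab
    have h2 : twM m s a - twM m s b ∈ nul (tw m s X) (tw m s Y) :=
      (Submodule.Quotient.eq _).1 h1
    exact (Submodule.Quotient.eq _).2 (tw_nul m s (a - b) h2)

instance twF_full (f : Sr) (m : ℤ) (s : ℤˣ) : (twF f m s).Full where
  map_surjective {X Y} g := by
    obtain ⟨g, rfl⟩ := Submodule.mkQ_surjective _ g
    obtain ⟨g, h1, h2⟩ := g
    change Matrix Y.ι X.ι Sr at g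
    have h3 : Y.Φ * g = g * X.Φ := by
      have h4 : ((s : ℤ) • Y.Φ) * g = g * ((s : ℤ) • X.Φ) := h2
      rw [Matrix.smul_mul, Matrix.mul_smul] at h4
      have h5 := congrArg (fun A => (s : ℤ) • A) h4
      simp only [smul_smul, ← Units.val_mul, Int.units_mul_self, Units.val_one, one_smul] at h5
      exact h5
    refine ⟨cls ⟨g, fun i j => (h1 i j).congr ?_, h3⟩, rfl⟩
    show (X.deg j - m) - (Y.deg i - m) = _
    ring

end IDI_

open IDI_ in
theorem p_IDI : T_IDI := by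
  refine ⟨?_, ?_, ?_⟩
  · rintro f X Y ⟨φ⟩
    exact ⟨of_iso φ, of_iso φ.symm⟩
  · intro f X m s
    exact map_idem (twF f m s) X (map_zero (Submodule.mapQ (nul X X) (nul (tw m s X) (tw m s X))
      (twL m s X X) (fun g hg => twM_nul m s g hg)))
  · intro f f' F X hF hA
    exact map_idem F X (F.map_zero _ _)

end Pool.Agent.VDC
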