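import Pool.Agent.VDC.T1

/-!
# VDC: idempotents of the Koszul object for `n = 3` (target `T_IDK`)
-/

set_option autoImplicit false

open MvPolynomial CategoryTheory

noncomputable section

namespace Pool.Agent.VDC

namespace IDK_

lemma hmg_neg {q : Sr} {m : ℤ} (h : Hmg q m) (hm : m < 0) : q = 0 := by
  by_contra h0
  obtain ⟨a, ha⟩ := MvPolynomial.ne_zero_iff.1 h0
  have h1 := h a ha
  have h2 : 0 ≤ wd a := by
    unfold wd
    apply Finset.sum_nonneg
    intro i _
    refine mul_nonneg ?_ (Int.natCast_nonneg _)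
    fin_cases i <;> simp [wt]
  omega

/-- the algebra -/
lemma alg {f : Sr} (X : CM f) (j : X ⟶ X) (q : ℂ) (hj : j ≫ j = (-q) • 𝟙 X)
    (hsp : ∀ e : X ⟶ X, ∃ a b : ℂ, e = a • 𝟙 X + b • j)
    (hin : ∀ a b : ℂ, a • 𝟙 X + b • j = 0 → a = 0 ∧ b = 0) : Idem X ↔ q ≠ 0 := by
  have hmul : ∀ a b : ℂ, (a • 𝟙 X + b • j) ≫ (a • 𝟙 X + b • j) =
      (a * a - b * b * q) • 𝟙 X + (2 * a * b) • j := by
    intro a b
    simp only [Preadditive.add_comp, Preadditive.comp_add, Linear.smul_comp, Linear.comp_smul,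
      Category.id_comp, Category.comp_id, hj, smul_smul]
    module
  constructor
  · rintro ⟨e, he, h0, h1⟩ hq
    obtain ⟨a, b, rfl⟩ := hsp e
    rw [hmul] at he
    have h2 : (a * a - b * b * q - a) • 𝟙 X + (2 * a * b - b) • j = 0 := by
      rw [sub_smul, sub_smul (2 * a * b), ← sub_eq_zero.2 he]
      abel
    obtain ⟨h3, h4⟩ := hin _ _ h2
    rw [hq, mul_zero, sub_zero] at h3
    have h5 : a * (a - 1) = 0 := by linear_combination h3
    rcases mul_eq_zero.1 h5 with h6 | h6
    · rw [h6] at h4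
      have h7 : b = 0 := by linear_combination -h4
      apply h0
      rw [h6, h7, zero_smul, zero_smul, add_zero]
    · have h6' : a = 1 := by linear_combination h6
      rw [h6'] at h4
      have h7 : b = 0 := by linear_combination h4
      apply h1
      rw [h6', h7, zero_smul, one_smul, add_zero]
  · intro hq
    obtain ⟨k, hk⟩ := IsAlgClosed.exists_pow_nat_eq (-q) (n := 2) (by norm_num)
    have hk0 : k ≠ 0 := by
      intro h
      apply hq
      rw [h] at hk
      linear_combination hk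
    refine ⟨(1 / 2 : ℂ) • 𝟙 X + (1 / (2 * k)) • j, ?_, ?_, ?_⟩
    · rw [hmul]
      have e1 : (1 / 2 : ℂ) * (1 / 2) - 1 / (2 * k) * (1 / (2 * k)) * q = 1 / 2 := by
        have hq' : q = -k ^ 2 := by linear_combination hk
        rw [hq']
        field_simp
        ring
      have e2 : 2 * (1 / 2 : ℂ) * (1 / (2 * k)) = 1 / (2 * k) := by ring
      rw [e1, e2]
    · intro h
      have := (hin _ _ h).1
      norm_num at this
    · intro h
      have h2 : (-1 / 2 : ℂ) • 𝟙 X + (1 / (2 * k)) • j = 0 := by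
        have h3 : (1 / 2 : ℂ) • 𝟙 X + (1 / (2 * k)) • j - 𝟙 X = 0 := sub_eq_zero.2 h
        rw [← h3]
        module
      have := (hin _ _ h2).1
      norm_num at this

lemma cls_zero {f : Sr} {X Y : CM f} (g : mor X Y) : cls g = 0 ↔ g ∈ nul X Y :=
  Submodule.Quotient.mk_eq_zero _

lemma mor_Zc {f : Sr} {X : CM f} (g : mor X X) : g.1 ∈ Zc X.toPO X.toPO ⊥ 1 (0 - 0) := by
  obtain ⟨g, h1, h2⟩ := g
  refine ⟨fun i j => (h1 i j).congr (by ring), fun i j => ?_⟩
  have h3 : dd X.toPO X.toPO 1 g = 0 := by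
    rw [dd_apply, h2, one_smul, sub_self]
  show dd X.toPO X.toPO 1 g i j ∈ _
  rw [h3]
  exact Ideal.zero_mem _

lemma Zc_mor {f : Sr} {X : CM f} {g : Matrix X.ι X.ι Sr}
    (hg : g ∈ Zc X.toPO X.toPO ⊥ 1 (0 - 0)) : g ∈ mor X X := by
  obtain ⟨h1, h2⟩ := hg
  refine ⟨fun i j => (h1 i j).congr (by ring), ?_⟩
  ext1 i j
  have h4 := h2 i j
  rw [dd_apply, Ideal.mem_bot, Matrix.sub_apply, sub_eq_zero, one_smul] at h4
  exact h4

lemma Bc_nul {f : Sr} {X : CM f} {g : mor X X}
    (hg : g.1 ∈ Bc X.toPO X.toPO ⊥ 1 (0 - 0)) : g ∈ nul X X := by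
  obtain ⟨-, h2⟩ := hg
  obtain ⟨y, ⟨h, hh, rfl⟩, z, hz, hyz⟩ := Submodule.mem_sup.1 h2
  refine ⟨h, fun i j => (hh i j).congr (by ring), ?_⟩
  have hz0 : z = 0 := by
    ext1 i j
    exact Ideal.mem_bot.1 (hz i j)
  rw [← hyz, hz0, add_zero, dd_apply, neg_smul, one_smul, sub_neg_eq_add]

lemma core {f : Sr} (X : CM f) (p : Fin 4 → ℂ) (q : ℂ) (T T0 : X.ι) (hne : T ≠ T0)
    (hdeg : ∀ i, X.deg i ≤ 0) (hdT : X.deg T = 0) (hdT0 : X.deg T0 = 0)
    (hz : ∀ i, 0 ≤ X.deg i → i = T ∨ i = T0)
    (rT : ∀ i, eval p (X.Φ T i) = if i = T0 then 1 else 0)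
    (rT0 : ∀ i, eval p (X.Φ T0 i) = if i = T then -q else 0)
    (hR : Rp X p 3 0 (Pi.single T 1)) : Idem X ↔ q ≠ 0 := by
  have hpull : ∀ g : Matrix X.ι X.ι Sr,
      pull X.toPO X.toPO p 3 0 (Pi.single T 1) g = fun j => eval p (g T j) := by
    intro g
    funext j
    unfold pull
    rw [if_pos (by have := hdeg j; omega), Finset.sum_eq_single T]
    · rw [Pi.single_eq_same, one_mul]
    · intro i _ hi
      rw [Pi.single_eq_of_ne hi, zero_mul]
    · intro h
      exact absurd (Finset.mem_univ _) h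
  have hBF : ∀ γ ∈ BF X.toPO p 3 0, γ = 0 := by
    rintro γ ⟨-, μ, hμ, h⟩
    funext j
    rw [h j (by have := hdeg j; omega)]
    apply Finset.sum_eq_zero
    intro i _
    by_cases h1 : μ i = 0
    · rw [h1, zero_mul]
    · have h2 := (hμ i h1).1
      have := hdeg i
      omega
  have hT0 : (Pi.single T0 1 : X.ι → ℂ) ∈ ZF X.toPO p 3 0 := by
    constructor
    · intro i hi
      have h1 : i = T0 := by
        by_contra h2
        exact hi (Pi.single_eq_of_ne h2 _)
      rw [h1, hdT0]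
      norm_num
    · intro j hj
      have h1 : j ≠ T := by
        rintro rfl
        omega
      rw [Finset.sum_eq_single T0]
      · rw [Pi.single_eq_same, one_mul, rT0, if_neg h1]
      · intro i _ hi
        rw [Pi.single_eq_of_ne hi, zero_mul]
      · intro h
        exact absurd (Finset.mem_univ _) h
  obtain ⟨J₀, hJ, hJ2⟩ := hR.surj X 1 0 (by norm_num) _ hT0
  obtain ⟨J, hJJ⟩ : ∃ J : mor X X, J.1 = J₀ := ⟨⟨J₀, Zc_mor hJ⟩, rfl⟩
  have rJT : ∀ j, eval p (J.1 T j) = if j = T0 then 1 else 0 := by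
    intro j
    have h0 := sub_eq_zero.1 (hBF _ hJ2)
    rw [hpull, ← hJJ] at h0
    have h1 : (Pi.single T0 1 : X.ι → ℂ) j = eval p (J.1 T j) := congrFun h0 j
    rw [← h1]
    by_cases h : j = T0
    · rw [if_pos h, h, Pi.single_eq_same]
    · rw [if_neg h, Pi.single_eq_of_ne h]
  have rJT0 : ∀ j, eval p (J.1 T0 j) = if j = T then -q else 0 := by
    intro j
    have h1 : (X.Φ * J.1) T j = (J.1 * X.Φ) T j := by rw [J.2.2]
    rw [Matrix.mul_apply, Matrix.mul_apply] at h1
    have h2 := congrArg (eval p) h1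
    rw [map_sum, map_sum] at h2
    have h3 : ∑ i, eval p (X.Φ T i * J.1 i j) = eval p (J.1 T0 j) := by
      rw [Finset.sum_eq_single T0]
      · rw [map_mul, rT, if_pos rfl, one_mul]
      · intro i _ hi
        rw [map_mul, rT, if_neg hi, zero_mul]
      · intro h
        exact absurd (Finset.mem_univ _) h
    have h4 : ∑ i, eval p (J.1 T i * X.Φ i j) = eval p (X.Φ T0 j) := by
      rw [Finset.sum_eq_single T0]
      · rw [map_mul, rJT, if_pos rfl, one_mul]
      · intro i _ hi
        rw [map_mul, rJT, if_neg hi, zero_mul]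
      · intro h
        exact absurd (Finset.mem_univ _) h
    rw [h3, h4, rT0] at h2
    exact h2
  have hnul : ∀ g : mor X X, eval p (g.1 T T) = 0 → eval p (g.1 T T0) = 0 → g ∈ nul X X := by
    intro g h1 h2
    apply Bc_nul
    apply hR.inj X 1 0 (by norm_num) g.1 (mor_Zc g)
    rw [hpull]
    have h3 : (fun j => eval p (g.1 T j)) = 0 := by
      funext j
      by_cases hj : 0 ≤ X.deg j
      · rcases hz j hj with rfl | rfl
        · exact h1
        · exact h2
      · have h4 := hmg_neg (g.2.1 T j) (by omega)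
        show eval p (g.1 T j) = 0
        rw [h4, map_zero]
    rw [h3]
    exact Submodule.zero_mem _
  have hnul' : ∀ g ∈ nul X X, ∀ j, eval p (g.1 T j) = 0 := by
    rintro g ⟨h, hh, hg⟩ j
    rw [hg, Matrix.add_apply, Matrix.mul_apply, Matrix.mul_apply, map_add, map_sum, map_sum]
    have h1 : ∑ i, eval p (X.Φ T i * h i j) = 0 := by
      apply Finset.sum_eq_zero
      intro i _
      rw [map_mul, rT]
      by_cases hi : i = T0
      · have h4 := hmg_neg (hh i j) (by rw [hi, hdT0]; have := hdeg j; omega)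
        rw [h4, map_zero, mul_zero]
      · rw [if_neg hi, zero_mul]
    have h2 : ∑ i, eval p (h T i * X.Φ i j) = 0 := by
      apply Finset.sum_eq_zero
      intro i _
      have h4 := hmg_neg (hh T i) (by rw [hdT]; have := hdeg i; omega)
      rw [h4, zero_mul, map_zero]
    rw [h1, h2, add_zero]
  have hid : ∀ j, eval p ((idM X).1 T j) = if j = T then 1 else 0 := by
    intro j
    show eval p ((1 : Matrix X.ι X.ι Sr) T j) = _
    by_cases h : j = T
    · rw [if_pos h, h, Matrix.one_apply_eq, map_one]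
    · rw [if_neg h, Matrix.one_apply_ne (fun h' => h h'.symm), map_zero]
  have hev : ∀ (a b : ℂ) (g g' : mor X X) (j : X.ι),
      eval p ((a • g + b • g').1 T j) = a * eval p (g.1 T j) + b * eval p (g'.1 T j) := by
    intro a b g g' j
    show eval p (a • g.1 T j + b • g'.1 T j) = _
    rw [map_add, smul_eval, smul_eval]
  have hcl : ∀ (a b : ℂ) (g g' : mor X X), cls (a • g + b • g') = a • cls g + b • cls g' := by
    intro a b g g'
    show (nul X X).mkQ (a • g + b • g') = a • (nul X X).mkQ g + b • (nul X X).mkQ g'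
    rw [map_add, map_smul, map_smul]
  have hidc : cls (idM X) = 𝟙 X := rfl
  apply alg X (cls J) q
  · have h1 : cls J ≫ cls J = cls (compM J J) := rfl
    rw [h1, ← sub_eq_zero]
    have h2 : cls ((1 : ℂ) • compM J J + q • idM X) = cls (compM J J) - (-q) • 𝟙 X := by
      rw [hcl, hidc]
      module
    rw [← h2, cls_zero]
    have h3 : ∀ j, eval p ((compM J J).1 T j) = eval p (J.1 T0 j) := by
      intro j
      show eval p ((J.1 * J.1) T j) = _
      rw [Matrix.mul_apply, map_sum, Finset.sum_eq_single T0]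
      · rw [map_mul, rJT, if_pos rfl, one_mul]
      · intro i _ hi
        rw [map_mul, rJT, if_neg hi, zero_mul]
      · intro h
        exact absurd (Finset.mem_univ _) h
    apply hnul
    · rw [hev, h3, rJT0, hid, if_pos rfl, if_pos rfl]
      ring
    · rw [hev, h3, rJT0, hid, if_neg hne.symm, if_neg hne.symm]
      ring
  · intro e
    obtain ⟨g, hg⟩ := Submodule.mkQ_surjective (nul X X) e
    refine ⟨eval p (g.1 T T), eval p (g.1 T T0), ?_⟩
    have h1 : cls g = e := hg
    rw [← h1, ← sub_eq_zero, ← hidc, ← hcl]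
    set a := eval p (g.1 T T)
    set b := eval p (g.1 T T0)
    have h2 : cls ((1 : ℂ) • g + (-1 : ℂ) • (a • idM X + b • J)) =
        cls g - cls (a • idM X + b • J) := by
      rw [hcl]
      module
    rw [← h2, cls_zero]
    apply hnul
    · rw [hev, hev, hid, rJT, if_pos rfl, if_neg hne]
      show 1 * a + -1 * (a * 1 + b * 0) = 0
      ring
    · rw [hev, hev, hid, rJT, if_pos rfl, if_neg hne.symm]
      show 1 * b + -1 * (a * 0 + b * 1) = 0
      ring
  · intro a b h
    rw [← hidc, ← hcl, cls_zero] at h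
    have h1 := hnul' _ h T
    have h2 := hnul' _ h T0
    rw [hev, hid, rJT, if_pos rfl, if_neg hne] at h1
    rw [hev, hid, rJT, if_pos rfl, if_neg hne.symm] at h2
    constructor
    · linear_combination h1
    · linear_combination h2

end IDK_

theorem p_IDK (h1 : T_R) : T_IDK := by
  intro f D p m hFr he hl0 ha0 hm
  have e0 : D.e 0 = 3 := by rw [he]; rfl
  have e1 : D.e 1 = 1 := by rw [he]; rfl
  have e2 : D.e 2 = 1 := by rw [he]; rfl
  have e3 : D.e 3 = 2 := by rw [he]; rfl
  have hm5 : m = -5 := by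
    rw [hm, Fin.sum_univ_four, e0, e1, e2, e3]; norm_num
  have l3 : eval p (D.l 3) = 0 := by
    have h := (hFr.mem (D.l 3) (D.e 3) (D.hl 3)).1 (Ideal.mem_sup_left (Ideal.mem_sup_left
      (Ideal.mem_sup_right (Ideal.mem_span_singleton_self _))))
    rcases h with h | h
    · rw [e3] at h; omega
    · exact h
  have l2 : eval p (D.l 2) = 0 := by
    have h := (hFr.mem (D.l 2) (D.e 2) (D.hl 2)).1 (Ideal.mem_sup_left
      (Ideal.mem_sup_right (Ideal.mem_span_singleton_self _)))
    rcases h with h | h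
    · rw [e2] at h; omega
    · exact h
  have l1 : eval p (D.l 1) = 0 := by
    have h := (hFr.mem (D.l 1) (D.e 1) (D.hl 1)).1
      (Ideal.mem_sup_right (Ideal.mem_span_singleton_self _))
    rcases h with h | h
    · rw [e1] at h; omega
    · exact h
  have hR := h1 f D p 3 m hFr hm
  refine IDK_.core (D.obj m) p (eval p f) (Sum.inr (Sum.inr (Sum.inr (Sum.inr ()))))
    (Sum.inl (Sum.inr (Sum.inr (Sum.inr ())))) (by simp) ?_ ?_ ?_ ?_ ?_ ?_ hR
  · rintro ((((i | i) | (i | i)) | ((i | i) | (i | i))) |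
      (((i | i) | (i | i)) | ((i | i) | (i | i)))) <;>
      simp [e0, e1, e2, e3, hm5]
  · simp [e0, e1, e2, e3, hm5]
  · simp [e0, e1, e2, e3, hm5]
  · rintro ((((i | i) | (i | i)) | ((i | i) | (i | i))) |
      (((i | i) | (i | i)) | ((i | i) | (i | i)))) <;>
      simp [e0, e1, e2, e3, hm5]
  · rintro ((((i | i) | (i | i)) | ((i | i) | (i | i))) |
      (((i | i) | (i | i)) | ((i | i) | (i | i)))) <;>
      simp [l1, l2, l3, hl0]
  · rintro ((((i | i) | (i | i)) | ((i | i) | (i | i))) |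
      (((i | i) | (i | i)) | ((i | i) | (i | i)))) <;>
      simp [l1, l2, l3, ha0]

end Pool.Agent.VDC
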