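import Pool.Agent.VDC.T1

/-! INJ: nothing dies modulo `l` if `l` acts by zero up to homotopy. -/

set_option autoImplicit false

open MvPolynomial CategoryTheory

noncomputable section

namespace Pool.Agent.VDC

namespace INJ_

/-- products of homogeneous matrices -/
lemma hm_mul {X Y Z : PO} {a b c : ℤ} {g : Matrix Z.ι Y.ι Sr} {h : Matrix Y.ι X.ι Sr}
    (hg : g ∈ HM Y Z a) (hh : h ∈ HM X Y b) (hc : a + b = c) : g * h ∈ HM X Z c := by
  intro i j
  rw [Matrix.mul_apply]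
  exact Hmg.sum fun k _ => ((hg i k).mul (hh k j)).congr (by rw [← hc]; ring)

lemma phi_mem (X : PO) : X.Φ ∈ HM X X 3 := X.hom

/-- the differential raises degrees by `3` -/
lemma hm_dd {X Y : PO} {s a b : ℤ} {g : Matrix Y.ι X.ι Sr} (hg : g ∈ HM X Y a)
    (hb : a + 3 = b) : dd X Y s g ∈ HM X Y b := by
  rw [dd_apply]
  refine Submodule.sub_mem _ (hm_mul (phi_mem Y) hg (by rw [← hb]; ring)) ?_
  intro i j
  exact (hm_mul hg (phi_mem X) hb i j).zsmul s

lemma im_mul_left {I : Ideal Sr} {ι κ lam : Type} [Fintype κ] (g : Matrix ι κ Sr)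
    {h : Matrix κ lam Sr} (hh : h ∈ IM I κ lam) : g * h ∈ IM I ι lam := by
  intro i j
  rw [Matrix.mul_apply]
  exact Ideal.sum_mem _ fun k _ => I.mul_mem_left _ (hh k j)

lemma im_mul_right {I : Ideal Sr} {ι κ lam : Type} [Fintype κ] {g : Matrix ι κ Sr}
    (h : Matrix κ lam Sr) (hg : g ∈ IM I ι κ) : g * h ∈ IM I ι lam := by
  intro i j
  rw [Matrix.mul_apply]
  exact Ideal.sum_mem _ fun k _ => I.mul_mem_right _ (hg i k)

lemma im_zsmul {I : Ideal Sr} {ι κ : Type} {g : Matrix ι κ Sr} (s : ℤ)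
    (hg : g ∈ IM I ι κ) : s • g ∈ IM I ι κ := by
  intro i j
  exact I.toAddSubgroup.zsmul_mem (hg i j) s

lemma im_dd {I : Ideal Sr} {X Y : PO} {s : ℤ} {g : Matrix Y.ι X.ι Sr}
    (hg : g ∈ IM I Y.ι X.ι) : dd X Y s g ∈ IM I Y.ι X.ι := by
  rw [dd_apply]
  exact Submodule.sub_mem _ (im_mul_left _ hg) (im_zsmul s (im_mul_right _ hg))

/-- the composition of the two differentials is zero -/
lemma dd_dd {f : Sr} (X Y : CM f) {s : ℤ} (hs : s * s = 1) (h : Matrix Y.ι X.ι Sr) :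
    dd X.toPO Y.toPO s (dd X.toPO Y.toPO (-s) h) = 0 := by
  have h1 : Y.Φ * (Y.Φ * h) = -(f • h) := by
    rw [← Matrix.mul_assoc, Y.sq, Matrix.neg_mul, Matrix.smul_mul, Matrix.one_mul]
  have h2 : h * X.Φ * X.Φ = -(f • h) := by
    rw [Matrix.mul_assoc, X.sq, Matrix.mul_neg, Matrix.mul_smul, Matrix.mul_one]
  rw [dd_apply, dd_apply, neg_smul, sub_neg_eq_add, Matrix.mul_add, Matrix.add_mul, h1,
    Matrix.mul_smul, Matrix.smul_mul, h2, smul_add, smul_smul, hs, one_smul,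
    Matrix.mul_assoc]
  abel

lemma dd_smul {X Y : PO} {s : ℤ} (l : Sr) (k : Matrix Y.ι X.ι Sr) :
    dd X Y s (l • k) = l • dd X Y s k := by
  rw [dd_apply, dd_apply, Matrix.mul_smul, Matrix.smul_mul, smul_sub, smul_comm s l]

/-- multiples of cycles by `l` are boundaries -/
lemma key {f : Sr} (X Y : CM f) (I : Ideal Sr) (l : Sr) (e s ρ : ℤ) (hs : s * s = 1)
    (hn : NH X.toPO l e ∨ NH Y.toPO l e) (k : Matrix Y.ι X.ι Sr)
    (hk : k ∈ HM X.toPO Y.toPO (ρ - e)) (hd : dd X.toPO Y.toPO s k ∈ IM I Y.ι X.ι) :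
    ∃ m ∈ HM X.toPO Y.toPO (ρ - 3), l • k - dd X.toPO Y.toPO (-s) m ∈ IM I Y.ι X.ι := by
  rcases hn with ⟨t, ht, htl⟩ | ⟨t, ht, htl⟩
  · refine ⟨s • (k * t), ?_, ?_⟩
    · intro i j
      exact (hm_mul hk ht (by ring) i j).zsmul s
    · have h1 : l • k = k * (X.Φ * t + t * X.Φ) := by
        rw [htl, Matrix.mul_smul, Matrix.mul_one]
      have h2 : l • k - dd X.toPO Y.toPO (-s) (s • (k * t)) =
          -(s • (dd X.toPO Y.toPO s k * t)) := by
        rw [h1, dd_apply, dd_apply, neg_smul, sub_neg_eq_add, Matrix.mul_add,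
          Matrix.mul_smul, Matrix.smul_mul, smul_smul, hs, one_smul, Matrix.sub_mul,
          Matrix.smul_mul, smul_sub, smul_smul, hs, one_smul, Matrix.mul_assoc,
          Matrix.mul_assoc, Matrix.mul_assoc]
        abel
      rw [h2]
      exact Submodule.neg_mem _ (im_zsmul s (im_mul_right _ hd))
  · refine ⟨t * k, hm_mul ht hk (by ring), ?_⟩
    have h1 : l • k = (Y.Φ * t + t * Y.Φ) * k := by
      rw [htl, Matrix.smul_mul, Matrix.one_mul]
    have h2 : l • k - dd X.toPO Y.toPO (-s) (t * k) = t * dd X.toPO Y.toPO s k := by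
      rw [h1, dd_apply, dd_apply, neg_smul, sub_neg_eq_add, Matrix.add_mul, Matrix.mul_sub,
        Matrix.mul_smul, Matrix.mul_assoc, Matrix.mul_assoc, Matrix.mul_assoc]
      abel
    rw [h2]
    exact im_mul_left _ hd

end INJ_

theorem p_INJ (h1 : T_DIV) : T_INJ := by
  intro f X Y I l e s ρ hs hI hl hnz hn a ha hb
  obtain ⟨haH, haI⟩ := ha
  have haI' : dd X.toPO Y.toPO s a ∈ IM I Y.ι X.ι := haI
  obtain ⟨-, hb2⟩ := hb
  obtain ⟨b, hbm, c, hc, hbc⟩ := Submodule.mem_sup.1 hb2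
  obtain ⟨h, hh, rfl⟩ := Submodule.mem_map.1 hbm
  have hcH : c ∈ HM X.toPO Y.toPO ρ := by
    have h2 : c = a - dd X.toPO Y.toPO (-s) h := by rw [← hbc]; abel
    rw [h2]
    exact Submodule.sub_mem _ haH (INJ_.hm_dd hh (by ring))
  obtain ⟨k, hk, hck⟩ := h1 X.toPO Y.toPO I l e ρ hI hl c hcH hc
  have hdk : dd X.toPO Y.toPO s k ∈ IM I Y.ι X.ι := by
    have h3 : l • dd X.toPO Y.toPO s k ∈ IM I Y.ι X.ι := by
      have h4 : l • dd X.toPO Y.toPO s k =
          dd X.toPO Y.toPO s a - dd X.toPO Y.toPO s (c - l • k) := by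
        rw [← INJ_.dd_smul, ← hbc, map_add, INJ_.dd_dd X Y hs, map_sub]
        abel
      rw [h4]
      exact Submodule.sub_mem _ haI' (INJ_.im_dd hck)
    intro i j
    exact hnz _ (h3 i j)
  obtain ⟨m, hm, hkm⟩ := INJ_.key X Y I l e s ρ hs hn k hk hdk
  refine ⟨haH, Submodule.mem_sup.2 ⟨dd X.toPO Y.toPO (-s) (h + m),
    Submodule.mem_map_of_mem (Submodule.add_mem _ hh hm),
    (l • k - dd X.toPO Y.toPO (-s) m) + (c - l • k), Submodule.add_mem _ hkm hck, ?_⟩⟩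
  rw [← hbc, map_add]
  abel

end Pool.Agent.VDC
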