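import Pool.Agent.VDC.T1

/-!
# VDC: a power of each variable acts by zero (helper56)
-/

set_option autoImplicit false

open MvPolynomial CategoryTheory

noncomputable section

namespace Pool.Agent.VDC

/-- a power of each variable acts by zero -/
theorem p_JN (hNUL : T_NUL) (hNHD : T_NHD) (hNHA : T_NHA) (hKA : T_KA) : T_JN := by
  intro f hf
  obtain ⟨hadd, hmul, hzero⟩ := hNHA
  obtain ⟨N, hN, h⟩ := hNUL f (hKA f hf).1 hf.2
  refine ⟨N, hN, fun Y i => ?_⟩
  obtain ⟨q, hq, hs⟩ := h i
  rw [hs]
  have key : ∀ s : Finset (Fin 4), NH Y.toPO (∑ j ∈ s, q j * pderiv j f) (N * wt i) := by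
    intro s
    induction s using Finset.induction_on with
    | empty => exact hzero Y.toPO _
    | @insert j s hj ih =>
      rw [Finset.sum_insert hj]
      refine hadd Y.toPO _ _ _ ?_ ih
      have h1 := hmul Y.toPO (pderiv j f) (q j) (6 - wt j) (N * wt i - (6 - wt j))
        (hNHD f Y j) (hq j)
      rw [sub_add_cancel] at h1
      exact h1
  exact key Finset.univ

end Pool.Agent.VDC
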