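import Pool.Agent.VDC.T1

/-!
# VDC: proof of KA
-/

set_option autoImplicit false

open MvPolynomial CategoryTheory

noncomputable section

namespace Pool.Agent.VDC.KA_

open Pool.Agent.VDC

/-- decomposition along the variables -/
def Dec (m : ℤ) (q : Sr) : Prop :=
  ∃ b : Fin 4 → Sr, (∀ i, Hmg (b i) (m - wt i)) ∧ ∑ i, (X i : Sr) * b i = q

theorem dec_add {m : ℤ} {p q : Sr} (hp : Dec m p) (hq : Dec m q) : Dec m (p + q) := by
  obtain ⟨b, hb, h1⟩ := hp
  obtain ⟨c, hc, h2⟩ := hq
  refine ⟨fun i => b i + c i, fun i => (hb i).add (hc i), ?_⟩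
  simp only [mul_add, Finset.sum_add_distrib, h1, h2]

theorem dec_zero {m : ℤ} : Dec m 0 :=
  ⟨fun _ => 0, fun _ => Hmg.zero _, by simp⟩

theorem hmg_monomial (a : Fin 4 →₀ ℕ) (c : ℂ) : Hmg (monomial a c) (wd a) := by
  classical
  intro b hb
  rw [coeff_monomial] at hb
  by_cases h : a = b
  · rw [h]
  · exact absurd (if_neg h) hb

theorem wd_single (i : Fin 4) : wd (Finsupp.single i 1) = wt i := by
  rw [wd, Finset.sum_eq_single i]
  · simp
  · intro b _ hb
    simp [hb.symm]
  · simp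

theorem dec_monomial {m : ℤ} {a : Fin 4 →₀ ℕ} (ha : wd a = m) (hm : m ≠ 0) (c : ℂ) :
    Dec m (monomial a c) := by
  classical
  have h0 : ∃ i, a i ≠ 0 := by
    by_contra h
    push Not at h
    apply hm
    rw [← ha, wd]
    exact Finset.sum_eq_zero fun i _ => by simp [h i]
  obtain ⟨i, hi⟩ := h0
  have h1 : Finsupp.single i 1 + (a - Finsupp.single i 1) = a := by
    apply add_tsub_cancel_of_le
    rw [Finsupp.single_le_iff]
    exact Nat.one_le_iff_ne_zero.2 hi
  refine ⟨fun j => if j = i then monomial (a - Finsupp.single i 1) c else 0, fun j => ?_, ?_⟩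
  · show Hmg (if j = i then monomial (a - Finsupp.single i 1) c else 0) (m - wt j)
    by_cases hj : j = i
    · rw [if_pos hj, hj]
      refine (hmg_monomial _ c).congr ?_
      have h2 := wd_add (Finsupp.single i 1) (a - Finsupp.single i 1)
      rw [h1, ha, wd_single] at h2
      linarith
    · rw [if_neg hj]
      exact Hmg.zero _
  · simp only [mul_ite, mul_zero, Finset.sum_ite_eq', Finset.mem_univ, if_true]
    rw [X, monomial_mul, h1, one_mul]

theorem dec_hmg {m : ℤ} (hm : m ≠ 0) {p : Sr} (hp : Hmg p m) : Dec m p := by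
  classical
  rw [← support_sum_monomial_coeff p]
  refine Finset.sum_induction _ (Dec m) (fun _ _ => dec_add) dec_zero fun a ha => ?_
  exact dec_monomial (hp a (mem_support_iff.1 ha)) hm _

end Pool.Agent.VDC.KA_

namespace Pool.Agent.VDC

open KA_

theorem p_KA : T_KA := by
  rintro f ⟨⟨f₄, f₆, h4, h6, -, -, rfl⟩, -⟩
  have hf : Hmg (X 3 ^ 3 + f₄ * X 3 + f₆ : Sr) 6 := by
    have hX : Hmg (X 3 : Sr) 2 := Hmg.X 3
    refine Hmg.add (Hmg.add ?_ ?_) h6
    · rw [pow_succ, pow_two]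
      exact ((hX.mul hX).mul hX).congr (by norm_num)
    · exact (h4.mul hX).congr (by norm_num)
  refine ⟨hf, ?_⟩
  obtain ⟨b, hb, h1⟩ := dec_hmg (by norm_num) hf.neg
  exact ⟨⟨b, hb, h1⟩⟩

end Pool.Agent.VDC
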