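import Pool.Agent.VDC.T1

/-!
# VDC: lifting boundaries of Koszul objects (T_KI) (helper99)
-/

set_option autoImplicit false

open MvPolynomial CategoryTheory

noncomputable section

namespace Pool.Agent.VDC

lemma KI_mul_left {ι κ μ : Type} [Fintype κ] {I : Ideal Sr} (A : Matrix ι κ Sr)
    {E : Matrix κ μ Sr} (hE : E ∈ IM I κ μ) : A * E ∈ IM I ι μ := by
  intro i j
  rw [Matrix.mul_apply]
  exact I.sum_mem fun k _ => I.mul_mem_left _ (hE k j)

lemma KI_mul_right {ι κ μ : Type} [Fintype κ] {I : Ideal Sr} {E : Matrix ι κ Sr}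
    (hE : E ∈ IM I ι κ) (A : Matrix κ μ Sr) : E * A ∈ IM I ι μ := by
  intro i j
  rw [Matrix.mul_apply]
  exact I.sum_mem fun k _ => I.mul_mem_right _ (hE i k)

lemma KI_zsmul {ι κ : Type} {I : Ideal Sr} (s : ℤ) {E : Matrix ι κ Sr}
    (hE : E ∈ IM I ι κ) : s • E ∈ IM I ι κ := by
  intro i j
  rw [Matrix.smul_apply]
  exact zsmul_mem (hE i j) s

/-- the degree of the differential -/
lemma KI_dd_mem (X Y : PO) (s ρ : ℤ) {g : Matrix Y.ι X.ι Sr} (hg : g ∈ HM X Y ρ) :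
    dd X Y s g ∈ HM X Y (ρ + 3) := by
  intro i j
  rw [dd_apply, Matrix.sub_apply, Matrix.smul_apply, Matrix.mul_apply, Matrix.mul_apply]
  refine Hmg.sub (Hmg.sum fun k _ => ?_) (Hmg.zsmul _ (Hmg.sum fun k _ => ?_))
  · exact ((Y.hom i k).mul (hg k j)).congr (by ring)
  · exact ((hg i k).mul (X.hom k j)).congr (by ring)

theorem p_KI (h1 : T_DIV) : T_KI := by
  intro f X Y I l a e hl ha s ρ hs hI hnz hsq g hg hb
  obtain ⟨hg1, hg2⟩ := hg
  obtain ⟨hb1, hb2⟩ := hb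
  obtain ⟨w, ⟨h₂, hh₂, rfl⟩, c, hc, hwc⟩ := Submodule.mem_sup.1 hb2
  rw [neg_neg] at hwc
  set g₂ : Matrix Y.ι X.ι Sr := Matrix.toRows₂ g with hg₂
  set g₁ : Matrix Y.ι X.ι Sr := Matrix.toRows₁ g with hg₁
  have hgr : g = Matrix.fromRows g₁ g₂ := (Matrix.fromRows_toRows g).symm
  have hcH : c ∈ HM X.toPO Y (ρ - 3 + e) := by
    have e1 : c = g₂ - dd X.toPO Y s h₂ := by rw [← hwc]; abel
    rw [e1]
    refine Submodule.sub_mem _ hb1 ?_
    have h2 := KI_dd_mem X.toPO Y s _ hh₂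
    intro i j
    exact (h2 i j).congr (by ring)
  obtain ⟨k, hk, hE⟩ := h1 X.toPO Y I l e (ρ - 3 + e) hI hl _ hcH hc
  have hk' : k ∈ HM X.toPO Y (ρ - 3) := fun i j => (hk i j).congr (by ring)
  set E : Matrix Y.ι X.ι Sr := c - l • k with hEdef
  have hlk : l • k = g₂ - dd X.toPO Y s h₂ - E := by
    rw [hEdef, ← hwc]; abel
  have hmul : ∀ u v : Matrix Y.ι X.ι Sr, (TT Y l a e hl ha).Φ * (Matrix.fromRows u v :
        Matrix (TT Y l a e hl ha).ι X.ι Sr) =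
        Matrix.fromRows (Y.Φ * u + a • v) (l • u - Y.Φ * v) := by
    intro u v
    show Matrix.fromBlocks Y.Φ (a • 1) (l • 1) (-Y.Φ) * Matrix.fromRows u v = _
    rw [Matrix.fromBlocks_mul_fromRows, Matrix.smul_mul, Matrix.smul_mul, Matrix.one_mul,
      Matrix.one_mul, Matrix.neg_mul, sub_eq_add_neg]
  have hmulr : ∀ (u v : Matrix Y.ι X.ι Sr) (q : Matrix X.ι X.ι Sr), (Matrix.fromRows u v :
        Matrix (TT Y l a e hl ha).ι X.ι Sr) * q = Matrix.fromRows (u * q) (v * q) := by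
    intro u v q
    exact Matrix.fromRows_mul _ _ _
  -- second row of the cycle condition
  set E' : Matrix Y.ι X.ι Sr := l • g₁ - Y.Φ * g₂ - s • (g₂ * X.Φ) with hE'def
  have hE' : E' ∈ IM I Y.ι X.ι := by
    intro i j
    have h2 : dd X.toPO (TT Y l a e hl ha) s g (Sum.inr i) j ∈ I := hg2 (Sum.inr i) j
    rw [dd_apply, hgr, hmul, hmulr] at h2
    exact h2
  have hS : (Y.Φ * Y.Φ + (l * a) • (1 : Matrix Y.ι Y.ι Sr) +
      f • (1 : Matrix Y.ι Y.ι Sr)) ∈ IM I Y.ι Y.ι := by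
    intro i j
    have h2 := hsq (Sum.inl i) (Sum.inl j)
    have h3 : ((TT Y l a e hl ha).Φ * (TT Y l a e hl ha).Φ) (Sum.inl i) (Sum.inl j) =
        (Y.Φ * Y.Φ + (l * a) • (1 : Matrix Y.ι Y.ι Sr)) i j := by
      show (Matrix.fromBlocks Y.Φ (a • (1 : Matrix Y.ι Y.ι Sr)) (l • (1 : Matrix Y.ι Y.ι Sr))
        (-Y.Φ) * Matrix.fromBlocks Y.Φ (a • (1 : Matrix Y.ι Y.ι Sr))
        (l • (1 : Matrix Y.ι Y.ι Sr)) (-Y.Φ)) (Sum.inl i) (Sum.inl j) = _
      rw [Matrix.fromBlocks_multiply, Matrix.fromBlocks_apply₁₁, Matrix.smul_mul,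
        Matrix.one_mul, smul_smul, mul_comm a l]
    rw [Matrix.add_apply, h3] at h2
    have h4 : (f • (1 : Matrix (TT Y l a e hl ha).ι (TT Y l a e hl ha).ι Sr))
        (Sum.inl i) (Sum.inl j) = (f • (1 : Matrix Y.ι Y.ι Sr)) i j := by
      rw [Matrix.smul_apply, Matrix.smul_apply]
      by_cases h : i = j
      · subst h
        rw [Matrix.one_apply_eq, Matrix.one_apply_eq]
      · rw [Matrix.one_apply_ne h, Matrix.one_apply_ne fun h' => h (Sum.inl.inj h')]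
    rw [h4] at h2
    exact h2
  have hPP : X.Φ * X.Φ = -(f • (1 : Matrix X.ι X.ι Sr)) := X.sq
  have key : l • (g₁ - (Y.Φ * k - a • h₂ + s • (k * X.Φ))) =
      (Y.Φ * Y.Φ + (l * a) • (1 : Matrix Y.ι Y.ι Sr) + f • (1 : Matrix Y.ι Y.ι Sr)) * h₂ +
        E' + Y.Φ * E + s • (E * X.Φ) := by
    have e1 : l • (Y.Φ * k) = Y.Φ * (l • k) := (Matrix.mul_smul _ _ _).symm
    have e2 : l • (s • (k * X.Φ)) = s • ((l • k) * X.Φ) := by
      rw [smul_comm, Matrix.smul_mul]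
    have e0 : l • g₁ = E' + Y.Φ * g₂ + s • (g₂ * X.Φ) := by
      rw [hE'def]; abel
    rw [smul_sub, smul_add, smul_sub, e1, e2, hlk, e0, smul_smul, dd_apply]
    have e3 : s • ((h₂ * X.Φ) * X.Φ) = -(s • (f • h₂)) := by
      rw [Matrix.mul_assoc, hPP, Matrix.mul_neg, Matrix.mul_smul, Matrix.mul_one, smul_neg]
    have e4 : s • (s • (f • h₂)) = f • h₂ := by
      rw [smul_smul, hs, one_smul]
    simp only [Matrix.mul_sub, Matrix.sub_mul, Matrix.add_mul, Matrix.mul_smul,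
      Matrix.smul_mul, Matrix.one_mul, smul_sub]
    rw [e3, smul_neg, e4, ← Matrix.mul_assoc, ← Matrix.mul_assoc]
    abel
  have hK : (g₁ - (Y.Φ * k - a • h₂ + s • (k * X.Φ))) ∈ IM I Y.ι X.ι := by
    intro i j
    apply hnz
    have h2 : l * (g₁ - (Y.Φ * k - a • h₂ + s • (k * X.Φ))) i j =
        (l • (g₁ - (Y.Φ * k - a • h₂ + s • (k * X.Φ)))) i j := rfl
    rw [h2, key]
    exact I.add_mem (I.add_mem (I.add_mem (KI_mul_right hS h₂ i j) (hE' i j))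
      (KI_mul_left Y.Φ hE i j)) (KI_zsmul s (KI_mul_right hE X.Φ) i j)
  refine ⟨hg1, ?_⟩
  have hH : (Matrix.fromRows k (-h₂) : Matrix (TT Y l a e hl ha).ι X.ι Sr) ∈
      HM X.toPO (TT Y l a e hl ha) (ρ - 3) := by
    rintro (i | i) j
    · exact hk' i j
    · exact (hh₂ i j).neg.congr (by
        show X.deg j + (ρ - 3 + e - 3) - Y.deg i = X.deg j + (ρ - 3) - (Y.deg i + 3 - e)
        ring)
  refine Submodule.mem_sup.2 ⟨_, Submodule.mem_map_of_mem hH,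
    g - dd X.toPO (TT Y l a e hl ha) (-s) (Matrix.fromRows k (-h₂)), ?_, by abel⟩
  have hdd : dd X.toPO (TT Y l a e hl ha) (-s) (Matrix.fromRows k (-h₂)) =
      Matrix.fromRows (Y.Φ * k - a • h₂ + s • (k * X.Φ))
        (l • k + Y.Φ * h₂ - s • (h₂ * X.Φ)) := by
    rw [dd_apply, hmul, hmulr]
    ext1 (i | i) j
    · show (Y.Φ * k + a • (-h₂)) i j - (-s) • (k * X.Φ) i j =
        (Y.Φ * k - a • h₂ + s • (k * X.Φ)) i j
      rw [smul_neg, neg_smul, ← sub_eq_add_neg, sub_neg_eq_add]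
      rfl
    · show (l • k - Y.Φ * (-h₂)) i j - (-s) • ((-h₂) * X.Φ) i j =
        (l • k + Y.Φ * h₂ - s • (h₂ * X.Φ)) i j
      rw [Matrix.mul_neg, sub_neg_eq_add, Matrix.neg_mul, Matrix.neg_apply, neg_smul, smul_neg,
        neg_neg]
      rfl
  rw [hdd]
  rintro (i | i) j
  · show (g - Matrix.fromRows (Y.Φ * k - a • h₂ + s • (k * X.Φ))
        (l • k + Y.Φ * h₂ - s • (h₂ * X.Φ))) (Sum.inl i) j ∈ I
    exact hK i j
  · have h2 : (g - Matrix.fromRows (Y.Φ * k - a • h₂ + s • (k * X.Φ))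
        (l • k + Y.Φ * h₂ - s • (h₂ * X.Φ))) (Sum.inr i) j =
        (g₂ - (l • k + Y.Φ * h₂ - s • (h₂ * X.Φ))) i j := rfl
    rw [h2, hlk, dd_apply]
    have h3 : g₂ - (g₂ - (Y.Φ * h₂ - s • (h₂ * X.Φ)) - E + Y.Φ * h₂ - s • (h₂ * X.Φ)) = E := by
      abel
    rw [h3]
    exact hE i j

end Pool.Agent.VDC
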