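import Pool.Agent.VDC.T2

/-!
# VDC: the image of `k` is a twist of `k`
-/

set_option autoImplicit false

open MvPolynomial CategoryTheory

noncomputable section

namespace Pool.Agent.VDC

namespace KKE_

lemma fin_pk (hPK : T_PK) (hHD : T_HD) (f : Sr) (D : KA f) (ρ : ℤ) :
    Module.finrank ℂ (kk D ⟶ tw ρ ρ.negOnePow (kk D)) = pk ρ := by
  rw [← hHD f (kk D) (kk D) ρ ρ.negOnePow]
  refine hPK f D _ ρ ?_
  rw [← Units.val_mul, Int.units_mul_self, Units.val_one]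

end KKE_

theorem p_KKE (hCLS : T_CLS) (hMU0 : T_MU0) (hXE : T_XE) (hVCOM : T_VCOM) (hPK : T_PK)
    (hHD : T_HD) : T_KKE := by
  intro f f' hf hf' E D D'
  have hadd := E.additive
  have hlin := E.linear
  have heq := E.isEquiv
  refine hCLS f' hf' D' (E.F.obj (kk D)) (fun h hh => ?_) (fun ρ => ?_)
  · have h2 : (2 : ℤ).negOnePow = 1 := by decide
    have hiso := hVCOM f f' hf hf' E 2
    rw [h2] at hiso
    obtain ⟨xe⟩ := hXE f hf D
    exact hMU0 f f' E.F heq hadd hiso (kk D) (tg D.kd (-7)) xe h hh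
  · obtain ⟨φ⟩ := hVCOM f f' hf hf' E ρ
    have i1 : E.F.obj (tw ρ ρ.negOnePow (kk D)) ≅ tw ρ ρ.negOnePow (E.F.obj (kk D)) :=
      φ.app (kk D)
    have e1 : (kk D ⟶ tw ρ ρ.negOnePow (kk D)) ≃ₗ[ℂ]
        (E.F.obj (kk D) ⟶ E.F.obj (tw ρ ρ.negOnePow (kk D))) :=
      LinearEquiv.ofBijective (E.F.mapLinearMap ℂ) ⟨E.F.map_injective, E.F.map_surjective⟩
    have e2 : (E.F.obj (kk D) ⟶ E.F.obj (tw ρ ρ.negOnePow (kk D))) ≃ₗ[ℂ]
        (E.F.obj (kk D) ⟶ tw ρ ρ.negOnePow (E.F.obj (kk D))) :=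
      Linear.homCongr ℂ (Iso.refl _) i1
    rw [← (e1.trans e2).finrank_eq, KKE_.fin_pk hPK hHD f D ρ, KKE_.fin_pk hPK hHD f' D' ρ]

end Pool.Agent.VDC
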