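import Pool.Agent.VDC.T1

/-!
# VDC: projecting cycles of Koszul objects (T_KP) (helper59)
-/

set_option autoImplicit false

open MvPolynomial CategoryTheory

noncomputable section

namespace Pool.Agent.VDC

theorem p_KP : T_KP := by
  intro f X Y I l a e hl ha s ρ _ g hg
  obtain ⟨h1, h2⟩ := hg
  refine ⟨fun i j => (h1 (Sum.inr i) j).congr ?_, fun i j => ?_⟩
  · show X.deg j + ρ - (Y.deg i + 3 - e) = X.deg j + (ρ - 3 + e) - Y.deg i
    ring
  · have h3 : dd X.toPO (TT Y l a e hl ha) s g (Sum.inr i) j ∈ I := h2 (Sum.inr i) j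
    have hg : g = Matrix.fromRows (Matrix.toRows₁ g) (Matrix.toRows₂ g) :=
      (Matrix.fromRows_toRows g).symm
    have h4 : ((TT Y l a e hl ha).Φ * g) (Sum.inr i) j =
        l * Matrix.toRows₁ g i j - (Y.Φ * Matrix.toRows₂ g) i j := by
      have h5 : (TT Y l a e hl ha).Φ * g = Matrix.fromBlocks Y.Φ (a • 1) (l • 1) (-Y.Φ) *
          Matrix.fromRows (Matrix.toRows₁ g) (Matrix.toRows₂ g) := by
        rw [← hg]
      rw [h5, Matrix.fromBlocks_mul_fromRows, Matrix.fromRows_apply_inr]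
      simp [Matrix.add_apply, Matrix.neg_mul, sub_eq_add_neg]
    have h6 : (g * X.Φ) (Sum.inr i) j = (Matrix.toRows₂ g * X.Φ) i j := rfl
    rw [dd_apply, Matrix.sub_apply, Matrix.smul_apply, h4, h6] at h3
    show dd X.toPO Y (-s) (Matrix.toRows₂ g) i j ∈ I ⊔ Ideal.span {l}
    rw [dd_apply, Matrix.sub_apply, Matrix.smul_apply]
    have h7 : (Y.Φ * Matrix.toRows₂ g) i j - (-s) • (Matrix.toRows₂ g * X.Φ) i j =
        -(l * Matrix.toRows₁ g i j - (Y.Φ * Matrix.toRows₂ g) i j -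
          s • (Matrix.toRows₂ g * X.Φ) i j) + Matrix.toRows₁ g i j * l := by
      rw [neg_smul]
      ring
    rw [h7]
    refine Ideal.add_mem _ ?_ ?_
    · exact (le_sup_left : I ≤ I ⊔ Ideal.span {l}) (I.neg_mem h3)
    · exact (le_sup_right : Ideal.span {l} ≤ I ⊔ Ideal.span {l})
        (Ideal.mul_mem_left _ _ (Ideal.mem_span_singleton_self l))

end Pool.Agent.VDC
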