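import Pool.Agent.VDC.T1

/-!
# VDC: lifting cycles of Koszul objects (T_KS) (helper74)
-/

set_option autoImplicit false

open MvPolynomial CategoryTheory

noncomputable section

namespace Pool.Agent.VDC

lemma KS_mul_left {ι κ μ : Type} [Fintype κ] {I : Ideal Sr} (A : Matrix ι κ Sr)
    {E : Matrix κ μ Sr} (hE : E ∈ IM I κ μ) : A * E ∈ IM I ι μ := by
  intro i j
  rw [Matrix.mul_apply]
  exact I.sum_mem fun k _ => I.mul_mem_left _ (hE k j)

lemma KS_mul_right {ι κ μ : Type} [Fintype κ] {I : Ideal Sr} {E : Matrix ι κ Sr}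
    (hE : E ∈ IM I ι κ) (A : Matrix κ μ Sr) : E * A ∈ IM I ι μ := by
  intro i j
  rw [Matrix.mul_apply]
  exact I.sum_mem fun k _ => I.mul_mem_right _ (hE i k)

lemma KS_zsmul {ι κ : Type} {I : Ideal Sr} (s : ℤ) {E : Matrix ι κ Sr}
    (hE : E ∈ IM I ι κ) : s • E ∈ IM I ι κ := by
  intro i j
  rw [Matrix.smul_apply]
  exact zsmul_mem (hE i j) s

/-- the degree of the differential -/
lemma KS_dd_mem (X Y : PO) (s ρ : ℤ) {g : Matrix Y.ι X.ι Sr} (hg : g ∈ HM X Y ρ) :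
    dd X Y s g ∈ HM X Y (ρ + 3) := by
  intro i j
  rw [dd_apply, Matrix.sub_apply, Matrix.smul_apply, Matrix.mul_apply, Matrix.mul_apply]
  refine Hmg.sub (Hmg.sum fun k _ => ?_) (Hmg.zsmul _ (Hmg.sum fun k _ => ?_))
  · exact ((Y.hom i k).mul (hg k j)).congr (by ring)
  · exact ((hg i k).mul (X.hom k j)).congr (by ring)

theorem p_KS (h1 : T_DIV) : T_KS := by
  intro f X Y I l a e hl ha s ρ hs hI hnz hsq γ hγ
  obtain ⟨hγ1, hγ2⟩ := hγ
  have hD : dd X.toPO Y (-s) γ ∈ HM X.toPO Y (ρ + e) := by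
    have h2 := KS_dd_mem X.toPO Y (-s) _ hγ1
    intro i j
    exact (h2 i j).congr (by ring)
  obtain ⟨g₁, hg₁, hE⟩ := h1 X.toPO Y I l e (ρ + e) hI hl _ hD hγ2
  have hg₁' : g₁ ∈ HM X.toPO Y ρ := fun i j => (hg₁ i j).congr (by ring)
  set E : Matrix Y.ι X.ι Sr := dd X.toPO Y (-s) γ - l • g₁ with hEdef
  have hlg : l • g₁ = Y.Φ * γ + s • (γ * X.Φ) - E := by
    rw [hEdef, dd_apply, neg_smul]
    abel
  have hS : (Y.Φ * Y.Φ + (l * a) • (1 : Matrix Y.ι Y.ι Sr) +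
      f • (1 : Matrix Y.ι Y.ι Sr)) ∈ IM I Y.ι Y.ι := by
    intro i j
    have h2 := hsq (Sum.inl i) (Sum.inl j)
    have h3 : ((TT Y l a e hl ha).Φ * (TT Y l a e hl ha).Φ) (Sum.inl i) (Sum.inl j) =
        (Y.Φ * Y.Φ + (l * a) • (1 : Matrix Y.ι Y.ι Sr)) i j := by
      show (Matrix.fromBlocks Y.Φ (a • (1 : Matrix Y.ι Y.ι Sr)) (l • (1 : Matrix Y.ι Y.ι Sr))
        (-Y.Φ) * Matrix.fromBlocks Y.Φ (a • (1 : Matrix Y.ι Y.ι Sr))
        (l • (1 : Matrix Y.ι Y.ι Sr)) (-Y.Φ)) (Sum.inl i) (Sum.inl j) = _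
      rw [Matrix.fromBlocks_multiply, Matrix.fromBlocks_apply₁₁, Matrix.smul_mul,
        Matrix.one_mul, smul_smul, mul_comm a l]
    rw [Matrix.add_apply, h3] at h2
    have h4 : (f • (1 : Matrix (TT Y l a e hl ha).ι (TT Y l a e hl ha).ι Sr))
        (Sum.inl i) (Sum.inl j) = (f • (1 : Matrix Y.ι Y.ι Sr)) i j := by
      rw [Matrix.smul_apply, Matrix.smul_apply]
      by_cases h : i = j
      · subst h
        rw [Matrix.one_apply_eq, Matrix.one_apply_eq]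
      · rw [Matrix.one_apply_ne h, Matrix.one_apply_ne fun h' => h (Sum.inl.inj h')]
    rw [h4] at h2
    exact h2
  have hPP : X.Φ * X.Φ = -(f • (1 : Matrix X.ι X.ι Sr)) := X.sq
  have key : l • (Y.Φ * g₁ + a • γ - s • (g₁ * X.Φ)) =
      (Y.Φ * Y.Φ + (l * a) • (1 : Matrix Y.ι Y.ι Sr) + f • (1 : Matrix Y.ι Y.ι Sr)) * γ -
        Y.Φ * E +
        s • (E * X.Φ) := by
    have e1 : l • (Y.Φ * g₁) = Y.Φ * (l • g₁) := (Matrix.mul_smul _ _ _).symm
    have e2 : l • (s • (g₁ * X.Φ)) = s • ((l • g₁) * X.Φ) := by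
      rw [smul_comm, Matrix.smul_mul]
    rw [smul_sub, smul_add, e1, e2, hlg, smul_smul]
    have e3 : s • ((γ * X.Φ) * X.Φ) = -(s • (f • γ)) := by
      rw [Matrix.mul_assoc, hPP, Matrix.mul_neg, Matrix.mul_smul, Matrix.mul_one, smul_neg]
    have e4 : s • (s • (f • γ)) = f • γ := by
      rw [smul_smul, hs, one_smul]
    rw [Matrix.mul_sub, Matrix.mul_add, Matrix.sub_mul, Matrix.add_mul, Matrix.mul_smul,
      Matrix.smul_mul, e3, smul_sub, smul_add, smul_neg, e4, Matrix.add_mul, Matrix.add_mul,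
      Matrix.smul_mul, Matrix.smul_mul, Matrix.one_mul, ← Matrix.mul_assoc, ← Matrix.mul_assoc]
    abel
  have hK : (Y.Φ * g₁ + a • γ - s • (g₁ * X.Φ)) ∈ IM I Y.ι X.ι := by
    intro i j
    apply hnz
    have h2 : l * (Y.Φ * g₁ + a • γ - s • (g₁ * X.Φ)) i j =
        (l • (Y.Φ * g₁ + a • γ - s • (g₁ * X.Φ))) i j := rfl
    rw [h2, key]
    exact I.add_mem (I.sub_mem (KS_mul_right hS γ i j) (KS_mul_left Y.Φ hE i j))
      (KS_zsmul s (KS_mul_right hE X.Φ) i j)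
  refine ⟨g₁, ?_, ?_⟩
  · rintro (i | i) j
    · exact hg₁' i j
    · exact (hγ1 i j).congr (by
        show X.deg j + (ρ - 3 + e) - Y.deg i = X.deg j + ρ - (Y.deg i + 3 - e)
        ring)
  · have hmul : (TT Y l a e hl ha).Φ * (Matrix.fromRows g₁ γ :
        Matrix (TT Y l a e hl ha).ι X.ι Sr) =
        Matrix.fromRows (Y.Φ * g₁ + a • γ) (l • g₁ - Y.Φ * γ) := by
      show Matrix.fromBlocks Y.Φ (a • 1) (l • 1) (-Y.Φ) * Matrix.fromRows g₁ γ = _
      rw [Matrix.fromBlocks_mul_fromRows, Matrix.smul_mul, Matrix.smul_mul, Matrix.one_mul,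
        Matrix.one_mul, Matrix.neg_mul, sub_eq_add_neg]
    rintro (i | i) j
    · show dd X.toPO (TT Y l a e hl ha) s (Matrix.fromRows g₁ γ) (Sum.inl i) j ∈ I
      have h2 := hK i j
      rw [dd_apply, hmul]
      exact h2
    · show dd X.toPO (TT Y l a e hl ha) s (Matrix.fromRows g₁ γ) (Sum.inr i) j ∈ I
      rw [dd_apply, hmul]
      have h2 : (Matrix.fromRows (Y.Φ * g₁ + a • γ) (l • g₁ - Y.Φ * γ) -
          s • ((Matrix.fromRows g₁ γ : Matrix (TT Y l a e hl ha).ι X.ι Sr) * X.Φ))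
          (Sum.inr i) j = -(E i j) := by
        have h3 : (Matrix.fromRows (Y.Φ * g₁ + a • γ) (l • g₁ - Y.Φ * γ) -
          s • ((Matrix.fromRows g₁ γ : Matrix (TT Y l a e hl ha).ι X.ι Sr) * X.Φ))
          (Sum.inr i) j = (l • g₁ - Y.Φ * γ - s • (γ * X.Φ)) i j := rfl
        have h4 : Y.Φ * γ + s • (γ * X.Φ) - E - Y.Φ * γ - s • (γ * X.Φ) = -E := by abel
        rw [h3, hlg, h4, Matrix.neg_apply]
      rw [h2]
      exact I.neg_mem (hE i j)

end Pool.Agent.VDC
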