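import Pool.Agent.VDC.T1

/-!
# VDC-KSP: the decomposition of the endomorphisms
-/

set_option autoImplicit false

open MvPolynomial CategoryTheory

noncomputable section

namespace Pool.Agent.VDC

namespace KSP_

section alg

variable {ι : Type} [Fintype ι] [DecidableEq ι] {P l y g h η a h₀ h₂ : Matrix ι ι Sr} {s : ℤ}

lemma zs (s : ℤ) (x : Matrix ι ι Sr) : s • x = (s : Sr) • x := by
  ext1 i j
  rw [Matrix.smul_apply, Matrix.smul_apply, zsmul_eq_mul, smul_eq_mul]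

lemma A1 (hs : s * s = 1) (hl : P * l + l * P = y) (hy : y * g = g * y)
    (hg : P * g = (s : Sr) • (g * P)) : P * (l * g - (s : Sr) • (g * l)) =
      ((-s : ℤ) : Sr) • ((l * g - (s : Sr) • (g * l)) * P) := by
  rcases mul_self_eq_one_iff.1 hs with rfl | rfl
  · simp only [Int.cast_one, Int.cast_neg, one_smul, neg_smul] at hg ⊢
    linear_combination (norm := noncomm_ring) hl * g - g * hl - hg * l - l * hg + hy
  · simp only [Int.cast_one, Int.cast_neg, one_smul, neg_smul, neg_neg] at hg ⊢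
    linear_combination (norm := noncomm_ring) hl * g - g * hl + hg * l - l * hg + hy

lemma A2 (hs : s * s = 1) (hl : P * l + l * P = y) (hy : y * h = h * y) :
    l * (P * h + (s : Sr) • (h * P)) - (s : Sr) • ((P * h + (s : Sr) • (h * P)) * l) =
      P * (-(l * h + (s : Sr) • (h * l))) +
        ((-s : ℤ) : Sr) • ((-(l * h + (s : Sr) • (h * l))) * P) := by
  rcases mul_self_eq_one_iff.1 hs with rfl | rfl
  · simp only [Int.cast_one, Int.cast_neg, one_smul, neg_smul]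
    linear_combination (norm := noncomm_ring) hl * h - h * hl + hy
  · simp only [Int.cast_one, Int.cast_neg, one_smul, neg_smul, neg_neg]
    linear_combination (norm := noncomm_ring) hl * h - h * hl + hy

lemma A3 (hs : s * s = 1) (hl : l * l = P * h₀ + h₀ * P) (hg : P * g = (s : Sr) • (g * P)) :
    l * (l * g - (s : Sr) • (g * l)) - ((-s : ℤ) : Sr) • ((l * g - (s : Sr) • (g * l)) * l) =
      P * (h₀ * g - (s : Sr) • (g * h₀)) + (s : Sr) • ((h₀ * g - (s : Sr) • (g * h₀)) * P) := by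
  rcases mul_self_eq_one_iff.1 hs with rfl | rfl
  · simp only [Int.cast_one, Int.cast_neg, one_smul, neg_smul] at hg ⊢
    linear_combination (norm := noncomm_ring) hl * g - g * hl + h₀ * hg + hg * h₀
  · simp only [Int.cast_one, Int.cast_neg, one_smul, neg_smul, neg_neg] at hg ⊢
    linear_combination (norm := noncomm_ring) hl * g - g * hl + h₀ * hg - hg * h₀

lemma A4 (hs : s * s = 1) (hη : l * η + η * l - 1 = P * h₂ + h₂ * P)
    (ha : P * a = (s : Sr) • (a * P)) :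
    l * (η * a) - ((-s : ℤ) : Sr) • ((η * a) * l) - (a - η * (l * a - (s : Sr) • (a * l))) =
      P * (h₂ * a) + (s : Sr) • ((h₂ * a) * P) := by
  rcases mul_self_eq_one_iff.1 hs with rfl | rfl
  · simp only [Int.cast_one, Int.cast_neg, one_smul, neg_smul] at ha ⊢
    linear_combination (norm := noncomm_ring) hη * a + h₂ * ha
  · simp only [Int.cast_one, Int.cast_neg, one_smul, neg_smul, neg_neg] at ha ⊢
    linear_combination (norm := noncomm_ring) hη * a + h₂ * ha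

lemma A5 (hη : P * η = -(η * P)) (ha : P * a = (s : Sr) • (a * P)) :
    P * (η * a) = ((-s : ℤ) : Sr) • ((η * a) * P) := by
  rw [← Matrix.mul_assoc, hη, Matrix.neg_mul, Matrix.mul_assoc, ha, Matrix.mul_smul,
    Int.cast_neg, neg_smul, Matrix.mul_assoc]

lemma A6 (hη : P * η = -(η * P)) :
    η * (P * h + (s : Sr) • (h * P)) =
      P * (-(η * h)) + ((-s : ℤ) : Sr) • ((-(η * h)) * P) := by
  have h1 : η * P = -(P * η) := by rw [hη, neg_neg]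
  rw [Matrix.mul_add, ← Matrix.mul_assoc, h1, Matrix.mul_smul, Matrix.neg_mul, Matrix.mul_neg,
    Int.cast_neg, neg_smul, Matrix.neg_mul, smul_neg, neg_neg, Matrix.mul_assoc, Matrix.mul_assoc]

end alg

variable {G : PO}

lemma HM_mul {a b : Matrix G.ι G.ι Sr} {m n k : ℤ} (ha : a ∈ HM G G m) (hb : b ∈ HM G G n)
    (h : k = m + n) : a * b ∈ HM G G k := by
  intro i j
  rw [Matrix.mul_apply]
  exact Hmg.sum fun x _ => ((ha i x).mul (hb x j)).congr (by rw [h]; ring)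

lemma dd_zero_iff (s : ℤ) (g : Matrix G.ι G.ι Sr) :
    g ∈ (IM ⊥ G.ι G.ι).comap (dd G G s) ↔ G.Φ * g = (s : Sr) • (g * G.Φ) := by
  rw [← zs]
  constructor
  · intro h
    ext1 i j
    have h4 := h i j
    rw [dd_apply, Ideal.mem_bot, Matrix.sub_apply, sub_eq_zero] at h4
    exact h4
  · intro h i j
    rw [dd_apply, h, sub_self]
    exact Ideal.zero_mem _

lemma mem_Z {s ρ : ℤ} {g : Matrix G.ι G.ι Sr} :
    g ∈ Zc G G ⊥ s ρ ↔ g ∈ HM G G ρ ∧ G.Φ * g = (s : Sr) • (g * G.Φ) := by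
  unfold Zc
  rw [Submodule.mem_inf, dd_zero_iff]

lemma IM_bot : IM ⊥ G.ι G.ι = ⊥ := by
  rw [eq_bot_iff]
  intro g hg
  rw [Submodule.mem_bot]
  ext1 i j
  exact Ideal.mem_bot.1 (hg i j)

lemma mem_B {s ρ : ℤ} {g : Matrix G.ι G.ι Sr} :
    g ∈ Bc G G ⊥ s ρ ↔ g ∈ HM G G ρ ∧
      ∃ h ∈ HM G G (ρ - 3), g = G.Φ * h + (s : Sr) • (h * G.Φ) := by
  unfold Bc
  rw [Submodule.mem_inf, IM_bot, sup_bot_eq, Submodule.mem_map]
  refine and_congr_right fun _ => exists_congr fun h => and_congr_right fun _ => ?_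
  rw [dd_apply, zs, Int.cast_neg, neg_smul, sub_neg_eq_add]
  exact eq_comm

lemma mem_K {l : Matrix G.ι G.ι Sr} {s ρ : ℤ} {g : Matrix G.ι G.ι Sr} :
    g ∈ Kc G l s ρ ↔ g ∈ Zc G G ⊥ s ρ ∧ l * g - (s : Sr) • (g * l) ∈ Bc G G ⊥ (-s) (ρ - 1) := by
  rw [← zs]
  unfold Kc
  rw [Submodule.mem_inf]
  rfl

lemma smul_HM {ρ : ℤ} (s : ℤ) {g : Matrix G.ι G.ι Sr} (h : g ∈ HM G G ρ) :
    (s : Sr) • g ∈ HM G G ρ := by
  intro i j
  have h1 := (h i j).zsmul s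
  rw [zsmul_eq_mul] at h1
  exact h1

section facts

variable {l η w w0 : Matrix G.ι G.ι Sr} (hl1 : l ∈ HM G G (-1))
  (hl2 : G.Φ * l + l * G.Φ = (X 3 : Sr) • (1 : Matrix G.ι G.ι Sr))

lemma ycomm (g : Matrix G.ι G.ι Sr) : ((X 3 : Sr) • (1 : Matrix G.ι G.ι Sr)) * g =
    g * ((X 3 : Sr) • (1 : Matrix G.ι G.ι Sr)) := by
  rw [Matrix.smul_mul, Matrix.mul_smul, Matrix.one_mul, Matrix.mul_one]

include hl1 hl2 in
lemma D_Z {s ρ : ℤ} (hs : s * s = 1) {g : Matrix G.ι G.ι Sr} (hg : g ∈ Zc G G ⊥ s ρ) :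
    l * g - (s : Sr) • (g * l) ∈ Zc G G ⊥ (-s) (ρ - 1) := by
  rw [mem_Z] at hg ⊢
  exact ⟨sub_mem (HM_mul hl1 hg.1 (by ring)) (smul_HM s (HM_mul hg.1 hl1 (by ring))),
    A1 hs hl2 (ycomm g) hg.2⟩

include hl1 hl2 in
lemma D_B {s ρ : ℤ} (hs : s * s = 1) {g : Matrix G.ι G.ι Sr} (hg : g ∈ Bc G G ⊥ s ρ) :
    l * g - (s : Sr) • (g * l) ∈ Bc G G ⊥ (-s) (ρ - 1) := by
  obtain ⟨hg1, h, hh, rfl⟩ := mem_B.1 hg
  rw [mem_B]
  exact ⟨sub_mem (HM_mul hl1 hg1 (by ring)) (smul_HM s (HM_mul hg1 hl1 (by ring))), _,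
    neg_mem (add_mem (HM_mul hl1 hh (by ring)) (smul_HM s (HM_mul hh hl1 (by ring)))),
    A2 hs hl2 (ycomm h)⟩

include hl1 hl2 in
lemma DD_B (hw0 : w0 ∈ HM G G (-2 - 3)) (hll : l * l = G.Φ * w0 + w0 * G.Φ) {s ρ : ℤ}
    (hs : s * s = 1) {g : Matrix G.ι G.ι Sr} (hg : g ∈ Zc G G ⊥ s ρ) :
    l * (l * g - (s : Sr) • (g * l)) - ((-s : ℤ) : Sr) • ((l * g - (s : Sr) • (g * l)) * l) ∈
      Bc G G ⊥ s (ρ - 1 - 1) := by
  have hDD := D_Z hl1 hl2 (by rw [neg_mul_neg, hs]) (D_Z hl1 hl2 hs hg)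
  rw [mem_Z] at hg hDD
  rw [mem_B]
  exact ⟨hDD.1, _, sub_mem (HM_mul hw0 hg.1 (by ring)) (smul_HM s (HM_mul hg.1 hw0 (by ring))),
    A3 hs hll hg.2⟩

lemma E_Z (hη1 : η ∈ HM G G 1) (hη2 : G.Φ * η = -(η * G.Φ)) {s ρ σ : ℤ} (hσ : σ = ρ + 1)
    {g : Matrix G.ι G.ι Sr} (hg : g ∈ Zc G G ⊥ s ρ) : η * g ∈ Zc G G ⊥ (-s) σ := by
  rw [mem_Z] at hg ⊢
  exact ⟨HM_mul hη1 hg.1 (by rw [hσ]; ring), A5 hη2 hg.2⟩

lemma E_B (hη1 : η ∈ HM G G 1) (hη2 : G.Φ * η = -(η * G.Φ)) {s ρ σ : ℤ} (hσ : σ = ρ + 1)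
    {g : Matrix G.ι G.ι Sr} (hg : g ∈ Bc G G ⊥ s ρ) : η * g ∈ Bc G G ⊥ (-s) σ := by
  obtain ⟨hg1, h, hh, rfl⟩ := mem_B.1 hg
  rw [mem_B]
  exact ⟨HM_mul hη1 hg1 (by rw [hσ]; ring), _, neg_mem (HM_mul hη1 hh (by rw [hσ]; ring)), A6 hη2⟩

include hl1 hl2 in
lemma DE (hη1 : η ∈ HM G G 1) (hη2 : G.Φ * η = -(η * G.Φ)) (hw : w ∈ HM G G (0 - 3))
    (hη : l * η + η * l - 1 = G.Φ * w + w * G.Φ) {s ρ : ℤ} (hs : s * s = 1)
    {g : Matrix G.ι G.ι Sr} (hg : g ∈ Zc G G ⊥ s ρ) :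
    l * (η * g) - ((-s : ℤ) : Sr) • ((η * g) * l) - (g - η * (l * g - (s : Sr) • (g * l))) ∈
      Bc G G ⊥ s ρ := by
  have h3 := D_Z hl1 hl2 (by rw [neg_mul_neg, hs]) (E_Z hη1 hη2 (σ := ρ + 1) rfl hg)
  have h4 := E_Z hη1 hη2 (σ := ρ) (by ring) (D_Z hl1 hl2 hs hg)
  have e : ρ + 1 - 1 = ρ := by ring
  rw [e] at h3
  rw [mem_Z] at h3 h4 hg
  rw [mem_B]
  exact ⟨sub_mem h3.1 (sub_mem hg.1 h4.1), w * g, HM_mul hw hg.1 (by ring), A4 hs hη hg.2⟩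

end facts

/-- the map `(a, b) ↦ a + η b` -/
lemma key {E : Type*} [AddCommGroup E] [Module ℂ E] (K K' Z B B' : Submodule ℂ E) (e : E →ₗ[ℂ] E)
    (hK : K ≤ Z) (he : ∀ b ∈ K', e b ∈ Z) (hB : ∀ b ∈ B', e b ∈ B)
    (hinj : ∀ a ∈ K, ∀ b ∈ K', a + e b ∈ B → b ∈ B')
    (hsur : ∀ g ∈ Z, ∃ b ∈ K', g - e b ∈ K) [FiniteDimensional ℂ K] [FiniteDimensional ℂ K'] :
    Module.finrank ℂ (Z ⧸ B.comap Z.subtype) = Module.finrank ℂ (K ⧸ B.comap K.subtype) +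
      Module.finrank ℂ (K' ⧸ B'.comap K'.subtype) := by
  let i1 : K →ₗ[ℂ] Z := Submodule.inclusion hK
  let i2 : K' →ₗ[ℂ] Z := (e.comp K'.subtype).codRestrict Z (fun b => he b.1 b.2)
  let U : ((K ⧸ B.comap K.subtype) × (K' ⧸ B'.comap K'.subtype)) →ₗ[ℂ] (Z ⧸ B.comap Z.subtype) :=
    LinearMap.coprod (Submodule.mapQ _ _ i1 (fun x hx => hx))
      (Submodule.mapQ _ _ i2 (fun x hx => hB x.1 hx))
  have hU : ∀ (a : K) (b : K'),
      U (Submodule.Quotient.mk a, Submodule.Quotient.mk b) = Submodule.Quotient.mk (i1 a + i2 b) :=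
    fun a b => rfl
  have hinj' : Function.Injective U := by
    rw [injective_iff_map_eq_zero]
    rintro ⟨x, y⟩ hxy
    obtain ⟨a, rfl⟩ := Submodule.Quotient.mk_surjective _ x
    obtain ⟨b, rfl⟩ := Submodule.Quotient.mk_surjective _ y
    rw [hU, Submodule.Quotient.mk_eq_zero] at hxy
    have h3 : a.1 + e b.1 ∈ B := hxy
    have hb3 := hinj a.1 a.2 b.1 b.2 h3
    have ha3 : a.1 ∈ B := by
      have h7 := sub_mem h3 (hB _ hb3)
      rwa [add_sub_cancel_right] at h7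
    rw [Prod.mk_eq_zero]
    exact ⟨(Submodule.Quotient.mk_eq_zero _).2 ha3, (Submodule.Quotient.mk_eq_zero _).2 hb3⟩
  have hsur' : Function.Surjective U := by
    intro z
    obtain ⟨g, rfl⟩ := Submodule.Quotient.mk_surjective _ z
    obtain ⟨b, hb, hg⟩ := hsur g.1 g.2
    refine ⟨(Submodule.Quotient.mk ⟨_, hg⟩, Submodule.Quotient.mk ⟨_, hb⟩), ?_⟩
    rw [hU]
    congr 1
    apply Subtype.ext
    show g.1 - e b + e b = g.1
    exact sub_add_cancel _ _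
  have hfr := (LinearEquiv.ofBijective U ⟨hinj', hsur'⟩).finrank_eq
  rw [Module.finrank_prod] at hfr
  exact hfr.symm

end KSP_

open KSP_ in
theorem p_KSP (h_HFIN : T_HFIN) : T_KSP := by
  intro f G l η hl1 hl2 h2 hη1 hη2 s ρ hs
  have hfin : ∀ ρ : ℤ, Module.Finite ℂ (HM G.toPO G.toPO ρ) := fun ρ => h_HFIN _ _ _
  have hZfin : ∀ s ρ : ℤ, FiniteDimensional ℂ (Zc G.toPO G.toPO ⊥ s ρ) := fun s ρ => by
    have := hfin ρ
    exact Submodule.finiteDimensional_of_le (S₂ := HM G.toPO G.toPO ρ) inf_le_left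
  have hKfin : ∀ s ρ : ℤ, FiniteDimensional ℂ (Kc G.toPO l s ρ) := fun s ρ => by
    have := hZfin s ρ
    exact Submodule.finiteDimensional_of_le (S₂ := Zc G.toPO G.toPO ⊥ s ρ) inf_le_left
  rw [mem_Z, Int.cast_neg, Int.cast_one, neg_smul, one_smul] at hη1
  obtain ⟨hη1, hη1'⟩ := hη1
  obtain ⟨-, w, hw, hη2⟩ := mem_B.1 hη2
  rw [Int.cast_one, one_smul] at hη2
  -- the square of `l` is a boundary
  have hll : l * l ∈ Bc G.toPO G.toPO ⊥ 1 (-2) := by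
    have h3 : l * l ∈ Zc G.toPO G.toPO ⊥ 1 (-2) := by
      rw [mem_Z]
      refine ⟨HM_mul hl1 hl1 (by norm_num), ?_⟩
      rw [Int.cast_one, one_smul]
      linear_combination (norm := noncomm_ring) hl2 * l - l * hl2 + ycomm l
    have := hZfin 1 (-2)
    have h4 : Subsingleton (Zc G.toPO G.toPO ⊥ 1 (-2) ⧸
        (Bc G.toPO G.toPO ⊥ 1 (-2)).comap (Zc G.toPO G.toPO ⊥ 1 (-2)).subtype) :=
      Module.finrank_zero_iff.1 h2
    have h5 := Submodule.Quotient.subsingleton_iff.1 h4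
    have h6 : (⟨l * l, h3⟩ : Zc G.toPO G.toPO ⊥ 1 (-2)) ∈
        (Bc G.toPO G.toPO ⊥ 1 (-2)).comap (Zc G.toPO G.toPO ⊥ 1 (-2)).subtype := by
      rw [h5]
      exact Submodule.mem_top
    exact h6
  obtain ⟨-, w0, hw0, hll⟩ := mem_B.1 hll
  rw [Int.cast_one, one_smul] at hll
  have hs' : (-s) * (-s) = 1 := by rw [neg_mul_neg, hs]
  have f1 := hKfin s ρ
  have f2 := hKfin (-s) (ρ - 1)
  have nn : ∀ t : ℤ, - -t = t := fun t => neg_neg t
  refine key (Kc G.toPO l s ρ) (Kc G.toPO l (-s) (ρ - 1)) (Zc G.toPO G.toPO ⊥ s ρ)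
    (Bc G.toPO G.toPO ⊥ s ρ) (Bc G.toPO G.toPO ⊥ (-s) (ρ - 1))
    (LinearMap.mulLeft ℂ η) inf_le_left ?_ ?_ ?_ ?_
  · intro b hb
    have := E_Z hη1 hη1' (σ := ρ) (by ring) (mem_K.1 hb).1
    rw [nn] at this
    exact this
  · intro b hb
    have := E_B hη1 hη1' (σ := ρ) (by ring) hb
    rw [nn] at this
    exact this
  · intro a ha b hb hab
    change a + η * b ∈ Bc G.toPO G.toPO ⊥ s ρ at hab
    obtain ⟨ha1, ha2⟩ := mem_K.1 ha
    obtain ⟨hb1, hb2⟩ := mem_K.1 hb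
    have h4 := D_B hl1 hl2 hs hab
    have h5 := DE hl1 hl2 hη1 hη1' hw hη2 hs' hb1
    have h6 := E_B hη1 hη1' (σ := ρ - 1) (by ring) hb2
    rw [nn] at h5 h6
    have e : b = (l * (a + η * b) - (s : Sr) • ((a + η * b) * l)) -
        (l * a - (s : Sr) • (a * l)) - (l * (η * b) - (s : Sr) • ((η * b) * l) -
          (b - η * (l * b - ((-s : ℤ) : Sr) • (b * l)))) +
        η * (l * b - ((-s : ℤ) : Sr) • (b * l)) := by
      rw [Matrix.mul_add, Matrix.add_mul, smul_add]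
      abel
    rw [e]
    exact add_mem (sub_mem (sub_mem h4 ha2) h5) h6
  · intro g hg
    have hD := D_Z hl1 hl2 hs hg
    have hDD := DD_B hl1 hl2 hw0 hll hs hg
    refine ⟨l * g - (s : Sr) • (g * l), ?_, ?_⟩
    · rw [mem_K, nn]
      exact ⟨hD, hDD⟩
    · change g - η * (l * g - (s : Sr) • (g * l)) ∈ Kc G.toPO l s ρ
      rw [mem_K]
      have hE := E_Z hη1 hη1' (σ := ρ) (by ring) hD
      have h5 := DE hl1 hl2 hη1 hη1' hw hη2 hs' hD
      have h6 := E_B hη1 hη1' (σ := ρ - 1) (by ring) hDD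
      rw [nn] at hE h5
      refine ⟨sub_mem hg hE, ?_⟩
      have e : l * (g - η * (l * g - (s : Sr) • (g * l))) -
          (s : Sr) • ((g - η * (l * g - (s : Sr) • (g * l))) * l) =
          -(l * (η * (l * g - (s : Sr) • (g * l))) -
            (s : Sr) • ((η * (l * g - (s : Sr) • (g * l))) * l) -
            ((l * g - (s : Sr) • (g * l)) - η * (l * (l * g - (s : Sr) • (g * l)) -
              ((-s : ℤ) : Sr) • ((l * g - (s : Sr) • (g * l)) * l)))) +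
          η * (l * (l * g - (s : Sr) • (g * l)) -
            ((-s : ℤ) : Sr) • ((l * g - (s : Sr) • (g * l)) * l)) := by
        rw [Matrix.mul_sub l g, Matrix.sub_mul g, smul_sub]
        abel
      rw [e]
      exact add_mem (neg_mem h5) h6

end Pool.Agent.VDC

end
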