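import Pool.Agent.VDC.T1

/-!
# VDC: target LES, the long exact sequence (helper7)
-/

set_option autoImplicit false

open MvPolynomial CategoryTheory

noncomputable section

namespace Pool.Agent.VDC

namespace LES_

/-- the abstract dimension count -/
theorem dim_count {V Q1 Q2 Q3 : Type*} [AddCommGroup V] [Module ℂ V] [AddCommGroup Q1]
    [Module ℂ Q1] [AddCommGroup Q2] [Module ℂ Q2] [AddCommGroup Q3] [Module ℂ Q3]
    [Module.Finite ℂ Q1] (α : V →ₗ[ℂ] Q1) (β : V →ₗ[ℂ] Q2) (ι : Q3 →ₗ[ℂ] Q1)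
    (hα : Function.Surjective α) (hβ : Function.Surjective β) (hι : Function.Injective ι)
    (hker : ∀ v, α v = 0 → β v = 0) (h1 : ∀ v, β v = 0 → ∃ q, ι q = α v)
    (h2 : ∀ q, ∃ v, β v = 0 ∧ α v = ι q) :
    Module.finrank ℂ Q1 = Module.finrank ℂ Q3 + Module.finrank ℂ Q2 := by
  classical
  -- a linear section of `α`
  obtain ⟨σ, hσ⟩ := α.exists_rightInverse_of_surjective (LinearMap.range_eq_top.2 hα)
  have hσ' : ∀ q, α (σ q) = q := fun q => LinearMap.congr_fun hσ q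
  let γ : Q1 →ₗ[ℂ] Q2 := β ∘ₗ σ
  have hγ : ∀ v, γ (α v) = β v := by
    intro v
    have h3 : β (σ (α v) - v) = 0 := hker _ (by rw [map_sub, hσ', sub_self])
    rw [map_sub, sub_eq_zero] at h3
    exact h3
  have hr : LinearMap.range γ = ⊤ := by
    rw [LinearMap.range_eq_top]
    intro q
    obtain ⟨v, rfl⟩ := hβ q
    exact ⟨α v, hγ v⟩
  have hk : LinearMap.ker γ = LinearMap.range ι := by
    ext q
    rw [LinearMap.mem_ker, LinearMap.mem_range]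
    constructor
    · intro h
      obtain ⟨q', hq'⟩ := h1 (σ q) h
      exact ⟨q', by rw [hq', hσ']⟩
    · rintro ⟨q', rfl⟩
      obtain ⟨v, hv, hv'⟩ := h2 q'
      rw [← hv', hγ, hv]
  have h3 := LinearMap.finrank_range_add_finrank_ker γ
  rw [hr, hk, LinearMap.finrank_range_of_inj hι, finrank_top] at h3
  rw [← h3, add_comm]

variable {f : Sr}

lemma dd_HM {X Y : PO} {s ρ : ℤ} {a : Matrix Y.ι X.ι Sr} (ha : a ∈ HM X Y ρ) :
    dd X Y s a ∈ HM X Y (ρ + 3) := by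
  intro i j
  rw [dd_apply, Matrix.sub_apply, Matrix.smul_apply, Matrix.mul_apply, Matrix.mul_apply]
  refine Hmg.sub (Hmg.sum fun k _ => ?_) (Hmg.zsmul _ (Hmg.sum fun k _ => ?_))
  · exact ((Y.hom i k).mul (ha k j)).congr (by ring)
  · exact ((ha i k).mul (X.hom k j)).congr (by ring)

lemma dd_smul {X Y : PO} {s : ℤ} (l : Sr) (a : Matrix Y.ι X.ι Sr) :
    dd X Y s (l • a) = l • dd X Y s a := by
  rw [dd_apply, dd_apply, Matrix.mul_smul, Matrix.smul_mul, smul_sub, smul_comm s l]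

lemma dd_dd {X Y : CM f} {s : ℤ} (hs : s * s = 1) (a : Matrix Y.ι X.ι Sr) :
    dd X.toPO Y.toPO (-s) (dd X.toPO Y.toPO s a) = 0 := by
  rw [dd_apply, dd_apply]
  have h1 : Y.Φ * (Y.Φ * a) = -(f • a) := by
    rw [← Matrix.mul_assoc, Y.sq, Matrix.neg_mul, Matrix.smul_mul, Matrix.one_mul]
  have h2 : a * X.Φ * X.Φ = -(f • a) := by
    rw [Matrix.mul_assoc, X.sq, Matrix.mul_neg, Matrix.mul_smul, Matrix.mul_one]
  rw [Matrix.mul_sub, Matrix.sub_mul, h1, Matrix.mul_smul, Matrix.smul_mul, h2,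
    ← Matrix.mul_assoc, neg_smul, smul_sub, smul_smul, hs, one_smul]
  abel

lemma IM_mul_left {I : Ideal Sr} {ι κ μ : Type} [Fintype κ] (M : Matrix ι κ Sr)
    {g : Matrix κ μ Sr} (hg : g ∈ IM I κ μ) : M * g ∈ IM I ι μ := by
  intro i j
  rw [Matrix.mul_apply]
  exact I.sum_mem fun k _ => I.mul_mem_left _ (hg k j)

lemma IM_mul_right {I : Ideal Sr} {ι κ μ : Type} [Fintype κ] {g : Matrix ι κ Sr}
    (M : Matrix κ μ Sr) (hg : g ∈ IM I ι κ) : g * M ∈ IM I ι μ := by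
  intro i j
  rw [Matrix.mul_apply]
  exact I.sum_mem fun k _ => I.mul_mem_right _ (hg i k)

lemma IM_dd {X Y : PO} {I : Ideal Sr} {s : ℤ} {a : Matrix Y.ι X.ι Sr}
    (ha : a ∈ IM I Y.ι X.ι) : dd X Y s a ∈ IM I Y.ι X.ι := by
  rw [dd_apply]
  refine sub_mem (IM_mul_left _ ha) ?_
  intro i j
  rw [Matrix.smul_apply]
  exact zsmul_mem (IM_mul_right _ ha i j) s

lemma IM_smul {I : Ideal Sr} {ι κ : Type} (l : Sr) {g : Matrix ι κ Sr} (hg : g ∈ IM I ι κ) :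
    l • g ∈ IM I ι κ := by
  intro i j
  rw [Matrix.smul_apply, smul_eq_mul]
  exact I.mul_mem_left _ (hg i j)

lemma IM_mono {I J : Ideal Sr} (h : I ≤ J) {ι κ : Type} {g : Matrix ι κ Sr}
    (hg : g ∈ IM I ι κ) : g ∈ IM J ι κ := fun i j => h (hg i j)

lemma IM_l {I : Ideal Sr} {ι κ : Type} (l : Sr) (g : Matrix ι κ Sr) :
    l • g ∈ IM (I ⊔ Ideal.span {l}) ι κ := by
  intro i j
  rw [Matrix.smul_apply, smul_eq_mul]
  exact Ideal.mul_mem_right _ _ (Ideal.mem_sup_right (Ideal.mem_span_singleton_self l))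

lemma IM_NZ {I : Ideal Sr} {l : Sr} (hl : NZ l I) {ι κ : Type} {g : Matrix ι κ Sr}
    (hg : l • g ∈ IM I ι κ) : g ∈ IM I ι κ := by
  intro i j
  have h := hg i j
  rw [Matrix.smul_apply, smul_eq_mul] at h
  exact hl _ h

lemma HM_smul {X Y : PO} {ρ e ρ' : ℤ} {l : Sr} (hl : Hmg l e) {g : Matrix Y.ι X.ι Sr}
    (hg : g ∈ HM X Y ρ) (h : ρ' = ρ + e) : l • g ∈ HM X Y ρ' := by
  intro i j
  rw [Matrix.smul_apply, smul_eq_mul]
  exact (hl.mul (hg i j)).congr (by rw [h]; ring)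

lemma HM_mul {X Y Z : PO} {ρ σ τ : ℤ} {g : Matrix Y.ι X.ι Sr} {h : Matrix Z.ι Y.ι Sr}
    (hg : g ∈ HM X Y ρ) (hh : h ∈ HM Y Z σ) (hτ : τ = ρ + σ) : h * g ∈ HM X Z τ := by
  intro i j
  rw [Matrix.mul_apply]
  exact Hmg.sum fun k _ => ((hh i k).mul (hg k j)).congr (by rw [hτ]; ring)

/-- pairs `(a, b)` with `dd s a = l b` modulo `I` -/
def WW (X Y : PO) (I : Ideal Sr) (l : Sr) (s ρ ρ' : ℤ) :
    Submodule ℂ (Matrix Y.ι X.ι Sr × Matrix Y.ι X.ι Sr) where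
  carrier := {v | v.1 ∈ HM X Y ρ ∧ v.2 ∈ HM X Y ρ' ∧ dd X Y s v.1 - l • v.2 ∈ IM I Y.ι X.ι}
  add_mem' := by
    rintro a b ⟨h1, h2, h3⟩ ⟨h4, h5, h6⟩
    refine ⟨add_mem h1 h4, add_mem h2 h5, ?_⟩
    have h7 := add_mem h3 h6
    rw [Prod.fst_add, Prod.snd_add, map_add, smul_add]
    convert h7 using 1
    abel
  zero_mem' := ⟨zero_mem _, zero_mem _, by simp⟩
  smul_mem' := by
    rintro c a ⟨h1, h2, h3⟩
    refine ⟨Submodule.smul_mem _ c h1, Submodule.smul_mem _ c h2, ?_⟩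
    have h4 := Submodule.smul_mem _ c h3
    rw [Prod.smul_fst, Prod.smul_snd, map_smul, smul_comm l c, ← smul_sub]
    exact h4

end LES_

open LES_ in
theorem p_LES (h_DIV : T_DIV) (h_INJ : T_INJ) (h_HFIN : T_HFIN) : T_LES := by
  intro f X Y I l e s ρ hs hI hl hNZ hNH
  set J : Ideal Sr := I ⊔ Ideal.span {l} with hJ
  have hIJ : I ≤ J := le_sup_left
  have hs' : (-s) * (-s) = 1 := by rw [neg_mul_neg]; exact hs
  let W := WW X.toPO Y.toPO I l s ρ (ρ + 3 - e)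
  -- the two projections
  have hfst : ∀ v : W, v.1.1 ∈ Zc X.toPO Y.toPO J s ρ := by
    rintro ⟨v, h1, h2, h3⟩
    refine ⟨h1, ?_⟩
    have h4 : dd X.toPO Y.toPO s v.1 = (dd X.toPO Y.toPO s v.1 - l • v.2) + l • v.2 := by abel
    show dd X.toPO Y.toPO s v.1 ∈ IM J Y.ι X.ι
    rw [h4]
    exact add_mem (IM_mono hIJ h3) (IM_l l v.2)
  have hsnd : ∀ v : W, v.1.2 ∈ Zc X.toPO Y.toPO I (-s) (ρ + 3 - e) := by
    rintro ⟨v, h1, h2, h3⟩
    refine ⟨h2, ?_⟩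
    show dd X.toPO Y.toPO (-s) v.2 ∈ IM I Y.ι X.ι
    refine IM_NZ hNZ ?_
    have h4 : l • dd X.toPO Y.toPO (-s) v.2 =
        -(dd X.toPO Y.toPO (-s) (dd X.toPO Y.toPO s v.1 - l • v.2)) := by
      rw [map_sub, dd_dd hs, zero_sub, neg_neg, dd_smul]
    rw [h4]
    exact neg_mem (IM_dd h3)
  let α : W →ₗ[ℂ] (Zc X.toPO Y.toPO J s ρ ⧸
      (Bc X.toPO Y.toPO J s ρ).comap (Zc X.toPO Y.toPO J s ρ).subtype) :=
    Submodule.mkQ _ ∘ₗ LinearMap.codRestrict _ (LinearMap.fst ℂ _ _ ∘ₗ W.subtype) hfst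
  let β : W →ₗ[ℂ] (Zc X.toPO Y.toPO I (-s) (ρ + 3 - e) ⧸
      (Bc X.toPO Y.toPO I (-s) (ρ + 3 - e)).comap
        (Zc X.toPO Y.toPO I (-s) (ρ + 3 - e)).subtype) :=
    Submodule.mkQ _ ∘ₗ LinearMap.codRestrict _ (LinearMap.snd ℂ _ _ ∘ₗ W.subtype) hsnd
  have hαv : ∀ (v : W) (a : Zc X.toPO Y.toPO J s ρ), v.1.1 - a.1 ∈ Bc X.toPO Y.toPO J s ρ →
      α v = Submodule.mkQ _ a := by
    intro v a h
    exact (Submodule.Quotient.eq _).2 h
  have hβ0 : ∀ v : W, β v = 0 ↔ v.1.2 ∈ Bc X.toPO Y.toPO I (-s) (ρ + 3 - e) := by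
    intro v
    exact Submodule.Quotient.mk_eq_zero _
  have hα0 : ∀ v : W, α v = 0 ↔ v.1.1 ∈ Bc X.toPO Y.toPO J s ρ := by
    intro v
    exact Submodule.Quotient.mk_eq_zero _
  -- the inclusion
  have hZ : Zc X.toPO Y.toPO I s ρ ≤ Zc X.toPO Y.toPO J s ρ :=
    fun a ha => ⟨ha.1, IM_mono hIJ ha.2⟩
  have hB : ∀ a ∈ Bc X.toPO Y.toPO I s ρ, a ∈ Bc X.toPO Y.toPO J s ρ := by
    rintro a ⟨h1, h2⟩
    refine ⟨h1, ?_⟩
    obtain ⟨b, hb, i, hi, hbi⟩ := Submodule.mem_sup.1 h2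
    rw [← hbi]
    exact add_mem (Submodule.mem_sup_left hb) (Submodule.mem_sup_right (IM_mono hIJ hi))
  let ι : (Zc X.toPO Y.toPO I s ρ ⧸
      (Bc X.toPO Y.toPO I s ρ).comap (Zc X.toPO Y.toPO I s ρ).subtype) →ₗ[ℂ]
      (Zc X.toPO Y.toPO J s ρ ⧸
      (Bc X.toPO Y.toPO J s ρ).comap (Zc X.toPO Y.toPO J s ρ).subtype) :=
    Submodule.mapQ _ _ (Submodule.inclusion hZ) (fun a ha => hB _ ha)
  have hfin : Module.Finite ℂ (Zc X.toPO Y.toPO J s ρ ⧸
      (Bc X.toPO Y.toPO J s ρ).comap (Zc X.toPO Y.toPO J s ρ).subtype) := by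
    have h1 := h_HFIN X.toPO Y.toPO ρ
    have h2 : Module.Finite ℂ (Zc X.toPO Y.toPO J s ρ) :=
      Submodule.finiteDimensional_of_le (inf_le_left : Zc X.toPO Y.toPO J s ρ ≤ HM X.toPO Y.toPO ρ)
    infer_instance
  -- homogeneous parts in the ideal `J` are multiples of `l` modulo `I`
  have key := dim_count α β ι ?_ ?_ ?_ ?_ ?_ ?_
  · exact key
  · -- `α` is onto
    intro q
    obtain ⟨a, rfl⟩ := Submodule.mkQ_surjective _ q
    obtain ⟨b, hb, hb'⟩ := h_DIV X.toPO Y.toPO I l e (ρ + 3) hI hl _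
      (dd_HM (s := s) a.2.1) a.2.2
    exact ⟨⟨(a.1, b), a.2.1, hb, hb'⟩, rfl⟩
  · -- `β` is onto
    intro q
    obtain ⟨⟨b, hb1, hb2⟩, rfl⟩ := Submodule.mkQ_surjective _ q
    have hb3 : Y.Φ * b + s • (b * X.Φ) ∈ IM I Y.ι X.ι := by
      have h : dd X.toPO Y.toPO (-s) b ∈ IM I Y.ι X.ι := hb2
      rw [dd_apply, neg_smul, sub_neg_eq_add] at h
      exact h
    rcases hNH with ⟨t, ht, ht'⟩ | ⟨t, ht, ht'⟩
    · -- `l` acts by zero on `X`
      have h1 : b * t ∈ HM X.toPO Y.toPO ρ := HM_mul ht hb1 (by ring)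
      refine ⟨⟨(-(s • (b * t)), b), ?_, hb1, ?_⟩, rfl⟩
      · exact neg_mem (zsmul_mem h1 s)
      · show dd X.toPO Y.toPO s (-(s • (b * t))) - l • b ∈ IM I Y.ι X.ι
        have h2 : dd X.toPO Y.toPO s (-(s • (b * t))) - l • b =
            -(s • ((Y.Φ * b + s • (b * X.Φ)) * t)) := by
          have h3 : b * t * X.Φ = l • b - b * X.Φ * t := by
            have h4 : t * X.Φ = l • (1 : Matrix X.ι X.ι Sr) - X.Φ * t := by
              rw [← ht']; abel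
            rw [Matrix.mul_assoc, h4, Matrix.mul_sub, Matrix.mul_smul, Matrix.mul_one,
              Matrix.mul_assoc]
          rw [map_neg, map_zsmul, dd_apply, h3, Matrix.add_mul, Matrix.smul_mul,
            ← Matrix.mul_assoc]
          have h5 : ∀ M : Matrix Y.ι X.ι Sr, s • s • M = M := fun M => by
            rw [smul_smul, hs, one_smul]
          simp only [smul_sub, smul_add, h5]
          abel
        rw [h2]
        exact neg_mem (zsmul_mem (IM_mul_right _ hb3) s)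
    · -- `l` acts by zero on `Y`
      have h1 : t * b ∈ HM X.toPO Y.toPO ρ := HM_mul hb1 ht (by ring)
      refine ⟨⟨(t * b, b), h1, hb1, ?_⟩, rfl⟩
      show dd X.toPO Y.toPO s (t * b) - l • b ∈ IM I Y.ι X.ι
      have h2 : dd X.toPO Y.toPO s (t * b) - l • b =
          -(t * (Y.Φ * b + s • (b * X.Φ))) := by
        have h3 : Y.Φ * (t * b) = l • b - t * (Y.Φ * b) := by
          have h4 : Y.Φ * t = l • (1 : Matrix Y.ι Y.ι Sr) - t * Y.Φ := by
            rw [← ht']; abel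
          rw [← Matrix.mul_assoc, h4, Matrix.sub_mul, Matrix.smul_mul, Matrix.one_mul,
            Matrix.mul_assoc]
        rw [dd_apply, h3, Matrix.mul_add, Matrix.mul_smul, Matrix.mul_assoc]
        abel
      rw [h2]
      exact neg_mem (IM_mul_left _ hb3)
  · -- `ι` is injective
    rw [injective_iff_map_eq_zero]
    intro q hq
    obtain ⟨a, rfl⟩ := Submodule.mkQ_surjective _ q
    have h0 : Submodule.mkQ ((Bc X.toPO Y.toPO J s ρ).comap (Zc X.toPO Y.toPO J s ρ).subtype)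
        (Submodule.inclusion hZ a) = 0 := hq
    have h0' : Submodule.inclusion hZ a ∈
        (Bc X.toPO Y.toPO J s ρ).comap (Zc X.toPO Y.toPO J s ρ).subtype :=
      (Submodule.Quotient.mk_eq_zero _).1 h0
    have h1 : a.1 ∈ Bc X.toPO Y.toPO J s ρ := h0'
    have h2 := h_INJ f X Y I l e s ρ hs hI hl hNZ hNH a.1 a.2 h1
    exact (Submodule.Quotient.mk_eq_zero _).2 h2
  · -- the kernels
    rintro v hv
    rw [hα0] at hv
    rw [hβ0]
    obtain ⟨⟨a, b⟩, h1, h2, h3⟩ := v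
    obtain ⟨h4, h5⟩ := hv
    obtain ⟨m', ⟨h, hh, rfl⟩, i, hi, hbi⟩ := Submodule.mem_sup.1 h5
    have hbi' : dd X.toPO Y.toPO (-s) h + i = a := hbi
    have hiH : i ∈ HM X.toPO Y.toPO ρ := by
      have h6 : i = a - dd X.toPO Y.toPO (-s) h := by rw [← hbi']; abel
      rw [h6]
      refine sub_mem h1 ?_
      have h7 := dd_HM (s := -s) hh
      have h8 : ρ - 3 + 3 = ρ := by ring
      rw [h8] at h7
      exact h7
    obtain ⟨k, hk, hk'⟩ := h_DIV X.toPO Y.toPO I l e ρ hI hl i hiH hi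
    refine ⟨h2, ?_⟩
    have h9 : b - dd X.toPO Y.toPO s k ∈ IM I Y.ι X.ι := by
      refine IM_NZ hNZ ?_
      have h10 : l • (b - dd X.toPO Y.toPO s k) =
          dd X.toPO Y.toPO s (i - l • k) - (dd X.toPO Y.toPO s a - l • b) := by
        have h11 : dd X.toPO Y.toPO s a = dd X.toPO Y.toPO s i := by
          rw [← hbi', map_add]
          have h12 := dd_dd (f := f) (X := X) (Y := Y) hs' h
          rw [neg_neg] at h12
          rw [h12, zero_add]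
        rw [h11, map_sub, dd_smul, smul_sub]
        abel
      rw [h10]
      exact sub_mem (IM_dd hk') h3
    have h13 : b = dd X.toPO Y.toPO (-(-s)) k + (b - dd X.toPO Y.toPO s k) := by
      rw [neg_neg]; abel
    show b ∈ _
    rw [h13]
    refine add_mem (Submodule.mem_sup_left ⟨k, ?_, rfl⟩) (Submodule.mem_sup_right h9)
    have h14 : ρ + 3 - e - 3 = ρ - e := by ring
    rw [h14]
    exact hk
  · -- the kernel of `β` comes from `Zc I`
    intro v hv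
    rw [hβ0] at hv
    obtain ⟨h4, h5⟩ := hv
    obtain ⟨m', ⟨k, hk, rfl⟩, i, hi, hbi⟩ := Submodule.mem_sup.1 h5
    have h14 : ρ + 3 - e - 3 = ρ - e := by ring
    rw [h14] at hk
    have hbi' : dd X.toPO Y.toPO s k + i = v.1.2 := by
      rw [neg_neg] at hbi
      exact hbi
    have hlk : l • k ∈ HM X.toPO Y.toPO ρ := HM_smul hl hk (by ring)
    have h6 : v.1.1 - l • k ∈ Zc X.toPO Y.toPO I s ρ := by
      refine ⟨sub_mem v.2.1 hlk, ?_⟩
      show dd X.toPO Y.toPO s (v.1.1 - l • k) ∈ IM I Y.ι X.ι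
      have h7 : dd X.toPO Y.toPO s (v.1.1 - l • k) =
          (dd X.toPO Y.toPO s v.1.1 - l • v.1.2) + l • i := by
        rw [map_sub, dd_smul, ← hbi', smul_add]
        abel
      rw [h7]
      exact add_mem v.2.2.2 (IM_smul l hi)
    refine ⟨Submodule.mkQ _ ⟨_, h6⟩, ?_⟩
    symm
    refine hαv v ⟨_, hZ h6⟩ ?_
    show v.1.1 - (v.1.1 - l • k) ∈ _
    rw [sub_sub_cancel]
    exact ⟨hlk, Submodule.mem_sup_right (IM_l l k)⟩
  · -- `Zc I` is in the kernel of `β`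
    intro q
    obtain ⟨a, rfl⟩ := Submodule.mkQ_surjective _ q
    refine ⟨⟨(a.1, 0), a.2.1, zero_mem _, ?_⟩, ?_, rfl⟩
    · show dd X.toPO Y.toPO s a.1 - l • 0 ∈ IM I Y.ι X.ι
      rw [smul_zero, sub_zero]
      exact a.2.2
    · rw [hβ0]
      exact zero_mem _

end Pool.Agent.VDC
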