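import Pool.Agent.VDC.T1

namespace Pool.Agent.VDC

namespace LIN_

open Matrix

/-- entries only where the degree rises by `c` -/
def DG {ι : Type} (deg : ι → ℤ) (c : ℤ) (M : Matrix ι ι ℂ) : Prop :=
  ∀ i j, M i j ≠ 0 → deg i = deg j + c

theorem DG.mul {ι : Type} [Fintype ι] {deg : ι → ℤ} {c d : ℤ} {M N : Matrix ι ι ℂ}
    (hM : DG deg c M) (hN : DG deg d N) : DG deg (d + c) (M * N) := by
  intro i j h
  rw [Matrix.mul_apply] at h
  obtain ⟨k, -, hk⟩ := Finset.exists_ne_zero_of_sum_ne_zero h
  have h1 := hM i k (left_ne_zero_of_mul hk)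
  have h2 := hN k j (right_ne_zero_of_mul hk)
  rw [h1, h2]; ring

theorem DG.sub {ι : Type} {deg : ι → ℤ} {c : ℤ} {M N : Matrix ι ι ℂ}
    (hM : DG deg c M) (hN : DG deg c N) : DG deg c (M - N) := by
  intro i j h
  by_cases h1 : M i j = 0
  · apply hN i j
    intro h2
    apply h
    rw [Matrix.sub_apply, h1, h2, sub_zero]
  · exact hM i j h1

theorem DG.one {ι : Type} [DecidableEq ι] {deg : ι → ℤ} : DG deg 0 (1 : Matrix ι ι ℂ) := by
  intro i j h
  by_cases hij : i = j
  · rw [hij, add_zero]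
  · exact absurd (Matrix.one_apply_ne hij) h

/-- a generalised inverse -/
theorem ginv {ι : Type} [Fintype ι] [DecidableEq ι] (M : Matrix ι ι ℂ) :
    ∃ N : Matrix ι ι ℂ, M * N * M = M := by
  set f : (ι → ℂ) →ₗ[ℂ] (ι → ℂ) := Matrix.toLin' M with hf
  obtain ⟨s, hs⟩ := f.rangeRestrict.exists_rightInverse_of_surjective
    (LinearMap.range_rangeRestrict f)
  obtain ⟨g, hg⟩ := LinearMap.exists_extend s
  refine ⟨LinearMap.toMatrix' g, ?_⟩
  have h1 : f ∘ₗ g ∘ₗ f = f := by
    ext1 x
    apply LinearMap.ext_ring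
    set v : ι → ℂ := LinearMap.single ℂ (fun _ => ℂ) x 1 with hv
    have h2 : g (f v) = s (f.rangeRestrict v) := LinearMap.congr_fun hg (f.rangeRestrict v)
    have h3 := LinearMap.congr_fun hs (f.rangeRestrict v)
    have h5 : f (s (f.rangeRestrict v)) = f v := congrArg Subtype.val h3
    change f (g (f v)) = f v
    rw [h2, h5]
  apply Matrix.toLin'.injective
  rw [Matrix.toLin'_mul, Matrix.toLin'_mul, Matrix.toLin'_toMatrix', LinearMap.comp_assoc]
  exact h1

end LIN_

open LIN_ in
theorem p_LIN : T_LIN := by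
  intro ι _ _ deg M hM hMM
  obtain ⟨N0, h0⟩ := ginv M
  set N1 : Matrix ι ι ℂ := Matrix.of fun i j => if deg i + 3 = deg j then N0 i j else 0 with hN1
  have d1 : DG deg (-3) N1 := by
    intro i j h
    have : deg i + 3 = deg j := by
      by_contra h2
      apply h
      rw [hN1, Matrix.of_apply, if_neg h2]
    omega
  have dM : DG deg 3 M := hM
  have e1 : M * N1 * M = M := by
    ext i j
    by_cases hij : deg i = deg j + 3
    · rw [← congrFun (congrFun h0 i) j]
      simp only [Matrix.mul_apply, Finset.sum_mul]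
      refine Finset.sum_congr rfl fun l _ => Finset.sum_congr rfl fun k _ => ?_
      by_cases h1 : M i k = 0
      · rw [h1, zero_mul, zero_mul, zero_mul, zero_mul]
      · by_cases h2 : M l j = 0
        · rw [h2, mul_zero, mul_zero]
        · have h3 := hM i k h1
          have h4 := hM l j h2
          have h5 : deg k + 3 = deg l := by omega
          rw [hN1, Matrix.of_apply, if_pos h5]
    · have h1 : M i j = 0 := by
        by_contra h2
        exact hij (hM i j h2)
      rw [h1]
      by_contra h2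
      have := (dM.mul d1).mul dM i j h2
      omega
  set N2 : Matrix ι ι ℂ := N1 * M * N1 with hN2
  have d2 : DG deg (-3) N2 := by
    have := (d1.mul dM).mul d1
    simpa using this
  have e2 : M * N2 * M = M := by
    rw [hN2]
    calc M * (N1 * M * N1) * M = (M * N1 * M) * N1 * M := by simp only [Matrix.mul_assoc]
      _ = M := by rw [e1, e1]
  have dNN : DG deg (-3) (N2 - N2 * N2 * M) := by
    refine d2.sub ?_
    have := (d2.mul d2).mul dM
    simpa using this
  refine ⟨(1 - M * N2) * (1 - N2 * M), N2 - N2 * N2 * M, ?_, ?_, ?_, ?_, ?_, ?_⟩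
  · have a1 : DG deg 0 (1 - M * N2) := DG.one.sub (by simpa using dM.mul d2)
    have a2 : DG deg 0 (1 - N2 * M) := DG.one.sub (by simpa using d2.mul dM)
    intro i j h
    have := a1.mul a2 i j h
    omega
  · intro i j h
    have := dNN i j h
    omega
  · have b1 : (N2 * M) * (M * N2) = 0 := by
      rw [Matrix.mul_assoc, ← Matrix.mul_assoc M M, hMM, Matrix.zero_mul, Matrix.mul_zero]
    have b2 : (M * N2) * (M * N2) = M * N2 := by
      rw [← Matrix.mul_assoc, e2]
    have b3 : (N2 * M) * (N2 * M) = N2 * M := by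
      rw [Matrix.mul_assoc, ← Matrix.mul_assoc M N2 M, e2]
    set a := M * N2
    set b := N2 * M
    have c1 : (1 - a) * (1 - b) * (1 - a) = (1 - a) * (1 - b) := by
      have : (1 - b) * (1 - a) = 1 - b - a := by
        rw [Matrix.mul_sub, Matrix.sub_mul 1 b a, b1]; simp
      rw [Matrix.mul_assoc, this, Matrix.mul_sub, sub_eq_self, Matrix.sub_mul, Matrix.one_mul, b2,
        sub_self]
    have c2 : (1 - b) * (1 - b) = 1 - b := by
      rw [Matrix.mul_sub, Matrix.sub_mul 1 b b, b3]; simp
    rw [← Matrix.mul_assoc ((1 - a) * (1 - b)), c1, Matrix.mul_assoc, c2]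
  · rw [← Matrix.mul_assoc, Matrix.mul_sub M, ← Matrix.mul_assoc M M, hMM, Matrix.zero_mul,
      sub_zero, Matrix.mul_one, Matrix.mul_sub, Matrix.mul_one, ← Matrix.mul_assoc, e2, sub_self]
  · rw [Matrix.mul_assoc, Matrix.sub_mul 1 (N2 * M), Matrix.mul_assoc N2, hMM, Matrix.mul_zero,
      sub_zero, Matrix.one_mul, Matrix.sub_mul, Matrix.one_mul, e2, sub_self]
  · have b4 : N2 * N2 * M * M = 0 := by
      rw [Matrix.mul_assoc, hMM, Matrix.mul_zero]
    rw [Matrix.mul_sub (1 - M * N2), Matrix.sub_mul N2, b4, Matrix.mul_sub M,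
      Matrix.sub_mul 1 (M * N2) (N2 * M), Matrix.one_mul, Matrix.mul_one]
    have b5 : M * N2 * (N2 * M) = M * (N2 * N2 * M) := by simp only [Matrix.mul_assoc]
    rw [b5]
    abel

end Pool.Agent.VDC
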