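import Pool.Agent.VDC.T2

/-!
# VDC-LINE: the line of lifts of `xi v` and the idempotents of the cones
-/

set_option autoImplicit false

open MvPolynomial CategoryTheory

noncomputable section

namespace Pool.Agent.VDC

namespace LINE_

lemma wd_nonneg (a : Fin 4 →₀ ℕ) : 0 ≤ wd a := by
  refine Finset.sum_nonneg fun i _ => mul_nonneg ?_ (Int.natCast_nonneg _)
  fin_cases i <;> simp [wt]

lemma wd_eq (a : Fin 4 →₀ ℕ) : wd a = a 0 + a 1 + a 2 + 2 * a 3 := by
  unfold wd
  rw [Fin.sum_univ_four]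
  simp [wt]

lemma hmg_neg {q : Sr} {m : ℤ} (h : Hmg q m) (hm : m < 0) : q = 0 := by
  ext a
  rw [coeff_zero]
  by_contra h1
  have h2 := h a h1
  have h3 := wd_nonneg a
  omega

/-- polynomials of degree `≤ 0` are constant -/
lemma eval_const {q : Sr} {m : ℤ} (h : Hmg q m) (hm : m < 1) (p : Fin 4 → ℂ) :
    eval p q = coeff 0 q := by
  have h1 : q = C (coeff 0 q) := by
    ext a
    rw [coeff_C]
    split_ifs with h2
    · rw [← h2]
    · by_contra h3
      have h4 := h a h3
      rw [wd_eq] at h4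
      apply h2
      ext i
      rw [Finsupp.zero_apply]
      fin_cases i <;> simp only [Fin.zero_eta, Fin.mk_one, Fin.reduceFinMk, Fin.isValue] <;> omega
  rw [h1, eval_C, coeff_C, if_pos rfl]

lemma coeff0 {q : Sr} {m : ℤ} (h : Hmg q m) (hm : m ≠ 0) : coeff 0 q = 0 := by
  by_contra h1
  have h2 := h 0 h1
  rw [wd_eq] at h2
  simp only [Finsupp.zero_apply] at h2
  exact hm (by push_cast at h2; omega)

/-- monomials -/
lemma prod_vp (v : Fin 3 → ℂ) (t : ℂ) (a : Fin 4 →₀ ℕ) :
    ∏ i, vp v t i ^ a i = v 0 ^ a 0 * v 1 ^ a 1 * v 2 ^ a 2 * t ^ a 3 := by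
  rw [Fin.prod_univ_four]
  rfl

lemma eval_quad {q : Sr} {m : ℤ} (h : Hmg q m) (hm : m = 2) (v : Fin 3 → ℂ) (t : ℂ) :
    eval (vp v t) q = eval (vp v 0) q + t * coeff (Finsupp.single 3 1) q := by
  subst hm
  rw [eval_eq', eval_eq']
  have h1 : t * coeff (Finsupp.single 3 1) q =
      ∑ a ∈ q.support, if a = Finsupp.single 3 1 then coeff a q * t else 0 := by
    rw [Finset.sum_ite_eq' q.support (Finsupp.single 3 1) fun a => coeff a q * t]
    split_ifs with h2
    · ring
    · rw [notMem_support_iff] at h2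
      rw [h2, mul_zero]
  rw [h1, ← Finset.sum_add_distrib]
  refine Finset.sum_congr rfl fun a ha => ?_
  have h2 := h a (mem_support_iff.1 ha)
  rw [wd_eq] at h2
  rw [prod_vp, prod_vp]
  split_ifs with h3
  · rw [h3]
    simp
  · have h4 : a 3 = 0 := by
      by_contra h4
      apply h3
      ext i
      fin_cases i
      · simp only [Fin.zero_eta, Fin.isValue]
        rw [Finsupp.single_eq_of_ne (by decide)]
        omega
      · simp only [Fin.mk_one, Fin.isValue]
        rw [Finsupp.single_eq_of_ne (by decide)]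
        omega
      · simp only [Fin.reduceFinMk, Fin.isValue]
        rw [Finsupp.single_eq_of_ne (by decide)]
        omega
      · simp only [Fin.reduceFinMk, Fin.isValue]
        rw [Finsupp.single_eq_same]
        omega
    rw [h4]
    simp

lemma eval_lin {q : Sr} {m : ℤ} (h : Hmg q m) (hm : m = 1) (v : Fin 3 → ℂ) (t : ℂ) :
    eval (vp v t) q = ∑ i : Fin 3, v i * coeff (Finsupp.single (Fin.castSucc i) 1) q := by
  subst hm
  have h1 : q = ∑ i : Fin 3, C (coeff (Finsupp.single (Fin.castSucc i) 1) q) *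
      X (Fin.castSucc i) := by
    ext a
    rw [coeff_sum]
    simp only [coeff_C_mul, coeff_X, mul_ite, mul_one, mul_zero]
    by_cases h2 : ∃ i : Fin 3, Finsupp.single (Fin.castSucc i) 1 = a
    · obtain ⟨i, rfl⟩ := h2
      rw [Finset.sum_eq_single i]
      · rw [if_pos rfl]
      · intro j _ hj
        rw [if_neg]
        intro h3
        rcases (Finsupp.single_left_inj one_ne_zero).1 h3 with h4
        exact hj (Fin.castSucc_injective _ h4)
      · intro h3
        exact absurd (Finset.mem_univ i) h3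
    · rw [Finset.sum_eq_zero]
      · by_contra h3
        have h4 := h a h3
        rw [wd_eq] at h4
        apply h2
        have h5 : a 3 = 0 := by omega
        have h6 : (a 0 = 1 ∧ a 1 = 0 ∧ a 2 = 0) ∨ (a 0 = 0 ∧ a 1 = 1 ∧ a 2 = 0) ∨
            (a 0 = 0 ∧ a 1 = 0 ∧ a 2 = 1) := by omega
        rcases h6 with ⟨h7, h8, h9⟩ | ⟨h7, h8, h9⟩ | ⟨h7, h8, h9⟩
        · refine ⟨0, ?_⟩
          ext i
          fin_cases i <;> simp [h5, h7, h8, h9]
        · refine ⟨1, ?_⟩
          ext i
          fin_cases i <;> simp [h5, h7, h8, h9]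
        · refine ⟨2, ?_⟩
          ext i
          fin_cases i <;> simp [h5, h7, h8, h9]
      · intro i _
        rw [if_neg]
        intro h3
        exact h2 ⟨i, h3⟩
  conv_lhs => rw [h1]
  rw [map_sum]
  refine Finset.sum_congr rfl fun i _ => ?_
  rw [map_mul, eval_C, eval_X, mul_comm]
  congr 1
  fin_cases i <;> rfl

lemma BF_indep (X : PO) (p q : Fin 4 → ℂ) (ρ : ℤ) : BF X p 1 ρ ≤ BF X q 1 ρ := by
  rintro γ ⟨h1, μ, hμ, h2⟩
  refine ⟨h1, μ, hμ, fun j hj => ?_⟩
  rw [h2 j hj]
  refine Finset.sum_congr rfl fun i _ => ?_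
  by_cases h3 : μ i = 0
  · rw [h3, zero_mul, zero_mul]
  · have h4 := hμ i h3
    rw [eval_const (X.hom i j) (by omega) p, eval_const (X.hom i j) (by omega) q]

lemma pull_indep (X A : PO) (p q : Fin 4 → ℂ) (r ρ : ℤ) {γ : A.ι → ℂ} (hγ : γ ∈ Fn A 1 r)
    {g : Matrix A.ι X.ι Sr} (hg : g ∈ HM X A (ρ - r)) :
    pull X A p 1 ρ γ g = pull X A q 1 ρ γ g := by
  funext j
  unfold pull
  split_ifs with hj
  · refine Finset.sum_congr rfl fun i _ => ?_
    by_cases h3 : γ i = 0
    · rw [h3, zero_mul, zero_mul]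
    · have h4 := hγ i h3
      rw [eval_const (hg i j) (by omega) p, eval_const (hg i j) (by omega) q]
  · rfl

lemma dl_mem {f : Sr} (X : CM f) (p : Fin 4 → ℂ) (n r : ℤ) (α : X.ι → ℂ) (hn : n ≤ 5)
    (hα : α ∈ ZF X.toPO p n r) : dl X.toPO p n r α ∈ ZF X.toPO p 1 (r + 3 - n) := by
  refine ⟨fun i hi => ?_, fun j hj => ?_⟩
  · unfold dl at hi
    split_ifs at hi with h1
    · omega
    · exact absurd rfl hi
  · have key : ∀ i, dl X.toPO p n r α i * eval p (X.Φ i j) =
        (∑ k, α k * eval p (X.Φ k i)) * eval p (X.Φ i j) := by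
      intro i
      unfold dl
      split_ifs with h1
      · rfl
      · rcases lt_or_gt_of_ne h1 with h2 | h2
        · rw [hα.2 i h2]
        · rw [hmg_neg (X.hom i j) (by omega), map_zero, mul_zero, mul_zero]
    rw [Finset.sum_congr rfl fun i _ => key i]
    have h4 : ∑ i, (∑ k, α k * eval p (X.Φ k i)) * eval p (X.Φ i j) =
        ∑ k, α k * eval p ((X.Φ * X.Φ) k j) := by
      simp only [Finset.sum_mul, Matrix.mul_apply, map_sum, map_mul, Finset.mul_sum]
      rw [Finset.sum_comm]
      simp only [mul_assoc]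
    rw [h4, X.sq]
    refine Finset.sum_eq_zero fun k _ => ?_
    rw [Matrix.neg_apply, Matrix.smul_apply, smul_eq_mul]
    by_cases hk : k = j
    · subst hk
      have h5 : α k = 0 := by
        by_contra h6
        have h7 := (hα.1 k h6).1
        omega
      rw [h5, zero_mul]
    · rw [Matrix.one_apply_ne hk, mul_zero, neg_zero, map_zero, mul_zero]

lemma sum_beta {ι : Type} [Fintype ι] [DecidableEq ι] (o : ι) (x : ι → ℂ) :
    ∑ i, (Pi.single o (1 : ℂ) : ι → ℂ) i * x i = x o := by
  rw [Finset.sum_eq_single o]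
  · rw [Pi.single_eq_same, one_mul]
  · intro j _ hj
    rw [Pi.single_eq_of_ne hj, zero_mul]
  · intro h
    exact absurd (Finset.mem_univ o) h

end LINE_

open LINE_

theorem p_LINE (h_EXT : T_EXT) (h_IDEM : T_IDEM) (h_PULL : T_PULL) (h_PULC : T_PULC) :
    T_LINE := by
  intro f hf K o hK E v g hv hg
  set β : K.ι → ℂ := Pi.single o 1 with hβ
  have hdeg : ∀ i, K.deg i ≤ 0 := fun i => by
    by_cases hi : i = o
    · rw [hi, hK.dg]
    · exact (hK.dn i hi).le
  have hsym := E.symx v g hg
  have hgd : ∀ i j, Hmg (g.1 i j) (K.deg j - (K.deg i - 2)) := g.2.1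
  -- the first cone
  have hR2 : ∀ t, Rp (cone g) (vp v t) 2 3 (Sum.elim β β) := by
    intro t
    have hcond : dl K.toPO (vp v t) 1 0 β - pull K.toPO K.toPO (vp v t) 1 (0 + 3 - 1) β g.1 ∈
        BF K.toPO (vp v t) 1 (0 + 3 - 1) := by
      have h0 : dl K.toPO (vp v t) 1 0 β -
          pull K.toPO K.toPO (vp v t) 1 (0 + 3 - 1) β g.1 = 0 := by
        funext j
        simp only [Pi.sub_apply, Pi.zero_apply, dl, pull, hβ, sum_beta]
        by_cases h1 : K.deg j = -2
        · rw [if_pos (by omega), if_pos (by omega)]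
          rw [eval_lin (K.hom o j) (by rw [hK.dg]; omega), eval_const (hgd o j)
            (by rw [hK.dg]; omega), hsym j, sub_self]
        · rw [if_neg (by omega)]
          split_ifs with h2
          · rw [hmg_neg (hgd o j) (by rw [hK.dg]; omega), map_zero, sub_self]
          · rw [sub_self]
      rw [h0]
      exact Submodule.zero_mem _
    obtain ⟨μ, hμ, hR⟩ := h_EXT f K K (vp v t) 1 0 β β g (by norm_num) (by norm_num)
      (hK.rp _) (hK.rp _) hcond
    have hμ0 : μ = 0 := by
      funext i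
      by_contra hi
      have h1 := hμ i hi
      have h2 := hdeg i
      omega
    rw [hμ0, add_zero] at hR
    exact hR
  -- the functionals `d t`
  have hdl1 : ∀ t j, dl (cone g).toPO (vp v t) 2 3 (Sum.elim β β) (Sum.inl j) =
      if K.deg j = -2 then eval (vp v t) (K.Φ o j) else 0 := by
    intro t j
    have h1 : dl (cone g).toPO (vp v t) 2 3 (Sum.elim β β) (Sum.inl j) =
        if K.deg j - 2 + 3 + 3 = 2 then ∑ i : K.ι ⊕ K.ι, (Sum.elim β β) i * eval (vp v t)
          (Matrix.fromBlocks (((1 : ℤˣ) : ℤ) • K.Φ) g.1 0 (-K.Φ) i (Sum.inl j)) else 0 := rfl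
    rw [h1, Fintype.sum_sum_type]
    simp only [Sum.elim_inl, Sum.elim_inr, Matrix.fromBlocks_apply₁₁, Matrix.fromBlocks_apply₂₁,
      Matrix.zero_apply, map_zero, mul_zero, Finset.sum_const_zero, add_zero, Units.val_one,
      one_smul, hβ, sum_beta]
    by_cases h2 : K.deg j = -2
    · rw [if_pos (by omega), if_pos h2]
    · rw [if_neg (by omega), if_neg h2]
  have hdl2 : ∀ t j, dl (cone g).toPO (vp v t) 2 3 (Sum.elim β β) (Sum.inr j) =
      if K.deg j = -1 then eval (vp v t) (g.1 o j) - eval (vp v t) (K.Φ o j) else 0 := by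
    intro t j
    have h1 : dl (cone g).toPO (vp v t) 2 3 (Sum.elim β β) (Sum.inr j) =
        if K.deg j - 3 + 3 + 3 = 2 then ∑ i : K.ι ⊕ K.ι, (Sum.elim β β) i * eval (vp v t)
          (Matrix.fromBlocks (((1 : ℤˣ) : ℤ) • K.Φ) g.1 0 (-K.Φ) i (Sum.inr j)) else 0 := rfl
    rw [h1, Fintype.sum_sum_type]
    simp only [Sum.elim_inl, Sum.elim_inr, Matrix.fromBlocks_apply₁₂, Matrix.fromBlocks_apply₂₂,
      Matrix.neg_apply, map_neg, hβ, sum_beta]
    by_cases h2 : K.deg j = -1
    · rw [if_pos (by omega), if_pos h2]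
      ring
    · rw [if_neg (by omega), if_neg h2]
  -- the lift
  obtain ⟨w, hw, hwB⟩ := (hK.rp (vp v 0)).surj (cone g) 1 4 (by norm_num)
    (dl (cone g).toPO (vp v 0) 2 3 (Sum.elim β β))
    (dl_mem (cone g) (vp v 0) 2 3 _ (by norm_num) (hR2 0).mem)
  rw [← hβ] at hwB
  have hw' : w ∈ Zc (cone g).toPO K.toPO ⊥ (((1 : ℤˣ) : ℤ)) 4 := hw
  have hβF : β ∈ Fn K.toPO 1 0 := (hK.rp (vp v 0)).mem.1
  refine ⟨cls (ofZ 4 1 w hw'), ?_, ?_⟩
  · -- composition with the inclusion
    have e1 : cls (inclM g) ≫ cls (ofZ 4 1 w hw') = cls (compM (inclM g) (ofZ 4 1 w hw')) := rfl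
    have e2 : sxx (E.xi v) =
        cls (twc 2 1 4 1 (by norm_num) (by norm_num) g : mor (tw 2 1 K) (tw 4 1 K)) := by
      rw [← hg]
      rfl
    rw [e1, e2]
    set a := compM (inclM g) (ofZ 4 1 w hw') with ha
    set b : mor (tw 2 1 K) (tw 4 1 K) := twc 2 1 4 1 (by norm_num) (by norm_num) g with hb
    have hab : a - b ∈ nul (tw 2 1 K) (tw 4 1 K) := by
      have hZ : (a - b).1 ∈ Zc K.toPO K.toPO ⊥ 1 2 := by
        have h1 := (a - b).2
        refine ⟨fun i j => ((h1.1 i j)).congr ?_, fun i j => ?_⟩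
        · show (K.deg j - 2) - (K.deg i - 4) = _
          ring
        · have h2 : (((1 : ℤˣ) : ℤ) • K.Φ) * (a - b).1 = (a - b).1 * (((1 : ℤˣ) : ℤ) • K.Φ) := h1.2
          rw [Units.val_one, one_smul] at h2
          show (K.Φ * (a - b).1 - (1 : ℤ) • ((a - b).1 * K.Φ)) i j ∈ _
          rw [h2, one_smul, sub_self]
          exact Ideal.zero_mem _
      have hB : (a - b).1 ∈ Bc K.toPO K.toPO ⊥ 1 2 := by
        rw [hK.inj 1 2 (by norm_num) _ hZ]
        intro j
        have h3 : (a - b).1 o j = ((w * (Matrix.fromRows (1 : Matrix K.ι K.ι Sr)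
            (0 : Matrix K.ι K.ι Sr)) : Matrix K.ι K.ι Sr)) o j - g.1 o j := rfl
        have h4 : ((w * (Matrix.fromRows (1 : Matrix K.ι K.ι Sr)
            (0 : Matrix K.ι K.ι Sr)) : Matrix K.ι K.ι Sr)) o j = w o (Sum.inl j) := by
          rw [Matrix.mul_apply]
          have h5 : ∑ k : K.ι ⊕ K.ι, w o k *
              (Matrix.fromRows (1 : Matrix K.ι K.ι Sr) (0 : Matrix K.ι K.ι Sr)) k j =
              w o (Sum.inl j) := by
            rw [Fintype.sum_sum_type]
            simp only [Matrix.fromRows_apply_inl, Matrix.fromRows_apply_inr, Matrix.zero_apply,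
              mul_zero, Finset.sum_const_zero, add_zero]
            rw [Finset.sum_eq_single j]
            · rw [Matrix.one_apply_eq, mul_one]
            · intro k _ hk
              rw [Matrix.one_apply_ne hk, mul_zero]
            · intro h
              exact absurd (Finset.mem_univ j) h
          exact h5
        rw [h3, h4, coeff_sub]
        have h6 : Hmg (w o (Sum.inl j)) (K.deg j - 2 + 4 - K.deg o) := hw.1 o (Sum.inl j)
        by_cases h7 : K.deg j = -2
        · obtain ⟨-, μ, hμ, h8⟩ := hwB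
          have h9 := h8 (Sum.inl j) (by show K.deg j - 2 + 4 < 1; omega)
          have h10 : ∑ i, μ i * eval (vp v 0) ((cone g).Φ i (Sum.inl j)) = 0 := by
            refine Finset.sum_eq_zero fun i _ => ?_
            rcases i with i | i
            · have : μ (Sum.inl i) = 0 := by
                by_contra h11
                have h12 : 0 ≤ K.deg i - 2 + (4 - 3) ∧ K.deg i - 2 + (4 - 3) < 1 := hμ _ h11
                have := hdeg i
                omega
              rw [this, zero_mul]
            · have : (cone g).Φ (Sum.inr i) (Sum.inl j) = 0 := rfl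
              rw [this, map_zero, mul_zero]
          rw [h10, Pi.sub_apply, hdl1, if_pos h7, sub_eq_zero] at h9
          have h11 : pull (cone g).toPO K.toPO (vp v 0) 1 4 β w (Sum.inl j) =
              coeff 0 (w o (Sum.inl j)) := by
            have h12 : pull (cone g).toPO K.toPO (vp v 0) 1 4 β w (Sum.inl j) =
              if K.deg j - 2 + 4 < 1 then ∑ i, β i * eval (vp v 0) (w i (Sum.inl j)) else 0 := rfl
            rw [h12, if_pos (by omega), hβ, sum_beta, eval_const h6 (by rw [hK.dg]; omega)]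
          rw [h11, eval_lin (K.hom o j) (by rw [hK.dg]; omega)] at h9
          rw [← h9, hsym j, sub_self]
        · rw [coeff0 h6 (by rw [hK.dg]; omega), coeff0 (hgd o j) (by rw [hK.dg]; omega), sub_self]
      obtain ⟨-, h1⟩ := hB
      obtain ⟨h, ⟨h', hh', rfl⟩, c, hc, h2⟩ := Submodule.mem_sup.1 h1
      have hc0 : c = 0 := by
        ext1 i j
        have := hc i j
        rwa [Ideal.mem_bot] at this
      rw [hc0, add_zero] at h2
      refine ⟨h', fun i j => (hh' i j).congr ?_, ?_⟩
      · show K.deg j + (2 - 3) - K.deg i = (K.deg j - 2) - 3 - (K.deg i - 4)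
        ring
      · show (a - b).1 = (((1 : ℤˣ) : ℤ) • K.Φ) * h' + h' * (((1 : ℤˣ) : ℤ) • K.Φ)
        rw [← h2, dd_apply, Units.val_one, one_smul]
        show K.Φ * h' - (-(1 : ℤ)) • (h' * K.Φ) = _
        rw [neg_smul, one_smul, sub_neg_eq_add]
    have h1 : (nul (tw 2 1 K) (tw 4 1 K)).mkQ (a - b) = 0 :=
      (Submodule.Quotient.mk_eq_zero _).2 hab
    rw [map_sub, sub_eq_zero] at h1
    exact h1
  · -- the idempotents
    intro t u hu
    obtain ⟨e, he⟩ := Submodule.mkQ_surjective (nul K (tw 1 (-1) K)) E.et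
    have hes := E.syme e he
    have hed : ∀ i j, Hmg (e.1 i j) (K.deg j - (K.deg i - 1)) := e.2.1
    set c : mor (cone g) (tw 4 1 K) :=
      compM (projM g) (twc 3 (-1) 4 1 (by norm_num) (by norm_num) e) with hc
    have e1 : cls (projM g) ≫ szy E.et = cls c := by
      rw [← he]
      rfl
    rw [e1] at hu
    have hu2 : (nul (cone g) (tw 4 1 K)).mkQ (u - (ofZ 4 1 w hw' - t • c)) = 0 := by
      rw [map_sub, map_sub, map_smul, sub_eq_zero]
      exact hu
    have hu3 : u - (ofZ 4 1 w hw' - t • c) ∈ nul (cone g) (tw 4 1 K) :=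
      (Submodule.Quotient.mk_eq_zero _).1 hu2
    obtain ⟨h, hh, hh2⟩ := hu3
    set z := u.1 - (w - t • c.1) with hz
    have hzB : z ∈ Bc (cone g).toPO K.toPO ⊥ 1 4 := by
      refine ⟨fun i j => ?_, ?_⟩
      · exact ((u - (ofZ 4 1 w hw' - t • c)).2.1 i j).congr (by
          show (cone g).deg j - (K.deg i - 4) = _
          ring)
      · refine Submodule.mem_sup_left ⟨h, fun i j => (hh i j).congr ?_, ?_⟩
        · show (cone g).deg j - 3 - (K.deg i - 4) = _
          ring
        · have h3 : z = (((1 : ℤˣ) : ℤ) • K.Φ) * h + h * (cone g).Φ := hh2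
          rw [h3, dd_apply, Units.val_one, one_smul]
          show K.Φ * h - (-(1 : ℤ)) • (h * (cone g).Φ) = _
          rw [neg_smul, one_smul, sub_neg_eq_add]
    have hu4 : u.1 = (w + z) + (-t) • c.1 := by
      rw [hz]
      simp only [neg_smul]
      abel
    have hpull := h_PULC.2.1 (cone g).toPO K.toPO (vp v t) 1 4 β 0
    have hp1 : pull (cone g).toPO K.toPO (vp v t) 1 4 β u.1 =
        pull (cone g).toPO K.toPO (vp v t) 1 4 β w + pull (cone g).toPO K.toPO (vp v t) 1 4 β z +
          (-t) • pull (cone g).toPO K.toPO (vp v t) 1 4 β c.1 := by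
      rw [hu4, (hpull (w + z) c.1 (-t)).2]
      have h5 := (hpull w z 1).2
      rw [one_smul, one_smul] at h5
      rw [h5]
    have hp2 : pull (cone g).toPO K.toPO (vp v t) 1 4 β w =
        pull (cone g).toPO K.toPO (vp v 0) 1 4 β w := pull_indep _ _ _ _ 0 4 hβF hw.1
    have hp3 : pull (cone g).toPO K.toPO (vp v t) 1 4 β z ∈ BF (cone g).toPO (vp v t) 1 4 :=
      (h_PULL f K (cone g) (vp v t) 1 0 4 1 (by norm_num)).2.2 β (hK.rp _).mem z hzB
    have hp4 : dl (cone g).toPO (vp v t) 2 3 (Sum.elim β β) =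
        dl (cone g).toPO (vp v 0) 2 3 (Sum.elim β β) +
          (-t) • pull (cone g).toPO K.toPO (vp v t) 1 4 β c.1 := by
      funext j
      rcases j with j | j
      · rw [Pi.add_apply, Pi.smul_apply, hdl1, hdl1]
        have h5 : pull (cone g).toPO K.toPO (vp v t) 1 4 β c.1 (Sum.inl j) = 0 := by
          have h6 : pull (cone g).toPO K.toPO (vp v t) 1 4 β c.1 (Sum.inl j) =
            if K.deg j - 2 + 4 < 1 then ∑ i, β i * eval (vp v t) ((e.1 * Matrix.fromCols
              (0 : Matrix K.ι K.ι Sr) (1 : Matrix K.ι K.ι Sr)) i (Sum.inl j)) else 0 := rfl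
          rw [h6, Matrix.mul_fromCols]
          simp
        rw [h5, smul_zero, add_zero]
        split_ifs with h6
        · rw [eval_lin (K.hom o j) (by rw [hK.dg]; omega),
            eval_lin (K.hom o j) (by rw [hK.dg]; omega)]
        · rfl
      · rw [Pi.add_apply, Pi.smul_apply, hdl2, hdl2]
        have h5 : pull (cone g).toPO K.toPO (vp v t) 1 4 β c.1 (Sum.inr j) =
            if K.deg j = -1 then coeff (Finsupp.single 3 1) (K.Φ o j) else 0 := by
          have h6 : pull (cone g).toPO K.toPO (vp v t) 1 4 β c.1 (Sum.inr j) =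
            if K.deg j - 3 + 4 < 1 then ∑ i, β i * eval (vp v t) ((e.1 * Matrix.fromCols
              (0 : Matrix K.ι K.ι Sr) (1 : Matrix K.ι K.ι Sr)) i (Sum.inr j)) else 0 := rfl
          rw [h6, Matrix.mul_fromCols]
          simp only [Matrix.mul_one, Matrix.fromCols_apply_inr, hβ, sum_beta]
          by_cases h7 : K.deg j = -1
          · rw [if_pos (by omega), if_pos h7, eval_const (hed o j) (by rw [hK.dg]; omega), hes j]
          · rw [if_neg h7]
            split_ifs with h8
            · rw [hmg_neg (hed o j) (by rw [hK.dg]; omega), map_zero]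
            · rfl
        rw [h5]
        split_ifs with h6
        · rw [eval_lin (hgd o j) (by rw [hK.dg]; omega),
            eval_lin (hgd o j) (by rw [hK.dg]; omega),
            eval_quad (K.hom o j) (by rw [hK.dg]; omega) v t, smul_eq_mul]
          ring
        · simp
    have hcond : dl (cone g).toPO (vp v t) 2 3 (Sum.elim β β) -
        pull (cone g).toPO K.toPO (vp v t) 1 (3 + 3 - 2) β u.1 ∈
          BF (cone g).toPO (vp v t) 1 (3 + 3 - 2) := by
      show dl (cone g).toPO (vp v t) 2 3 (Sum.elim β β) -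
        pull (cone g).toPO K.toPO (vp v t) 1 4 β u.1 ∈ BF (cone g).toPO (vp v t) 1 4
      rw [hp1, hp2, hp4]
      have h5 : dl (cone g).toPO (vp v 0) 2 3 (Sum.elim β β) +
          (-t) • pull (cone g).toPO K.toPO (vp v t) 1 4 β c.1 -
          (pull (cone g).toPO K.toPO (vp v 0) 1 4 β w +
            pull (cone g).toPO K.toPO (vp v t) 1 4 β z +
            (-t) • pull (cone g).toPO K.toPO (vp v t) 1 4 β c.1) =
          (dl (cone g).toPO (vp v 0) 2 3 (Sum.elim β β) -
            pull (cone g).toPO K.toPO (vp v 0) 1 4 β w) -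
            pull (cone g).toPO K.toPO (vp v t) 1 4 β z := by
        abel
      rw [h5]
      exact Submodule.sub_mem _ (BF_indep _ _ _ _ hwB) hp3
    obtain ⟨μ, -, hR⟩ := h_EXT f (cone g) K (vp v t) 2 3 (Sum.elim β β) β u (by norm_num)
      (by norm_num) (hR2 t) (hK.rp _) hcond
    exact h_IDEM f hf (cone u) v t _ _ hv hR

end Pool.Agent.VDC
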