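import Pool.Agent.VDC.T1

/-!
# VDC, MINS: ideals generated by powers of variables
-/

set_option autoImplicit false

open MvPolynomial CategoryTheory

noncomputable section

namespace Pool.Agent.VDC

theorem p_MINS : T_MINS := by
  constructor
  · intro n
    simp [mI]
  · intro J n r
    simp only [mI, Finset.coe_insert, Set.image_insert_eq]
    rw [Set.insert_eq, Ideal.span_union, sup_comm]

end Pool.Agent.VDC
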