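import Pool.Agent.VDC.T1

/-!
# MP_3d82e4: the target MMEM (helper9)

Membership in a monomial ideal.
-/

set_option autoImplicit false

open MvPolynomial

noncomputable section

namespace Pool.Agent.VDC

/-- MMEM -/
theorem p_MMEM : T_MMEM := by
  intro J n p
  have h1 : (fun j => (X j : Sr) ^ n j) '' (J : Set (Fin 4)) =
      (fun s => monomial s (1 : ℂ)) '' ((fun j => Finsupp.single j (n j)) '' (J : Set (Fin 4))) := by
    rw [Set.image_image]
    refine Set.image_congr fun j _ => ?_
    rw [X_pow_eq_monomial]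
  unfold mI
  rw [h1, mem_ideal_span_monomial_image]
  constructor
  · intro h a ha
    obtain ⟨s, ⟨j, hj, rfl⟩, hs⟩ := h a (mem_support_iff.2 ha)
    refine ⟨j, hj, ?_⟩
    have := hs j
    simpa using this
  · intro h a ha
    obtain ⟨j, hj, hs⟩ := h a (mem_support_iff.1 ha)
    exact ⟨Finsupp.single j (n j), ⟨j, hj, rfl⟩, Finsupp.single_le_iff.2 hs⟩

end Pool.Agent.VDC
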