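import Pool.Agent.VDC.T1

/-!
# VDC: MNZ (helper13)
-/

set_option autoImplicit false

open MvPolynomial CategoryTheory

noncomputable section

namespace Pool.Agent.VDC

theorem MNZ_coeff (r : Fin 4) (m : ℕ) (p : Sr) (a : Fin 4 →₀ ℕ) :
    coeff (a + Finsupp.single r m) ((X r : Sr) ^ m * p) = coeff a p := by
  rw [mul_comm, X_pow_eq_monomial, coeff_mul_monomial, mul_one]

theorem p_MNZ (h1 : T_MMEM) : T_MNZ := by
  intro J n r hr p hp
  rw [h1] at hp ⊢
  intro a ha
  obtain ⟨j, hj, hle⟩ := hp (a + Finsupp.single r (n r)) (by rw [MNZ_coeff]; exact ha)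
  refine ⟨j, hj, ?_⟩
  have hjr : r ≠ j := fun h => hr (h ▸ hj)
  rw [Finsupp.add_apply, Finsupp.single_apply, if_neg hjr, add_zero] at hle
  exact hle

end Pool.Agent.VDC
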