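import Pool.Agent.VDC.T2

/-!
# VDC-MU0: the image of `k` is killed by polynomials of degree `2`
-/

set_option autoImplicit false

open MvPolynomial CategoryTheory

noncomputable section

namespace Pool.Agent.VDC

namespace MU0_

/-- multiplication by a polynomial of degree `2` as a natural transformation -/
def nt (f : Sr) (h : Sr) (hh : Hmg h 2) : 𝟭 (CM f) ⟶ twF f 2 1 where
  app X := cls (mu h hh X)
  naturality X Y g := by
    obtain ⟨g, rfl⟩ := Submodule.mkQ_surjective _ g
    refine congrArg (nul X (tw 2 1 Y)).mkQ (Subtype.ext ?_)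
    show (h • (1 : Matrix Y.ι Y.ι Sr)) * g.1 = g.1 * (h • (1 : Matrix X.ι X.ι Sr))
    rw [Matrix.smul_mul, Matrix.mul_smul, Matrix.one_mul, Matrix.mul_one]

end MU0_

theorem p_MU0 (hNAT : T_NAT) : T_MU0 := by
  intro f f' F hF hA hI K o E h hh
  obtain ⟨I⟩ := hI
  let η : 𝟭 (CM f) ⟶ twF f 2 1 :=
    { app := fun X => F.preimage ((MU0_.nt f' h hh).app (F.obj X) ≫ I.inv.app X)
      naturality := fun X Y g => by
        apply F.map_injective
        rw [F.map_comp, F.map_comp, F.map_preimage, F.map_preimage]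
        have h1 := (MU0_.nt f' h hh).naturality (F.map g)
        have h2 := I.inv.naturality g
        have h3 : F.map ((𝟭 (CM f)).map g) = (𝟭 (CM f')).map (F.map g) := rfl
        have h4 : (F ⋙ twF f' 2 1).map g = (twF f' 2 1).map (F.map g) := rfl
        have h5 : (twF f 2 1 ⋙ F).map g = F.map ((twF f 2 1).map g) := rfl
        rw [h3, ← Category.assoc, h1, Category.assoc, Category.assoc, ← h4, ← h5]
        exact congrArg _ h2 }
  have h1 : η.app K = 0 := hNAT f K o E η
  have h2 : F.map (η.app K) = (MU0_.nt f' h hh).app (F.obj K) ≫ I.inv.app K :=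
    F.map_preimage _
  have h3 : F.map (η.app K) = 0 := by
    rw [h1]
    exact F.map_zero _ _
  have h4 : (MU0_.nt f' h hh).app (F.obj K) =
      ((MU0_.nt f' h hh).app (F.obj K) ≫ I.inv.app K) ≫ I.hom.app K := by
    rw [Category.assoc, I.inv_hom_id_app]
    exact (Category.comp_id _).symm
  show (MU0_.nt f' h hh).app (F.obj K) = 0
  rw [h4, ← h2, h3]
  exact Limits.zero_comp

end Pool.Agent.VDC
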