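import Pool.Agent.VDC.T2

/-!
# VDC: proof of NAT
-/

set_option autoImplicit false

open MvPolynomial CategoryTheory

noncomputable section

namespace Pool.Agent.VDC.NAT_

open Pool.Agent.VDC

variable {f : Sr} {K : CM f} {o : K.ι}

theorem et_cancel (A : XE K o) {v w : Fin 3 → ℂ}
    (h : A.et ≫ syx (A.xi w) = A.et ≫ syx (A.xi v)) : w = v := by
  have h1 : A.et ≫ syx (A.xi (w - v)) = 0 := by
    rw [map_sub, map_sub, Preadditive.comp_sub, h, sub_self]
  rw [A.comm] at h1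
  exact sub_eq_zero.1 (A.nz _ h1)

theorem eq_zero_of_sxx (A : XE K o) {v : Fin 3 → ℂ}
    (h : ∀ w, A.xi v ≫ sxx (A.xi w) = 0) : v = 0 := by
  by_contra hv
  have h1 : 1 < Module.finrank ℂ (Fin 3 → ℂ) := by
    rw [Module.finrank_fin_fun]
    norm_num
  obtain ⟨w, hw⟩ := exists_linearIndependent_pair_of_one_lt_finrank h1 hv
  exact A.prod v w (h w) hw

end Pool.Agent.VDC.NAT_

namespace Pool.Agent.VDC

open NAT_

theorem p_NAT (h_TWQ : T_TWQ) (h_TWP : T_TWP) (h_TWI : T_TWI) : T_NAT := by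
  intro f K o A η
  obtain ⟨v, hv⟩ := A.xi.surjective (η.app K)
  obtain ⟨j1, hj1⟩ := h_TWI f 2 1 3 1 (-1) (-1) (by norm_num) (by norm_num) K
  obtain ⟨j2, hj2⟩ := h_TWI f 2 2 4 1 1 1 (by norm_num) (by norm_num) K
  -- `η` at `A1 = tw 1 (-1) K`
  obtain ⟨b1, hb1⟩ := (h_TWQ f K K 2 1 1 (-1) 3 (-1) (by norm_num) (by norm_num)).2
    (η.app (tw 1 (-1) K) ≫ j1.hom)
  obtain ⟨v1, rfl⟩ := A.xi.surjective b1
  -- `η` at `A2 = tw 2 1 K`
  obtain ⟨b2, hb2⟩ := (h_TWQ f K K 2 1 2 1 4 1 (by norm_num) (by norm_num)).2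
    (η.app (tw 2 1 K) ≫ j2.hom)
  obtain ⟨v2, rfl⟩ := A.xi.surjective b2
  -- naturality for `et`
  have e1 : v1 = v := by
    apply et_cancel A
    have n1 : A.et ≫ η.app (tw 1 (-1) K) = η.app K ≫ (twF f 2 1).map A.et := η.naturality A.et
    calc A.et ≫ syx (A.xi v1) = A.et ≫ (η.app (tw 1 (-1) K) ≫ j1.hom) := by
          rw [← hb1]
          rfl
      _ = η.app K ≫ ((twF f 2 1).map A.et ≫ j1.hom) := by
          rw [← Category.assoc, n1, Category.assoc]
      _ = A.xi v ≫ sxy A.et := by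
          rw [hj1, ← hv]
          rfl
      _ = A.et ≫ syx (A.xi v) := (A.comm v).symm
  -- `j1` explicitly
  have hj1' : j1.hom = twq 2 1 3 (-1) (by norm_num) (by norm_num) (𝟙 (tw 1 (-1) K)) := by
    have h := hj1 (tw 1 (-1) K) (𝟙 (tw 1 (-1) K))
    have h2 : (twF f 2 1).map (𝟙 (tw 1 (-1) K)) = 𝟙 _ := (twF f 2 1).map_id _
    rw [h2, Category.id_comp] at h
    exact h
  -- naturality for the shift of `et`
  have e2 : v2 = v1 := by
    apply et_cancel A
    set et' : tw 1 (-1) K ⟶ tw 2 1 K :=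
      twq 1 (-1) 2 1 (by norm_num) (by norm_num) A.et with het'
    have n1 : et' ≫ η.app (tw 2 1 K) = η.app (tw 1 (-1) K) ≫ (twF f 2 1).map et' :=
      η.naturality et'
    have q1 : (twF f 2 1).map et' ≫ j2.hom = j1.hom ≫ szy A.et := by
      rw [hj2, hj1']
      have h := h_TWP f (tw 1 (-1) K) K K 1 (-1) 1 (-1) 2 1 3 (-1) (by norm_num) (by norm_num)
        2 1 (by norm_num) (by norm_num) 4 1 (by norm_num) (by norm_num) (by norm_num)
        (by norm_num) (𝟙 (tw 1 (-1) K)) A.et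
      rw [Category.id_comp] at h
      exact h.symm
    have l1 : et' ≫ sxx (A.xi v2) = twq 1 (-1) 4 1 (by norm_num) (by norm_num)
        (A.et ≫ syx (A.xi v2)) :=
      h_TWP f K K K 1 (-1) 2 1 1 (-1) 2 1 (by norm_num) (by norm_num) 3 (-1) (by norm_num)
        (by norm_num) 4 1 (by norm_num) (by norm_num) (by norm_num) (by norm_num) A.et (A.xi v2)
    have l2 : syx (A.xi v1) ≫ szy A.et = twq 1 (-1) 4 1 (by norm_num) (by norm_num)
        (A.xi v1 ≫ sxy A.et) :=
      h_TWP f K K K 2 1 1 (-1) 1 (-1) 3 (-1) (by norm_num) (by norm_num) 3 (-1) (by norm_num)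
        (by norm_num) 4 1 (by norm_num) (by norm_num) (by norm_num) (by norm_num) (A.xi v1) A.et
    have l3 : et' ≫ sxx (A.xi v2) = syx (A.xi v1) ≫ szy A.et := by
      calc et' ≫ sxx (A.xi v2) = et' ≫ (η.app (tw 2 1 K) ≫ j2.hom) := by
            rw [← hb2]
            rfl
        _ = η.app (tw 1 (-1) K) ≫ ((twF f 2 1).map et' ≫ j2.hom) := by
            rw [← Category.assoc, n1, Category.assoc]
        _ = (η.app (tw 1 (-1) K) ≫ j1.hom) ≫ szy A.et := by
            rw [q1, Category.assoc]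
            rfl
        _ = syx (A.xi v1) ≫ szy A.et := by
            rw [← hb1]
            rfl
    rw [l1, l2] at l3
    have l4 := (h_TWQ f K K 3 (-1) 1 (-1) 4 1 (by norm_num) (by norm_num)).1 l3
    rw [l4, A.comm]
  -- naturality for `xi w`
  have e3 : ∀ w, A.xi v ≫ sxx (A.xi w) = 0 := by
    intro w
    have n1 : A.xi w ≫ η.app (tw 2 1 K) = η.app K ≫ (twF f 2 1).map (A.xi w) :=
      η.naturality (A.xi w)
    have l1 : A.xi w ≫ sxx (A.xi v2) = A.xi v ≫ sxx (A.xi w) := by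
      calc A.xi w ≫ sxx (A.xi v2) = A.xi w ≫ (η.app (tw 2 1 K) ≫ j2.hom) := by
            rw [← hb2]
            rfl
        _ = η.app K ≫ ((twF f 2 1).map (A.xi w) ≫ j2.hom) := by
            rw [← Category.assoc, n1, Category.assoc]
        _ = A.xi v ≫ sxx (A.xi w) := by
            rw [hj2, ← hv]
            rfl
    rw [e2, e1, A.anti w v] at l1
    have l2 : (2 : ℂ) • (A.xi v ≫ sxx (A.xi w)) = 0 := by
      rw [two_smul]
      nth_rewrite 1 [← l1]
      exact neg_add_cancel _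
    exact (smul_eq_zero.1 l2).resolve_left (by norm_num)
  have e4 := eq_zero_of_sxx A e3
  rw [← hv, e4, map_zero]
  rfl

end Pool.Agent.VDC
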