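import Pool.Agent.VDC.T1

/-!
# VDC: sums and multiples of polynomials acting by zero
-/

set_option autoImplicit false

open MvPolynomial CategoryTheory

noncomputable section

namespace Pool.Agent.VDC

theorem p_NHA : T_NHA := by
  refine ⟨?_, ?_, ?_⟩
  · rintro X h h' e ⟨l, hl, h1⟩ ⟨l', hl', h1'⟩
    refine ⟨l + l', add_mem hl hl', ?_⟩
    rw [Matrix.mul_add, Matrix.add_mul, add_smul, ← h1, ← h1']
    abel
  · rintro X h q e d ⟨l, hl, h1⟩ hq
    refine ⟨q • l, fun i j => ?_, ?_⟩
    · have h2 : Hmg (q * l i j) (d + (X.deg j + (e - 3) - X.deg i)) := hq.mul (hl i j)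
      exact h2.congr (by ring)
    · rw [Matrix.mul_smul, Matrix.smul_mul, ← smul_add, h1, smul_smul]
  · intro X e
    exact ⟨0, zero_mem _, by simp⟩

end Pool.Agent.VDC
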