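import Pool.Agent.VDC.T1

/-!
# VDC: acting by zero and the category
-/

set_option autoImplicit false

open MvPolynomial CategoryTheory

noncomputable section

namespace Pool.Agent.VDC

theorem p_NHQ : T_NHQ := by
  intro f Y h hh
  have h0 : cls (mu h hh Y) = 0 ↔ mu h hh Y ∈ nul Y (tw 2 1 Y) :=
    Submodule.Quotient.mk_eq_zero _
  rw [h0]
  constructor
  · rintro ⟨l, hl, h1⟩
    refine ⟨l, fun i j => (hl i j).congr
      (by show Y.deg j - 3 - (Y.deg i - 2) = Y.deg j + (2 - 3) - Y.deg i; ring), ?_⟩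
    have h2 : h • (1 : Matrix Y.ι Y.ι Sr) = (((1 : ℤˣ) : ℤ) • Y.Φ) * l + l * Y.Φ := h1
    rw [h2]
    simp
  · rintro ⟨l, hl, h1⟩
    refine ⟨l, fun i j => (hl i j).congr
      (by show Y.deg j + (2 - 3) - Y.deg i = Y.deg j - 3 - (Y.deg i - 2); ring), ?_⟩
    show h • (1 : Matrix Y.ι Y.ι Sr) = (((1 : ℤˣ) : ℤ) • Y.Φ) * l + l * Y.Φ
    rw [← h1]
    simp

end Pool.Agent.VDC
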