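import Pool.Agent.VDC.T2

/-! NRM: normalisation of the equivalence. -/

set_option autoImplicit false

open MvPolynomial CategoryTheory

noncomputable section

namespace Pool.Agent.VDC

theorem p_NRM (hTW : T_TW) (hTWC : T_TWC) (hV : T_VCOM) : T_NRM := by
  intro f f' hf hf' ⟨E₀⟩ K K' hK
  obtain ⟨m, ⟨a⟩⟩ := hK E₀
  obtain ⟨E, hE⟩ := hTW f f' E₀ (-m) m.negOnePow
  have h1 : Nonempty (E.F.obj K ≅ K') := by
    rw [hE]
    obtain ⟨⟨b⟩, -⟩ := hTWC f' m (-m) m.negOnePow m.negOnePow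
    obtain ⟨-, ⟨c⟩⟩ := hTWC f' m (-m) m.negOnePow m.negOnePow
    have e1 : m + -m = 0 := by ring
    have e2 : m.negOnePow * m.negOnePow = 1 := Int.units_mul_self _
    rw [e1, e2] at b
    exact ⟨(twF f' (-m) m.negOnePow).mapIso a ≪≫ b.app K' ≪≫ c.app K'⟩
  obtain ⟨i⟩ := h1
  have key : ∀ ρ : ℤ, Nonempty (E.F.obj (tw ρ ρ.negOnePow K) ≅ tw ρ ρ.negOnePow K') := by
    intro ρ
    obtain ⟨v⟩ := hV f f' hf hf' E ρ
    exact ⟨v.app K ≪≫ (twF f' ρ ρ.negOnePow).mapIso i⟩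
  have h2 : (2 : ℤ).negOnePow = 1 := Int.negOnePow_even 2 ⟨1, rfl⟩
  have h4 : (4 : ℤ).negOnePow = 1 := Int.negOnePow_even 4 ⟨2, rfl⟩
  have k2 := key 2
  have k4 := key 4
  rw [h2] at k2
  rw [h4] at k4
  exact ⟨E, ⟨i⟩, k2, k4⟩

end Pool.Agent.VDC
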