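import Pool.Agent.VDC.T1

/-!
# VDC, target NUL: homogeneous Nullstellensatz for the derivatives of f
-/

set_option autoImplicit false

open MvPolynomial CategoryTheory

noncomputable section

namespace Pool.Agent.VDC

theorem NUL_pow (f : Sr) (hf : ∀ p : Fin 4 → ℂ, (∀ i, eval p (pderiv i f) = 0) → p = 0)
    (i : Fin 4) : ∃ n : ℕ, (X i : Sr) ^ n ∈ Ideal.span (Set.range fun j => pderiv j f) := by
  have h1 : (X i : Sr) ∈ (Ideal.span (Set.range fun j => pderiv j f)).radical := by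
    rw [← vanishingIdeal_zeroLocus_eq_radical (K := ℂ)]
    intro x hx
    have h2 : x = 0 := by
      refine hf x fun j => ?_
      have h3 := hx (pderiv j f) (Ideal.subset_span ⟨j, rfl⟩)
      rw [aeval_eq_eval] at h3
      exact h3
    rw [h2, aeval_X]
    rfl
  exact h1

theorem NUL_hX (i : Fin 4) (N : ℕ) : Hmg ((X i : Sr) ^ N) (N * wt i) := by
  rw [hmg_iff]
  have h := (isWeightedHomogeneous_X ℂ wt i).pow N
  rw [nsmul_eq_mul] at h
  exact h

theorem NUL_hD (f : Sr) (hf : Hmg f 6) (j : Fin 4) : Hmg (pderiv j f) (6 - wt j) := by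
  rw [hmg_iff] at hf ⊢
  exact hf.pderiv (by ring)

theorem p_NUL (h_CMP : T_CMP) : T_NUL := by
  intro f hf hz
  obtain ⟨c1, c2, -, c4⟩ := h_CMP
  choose n hn using NUL_pow f hz
  refine ⟨∑ i, n i + 1, by omega, fun i => ?_⟩
  have h1 : (X i : Sr) ^ (∑ i, n i + 1) ∈ Ideal.span (Set.range fun j => pderiv j f) := by
    have h2 : n i ≤ ∑ i, n i + 1 :=
      (Finset.single_le_sum (fun _ _ => Nat.zero_le _) (Finset.mem_univ i)).trans (Nat.le_succ _)
    obtain ⟨k, hk⟩ := Nat.exists_eq_add_of_le h2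
    rw [hk, pow_add]
    exact Ideal.mul_mem_right _ _ (hn i)
  obtain ⟨N, hN⟩ : ∃ N : ℕ, N = ∑ i, n i + 1 := ⟨_, rfl⟩
  rw [← hN] at h1 ⊢
  obtain ⟨c, hc⟩ := Ideal.mem_span_range_iff_exists_fun.1 h1
  refine ⟨fun j => cmp (N * wt i - (6 - wt j)) (c j), fun j => c1 _ _, ?_⟩
  have h3 : cmp (N * wt i) ((X i : Sr) ^ N) = (X i : Sr) ^ N := c2 _ _ (NUL_hX i N)
  rw [← h3, ← hc]
  unfold cmp at c4 ⊢
  rw [map_sum]
  refine Finset.sum_congr rfl fun j _ => ?_
  have h4 := c4 (pderiv j f) (6 - wt j) (c j) (N * wt i) (NUL_hD f hf j)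
  rw [mul_comm (c j) (pderiv j f), h4, mul_comm]

end Pool.Agent.VDC
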