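import Pool.Agent.VDC.T1

/-!
# VDC: PK, the dimensions of the endomorphisms of `k` (helper1)
-/

set_option autoImplicit false

open MvPolynomial CategoryTheory

noncomputable section

namespace Pool.Agent.VDC

namespace PK_

/-! ### generators -/

/-- the number of generators of degree `n` -/
def cnt (Y : PO) (n : ℤ) : ℕ := Fintype.card {i : Y.ι // Y.deg i = n}

lemma cnt_UU (m n : ℤ) : cnt (UU m) n = if n = m then 1 else 0 := by
  unfold cnt
  split_ifs with h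
  · rw [Fintype.card_eq_one_iff]
    exact ⟨⟨(), h.symm⟩, fun y => Subtype.ext rfl⟩
  · rw [Fintype.card_eq_zero_iff]
    exact ⟨fun y => h y.2.symm⟩

lemma cnt_TT (Y : PO) (l a : Sr) (e : ℤ) (hl : Hmg l e) (ha : Hmg a (6 - e)) (n : ℤ) :
    cnt (TT Y l a e hl ha) n = cnt Y n + cnt Y (n - 3 + e) := by
  unfold cnt
  rw [← Fintype.card_sum]
  refine Fintype.card_congr ?_
  refine ⟨fun x => ?_, fun x => ?_, fun x => ?_, fun x => ?_⟩
  · obtain ⟨x, hx⟩ := x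
    rcases x with x | x
    · exact Sum.inl ⟨x, hx⟩
    · refine Sum.inr ⟨x, ?_⟩
      have h : Y.deg x + 3 - e = n := hx
      omega
  · rcases x with x | x
    · exact ⟨Sum.inl x.1, x.2⟩
    · refine ⟨Sum.inr x.1, ?_⟩
      have h := x.2
      show Y.deg x.1 + 3 - e = n
      omega
  · obtain ⟨x, hx⟩ := x
    rcases x with x | x <;> rfl
  · rcases x with x | x <;> rfl

lemma cnt_kk {f : Sr} (D : KA f) (ρ : ℤ) : cnt (kk D).toPO (-ρ) = pk ρ := by
  have e0 : D.kd.e 0 = 1 := rfl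
  have e1 : D.kd.e 1 = 1 := rfl
  have e2 : D.kd.e 2 = 1 := rfl
  have e3 : D.kd.e 3 = 2 := rfl
  show cnt (TT (TT (TT (TT (UU (-7)) (D.kd.l 1) (D.kd.a 1) (D.kd.e 1) (D.kd.hl 1) (D.kd.ha 1))
    (D.kd.l 2) (D.kd.a 2) (D.kd.e 2) (D.kd.hl 2) (D.kd.ha 2)) (D.kd.l 3) (D.kd.a 3)
    (D.kd.e 3) (D.kd.hl 3) (D.kd.ha 3))
    (D.kd.l 0) (D.kd.a 0) (D.kd.e 0) (D.kd.hl 0) (D.kd.ha 0)) (-ρ) = pk ρ
  simp only [cnt_TT, cnt_UU, e0, e1, e2, e3]
  unfold pk
  by_cases h : ρ < 0 ∨ 7 < ρ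
  · repeat rw [if_neg (by omega)]
  · have h1 : 0 ≤ ρ := by omega
    have h2 : ρ ≤ 7 := by omega
    interval_cases ρ <;> decide

/-! ### the entries of `Φ` vanish at the origin -/

lemma eval_zero_of_hmg {p : Sr} {m : ℤ} (hp : Hmg p m) (hm : m ≠ 0) :
    eval (0 : Fin 4 → ℂ) p = 0 := by
  have h1 : eval (0 : Fin 4 → ℂ) p = coeff 0 p := by
    have := MvPolynomial.constantCoeff_eq (R := ℂ) (σ := Fin 4)
    rw [← this, ← MvPolynomial.eval_zero]
  rw [h1]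
  by_contra h2
  exact hm ((hp 0 h2).symm.trans (by simp [wd]))

lemma ev_TT (Y : PO) (l a : Sr) (e : ℤ) (hl : Hmg l e) (ha : Hmg a (6 - e)) (he : e ≠ 0)
    (he6 : e ≠ 6) (hY : ∀ i j, eval (0 : Fin 4 → ℂ) (Y.Φ i j) = 0) :
    ∀ i j, eval (0 : Fin 4 → ℂ) ((TT Y l a e hl ha).Φ i j) = 0 := by
  have hl0 := eval_zero_of_hmg hl he
  have ha0 := eval_zero_of_hmg ha (by omega : 6 - e ≠ 0)
  rintro (i | i) (j | j)
  · exact hY i j
  · show eval 0 ((a • (1 : Matrix Y.ι Y.ι Sr)) i j) = 0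
    rw [Matrix.smul_apply, smul_eq_mul, map_mul, ha0, zero_mul]
  · show eval 0 ((l • (1 : Matrix Y.ι Y.ι Sr)) i j) = 0
    rw [Matrix.smul_apply, smul_eq_mul, map_mul, hl0, zero_mul]
  · show eval 0 ((-Y.Φ) i j) = 0
    rw [Matrix.neg_apply, map_neg, hY i j, neg_zero]

lemma ev_kk {f : Sr} (D : KA f) : ∀ i j, eval (0 : Fin 4 → ℂ) ((kk D).Φ i j) = 0 := by
  have e0 : D.kd.e 0 = 1 := rfl
  have e1 : D.kd.e 1 = 1 := rfl
  have e2 : D.kd.e 2 = 1 := rfl
  have e3 : D.kd.e 3 = 2 := rfl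
  refine ev_TT _ _ _ _ (D.kd.hl 0) (D.kd.ha 0) (by omega) (by omega) ?_
  refine ev_TT _ _ _ _ (D.kd.hl 3) (D.kd.ha 3) (by omega) (by omega) ?_
  refine ev_TT _ _ _ _ (D.kd.hl 2) (D.kd.ha 2) (by omega) (by omega) ?_
  refine ev_TT _ _ _ _ (D.kd.hl 1) (D.kd.ha 1) (by omega) (by omega) ?_
  intro i j
  show eval 0 ((0 : Matrix Unit Unit Sr) i j) = 0
  rw [Matrix.zero_apply, map_zero]

/-! ### the functional -/

/-- the value of a functional on the generators of level `0` -/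
def L (X Y : PO) (ρ : ℤ) (α : Y.ι → ℂ) :
    Matrix Y.ι X.ι Sr →ₗ[ℂ] ({j : X.ι // X.deg j = -ρ} → ℂ) where
  toFun g j := ∑ i, α i * eval (0 : Fin 4 → ℂ) (g i j.1)
  map_add' g h := by
    funext j
    simp only [Matrix.add_apply, map_add, mul_add, Finset.sum_add_distrib, Pi.add_apply]
  map_smul' c g := by
    funext j
    simp only [Matrix.smul_apply, MvPolynomial.smul_eval, Pi.smul_apply, smul_eq_mul,
      RingHom.id_apply, Finset.mul_sum]
    refine Finset.sum_congr rfl fun i _ => ?_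
    ring

lemma bf_bot (X : PO) (hX : ∀ i j, eval (0 : Fin 4 → ℂ) (X.Φ i j) = 0) (n ρ : ℤ)
    {γ : X.ι → ℂ} (h : γ ∈ BF X 0 n ρ) : γ = 0 := by
  obtain ⟨h1, μ, -, h2⟩ := h
  funext j
  by_contra h3
  have h4 := (h1 j h3).2
  refine h3 ?_
  rw [h2 j h4]
  exact Finset.sum_eq_zero fun i _ => by rw [hX i j, mul_zero]

end PK_

open PK_ in
/-- PK: dimensions of the endomorphisms of `k` -/
theorem p_PK (h1 : T_R1) (h2 : T_PULL) : T_PK := by
  intro f D s ρ hs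
  set X : CM f := kk D with hXdef
  set α : X.ι → ℂ := top f D.kd (-7) with hα
  have hR : Rp X 0 1 0 α := h1 f D 0
  have hΦ : ∀ i j, eval (0 : Fin 4 → ℂ) (X.Φ i j) = 0 := ev_kk D
  obtain ⟨hP1, -, hP3⟩ := h2 f X X 0 1 0 ρ s hs
  rw [sub_zero] at hP1 hP3
  set Z := Zc X.toPO X.toPO ⊥ s ρ with hZ
  let M : Z →ₗ[ℂ] ({j : X.ι // X.deg j = -ρ} → ℂ) := (L X.toPO X.toPO ρ α).comp Z.subtype
  have hM : ∀ (g : Z) (j : {j : X.ι // X.deg j = -ρ}),
      M g j = pull X.toPO X.toPO 0 1 ρ α g.1 j.1 := by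
    intro g j
    have h3 : X.deg j.1 + ρ < 1 := by rw [j.2]; omega
    show ∑ i, α i * eval (0 : Fin 4 → ℂ) (g.1 i j.1) = _
    rw [pull, if_pos h3]
  have hker : LinearMap.ker M = (Bc X.toPO X.toPO ⊥ s ρ).comap Z.subtype := by
    ext g
    rw [LinearMap.mem_ker, Submodule.mem_comap]
    constructor
    · intro hg
      have h3 : pull X.toPO X.toPO 0 1 ρ α g.1 = 0 := by
        funext j
        by_contra h4
        have h5 := (hP1 α hR.mem g.1 g.2).1 j h4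
        have h6 : X.deg j = -ρ := by omega
        refine h4 ?_
        rw [← hM g ⟨j, h6⟩, hg]
        rfl
      have h4 := hR.inj X s ρ hs g.1 (by rw [sub_zero]; exact g.2)
        (by rw [h3]; exact zero_mem _)
      rw [sub_zero] at h4
      exact h4
    · intro hg
      have h3 := bf_bot X.toPO hΦ 1 ρ (hP3 α hR.mem g.1 hg)
      funext j
      rw [hM, h3]
      rfl
  have hsurj : Function.Surjective M := by
    intro γ
    let γ' : X.ι → ℂ := fun j => if h : X.deg j = -ρ then γ ⟨j, h⟩ else 0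
    have h3 : γ' ∈ ZF X.toPO 0 1 ρ := by
      refine ⟨fun i hi => ?_, fun j _ => ?_⟩
      · have h4 : X.deg i = -ρ := by
          by_contra h4
          exact hi (dif_neg h4)
        constructor <;> omega
      · exact Finset.sum_eq_zero fun i _ => by rw [hΦ i j, mul_zero]
    obtain ⟨g, hg, h4⟩ := hR.surj X s ρ hs γ' h3
    rw [sub_zero] at hg
    refine ⟨⟨g, hg⟩, ?_⟩
    have h5 := bf_bot X.toPO hΦ 1 ρ h4
    funext j
    rw [hM]
    have h6 := congrFun (sub_eq_zero.1 h5) j.1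
    rw [← h6]
    exact dif_pos j.2
  have e1 := (Submodule.quotEquivOfEq _ _ hker).symm.trans
    (LinearMap.quotKerEquivOfSurjective M hsurj)
  have h3 : hdim X.toPO X.toPO ⊥ s ρ =
      Module.finrank ℂ ({j : X.ι // X.deg j = -ρ} → ℂ) := e1.finrank_eq
  rw [h3, Module.finrank_pi]
  exact cnt_kk D ρ

end Pool.Agent.VDC
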