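import Pool.Agent.VDC.T1

/-!
# VDC-PULC: pull of compositions
-/

set_option autoImplicit false

open MvPolynomial CategoryTheory

noncomputable section

namespace Pool.Agent.VDC

namespace PULC_

lemma wd_nonneg (a : Fin 4 →₀ ℕ) : 0 ≤ wd a := by
  unfold wd
  refine Finset.sum_nonneg fun i _ => ?_
  refine mul_nonneg ?_ (Int.natCast_nonneg _)
  fin_cases i <;> simp [wt]

lemma hmg_neg {q : Sr} {m : ℤ} (h : Hmg q m) (hm : m < 0) : q = 0 := by
  ext a
  rw [coeff_zero]
  by_contra hne
  have h1 := h a hne
  have h2 := wd_nonneg a
  omega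

end PULC_

open PULC_ in
/-- PULC -/
theorem p_PULC : T_PULC := by
  refine ⟨?_, ?_, ?_⟩
  · intro X A B p n r r' ρ γ hγ g' hg' g hg
    funext j
    unfold pull
    by_cases hj : X.deg j + ρ < n
    · rw [if_pos hj, if_pos hj]
      have h1 : ∀ i, (if A.deg i + r < n then ∑ k, γ k * eval p (g' k i) else 0) *
          eval p (g i j) = ∑ k, γ k * eval p (g' k i) * eval p (g i j) := by
        intro i
        by_cases hi : A.deg i + r < n
        · rw [if_pos hi, Finset.sum_mul]
        · have h2 : g i j = 0 := hmg_neg (hg i j) (by omega)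
          rw [if_neg hi, h2]
          simp
      rw [Finset.sum_congr rfl fun i _ => h1 i, Finset.sum_comm]
      refine Finset.sum_congr rfl fun k _ => ?_
      rw [Matrix.mul_apply, map_sum, Finset.mul_sum]
      refine Finset.sum_congr rfl fun i _ => ?_
      rw [map_mul, mul_assoc]
    · rw [if_neg hj, if_neg hj]
  · intro X A p n ρ γ γ' g g' c
    constructor
    · funext j
      rw [Pi.add_apply, Pi.smul_apply]
      unfold pull
      by_cases hj : X.deg j + ρ < n
      · rw [if_pos hj, if_pos hj, if_pos hj, Finset.smul_sum, ← Finset.sum_add_distrib]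
        refine Finset.sum_congr rfl fun i _ => ?_
        rw [Pi.add_apply, Pi.smul_apply, smul_eq_mul, smul_eq_mul]
        ring
      · rw [if_neg hj, if_neg hj, if_neg hj, smul_zero, add_zero]
    · funext j
      rw [Pi.add_apply, Pi.smul_apply]
      unfold pull
      by_cases hj : X.deg j + ρ < n
      · rw [if_pos hj, if_pos hj, if_pos hj, Finset.smul_sum, ← Finset.sum_add_distrib]
        refine Finset.sum_congr rfl fun i _ => ?_
        rw [Matrix.add_apply, Matrix.smul_apply, map_add, smul_eval, smul_eq_mul]
        ring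
      · rw [if_neg hj, if_neg hj, if_neg hj, smul_zero, add_zero]
  · intro A p n ρ γ hγ
    funext j
    unfold pull
    by_cases hj : A.deg j + ρ < n
    · rw [if_pos hj, Finset.sum_eq_single j]
      · rw [Matrix.one_apply_eq, map_one, mul_one]
      · intro i _ hij
        rw [Matrix.one_apply_ne hij, map_zero, mul_zero]
      · intro h
        exact absurd (Finset.mem_univ j) h
    · rw [if_neg hj]
      by_contra hne
      exact hj (hγ j fun h => hne h.symm).2

end Pool.Agent.VDC
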