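import Pool.Agent.VDC.T1

/-!
# VDC: basic properties of `pull`
-/

set_option autoImplicit false

open MvPolynomial CategoryTheory

noncomputable section

namespace Pool.Agent.VDC

namespace PULL_

lemma wd_nonneg (a : Fin 4 →₀ ℕ) : 0 ≤ wd a := by
  refine Finset.sum_nonneg fun i _ => mul_nonneg ?_ (Int.natCast_nonneg _)
  fin_cases i <;> simp [wt]

lemma hmg_neg {q : Sr} {m : ℤ} (h : Hmg q m) (hm : m < 0) : q = 0 := by
  ext a
  rw [coeff_zero]
  by_contra h1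
  have h2 := h a h1
  have h3 := wd_nonneg a
  omega

variable {ι κ ν : Type} [Fintype ι] [Fintype κ] [Fintype ν]

lemma row_mul (p : Fin 4 → ℂ) (γ : ι → ℂ) (g : Matrix ι κ Sr) (h : Matrix κ ν Sr) (k : ν) :
    ∑ j, (∑ i, γ i * eval p (g i j)) * eval p (h j k) = ∑ i, γ i * eval p ((g * h) i k) := by
  simp only [Matrix.mul_apply, map_sum, map_mul, Finset.sum_mul, Finset.mul_sum, mul_assoc]
  rw [Finset.sum_comm]

lemma row_zsmul (p : Fin 4 → ℂ) (γ : ι → ℂ) (g : Matrix ι κ Sr) (s : ℤ) (k : κ) :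
    ∑ i, γ i * eval p ((s • g) i k) = s * ∑ i, γ i * eval p (g i k) := by
  rw [Finset.mul_sum]
  refine Finset.sum_congr rfl fun i _ => ?_
  rw [Matrix.smul_apply, map_zsmul, zsmul_eq_mul]
  ring

lemma row_add (p : Fin 4 → ℂ) (γ : ι → ℂ) (g h : Matrix ι κ Sr) (k : κ) :
    ∑ i, γ i * eval p ((g + h) i k) =
      ∑ i, γ i * eval p (g i k) + ∑ i, γ i * eval p (h i k) := by
  rw [← Finset.sum_add_distrib]
  refine Finset.sum_congr rfl fun i _ => ?_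
  rw [Matrix.add_apply, map_add, mul_add]

/-- `pull` is a functional of the right levels -/
lemma pull_Fn (X A : PO) (p : Fin 4 → ℂ) (n r ρ : ℤ) (γ : A.ι → ℂ) (hγ : γ ∈ Fn A n r)
    (g : Matrix A.ι X.ι Sr) (hg : g ∈ HM X A (ρ - r)) : pull X A p n ρ γ g ∈ Fn X n ρ := by
  intro j hj
  unfold pull at hj
  by_cases h1 : X.deg j + ρ < n
  · rw [if_pos h1] at hj
    obtain ⟨i, _, hi⟩ := Finset.exists_ne_zero_of_sum_ne_zero hj
    have h2 := hγ i (left_ne_zero_of_mul hi)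
    have h3 : g i j ≠ 0 := by
      intro h4
      rw [h4] at hi
      simp at hi
    have h5 : 0 ≤ X.deg j + (ρ - r) - A.deg i := by
      by_contra h6
      exact h3 (hmg_neg (hg i j) (by omega))
    exact ⟨by omega, h1⟩
  · rw [if_neg h1] at hj
    exact absurd rfl hj

/-- the truncation does not matter before composing with `Φ` -/
lemma pull_Phi (X A : PO) (p : Fin 4 → ℂ) (n ρ : ℤ) (γ : A.ι → ℂ) (g : Matrix A.ι X.ι Sr)
    (k : X.ι) (hk : X.deg k + ρ + 3 < n) :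
    ∑ j, pull X A p n ρ γ g j * eval p (X.Φ j k) =
      ∑ i, γ i * eval p ((g * X.Φ) i k) := by
  rw [← row_mul]
  refine Finset.sum_congr rfl fun j _ => ?_
  unfold pull
  by_cases h1 : X.deg j + ρ < n
  · rw [if_pos h1]
  · rw [if_neg h1, hmg_neg (X.hom j k) (by omega)]
    simp

/-- a cycle functional composed with `Φ` and then with a matrix of small degree -/
lemma ZF_comp (X A : PO) (p : Fin 4 → ℂ) (n r ρ : ℤ) (γ : A.ι → ℂ) (hγ : γ ∈ ZF A p n r)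
    (h : Matrix A.ι X.ι Sr) (hh : h ∈ HM X A (ρ - r)) (k : X.ι) (hk : X.deg k + ρ + 3 < n) :
    ∑ i, γ i * eval p ((A.Φ * h) i k) = 0 := by
  rw [← row_mul]
  refine Finset.sum_eq_zero fun l _ => ?_
  by_cases h1 : A.deg l + r + 3 < n
  · rw [hγ.2 l h1, zero_mul]
  · rw [hmg_neg (hh l k) (by omega)]
    simp

lemma cyc {X A : PO} {s ρ : ℤ} (hs : s * s = 1) {g : Matrix A.ι X.ι Sr}
    (hg : g ∈ Zc X A ⊥ s ρ) : A.Φ * g = s • (g * X.Φ) ∧ g * X.Φ = s • (A.Φ * g) := by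
  have h1 : A.Φ * g = s • (g * X.Φ) := by
    ext1 i j
    have h4 := hg.2 i j
    rw [dd_apply, Ideal.mem_bot, Matrix.sub_apply, sub_eq_zero] at h4
    exact h4
  exact ⟨h1, by rw [h1, smul_smul, hs, one_smul]⟩

lemma Fn_zsmul {X : PO} {n ρ : ℤ} {γ : X.ι → ℂ} (s : ℤ) (h : γ ∈ Fn X n ρ) :
    (fun j => (s : ℂ) * γ j) ∈ Fn X n ρ :=
  fun i hi => h i fun h2 => hi (by show (s : ℂ) * γ i = 0; rw [h2, mul_zero])

lemma bdry {X A : PO} {s ρ : ℤ} {g : Matrix A.ι X.ι Sr} (hg : g ∈ Bc X A ⊥ s ρ) :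
    ∃ h ∈ HM X A (ρ - 3), g = A.Φ * h + s • (h * X.Φ) := by
  obtain ⟨_, h2⟩ := hg
  obtain ⟨a, ha, b, hb, hab⟩ := Submodule.mem_sup.1 h2
  obtain ⟨h, hh, rfl⟩ := ha
  have hb0 : b = 0 := by
    ext1 i j
    exact (Ideal.mem_bot).1 (hb i j)
  refine ⟨h, hh, ?_⟩
  rw [← hab, hb0, add_zero, dd_apply, neg_smul, sub_neg_eq_add]

end PULL_

open PULL_ in
theorem p_PULL : T_PULL := by
  intro f A X p n r ρ s hs
  refine ⟨?_, ?_, ?_⟩
  · intro γ hγ g hg
    refine ⟨pull_Fn X.toPO A.toPO p n r ρ γ hγ.1 g hg.1, fun k hk => ?_⟩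
    rw [pull_Phi X.toPO A.toPO p n ρ γ g k hk, (cyc hs hg).2, row_zsmul,
      ZF_comp X.toPO A.toPO p n r ρ γ hγ g hg.1 k hk, mul_zero]
  · rintro γ ⟨hγ, μ, hμ, hγμ⟩ g hg
    have hg1 : g ∈ HM X.toPO A.toPO ((ρ - 3) - (r - 3)) := by
      have h1 : (ρ - 3) - (r - 3) = ρ - r := by ring
      rw [h1]
      exact hg.1
    refine ⟨pull_Fn X.toPO A.toPO p n r ρ γ hγ g hg.1, _,
      Fn_zsmul s (pull_Fn X.toPO A.toPO p n (r - 3) (ρ - 3) μ hμ g hg1), fun j hj => ?_⟩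
    have h1 : ∑ m, (s : ℂ) * pull X.toPO A.toPO p n (ρ - 3) μ g m * eval p (X.Φ m j) =
        s * ∑ m, pull X.toPO A.toPO p n (ρ - 3) μ g m * eval p (X.Φ m j) := by
      rw [Finset.mul_sum]
      exact Finset.sum_congr rfl fun m _ => mul_assoc _ _ _
    rw [h1, pull_Phi X.toPO A.toPO p n (ρ - 3) μ g j (by omega), ← row_zsmul, ← (cyc hs hg).1,
      ← row_mul]
    unfold pull
    rw [if_pos hj]
    refine Finset.sum_congr rfl fun i _ => ?_
    by_cases h2 : A.deg i + r < n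
    · rw [hγμ i h2]
    · rw [hmg_neg (hg.1 i j) (by omega)]
      simp
  · intro γ hγ g hg
    obtain ⟨h, hh, rfl⟩ := bdry hg
    have hh1 : h ∈ HM X.toPO A.toPO ((ρ - 3) - r) := by
      have h1 : (ρ - 3) - r = ρ - r - 3 := by ring
      rw [h1]
      exact hh
    refine ⟨pull_Fn X.toPO A.toPO p n r ρ γ hγ.1 _ hg.1, _,
      Fn_zsmul s (pull_Fn X.toPO A.toPO p n r (ρ - 3) γ hγ.1 h hh1), fun j hj => ?_⟩
    have h1 : ∑ m, (s : ℂ) * pull X.toPO A.toPO p n (ρ - 3) γ h m * eval p (X.Φ m j) =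
        s * ∑ m, pull X.toPO A.toPO p n (ρ - 3) γ h m * eval p (X.Φ m j) := by
      rw [Finset.mul_sum]
      exact Finset.sum_congr rfl fun m _ => mul_assoc _ _ _
    rw [h1, pull_Phi X.toPO A.toPO p n (ρ - 3) γ h j (by omega)]
    show (if X.deg j + ρ < n then _ else _) = _
    rw [if_pos hj, row_add, row_zsmul,
      ZF_comp X.toPO A.toPO p n r (ρ - 3) γ hγ h hh1 j (by omega), zero_add]

end Pool.Agent.VDC
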