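import Pool.Agent.VDC.T1

/-!
# VDC: target R (helper92)

Koszul objects represent functionals.
-/

set_option autoImplicit false

open MvPolynomial CategoryTheory

noncomputable section

namespace Pool.Agent.VDC

namespace R_

/-- the row `t` of `Φ` vanishes at `p`, except in large levels -/
def Row (Y : PO) (p : Fin 4 → ℂ) (n : ℤ) (t : Y.ι) : Prop :=
  ∀ j, Y.deg j - Y.deg t + 3 < n → eval p (Y.Φ t j) = 0

lemma row_UU (m : ℤ) (p : Fin 4 → ℂ) (n : ℤ) : Row (UU m) p n () := by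
  intro j _
  show eval p ((0 : Matrix Unit Unit Sr) () j) = 0
  simp

lemma row_TT (Y : PO) (l a : Sr) (e : ℤ) (hl : Hmg l e) (ha : Hmg a (6 - e)) (p : Fin 4 → ℂ)
    (n : ℤ) (t : Y.ι) (h : Row Y p n t) (h2 : n ≤ e ∨ eval p l = 0) :
    Row (TT Y l a e hl ha) p n (Sum.inr t) := by
  rintro (j | j) hj
  · show eval p ((l • (1 : Matrix Y.ι Y.ι Sr)) t j) = 0
    rw [Matrix.smul_apply, smul_eq_mul]
    by_cases htj : t = j
    · subst htj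
      rw [Matrix.one_apply_eq, mul_one]
      rcases h2 with h2 | h2
      · exfalso
        have hj' : Y.deg t - (Y.deg t + 3 - e) + 3 < n := hj
        linarith
      · exact h2
    · rw [Matrix.one_apply_ne htj, mul_zero, map_zero]
  · show eval p ((-Y.Φ) t j) = 0
    rw [Matrix.neg_apply, map_neg, h j, neg_zero]
    have hj' : (Y.deg j + 3 - e) - (Y.deg t + 3 - e) + 3 < n := hj
    linarith

lemma hid_span (h : T_HSPAN) (l : Sr) (e : ℤ) (hl : Hmg l e) : HId (Ideal.span {l}) :=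
  h.1 {l} (by rintro p rfl; exact ⟨e, hl⟩)

lemma hid_bot : HId (⊥ : Ideal Sr) := by
  intro p hp m
  rw [Ideal.mem_bot] at hp ⊢
  subst hp
  exact map_zero _

lemma sqI_of (Y : PO) (f q : Sr) (I : Ideal Sr) (h : Y.Φ * Y.Φ = q • (1 : Matrix Y.ι Y.ι Sr))
    (h2 : q + f ∈ I) : SqI Y f I := by
  intro i j
  rw [h, ← add_smul, Matrix.smul_apply, smul_eq_mul]
  exact I.mul_mem_right _ h2

lemma sqI_cm {f : Sr} (A : CM f) : SqI A.toPO f ⊥ := by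
  intro i j
  show (A.Φ * A.Φ + f • (1 : Matrix A.ι A.ι Sr)) i j ∈ (⊥ : Ideal Sr)
  rw [A.sq, neg_add_cancel]
  exact Ideal.zero_mem _

lemma zf_apply {X : PO} {p : Fin 4 → ℂ} {n ρ : ℤ} {γ : X.ι → ℂ} (h : γ ∈ ZF X p n ρ) (j : X.ι)
    (hj : ¬ X.deg j + ρ < n) : γ j = 0 := by
  by_contra h1
  exact hj (h.1 j h1).2

/-- `pull` along the top functional -/
lemma pull_single (X A : PO) (p : Fin 4 → ℂ) (n ρ : ℤ) (t : A.ι) (g : Matrix A.ι X.ι Sr) :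
    pull X A p n ρ (Pi.single t 1) g = fun j => if X.deg j + ρ < n then eval p (g t j) else 0 := by
  funext j
  unfold pull
  split_ifs
  · rw [Finset.sum_eq_single t]
    · rw [Pi.single_eq_same, one_mul]
    · intro b _ hb
      rw [Pi.single_eq_of_ne hb, zero_mul]
    · intro h; exact absurd (Finset.mem_univ _) h
  · rfl

end R_

open R_ in
theorem p_R (hKS : T_KS) (hKI : T_KI) (hKP : T_KP) (hRU : T_RU) (hHS : T_HSPAN) : T_R := by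
  intro f D p n m hF hm
  have hm4 : m + 12 - D.e 1 - D.e 2 - D.e 3 - D.e 0 = 0 := by
    rw [hm, Fin.sum_univ_four]; ring
  -- the ideals
  set I1 : Ideal Sr := Ideal.span {D.l 0} with hI1
  set I2 : Ideal Sr := I1 ⊔ Ideal.span {D.l 3} with hI2
  set I3 : Ideal Sr := I2 ⊔ Ideal.span {D.l 2} with hI3
  set I4 : Ideal Sr := I3 ⊔ Ideal.span {D.l 1} with hI4
  have hmem : ∀ q m, Hmg q m → (q ∈ I4 ↔ n ≤ m ∨ eval p q = 0) := hF.mem
  have hid1 : HId I1 := hid_span hHS _ _ (D.hl 0)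
  have hid2 : HId I2 := hHS.2 _ _ hid1 (hid_span hHS _ _ (D.hl 3))
  have hid3 : HId I3 := hHS.2 _ _ hid2 (hid_span hHS _ _ (D.hl 2))
  have l1I1 : D.l 0 ∈ I1 := Ideal.subset_span rfl
  have l3I2 : D.l 3 ∈ I2 := Ideal.mem_sup_right (Ideal.subset_span rfl)
  have l2I3 : D.l 2 ∈ I3 := Ideal.mem_sup_right (Ideal.subset_span rfl)
  have l1I4 : D.l 1 ∈ I4 := Ideal.mem_sup_right (Ideal.subset_span rfl)
  have hev : ∀ i, n ≤ D.e i ∨ eval p (D.l i) = 0 := by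
    intro i
    rw [← hmem _ _ (D.hl i)]
    fin_cases i
    · exact Ideal.mem_sup_left (Ideal.mem_sup_left (Ideal.mem_sup_left l1I1))
    · exact l1I4
    · exact Ideal.mem_sup_left l2I3
    · exact Ideal.mem_sup_left (Ideal.mem_sup_left l3I2)
  -- the objects
  let Y1 : PO := TT (UU m) (D.l 1) (D.a 1) (D.e 1) (D.hl 1) (D.ha 1)
  let Y2 : PO := TT Y1 (D.l 2) (D.a 2) (D.e 2) (D.hl 2) (D.ha 2)
  let Y3 : PO := TT Y2 (D.l 3) (D.a 3) (D.e 3) (D.hl 3) (D.ha 3)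
  let Y4 : PO := TT Y3 (D.l 0) (D.a 0) (D.e 0) (D.hl 0) (D.ha 0)
  have q1 : Y1.Φ * Y1.Φ = (0 + D.l 1 * D.a 1) • (1 : Matrix Y1.ι Y1.ι Sr) :=
    TT_sq _ _ _ _ _ _ 0 (by simp)
  have q2 : Y2.Φ * Y2.Φ = (0 + D.l 1 * D.a 1 + D.l 2 * D.a 2) • (1 : Matrix Y2.ι Y2.ι Sr) :=
    TT_sq _ _ _ _ _ _ _ q1
  have q3 : Y3.Φ * Y3.Φ =
      (0 + D.l 1 * D.a 1 + D.l 2 * D.a 2 + D.l 3 * D.a 3) • (1 : Matrix Y3.ι Y3.ι Sr) :=
    TT_sq _ _ _ _ _ _ _ q2
  have hsum : D.l 0 * D.a 0 + D.l 1 * D.a 1 + D.l 2 * D.a 2 + D.l 3 * D.a 3 = -f := by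
    rw [← D.sum, Fin.sum_univ_four]
  have s4 : SqI Y4 f ⊥ := sqI_cm (D.obj m)
  have s3 : SqI Y3 f I1 := sqI_of _ _ _ _ q3 (by
    have h : 0 + D.l 1 * D.a 1 + D.l 2 * D.a 2 + D.l 3 * D.a 3 + f = D.l 0 * (-D.a 0) := by
      linear_combination hsum
    rw [h]
    exact I1.mul_mem_right _ l1I1)
  have s2 : SqI Y2 f I2 := sqI_of _ _ _ _ q2 (by
    have h : 0 + D.l 1 * D.a 1 + D.l 2 * D.a 2 + f = D.l 0 * (-D.a 0) + D.l 3 * (-D.a 3) := by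
      linear_combination hsum
    rw [h]
    exact I2.add_mem (I2.mul_mem_right _ (Ideal.mem_sup_left l1I1)) (I2.mul_mem_right _ l3I2))
  have s1 : SqI Y1 f I3 := sqI_of _ _ _ _ q1 (by
    have h : 0 + D.l 1 * D.a 1 + f =
        D.l 0 * (-D.a 0) + D.l 3 * (-D.a 3) + D.l 2 * (-D.a 2) := by
      linear_combination hsum
    rw [h]
    exact I3.add_mem (I3.add_mem (I3.mul_mem_right _ (Ideal.mem_sup_left (Ideal.mem_sup_left l1I1)))
      (I3.mul_mem_right _ (Ideal.mem_sup_left l3I2))) (I3.mul_mem_right _ l2I3))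
  have hne : ∀ s : ℤ, s * s = 1 → (-s) * (-s) = 1 := fun s hs => by rw [neg_mul_neg]; exact hs
  have hru : ∀ (X : CM f) (s ρ : ℤ), s * s = 1 → _ := fun X s ρ hs =>
    hRU f X p n m I4 (fun d h0 h1 => hF.one d h0 h1) (fun q d hq => hmem q d hq) s ρ hs
  have hb : (⊥ : Ideal Sr) ⊔ Ideal.span {D.l 0} = I1 := bot_sup_eq _
  constructor
  · -- mem
    have hrow : Row Y4 p n (Sum.inr (Sum.inr (Sum.inr (Sum.inr ())))) :=
      row_TT _ _ _ _ _ _ _ _ _ (row_TT _ _ _ _ _ _ _ _ _ (row_TT _ _ _ _ _ _ _ _ _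
        (row_TT _ _ _ _ _ _ _ _ _ (row_UU m p n) (hev 1)) (hev 2)) (hev 3)) (hev 0)
    have hdeg : Y4.deg (Sum.inr (Sum.inr (Sum.inr (Sum.inr ())))) = 0 := by
      show m + 3 - D.e 1 + 3 - D.e 2 + 3 - D.e 3 + 3 - D.e 0 = 0
      linarith
    refine ⟨?_, ?_⟩
    · intro i hi
      have hi' : i = Sum.inr (Sum.inr (Sum.inr (Sum.inr ()))) := by
        by_contra h
        exact hi (Pi.single_eq_of_ne h _)
      subst hi'
      have := hF.pos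
      constructor
      · show 0 ≤ Y4.deg _ + 0
        rw [hdeg]; simp
      · show Y4.deg _ + 0 < n
        rw [hdeg]; linarith
    · intro j hj
      rw [Finset.sum_eq_single (Sum.inr (Sum.inr (Sum.inr (Sum.inr ()))))]
      · rw [hrow j, mul_zero]
        rw [hdeg]
        have hj' : Y4.deg j + 0 + 3 < n := hj
        linarith
      · intro b _ hb
        show (top f D m) b * _ = 0
        rw [top, Pi.single_eq_of_ne hb, zero_mul]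
      · intro h; exact absurd (Finset.mem_univ _) h
  · -- surj
    intro X s ρ hs γ hγ
    obtain ⟨g0, hg0, hg0'⟩ := (hru X s ρ hs).1 γ hγ
    have hs1 : (-s) * (-s) = 1 := hne s hs
    obtain ⟨g1, hg1⟩ := hKS f X (UU m) I3 (D.l 1) (D.a 1) (D.e 1) (D.hl 1) (D.ha 1) (-s)
      (ρ + m + 3 - D.e 1) hs1 hid3 hF.nz1 s1 g0 (by
        rw [neg_neg, show ρ + m + 3 - D.e 1 - 3 + D.e 1 = ρ + m by ring]; exact hg0)
    obtain ⟨g2, hg2⟩ := hKS f X Y1 I2 (D.l 2) (D.a 2) (D.e 2) (D.hl 2) (D.ha 2) s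
      (ρ + m + 6 - D.e 1 - D.e 2) hs hid2 hF.nz2 s2 _ (by
        rw [show ρ + m + 6 - D.e 1 - D.e 2 - 3 + D.e 2 = ρ + m + 3 - D.e 1 by ring]; exact hg1)
    obtain ⟨g3, hg3⟩ := hKS f X Y2 I1 (D.l 3) (D.a 3) (D.e 3) (D.hl 3) (D.ha 3) (-s)
      (ρ + m + 9 - D.e 1 - D.e 2 - D.e 3) hs1 hid1 hF.nz3 s3 _ (by
        rw [neg_neg, show ρ + m + 9 - D.e 1 - D.e 2 - D.e 3 - 3 + D.e 3 =
          ρ + m + 6 - D.e 1 - D.e 2 by ring]; exact hg2)
    obtain ⟨g4, hg4⟩ := hKS f X Y3 ⊥ (D.l 0) (D.a 0) (D.e 0) (D.hl 0) (D.ha 0) s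
      (ρ - 0) hs hid_bot hF.nz0 s4 _ (by
        rw [hb, show ρ - 0 - 3 + D.e 0 = ρ + m + 9 - D.e 1 - D.e 2 - D.e 3 by linarith]
        exact hg3)
    refine ⟨_, hg4, ?_⟩
    have h0 : γ - pull X.toPO (D.obj m).toPO p n ρ (top f D m)
        (Matrix.fromRows g4 (Matrix.fromRows g3 (Matrix.fromRows g2 (Matrix.fromRows g1 g0)))) =
          0 := by
      rw [top, pull_single]
      funext j
      show γ j - (if X.deg j + ρ < n then eval p (g0 () j) else 0) = 0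
      split_ifs with h
      · rw [hg0' j h, sub_self]
      · rw [zf_apply hγ j h, sub_self]
    rw [h0]
    exact zero_mem _
  · -- inj
    intro X s ρ hs g hg hB
    have hs1 : (-s) * (-s) = 1 := hne s hs
    have z3 : Matrix.toRows₂ g ∈ Zc X.toPO Y3 I1 (-s) (ρ + m + 9 - D.e 1 - D.e 2 - D.e 3) := by
      have h := hKP f X Y3 ⊥ (D.l 0) (D.a 0) (D.e 0) (D.hl 0) (D.ha 0) s (ρ - 0) hs g hg
      rwa [hb, show ρ - 0 - 3 + D.e 0 = ρ + m + 9 - D.e 1 - D.e 2 - D.e 3 by linarith] at h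
    have z2 : Matrix.toRows₂ (Matrix.toRows₂ g) ∈
        Zc X.toPO Y2 I2 s (ρ + m + 6 - D.e 1 - D.e 2) := by
      have h := hKP f X Y2 I1 (D.l 3) (D.a 3) (D.e 3) (D.hl 3) (D.ha 3) (-s) _ hs1 _ z3
      rwa [neg_neg, show ρ + m + 9 - D.e 1 - D.e 2 - D.e 3 - 3 + D.e 3 =
          ρ + m + 6 - D.e 1 - D.e 2 by ring] at h
    have z1 : Matrix.toRows₂ (Matrix.toRows₂ (Matrix.toRows₂ g)) ∈
        Zc X.toPO Y1 I3 (-s) (ρ + m + 3 - D.e 1) := by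
      have h := hKP f X Y1 I2 (D.l 2) (D.a 2) (D.e 2) (D.hl 2) (D.ha 2) s _ hs _ z2
      rwa [show ρ + m + 6 - D.e 1 - D.e 2 - 3 + D.e 2 = ρ + m + 3 - D.e 1 by ring] at h
    have z0 : Matrix.toRows₂ (Matrix.toRows₂ (Matrix.toRows₂ (Matrix.toRows₂ g))) ∈
        Zc X.toPO (UU m) I4 s (ρ + m) := by
      have h := hKP f X (UU m) I3 (D.l 1) (D.a 1) (D.e 1) (D.hl 1) (D.ha 1) (-s) _ hs1 _ z1
      rwa [neg_neg, show ρ + m + 3 - D.e 1 - 3 + D.e 1 = ρ + m by ring] at h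
    have b0 : Matrix.toRows₂ (Matrix.toRows₂ (Matrix.toRows₂ (Matrix.toRows₂ g))) ∈
        Bc X.toPO (UU m) I4 s (ρ + m) := by
      refine (hru X s ρ hs).2 _ z0 ?_
      rw [top, pull_single] at hB
      exact hB
    have b1 : Matrix.toRows₂ (Matrix.toRows₂ (Matrix.toRows₂ g)) ∈
        Bc X.toPO Y1 I3 (-s) (ρ + m + 3 - D.e 1) := by
      refine hKI f X (UU m) I3 (D.l 1) (D.a 1) (D.e 1) (D.hl 1) (D.ha 1) (-s) _ hs1 hid3 hF.nz1
        s1 _ z1 ?_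
      rw [neg_neg, show ρ + m + 3 - D.e 1 - 3 + D.e 1 = ρ + m by ring]
      exact b0
    have b2 : Matrix.toRows₂ (Matrix.toRows₂ g) ∈
        Bc X.toPO Y2 I2 s (ρ + m + 6 - D.e 1 - D.e 2) := by
      refine hKI f X Y1 I2 (D.l 2) (D.a 2) (D.e 2) (D.hl 2) (D.ha 2) s _ hs hid2 hF.nz2 s2 _ z2 ?_
      rw [show ρ + m + 6 - D.e 1 - D.e 2 - 3 + D.e 2 = ρ + m + 3 - D.e 1 by ring]
      exact b1
    have b3 : Matrix.toRows₂ g ∈ Bc X.toPO Y3 I1 (-s) (ρ + m + 9 - D.e 1 - D.e 2 - D.e 3) := by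
      refine hKI f X Y2 I1 (D.l 3) (D.a 3) (D.e 3) (D.hl 3) (D.ha 3) (-s) _ hs1 hid1 hF.nz3 s3 _
        z3 ?_
      rw [neg_neg, show ρ + m + 9 - D.e 1 - D.e 2 - D.e 3 - 3 + D.e 3 =
          ρ + m + 6 - D.e 1 - D.e 2 by ring]
      exact b2
    refine hKI f X Y3 ⊥ (D.l 0) (D.a 0) (D.e 0) (D.hl 0) (D.ha 0) s _ hs hid_bot hF.nz0 s4 _ hg ?_
    rw [hb, show ρ - 0 - 3 + D.e 0 = ρ + m + 9 - D.e 1 - D.e 2 - D.e 3 by linarith]
    exact b3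

end Pool.Agent.VDC
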