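import Pool.Agent.VDC.T1

/-!
# VDC: target R1 (helper36)

`k` represents the functionals of level `0`: the frame given by the variables satisfies the
conditions of target R.
-/

set_option autoImplicit false

open MvPolynomial CategoryTheory

noncomputable section

namespace Pool.Agent.VDC

namespace R1_

lemma deg_sum {f : Sr} (D : KA f) : (-7 : ℤ) = ∑ i, D.kd.e i - 12 := by
  show (-7 : ℤ) = ∑ i, wt i - 12
  rw [Fin.sum_univ_four]
  rfl

end R1_

theorem p_R1 (h1 : T_R) (h2 : T_FRX) : T_R1 :=
  fun f D p => h1 f D.kd p 1 (-7) (h2 f D p) (R1_.deg_sum D)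

end Pool.Agent.VDC
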