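import Pool.Agent.VDC.T1

/-!
# VDC: RET — an object on which the variables act by zero is a retract of a sum of twists of `k`
-/

set_option autoImplicit false

open MvPolynomial CategoryTheory

noncomputable section

namespace Pool.Agent.VDC.RET_

/-- evaluation at the origin -/
abbrev e0 : Sr →+* ℂ := MvPolynomial.eval (0 : Fin 4 → ℂ)

lemma e0_eq (p : Sr) : e0 p = coeff 0 p := by
  show MvPolynomial.eval (0 : Fin 4 → ℂ) p = coeff 0 p
  rw [MvPolynomial.eval_zero, MvPolynomial.constantCoeff_eq]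

lemma wd_zero : wd 0 = 0 := by simp [wd]

lemma hmg_e0 {p : Sr} {m : ℤ} (hp : Hmg p m) (h : e0 p ≠ 0) : m = 0 := by
  rw [e0_eq] at h
  rw [← hp 0 h, wd_zero]

lemma hmg_C {c : ℂ} {m : ℤ} (h : c ≠ 0 → m = 0) : Hmg (C c : Sr) m := by
  classical
  intro a ha
  rw [coeff_C] at ha
  by_cases h1 : (0 : Fin 4 →₀ ℕ) = a
  · rw [if_pos h1] at ha
    rw [← h1, wd_zero, h ha]
  · rw [if_neg h1] at ha
    exact absurd rfl ha

lemma mem_mI {p : Sr} (h : e0 p = 0) : p ∈ mI Finset.univ 1 := by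
  have h1 : mI Finset.univ 1 = Ideal.span ((X : Fin 4 → Sr) '' Set.univ) := by
    rw [mI]
    congr 1
    ext q
    simp
  rw [h1, MvPolynomial.mem_ideal_span_X_image]
  intro m hm
  rw [e0_eq] at h
  by_contra h2
  push Not at h2
  have h3 : m = 0 := by
    ext i
    exact h2 i (Set.mem_univ i)
  rw [h3] at hm
  exact (MvPolynomial.mem_support_iff.1 hm) h

lemma mem_IM {ι κ : Type} {A : Matrix ι κ Sr} (h : A.map e0 = 0) :
    A ∈ IM (mI Finset.univ 1) ι κ := by
  intro i j
  refine mem_mI ?_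
  exact congrFun (congrFun h i) j

/-- the top generator -/
abbrev tp {f : Sr} (D : KA f) : (kk D).ι := Sum.inr (Sum.inr (Sum.inr (Sum.inr ())))

lemma deg_tp {f : Sr} (D : KA f) : (kk D).deg (tp D) = 0 := by
  show (((-7 : ℤ) + 3 - wt 1) + 3 - wt 2 + 3 - wt 3) + 3 - wt 0 = 0
  simp [wt]

lemma TT_e0 (Y : PO) (l a : Sr) (e : ℤ) (hl : Hmg l e) (ha : Hmg a (6 - e))
    (hY : Y.Φ.map e0 = 0) (hl0 : e0 l = 0) (ha0 : e0 a = 0) :
    (TT Y l a e hl ha).Φ.map e0 = 0 := by
  show (Matrix.fromBlocks Y.Φ (a • 1) (l • 1) (-Y.Φ)).map e0 = 0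
  have hY' : ∀ i j, e0 (Y.Φ i j) = 0 := fun i j => congrFun (congrFun hY i) j
  ext1 i j
  rcases i with i | i <;> rcases j with j | j
  · exact hY' i j
  · show e0 ((a • (1 : Matrix Y.ι Y.ι Sr)) i j) = 0
    rw [Matrix.smul_apply, smul_eq_mul, map_mul, ha0, zero_mul]
  · show e0 ((l • (1 : Matrix Y.ι Y.ι Sr)) i j) = 0
    rw [Matrix.smul_apply, smul_eq_mul, map_mul, hl0, zero_mul]
  · show e0 (-(Y.Φ i j)) = 0
    rw [map_neg, hY', neg_zero]

lemma hmg_zero_e0 {p : Sr} {m : ℤ} (hp : Hmg p m) (h : m ≠ 0) : e0 p = 0 := by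
  by_contra h1
  exact h (hmg_e0 hp h1)

lemma kk_e0 {f : Sr} (D : KA f) : (kk D).Φ.map e0 = 0 := by
  have hl : ∀ i, e0 (D.kd.l i) = 0 := by
    intro i
    show MvPolynomial.eval (0 : Fin 4 → ℂ) (X i) = 0
    simp
  have ha : ∀ i, e0 (D.kd.a i) = 0 := by
    intro i
    refine hmg_zero_e0 (D.kd.ha i) ?_
    show 6 - wt i ≠ 0
    fin_cases i <;> simp [wt]
  have h0 : (UU (-7)).Φ.map e0 = 0 := by
    ext1 i j
    exact map_zero e0
  exact TT_e0 _ _ _ _ (D.kd.hl 0) (D.kd.ha 0) (TT_e0 _ _ _ _ (D.kd.hl 3) (D.kd.ha 3)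
    (TT_e0 _ _ _ _ (D.kd.hl 2) (D.kd.ha 2) (TT_e0 _ _ _ _ (D.kd.hl 1) (D.kd.ha 1) h0
    (hl _) (ha _)) (hl _) (ha _)) (hl _) (ha _)) (hl _) (ha _)

lemma e0_f {f : Sr} (D : KA f) : e0 f = 0 := by
  have h := D.sum
  have h1 : e0 (-f) = 0 := by
    rw [← h, map_sum]
    refine Finset.sum_eq_zero fun i _ => ?_
    rw [map_mul]
    have : e0 (X i : Sr) = 0 := by
      show MvPolynomial.eval (0 : Fin 4 → ℂ) (X i) = 0
      simp
    rw [this, zero_mul]
  rw [map_neg, neg_eq_zero] at h1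
  exact h1

/-- sum of twists of `A` -/
def KK {f : Sr} (A G : CM f) : CM f where
  ι := A.ι × G.ι
  fin := inferInstance
  dec := inferInstance
  deg x := A.deg x.1 + G.deg x.2
  Φ := Matrix.blockDiagonal fun _ : G.ι => A.Φ
  hom := by
    rintro ⟨x, a⟩ ⟨y, b⟩
    rw [Matrix.blockDiagonal_apply]
    by_cases h : a = b
    · subst h
      rw [if_pos rfl]
      exact (A.hom x y).congr (by
        show _ = (A.deg y + G.deg a) + 3 - (A.deg x + G.deg a)
        ring)
    · rw [if_neg h]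
      exact Hmg.zero _
  sq := by
    rw [← Matrix.blockDiagonal_mul]
    have h : (fun _ : G.ι => A.Φ * A.Φ) = -(f • (1 : G.ι → Matrix A.ι A.ι Sr)) := by
      funext a
      exact A.sq
    rw [h, Matrix.blockDiagonal_neg, Matrix.blockDiagonal_smul, Matrix.blockDiagonal_one]

/-- the matrix of the inclusion of a summand -/
def incm {f : Sr} (A G : CM f) (a : G.ι) : Matrix (A.ι × G.ι) A.ι Sr :=
  fun x y => if x.1 = y ∧ x.2 = a then 1 else 0

lemma incm_comm {f : Sr} (A G : CM f) (a : G.ι) :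
    (Matrix.blockDiagonal fun _ : G.ι => A.Φ) * incm A G a = incm A G a * A.Φ := by
  ext1 ⟨x, b⟩ y
  rw [Matrix.mul_apply, Matrix.mul_apply, Fintype.sum_prod_type]
  rw [Finset.sum_eq_single y, Finset.sum_eq_single a, Finset.sum_eq_single x]
  · rw [Matrix.blockDiagonal_apply]
    by_cases h : b = a
    · simp [h, incm]
    · simp [h, incm]
  · intro z _ hz
    rw [incm, if_neg fun h => hz h.1.symm, zero_mul]
  · intro h; exact absurd (Finset.mem_univ _) h
  · intro c _ hc
    rw [incm, if_neg fun h => hc h.2, mul_zero]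
  · intro h; exact absurd (Finset.mem_univ _) h
  · intro z _ hz
    refine Finset.sum_eq_zero fun c _ => ?_
    rw [incm, if_neg fun h => hz h.1, mul_zero]
  · intro h; exact absurd (Finset.mem_univ _) h

/-- the inclusion of a summand -/
def inc {f : Sr} (A G : CM f) (a : G.ι) : mor (tw (-(G.deg a)) 1 A) (KK A G) :=
  ⟨incm A G a, by
    constructor
    · rintro ⟨x, b⟩ y
      show Hmg (if x = y ∧ b = a then 1 else 0)
        ((A.deg y - -(G.deg a)) - (A.deg x + G.deg b))
      by_cases h : x = y ∧ b = a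
      · rw [if_pos h, h.1, h.2]
        exact Hmg.one.congr (by ring)
      · rw [if_neg h]
        exact Hmg.zero _
    · show (Matrix.blockDiagonal fun _ : G.ι => A.Φ) * incm A G a =
        incm A G a * (((1 : ℤˣ) : ℤ) • A.Φ)
      rw [Units.val_one, one_smul]
      exact incm_comm A G a⟩

lemma incm_mul {f : Sr} (A G : CM f) (b : G.ι) (m : Matrix A.ι G.ι Sr) (x : A.ι) (a j : G.ι) :
    (incm A G b * m) (x, a) j = if a = b then m x j else 0 := by
  rw [Matrix.mul_apply, Finset.sum_eq_single x]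
  · by_cases h : a = b
    · rw [incm, if_pos ⟨rfl, h⟩, if_pos h, one_mul]
    · rw [incm, if_neg fun h' => h h'.2, if_neg h, zero_mul]
  · intro y _ hy
    rw [incm, if_neg fun h => hy h.1.symm, zero_mul]
  · intro h; exact absurd (Finset.mem_univ _) h

/-- the map to the sum -/
def tot {f : Sr} (A G : CM f) (g : ∀ a : G.ι, mor G (tw (-(G.deg a)) 1 A)) :
    mor G (KK A G) := ∑ a, compM (g a) (inc A G a)

/-- its matrix -/
def totm {f : Sr} (A G : CM f) (g : G.ι → Matrix A.ι G.ι Sr) : Matrix (A.ι × G.ι) G.ι Sr :=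
  fun x j => g x.2 x.1 j

lemma tot_eq {f : Sr} (A G : CM f) (g : ∀ a : G.ι, mor G (tw (-(G.deg a)) 1 A)) :
    (tot A G g).1 = totm A G (fun a => (g a).1) := by
  have h1 : (tot A G g).1 = ∑ b, incm A G b * (g b).1 := by
    rw [tot, AddSubmonoidClass.coe_finsetSum]
    rfl
  rw [h1]
  ext1 ⟨x, a⟩ j
  rw [Matrix.sum_apply, Finset.sum_eq_single a]
  · rw [incm_mul, if_pos rfl]
    rfl
  · intro b _ hb
    rw [incm_mul, if_neg hb.symm]
  · intro h; exact absurd (Finset.mem_univ _) h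

lemma cls_sum {f : Sr} {X Y : CM f} {κ : Type} [Fintype κ] (g : κ → mor X Y) :
    cls (∑ a, g a) = ∑ a, cls (g a) := by
  show (nul X Y).mkQ (∑ a, g a) = _
  rw [map_sum]
  rfl

lemma cls_comp {f : Sr} {X Y Z : CM f} (a : mor X Y) (b : mor Y Z) :
    cls (compM a b) = cls a ≫ cls b := rfl


lemma main (hLIN : T_LIN) (hSPL : T_SPL) {f : Sr} (G : CM f)
    (hG : ∀ i, NH G.toPO (X i : Sr) (wt i)) (A : CM f) {α : A.ι → ℂ} (hR : Rp A 0 1 0 α)
    (hk0 : A.Φ.map e0 = 0) (t : A.ι) (htop : ∀ i, α i = if i = t then 1 else 0)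
    (hf0 : e0 f = 0) (hd0 : A.deg t = 0) :
    ∃ (a : ∀ i : G.ι, G ⟶ tw (-(G.deg i)) 1 A) (b : ∀ i : G.ι, tw (-(G.deg i)) 1 A ⟶ G),
      𝟙 G = ∑ i, a i ≫ b i := by
  -- the constant part of the operator
  set M : Matrix G.ι G.ι ℂ := G.Φ.map e0 with hM
  have hMdeg : ∀ i j, M i j ≠ 0 → G.deg i = G.deg j + 3 := by
    intro i j h
    have h1 := hmg_e0 (G.hom i j) h
    linarith
  have hMM : M * M = 0 := by
    rw [hM, ← Matrix.map_mul, G.sq]
    ext1 i j
    show e0 (-(f * (1 : Matrix G.ι G.ι Sr) i j)) = 0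
    rw [map_neg, map_mul, hf0, zero_mul, neg_zero]
  obtain ⟨P, N, hP, hN, hPP, hMP, hPM, hsum⟩ := hLIN G.ι G.deg M hMdeg hMM
  -- the maps to `k`
  have key : ∀ a : G.ι, ∃ (g : mor G (tw (-(G.deg a)) 1 A)) (μ : G.ι → ℂ),
      (∀ i, μ i ≠ 0 → G.deg i = G.deg a + 3) ∧
      ∀ j, P a j - e0 (g.1 t j) = ∑ i, μ i * M i j := by
    intro a
    have hmem : (fun i => P a i) ∈ ZF G.toPO 0 1 (-(G.deg a)) := by
      refine ⟨fun i hi => ?_, fun j _ => ?_⟩
      · have := hP a i hi
        constructor <;> linarith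
      · have h1 := congrFun (congrFun hPM a) j
        rw [Matrix.mul_apply] at h1
        exact h1
    obtain ⟨g, hg, hB⟩ := hR.surj G 1 (-(G.deg a)) (by norm_num) _ hmem
    rw [sub_zero] at hg
    obtain ⟨-, μ, hμ, hB⟩ := hB
    have hg' : g ∈ Zc G.toPO A.toPO ⊥ ((1 : ℤˣ) : ℤ) (-(G.deg a)) := hg
    refine ⟨ofZ (-(G.deg a)) 1 g hg', μ, fun i hi => ?_, fun j => ?_⟩
    · have := hμ i hi
      linarith [this.1, this.2]
    · have hμ' : ∀ i, μ i ≠ 0 → G.deg i = G.deg a + 3 := by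
        intro i hi
        have := hμ i hi
        linarith [this.1, this.2]
      have hgdeg : e0 (g t j) ≠ 0 → G.deg j = G.deg a := by
        intro h
        have h1 := hmg_e0 (hg.1 t j) h
        linarith
      have hsum1 : ∑ i, α i * MvPolynomial.eval 0 (g i j) = e0 (g t j) := by
        rw [Finset.sum_eq_single t]
        · rw [htop, if_pos rfl, one_mul]
        · intro i _ hi
          rw [htop, if_neg hi, zero_mul]
        · intro h; exact absurd (Finset.mem_univ _) h
      show P a j - e0 (g t j) = ∑ i, μ i * M i j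
      by_cases hj : G.deg j + -(G.deg a) < 1
      · have h1 := hB j hj
        have h2 : pull G.toPO A.toPO 0 1 (-(G.deg a)) α g j = e0 (g t j) := by
          rw [pull, if_pos hj]
          exact hsum1
        rw [Pi.sub_apply, h2] at h1
        exact h1
      · have h1 : P a j = 0 := by
          by_contra h
          have := hP a j h
          exact hj (by linarith)
        have h2 : e0 (g t j) = 0 := by
          by_contra h
          have := hgdeg h
          exact hj (by linarith)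
        rw [h1, h2, sub_zero]
        refine (Finset.sum_eq_zero fun i _ => ?_).symm
        by_contra h
        have h3 := hμ' i (left_ne_zero_of_mul h)
        have h4 := hMdeg i j (right_ne_zero_of_mul h)
        exact hj (by linarith)
  choose g μ hμ hg using key
  -- the splitting
  let T : Matrix G.ι G.ι ℂ := fun a j => e0 ((g a).1 t j)
  let U : Matrix G.ι G.ι ℂ := fun a i => μ a i
  have hTU : P - T = U * M := by
    ext1 a j
    rw [Matrix.mul_apply]
    exact hg a j
  let h₁ : Matrix G.ι (A.ι × G.ι) Sr := fun j x => if x.1 = t then C (P j x.2) else 0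
  let h₂ : Matrix G.ι G.ι Sr := (N + P * U).map C
  have hh₁ : ∀ j x, Hmg (h₁ j x) ((A.deg x.1 + G.deg x.2) + 0 - G.deg j) := by
    rintro j ⟨x, a⟩
    show Hmg (if x = t then C (P j a) else 0) ((A.deg x + G.deg a) + 0 - G.deg j)
    by_cases h : x = t
    · rw [if_pos h, h, hd0]
      refine hmg_C fun h1 => ?_
      have := hP j a h1
      linarith
    · rw [if_neg h]
      exact Hmg.zero _
  have hh₂ : h₂ ∈ HM G.toPO G.toPO (-3) := by
    intro i j
    show Hmg (C ((N + P * U) i j)) (G.deg j + -3 - G.deg i)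
    refine hmg_C fun h1 => ?_
    rw [Matrix.add_apply] at h1
    by_cases h2 : N i j = 0
    · rw [h2, zero_add, Matrix.mul_apply] at h1
      obtain ⟨a, -, ha⟩ := Finset.exists_ne_zero_of_sum_ne_zero h1
      have h3 := hP i a (left_ne_zero_of_mul ha)
      have h4 := hμ a j (right_ne_zero_of_mul ha)
      linarith
    · have := hN i j h2
      linarith
  have hK0 : (Matrix.blockDiagonal fun _ : G.ι => A.Φ).map e0 = 0 := by
    ext1 ⟨x, a⟩ ⟨y, b⟩
    show e0 (Matrix.blockDiagonal (fun _ : G.ι => A.Φ) (x, a) (y, b)) = 0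
    rw [Matrix.blockDiagonal_apply]
    split_ifs
    · exact congrFun (congrFun hk0 x) y
    · exact map_zero e0
  have hh₁0 : ∀ j x a, (h₁.map e0) j (x, a) = if x = t then P j a else 0 := by
    intro j x a
    show e0 (if x = t then C (P j a) else 0) = _
    split_ifs
    · exact MvPolynomial.eval_C _
    · exact map_zero e0
  have hh₂0 : h₂.map e0 = N + P * U := by
    ext1 i j
    exact MvPolynomial.eval_C _
  have hc1 : G.Φ * h₁ - h₁ * (Matrix.blockDiagonal fun _ : G.ι => A.Φ) ∈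
      IM (mI Finset.univ 1) G.ι (A.ι × G.ι) := by
    refine mem_IM ?_
    rw [Matrix.map_sub _ (map_sub e0), Matrix.map_mul, Matrix.map_mul, hK0, Matrix.mul_zero,
      sub_zero]
    ext1 j ⟨x, a⟩
    rw [Matrix.mul_apply]
    simp only [hh₁0]
    by_cases h : x = t
    · simp only [if_pos h]
      have h1 := congrFun (congrFun hMP j) a
      rw [Matrix.mul_apply] at h1
      exact h1
    · simp only [if_neg h, mul_zero, Finset.sum_const_zero]
      rfl
  have hc2 : h₁ * totm A G (fun a => (g a).1) + G.Φ * h₂ + h₂ * G.Φ - 1 ∈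
      IM (mI Finset.univ 1) G.ι G.ι := by
    refine mem_IM ?_
    have h1 : (h₁ * totm A G (fun a => (g a).1)).map e0 = P * T := by
      rw [Matrix.map_mul]
      ext1 i j
      rw [Matrix.mul_apply, Matrix.mul_apply, Fintype.sum_prod_type, Finset.sum_eq_single t]
      · refine Finset.sum_congr rfl fun a _ => ?_
        rw [hh₁0, if_pos rfl]
        rfl
      · intro x _ hx
        refine Finset.sum_eq_zero fun a _ => ?_
        rw [hh₁0, if_neg hx, zero_mul]
      · intro h; exact absurd (Finset.mem_univ _) h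
    have h2 : ((1 : Matrix G.ι G.ι Sr)).map e0 = 1 :=
      Matrix.map_one _ (map_zero e0) (map_one e0)
    rw [Matrix.map_sub _ (map_sub e0), Matrix.map_add _ (map_add e0),
      Matrix.map_add _ (map_add e0), h1, h2, Matrix.map_mul, Matrix.map_mul, hh₂0, ← hM]
    have h3 : T = P - U * M := by rw [← hTU, sub_sub_cancel]
    rw [h3, ← hsum, Matrix.mul_sub, hPP, Matrix.mul_add, Matrix.add_mul, ← Matrix.mul_assoc M P U,
      hMP, Matrix.zero_mul, Matrix.mul_assoc P U M]
    abel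
  rw [← tot_eq] at hc2
  obtain ⟨r, hr⟩ := hSPL f G (KK A G) (tot A G g) h₁ h₂ hG hh₁ hh₂ hc1 hc2
  refine ⟨fun a => cls (g a), fun a => cls (inc A G a) ≫ r, ?_⟩
  rw [← hr, tot, cls_sum, Preadditive.sum_comp]
  refine Finset.sum_congr rfl fun a _ => ?_
  rw [cls_comp, Category.assoc]

end Pool.Agent.VDC.RET_

namespace Pool.Agent.VDC

open RET_

theorem p_RET (hLIN : T_LIN) (hSPL : T_SPL) (hR1 : T_R1) : T_RET := by
  intro f D G hG
  have hR := hR1 f D 0
  have hk0 := kk_e0 D
  have htop : ∀ i : (kk D).ι, top f D.kd (-7) i = if i = tp D then 1 else 0 := by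
    intro i
    rw [top, Pi.single_apply]
  have hf0 := e0_f D
  have hd0 := deg_tp D
  exact main hLIN hSPL G hG (kk D) hR hk0 (tp D) htop hf0 hd0

end Pool.Agent.VDC
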