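import Pool.Agent.VDC.T1

/-!
# VDC: maps to `S / I` are functionals (helper53)
-/

set_option autoImplicit false

open MvPolynomial CategoryTheory

noncomputable section

namespace Pool.Agent.VDC

namespace RU_

variable {f : Sr}

/-- the row with entries `γ j • q (deg j + ρ)` -/
def row (X : PO) (q : ℤ → Sr) (ρ : ℤ) (γ : X.ι → ℂ) : Matrix Unit X.ι Sr :=
  fun _ j => γ j • q (X.deg j + ρ)

lemma row_hmg (X : PO) (q : ℤ → Sr) (n ρ : ℤ) (γ : X.ι → ℂ) (hγ : γ ∈ Fn X n ρ)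
    (hq : ∀ d, 0 ≤ d → d < n → Hmg (q d) d) (i : Unit) (j : X.ι) :
    Hmg (row X q ρ γ i j) (X.deg j + ρ) := by
  unfold row
  by_cases h : γ j = 0
  · rw [h, zero_smul]
    exact Hmg.zero _
  · exact (hq _ (hγ j h).1 (hγ j h).2).csmul _

lemma row_eval (X : PO) (q : ℤ → Sr) (p : Fin 4 → ℂ) (n ρ : ℤ) (γ : X.ι → ℂ)
    (hγ : γ ∈ Fn X n ρ) (hq : ∀ d, 0 ≤ d → d < n → eval p (q d) = 1) (i : Unit) (j : X.ι) :
    eval p (row X q ρ γ i j) = γ j := by
  unfold row
  by_cases h : γ j = 0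
  · rw [h, zero_smul, map_zero]
  · rw [smul_eval, hq _ (hγ j h).1 (hγ j h).2, mul_one]

lemma mul_hmg (X : PO) (ρ : ℤ) (g : Matrix Unit X.ι Sr) (hg : ∀ i j, Hmg (g i j) (X.deg j + ρ))
    (i : Unit) (k : X.ι) : Hmg ((g * X.Φ) i k) (X.deg k + ρ + 3) := by
  rw [Matrix.mul_apply]
  exact Hmg.sum fun j _ => ((hg i j).mul (X.hom j k)).congr (by ring)

lemma mul_eval (X : PO) (p : Fin 4 → ℂ) (g : Matrix Unit X.ι Sr) (γ : X.ι → ℂ)
    (hg : ∀ i j, eval p (g i j) = γ j) (i : Unit) (k : X.ι) :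
    eval p ((g * X.Φ) i k) = ∑ j, γ j * eval p (X.Φ j k) := by
  rw [Matrix.mul_apply, map_sum]
  refine Finset.sum_congr rfl fun j _ => ?_
  rw [map_mul, hg]

end RU_

open RU_ in
theorem p_RU : T_RU := by
  intro f X p n m I hq hI s ρ hs
  -- the polynomials `q`
  have hq' : ∀ d : ℤ, ∃ q : Sr, 0 ≤ d → d < n → Hmg q d ∧ eval p q = 1 := by
    intro d
    by_cases h : 0 ≤ d ∧ d < n
    · obtain ⟨q, h1⟩ := hq d h.1 h.2
      exact ⟨q, fun _ _ => h1⟩
    · exact ⟨0, fun h1 h2 => absurd ⟨h1, h2⟩ h⟩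
  choose q hq1 using hq'
  refine ⟨?_, ?_⟩
  · intro γ hγ
    have hh := row_hmg X.toPO q n ρ γ hγ.1 fun d h1 h2 => (hq1 d h1 h2).1
    have he := row_eval X.toPO q p n ρ γ hγ.1 fun d h1 h2 => (hq1 d h1 h2).2
    refine ⟨row X.toPO q ρ γ, ⟨fun i j => (hh i j).congr ?_, fun i k => ?_⟩, fun j _ => he () j⟩
    · show X.deg j + ρ = X.deg j + (ρ + m) - m
      ring
    · show dd X.toPO (UU m) s (row X.toPO q ρ γ) i k ∈ I
      have e1 : dd X.toPO (UU m) s (row X.toPO q ρ γ) i k =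
          (-s) • ((row X.toPO q ρ γ * X.Φ) i k) := by
        rw [dd_apply]
        show (((0 : Matrix Unit Unit Sr) * row X.toPO q ρ γ) -
          s • (row X.toPO q ρ γ * X.Φ)) i k = _
        rw [Matrix.zero_mul, zero_sub, Matrix.neg_apply, Matrix.smul_apply, neg_smul]
      rw [e1]
      refine zsmul_mem ((hI _ _ (mul_hmg X.toPO ρ _ hh i k)).2 ?_) _
      by_cases h : X.deg k + ρ + 3 < n
      · right
        rw [mul_eval X.toPO p _ γ he i k]
        exact hγ.2 k h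
      · left
        omega
  · intro g hg hb
    obtain ⟨_, μ, hμ, hb2⟩ := hb
    have hh := row_hmg X.toPO q n (ρ - 3) μ hμ fun d h1 h2 => (hq1 d h1 h2).1
    have he := row_eval X.toPO q p n (ρ - 3) μ hμ fun d h1 h2 => (hq1 d h1 h2).2
    refine ⟨hg.1, ?_⟩
    refine Submodule.mem_sup.2 ⟨dd X.toPO (UU m) (-s) (s • row X.toPO q (ρ - 3) μ), ?_,
      g - dd X.toPO (UU m) (-s) (s • row X.toPO q (ρ - 3) μ), ?_, by abel⟩
    · refine Submodule.mem_map.2 ⟨_, fun i j => ?_, rfl⟩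
      exact ((hh i j).zsmul s).congr (by show _ = X.deg j + (ρ + m - 3) - m; ring)
    · intro i j
      have e1 : dd X.toPO (UU m) (-s) (s • row X.toPO q (ρ - 3) μ) =
          row X.toPO q (ρ - 3) μ * X.Φ := by
        rw [dd_apply]
        show ((0 : Matrix Unit Unit Sr) * _) - (-s) • ((s • row X.toPO q (ρ - 3) μ) * X.Φ) = _
        rw [Matrix.zero_mul, zero_sub, neg_smul, neg_neg, Matrix.smul_mul, smul_smul, hs, one_smul]
      show (g - dd X.toPO (UU m) (-s) (s • row X.toPO q (ρ - 3) μ)) i j ∈ I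
      rw [e1]
      have h1 : Hmg (g i j) (X.deg j + ρ) :=
        (hg.1 i j).congr (by show X.deg j + (ρ + m) - m = _; ring)
      have h2 : Hmg ((row X.toPO q (ρ - 3) μ * X.Φ) i j) (X.deg j + ρ) :=
        (mul_hmg X.toPO (ρ - 3) _ hh i j).congr (by ring)
      rw [Matrix.sub_apply]
      refine (hI _ _ (h1.sub h2)).2 ?_
      by_cases h : X.deg j + ρ < n
      · right
        have h3 := hb2 j h
        beta_reduce at h3
        rw [if_pos h] at h3
        rw [map_sub, mul_eval X.toPO p _ μ he i j, ← h3]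
        cases i
        exact sub_self _
      · left
        omega

end Pool.Agent.VDC
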