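import Pool.Agent.VDC.T1

/-! # VDC-SER: Serre duality -/

set_option autoImplicit false

open MvPolynomial CategoryTheory

noncomputable section

namespace Pool.Agent.VDC

namespace SER_

variable {f : Sr}

lemma IM_mono {ι κ : Type} {I J : Ideal Sr} (h : I ≤ J) : IM I ι κ ≤ IM J ι κ :=
  fun _ hg i j => h (hg i j)

lemma Zc_mono {X Y : PO} {I J : Ideal Sr} {s ρ : ℤ} (h : I ≤ J) : Zc X Y I s ρ ≤ Zc X Y J s ρ :=
  fun _ hg => ⟨hg.1, IM_mono h hg.2⟩

lemma mem_Zc_of_mor {X Y : CM f} (a : mor X Y) : a.1 ∈ Zc X.toPO Y.toPO ⊥ 1 0 := by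
  obtain ⟨a, h1, h2⟩ := a
  refine ⟨fun i j => (h1 i j).congr (by ring), fun i j => ?_⟩
  show dd X.toPO Y.toPO 1 a i j ∈ _
  have h3 : dd X.toPO Y.toPO 1 a = 0 := by
    rw [dd_apply, one_smul, sub_eq_zero]
    exact h2
  rw [h3]
  exact Ideal.zero_mem _

lemma nul_of_Bc {X Y : CM f} (a : mor X Y) (h : a.1 ∈ Bc X.toPO Y.toPO ⊥ 1 0) :
    a ∈ nul X Y := by
  obtain ⟨_, h2⟩ := h
  obtain ⟨y, ⟨k, hk, rfl⟩, z, hz, h3⟩ := Submodule.mem_sup.1 h2
  have hz0 : z = 0 := by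
    ext1 i j
    exact hz i j
  refine ⟨k, fun i j => (hk i j).congr (by ring), ?_⟩
  rw [← h3, hz0, add_zero, dd_apply, neg_one_smul, sub_neg_eq_add]

lemma Bc_of_nul {X Y : CM f} {m : ℤ} {s : ℤˣ} (g : mor X (tw m s Y))
    (h : g ∈ nul X (tw m s Y)) : g.1 ∈ Bc X.toPO Y.toPO ⊥ (s : ℤ) m := by
  refine ⟨(toZ g).1, ?_⟩
  obtain ⟨k, hk, h1⟩ := h
  have h2 : g.1 = ((s : ℤ) • Y.Φ) * k + k * X.Φ := h1
  refine Submodule.mem_sup_left ⟨(s : ℤ) • k, fun i j => ?_, ?_⟩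
  · exact ((hk i j).zsmul _).congr (by show X.deg j - 3 - (Y.deg i - m) = _; ring)
  · rw [dd_apply, h2, Matrix.smul_mul, Matrix.mul_smul, Matrix.smul_mul, neg_smul, smul_smul,
      ← Units.val_mul, Int.units_mul_self, Units.val_one, one_smul, sub_neg_eq_add]

lemma Tr_add {ι : Type} [Fintype ι] (n : Fin 4 → ℕ) (b b' : Matrix ι ι Sr) (t : ℂ) :
    Tr n (b + t • b') = Tr n b + t * Tr n b' := by
  unfold Tr
  rw [Matrix.trace_add, Matrix.trace_smul, coeff_add, coeff_smul, smul_eq_mul]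

/-- the trace does not depend on the choices -/
lemma uniq (h3 : T_CH3) (h4 : T_TR0) {X : CM f} {n : Fin 4 → ℕ} (hn : ∀ i, 1 ≤ n i)
    (hN : ∀ i, NH X.toPO ((MvPolynomial.X i : Sr) ^ n i) (n i * wt i)) {ρ : ℤ}
    {b b' c c' : Matrix X.ι X.ι Sr} (hb : Ch X.toPO X.toPO n (-1) b c)
    (hb' : Ch X.toPO X.toPO n (-1) b' c')
    (hc : c - c' ∈ Bc X.toPO X.toPO ⊥ (-1) ρ) : Tr n b = Tr n b' := by
  have h5 := h3.1 X.toPO X.toPO n (-1) b c b' c' (-1) hb hb'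
  have h6 : c + (-1 : ℂ) • c' = c - c' := by
    rw [neg_one_smul, ← sub_eq_add_neg]
  rw [h6] at h5
  have h7 := h4 f X n ρ hn hN _ _ hc h5
  rw [Tr_add] at h7
  linear_combination h7

/-- descending from all powers to none -/
lemma descend (hINJ : T_INJ) (hMNZ : T_MNZ) (hMINS : T_MINS) (hHSPAN : T_HSPAN) {X Y : CM f}
    {n : Fin 4 → ℕ} (hN : ∀ i, NH Y.toPO ((MvPolynomial.X i : Sr) ^ n i) (n i * wt i))
    {s ρ : ℤ} (hs : s * s = 1) (a : Matrix Y.ι X.ι Sr) (ha : a ∈ Zc X.toPO Y.toPO ⊥ s ρ)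
    (J : Finset (Fin 4)) (hJ : a ∈ Bc X.toPO Y.toPO (mI J n) s ρ) :
    a ∈ Bc X.toPO Y.toPO ⊥ s ρ := by
  induction J using Finset.induction_on with
  | empty =>
    rw [hMINS.1 n] at hJ
    exact hJ
  | insert r J hr ih =>
    apply ih
    rw [hMINS.2 J n r] at hJ
    have hX : ∀ (k : ℕ) (i : Fin 4), Hmg ((MvPolynomial.X i : Sr) ^ k) (k * wt i) := by
      intro k i
      induction k with
      | zero =>
        rw [pow_zero]
        exact Hmg.one.congr (by simp)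
      | succ k ihk =>
        rw [pow_succ]
        refine (ihk.mul (Hmg.X i)).congr ?_
        push_cast
        ring
    refine hINJ f X Y (mI J n) ((MvPolynomial.X r : Sr) ^ n r) (n r * wt r) s ρ hs ?_ (hX _ _)
      (hMNZ J n r hr) (Or.inr (hN r)) a (Zc_mono bot_le ha) hJ
    refine hHSPAN.1 _ ?_
    rintro p ⟨j, _, rfl⟩
    exact ⟨_, hX _ _⟩

end SER_

open SER_ in
/-- Serre duality -/
theorem p_SER (hJN : T_JN) (hINJ : T_INJ) (hDUAL : T_DUAL) (hCH1 : T_CH1) (hCH2 : T_CH2)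
    (hCH3 : T_CH3) (hTR0 : T_TR0) (hMNZ : T_MNZ) (hMINS : T_MINS) (hHSPAN : T_HSPAN) :
    T_SER := by
  intro f hf
  obtain ⟨N, hN1, hN⟩ := hJN f hf
  set n : Fin 4 → ℕ := fun _ => N with hn
  have hn1 : ∀ i, 1 ≤ n i := fun _ => hN1
  have hNH : ∀ (Y : CM f) (i : Fin 4), NH Y.toPO ((MvPolynomial.X i : Sr) ^ n i) (n i * wt i) :=
    fun Y i => hN Y i
  have hz : ∀ {X Y : CM f} (c : mor X (tw 7 (-1) Y)), c.1 ∈ Zc X.toPO Y.toPO ⊥ (-1) 7 :=
    fun c => toZ c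
  have hex : ∀ (X Y : CM f) (c : mor X (tw 7 (-1) Y)), ∃ b, Ch X.toPO Y.toPO n (-1) b c.1 :=
    fun X Y c => hCH2 f X Y n (-1) 7 (by norm_num) (hNH Y) c.1 (hz c)
  choose B hB using hex
  -- the functional on representatives
  have huq : ∀ (X : CM f) (c c' : mor X (tw 7 (-1) X)) (b b' : Matrix X.ι X.ι Sr),
      Ch X.toPO X.toPO n (-1) b c.1 → Ch X.toPO X.toPO n (-1) b' c'.1 →
      c - c' ∈ nul X (tw 7 (-1) X) → Tr n b = Tr n b' := by
    intro X c c' b b' h1 h2 h3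
    exact uniq hCH3 hTR0 hn1 (hNH X) h1 h2 (Bc_of_nul (c - c') h3)
  let t0 : ∀ X : CM f, mor X (tw 7 (-1) X) →ₗ[ℂ] ℂ := fun X =>
    { toFun := fun c => Tr n (B X X c)
      map_add' := by
        intro c c'
        have h1 := hCH3.1 X.toPO X.toPO n (-1) _ _ _ _ 1 (hB X X c) (hB X X c')
        have h2 := huq X (c + c') (c + c') _ _ (hB X X (c + c')) (by
          rw [one_smul, one_smul] at h1
          exact h1) (by
          rw [sub_self]
          exact zero_mem _)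
        rw [h2]
        have h3 := Tr_add n (B X X c) (B X X c') 1
        rw [one_smul, one_mul] at h3
        exact h3
      map_smul' := by
        intro r c
        have h1 := hCH3.1 X.toPO X.toPO n (-1) _ _ _ _ (r - 1) (hB X X c) (hB X X c)
        have h4 : ∀ M : Matrix X.ι X.ι Sr, M + (r - 1) • M = r • M := by
          intro M
          rw [sub_smul, one_smul, add_sub_cancel]
        have h2 := huq X (r • c) (r • c) _ _ (hB X X (r • c)) (by
          rw [h4, h4] at h1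
          exact h1) (by
          rw [sub_self]
          exact zero_mem _)
        rw [h2]
        have h3 := Tr_add n (B X X c) (B X X c) (r - 1)
        rw [h4] at h3
        rw [h3, RingHom.id_apply, smul_eq_mul]
        ring }
  have ht0 : ∀ X : CM f, ∀ c ∈ nul X (tw 7 (-1) X), t0 X c = 0 := by
    intro X c hc
    exact hTR0 f X n 7 hn1 (hNH X) _ _ (Bc_of_nul c hc) (hB X X c)
  let t : ∀ X : CM f, (mor X (tw 7 (-1) X) ⧸ nul X (tw 7 (-1) X)) →ₗ[ℂ] ℂ := fun X =>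
    Submodule.liftQ _ (t0 X) (fun c hc => ht0 X c hc)
  have htmk : ∀ (X : CM f) (c : mor X (tw 7 (-1) X)) (b : Matrix X.ι X.ι Sr),
      Ch X.toPO X.toPO n (-1) b c.1 → t X ((nul X (tw 7 (-1) X)).mkQ c) = Tr n b := by
    intro X c b hb
    show t0 X c = Tr n b
    exact huq X c c _ _ (hB X X c) hb (by rw [sub_self]; exact zero_mem _)
  refine ⟨t, ?_, ?_⟩
  · intro X Y a b
    obtain ⟨a, rfl⟩ := Submodule.mkQ_surjective _ a
    obtain ⟨b, rfl⟩ := Submodule.mkQ_surjective _ b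
    have h1 : Ch X.toPO X.toPO n (-1) (B Y X b * a.1) (compM a b).1 :=
      hCH3.2.1 X.toPO Y.toPO X.toPO n (-1) 0 _ _ (hB Y X b) a.1 (mem_Zc_of_mor a)
    have h2 : Ch Y.toPO Y.toPO n (-1) (a.1 * B Y X b) (compM b (twM 7 (-1) a)).1 :=
      hCH3.2.2 Y.toPO X.toPO Y.toPO n (-1) 0 _ _ (hB Y X b) a.1 (mem_Zc_of_mor a)
    have h3 := htmk X (compM a b) _ h1
    have h4 := htmk Y (compM b (twM 7 (-1) a)) _ h2
    have h5 : Tr n (B Y X b * a.1) = Tr n (a.1 * B Y X b) := by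
      unfold Tr
      rw [Matrix.trace_mul_comm]
    exact h3.trans (h5.trans h4.symm)
  · intro X Y a h
    obtain ⟨a, rfl⟩ := Submodule.mkQ_surjective _ a
    refine (Submodule.Quotient.mk_eq_zero _).2 (nul_of_Bc a ?_)
    have ha := mem_Zc_of_mor a
    refine descend hINJ hMNZ hMINS hHSPAN (hNH Y) (by norm_num) a.1 ha Finset.univ ?_
    refine hDUAL f X Y n 1 0 hn1 (by norm_num) a.1 (Zc_mono bot_le ha) ?_
    intro b hb
    obtain ⟨c, hc, hbc⟩ := hCH1 f Y X n (-1) _ (by norm_num) b hb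
    have hdeg : (∑ i, ((n i : ℤ) - 1) * wt i - 0) + 12 - ∑ i, (n i : ℤ) * wt i = 7 := by
      simp only [Fin.sum_univ_four, hn, wt]
      simp
      ring
    rw [hdeg] at hc
    have h1 : Ch X.toPO X.toPO n (-1) (b * a.1) (compM a (ofZ 7 (-1) c hc)).1 :=
      hCH3.2.1 X.toPO Y.toPO X.toPO n (-1) 0 _ _ hbc a.1 ha
    have h2 := htmk X _ _ h1
    rw [← h2]
    exact h (cls (ofZ 7 (-1) c hc))

end Pool.Agent.VDC
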