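import Mathlib

/-!
# VDC: abstract Serre functors

A functor `S` of a linear category with finite dimensional morphism spaces, with cyclic and
nondegenerate traces `Hom(X, S X) → k`, commutes with all linear equivalences.
-/

set_option autoImplicit false

open CategoryTheory

namespace Pool.Agent.VDC

universe v₁ v₂ u₁ u₂

/-- cyclic and nondegenerate traces for a functor `S` -/
structure SerrePairing (k : Type) [Field k] (C : Type u₁) [Category.{v₁} C] [Preadditive C]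
    [Linear k C] (S : C ⥤ C) where
  tr : ∀ X : C, (X ⟶ S.obj X) →ₗ[k] k
  cyc : ∀ {X Y : C} (f : X ⟶ Y) (g : Y ⟶ S.obj X), tr X (f ≫ g) = tr Y (g ≫ S.map f)
  nd : ∀ {X Y : C} (f : X ⟶ Y), (∀ g : Y ⟶ S.obj X, tr X (f ≫ g) = 0) → f = 0
  nd' : ∀ {X Y : C} (g : Y ⟶ S.obj X), (∀ f : X ⟶ Y, tr X (f ≫ g) = 0) → g = 0

namespace SerrePairing

section one

variable {k : Type} [Field k] {C : Type u₁} [Category.{v₁} C] [Preadditive C] [Linear k C]
  {S : C ⥤ C} (P : SerrePairing k C S)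

/-- the pairing `Hom(X, Y) × Hom(Y, S X) → k` -/
noncomputable def pair (X Y : C) : (X ⟶ Y) →ₗ[k] (Y ⟶ S.obj X) →ₗ[k] k :=
  LinearMap.mk₂ k (fun f g => P.tr X (f ≫ g)) (by intros; simp) (by intros; simp)
    (by intros; simp) (by intros; simp)

@[simp] lemma pair_apply {X Y : C} (f : X ⟶ Y) (g : Y ⟶ S.obj X) :
    P.pair X Y f g = P.tr X (f ≫ g) := rfl

lemma pair_injective (X Y : C) : Function.Injective (P.pair X Y) := by
  rw [injective_iff_map_eq_zero]
  intro f hf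
  exact P.nd f fun g => by rw [← P.pair_apply, hf]; rfl

lemma pair_flip_injective (X Y : C) : Function.Injective (P.pair X Y).flip := by
  rw [injective_iff_map_eq_zero]
  intro g hg
  refine P.nd' g fun f => ?_
  have := LinearMap.congr_fun hg f
  simpa using this

lemma ext {X Y : C} {g g' : Y ⟶ S.obj X} (h : ∀ f : X ⟶ Y, P.tr X (f ≫ g) = P.tr X (f ≫ g')) :
    g = g' := by
  rw [← sub_eq_zero]
  refine P.nd' _ fun f => ?_
  rw [Preadditive.comp_sub, map_sub, h, sub_self]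

variable [∀ X Y : C, FiniteDimensional k (X ⟶ Y)]

include P in
lemma finrank_eq (X Y : C) : Module.finrank k (Y ⟶ S.obj X) = Module.finrank k (X ⟶ Y) := by
  apply le_antisymm
  · have := LinearMap.finrank_le_finrank_of_injective (P.pair_flip_injective X Y)
    rwa [Subspace.dual_finrank_eq] at this
  · have := LinearMap.finrank_le_finrank_of_injective (P.pair_injective X Y)
    rwa [Subspace.dual_finrank_eq] at this

lemma exists_repr {X Y : C} (φ : (X ⟶ Y) →ₗ[k] k) :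
    ∃ g : Y ⟶ S.obj X, ∀ f : X ⟶ Y, P.tr X (f ≫ g) = φ f := by
  have h1 : Function.Surjective (P.pair X Y).flip := by
    refine (LinearMap.injective_iff_surjective_of_finrank_eq_finrank ?_).1
      (P.pair_flip_injective X Y)
    rw [Subspace.dual_finrank_eq, P.finrank_eq]
  obtain ⟨g, hg⟩ := h1 φ
  exact ⟨g, fun f => by rw [← hg]; rfl⟩

end one

variable {k : Type} [Field k] {C : Type u₁} [Category.{v₁} C] [Preadditive C] [Linear k C]
  {D : Type u₂} [Category.{v₂} D] [Preadditive D] [Linear k D]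
  [∀ X Y : C, FiniteDimensional k (X ⟶ Y)] [∀ X Y : D, FiniteDimensional k (X ⟶ Y)]
  {S : C ⥤ C} {S' : D ⥤ D}

/-- a linear equivalence commutes with the Serre functors -/
theorem commutes (P : SerrePairing k C S) (P' : SerrePairing k D S') (F : C ⥤ D)
    [F.IsEquivalence] [F.Additive] [F.Linear k] : Nonempty (S ⋙ F ≅ F ⋙ S') := by
  have e : ∀ X Y : C, ∃ e : (X ⟶ Y) ≃ₗ[k] (F.obj X ⟶ F.obj Y), ∀ f, e f = F.map f := by
    intro X Y
    refine ⟨LinearEquiv.ofBijective (F.mapLinearMap k) ⟨F.map_injective, F.map_surjective⟩, ?_⟩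
    intro f
    rfl
  have hθ : ∀ X : C, ∃ g : F.obj (S.obj X) ⟶ S'.obj (F.obj X),
      ∀ f : X ⟶ S.obj X, P'.tr (F.obj X) (F.map f ≫ g) = P.tr X f := by
    intro X
    obtain ⟨e, he⟩ := e X (S.obj X)
    obtain ⟨g, hg⟩ := P'.exists_repr (P.tr X ∘ₗ e.symm.toLinearMap)
    refine ⟨g, fun f => ?_⟩
    rw [hg, ← he]
    simp
  choose θ hθ using hθ
  have hiso : ∀ X, IsIso (θ X) := by
    intro X
    have hbij : ∀ W : D, Function.Bijective fun g : W ⟶ F.obj (S.obj X) => g ≫ θ X := by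
      intro W
      have hinj : ∀ W : D, Function.Injective fun g : W ⟶ F.obj (S.obj X) => g ≫ θ X := by
        intro W g g' h
        obtain ⟨Y, ⟨i⟩⟩ := (⟨F.objPreimage W, ⟨F.objObjPreimageIso W⟩⟩ : ∃ Y, Nonempty (F.obj Y ≅ W))
        rw [← sub_eq_zero]
        have h1 : (g - g') ≫ θ X = 0 := by
          rw [Preadditive.sub_comp, sub_eq_zero]
          exact h
        obtain ⟨g₀, hg₀⟩ := F.map_surjective (i.hom ≫ (g - g'))
        have h2 : g₀ = 0 := by
          apply P.nd'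
          intro f
          rw [← hθ, F.map_comp, hg₀, Category.assoc, Category.assoc, h1]
          simp
        have h3 : i.hom ≫ (g - g') = 0 := by
          rw [← hg₀, h2, F.map_zero]
        have h4 : i.inv ≫ i.hom ≫ (g - g') = 0 := by rw [h3]; simp
        simpa using h4
      refine ⟨hinj W, ?_⟩
      let L : (W ⟶ F.obj (S.obj X)) →ₗ[k] (W ⟶ S'.obj (F.obj X)) := Linear.rightComp k W (θ X)
      have hL : Function.Surjective L := by
        refine (LinearMap.injective_iff_surjective_of_finrank_eq_finrank ?_).1 (hinj W)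
        rw [P'.finrank_eq]
        obtain ⟨Y, ⟨i⟩⟩ := (⟨F.objPreimage W, ⟨F.objObjPreimageIso W⟩⟩ : ∃ Y, Nonempty (F.obj Y ≅ W))
        have h1 : Module.finrank k (W ⟶ F.obj (S.obj X)) = Module.finrank k (Y ⟶ S.obj X) := by
          obtain ⟨e, -⟩ := e Y (S.obj X)
          exact (LinearEquiv.finrank_eq (Linear.homCongr k i (Iso.refl (F.obj (S.obj X))))).symm.trans
            e.finrank_eq.symm
        have h2 : Module.finrank k (F.obj X ⟶ W) = Module.finrank k (X ⟶ Y) := by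
          obtain ⟨e, -⟩ := e X Y
          exact (LinearEquiv.finrank_eq (Linear.homCongr k (Iso.refl (F.obj X)) i)).symm.trans
            e.finrank_eq.symm
        rw [h1, h2, P.finrank_eq]
      exact hL
    obtain ⟨g, hg⟩ := (hbij (S'.obj (F.obj X))).2 (𝟙 _)
    refine ⟨g, ?_, hg⟩
    apply (hbij _).1
    change (θ X ≫ g) ≫ θ X = 𝟙 _ ≫ θ X
    have hg' : g ≫ θ X = 𝟙 _ := hg
    rw [Category.assoc, hg', Category.comp_id, Category.id_comp]
  refine ⟨NatIso.ofComponents (fun X => asIso (θ X)) ?_⟩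
  intro X Y u
  change F.map (S.map u) ≫ θ Y = θ X ≫ S'.map (F.map u)
  apply P'.ext
  intro h
  obtain ⟨h₀, rfl⟩ := F.map_surjective h
  rw [← Category.assoc, ← F.map_comp, hθ, ← P.cyc, ← hθ, F.map_comp, Category.assoc, P'.cyc,
    Category.assoc]

end SerrePairing

/-- cancellation of an equivalence on the source -/
theorem cancel_left {C : Type u₁} [Category.{v₁} C] {D : Type u₂} [Category.{v₂} D]
    (T : C ⥤ C) [T.IsEquivalence] {G G' : C ⥤ D} (h : Nonempty (T ⋙ G ≅ T ⋙ G')) :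
    Nonempty (G ≅ G') := by
  obtain ⟨i⟩ := h
  let e := T.asEquivalence
  exact ⟨(Functor.leftUnitor G).symm ≪≫ Functor.isoWhiskerRight e.counitIso.symm G ≪≫
    Functor.associator _ _ _ ≪≫ Functor.isoWhiskerLeft e.inverse i ≪≫
    (Functor.associator _ _ _).symm ≪≫ Functor.isoWhiskerRight e.counitIso G' ≪≫
    Functor.leftUnitor G'⟩

/-- if `S = V [2]`, then an equivalence that commutes with `[1]` and `S` commutes with `V` -/
theorem commutes_of_shift {C : Type u₁} [Category.{v₁} C] {D : Type u₂} [Category.{v₂} D]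
    {S T V : C ⥤ C} {S' T' V' : D ⥤ D} [T.IsEquivalence] (hS : Nonempty (S ≅ T ⋙ T ⋙ V))
    (hS' : Nonempty (S' ≅ T' ⋙ T' ⋙ V')) (F : C ⥤ D) (hT : Nonempty (T ⋙ F ≅ F ⋙ T'))
    (hF : Nonempty (S ⋙ F ≅ F ⋙ S')) : Nonempty (V ⋙ F ≅ F ⋙ V') := by
  obtain ⟨iS⟩ := hS
  obtain ⟨iS'⟩ := hS'
  obtain ⟨iT⟩ := hT
  obtain ⟨iF⟩ := hF
  apply cancel_left T
  apply cancel_left T
  have a1 : T ⋙ T ⋙ V ⋙ F ≅ S ⋙ F := (Functor.isoWhiskerRight iS F).symm
  have a2 : F ⋙ S' ≅ F ⋙ T' ⋙ T' ⋙ V' := Functor.isoWhiskerLeft F iS'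
  have a3 : F ⋙ T' ⋙ T' ⋙ V' ≅ T ⋙ F ⋙ T' ⋙ V' :=
    Functor.isoWhiskerRight iT.symm (T' ⋙ V')
  have a4 : T ⋙ F ⋙ T' ⋙ V' ≅ T ⋙ T ⋙ F ⋙ V' :=
    Functor.isoWhiskerLeft T (Functor.isoWhiskerRight iT.symm V')
  exact ⟨a1 ≪≫ iF ≪≫ a2 ≪≫ a3 ≪≫ a4⟩

end Pool.Agent.VDC
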