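import Pool.Agent.VDC.T1
import Pool.Agent.VDC.CatSerre

/-!
# VDC, target SFU: equivalences commute with Serre functors
-/

set_option autoImplicit false

open CategoryTheory

namespace Pool.Agent.VDC

namespace SFU_

lemma full (f : Sr) (m : ℤ) (s : ℤˣ) (X Y : CM f)
    (b : (twF f m s).obj X ⟶ (twF f m s).obj Y) : ∃ a : X ⟶ Y, (twF f m s).map a = b := by
  obtain ⟨g, rfl⟩ := Submodule.mkQ_surjective _ b
  obtain ⟨g, h1, h2⟩ := g
  change Matrix Y.ι X.ι Sr at g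
  have h3 : Y.Φ * g = g * X.Φ := by
    have h4 : ((s : ℤ) • Y.Φ) * g = g * ((s : ℤ) • X.Φ) := h2
    rw [Matrix.smul_mul, Matrix.mul_smul] at h4
    have h5 := congrArg (fun M => (s : ℤ) • M) h4
    simp only [smul_smul, ← Units.val_mul, Int.units_mul_self, Units.val_one, one_smul] at h5
    exact h5
  exact ⟨(nul X Y).mkQ ⟨g, fun i j => (h1 i j).congr
    (by show (X.deg j - m) - (Y.deg i - m) = _; ring), h3⟩, rfl⟩

noncomputable def pairing (f : Sr) (t : ∀ X : CM f, (X ⟶ (twF f 7 (-1)).obj X) →ₗ[ℂ] ℂ)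
    (h1 : ∀ (X Y : CM f) (a : X ⟶ Y) (b : Y ⟶ (twF f 7 (-1)).obj X),
      t X (a ≫ b) = t Y (b ≫ (twF f 7 (-1)).map a))
    (h2 : ∀ (X Y : CM f) (a : X ⟶ Y), (∀ b : Y ⟶ (twF f 7 (-1)).obj X, t X (a ≫ b) = 0) →
      a = 0) : SerrePairing ℂ (CM f) (twF f 7 (-1)) where
  tr := t
  cyc {X Y} a b := h1 X Y a b
  nd {X Y} a h := h2 X Y a h
  nd' {X Y} b h := by
    apply h2 Y _ b
    intro c
    obtain ⟨a, rfl⟩ := full f 7 (-1) X Y c
    rw [← h1]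
    exact h a

end SFU_

theorem p_SFU (h1 : T_SER) (h2 : T_FDH) : T_SFU := by
  intro f f' hf hf' F hF1 hF2 hF3
  obtain ⟨t, ht1, ht2⟩ := h1 f hf
  obtain ⟨t', ht1', ht2'⟩ := h1 f' hf'
  have : ∀ X Y : CM f, FiniteDimensional ℂ (X ⟶ Y) := fun X Y => h2 f X Y
  have : ∀ X Y : CM f', FiniteDimensional ℂ (X ⟶ Y) := fun X Y => h2 f' X Y
  exact SerrePairing.commutes (SFU_.pairing f t ht1 ht2) (SFU_.pairing f' t' ht1' ht2') F

end Pool.Agent.VDC
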