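import Pool.Agent.VDC.T1

/-!
# VDC-SIG: an operator anticommuting with `Φ` modulo an ideal
-/

set_option autoImplicit false

open MvPolynomial CategoryTheory

noncomputable section

namespace Pool.Agent.VDC

namespace SIG_

/-- the algebra of homogeneous matrices of degree zero -/
def alg (X : PO) : Subalgebra ℂ (Matrix X.ι X.ι Sr) where
  carrier := {g | g ∈ HM X X 0}
  add_mem' ha hb := (HM X X 0).add_mem ha hb
  mul_mem' := by
    intro a b ha hb i j
    rw [Matrix.mul_apply]
    exact Hmg.sum fun k _ => ((ha i k).mul (hb k j)).congr (by ring)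
  algebraMap_mem' := by
    intro r i j
    rw [Matrix.algebraMap_matrix_apply]
    by_cases h : i = j
    · subst h
      rw [if_pos rfl, MvPolynomial.algebraMap_eq]
      have h1 : (C r : Sr) = r • (1 : Sr) := by
        rw [MvPolynomial.smul_eq_C_mul, mul_one]
      rw [h1]
      exact (Hmg.one.csmul r).congr (by ring)
    · rw [if_neg h]
      exact Hmg.zero _

lemma mem_alg {X : PO} {g : Matrix X.ι X.ι Sr} : g ∈ alg X ↔ g ∈ HM X X 0 := Iff.rfl

lemma isIntegral (h1 : T_HFIN) (X : PO) (h : Matrix X.ι X.ι Sr) (hh : h ∈ HM X X 0) :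
    IsIntegral ℂ h := by
  have : Module.Finite ℂ (HM X X 0) := h1 X X 0
  have : Module.Finite ℂ (alg X) := h1 X X 0
  have h2 : IsIntegral ℂ (⟨h, hh⟩ : alg X) := IsIntegral.of_finite ℂ _
  exact h2.map (alg X).val

lemma aeval_mem {X : PO} {h : Matrix X.ι X.ι Sr} (hh : h ∈ HM X X 0) (p : Polynomial ℂ) :
    Polynomial.aeval h p ∈ HM X X 0 := by
  have h2 : Polynomial.aeval h p = (alg X).val (Polynomial.aeval (⟨h, hh⟩ : alg X) p) := by
    rw [← Polynomial.aeval_algHom_apply]
    rfl
  rw [h2]
  exact (Polynomial.aeval (⟨h, hh⟩ : alg X) p).2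

lemma mul_right_IM {ι : Type} [Fintype ι] {I : Ideal Sr} {a : Matrix ι ι Sr}
    (ha : a ∈ IM I ι ι) (b : Matrix ι ι Sr) : a * b ∈ IM I ι ι := by
  intro i j
  rw [Matrix.mul_apply]
  exact I.sum_mem fun k _ => I.mul_mem_right _ (ha i k)

lemma mul_left_IM {ι : Type} [Fintype ι] {I : Ideal Sr} {a : Matrix ι ι Sr}
    (ha : a ∈ IM I ι ι) (b : Matrix ι ι Sr) : b * a ∈ IM I ι ι := by
  intro i j
  rw [Matrix.mul_apply]
  exact I.sum_mem fun k _ => I.mul_mem_left _ (ha k j)

/-- `Φ p(h) = p(h + 1) Φ` -/
lemma shift {ι : Type} [Fintype ι] [DecidableEq ι] {I : Ideal Sr} {P h : Matrix ι ι Sr}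
    (hP : P * h - h * P - P ∈ IM I ι ι) (p : Polynomial ℂ) :
    P * Polynomial.aeval h p - Polynomial.aeval (h + 1) p * P ∈ IM I ι ι := by
  induction p using Polynomial.induction_on with
  | C a =>
    rw [Polynomial.aeval_C, Polynomial.aeval_C, ← Algebra.commutes a P, sub_self]
    exact zero_mem _
  | add p q hp hq =>
    rw [map_add, map_add, Matrix.mul_add, Matrix.add_mul, add_sub_add_comm]
    exact add_mem hp hq
  | monomial n a hn =>
    have e1 : ∀ g : Matrix ι ι Sr, Polynomial.aeval g (Polynomial.C a * Polynomial.X ^ (n + 1)) =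
        Polynomial.aeval g (Polynomial.C a * Polynomial.X ^ n) * g := by
      intro g
      rw [pow_succ, ← mul_assoc, map_mul _ _ Polynomial.X, Polynomial.aeval_X]
    rw [e1, e1]
    set u := Polynomial.aeval h (Polynomial.C a * Polynomial.X ^ n) with hu
    set v := Polynomial.aeval (h + 1) (Polynomial.C a * Polynomial.X ^ n) with hv
    have e2 : P * (u * h) - v * (h + 1) * P = (P * u - v * P) * h + v * (P * h - h * P - P) := by
      noncomm_ring
    rw [e2]
    exact add_mem (mul_right_IM hn h) (mul_left_IM hP v)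

/-- prescribed values at finitely many points, to a given order -/
lemma crt (S : Finset ℂ) (M : ℕ) (c : ℂ → ℂ) : ∃ p : Polynomial ℂ, ∀ μ ∈ S,
    (Polynomial.X - Polynomial.C μ) ^ M ∣ p - Polynomial.C (c μ) := by
  classical
  obtain ⟨y, hy⟩ := IsDedekindDomain.exists_forall_sub_mem_ideal (s := S)
    (fun μ : ℂ => Ideal.span {(Polynomial.X - Polynomial.C μ : Polynomial ℂ)}) (fun _ => M)
    (fun μ _ => by
      have h1 : Irreducible (Polynomial.X - Polynomial.C μ : Polynomial ℂ) :=
        Polynomial.irreducible_X_sub_C μ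
      have h2 : (Ideal.span {(Polynomial.X - Polynomial.C μ : Polynomial ℂ)}).IsPrime :=
        (Ideal.span_singleton_prime h1.ne_zero).2 h1.prime
      exact Ideal.prime_of_isPrime (by
        rw [Ne, Ideal.span_singleton_eq_bot]
        exact h1.ne_zero) h2)
    (fun μ _ ν _ hne h => by
      have h1 : (Polynomial.X - Polynomial.C μ : Polynomial ℂ) ∈
          Ideal.span {(Polynomial.X - Polynomial.C ν : Polynomial ℂ)} := by
        have h2 : Ideal.span {(Polynomial.X - Polynomial.C μ : Polynomial ℂ)} =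
          Ideal.span {(Polynomial.X - Polynomial.C ν : Polynomial ℂ)} := h
        rw [← h2]
        exact Ideal.mem_span_singleton_self _
      rw [Ideal.mem_span_singleton, Polynomial.dvd_iff_isRoot] at h1
      have h3 : ν - μ = 0 := by simpa [Polynomial.IsRoot.def] using h1
      exact hne (sub_eq_zero.1 h3).symm)
    (fun μ => Polynomial.C (c μ))
  refine ⟨y, fun μ hμ => ?_⟩
  have h1 := hy μ hμ
  rw [Ideal.span_singleton_pow, Ideal.mem_span_singleton] at h1
  exact h1

lemma exists_poly (q : Polynomial ℂ) (hq : q.Monic) : ∃ p p' : Polynomial ℂ,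
    q ∣ p * p' - 1 ∧ q ∣ p.comp (Polynomial.X + 1) + p := by
  classical
  set S : Finset ℂ := q.roots.toFinset with hS
  set T : Finset ℂ := S ∪ S.image (fun μ => μ + 1) with hT
  set M : ℕ := q.natDegree with hM
  obtain ⟨p, hp⟩ := crt T M (fun μ => Complex.exp (Complex.I * Real.pi * μ))
  obtain ⟨p', hp'⟩ := crt T M (fun μ => (Complex.exp (Complex.I * Real.pi * μ))⁻¹)
  have hco : ((S : Set ℂ)).Pairwise (Function.onFun IsCoprime
      fun μ : ℂ => (Polynomial.X - Polynomial.C μ : Polynomial ℂ) ^ M) := by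
    intro μ _ ν _ hne
    exact (Polynomial.isCoprime_X_sub_C_of_isUnit_sub
      (isUnit_iff_ne_zero.2 (sub_ne_zero.2 hne))).pow
  have hqd : q ∣ ∏ μ ∈ S, (Polynomial.X - Polynomial.C μ) ^ M := by
    have h1 : q = ∏ μ ∈ S, (Polynomial.X - Polynomial.C μ) ^ (q.roots.count μ) := by
      have h2 := (IsAlgClosed.splits q).eq_prod_roots_of_monic hq
      rw [Finset.prod_multiset_map_count] at h2
      exact h2
    conv_lhs => rw [h1]
    apply Finset.prod_dvd_prod_of_dvd
    intro μ _
    exact pow_dvd_pow _ ((Multiset.count_le_card _ _).trans (Polynomial.card_roots' q))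
  refine ⟨p, p', ?_, ?_⟩
  · refine hqd.trans (Finset.prod_dvd_of_coprime hco fun μ hμ => ?_)
    have h1 := hp μ (Finset.mem_union_left _ hμ)
    have h2 := hp' μ (Finset.mem_union_left _ hμ)
    have e : p * p' - 1 = (p - Polynomial.C (Complex.exp (Complex.I * Real.pi * μ))) * p' +
        Polynomial.C (Complex.exp (Complex.I * Real.pi * μ)) *
          (p' - Polynomial.C ((Complex.exp (Complex.I * Real.pi * μ))⁻¹)) := by
      have e1 : Polynomial.C (Complex.exp (Complex.I * Real.pi * μ)) *
          Polynomial.C ((Complex.exp (Complex.I * Real.pi * μ))⁻¹) = 1 := by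
        rw [← Polynomial.C_mul, mul_inv_cancel₀ (Complex.exp_ne_zero _), Polynomial.C_1]
      linear_combination e1
    rw [e]
    exact dvd_add (h1.mul_right _) (h2.mul_left _)
  · refine hqd.trans (Finset.prod_dvd_of_coprime hco fun μ hμ => ?_)
    have h1 := hp μ (Finset.mem_union_left _ hμ)
    have h2 := hp (μ + 1) (Finset.mem_union_right _ (Finset.mem_image_of_mem _ hμ))
    obtain ⟨r, hr⟩ := h2
    have h3 : (Polynomial.X - Polynomial.C μ) ^ M ∣ p.comp (Polynomial.X + 1) -
        Polynomial.C (Complex.exp (Complex.I * Real.pi * (μ + 1))) := by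
      refine ⟨r.comp (Polynomial.X + 1), ?_⟩
      have h4 := congrArg (fun s => Polynomial.comp s (Polynomial.X + 1)) hr
      simp only [Polynomial.sub_comp, Polynomial.C_comp, Polynomial.mul_comp,
        Polynomial.pow_comp, Polynomial.X_comp] at h4
      rw [h4]
      congr 2
      rw [Polynomial.C_add, Polynomial.C_1]
      ring
    have e1 : Complex.exp (Complex.I * Real.pi * (μ + 1)) =
        - Complex.exp (Complex.I * Real.pi * μ) := by
      rw [mul_add, mul_one, Complex.exp_add, mul_comm Complex.I (Real.pi : ℂ),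
        Complex.exp_pi_mul_I]
      ring
    rw [e1, Polynomial.C_neg] at h3
    have e : p.comp (Polynomial.X + 1) + p =
        (p.comp (Polynomial.X + 1) -
          -Polynomial.C (Complex.exp (Complex.I * Real.pi * μ))) +
        (p - Polynomial.C (Complex.exp (Complex.I * Real.pi * μ))) := by ring
    rw [e]
    exact dvd_add h3 h1

end SIG_

open SIG_ in
theorem p_SIG (h1 : T_HFIN) : T_SIG := by
  intro X I h hh hP
  have hint := isIntegral h1 X h hh
  obtain ⟨q, hq, hq0⟩ := hint
  have hq0' : Polynomial.aeval h q = 0 := hq0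
  obtain ⟨p, p', hpp, hps⟩ := exists_poly q hq
  have hz : ∀ r : Polynomial ℂ, q ∣ r → Polynomial.aeval h r = 0 := by
    rintro r ⟨s, rfl⟩
    rw [map_mul, hq0', zero_mul]
  have e1 : Polynomial.aeval h p * Polynomial.aeval h p' = 1 := by
    have h2 := hz _ hpp
    rw [map_sub, map_mul, map_one, sub_eq_zero] at h2
    exact h2
  have e2 : Polynomial.aeval h p' * Polynomial.aeval h p = 1 := by
    rw [← map_mul, mul_comm, map_mul]
    exact e1
  refine ⟨Polynomial.aeval h p, aeval_mem hh p, Polynomial.aeval h p', aeval_mem hh p',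
    e1, e2, ?_⟩
  have h3 := shift hP p
  have h4 : Polynomial.aeval (h + 1) p = Polynomial.aeval h (p.comp (Polynomial.X + 1)) := by
    rw [Polynomial.aeval_comp, map_add, Polynomial.aeval_X, map_one]
  have h5 : Polynomial.aeval h (p.comp (Polynomial.X + 1)) = - Polynomial.aeval h p := by
    have h6 := hz _ hps
    rw [map_add] at h6
    exact eq_neg_of_add_eq_zero_left h6
  rw [h4, h5, neg_mul, sub_neg_eq_add] at h3
  exact h3

end Pool.Agent.VDC
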