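import Pool.Agent.VDC.T1

/-!
# VDC-SIGD: symmetry of the dimensions
-/

set_option autoImplicit false

open MvPolynomial CategoryTheory

noncomputable section

namespace Pool.Agent.VDC

namespace SIGD_

lemma HM_mul {X Y Z : PO} {ρ τ : ℤ} {g : Matrix Z.ι Y.ι Sr} {h : Matrix Y.ι X.ι Sr}
    (hg : g ∈ HM Y Z ρ) (hh : h ∈ HM X Y τ) : g * h ∈ HM X Z (ρ + τ) := by
  intro i j
  rw [Matrix.mul_apply]
  exact Hmg.sum fun k _ => ((hg i k).mul (hh k j)).congr (by ring)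

lemma IM_mul_right {I : Ideal Sr} {α β γ : Type} [Fintype β] {g : Matrix α β Sr}
    (h : Matrix β γ Sr) (hg : g ∈ IM I α β) : g * h ∈ IM I α γ := by
  intro i j
  rw [Matrix.mul_apply]
  exact I.sum_mem fun k _ => I.mul_mem_right _ (hg i k)

lemma IM_mul_left {I : Ideal Sr} {α β γ : Type} [Fintype β] (g : Matrix α β Sr)
    {h : Matrix β γ Sr} (hh : h ∈ IM I β γ) : g * h ∈ IM I α γ := by
  intro i j
  rw [Matrix.mul_apply]
  exact I.sum_mem fun k _ => I.mul_mem_left _ (hh k j)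

lemma IM_zsmul {I : Ideal Sr} {α β : Type} (s : ℤ) {g : Matrix α β Sr} (hg : g ∈ IM I α β) :
    s • g ∈ IM I α β := zsmul_mem hg s

lemma dd_mul (X Y : PO) (s : ℤ) (g : Matrix Y.ι X.ι Sr) (σ : Matrix X.ι X.ι Sr) :
    dd X Y (-s) (g * σ) = dd X Y s g * σ + s • (g * (X.Φ * σ + σ * X.Φ)) := by
  rw [dd_apply, dd_apply, Matrix.sub_mul, Matrix.mul_add, smul_add, Matrix.smul_mul, neg_smul,
    Matrix.mul_assoc g σ, Matrix.mul_assoc Y.Φ g σ, Matrix.mul_assoc g X.Φ σ]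
  abel

variable {X Y : PO} {I : Ideal Sr} {σ : Matrix X.ι X.ι Sr}

lemma Zc_mul (hσ : σ ∈ HM X X 0) (h : X.Φ * σ + σ * X.Φ ∈ IM I X.ι X.ι) {s ρ : ℤ}
    {g : Matrix Y.ι X.ι Sr} (hg : g ∈ Zc X Y I s ρ) : g * σ ∈ Zc X Y I (-s) ρ := by
  obtain ⟨h1, h2⟩ := hg
  refine ⟨?_, ?_⟩
  · have := HM_mul h1 hσ
    rwa [add_zero] at this
  · show dd X Y (-s) (g * σ) ∈ IM I Y.ι X.ι
    rw [dd_mul]
    exact add_mem (IM_mul_right σ h2) (IM_zsmul s (IM_mul_left g h))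

lemma Bc_mul (hσ : σ ∈ HM X X 0) (h : X.Φ * σ + σ * X.Φ ∈ IM I X.ι X.ι) {s ρ : ℤ}
    {g : Matrix Y.ι X.ι Sr} (hg : g ∈ Bc X Y I s ρ) : g * σ ∈ Bc X Y I (-s) ρ := by
  obtain ⟨h1, h2⟩ := hg
  refine ⟨?_, ?_⟩
  · have := HM_mul h1 hσ
    rwa [add_zero] at this
  · obtain ⟨a, ⟨b, hb, rfl⟩, c, hc, rfl⟩ := Submodule.mem_sup.1 h2
    have e1 : (dd X Y (-s) b + c) * σ =
        dd X Y (- -s) (b * σ) + (c * σ + s • (b * (X.Φ * σ + σ * X.Φ))) := by
      rw [dd_mul, Matrix.add_mul, neg_smul]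
      abel
    rw [e1]
    refine Submodule.add_mem_sup ⟨b * σ, ?_, rfl⟩
      (add_mem (IM_mul_right σ hc) (IM_zsmul s (IM_mul_left b h)))
    have := HM_mul hb hσ
    rwa [add_zero] at this

lemma quot_eq {M : Type} [AddCommGroup M] [Module ℂ M] (e : M ≃ₗ[ℂ] M) (p q p' q' : Submodule ℂ M)
    (hp : p.map (e : M →ₗ[ℂ] M) = p') (hq : q.map (e : M →ₗ[ℂ] M) = q') :
    Module.finrank ℂ (p ⧸ q.comap p.subtype) = Module.finrank ℂ (p' ⧸ q'.comap p'.subtype) := by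
  subst hp hq
  refine LinearEquiv.finrank_eq (Submodule.Quotient.equiv _ _ (e.submoduleMap p) ?_)
  ext ⟨x, hx⟩
  constructor
  · rintro ⟨y, hy, hxy⟩
    have h1 : e (y : M) = x := congrArg Subtype.val hxy
    exact ⟨(y : M), hy, h1⟩
  · rintro ⟨y, hy, hxy⟩
    have hxy' : e y = x := hxy
    obtain ⟨z, hz, hzx⟩ := hx
    have h2 : e z = x := hzx
    have h3 : y = z := e.injective (hxy'.trans h2.symm)
    subst h3
    exact ⟨⟨y, hz⟩, hy, Subtype.ext hxy'⟩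

end SIGD_

open SIGD_ in
theorem p_SIGD : T_SIGD := by
  intro X Y I σ σ' hσ hσ' h1 h2 h3 s ρ
  have h3' : X.Φ * σ' + σ' * X.Φ ∈ IM I X.ι X.ι := by
    have h4 := IM_mul_right σ' (IM_mul_left σ' h3)
    have h5 : σ' * (X.Φ * σ + σ * X.Φ) * σ' = X.Φ * σ' + σ' * X.Φ := by
      rw [Matrix.mul_add, Matrix.add_mul, ← Matrix.mul_assoc σ' σ, h2, Matrix.one_mul,
        ← Matrix.mul_assoc σ' X.Φ σ, Matrix.mul_assoc (σ' * X.Φ) σ σ', h1, Matrix.mul_one,
        add_comm]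
    rwa [h5] at h4
  let e : Matrix Y.ι X.ι Sr ≃ₗ[ℂ] Matrix Y.ι X.ι Sr :=
    { toFun := fun g => g * σ
      invFun := fun g => g * σ'
      map_add' := fun a b => Matrix.add_mul a b σ
      map_smul' := fun c a => Matrix.smul_mul c a σ
      left_inv := fun g => by
        show g * σ * σ' = g
        rw [Matrix.mul_assoc, h1, Matrix.mul_one]
      right_inv := fun g => by
        show g * σ' * σ = g
        rw [Matrix.mul_assoc, h2, Matrix.mul_one] }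
  refine quot_eq e _ _ _ _ ?_ ?_
  · ext x
    constructor
    · rintro ⟨y, hy, rfl⟩
      exact Zc_mul hσ h3 hy
    · intro hx
      refine ⟨x * σ', ?_, ?_⟩
      · have := Zc_mul hσ' h3' hx
        rwa [neg_neg] at this
      · show x * σ' * σ = x
        rw [Matrix.mul_assoc, h2, Matrix.mul_one]
  · ext x
    constructor
    · rintro ⟨y, hy, rfl⟩
      exact Bc_mul hσ h3 hy
    · intro hx
      refine ⟨x * σ', ?_, ?_⟩
      · have := Bc_mul hσ' h3' hx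
        rwa [neg_neg] at this
      · show x * σ' * σ = x
        rw [Matrix.mul_assoc, h2, Matrix.mul_one]

end Pool.Agent.VDC

end
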