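import Pool.Agent.VDC.T1

/-!
# VDC: a splitting criterion modulo the variables
-/

set_option autoImplicit false

open MvPolynomial CategoryTheory

noncomputable section

namespace Pool.Agent.VDC

namespace SPL_

theorem dd_cone {f : Sr} {G K : CM f} (i : mor G K) (s : ℤ) (u : Matrix G.ι K.ι Sr)
    (v : Matrix G.ι G.ι Sr) :
    dd (cone i).toPO G.toPO s (Matrix.fromCols u v) =
      Matrix.fromCols (G.Φ * u - s • (u * K.Φ))
        (G.Φ * v - s • (u * i.1) + s • (v * G.Φ)) := by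
  rw [dd_apply]
  show G.Φ * Matrix.fromCols u v - s • (Matrix.fromCols u v *
    Matrix.fromBlocks K.Φ i.1 0 (-G.Φ)) = _
  rw [Matrix.mul_fromCols, Matrix.fromCols_mul_fromBlocks]
  ext1 a b
  rcases b with b | b
  · simp
  · simp only [Matrix.sub_apply, Matrix.smul_apply, Matrix.fromCols_apply_inr, Matrix.add_apply,
      Matrix.mul_neg, Matrix.neg_apply, smul_add, smul_neg]
    abel

theorem hm_cone {f : Sr} {G K : CM f} (i : mor G K) (u : Matrix G.ι K.ι Sr)
    (v : Matrix G.ι G.ι Sr) (ρ : ℤ) :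
    Matrix.fromCols u v ∈ HM (cone i).toPO G.toPO ρ ↔
      u ∈ HM K.toPO G.toPO ρ ∧ v ∈ HM G.toPO G.toPO (ρ - 3) := by
  constructor
  · intro h
    refine ⟨fun a b => h a (Sum.inl b), fun a b => ?_⟩
    exact (h a (Sum.inr b)).congr (by show G.deg b - 3 + ρ - G.deg a = _; ring)
  · rintro ⟨hu, hv⟩ a (b | b)
    · exact hu a b
    · exact (hv a b).congr (by show _ = G.deg b - 3 + ρ - G.deg a; ring)

end SPL_

open SPL_ in
theorem p_SPL (h1 : T_INJ) (h2 : T_MNZ) (h3 : T_MINS) (h4 : T_HSPAN) : T_SPL := by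
  intro f G K i u0 v0 hNH hu0 hv0 hc hs
  have hone : (1 : Matrix G.ι G.ι Sr) ∈ HM G.toPO G.toPO 0 := by
    intro a b
    by_cases h : a = b
    · subst h
      rw [Matrix.one_apply_eq]
      exact Hmg.one.congr (by ring)
    · rw [Matrix.one_apply_ne h]
      exact Hmg.zero _
  obtain ⟨a, ha⟩ : ∃ a : Matrix G.ι (K.ι ⊕ G.ι) Sr, a = Matrix.fromCols 0 1 := ⟨_, rfl⟩
  have haHM : a ∈ HM (cone i).toPO G.toPO 3 := by
    rw [ha, hm_cone]
    exact ⟨zero_mem _, by simpa using hone⟩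
  have hdd : dd (cone i).toPO G.toPO (-1) a = 0 := by
    rw [ha, dd_cone]
    ext1 x y
    rcases y with y | y <;> simp
  have hZ : ∀ I, a ∈ Zc (cone i).toPO G.toPO I (-1) 3 := by
    intro I
    refine ⟨haHM, ?_⟩
    show dd (cone i).toPO G.toPO (-1) a ∈ IM I G.ι (K.ι ⊕ G.ι)
    rw [hdd]
    exact zero_mem _
  have htop : a ∈ Bc (cone i).toPO G.toPO (mI Finset.univ 1) (-1) 3 := by
    refine ⟨haHM, ?_⟩
    refine Submodule.mem_sup.2 ⟨dd (cone i).toPO G.toPO (-(-1)) (Matrix.fromCols (-u0) v0),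
      Submodule.mem_map_of_mem ?_, a - dd (cone i).toPO G.toPO (-(-1))
        (Matrix.fromCols (-u0) v0), ?_, by abel⟩
    · have : (3 : ℤ) - 3 = 0 := by norm_num
      rw [this]
      exact (hm_cone i _ _ _).2 ⟨neg_mem hu0, by simpa using hv0⟩
    · rw [ha, dd_cone]
      rintro x (y | y)
      · have := hc x y
        have e : (Matrix.fromCols (0 : Matrix G.ι K.ι Sr) (1 : Matrix G.ι G.ι Sr) -
          Matrix.fromCols (G.Φ * -u0 - (-(-1) : ℤ) • (-u0 * K.Φ))
            (G.Φ * v0 - (-(-1) : ℤ) • (-u0 * i.1) + (-(-1) : ℤ) • (v0 * G.Φ))) x (Sum.inl y) =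
            (G.Φ * u0 - u0 * K.Φ) x y := by
          simp
          ring
        rw [e]
        exact this
      · have := neg_mem (hs x y)
        have e : (Matrix.fromCols (0 : Matrix G.ι K.ι Sr) (1 : Matrix G.ι G.ι Sr) -
          Matrix.fromCols (G.Φ * -u0 - (-(-1) : ℤ) • (-u0 * K.Φ))
            (G.Φ * v0 - (-(-1) : ℤ) • (-u0 * i.1) + (-(-1) : ℤ) • (v0 * G.Φ))) x (Sum.inr y) =
            -((u0 * i.1 + G.Φ * v0 + v0 * G.Φ - 1 : Matrix G.ι G.ι Sr) x y) := by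
          simp
          ring
        rw [e]
        exact this
  have hchain : ∀ J : Finset (Fin 4), a ∈ Bc (cone i).toPO G.toPO (mI J 1) (-1) 3 →
      a ∈ Bc (cone i).toPO G.toPO (mI ∅ 1) (-1) 3 := by
    intro J
    induction J using Finset.induction_on with
    | empty => exact fun h => h
    | insert r J hr ih =>
      intro h
      refine ih ?_
      rw [h3.2 J 1 r] at h
      have hX : ((X r : Sr) ^ (1 : Fin 4 → ℕ) r) = X r := by simp
      have hnz := h2 J 1 r hr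
      rw [hX] at h hnz
      refine h1 f (cone i) G (mI J 1) (X r) (wt r) (-1) 3 (by norm_num) ?_ (Hmg.X r) hnz
        (Or.inr (hNH r)) a (hZ _) h
      refine h4.1 _ ?_
      rintro p ⟨j, _, rfl⟩
      refine ⟨wt j, ?_⟩
      have hXj : ((X j : Sr) ^ (1 : Fin 4 → ℕ) j) = X j := by simp
      show Hmg ((X j : Sr) ^ (1 : Fin 4 → ℕ) j) (wt j)
      rw [hXj]
      exact Hmg.X j
  have hbot := hchain Finset.univ htop
  rw [h3.1] at hbot
  obtain ⟨-, hb⟩ := hbot
  obtain ⟨y, hy, z, hz, hyz⟩ := Submodule.mem_sup.1 hb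
  obtain ⟨h, hh, rfl⟩ := hy
  have hz0 : z = 0 := by
    ext1 x y
    exact (Ideal.mem_bot).1 (hz x y)
  rw [hz0, add_zero] at hyz
  obtain ⟨u, v, rfl⟩ : ∃ (u : Matrix G.ι K.ι Sr) (v : Matrix G.ι G.ι Sr),
      h = Matrix.fromCols u v := ⟨Matrix.toCols₁ h, Matrix.toCols₂ h,
        (Matrix.fromCols_toCols h).symm⟩
  have hh' : Matrix.fromCols u v ∈ HM (cone i).toPO G.toPO (3 - 3) := hh
  rw [hm_cone] at hh'
  rw [dd_cone, ha] at hyz
  have e1 : G.Φ * u - u * K.Φ = 0 := by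
    ext1 x y
    have := congrFun (congrFun hyz x) (Sum.inl y)
    simpa using this
  have e2 : G.Φ * v - u * i.1 + v * G.Φ = 1 := by
    ext1 x y
    have := congrFun (congrFun hyz x) (Sum.inr y)
    simpa using this
  have hmor : -u ∈ mor K G := by
    refine ⟨fun x y => ?_, ?_⟩
    · exact ((neg_mem hh'.1 : -u ∈ HM K.toPO G.toPO (3 - 3)) x y).congr (by ring)
    · rw [Matrix.mul_neg, Matrix.neg_mul, sub_eq_zero.1 e1]
  refine ⟨cls ⟨-u, hmor⟩, ?_⟩
  show (nul G G).mkQ (compM i ⟨-u, hmor⟩) = (nul G G).mkQ (idM G)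
  rw [← sub_eq_zero, ← map_sub]
  refine (Submodule.Quotient.mk_eq_zero _).2 ⟨-v, fun x y => ?_, ?_⟩
  · exact ((neg_mem hh'.2 : -v ∈ HM G.toPO G.toPO (3 - 3 - 3)) x y).congr (by ring)
  · show (-u) * i.1 - 1 = G.Φ * (-v) + (-v) * G.Φ
    rw [← e2, Matrix.neg_mul, Matrix.mul_neg, Matrix.neg_mul]
    abel

end Pool.Agent.VDC

end
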