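import Pool.Agent.VDC.T2

/-!
# VDC, target STP: the functor and the lines (helper97)
-/

set_option autoImplicit false

open MvPolynomial CategoryTheory

noncomputable section

namespace Pool.Agent.VDC

namespace STP_

lemma rep {f : Sr} {X Y : CM f} (a : X ⟶ Y) : ∃ g : mor X Y, cls g = a := by
  obtain ⟨g, hg⟩ := Submodule.mkQ_surjective _ a
  exact ⟨g, hg⟩

lemma L1 {D : Type*} [Category D] {X Y Z W V U : D} (e : X ⟶ Y) (θ : Y ⟶ Z) (p' : Z ⟶ W)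
    (p₁ : Y ⟶ V) (s : V ⟶ W) (m : X ⟶ U) (c : U ⟶ V) (h : θ ≫ p' = p₁ ≫ s)
    (h' : e ≫ p₁ = m ≫ c) : (e ≫ θ) ≫ p' = m ≫ c ≫ s := by
  rw [Category.assoc, h, ← Category.assoc, h', Category.assoc]

lemma L3 {C D : Type*} [Category C] [Category D] [Preadditive D] [Linear ℂ D] (F : C ⥤ D)
    {a b c : C} (p : a ⟶ b) (z : b ⟶ c) {c' W V : D} (φ : F.obj c ⟶ c') (m : F.obj b ⟶ V)
    (s : V ⟶ W) (z' : W ⟶ c') (lam : ℂ) {Z : D} (T : F.obj a ⟶ Z) (p' : Z ⟶ W)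
    (h3 : F.map z ≫ φ = lam • (m ≫ s ≫ z')) (hb : T ≫ p' = F.map p ≫ m ≫ s) :
    F.map (p ≫ z) ≫ φ = lam • (T ≫ p' ≫ z') := by
  rw [F.map_comp, Category.assoc, h3, Linear.comp_smul, ← Category.assoc T, hb]
  simp only [Category.assoc]

lemma L4 {D : Type*} [Category D] [Preadditive D] [Linear ℂ D] {X Y Z : D} (w u₀' : X ⟶ Z)
    (p : X ⟶ Y) (k et : Y ⟶ Z) (c : ℂ) (hk : w - u₀' = p ≫ k) (hkc : k = c • et) :
    w = u₀' - (-c) • (p ≫ et) := by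
  have h4 : w = u₀' + (w - u₀') := by abel
  rw [h4, hk, hkc, Linear.comp_smul, neg_smul, sub_neg_eq_add]

end STP_

open STP_ in
theorem p_STP (hLINE : T_LINE) (hCISO : T_CISO) (hWC : T_WC) (hTWQ : T_TWQ) (hIDI : T_IDI) :
    T_STP := by
  intro f f' hf hf' K o K' o' hK hK' A A' E φ₀ φ₂ φ₄ v v' lam hv hv' hlam h1 h2 h3
  have := E.isEquiv
  have := E.additive
  have := E.linear
  obtain ⟨g, hg⟩ := rep (A.xi v)
  obtain ⟨g', hg'⟩ := rep (A'.xi v')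
  obtain ⟨u₀, hu₀, hL⟩ := hLINE f hf K o hK A v g hv hg
  obtain ⟨u₀', hu₀', hL'⟩ := hLINE f' hf' K' o' hK' A' v' g' hv' hg'
  obtain ⟨g₁, hg₁, e, he1, he2⟩ := E.exact g
  obtain ⟨θ, hθ1, hθ2⟩ := hCISO f' _ _ _ _ g₁ g' φ₀ φ₂ (by rw [hg₁, hg, hg', h1])
  set Th : E.F.obj (cone g) ≅ cone g' := e ≪≫ θ with hTh
  have ha : E.F.map (cls (inclM g)) ≫ Th.hom = φ₂.hom ≫ cls (inclM g') := by
    rw [hTh, Iso.trans_hom, ← Category.assoc, he1, hθ1]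
  have hb : Th.hom ≫ cls (projM g') = E.F.map (cls (projM g)) ≫ E.comm.hom.app K ≫
      (sh f').map φ₀.hom :=
    L1 e.hom θ.hom (cls (projM g')) (cls (projM g₁)) ((sh f').map φ₀.hom)
      (E.F.map (cls (projM g))) (E.comm.hom.app K) hθ2 he2
  set w : cone g' ⟶ tw 4 1 K' := Th.inv ≫ E.F.map u₀ ≫ φ₄.hom with hw
  have hinc : cls (inclM g') = φ₂.inv ≫ E.F.map (cls (inclM g)) ≫ Th.hom := by
    rw [ha, ← Category.assoc, Iso.inv_hom_id, Category.id_comp]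
  have hiw : cls (inclM g') ≫ w = sxx (A'.xi v') := by
    calc cls (inclM g') ≫ w = φ₂.inv ≫ (E.F.map (cls (inclM g)) ≫ E.F.map u₀) ≫ φ₄.hom := by
          rw [hinc, hw]
          simp only [Category.assoc, Iso.hom_inv_id_assoc]
      _ = φ₂.inv ≫ E.F.map (sxx (A.xi v)) ≫ φ₄.hom := by rw [← E.F.map_comp, hu₀]
      _ = _ := by rw [h2, ← Category.assoc, Iso.inv_hom_id, Category.id_comp]
  obtain ⟨k, hk⟩ := hWC f' K' (tw 2 1 K') (tw 4 1 K') g' (w - u₀') (by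
    rw [Preadditive.comp_sub, hiw, hu₀', sub_self])
  obtain ⟨x, hx⟩ : ∃ x : K' ⟶ tw 1 (-1) K', szy x = k :=
    (hTWQ f' K' K' 1 (-1) 3 (-1) 4 1 (by norm_num) (by norm_num)).2 k
  obtain ⟨c, hc⟩ := A'.span x
  have hkc : k = c • szy A'.et := by
    rw [← hx, hc, map_smul]
  have hwu : w = u₀' - (-c) • (cls (projM g') ≫ szy A'.et) :=
    L4 w u₀' (cls (projM g')) k (szy A'.et) c hk hkc
  refine ⟨-c, fun t => ?_⟩
  obtain ⟨u, hu⟩ := rep (u₀ - t • (cls (projM g) ≫ szy A.et))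
  obtain ⟨u', hu'⟩ := rep (u₀' - (-c + lam * t) • (cls (projM g') ≫ szy A'.et))
  have hmid : E.F.map (cls u) ≫ φ₄.hom = Th.hom ≫ cls u' := by
    have h5 : E.F.map u₀ ≫ φ₄.hom = Th.hom ≫ w := by
      rw [hw, ← Category.assoc, Iso.hom_inv_id, Category.id_comp]
    have h6 : E.F.map (cls (projM g) ≫ szy A.et) ≫ φ₄.hom =
        lam • (Th.hom ≫ cls (projM g') ≫ szy A'.et) :=
      L3 E.F (cls (projM g)) (szy A.et) φ₄.hom (E.comm.hom.app K) ((sh f').map φ₀.hom)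
        (szy A'.et) lam Th.hom (cls (projM g')) h3 hb
    rw [hu, hu', Functor.map_sub, Functor.map_smul, Preadditive.sub_comp, Linear.smul_comp, h5,
      h6, hwu, Preadditive.comp_sub, Preadditive.comp_sub, Linear.comp_smul, Linear.comp_smul,
      sub_sub, smul_smul, ← add_smul, mul_comm t lam]
  obtain ⟨u₁, hu₁, e₂, -, -⟩ := E.exact u
  obtain ⟨θ₂, -, -⟩ := hCISO f' _ _ _ _ u₁ u' Th φ₄ (by rw [hu₁, hmid])
  have hiso : Idem (E.F.obj (cone u)) ↔ Idem (cone u') := hIDI.1 f' _ _ ⟨e₂ ≪≫ θ₂⟩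
  have hF := hIDI.2.2 f f' E.F (cone u) E.isEquiv E.additive
  have h7 := hL t u hu
  have h8 := hL' (-c + lam * t) u' hu'
  rw [← not_iff_not]
  exact h7.symm.trans (hF.symm.trans (hiso.trans h8))

end Pool.Agent.VDC
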