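import Pool.Agent.VDC.T1

/-!
# VDC: target `SYM` (the symmetry of the dimensions)
-/

set_option autoImplicit false

open MvPolynomial CategoryTheory

noncomputable section

namespace Pool.Agent.VDC

namespace SYM_

lemma hmg_pow (i : Fin 4) : Hmg ((X i : Sr) ^ n2 i) 2 := by
  have h2 : ∀ j : Fin 4, wt j = 1 → Hmg ((X j : Sr) ^ 2) 2 := by
    intro j hj
    rw [pow_two]
    refine ((Hmg.X j).mul (Hmg.X j)).congr ?_
    rw [hj]
    norm_num
  fin_cases i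
  · exact h2 0 rfl
  · exact h2 1 rfl
  · exact h2 2 rfl
  · show Hmg ((X 3 : Sr) ^ 1) 2
    rw [pow_one]
    exact (Hmg.X 3).congr rfl

lemma hid (hH : T_HSPAN) (J : Finset (Fin 4)) : HId (mI J n2) := by
  refine hH.1 _ ?_
  rintro p ⟨j, _, rfl⟩
  exact ⟨2, hmg_pow j⟩

/-- the symmetry modulo `I` -/
def Sy {f : Sr} (G : CM f) (I : Ideal Sr) : Prop :=
  ∀ s ρ : ℤ, s * s = 1 → hdim G.toPO G.toPO I s ρ = hdim G.toPO G.toPO I (-s) ρ

lemma step (hD : T_DEC) (hM : T_MINS) (hN : T_MNZ) (hH : T_HSPAN) {f : Sr} (G : CM f)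
    (hG : ∀ i, NH G.toPO ((X i : Sr) ^ n2 i) 2) (J : Finset (Fin 4)) (r : Fin 4) (hr : r ∉ J)
    (h : Sy G (mI (insert r J) n2)) : Sy G (mI J n2) := by
  rw [hM.2 J n2 r] at h
  exact hD f G G (mI J n2) ((X r : Sr) ^ n2 r) 2 (hid hH J) (hmg_pow r) (hN J n2 r hr)
    (by norm_num) (hG r) h

end SYM_

theorem p_SYM (hS : T_SIG) (hSD : T_SIGD) (hD : T_DEC) (hM : T_MINS) (hN : T_MNZ)
    (hH : T_HSPAN) : T_SYM := by
  rintro f G hG ⟨h, hh, hc⟩
  obtain ⟨σ, h1, σ', h1', h2, h3, h4⟩ := hS G.toPO (mI Finset.univ n2) h hh hc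
  have e0 : SYM_.Sy G (mI Finset.univ n2) := fun s ρ _ =>
    hSD G.toPO G.toPO (mI Finset.univ n2) σ σ' h1 h1' h2 h3 h4 s ρ
  have u : (Finset.univ : Finset (Fin 4)) = insert 3 {2, 1, 0} := by decide
  rw [u] at e0
  have e1 := SYM_.step hD hM hN hH G hG {2, 1, 0} 3 (by decide) e0
  have e2 := SYM_.step hD hM hN hH G hG {1, 0} 2 (by decide) e1
  have e3 := SYM_.step hD hM hN hH G hG {0} 1 (by decide) e2
  have e4 := SYM_.step hD hM hN hH G hG ∅ 0 (by decide) e3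
  rw [hM.1 n2] at e4
  exact e4

end Pool.Agent.VDC
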