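import Pool.Agent.VDC.T1

/-!
# VDC: the trace vanishes on boundaries
-/

set_option autoImplicit false

open MvPolynomial

noncomputable section

namespace Pool.Agent.VDC

namespace TR0_

lemma mI_mono {J K : Finset (Fin 4)} (h : J ⊆ K) (n : Fin 4 → ℕ) : mI J n ≤ mI K n :=
  Ideal.span_mono (Set.image_mono (by exact_mod_cast h))

lemma pow_mem {J : Finset (Fin 4)} (n : Fin 4 → ℕ) {r : Fin 4} (h : r ∈ J) :
    (X r : Sr) ^ n r ∈ mI J n :=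
  Ideal.subset_span ⟨r, by simpa using h, rfl⟩

lemma IM_mono {I J : Ideal Sr} (h : I ≤ J) {ι κ : Type} {g : Matrix ι κ Sr}
    (hg : g ∈ IM I ι κ) : g ∈ IM J ι κ := fun i j => h (hg i j)

lemma IM_mul_left {I : Ideal Sr} {ι κ μ : Type} [Fintype κ] (A : Matrix ι κ Sr)
    {B : Matrix κ μ Sr} (hB : B ∈ IM I κ μ) : A * B ∈ IM I ι μ := by
  intro i j
  rw [Matrix.mul_apply]
  exact I.sum_mem fun k _ => I.mul_mem_left _ (hB k j)

lemma IM_smul {I : Ideal Sr} {ι κ : Type} {p : Sr} (hp : p ∈ I) (A : Matrix ι κ Sr) :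
    p • A ∈ IM I ι κ := fun i j => I.mul_mem_right _ hp

lemma IM_smul' {I : Ideal Sr} {ι κ : Type} (p : Sr) {A : Matrix ι κ Sr} (hA : A ∈ IM I ι κ) :
    p • A ∈ IM I ι κ := fun i j => I.mul_mem_left _ (hA i j)

lemma trace_mem {I : Ideal Sr} {ι : Type} [Fintype ι] {B : Matrix ι ι Sr}
    (hB : B ∈ IM I ι ι) : Matrix.trace B ∈ I := I.sum_mem fun i _ => hB i i

lemma coeff_soc (hM : T_MMEM) {J : Finset (Fin 4)} {n : Fin 4 → ℕ} (hn : ∀ i, 1 ≤ n i) {p : Sr}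
    (hp : p ∈ mI J n) : coeff (soc n) p = 0 := by
  by_contra h
  obtain ⟨j, _, hj⟩ := (hM J n p).1 hp _ h
  have h1 : soc n j = n j - 1 := rfl
  have h2 := hn j
  omega

section

variable {ι : Type} [Fintype ι] [DecidableEq ι] {P t₀ t₁ t₂ t₃ : Matrix ι ι Sr}
  {x₀ x₁ x₂ x₃ : Sr}

lemma sm {P t : Matrix ι ι Sr} {x : Sr} (h : P * t + t * P = x • (1 : Matrix ι ι Sr))
    (M : Matrix ι ι Sr) : x • M = (P * t + t * P) * M := by
  rw [h, Matrix.smul_mul, Matrix.one_mul]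

lemma sm1 {P t : Matrix ι ι Sr} {x : Sr} (h : P * t + t * P = x • (1 : Matrix ι ι Sr))
    (A M : Matrix ι ι Sr) : x • (A * M) = A * ((P * t + t * P) * M) := by
  rw [h, Matrix.smul_mul, Matrix.one_mul, Matrix.mul_smul]

lemma tsm (x : Sr) (M : Matrix ι ι Sr) : x * Matrix.trace M = Matrix.trace (x • M) := by
  rw [Matrix.trace_smul, smul_eq_mul]

lemma tr1 (h₃ : P * t₃ + t₃ * P = x₃ • (1 : Matrix ι ι Sr)) (a : Matrix ι ι Sr) :
    x₃ * Matrix.trace a = Matrix.trace (t₃ * (P * a + a * P)) := by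
  have e1 : x₃ * Matrix.trace a = Matrix.trace (x₃ • a) := by
    rw [Matrix.trace_smul, smul_eq_mul]
  rw [e1, sm h₃, Matrix.mul_add, Matrix.add_mul, Matrix.trace_add, Matrix.trace_add,
    ← Matrix.mul_assoc t₃ a P, Matrix.trace_mul_comm (t₃ * a) P]
  rw [← Matrix.mul_assoc, ← Matrix.mul_assoc, add_comm]

lemma tr2 (h₂ : P * t₂ + t₂ * P = x₂ • (1 : Matrix ι ι Sr))
    (h₃ : P * t₃ + t₃ * P = x₃ • (1 : Matrix ι ι Sr)) (a : Matrix ι ι Sr) :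
    x₂ * Matrix.trace (t₃ * a) =
      x₃ * Matrix.trace (t₂ * a) + Matrix.trace (t₃ * (t₂ * (P * a - a * P))) := by
  have e0 : Matrix.trace (t₃ * (t₂ * (P * a - a * P))) =
      Matrix.trace (t₃ * t₂ * P * a) - Matrix.trace (P * (t₃ * t₂ * a)) := by
    rw [Matrix.trace_mul_comm P, ← Matrix.trace_sub]
    congr 1
    noncomm_ring
  rw [e0, tsm, tsm, ← add_sub_assoc, ← Matrix.trace_add, ← Matrix.trace_sub, sm1 h₂, sm h₃]
  congr 1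
  noncomm_ring

lemma tr3 (h₁ : P * t₁ + t₁ * P = x₁ • (1 : Matrix ι ι Sr))
    (h₂ : P * t₂ + t₂ * P = x₂ • (1 : Matrix ι ι Sr))
    (h₃ : P * t₃ + t₃ * P = x₃ • (1 : Matrix ι ι Sr)) (a : Matrix ι ι Sr) :
    x₁ * Matrix.trace (t₃ * (t₂ * a)) =
      x₂ * Matrix.trace (t₃ * (t₁ * a)) - x₃ * Matrix.trace (t₂ * (t₁ * a)) +
        Matrix.trace (t₃ * (t₂ * (t₁ * (P * a + a * P)))) := by
  have e0 : Matrix.trace (t₃ * (t₂ * (t₁ * (P * a + a * P)))) =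
      Matrix.trace (t₃ * t₂ * t₁ * P * a) + Matrix.trace (P * (t₃ * t₂ * t₁ * a)) := by
    rw [Matrix.trace_mul_comm P, ← Matrix.trace_add]
    congr 1
    noncomm_ring
  rw [e0, tsm, tsm, tsm, ← Matrix.mul_assoc t₃ t₂ a, sm1 h₁, sm1 h₂, sm h₃,
    ← Matrix.trace_add, ← Matrix.trace_sub, ← Matrix.trace_add]
  congr 1
  noncomm_ring

lemma tr4 (h₀ : P * t₀ + t₀ * P = x₀ • (1 : Matrix ι ι Sr))
    (h₁ : P * t₁ + t₁ * P = x₁ • (1 : Matrix ι ι Sr))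
    (h₂ : P * t₂ + t₂ * P = x₂ • (1 : Matrix ι ι Sr))
    (h₃ : P * t₃ + t₃ * P = x₃ • (1 : Matrix ι ι Sr)) (a : Matrix ι ι Sr) :
    x₀ * Matrix.trace (t₃ * (t₂ * (t₁ * a))) =
      x₁ * Matrix.trace (t₃ * (t₂ * (t₀ * a))) - x₂ * Matrix.trace (t₃ * (t₁ * (t₀ * a))) +
        x₃ * Matrix.trace (t₂ * (t₁ * (t₀ * a))) +
        Matrix.trace (t₃ * (t₂ * (t₁ * (t₀ * (P * a - a * P))))) := by
  have e0 : Matrix.trace (t₃ * (t₂ * (t₁ * (t₀ * (P * a - a * P))))) =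
      Matrix.trace (t₃ * t₂ * t₁ * t₀ * P * a) - Matrix.trace (P * (t₃ * t₂ * t₁ * t₀ * a)) := by
    rw [Matrix.trace_mul_comm P, ← Matrix.trace_sub]
    congr 1
    noncomm_ring
  rw [e0, tsm, tsm, tsm, tsm, ← Matrix.mul_assoc t₂ t₁ a, ← Matrix.mul_assoc t₃ (t₂ * t₁) a,
    ← Matrix.mul_assoc t₃ t₂ (t₀ * a),
    sm1 h₀, sm1 h₁, sm1 h₂, sm h₃, ← add_sub_assoc,
    ← Matrix.trace_sub, ← Matrix.trace_add, ← Matrix.trace_add, ← Matrix.trace_sub]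
  congr 1
  noncomm_ring

end

end TR0_

open TR0_ in
theorem p_TR0 (hMNZ : T_MNZ) (hMMEM : T_MMEM) : T_TR0 := by
  intro f G n ρ hn hNH b c hc hCh
  obtain ⟨b₃, b₂, b₁, e3, e2, e1, e0⟩ := hCh
  obtain ⟨t₀, -, h₀⟩ := hNH 0
  obtain ⟨t₁, -, h₁⟩ := hNH 1
  obtain ⟨t₂, -, h₂⟩ := hNH 2
  obtain ⟨t₃, -, h₃⟩ := hNH 3
  obtain ⟨-, hc⟩ := hc
  obtain ⟨y, ⟨h, -, rfl⟩, z, hz, rfl⟩ := Submodule.mem_sup.1 hc
  have hz0 : z = 0 := by
    ext1 i j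
    exact (Ideal.mem_bot).1 (hz i j)
  subst hz0
  rw [add_zero, neg_neg] at e0
  rw [neg_neg] at e2
  simp only [dd_apply, one_smul, neg_smul, sub_neg_eq_add] at e0 e1 e2 e3
  generalize hP : G.Φ = P at h₀ h₁ h₂ h₃ e0 e1 e2 e3
  generalize hx0 : (X 0 : Sr) ^ n 0 = x₀ at h₀ e0
  generalize hx1 : (X 1 : Sr) ^ n 1 = x₁ at h₁ e1
  generalize hx2 : (X 2 : Sr) ^ n 2 = x₂ at h₂ e2
  generalize hx3 : (X 3 : Sr) ^ n 3 = x₃ at h₃ e3
  have m0 : ∀ J : Finset (Fin 4), (0 : Fin 4) ∈ J → x₀ ∈ mI J n := fun J hJ => by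
    rw [← hx0]; exact pow_mem n hJ
  have m1 : ∀ J : Finset (Fin 4), (1 : Fin 4) ∈ J → x₁ ∈ mI J n := fun J hJ => by
    rw [← hx1]; exact pow_mem n hJ
  have m2 : ∀ J : Finset (Fin 4), (2 : Fin 4) ∈ J → x₂ ∈ mI J n := fun J hJ => by
    rw [← hx2]; exact pow_mem n hJ
  have m3 : ∀ J : Finset (Fin 4), (3 : Fin 4) ∈ J → x₃ ∈ mI J n := fun J hJ => by
    rw [← hx3]; exact pow_mem n hJ
  have s0 : ({0} : Finset (Fin 4)) ⊆ {0, 1} := by decide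
  have s1 : ({0, 1} : Finset (Fin 4)) ⊆ {0, 1, 2} := by decide
  -- the four parts
  have q1 : P * (b₁ - x₀ • h) - (b₁ - x₀ • h) * P = 0 := by
    have : P * (b₁ - x₀ • h) - (b₁ - x₀ • h) * P =
        (P * b₁ - b₁ * P) - x₀ • (P * h - h * P) := by
      simp only [Matrix.mul_sub, Matrix.sub_mul, Matrix.mul_smul, Matrix.smul_mul, smul_sub]
      abel
    rw [this, e0, sub_self]
  generalize ha₁ : b₁ - x₀ • h = a₁ at q1
  have hb₁ : b₁ = a₁ + x₀ • h := by rw [← ha₁, sub_add_cancel]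
  have q2 : P * (b₂ - t₁ * a₁) + (b₂ - t₁ * a₁) * P ∈ IM (mI {0} n) G.ι G.ι := by
    have : P * (b₂ - t₁ * a₁) + (b₂ - t₁ * a₁) * P =
        (P * b₂ + b₂ * P - x₁ • b₁) + x₁ • (x₀ • h) + t₁ * (P * a₁ - a₁ * P) := by
      have k1 : x₁ • a₁ = P * t₁ * a₁ + t₁ * P * a₁ := by rw [sm h₁, Matrix.add_mul]
      rw [hb₁, smul_add, k1]
      noncomm_ring
    rw [this, q1, Matrix.mul_zero, add_zero]
    exact Submodule.add_mem _ e1 (IM_smul' _ (IM_smul (m0 _ (by decide)) _))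
  have r2 : P * b₂ + b₂ * P ∈ IM (mI {0, 1} n) G.ι G.ι := by
    have : P * b₂ + b₂ * P = (P * b₂ + b₂ * P - x₁ • b₁) + x₁ • b₁ := by abel
    rw [this]
    exact Submodule.add_mem _ (IM_mono (mI_mono s0 n) e1) (IM_smul (m1 _ (by decide)) _)
  have q3 : P * (b₃ - t₂ * b₂) - (b₃ - t₂ * b₂) * P ∈ IM (mI {0, 1} n) G.ι G.ι := by
    have : P * (b₃ - t₂ * b₂) - (b₃ - t₂ * b₂) * P =
        (P * b₃ - b₃ * P - x₂ • b₂) + t₂ * (P * b₂ + b₂ * P) := by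
      have k1 : x₂ • b₂ = P * t₂ * b₂ + t₂ * P * b₂ := by rw [sm h₂, Matrix.add_mul]
      rw [k1]
      noncomm_ring
    rw [this]
    exact Submodule.add_mem _ e2 (IM_mul_left _ r2)
  have r3 : P * b₃ - b₃ * P ∈ IM (mI {0, 1, 2} n) G.ι G.ι := by
    have : P * b₃ - b₃ * P = (P * b₃ - b₃ * P - x₂ • b₂) + x₂ • b₂ := by abel
    rw [this]
    exact Submodule.add_mem _ (IM_mono (mI_mono s1 n) e2) (IM_smul (m2 _ (by decide)) _)
  have q4 : P * (b - t₃ * b₃) + (b - t₃ * b₃) * P ∈ IM (mI {0, 1, 2} n) G.ι G.ι := by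
    have : P * (b - t₃ * b₃) + (b - t₃ * b₃) * P =
        (P * b + b * P - x₃ • b₃) + t₃ * (P * b₃ - b₃ * P) := by
      have k1 : x₃ • b₃ = P * t₃ * b₃ + t₃ * P * b₃ := by rw [sm h₃, Matrix.add_mul]
      rw [k1]
      noncomm_ring
    rw [this]
    exact Submodule.add_mem _ e3 (IM_mul_left _ r3)
  generalize ha₂ : b₂ - t₁ * a₁ = a₂ at q2
  generalize ha₃ : b₃ - t₂ * b₂ = a₃ at q3
  generalize ha₄ : b - t₃ * b₃ = a₄ at q4
  have hb : b = a₄ + t₃ * a₃ + t₃ * (t₂ * a₂) + t₃ * (t₂ * (t₁ * a₁)) := by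
    rw [← ha₄, ← ha₃, ← ha₂]
    noncomm_ring
  have c4 : coeff (soc n) (Matrix.trace a₄) = 0 := by
    refine coeff_soc hMMEM hn (J := {0, 1, 2}) (hMNZ {0, 1, 2} n 3 (by decide) _ ?_)
    rw [hx3, tr1 h₃]
    exact trace_mem (IM_mul_left _ q4)
  have c3 : coeff (soc n) (Matrix.trace (t₃ * a₃)) = 0 := by
    refine coeff_soc hMMEM hn (J := {0, 1, 3}) (hMNZ {0, 1, 3} n 2 (by decide) _ ?_)
    rw [hx2, tr2 h₂ h₃]
    refine Ideal.add_mem _ (Ideal.mul_mem_right _ _ (m3 _ (by decide))) ?_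
    exact mI_mono (by decide) n (trace_mem (IM_mul_left _ (IM_mul_left _ q3)))
  have c2 : coeff (soc n) (Matrix.trace (t₃ * (t₂ * a₂))) = 0 := by
    refine coeff_soc hMMEM hn (J := {0, 2, 3}) (hMNZ {0, 2, 3} n 1 (by decide) _ ?_)
    rw [hx1, tr3 h₁ h₂ h₃]
    refine Ideal.add_mem _ (Ideal.sub_mem _ (Ideal.mul_mem_right _ _ (m2 _ (by decide)))
      (Ideal.mul_mem_right _ _ (m3 _ (by decide)))) ?_
    exact mI_mono (by decide) n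
      (trace_mem (IM_mul_left _ (IM_mul_left _ (IM_mul_left _ q2))))
  have c1 : coeff (soc n) (Matrix.trace (t₃ * (t₂ * (t₁ * a₁)))) = 0 := by
    refine coeff_soc hMMEM hn (J := {1, 2, 3}) (hMNZ {1, 2, 3} n 0 (by decide) _ ?_)
    rw [hx0, tr4 h₀ h₁ h₂ h₃, q1, Matrix.mul_zero, Matrix.mul_zero, Matrix.mul_zero,
      Matrix.mul_zero, Matrix.trace_zero, add_zero]
    exact Ideal.add_mem _ (Ideal.sub_mem _ (Ideal.mul_mem_right _ _ (m1 _ (by decide)))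
      (Ideal.mul_mem_right _ _ (m2 _ (by decide)))) (Ideal.mul_mem_right _ _ (m3 _ (by decide)))
  rw [Tr, hb, Matrix.trace_add, Matrix.trace_add, Matrix.trace_add, coeff_add, coeff_add,
    coeff_add, c1, c2, c3, c4]
  simp

end Pool.Agent.VDC
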