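import Pool.Agent.VDC.T1

/-!
# VDC-TW: an exact equivalence composed with a twist is an exact equivalence
-/

set_option autoImplicit false

open MvPolynomial CategoryTheory

noncomputable section

namespace Pool.Agent.VDC

namespace TW_

variable {f f' : Sr}

lemma cls_surj {X Y : CM f} (a : X ⟶ Y) : ∃ g : mor X Y, cls g = a :=
  Submodule.mkQ_surjective _ a

lemma cls_comp {X Y Z : CM f} (a : mor X Y) (b : mor Y Z) : cls a ≫ cls b = cls (compM a b) := rfl

lemma map_cls (m : ℤ) (s : ℤˣ) {X Y : CM f} (g : mor X Y) :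
    (twF f m s).map (cls g) = cls (twM m s g) := rfl

lemma tw_add (m : ℤ) (s : ℤˣ) : (twF f m s).Additive where
  map_add {X Y a b} := map_add (Submodule.mapQ (nul X Y) (nul (tw m s X) (tw m s Y)) (twL m s X Y)
    (fun g hg => twM_nul m s g hg)) a b

lemma tw_lin (m : ℤ) (s : ℤˣ) : (twF f m s).Linear ℂ where
  map_smul {X Y} a r := map_smul (Submodule.mapQ (nul X Y) (nul (tw m s X) (tw m s Y))
    (twL m s X Y) (fun g hg => twM_nul m s g hg)) r a

lemma tw_equiv (h1 : T_TWC) (m : ℤ) (s : ℤˣ) : (twF f m s).IsEquivalence := by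
  obtain ⟨a⟩ := (h1 f m (-m) s s).1
  obtain ⟨b⟩ := (h1 f (-m) m s s).1
  obtain ⟨c⟩ := (h1 f m m s s).2
  have e1 : twF f (m + -m) (s * s) ≅ 𝟭 (CM f) := by
    rw [add_neg_cancel, Int.units_mul_self]
    exact c
  have e2 : twF f (-m + m) (s * s) ≅ 𝟭 (CM f) := by
    rw [neg_add_cancel, Int.units_mul_self]
    exact c
  exact (CategoryTheory.Equivalence.mk (twF f m s) (twF f (-m) s) (a ≪≫ e1).symm
    (b ≪≫ e2)).isEquivalence_functor

/-- the diagonal sign -/
def sgM (m : ℤ) (s : ℤˣ) (m' : ℤ) (s' : ℤˣ) (Z : CM f) :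
    mor (tw m s (tw m' s' Z)) (tw m' s' (tw m s Z)) :=
  ⟨(s : ℤ) • (1 : Matrix Z.ι Z.ι Sr), by
    constructor
    · intro i j
      show Hmg (((s : ℤ) • (1 : Matrix Z.ι Z.ι Sr)) i j) ((Z.deg j - m' - m) - (Z.deg i - m - m'))
      rw [Matrix.smul_apply]
      apply Hmg.zsmul
      by_cases hij : i = j
      · subst hij
        rw [Matrix.one_apply_eq]
        exact Hmg.one.congr (by ring)
      · rw [Matrix.one_apply_ne hij]
        exact Hmg.zero _
    · show ((s' : ℤ) • ((s : ℤ) • Z.Φ)) * ((s : ℤ) • (1 : Matrix Z.ι Z.ι Sr)) =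
        ((s : ℤ) • (1 : Matrix Z.ι Z.ι Sr)) * ((s : ℤ) • ((s' : ℤ) • Z.Φ))
      simp only [Matrix.smul_mul, Matrix.mul_smul, Matrix.mul_one, Matrix.one_mul, smul_smul]
      congr 1
      ring⟩

/-- the diagonal sign, in the other direction -/
def sgM' (m : ℤ) (s : ℤˣ) (m' : ℤ) (s' : ℤˣ) (Z : CM f) :
    mor (tw m' s' (tw m s Z)) (tw m s (tw m' s' Z)) :=
  ⟨(s : ℤ) • (1 : Matrix Z.ι Z.ι Sr), by
    constructor
    · intro i j
      show Hmg (((s : ℤ) • (1 : Matrix Z.ι Z.ι Sr)) i j) ((Z.deg j - m - m') - (Z.deg i - m' - m))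
      rw [Matrix.smul_apply]
      apply Hmg.zsmul
      by_cases hij : i = j
      · subst hij
        rw [Matrix.one_apply_eq]
        exact Hmg.one.congr (by ring)
      · rw [Matrix.one_apply_ne hij]
        exact Hmg.zero _
    · show ((s : ℤ) • ((s' : ℤ) • Z.Φ)) * ((s : ℤ) • (1 : Matrix Z.ι Z.ι Sr)) =
        ((s : ℤ) • (1 : Matrix Z.ι Z.ι Sr)) * ((s' : ℤ) • ((s : ℤ) • Z.Φ))
      simp only [Matrix.smul_mul, Matrix.mul_smul, Matrix.mul_one, Matrix.one_mul, smul_smul]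
      congr 1
      ring⟩

lemma unit_sq (s : ℤˣ) : (s : ℤ) * (s : ℤ) = 1 := by
  rw [← Units.val_mul, Int.units_mul_self, Units.val_one]

lemma sg_sq {ι : Type} [Fintype ι] [DecidableEq ι] (s : ℤˣ) :
    ((s : ℤ) • (1 : Matrix ι ι Sr)) * ((s : ℤ) • (1 : Matrix ι ι Sr)) = 1 := by
  rw [Matrix.smul_mul, Matrix.mul_smul, Matrix.mul_one, smul_smul, unit_sq, one_smul]

/-- the diagonal sign as an isomorphism -/
def sgI (m : ℤ) (s : ℤˣ) (m' : ℤ) (s' : ℤˣ) (Z : CM f) :
    tw m s (tw m' s' Z) ≅ tw m' s' (tw m s Z) where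
  hom := cls (sgM m s m' s' Z)
  inv := cls (sgM' m s m' s' Z)
  hom_inv_id := congrArg cls (Subtype.ext (sg_sq s) :
    compM (sgM m s m' s' Z) (sgM' m s m' s' Z) = idM _)
  inv_hom_id := congrArg cls (Subtype.ext (sg_sq s) :
    compM (sgM' m s m' s' Z) (sgM m s m' s' Z) = idM _)

/-- twists commute -/
def cI (f : Sr) (m : ℤ) (s : ℤˣ) (m' : ℤ) (s' : ℤˣ) :
    twF f m' s' ⋙ twF f m s ≅ twF f m s ⋙ twF f m' s' :=
  NatIso.ofComponents (fun Z => sgI m s m' s' Z) (by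
    intro X Y a
    obtain ⟨a, rfl⟩ := cls_surj a
    refine congrArg cls (Subtype.ext ?_ : compM (twM m s (twM m' s' a)) (sgM m s m' s' Y) =
      compM (sgM m s m' s' X) (twM m' s' (twM m s a)))
    show ((s : ℤ) • (1 : Matrix Y.ι Y.ι Sr)) * a.1 = a.1 * ((s : ℤ) • (1 : Matrix X.ι X.ι Sr))
    rw [Matrix.smul_mul, Matrix.mul_smul, Matrix.mul_one, Matrix.one_mul])

/-- the diagonal matrix `(1, s)` -/
def D (s : ℤˣ) (ι κ : Type) [DecidableEq ι] [DecidableEq κ] : Matrix (ι ⊕ κ) (ι ⊕ κ) Sr :=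
  Matrix.fromBlocks 1 0 0 ((s : ℤ) • (1 : Matrix κ κ Sr))

lemma D_hmg (s : ℤˣ) {ι κ : Type} [DecidableEq ι] [DecidableEq κ] (d d' : ι ⊕ κ → ℤ)
    (h : d = d') (i j : ι ⊕ κ) : Hmg (D s ι κ i j) (d j - d' i) := by
  subst h
  rcases i with i | i <;> rcases j with j | j
  · show Hmg ((1 : Matrix ι ι Sr) i j) _
    by_cases hij : i = j
    · subst hij
      rw [Matrix.one_apply_eq]
      exact Hmg.one.congr (by ring)
    · rw [Matrix.one_apply_ne hij]
      exact Hmg.zero _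
  · exact Hmg.zero _
  · exact Hmg.zero _
  · show Hmg (((s : ℤ) • (1 : Matrix κ κ Sr)) i j) _
    rw [Matrix.smul_apply]
    apply Hmg.zsmul
    by_cases hij : i = j
    · subst hij
      rw [Matrix.one_apply_eq]
      exact Hmg.one.congr (by ring)
    · rw [Matrix.one_apply_ne hij]
      exact Hmg.zero _

lemma D_sq (s : ℤˣ) (ι κ : Type) [Fintype ι] [Fintype κ] [DecidableEq ι] [DecidableEq κ] :
    D s ι κ * D s ι κ = 1 := by
  unfold D
  rw [Matrix.fromBlocks_multiply]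
  simp only [Matrix.mul_zero, Matrix.zero_mul, add_zero, zero_add, Matrix.mul_one, sg_sq]
  exact Matrix.fromBlocks_one

lemma D_comm (s : ℤˣ) {ι κ : Type} [Fintype ι] [Fintype κ] [DecidableEq ι] [DecidableEq κ]
    (A : Matrix ι ι Sr) (B : Matrix ι κ Sr) (C : Matrix κ κ Sr) :
    Matrix.fromBlocks ((s : ℤ) • A) B 0 (-((s : ℤ) • C)) * D s ι κ =
      D s ι κ * ((s : ℤ) • Matrix.fromBlocks A B 0 (-C)) := by
  unfold D
  rw [Matrix.fromBlocks_smul, Matrix.fromBlocks_multiply, Matrix.fromBlocks_multiply]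
  simp only [Matrix.mul_zero, Matrix.zero_mul, add_zero, zero_add, Matrix.mul_one, Matrix.one_mul,
    smul_zero, neg_zero, Matrix.smul_mul, Matrix.mul_smul, smul_neg, Matrix.mul_neg]

lemma D_comm' (s : ℤˣ) {ι κ : Type} [Fintype ι] [Fintype κ] [DecidableEq ι] [DecidableEq κ]
    (A : Matrix ι ι Sr) (B : Matrix ι κ Sr) (C : Matrix κ κ Sr) :
    ((s : ℤ) • Matrix.fromBlocks A B 0 (-C)) * D s ι κ =
      D s ι κ * Matrix.fromBlocks ((s : ℤ) • A) B 0 (-((s : ℤ) • C)) := by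
  have h := D_comm s A B C
  have h2 := D_sq s ι κ
  calc ((s : ℤ) • Matrix.fromBlocks A B 0 (-C)) * D s ι κ
      = (D s ι κ * D s ι κ) * ((s : ℤ) • Matrix.fromBlocks A B 0 (-C)) * D s ι κ := by
        rw [h2, Matrix.one_mul]
    _ = D s ι κ * (D s ι κ * ((s : ℤ) • Matrix.fromBlocks A B 0 (-C))) * D s ι κ := by
        rw [Matrix.mul_assoc (D s ι κ) (D s ι κ)]
    _ = D s ι κ * Matrix.fromBlocks ((s : ℤ) • A) B 0 (-((s : ℤ) • C)) * (D s ι κ * D s ι κ) := by
        rw [← h, Matrix.mul_assoc, Matrix.mul_assoc, Matrix.mul_assoc]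
    _ = _ := by rw [h2, Matrix.mul_one]

lemma deg_eq (m : ℤ) (X Y : CM f) :
    (fun i : Y.ι ⊕ X.ι => Sum.elim Y.deg (fun i => X.deg i - 3) i - m) =
      Sum.elim (fun i => Y.deg i - m) (fun i => X.deg i - m - 3) := by
  funext i
  rcases i with i | i
  · rfl
  · show X.deg i - 3 - m = X.deg i - m - 3
    ring

/-- `tw (cone g) → cone (tw g)` -/
def DM (m : ℤ) (s : ℤˣ) {X Y : CM f} (g : mor X Y) :
    mor (tw m s (cone g)) (cone (twM m s g)) :=
  ⟨D s Y.ι X.ι, fun i j => D_hmg s _ _ (deg_eq m X Y) i j, D_comm s Y.Φ g.1 X.Φ⟩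

/-- `cone (tw g) → tw (cone g)` -/
def DM' (m : ℤ) (s : ℤˣ) {X Y : CM f} (g : mor X Y) :
    mor (cone (twM m s g)) (tw m s (cone g)) :=
  ⟨D s Y.ι X.ι, fun i j => D_hmg s _ _ (deg_eq m X Y).symm i j, D_comm' s Y.Φ g.1 X.Φ⟩

/-- `tw (cone g) ≅ cone (tw g)` -/
def DI (m : ℤ) (s : ℤˣ) {X Y : CM f} (g : mor X Y) :
    tw m s (cone g) ≅ cone (twM m s g) where
  hom := cls (DM m s g)
  inv := cls (DM' m s g)
  hom_inv_id := congrArg cls (Subtype.ext (D_sq s Y.ι X.ι) :
    compM (DM m s g) (DM' m s g) = idM _)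
  inv_hom_id := congrArg cls (Subtype.ext (D_sq s Y.ι X.ι) :
    compM (DM' m s g) (DM m s g) = idM _)

lemma incl_D (m : ℤ) (s : ℤˣ) {X Y : CM f} (g : mor X Y) :
    (twF f m s).map (cls (inclM g)) ≫ (DI m s g).hom = cls (inclM (twM m s g)) := by
  refine congrArg cls (Subtype.ext ?_ : compM (twM m s (inclM g)) (DM m s g) =
    inclM (twM m s g))
  show D s Y.ι X.ι * Matrix.fromRows 1 0 = Matrix.fromRows 1 0
  unfold D
  rw [Matrix.fromBlocks_mul_fromRows]
  simp

lemma D_proj (m : ℤ) (s : ℤˣ) {X Y : CM f} (g : mor X Y) :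
    (DI m s g).hom ≫ cls (projM (twM m s g)) =
      (twF f m s).map (cls (projM g)) ≫ (cI f m s 3 (-1)).hom.app X := by
  refine congrArg cls (Subtype.ext ?_ : compM (DM m s g) (projM (twM m s g)) =
    compM (twM m s (projM g)) (sgM m s 3 (-1) X))
  show Matrix.fromCols 0 1 * D s Y.ι X.ι =
    ((s : ℤ) • (1 : Matrix X.ι X.ι Sr)) * Matrix.fromCols 0 1
  unfold D
  rw [Matrix.fromCols_mul_fromBlocks, Matrix.mul_fromCols]
  simp

end TW_

open TW_ in
theorem p_TW (h1 : T_TWC) : T_TW := by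
  intro f f' E m s
  have hE := E.isEquiv
  have hA := E.additive
  have hL := E.linear
  have hT := tw_equiv (f := f') h1 m s
  have hTA := tw_add (f := f') m s
  have hTL := tw_lin (f := f') m s
  refine ⟨{ F := E.F ⋙ twF f' m s
            isEquiv := inferInstance
            additive := inferInstance
            linear := inferInstance
            comm := show (sh f ⋙ E.F) ⋙ twF f' m s ≅ (E.F ⋙ twF f' m s) ⋙ sh f' from
              Functor.isoWhiskerRight E.comm (twF f' m s) ≪≫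
                Functor.isoWhiskerLeft E.F (cI f' m s 3 (-1))
            exact := ?_ }, rfl⟩
  intro X Y g
  obtain ⟨g', hg', e, h2, h3⟩ := E.exact g
  have k2 : (twF f' m s).map (E.F.map (cls (inclM g))) ≫ (twF f' m s).map e.hom =
      (twF f' m s).map (cls (inclM g')) :=
    ((twF f' m s).map_comp _ _).symm.trans (congrArg (twF f' m s).map h2)
  have k3 : (twF f' m s).map e.hom ≫ (twF f' m s).map (cls (projM g')) =
      (twF f' m s).map (E.F.map (cls (projM g))) ≫ (twF f' m s).map (E.comm.hom.app X) :=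
    ((twF f' m s).map_comp _ _).symm.trans ((congrArg (twF f' m s).map h3).trans
      ((twF f' m s).map_comp _ _))
  refine ⟨twM m s g', congrArg (twF f' m s).map hg', (twF f' m s).mapIso e ≪≫ DI m s g',
    ?_, ?_⟩
  · exact (Category.assoc _ _ _).symm.trans
      ((congrArg (· ≫ (DI m s g').hom) k2).trans (incl_D m s g'))
  · refine (Category.assoc ((twF f' m s).map e.hom) (DI m s g').hom
      (cls (projM (twM m s g')))).trans ?_
    refine (congrArg ((twF f' m s).map e.hom ≫ ·) (D_proj m s g')).trans ?_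
    refine (Category.assoc _ _ _).symm.trans ?_
    refine (congrArg (· ≫ (cI f' m s 3 (-1)).hom.app (E.F.obj X)) k3).trans ?_
    exact Category.assoc _ _ _

end Pool.Agent.VDC
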