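import Pool.Agent.VDC.T1

/-!
# VDC: TWC, composition of twists
-/

set_option autoImplicit false

open MvPolynomial CategoryTheory

noncomputable section

namespace Pool.Agent.VDC

namespace TWC_

lemma one_hom {ι : Type} [DecidableEq ι] (a b : ι → ℤ) (h : ∀ i, a i = b i) (i j : ι) :
    Hmg ((1 : Matrix ι ι Sr) i j) (a j - b i) := by
  by_cases hij : i = j
  · subst hij
    rw [Matrix.one_apply_eq]
    exact Hmg.one.congr (by rw [h]; ring)
  · rw [Matrix.one_apply_ne hij]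
    exact Hmg.zero _

/-- the comparison map from the composition of two twists -/
def fwd {f : Sr} (m m' : ℤ) (s s' : ℤˣ) (X : CM f) :
    mor (tw m' s' (tw m s X)) (tw (m + m') (s * s') X) :=
  ⟨(1 : Matrix X.ι X.ι Sr), one_hom (fun i => X.deg i - m - m') (fun i => X.deg i - (m + m'))
      (fun i => by ring), by
    show (((s * s' : ℤˣ) : ℤ) • X.Φ) * (1 : Matrix X.ι X.ι Sr) =
      (1 : Matrix X.ι X.ι Sr) * ((s' : ℤ) • ((s : ℤ) • X.Φ))
    rw [Matrix.mul_one, Matrix.one_mul, smul_smul, Units.val_mul, mul_comm]⟩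

/-- its inverse -/
def bwd {f : Sr} (m m' : ℤ) (s s' : ℤˣ) (X : CM f) :
    mor (tw (m + m') (s * s') X) (tw m' s' (tw m s X)) :=
  ⟨(1 : Matrix X.ι X.ι Sr), one_hom (fun i => X.deg i - (m + m')) (fun i => X.deg i - m - m')
      (fun i => by ring), by
    show ((s' : ℤ) • ((s : ℤ) • X.Φ)) * (1 : Matrix X.ι X.ι Sr) =
      (1 : Matrix X.ι X.ι Sr) * (((s * s' : ℤˣ) : ℤ) • X.Φ)
    rw [Matrix.mul_one, Matrix.one_mul, smul_smul, Units.val_mul, mul_comm]⟩

/-- the comparison map from the trivial twist -/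
def fwd0 {f : Sr} (X : CM f) : mor (tw 0 1 X) X :=
  ⟨(1 : Matrix X.ι X.ι Sr), one_hom (fun i => X.deg i - 0) (fun i => X.deg i)
      (fun i => by ring), by
    show X.Φ * (1 : Matrix X.ι X.ι Sr) = (1 : Matrix X.ι X.ι Sr) * (((1 : ℤˣ) : ℤ) • X.Φ)
    rw [Matrix.mul_one, Matrix.one_mul, Units.val_one, one_smul]⟩

/-- its inverse -/
def bwd0 {f : Sr} (X : CM f) : mor X (tw 0 1 X) :=
  ⟨(1 : Matrix X.ι X.ι Sr), one_hom (fun i => X.deg i) (fun i => X.deg i - 0)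
      (fun i => by ring), by
    show (((1 : ℤˣ) : ℤ) • X.Φ) * (1 : Matrix X.ι X.ι Sr) = (1 : Matrix X.ι X.ι Sr) * X.Φ
    rw [Matrix.mul_one, Matrix.one_mul, Units.val_one, one_smul]⟩

/-- an isomorphism from two inverse maps -/
def isoOf {f : Sr} {X Y : CM f} (a : mor X Y) (b : mor Y X) (h : b.1 * a.1 = 1)
    (h' : a.1 * b.1 = 1) : X ≅ Y where
  hom := cls a
  inv := cls b
  hom_inv_id := congrArg (nul X X).mkQ (Subtype.ext h)
  inv_hom_id := congrArg (nul Y Y).mkQ (Subtype.ext h')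

end TWC_

open TWC_

theorem p_TWC : T_TWC := by
  intro f m m' s s'
  refine ⟨⟨NatIso.ofComponents (fun X => isoOf (fwd m m' s s' X) (bwd m m' s s' X)
    (Matrix.one_mul _) (Matrix.one_mul _)) ?_⟩, ⟨NatIso.ofComponents
    (fun X => isoOf (fwd0 X) (bwd0 X) (Matrix.one_mul _) (Matrix.one_mul _)) ?_⟩⟩
  · intro X Y g
    obtain ⟨g, rfl⟩ := Submodule.mkQ_surjective _ g
    refine congrArg (nul _ _).mkQ (Subtype.ext ?_)
    show (1 : Matrix Y.ι Y.ι Sr) * g.1 = g.1 * (1 : Matrix X.ι X.ι Sr)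
    rw [Matrix.one_mul, Matrix.mul_one]
  · intro X Y g
    obtain ⟨g, rfl⟩ := Submodule.mkQ_surjective _ g
    refine congrArg (nul _ _).mkQ (Subtype.ext ?_)
    show (1 : Matrix Y.ι Y.ι Sr) * g.1 = g.1 * (1 : Matrix X.ι X.ι Sr)
    rw [Matrix.one_mul, Matrix.mul_one]

end Pool.Agent.VDC
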