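import Pool.Agent.VDC.T2

/-!
# VDC, TWI: `twq` and the functors `twF`
-/

set_option autoImplicit false

open MvPolynomial CategoryTheory

noncomputable section

namespace Pool.Agent.VDC

/-- the identity matrix as a map between objects with the same data -/
def TWI_one {f : Sr} (m m' : ℤ) (s s' : ℤˣ) (Y : CM f) :
    mor (tw m s (tw m' s' Y)) (tw (m' + m) (s' * s) Y) :=
  ⟨1, by
    refine ⟨fun i j => ?_, ?_⟩
    · show Hmg ((1 : Matrix Y.ι Y.ι Sr) i j) ((Y.deg j - m') - m - (Y.deg i - (m' + m)))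
      by_cases h : i = j
      · subst h
        rw [Matrix.one_apply_eq]
        exact Hmg.one.congr (by ring)
      · rw [Matrix.one_apply_ne h]
        exact Hmg.zero _
    · show (((s' * s : ℤˣ) : ℤ) • Y.Φ) * (1 : Matrix Y.ι Y.ι Sr) =
        (1 : Matrix Y.ι Y.ι Sr) * ((s : ℤ) • ((s' : ℤ) • Y.Φ))
      rw [Matrix.mul_one, Matrix.one_mul, smul_smul, Units.val_mul, mul_comm]⟩

/-- the identity matrix in the other direction -/
def TWI_inv {f : Sr} (m m' : ℤ) (s s' : ℤˣ) (Y : CM f) :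
    mor (tw (m' + m) (s' * s) Y) (tw m s (tw m' s' Y)) :=
  ⟨1, by
    refine ⟨fun i j => ?_, ?_⟩
    · show Hmg ((1 : Matrix Y.ι Y.ι Sr) i j) (Y.deg j - (m' + m) - ((Y.deg i - m') - m))
      by_cases h : i = j
      · subst h
        rw [Matrix.one_apply_eq]
        exact Hmg.one.congr (by ring)
      · rw [Matrix.one_apply_ne h]
        exact Hmg.zero _
    · show ((s : ℤ) • ((s' : ℤ) • Y.Φ)) * (1 : Matrix Y.ι Y.ι Sr) =
        (1 : Matrix Y.ι Y.ι Sr) * (((s' * s : ℤˣ) : ℤ) • Y.Φ)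
      rw [Matrix.mul_one, Matrix.one_mul, smul_smul, Units.val_mul, mul_comm]⟩

/-- the isomorphism given by the identity matrix -/
def TWI_iso {f : Sr} (m m' : ℤ) (s s' : ℤˣ) (Y : CM f) :
    tw m s (tw m' s' Y) ≅ tw (m' + m) (s' * s) Y where
  hom := cls (TWI_one m m' s s' Y)
  inv := cls (TWI_inv m m' s s' Y)
  hom_inv_id := congrArg (nul _ _).mkQ (Subtype.ext (Matrix.one_mul _))
  inv_hom_id := congrArg (nul _ _).mkQ (Subtype.ext (Matrix.one_mul _))

theorem p_TWI : T_TWI := by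
  intro f m m' m'' s s' s'' hm hs Y
  subst hm hs
  refine ⟨TWI_iso m m' s s' Y, fun X a => ?_⟩
  obtain ⟨a, rfl⟩ := Submodule.mkQ_surjective _ a
  exact congrArg (nul _ _).mkQ (Subtype.ext (Matrix.one_mul _))

end Pool.Agent.VDC
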