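import Pool.Agent.VDC.T2

/-!
# VDC: TWP (`twq` and compositions)
-/

set_option autoImplicit false

open MvPolynomial CategoryTheory

noncomputable section

namespace Pool.Agent.VDC

theorem p_TWP : T_TWP := by
  intro f X Y W a s b t c r a₁ s₁ h₁ h₁' a₂ s₂ h₂ h₂' a₃ s₃ h₃ h₃' h₄ h₄' x y
  obtain ⟨x, rfl⟩ := Submodule.mkQ_surjective _ x
  obtain ⟨y, rfl⟩ := Submodule.mkQ_surjective _ y
  rfl

end Pool.Agent.VDC
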