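import Pool.Agent.VDC.T2

/-!
# VDC-TWQ: `twq` is bijective
-/

set_option autoImplicit false

open MvPolynomial CategoryTheory

noncomputable section

namespace Pool.Agent.VDC

namespace TWQ_

lemma tt (t : ℤˣ) : (t : ℤ) * (t : ℤ) = 1 := by
  rw [← Units.val_mul, Int.units_mul_self, Units.val_one]

lemma nul_back {f : Sr} {X Y : CM f} {a : ℤ} {s : ℤˣ} (b : ℤ) (t : ℤˣ)
    (g : mor X (tw a s Y)) (hg : twc b t (a + b) (s * t) rfl rfl g ∈
      nul (tw b t X) (tw (a + b) (s * t) Y)) : g ∈ nul X (tw a s Y) := by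
  obtain ⟨h, h1, h2⟩ := hg
  refine ⟨(t : ℤ) • h, fun i j => ((h1 i j).zsmul _).congr
    (by show (X.deg j - b) - 3 - (Y.deg i - (a + b)) = X.deg j - 3 - (Y.deg i - a); ring), ?_⟩
  have h3 : g.1 = (((s * t : ℤˣ) : ℤ) • Y.Φ) * h + h * ((t : ℤ) • X.Φ) := h2
  show g.1 = ((s : ℤ) • Y.Φ) * ((t : ℤ) • h) + ((t : ℤ) • h) * X.Φ
  rw [h3, Units.val_mul]
  simp only [Matrix.mul_smul, Matrix.smul_mul, smul_smul]
  rw [mul_comm (t : ℤ) (s : ℤ)]

lemma mor_back {f : Sr} {X Y : CM f} (a : ℤ) (s : ℤˣ) (b : ℤ) (t : ℤˣ)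
    (g : mor (tw b t X) (tw (a + b) (s * t) Y)) :
    ∃ g' : mor X (tw a s Y), twc b t (a + b) (s * t) rfl rfl g' = g := by
  obtain ⟨g, h1, h2⟩ := g
  refine ⟨⟨g, fun i j => (h1 i j).congr
    (by show (X.deg j - b) - (Y.deg i - (a + b)) = X.deg j - (Y.deg i - a); ring), ?_⟩, rfl⟩
  have h3 : (((s * t : ℤˣ) : ℤ) • Y.Φ) * g = g * ((t : ℤ) • X.Φ) := h2
  show ((s : ℤ) • Y.Φ) * g = g * X.Φ
  have h4 := congrArg (fun M => (t : ℤ) • M) h3
  simp only [Matrix.mul_smul, Matrix.smul_mul, smul_smul, Units.val_mul] at h4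
  rw [tt, one_smul, ← mul_assoc, mul_comm (t : ℤ) (s : ℤ), mul_assoc, tt, mul_one] at h4
  rw [Matrix.smul_mul]
  exact h4

end TWQ_

open TWQ_ in
theorem p_TWQ : T_TWQ := by
  intro f X Y a s b t a' s' ha hs
  subst ha hs
  constructor
  · rw [injective_iff_map_eq_zero]
    intro x hx
    obtain ⟨g, rfl⟩ := Submodule.mkQ_surjective _ x
    have h1 : (nul (tw b t X) (tw (a + b) (s * t) Y)).mkQ (twc b t (a + b) (s * t) rfl rfl g) = 0 :=
      hx
    rw [Submodule.mkQ_apply, Submodule.Quotient.mk_eq_zero] at h1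
    exact (Submodule.Quotient.mk_eq_zero _).2 (nul_back b t g h1)
  · intro y
    obtain ⟨g, rfl⟩ := Submodule.mkQ_surjective _ y
    obtain ⟨g', rfl⟩ := mor_back a s b t g
    exact ⟨(nul X (tw a s Y)).mkQ g', rfl⟩

end Pool.Agent.VDC
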