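import Pool.Agent.VDC.T1

/-!
# VDC: target VAR (helper91)
-/

set_option autoImplicit false

open MvPolynomial CategoryTheory

noncomputable section

namespace Pool.Agent.VDC

namespace VAR_

lemma le_of_kapd (hF : T_HFIN) (G : PO) (l : Matrix G.ι G.ι Sr) (s ρ : ℤ)
    (h : kapd G l s ρ = 0) : Kc G l s ρ ≤ Bc G G ⊥ s ρ := by
  have : FiniteDimensional ℂ (HM G G ρ) := hF G G ρ
  have hle : Kc G l s ρ ≤ HM G G ρ := fun x hx => hx.1.1
  have : FiniteDimensional ℂ (Kc G l s ρ) := Submodule.finiteDimensional_of_le hle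
  have h1 := Module.finrank_zero_iff.1 h
  rw [Submodule.Quotient.subsingleton_iff] at h1
  intro x hx
  have h2 : (⟨x, hx⟩ : Kc G l s ρ) ∈ (Bc G G ⊥ s ρ).comap (Kc G l s ρ).subtype := by
    rw [h1]
    exact Submodule.mem_top
  exact h2

lemma smul_one_mem (G : PO) (l : Matrix G.ι G.ι Sr) (q : Sr) (m : ℤ) (hq : Hmg q m) :
    q • (1 : Matrix G.ι G.ι Sr) ∈ Kc G l 1 m := by
  refine ⟨⟨?_, ?_⟩, ?_⟩
  · intro i j
    show Hmg ((q • (1 : Matrix G.ι G.ι Sr)) i j) (G.deg j + m - G.deg i)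
    rw [Matrix.smul_apply, smul_eq_mul]
    by_cases h : i = j
    · subst h
      rw [Matrix.one_apply_eq, mul_one]
      exact hq.congr (by ring)
    · rw [Matrix.one_apply_ne h, mul_zero]
      exact Hmg.zero _
  · intro i j
    have h1 : dd G G 1 (q • (1 : Matrix G.ι G.ι Sr)) = 0 := by
      rw [dd_apply]
      simp
    rw [h1]
    exact Ideal.zero_mem _
  · show l * (q • (1 : Matrix G.ι G.ι Sr)) - (1 : ℤ) • ((q • (1 : Matrix G.ι G.ι Sr)) * l) ∈
      Bc G G ⊥ (-1) (m - 1)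
    have h1 : l * (q • (1 : Matrix G.ι G.ι Sr)) -
        (1 : ℤ) • ((q • (1 : Matrix G.ι G.ι Sr)) * l) = 0 := by
      simp
    rw [h1]
    exact Submodule.zero_mem _

lemma nh_of_mem (G : PO) (q : Sr) (m : ℤ)
    (h : q • (1 : Matrix G.ι G.ι Sr) ∈ Bc G G ⊥ 1 m) : NH G q m := by
  obtain ⟨_, h2⟩ := h
  obtain ⟨a, ha, c, hc, hac⟩ := Submodule.mem_sup.1 h2
  obtain ⟨k, hk, rfl⟩ := ha
  refine ⟨k, hk, ?_⟩
  have hc0 : c = 0 := by
    ext1 i j
    exact (Ideal.mem_bot.1 (hc i j))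
  rw [hc0, add_zero, dd_apply] at hac
  rw [← hac]
  simp

end VAR_

open VAR_ in
/-- the variables act by zero -/
theorem p_VAR (hETA : T_ETA) (hKSP : T_KSP) (hEUL : T_EUL) (hSYM : T_SYM) (hF : T_HFIN) :
    T_VAR := by
  intro f hf G hG hd
  obtain ⟨l, hl, hl1⟩ := hG 3
  have hn : n2 3 = 1 := rfl
  rw [hn, pow_one] at hl1
  have hl' : l ∈ HM G.toPO G.toPO (-1) := hl
  have hm2 : hdim G.toPO G.toPO ⊥ 1 (-2) = 0 := hd (-2)
  obtain ⟨η, hη, hη1⟩ := hETA f hf G hG hm2 l hl' hl1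
  have key := hKSP f G l η hl' hl1 hm2 hη hη1
  have k1 := key (-1) (-1) (by norm_num)
  have k2 := key 1 0 (by norm_num)
  have k3 := key (-1) 1 (by norm_num)
  have k4 := key 1 2 (by norm_num)
  have k5 := key (-1) 3 (by norm_num)
  have d1 : hdim G.toPO G.toPO ⊥ (-1) (-1) = 0 := hd (-1)
  have d2 : hdim G.toPO G.toPO ⊥ 1 0 = 1 := hd 0
  have d3 : hdim G.toPO G.toPO ⊥ (-1) 1 = 1 := hd 1
  have d4 : hdim G.toPO G.toPO ⊥ 1 2 = 3 := hd 2
  have d5 : hdim G.toPO G.toPO ⊥ (-1) 3 = 3 := hd 3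
  norm_num at k1 k2 k3 k4 k5
  have e3 : kapd G.toPO l (-1) 3 = 0 := by omega
  have hsym := hSYM f G hG (hEUL f hf G hG hm2 l hl' hl1 e3)
  have s1 := hsym (-1) (-1) (by norm_num)
  have s2 := hsym 1 0 (by norm_num)
  have s3 := hsym (-1) 1 (by norm_num)
  have m1 := key 1 (-1) (by norm_num)
  have m2 := key (-1) 0 (by norm_num)
  have m3 := key 1 1 (by norm_num)
  norm_num at s1 s2 s3 m1 m2 m3
  have e1 : kapd G.toPO l 1 1 = 0 := by omega
  have hle := le_of_kapd hF G.toPO l 1 1 e1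
  have main : ∀ i, wt i = 1 → NH G.toPO (X i : Sr) (wt i) := by
    intro i hi
    rw [hi]
    refine nh_of_mem _ _ _ (hle (smul_one_mem _ _ _ _ ?_))
    have := Hmg.X i
    rwa [hi] at this
  intro i
  fin_cases i
  · exact main 0 rfl
  · exact main 1 rfl
  · exact main 2 rfl
  · exact ⟨l, hl, hl1⟩

end Pool.Agent.VDC
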