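import Pool.Agent.VDC.T1

/-!
# VDC: target VCOM (helper75)

Exact equivalences commute with all twists.
-/

set_option autoImplicit false

open MvPolynomial CategoryTheory

noncomputable section

namespace Pool.Agent.VDC

namespace VCOM_

/-- `F` commutes with the twist by `a` -/
def Cm {f f' : Sr} (F : CM f ⥤ CM f') (a : ℤ) : Prop :=
  Nonempty (twF f a a.negOnePow ⋙ F ≅ F ⋙ twF f' a a.negOnePow)

theorem tadd (hT : T_TWC) (f : Sr) (a b : ℤ) :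
    Nonempty (twF f a a.negOnePow ⋙ twF f b b.negOnePow ≅
      twF f (a + b) (a + b).negOnePow) := by
  rw [Int.negOnePow_add]
  exact (hT f a b _ _).1

theorem tzero (hT : T_TWC) (f : Sr) : Nonempty (twF f 0 (0 : ℤ).negOnePow ≅ 𝟭 (CM f)) := by
  rw [Int.negOnePow_zero]
  exact (hT f 0 0 1 1).2

theorem Cm.zero (hT : T_TWC) {f f' : Sr} (F : CM f ⥤ CM f') : Cm F 0 := by
  obtain ⟨i⟩ := tzero hT f
  obtain ⟨i'⟩ := tzero hT f'
  exact ⟨Functor.isoWhiskerRight i F ≪≫ Functor.leftUnitor F ≪≫ (Functor.rightUnitor F).symm ≪≫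
    Functor.isoWhiskerLeft F i'.symm⟩

theorem Cm.add (hT : T_TWC) {f f' : Sr} {F : CM f ⥤ CM f'} {a b : ℤ} (ha : Cm F a)
    (hb : Cm F b) : Cm F (a + b) := by
  obtain ⟨e⟩ := tadd hT f a b
  obtain ⟨e'⟩ := tadd hT f' a b
  obtain ⟨ia⟩ := ha
  obtain ⟨ib⟩ := hb
  exact ⟨Functor.isoWhiskerRight e.symm F ≪≫ Functor.associator _ _ _ ≪≫
    Functor.isoWhiskerLeft _ ib ≪≫ (Functor.associator _ _ _).symm ≪≫
    Functor.isoWhiskerRight ia _ ≪≫ Functor.associator _ _ _ ≪≫ Functor.isoWhiskerLeft F e'⟩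

theorem Cm.neg (hT : T_TWC) {f f' : Sr} {F : CM f ⥤ CM f'} {a : ℤ} (ha : Cm F a) :
    Cm F (-a) := by
  obtain ⟨ia⟩ := ha
  obtain ⟨z⟩ := tzero hT f
  obtain ⟨z'⟩ := tzero hT f'
  have h1 : Nonempty (twF f (-a) (-a).negOnePow ⋙ twF f a a.negOnePow ≅ 𝟭 (CM f)) := by
    obtain ⟨e⟩ := tadd hT f (-a) a
    rw [neg_add_cancel] at e
    exact ⟨e ≪≫ z⟩
  have h2 : Nonempty (twF f' a a.negOnePow ⋙ twF f' (-a) (-a).negOnePow ≅ 𝟭 (CM f')) := by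
    obtain ⟨e⟩ := tadd hT f' a (-a)
    rw [add_neg_cancel] at e
    exact ⟨e ≪≫ z'⟩
  obtain ⟨j⟩ := h1
  obtain ⟨j'⟩ := h2
  let T := twF f (-a) (-a).negOnePow
  let T' := twF f' (-a) (-a).negOnePow
  let V := twF f a a.negOnePow
  let V' := twF f' a a.negOnePow
  have a1 : T ⋙ F ≅ (T ⋙ F) ⋙ 𝟭 (CM f') := (Functor.rightUnitor _).symm
  have a2 : (T ⋙ F) ⋙ 𝟭 (CM f') ≅ (T ⋙ F) ⋙ V' ⋙ T' := Functor.isoWhiskerLeft _ j'.symm
  have a3 : (T ⋙ F) ⋙ V' ⋙ T' ≅ T ⋙ (F ⋙ V') ⋙ T' := Functor.associator _ _ _ ≪≫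
    Functor.isoWhiskerLeft T (Functor.associator _ _ _).symm
  have a4 : T ⋙ (F ⋙ V') ⋙ T' ≅ T ⋙ (V ⋙ F) ⋙ T' :=
    Functor.isoWhiskerLeft T (Functor.isoWhiskerRight ia.symm T')
  have a5 : T ⋙ (V ⋙ F) ⋙ T' ≅ (T ⋙ V) ⋙ F ⋙ T' :=
    Functor.isoWhiskerLeft T (Functor.associator _ _ _) ≪≫ (Functor.associator _ _ _).symm
  have a6 : (T ⋙ V) ⋙ F ⋙ T' ≅ 𝟭 (CM f) ⋙ F ⋙ T' := Functor.isoWhiskerRight j _
  exact ⟨a1 ≪≫ a2 ≪≫ a3 ≪≫ a4 ≪≫ a5 ≪≫ a6 ≪≫ Functor.leftUnitor _⟩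

end VCOM_

open VCOM_ in
theorem p_VCOM (h_SFU : T_SFU) (h_TWC : T_TWC) : T_VCOM := by
  intro f f' hf hf' E ρ
  have := E.isEquiv
  have := E.additive
  have := E.linear
  have h3 : (3 : ℤ).negOnePow = -1 := by decide
  have h7 : (7 : ℤ).negOnePow = -1 := by decide
  have c3 : Cm E.F 3 := by
    unfold Cm
    rw [h3]
    exact ⟨E.comm⟩
  have c7 : Cm E.F 7 := by
    unfold Cm
    rw [h7]
    exact h_SFU f f' hf hf' E.F E.isEquiv E.additive E.linear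
  have c1 : Cm E.F 1 := (c7.add h_TWC (c3.neg h_TWC)).add h_TWC (c3.neg h_TWC)
  change Cm E.F ρ
  induction ρ using Int.induction_on with
  | zero => exact Cm.zero h_TWC E.F
  | succ i ih => exact ih.add h_TWC c1
  | pred i ih => exact ih.add h_TWC (c1.neg h_TWC)

end Pool.Agent.VDC
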