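import Pool.Agent.VDC.T2

/-!
# VDC: the cone is a weak cokernel (helper16)
-/

set_option autoImplicit false

open MvPolynomial CategoryTheory

noncomputable section

namespace Pool.Agent.VDC

namespace WC_

variable {f : Sr}

/-- the map from the shift -/
def kM {X Y Z : CM f} (g : mor X Y) (w : mor (cone g) Z) (h : Matrix Z.ι Y.ι Sr)
    (hh : ∀ i j, Hmg (h i j) (Y.deg j - 3 - Z.deg i))
    (he : w.1.toCols₁ = Z.Φ * h + h * Y.Φ) : mor (tw 3 (-1) X) Z :=
  ⟨w.1.toCols₂ - h * g.1, by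
    obtain ⟨w, hw1, hw2⟩ := w
    obtain ⟨g, hg1, hg2⟩ := g
    refine ⟨fun i j => ?_, ?_⟩
    · refine Hmg.sub (p := w i (Sum.inr j)) (q := (h * g) i j) ?_ ?_
      · exact hw1 i (Sum.inr j)
      · rw [Matrix.mul_apply]
        exact Hmg.sum fun k _ => ((hh i k).mul (hg1 k j)).congr (by
          show _ = (X.deg j - 3) - Z.deg i
          ring)
    · have h2 : Z.Φ * w.toCols₂ = w.toCols₁ * g - w.toCols₂ * X.Φ := by
        have h3 : Z.Φ * w = w * Matrix.fromBlocks Y.Φ g 0 (-X.Φ) := hw2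
        rw [← Matrix.fromCols_toCols w, Matrix.fromCols_mul_fromBlocks,
          Matrix.mul_fromCols] at h3
        have h4 := congrArg Matrix.toCols₂ h3
        simp only [Matrix.toCols₂_fromCols, Matrix.mul_neg] at h4
        rw [h4, sub_eq_add_neg]
      show Z.Φ * (w.toCols₂ - h * g) = (w.toCols₂ - h * g) * (((-1 : ℤˣ) : ℤ) • X.Φ)
      have he' : w.toCols₁ = Z.Φ * h + h * Y.Φ := he
      rw [Matrix.mul_sub, h2, he']
      simp only [Units.val_neg, Units.val_one, neg_smul, one_smul, Matrix.mul_neg,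
        Matrix.add_mul, Matrix.sub_mul]
      rw [← Matrix.mul_assoc Z.Φ h g, Matrix.mul_assoc h Y.Φ g, hg2, ← Matrix.mul_assoc h g X.Φ]
      abel⟩

end WC_

open WC_ in
/-- the cone is a weak cokernel -/
theorem p_WC : T_WC := by
  intro f X Y Z g w hw
  obtain ⟨w, rfl⟩ := Submodule.mkQ_surjective _ w
  have hn : compM (inclM g) w ∈ nul Y Z := (Submodule.Quotient.mk_eq_zero _).1 hw
  obtain ⟨h, hh, he⟩ := hn
  have he' : w.1.toCols₁ = Z.Φ * h + h * Y.Φ := by
    rw [← he]
    show w.1.toCols₁ = w.1 * Matrix.fromRows 1 0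
    rw [← Matrix.fromCols_toCols w.1, Matrix.fromCols_mul_fromRows]
    simp
  refine ⟨cls (kM g w h hh he'), ?_⟩
  show (nul (cone g) Z).mkQ w = (nul (cone g) Z).mkQ (compM (projM g) (kM g w h hh he'))
  refine (Submodule.Quotient.eq _).2 ⟨Matrix.fromCols h 0, ?_, ?_⟩
  · rintro i (j | j)
    · exact hh i j
    · exact Hmg.zero _
  · show w.1 - (w.1.toCols₂ - h * g.1) * Matrix.fromCols 0 1 =
      Z.Φ * Matrix.fromCols h 0 + Matrix.fromCols h 0 * Matrix.fromBlocks Y.Φ g.1 0 (-X.Φ)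
    rw [Matrix.fromCols_mul_fromBlocks, Matrix.mul_fromCols, Matrix.mul_fromCols]
    ext1 i j
    rcases j with j | j
    · have h5 := congrFun (congrFun he' i) j
      simp only [Matrix.sub_apply, Matrix.add_apply, Matrix.fromCols_apply_inl, Matrix.mul_zero,
        Matrix.zero_mul, Matrix.zero_apply, sub_zero, add_zero] at h5 ⊢
      exact h5
    · simp only [Matrix.sub_apply, Matrix.add_apply, Matrix.fromCols_apply_inr, Matrix.mul_one,
        Matrix.mul_zero, Matrix.zero_mul, Matrix.zero_apply, add_zero, zero_add]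
      show w.1 i (Sum.inr j) - (w.1 i (Sum.inr j) - (h * g.1) i j) = (h * g.1) i j
      ring

end Pool.Agent.VDC
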