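import Pool.Agent.VDC.T2

/-!
# VDC, target XE: the maps `xi v : k → k(2)` and `et : k → V k`
-/

set_option autoImplicit false

open MvPolynomial CategoryTheory

noncomputable section

namespace Pool.Agent.VDC

namespace XE_

variable {f : Sr}

/-- constant terms -/
def c0 {ι κ : Type} (g : Matrix ι κ Sr) : Matrix ι κ ℂ := g.map (constantCoeff (R := ℂ))

lemma c0_apply {ι κ : Type} (g : Matrix ι κ Sr) (i : ι) (j : κ) :
    c0 g i j = coeff 0 (g i j) := rfl

lemma c0_mul {ι κ l : Type} [Fintype κ] (g : Matrix ι κ Sr) (h : Matrix κ l Sr) :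
    c0 (g * h) = c0 g * c0 h := Matrix.map_mul

lemma c0_add {ι κ : Type} (g h : Matrix ι κ Sr) : c0 (g + h) = c0 g + c0 h := by
  ext i j; simp [c0]

lemma c0_neg {ι κ : Type} (g : Matrix ι κ Sr) : c0 (-g) = -c0 g := by
  ext i j; simp [c0]

lemma c0_sub {ι κ : Type} (g h : Matrix ι κ Sr) : c0 (g - h) = c0 g - c0 h := by
  ext i j; simp [c0]

lemma c0_csmul {ι κ : Type} (c : ℂ) (g : Matrix ι κ Sr) : c0 (c • g) = c • c0 g := by
  ext i j; simp [c0_apply, coeff_smul]

lemma c0_sum {ι κ α : Type} (s : Finset α) (g : α → Matrix ι κ Sr) :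
    c0 (∑ a ∈ s, g a) = ∑ a ∈ s, c0 (g a) := by
  classical
  induction s using Finset.induction_on with
  | empty => ext i j; simp [c0]
  | insert a s ha ih => rw [Finset.sum_insert ha, Finset.sum_insert ha, c0_add, ih]

lemma c0_one {ι : Type} [DecidableEq ι] : c0 (1 : Matrix ι ι Sr) = 1 := by
  ext i j
  rw [c0_apply, Matrix.one_apply, Matrix.one_apply]
  split_ifs <;> simp

/-- entrywise partial derivative -/
def dm {ι κ : Type} (i : Fin 4) (g : Matrix ι κ Sr) : Matrix ι κ Sr := g.map (pderiv i)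

lemma dm_mul {ι κ l : Type} [Fintype κ] (i : Fin 4) (g : Matrix ι κ Sr) (h : Matrix κ l Sr) :
    dm i (g * h) = dm i g * h + g * dm i h := by
  ext1 a b
  simp only [dm, Matrix.map_apply, Matrix.mul_apply, Matrix.add_apply, map_sum,
    (pderiv i).leibniz, smul_eq_mul]
  rw [← Finset.sum_add_distrib]
  exact Finset.sum_congr rfl fun k _ => by ring

lemma dm_add {ι κ : Type} (i : Fin 4) (g h : Matrix ι κ Sr) :
    dm i (g + h) = dm i g + dm i h := by
  ext1 a b
  simp [dm, Matrix.map_apply, Matrix.add_apply, map_add]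

lemma coeff_dm {ι κ : Type} (i : Fin 4) (g : Matrix ι κ Sr) (a : ι) (b : κ) :
    c0 (dm i g) a b = coeff (Finsupp.single i 1) (g a b) := by
  rw [c0_apply]
  show coeff 0 (pderiv i (g a b)) = _
  rw [coeff_pderiv]
  simp

lemma cc_f (hf : Hmg f 6) (i j : Fin 4) : coeff 0 (pderiv i (pderiv j f)) = 0 := by
  rw [coeff_pderiv, coeff_pderiv]
  have h : coeff (0 + Finsupp.single i 1 + Finsupp.single j 1) f = 0 := by
    by_contra h
    have h1 := hf _ h
    rw [wd_add, wd_add] at h1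
    have h2 : ∀ k : Fin 4, wd (Finsupp.single k 1) = wt k := by
      intro k
      rw [wd, Finset.sum_eq_single k]
      · simp
      · intro b _ hb
        simp [hb.symm]
      · simp
    have h3 : wd 0 = 0 := by simp [wd]
    rw [h2, h2, h3] at h1
    have h4 : ∀ k : Fin 4, wt k ≤ 2 := by
      intro k
      fin_cases k <;> simp [wt]
    have := h4 i
    have := h4 j
    omega
  rw [h]
  ring

/-- the matrices of linear coefficients anticommute -/
lemma anti_E (hf : Hmg f 6) (K : CM f) (hred : ∀ i j, coeff 0 (K.Φ i j) = 0) (i j : Fin 4) :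
    c0 (dm i K.Φ) * c0 (dm j K.Φ) + c0 (dm j K.Φ) * c0 (dm i K.Φ) = 0 := by
  have h0 : c0 K.Φ = 0 := by
    ext a b
    exact hred a b
  have h1 : c0 (dm i (dm j (K.Φ * K.Φ))) = 0 := by
    rw [K.sq]
    ext a b
    rw [c0_apply]
    show coeff 0 (pderiv i (pderiv j ((-(f • (1 : Matrix K.ι K.ι Sr))) a b))) = 0
    rw [Matrix.neg_apply, Matrix.smul_apply, smul_eq_mul]
    by_cases hab : a = b
    · subst hab
      rw [Matrix.one_apply_eq, mul_one, map_neg, map_neg, coeff_neg, cc_f hf, neg_zero]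
    · rw [Matrix.one_apply_ne hab, mul_zero, neg_zero, map_zero, map_zero, coeff_zero]
  rw [dm_mul, dm_add, dm_mul, dm_mul, c0_add, c0_add, c0_add, c0_mul, c0_mul, c0_mul, c0_mul,
    h0, Matrix.mul_zero, Matrix.zero_mul, zero_add, add_zero, add_comm] at h1
  exact h1

lemma IM_bot {ι κ : Type} {g : Matrix ι κ Sr} (h : g ∈ IM ⊥ ι κ) : g = 0 := by
  ext1 i j
  exact (Ideal.mem_bot).1 (h i j)

lemma nul_iff {X Y : CM f} {m : ℤ} {s : ℤˣ} (g : mor X (tw m s Y)) :
    g ∈ nul X (tw m s Y) ↔ g.1 ∈ Bc X.toPO Y.toPO ⊥ (s : ℤ) m := by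
  have hs : (s : ℤ) * (s : ℤ) = 1 := by
    rw [← Units.val_mul, Int.units_mul_self, Units.val_one]
  constructor
  · rintro ⟨h, h1, h2⟩
    refine ⟨(toZ g).1, Submodule.mem_sup_left ⟨(s : ℤ) • h, fun i j => ?_, ?_⟩⟩
    · exact ((h1 i j).zsmul _).congr (by
        show X.deg j - 3 - (Y.deg i - m) = X.deg j + (m - 3) - Y.deg i
        ring)
    · have h3 : g.1 = ((s : ℤ) • Y.Φ) * h + h * X.Φ := h2
      rw [dd_apply, h3, Matrix.mul_smul, Matrix.smul_mul, Matrix.smul_mul, smul_smul, neg_mul, hs,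
        neg_smul, one_smul, sub_neg_eq_add]
  · rintro ⟨hz1, hz2⟩
    obtain ⟨b, ⟨h, hh, rfl⟩, c, hc, hbc⟩ := Submodule.mem_sup.1 hz2
    refine ⟨(s : ℤ) • h, fun i j => ?_, ?_⟩
    · exact ((hh i j).zsmul _).congr (by
        show X.deg j + (m - 3) - Y.deg i = X.deg j - 3 - (Y.deg i - m)
        ring)
    · show g.1 = ((s : ℤ) • Y.Φ) * ((s : ℤ) • h) + ((s : ℤ) • h) * X.Φ
      rw [IM_bot hc, add_zero] at hbc
      rw [← hbc, dd_apply, Matrix.mul_smul, Matrix.smul_mul, Matrix.smul_mul, smul_smul, hs,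
        one_smul, neg_smul, sub_neg_eq_add]

lemma cls_zero {K : CM f} {o : K.ι} (hK : KT K o) {m : ℤ} {s : ℤˣ} (g : mor K (tw m s K)) :
    cls g = 0 ↔ ∀ j, c0 g.1 o j = 0 := by
  have hs : (s : ℤ) * (s : ℤ) = 1 := by
    rw [← Units.val_mul, Int.units_mul_self, Units.val_one]
  have h1 : cls g = 0 ↔ g ∈ nul K (tw m s K) := Submodule.Quotient.mk_eq_zero _
  rw [h1, nul_iff, hK.inj (s : ℤ) m hs g.1 (toZ g)]
  rfl

lemma cls_sub {X Y : CM f} (g h : mor X Y) : cls (g - h) = cls g - cls h :=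
  map_sub (nul X Y).mkQ g h

lemma cls_eq {K : CM f} {o : K.ι} (hK : KT K o) {m : ℤ} {s : ℤˣ} (g h : mor K (tw m s K)) :
    cls g = cls h ↔ ∀ j, c0 g.1 o j = c0 h.1 o j := by
  rw [← sub_eq_zero, ← cls_sub, cls_zero hK]
  have h1 : (g - h).1 = g.1 - h.1 := rfl
  rw [h1, c0_sub]
  exact forall_congr' fun j => by rw [Matrix.sub_apply, sub_eq_zero]

lemma dd_zero {X Y : PO} {s ρ : ℤ} {g : Matrix Y.ι X.ι Sr} (h : g ∈ Zc X Y ⊥ s ρ) :
    Y.Φ * g = s • (g * X.Φ) := by
  have h1 : dd X Y s g = 0 := IM_bot h.2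
  rw [dd_apply, sub_eq_zero] at h1
  exact h1

lemma mem_Zc {X Y : PO} {s ρ : ℤ} {g : Matrix Y.ι X.ι Sr} (h : g ∈ HM X Y ρ)
    (h1 : Y.Φ * g = s • (g * X.Φ)) : g ∈ Zc X Y ⊥ s ρ := by
  refine ⟨h, ?_⟩
  show dd X Y s g ∈ IM ⊥ Y.ι X.ι
  rw [dd_apply, h1, sub_self]
  exact zero_mem _

theorem main (hf : Hmg f 6) (K : CM f) (o : K.ι) (hK : KT K o) (ξ : Fin 4 → Matrix K.ι K.ι Sr)
    (Z : Matrix K.ι K.ι Sr) (hξ : ∀ i, ξ i ∈ Zc K.toPO K.toPO ⊥ (-1) (3 - wt i))
    (hξ0 : ∀ i a b, coeff 0 (ξ i a b) = coeff (Finsupp.single i 1) (K.Φ a b))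
    (hZ : Z ∈ Zc K.toPO K.toPO ⊥ (-1) 0) (hZZ : Z * Z = 1) (hZξ : ∀ i, Z * ξ i = -(ξ i * Z))
    (hZo : ∀ j, Z o j = if j = o then 1 else 0) (t : Fin 4 → K.ι)
    (ht2 : ∀ j, K.deg j = -2 ↔ ∃ i : Fin 3, j = t (Fin.castSucc i))
    (ht1 : ∀ j, K.deg j = -1 ↔ j = t 3)
    (hto : ∀ i j, coeff (Finsupp.single i 1) (K.Φ o (t j)) ≠ 0 ↔ i = j)
    (hto2 : ∀ i : Fin 4, ∀ j, coeff (Finsupp.single i 1) (K.Φ o j) ≠ 0 → j = t i)
    (q : Fin 4 → Fin 4 → K.ι)
    (hq : ∀ i j k l, i ≠ j → (coeff (Finsupp.single k 1)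
          (K.Φ (t l) (q i j)) ≠ 0 ↔ (k = i ∧ l = j) ∨ (k = j ∧ l = i))) :
    Nonempty (XE K o) := by
  -- complex matrices
  set E : Fin 4 → Matrix K.ι K.ι ℂ := fun i => c0 (ξ i) with hE
  have hEap : ∀ i a b, E i a b = coeff (Finsupp.single i 1) (K.Φ a b) := hξ0
  have hEd : ∀ i, E i = c0 (dm i K.Φ) := by
    intro i
    ext a b
    rw [hEap, coeff_dm]
  have hEE : ∀ i j, E i * E j + E j * E i = 0 := by
    intro i j
    rw [hEd, hEd]
    exact anti_E hf K hK.red i j
  set z : Matrix K.ι K.ι ℂ := c0 Z with hz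
  have hzz : z * z = 1 := by rw [hz, ← c0_mul, hZZ, c0_one]
  have hzE : ∀ i, z * E i = -(E i * z) := by
    intro i
    rw [hz, hE, ← c0_mul, hZξ, c0_neg, c0_mul]
  have hzo : ∀ (M : Matrix K.ι K.ι ℂ) (j : K.ι), (z * M) o j = M o j := by
    intro M j
    rw [Matrix.mul_apply, Finset.sum_eq_single o]
    · rw [hz, c0_apply, hZo, if_pos rfl]; simp
    · intro b _ hb
      rw [hz, c0_apply, hZo, if_neg hb]; simp
    · simp
  -- the basic maps
  have hb : ∀ i : Fin 3, Z * ξ (Fin.castSucc i) ∈ Zc K.toPO K.toPO ⊥ (((1 : ℤˣ) : ℤ)) 2 := by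
    intro i
    have h1 := hξ (Fin.castSucc i)
    have hw : wt (Fin.castSucc i) = 1 := by fin_cases i <;> rfl
    rw [hw] at h1
    refine mem_Zc (fun a b => ?_) ?_
    · rw [Matrix.mul_apply]
      exact Hmg.sum fun k _ => ((hZ.1 a k).mul (h1.1 k b)).congr (by ring)
    · have h2 := dd_zero hZ
      have h3 := dd_zero h1
      rw [← Matrix.mul_assoc, h2, Matrix.smul_mul, Matrix.mul_assoc Z K.Φ, h3, Matrix.mul_smul,
        smul_smul, Matrix.mul_assoc]
      norm_num
  have hb3 : ξ 3 ∈ Zc K.toPO K.toPO ⊥ (((-1 : ℤˣ) : ℤ)) 1 := hξ 3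
  let b : Fin 3 → mor K (tw 2 1 K) := fun i => ofZ 2 1 (Z * ξ (Fin.castSucc i)) (hb i)
  let bv : (Fin 3 → ℂ) → mor K (tw 2 1 K) := fun v => ∑ i, v i • b i
  let e3 : mor K (tw 1 (-1) K) := ofZ 1 (-1) (ξ 3) hb3
  let XI : (Fin 3 → ℂ) →ₗ[ℂ] (K ⟶ tw 2 1 K) :=
    Fintype.linearCombination ℂ (fun i => cls (b i))
  have hXI : ∀ v, XI v = cls (bv v) := by
    intro v
    show Fintype.linearCombination ℂ (fun i => cls (b i)) v = (nul K (tw 2 1 K)).mkQ (bv v)
    rw [Fintype.linearCombination_apply, map_sum]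
    exact Finset.sum_congr rfl fun i _ => (map_smul (nul K (tw 2 1 K)).mkQ (v i) (b i)).symm
  -- matrices of constant terms
  let EV : (Fin 3 → ℂ) → Matrix K.ι K.ι ℂ := fun v => ∑ i : Fin 3, v i • E (Fin.castSucc i)
  have hbv : ∀ v, c0 (bv v).1 = z * EV v := by
    intro v
    have h1 : (bv v).1 = ∑ i, v i • (Z * ξ (Fin.castSucc i)) := by
      show ((∑ i, v i • b i : mor K (tw 2 1 K)) : Matrix K.ι K.ι Sr) = _
      rw [Submodule.coe_sum]
      rfl
    rw [h1, c0_sum, Finset.mul_sum]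
    exact Finset.sum_congr rfl fun i _ => by
      rw [c0_csmul, c0_mul, Matrix.mul_smul]
  have he3 : c0 e3.1 = E 3 := rfl
  have hzEV : ∀ v, z * EV v = -(EV v * z) := by
    intro v
    rw [Finset.mul_sum, Finset.sum_mul, ← Finset.sum_neg_distrib]
    exact Finset.sum_congr rfl fun i _ => by
      rw [Matrix.mul_smul, hzE, Matrix.smul_mul, smul_neg]
  have hEV3 : ∀ v, EV v * E 3 + E 3 * EV v = 0 := by
    intro v
    rw [Finset.sum_mul, Finset.mul_sum, ← Finset.sum_add_distrib]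
    exact Finset.sum_eq_zero fun i _ => by
      rw [Matrix.smul_mul, Matrix.mul_smul, ← smul_add, hEE, smul_zero]
  have hmul : ∀ v w, EV v * EV w = ∑ i : Fin 3, ∑ j : Fin 3,
      (v i * w j) • (E (Fin.castSucc i) * E (Fin.castSucc j)) := by
    intro v w
    rw [Finset.sum_mul]
    refine Finset.sum_congr rfl fun i _ => ?_
    rw [Finset.mul_sum]
    exact Finset.sum_congr rfl fun j _ => by
      rw [Matrix.smul_mul, Matrix.mul_smul, smul_smul]
  have hEVEV : ∀ v w, EV v * EV w + EV w * EV v = 0 := by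
    intro v w
    rw [hmul v w, hmul w v, Finset.sum_comm (s := Finset.univ) (t := Finset.univ)
      (f := fun i j => (w i * v j) • (E (Fin.castSucc i) * E (Fin.castSucc j))),
      ← Finset.sum_add_distrib]
    refine Finset.sum_eq_zero fun i _ => ?_
    rw [← Finset.sum_add_distrib]
    exact Finset.sum_eq_zero fun j _ => by
      rw [mul_comm (w j), ← smul_add, hEE, smul_zero]
  -- rows
  have hEo : ∀ i j, j ≠ t i → E i o j = 0 := by
    intro i j hj
    by_contra h
    rw [hEap] at h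
    exact hj (hto2 i j h)
  have hEt : ∀ i, E i o (t i) ≠ 0 := by
    intro i
    rw [hEap]
    exact (hto i i).2 rfl
  have hEt0 : ∀ i j, i ≠ j → E i o (t j) = 0 := by
    intro i j hij
    by_contra h
    rw [hEap] at h
    exact hij ((hto i j).1 h)
  have hEr : ∀ (i : Fin 4) (M : Matrix K.ι K.ι ℂ) (j : K.ι),
      (E i * M) o j = E i o (t i) * M (t i) j := by
    intro i M j
    rw [Matrix.mul_apply, Finset.sum_eq_single (t i)]
    · intro k _ hk
      rw [hEo i k hk, zero_mul]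
    · intro h
      exact absurd (Finset.mem_univ _) h
  have hEVo : ∀ v j, EV v o j = ∑ i : Fin 3, v i * E (Fin.castSucc i) o j := by
    intro v j
    show (∑ i : Fin 3, v i • E (Fin.castSucc i)) o j = _
    rw [Matrix.sum_apply]
    rfl
  have hEVt : ∀ v (a : Fin 3), EV v o (t (Fin.castSucc a)) =
      v a * E (Fin.castSucc a) o (t (Fin.castSucc a)) := by
    intro v a
    rw [hEVo, Finset.sum_eq_single a]
    · intro i _ hi
      rw [hEt0 _ _ (fun h => hi (Fin.castSucc_injective 3 h)), mul_zero]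
    · intro h
      exact absurd (Finset.mem_univ _) h
  have hEVt0 : ∀ v j, (∀ a : Fin 3, j ≠ t (Fin.castSucc a)) → EV v o j = 0 := by
    intro v j hj
    rw [hEVo]
    exact Finset.sum_eq_zero fun i _ => by rw [hEo _ _ (hj i), mul_zero]
  have hinj : Function.Injective XI := by
    rw [← LinearMap.ker_eq_bot, LinearMap.ker_eq_bot']
    intro v hv
    rw [hXI, cls_zero hK] at hv
    funext a
    have h1 := hv (t (Fin.castSucc a))
    rw [hbv, hzo, hEVt] at h1
    exact (mul_eq_zero.1 h1).resolve_right (hEt _)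
  have hrow : ∀ {m : ℤ} {s : ℤˣ} (g : mor K (tw m s K)) (j : K.ι), K.deg j ≠ -m →
      c0 g.1 o j = 0 := by
    intro m s g j hj
    rw [c0_apply]
    by_contra h
    have h1 := g.2.1 o j 0 h
    have h2 : wd 0 = 0 := by simp [wd]
    rw [h2] at h1
    have h3 : (0 : ℤ) = K.deg j - (K.deg o - m) := h1
    rw [hK.dg] at h3
    exact hj (by linarith)
  have hsurj : Function.Surjective XI := by
    intro x
    obtain ⟨g, rfl⟩ := Submodule.mkQ_surjective _ x
    refine ⟨fun a => c0 g.1 o (t (Fin.castSucc a)) / E (Fin.castSucc a) o (t (Fin.castSucc a)),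
      ?_⟩
    rw [hXI]
    refine (cls_eq hK _ g).2 fun j => ?_
    rw [hbv, hzo]
    by_cases hj : K.deg j = -2
    · obtain ⟨a, rfl⟩ := (ht2 j).1 hj
      rw [hEVt]
      exact div_mul_cancel₀ _ (hEt _)
    · rw [hrow g j hj, hEVt0]
      intro a ha
      exact hj ((ht2 j).2 ⟨a, ha⟩)
  -- products
  have hzz2 : ∀ v w, z * EV w * (z * EV v) = -(EV w * EV v) := by
    intro v w
    rw [hzEV w, Matrix.neg_mul, Matrix.mul_assoc, ← Matrix.mul_assoc z z, hzz, Matrix.one_mul]
  have hP : ∀ v w, XI v ≫ sxx (XI w) =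
      cls (compM (bv v) (twc 2 1 4 1 (by norm_num) (by norm_num) (bv w))) := by
    intro v w
    rw [hXI, hXI]
    rfl
  have hP0 : ∀ v w, c0 (compM (bv v)
      (twc 2 1 4 1 (by norm_num) (by norm_num) (bv w) : mor (tw 2 1 K) (tw 4 1 K))).1 =
      -(EV w * EV v) := by
    intro v w
    have h1 : (compM (bv v)
      (twc 2 1 4 1 (by norm_num) (by norm_num) (bv w) : mor (tw 2 1 K) (tw 4 1 K))).1 =
        (bv w).1 * (bv v).1 := rfl
    rw [h1, c0_mul, hbv, hbv, hzz2]
  have hS : ∀ v, cls e3 ≫ syx (XI v) =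
      cls (compM e3 (twc 1 (-1) 3 (-1) (by norm_num) (by norm_num) (bv v))) := by
    intro v
    rw [hXI]
    rfl
  have hS0 : ∀ v, c0 (compM e3
      (twc 1 (-1) 3 (-1) (by norm_num) (by norm_num) (bv v) : mor (tw 1 (-1) K)
        (tw 3 (-1) K))).1 = z * (EV v * E 3) := by
    intro v
    have h1 : (compM e3
      (twc 1 (-1) 3 (-1) (by norm_num) (by norm_num) (bv v) : mor (tw 1 (-1) K)
        (tw 3 (-1) K))).1 = (bv v).1 * e3.1 := rfl
    rw [h1, c0_mul, hbv, he3, Matrix.mul_assoc]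
  have hT : ∀ v, XI v ≫ sxy (cls e3) =
      cls (compM (bv v) (twc 2 1 3 (-1) (by norm_num) (by norm_num) e3)) := by
    intro v
    rw [hXI]
    rfl
  have hT0 : ∀ v, c0 (compM (bv v)
      (twc 2 1 3 (-1) (by norm_num) (by norm_num) e3 : mor (tw 2 1 K)
        (tw 3 (-1) K))).1 = -(z * (E 3 * EV v)) := by
    intro v
    have h1 : (compM (bv v)
      (twc 2 1 3 (-1) (by norm_num) (by norm_num) e3 : mor (tw 2 1 K)
        (tw 3 (-1) K))).1 = e3.1 * (bv v).1 := rfl
    rw [h1, c0_mul, hbv, he3, ← Matrix.mul_assoc, ← Matrix.mul_assoc, hzE, Matrix.neg_mul,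
      neg_neg]
  refine ⟨{ xi := LinearEquiv.ofBijective XI ⟨hinj, hsurj⟩
            et := cls e3
            span := ?_
            ne := ?_
            symx := ?_
            syme := ?_
            anti := ?_
            prod := ?_
            comm := ?_
            nz := ?_ }⟩
  · intro a
    obtain ⟨g, rfl⟩ := Submodule.mkQ_surjective _ a
    refine ⟨c0 g.1 o (t 3) / E 3 o (t 3), ?_⟩
    have h1 : (c0 g.1 o (t 3) / E 3 o (t 3)) • cls e3 =
        cls ((c0 g.1 o (t 3) / E 3 o (t 3)) • e3) :=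
      (map_smul (nul K (tw 1 (-1) K)).mkQ _ e3).symm
    rw [h1]
    refine (cls_eq hK g _).2 fun j => ?_
    have h2 : (((c0 g.1 o (t 3) / E 3 o (t 3)) • e3 : mor K (tw 1 (-1) K)) :
        Matrix K.ι K.ι Sr) = (c0 g.1 o (t 3) / E 3 o (t 3)) • e3.1 := rfl
    rw [h2, c0_csmul, he3, Matrix.smul_apply, smul_eq_mul]
    by_cases hj : K.deg j = -1
    · rw [(ht1 j).1 hj]
      exact (div_mul_cancel₀ _ (hEt 3)).symm
    · rw [hrow g j hj, hEo 3 j (fun h => hj ((ht1 j).2 h)), mul_zero]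
  · intro h
    have h1 := (cls_zero hK e3).1 h (t 3)
    rw [he3] at h1
    exact hEt 3 h1
  · intro v g hg j
    have h1 : cls g = cls (bv v) := by rw [hg, ← hXI]; rfl
    have h2 := (cls_eq hK g (bv v)).1 h1 j
    rw [hbv, hzo, hEVo] at h2
    rw [← c0_apply, h2]
    exact Finset.sum_congr rfl fun i _ => by rw [hEap]
  · intro e he j
    have h2 := (cls_eq hK e e3).1 he j
    rw [he3, hEap] at h2
    rw [← c0_apply, h2]
  · intro v w
    show XI v ≫ sxx (XI w) = -(XI w ≫ sxx (XI v))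
    rw [hP, hP, eq_neg_iff_add_eq_zero]
    have h1 : ∀ a b : mor K (tw 4 1 K), cls a + cls b = cls (a + b) := fun a b =>
      (map_add (nul K (tw 4 1 K)).mkQ a b).symm
    rw [h1, cls_zero hK]
    intro j
    have h2 : ∀ a b : mor K (tw 4 1 K), c0 (a + b).1 = c0 a.1 + c0 b.1 := fun a b =>
      c0_add a.1 b.1
    rw [h2, hP0, hP0, ← neg_add, hEVEV, neg_zero]
    rfl
  · intro v w hvw
    have h0 : XI v ≫ sxx (XI w) = 0 := hvw
    rw [hP, cls_zero hK] at h0
    have h1 : ∀ j, (EV w * EV v) o j = 0 := by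
      intro j
      have h2 := h0 j
      rw [hP0, Matrix.neg_apply, neg_eq_zero] at h2
      exact h2
    have hkey : ∀ a b : Fin 3, a ≠ b → w a * v b = w b * v a := by
      intro a b hab
      have hab' : Fin.castSucc a ≠ Fin.castSucc b := fun h => hab (Fin.castSucc_injective 3 h)
      have h2 := h1 (q (Fin.castSucc a) (Fin.castSucc b))
      rw [hmul, Matrix.sum_apply] at h2
      simp only [Matrix.sum_apply, Matrix.smul_apply, smul_eq_mul] at h2
      have hz0 : ∀ i l : Fin 3, ¬((l = a ∧ i = b) ∨ (l = b ∧ i = a)) →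
          (E (Fin.castSucc i) * E (Fin.castSucc l)) o (q (Fin.castSucc a) (Fin.castSucc b)) =
            0 := by
        intro i l hil
        rw [hEr, hEap (Fin.castSucc l)]
        by_contra hne
        have h3 := right_ne_zero_of_mul hne
        rw [hq _ _ _ _ hab'] at h3
        apply hil
        rcases h3 with ⟨h3, h4⟩ | ⟨h3, h4⟩
        · exact Or.inl ⟨Fin.castSucc_injective 3 h3, Fin.castSucc_injective 3 h4⟩
        · exact Or.inr ⟨Fin.castSucc_injective 3 h3, Fin.castSucc_injective 3 h4⟩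
      have hnz : (E (Fin.castSucc a) * E (Fin.castSucc b)) o
          (q (Fin.castSucc a) (Fin.castSucc b)) ≠ 0 := by
        rw [hEr, hEap (Fin.castSucc b)]
        exact mul_ne_zero (hEt _) ((hq _ _ _ _ hab').2 (Or.inr ⟨rfl, rfl⟩))
      have hanti : (E (Fin.castSucc b) * E (Fin.castSucc a)) o
          (q (Fin.castSucc a) (Fin.castSucc b)) = -((E (Fin.castSucc a) * E (Fin.castSucc b)) o
          (q (Fin.castSucc a) (Fin.castSucc b))) := by
        have h3 := congrFun (congrFun (hEE (Fin.castSucc a) (Fin.castSucc b)) o)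
          (q (Fin.castSucc a) (Fin.castSucc b))
        rw [Matrix.add_apply, Matrix.zero_apply] at h3
        linear_combination h3
      have h4 : ∑ i : Fin 3, ∑ l : Fin 3, w i * v l *
          (E (Fin.castSucc i) * E (Fin.castSucc l)) o (q (Fin.castSucc a) (Fin.castSucc b)) =
          (w a * v b - w b * v a) * (E (Fin.castSucc a) * E (Fin.castSucc b)) o
            (q (Fin.castSucc a) (Fin.castSucc b)) := by
        rw [Finset.sum_eq_add a b hab]
        · rw [Finset.sum_eq_single b, Finset.sum_eq_single a, hanti]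
          · ring
          · intro l _ hl
            rw [hz0 b l (by
              rintro (⟨h5, _⟩ | ⟨_, h5⟩)
              · exact hl h5
              · exact hab h5.symm), mul_zero]
          · intro h; exact absurd (Finset.mem_univ _) h
          · intro l _ hl
            rw [hz0 a l (by
              rintro (⟨_, h5⟩ | ⟨h5, _⟩)
              · exact hab h5
              · exact hl h5), mul_zero]
          · intro h; exact absurd (Finset.mem_univ _) h
        · rintro c _ ⟨hca, hcb⟩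
          exact Finset.sum_eq_zero fun l _ => by
            rw [hz0 c l (by
              rintro (⟨_, h5⟩ | ⟨_, h5⟩)
              · exact hcb h5
              · exact hca h5), mul_zero]
        · intro h; exact absurd (Finset.mem_univ _) h
        · intro h; exact absurd (Finset.mem_univ _) h
      rw [h4] at h2
      have h5 := (mul_eq_zero.1 h2).resolve_right hnz
      linear_combination h5
    intro hli
    rw [LinearIndependent.pair_iff] at hli
    have hv : v = 0 := by
      funext a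
      have h2 := hli (w a) (-(v a)) (by
        funext b
        simp only [Pi.add_apply, Pi.smul_apply, smul_eq_mul, Pi.zero_apply]
        by_cases hab : a = b
        · subst hab; ring
        · have := hkey a b hab
          linear_combination this)
      have h3 := h2.2
      rw [neg_eq_zero] at h3
      exact h3
    have h2 := hli 1 0 (by rw [hv]; simp)
    exact one_ne_zero h2.1
  · intro v
    show cls e3 ≫ syx (XI v) = XI v ≫ sxy (cls e3)
    rw [hS, hT, cls_eq hK]
    intro j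
    rw [hS0, hT0, Matrix.neg_apply, hzo, hzo]
    have h2 := congrFun (congrFun (hEV3 v) o) j
    rw [Matrix.add_apply, Matrix.zero_apply] at h2
    linear_combination h2
  · intro v hv
    have h0 : XI v ≫ sxy (cls e3) = 0 := hv
    rw [hT, cls_zero hK] at h0
    funext a
    have h3 : (3 : Fin 4) ≠ Fin.castSucc a := by fin_cases a <;> decide
    have h1 := h0 (q 3 (Fin.castSucc a))
    rw [hT0, Matrix.neg_apply, hzo, neg_eq_zero, hEr] at h1
    have h2 := (mul_eq_zero.1 h1).resolve_left (hEt 3)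
    have h4 : EV v (t 3) (q 3 (Fin.castSucc a)) = v a * E (Fin.castSucc a) (t 3)
        (q 3 (Fin.castSucc a)) := by
      show (∑ i : Fin 3, v i • E (Fin.castSucc i)) (t 3) (q 3 (Fin.castSucc a)) = _
      rw [Matrix.sum_apply, Finset.sum_eq_single a]
      · rfl
      · intro i _ hi
        rw [Matrix.smul_apply, smul_eq_mul, hEap]
        have h5 : coeff (Finsupp.single (Fin.castSucc i) 1)
            (K.Φ (t 3) (q 3 (Fin.castSucc a))) = 0 := by
          by_contra hne
          rw [← ne_eq, hq _ _ _ _ h3] at hne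
          rcases hne with ⟨h6, h7⟩ | ⟨h6, _⟩
          · exact h3 h7
          · exact hi (Fin.castSucc_injective 3 h6)
        rw [h5, mul_zero]
      · intro h; exact absurd (Finset.mem_univ _) h
    rw [h4] at h2
    have h5 : E (Fin.castSucc a) (t 3) (q 3 (Fin.castSucc a)) ≠ 0 := by
      rw [hEap]
      exact (hq _ _ _ _ h3).2 (Or.inr ⟨rfl, rfl⟩)
    exact (mul_eq_zero.1 h2).resolve_right h5

end XE_

theorem p_XE (hKT : T_KT) (hXIC : T_XIC) (hCOF : T_COF) (hKA : T_KA) : T_XE := by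
  intro f hf D
  obtain ⟨ξ, Z, h1, h2, h3, h4, h5, h6⟩ := hXIC f hf D (kk D) (tg D.kd (-7)) rfl HEq.rfl
  obtain ⟨t, _, ht2, ht1, hto, hto2, q, _, _, hq⟩ :=
    hCOF f D (kk D) (tg D.kd (-7)) rfl HEq.rfl
  exact XE_.main (hKA f hf).1 (kk D) (tg D.kd (-7)) (hKT f D) ξ Z h1 h2 h3 h4 h5 h6 t ht2 ht1
    hto hto2 q hq

end Pool.Agent.VDC
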