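import Pool.Agent.VDC.T1

/-!
# VDC: the partial derivatives act by zero (helper16)
-/

set_option autoImplicit false

open MvPolynomial CategoryTheory

noncomputable section

namespace Pool.Agent.VDC

namespace NHD_

lemma wd_single (j : Fin 4) : wd (Finsupp.single j 1) = wt j := by
  classical
  unfold wd
  rw [Finset.sum_eq_single j]
  · simp
  · intro i _ hij
    rw [Finsupp.single_apply, if_neg (Ne.symm hij)]
    simp
  · intro h
    exact absurd (Finset.mem_univ j) h

lemma pderiv_hmg {p : Sr} {m : ℤ} (j : Fin 4) (hp : Hmg p m) : Hmg (pderiv j p) (m - wt j) := by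
  intro a h
  rw [coeff_pderiv] at h
  have h1 := hp _ (left_ne_zero_of_mul h)
  rw [wd_add, wd_single] at h1
  omega

end NHD_

open NHD_ in
/-- the partial derivatives act by zero -/
theorem p_NHD : T_NHD := by
  intro f X j
  refine ⟨-(X.Φ.map (pderiv j)), ?_, ?_⟩
  · intro i k
    have h := (pderiv_hmg j (X.hom i k)).neg
    refine h.congr ?_
    show X.deg k + 3 - X.deg i - wt j = X.deg k + (6 - wt j - 3) - X.deg i
    ring
  · have h := congrArg (fun M : Matrix X.ι X.ι Sr => M.map (pderiv j)) X.sq
    ext1 i k
    have h2 := congrFun (congrFun h i) k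
    simp only [Matrix.map_apply, Matrix.mul_apply, Matrix.neg_apply, Matrix.smul_apply,
      map_sum, map_neg, smul_eq_mul] at h2
    simp only [Matrix.add_apply, Matrix.mul_apply, Matrix.neg_apply, Matrix.map_apply,
      Matrix.smul_apply, smul_eq_mul]
    have h3 : ∀ x : X.ι, pderiv j (X.Φ i x * X.Φ x k) =
        pderiv j (X.Φ i x) * X.Φ x k + X.Φ i x * pderiv j (X.Φ x k) := fun x => pderiv_mul
    simp only [h3, Finset.sum_add_distrib] at h2
    have h4 : pderiv j (f * (1 : Matrix X.ι X.ι Sr) i k) =
        pderiv j f * (1 : Matrix X.ι X.ι Sr) i k := by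
      by_cases hik : i = k
      · subst hik
        rw [Matrix.one_apply_eq, mul_one, mul_one]
      · rw [Matrix.one_apply_ne hik, mul_zero, mul_zero, map_zero]
    rw [h4] at h2
    simp only [mul_neg, neg_mul, Finset.sum_neg_distrib]
    linear_combination -h2

end Pool.Agent.VDC
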