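import Pool.Agent.VDC.T2
import Pool.Agent.VDC.P_KA
import Pool.Agent.VDC.P_NHD

/-!
# VDC: explicit cycles on `k` (helper7)
-/

set_option autoImplicit false

open MvPolynomial CategoryTheory

noncomputable section

namespace Pool.Agent.VDC.XIC_

open Pool.Agent.VDC

/-- a sign on the generators which anticommutes with the operator and is `1` at `o` -/
def GZ (Y : PO) (o : Y.ι) : Prop :=
  ∃ d : Y.ι → ℂ, (∀ j, d j * d j = 1) ∧ d o = 1 ∧ ∀ i j, (d i + d j) • Y.Φ i j = 0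

theorem gz_UU (m : ℤ) : GZ (UU m) () :=
  ⟨fun _ => 1, fun _ => by norm_num, rfl, fun i j => by
    show (1 + 1 : ℂ) • (0 : Matrix Unit Unit Sr) i j = 0
    rw [Matrix.zero_apply, smul_zero]⟩

theorem gz_TT (Y : PO) (o : Y.ι) (l a : Sr) (e : ℤ) (hl : Hmg l e) (ha : Hmg a (6 - e))
    (h : GZ Y o) : GZ (TT Y l a e hl ha) (Sum.inr o) := by
  obtain ⟨d, h1, h2, h3⟩ := h
  refine ⟨Sum.elim (fun i => -d i) d, ?_, h2, ?_⟩
  · rintro (j | j)
    · show -d j * -d j = 1
      rw [neg_mul_neg]; exact h1 j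
    · exact h1 j
  · rintro (i | i) (j | j)
    · show (-d i + -d j) • Y.Φ i j = 0
      rw [← neg_add, neg_smul, h3, neg_zero]
    · show (-d i + d j) • ((a • (1 : Matrix Y.ι Y.ι Sr)) i j) = 0
      by_cases hij : i = j
      · subst hij
        rw [neg_add_cancel, zero_smul]
      · rw [Matrix.smul_apply, Matrix.one_apply_ne hij, smul_zero, smul_zero]
    · show (d i + -d j) • ((l • (1 : Matrix Y.ι Y.ι Sr)) i j) = 0
      by_cases hij : i = j
      · subst hij
        rw [add_neg_cancel, zero_smul]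
      · rw [Matrix.smul_apply, Matrix.one_apply_ne hij, smul_zero, smul_zero]
    · show (d i + d j) • (-Y.Φ i j) = 0
      rw [smul_neg, h3, neg_zero]

theorem gz_kk {f : Sr} (D : KA f) : GZ (kk D).toPO (tg D.kd (-7)) :=
  gz_TT _ _ _ _ _ (D.kd.hl 0) (D.kd.ha 0) (gz_TT _ _ _ _ _ (D.kd.hl 3) (D.kd.ha 3)
    (gz_TT _ _ _ _ _ (D.kd.hl 2) (D.kd.ha 2) (gz_TT _ _ _ _ _ (D.kd.hl 1) (D.kd.ha 1)
    (gz_UU _))))

/-- the derivatives of the entries of the operator -/
theorem pd {f : Sr} (X : CM f) (j : Fin 4) :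
    X.Φ * X.Φ.map (pderiv j) + X.Φ.map (pderiv j) * X.Φ =
      -(pderiv j f • (1 : Matrix X.ι X.ι Sr)) := by
  have h := congrArg (fun M : Matrix X.ι X.ι Sr => M.map (pderiv j)) X.sq
  ext1 i k
  have h2 := congrFun (congrFun h i) k
  simp only [Matrix.map_apply, Matrix.mul_apply, Matrix.neg_apply, Matrix.smul_apply,
    map_sum, map_neg, smul_eq_mul] at h2
  simp only [Matrix.add_apply, Matrix.mul_apply, Matrix.neg_apply, Matrix.map_apply,
    Matrix.smul_apply, smul_eq_mul]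
  have h3 : ∀ x : X.ι, pderiv j (X.Φ i x * X.Φ x k) =
      pderiv j (X.Φ i x) * X.Φ x k + X.Φ i x * pderiv j (X.Φ x k) := fun x => pderiv_mul
  simp only [h3, Finset.sum_add_distrib] at h2
  have h4 : pderiv j (f * (1 : Matrix X.ι X.ι Sr) i k) =
      pderiv j f * (1 : Matrix X.ι X.ι Sr) i k := by
    by_cases hik : i = k
    · subst hik
      rw [Matrix.one_apply_eq, mul_one, mul_one]
    · rw [Matrix.one_apply_ne hik, mul_zero, mul_zero, map_zero]
  rw [h4] at h2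
  linear_combination h2

/-- the diagonal matrix of signs -/
def ZM {ι : Type} [DecidableEq ι] (d : ι → ℂ) : Matrix ι ι Sr :=
  Matrix.diagonal fun j => C (d j)

theorem zm_mul {ι : Type} [Fintype ι] [DecidableEq ι] (d : ι → ℂ) (M : Matrix ι ι Sr)
    (i j : ι) : (ZM d * M) i j = d i • M i j := by
  rw [ZM, Matrix.diagonal_mul, ← MvPolynomial.smul_eq_C_mul]

theorem mul_zm {ι : Type} [Fintype ι] [DecidableEq ι] (d : ι → ℂ) (M : Matrix ι ι Sr)
    (i j : ι) : (M * ZM d) i j = d j • M i j := by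
  rw [ZM, Matrix.mul_diagonal, mul_comm, ← MvPolynomial.smul_eq_C_mul]

theorem hmg_coeff_zero {p : Sr} {m : ℤ} (hp : Hmg p m) (hm : m ≠ 0) : coeff 0 p = 0 := by
  by_contra h
  apply hm
  rw [← hp 0 h]
  simp [wd]

theorem hm_mul {X Y W : PO} {ρ σ : ℤ} {g : Matrix Y.ι X.ι Sr} {h : Matrix W.ι Y.ι Sr}
    (hg : g ∈ HM X Y ρ) (hh : h ∈ HM Y W σ) : h * g ∈ HM X W (ρ + σ) := by
  intro i j
  rw [Matrix.mul_apply]
  exact Hmg.sum fun k _ => ((hh i k).mul (hg k j)).congr (by ring)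

theorem main {f : Sr} (hf : Hmg f 6) (K : CM f) (o : K.ι)
    (hnh : ∀ i, NH K.toPO (X i : Sr) (wt i)) (hZ : GZ K.toPO o) :
    ∃ (ξ : Fin 4 → Matrix K.ι K.ι Sr) (Z : Matrix K.ι K.ι Sr),
      (∀ i, ξ i ∈ Zc K.toPO K.toPO ⊥ (-1) (3 - wt i)) ∧
      (∀ i a b, coeff 0 (ξ i a b) = coeff (Finsupp.single i 1) (K.Φ a b)) ∧
      Z ∈ Zc K.toPO K.toPO ⊥ (-1) 0 ∧ Z * Z = 1 ∧ (∀ i, Z * ξ i = -(ξ i * Z)) ∧
      (∀ j, Z o j = if j = o then 1 else 0) := by
  classical
  obtain ⟨d, hd1, hd2, hd3⟩ := hZ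
  choose l hl hl2 using hnh
  have hw : ∀ i : Fin 4, wt i = 1 ∨ wt i = 2 := by
    intro i
    fin_cases i
    · left; rfl
    · left; rfl
    · left; rfl
    · right; rfl
  have hb : ∀ i : Fin 4, ∃ b : Fin 4 → Sr, (∀ j, Hmg (b j) (6 - wt i - wt j)) ∧
      ∑ j, (X j : Sr) * b j = pderiv i f := fun i =>
    KA_.dec_hmg (by rcases hw i with h | h <;> rw [h] <;> norm_num) (NHD_.pderiv_hmg i hf)
  choose b hb1 hb2 using hb
  have hZZ : ZM d * ZM d = (1 : Matrix K.ι K.ι Sr) := by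
    rw [ZM, Matrix.diagonal_mul_diagonal, ← Matrix.diagonal_one]
    congr 1
    funext j
    rw [← C_mul, hd1, C_1]
  have hPZ : K.Φ * ZM d = -(ZM d * K.Φ) := by
    ext1 i j
    rw [mul_zm, Matrix.neg_apply, zm_mul, ← add_eq_zero_iff_eq_neg, ← add_smul, add_comm]
    exact hd3 i j
  have hZH : ZM d ∈ HM K.toPO K.toPO 0 := by
    intro i j
    rw [ZM]
    by_cases hij : i = j
    · subst hij
      rw [Matrix.diagonal_apply_eq]
      have h1 : Hmg (C (d i) : Sr) 0 := by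
        have := Hmg.one.csmul (d i)
        rwa [MvPolynomial.smul_eq_C_mul, mul_one] at this
      exact h1.congr (by ring)
    · rw [Matrix.diagonal_apply_ne _ hij]
      exact Hmg.zero _
  -- the homotopies which anticommute with `Z`
  obtain ⟨t, ht⟩ : ∃ t : Fin 4 → Matrix K.ι K.ι Sr, ∀ j, t j =
    (1 / 2 : ℂ) • (l j - ZM d * l j * ZM d) := ⟨_, fun _ => rfl⟩
  have ht1 : ∀ j, t j ∈ HM K.toPO K.toPO (wt j - 3) := by
    intro j
    rw [ht]
    refine Submodule.smul_mem _ _ (Submodule.sub_mem _ (hl j) ?_)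
    have h1 := hm_mul hZH (hm_mul (hl j) hZH)
    rwa [add_zero, zero_add] at h1
  have ht2 : ∀ j, K.Φ * t j + t j * K.Φ = (X j : Sr) • (1 : Matrix K.ι K.ι Sr) := by
    intro j
    have h1 : K.Φ * (ZM d * l j * ZM d) = -(ZM d * (K.Φ * l j) * ZM d) := by
      rw [← Matrix.mul_assoc, ← Matrix.mul_assoc, hPZ]
      simp only [Matrix.neg_mul, Matrix.mul_assoc]
    have h2 : (ZM d * l j * ZM d) * K.Φ = -(ZM d * (l j * K.Φ) * ZM d) := by
      have h3 : ZM d * K.Φ = -(K.Φ * ZM d) := by rw [hPZ, neg_neg]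
      rw [Matrix.mul_assoc, h3]
      simp only [Matrix.mul_neg, Matrix.mul_assoc]
    have h4 : ZM d * ((X j : Sr) • (1 : Matrix K.ι K.ι Sr)) * ZM d =
        (X j : Sr) • (1 : Matrix K.ι K.ι Sr) := by
      rw [Matrix.mul_smul, Matrix.smul_mul, Matrix.mul_one, hZZ]
    rw [ht, Matrix.mul_smul, Matrix.smul_mul, ← smul_add, Matrix.mul_sub, Matrix.sub_mul, h1, h2]
    have h5 : K.Φ * l j - -(ZM d * (K.Φ * l j) * ZM d) +
        (l j * K.Φ - -(ZM d * (l j * K.Φ) * ZM d)) =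
        (K.Φ * l j + l j * K.Φ) + ZM d * (K.Φ * l j + l j * K.Φ) * ZM d := by
      rw [Matrix.mul_add, Matrix.add_mul]
      abel
    rw [h5, hl2 j, h4, ← two_smul ℂ, smul_smul]
    norm_num
  have ht3 : ∀ j, ZM d * t j = -(t j * ZM d) := by
    intro j
    rw [ht, Matrix.mul_smul, Matrix.smul_mul, ← smul_neg, Matrix.mul_sub, Matrix.sub_mul,
      Matrix.mul_assoc (ZM d * l j), hZZ, Matrix.mul_one, ← Matrix.mul_assoc,
      ← Matrix.mul_assoc, hZZ, Matrix.one_mul, neg_sub]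
  have hd4 : ∀ i, ZM d * K.Φ.map (pderiv i) = -(K.Φ.map (pderiv i) * ZM d) := by
    intro i
    ext1 a c
    rw [zm_mul, Matrix.neg_apply, mul_zm, Matrix.map_apply, ← add_eq_zero_iff_eq_neg,
      ← add_smul, ← Derivation.map_smul]
    rw [hd3 a c, map_zero]
  refine ⟨fun i => K.Φ.map (pderiv i) + ∑ j, b i j • t j, ZM d, ?_, ?_, ?_, hZZ, ?_, ?_⟩
  · intro i
    refine ⟨?_, ?_⟩
    · refine Submodule.add_mem _ ?_ (Submodule.sum_mem _ fun j _ => ?_)
      · intro a c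
        rw [Matrix.map_apply]
        exact (NHD_.pderiv_hmg i (K.hom a c)).congr (by ring)
      · intro a c
        rw [Matrix.smul_apply, smul_eq_mul]
        exact ((hb1 i j).mul (ht1 j a c)).congr (by ring)
    · intro a c
      have h1 : dd K.toPO K.toPO (-1) (K.Φ.map (pderiv i) + ∑ j, b i j • t j) = 0 := by
        rw [dd_apply, neg_one_smul, sub_neg_eq_add, Matrix.mul_add, Matrix.add_mul]
        have h2 := pd K i
        have h3 : K.Φ * ∑ j, b i j • t j + (∑ j, b i j • t j) * K.Φ =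
            pderiv i f • (1 : Matrix K.ι K.ι Sr) := by
          rw [Matrix.mul_sum, Matrix.sum_mul, ← Finset.sum_add_distrib, ← hb2 i,
            Finset.sum_smul]
          refine Finset.sum_congr rfl fun j _ => ?_
          rw [Matrix.mul_smul, Matrix.smul_mul, ← smul_add, ht2 j, smul_smul, mul_comm]
        have h4 : K.Φ * K.Φ.map (pderiv i) + K.Φ * ∑ j, b i j • t j +
            (K.Φ.map (pderiv i) * K.Φ + (∑ j, b i j • t j) * K.Φ) =
            (K.Φ * K.Φ.map (pderiv i) + K.Φ.map (pderiv i) * K.Φ) +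
            (K.Φ * ∑ j, b i j • t j + (∑ j, b i j • t j) * K.Φ) := by abel
        rw [h4, h2, h3, neg_add_cancel]
      rw [h1]
      exact Ideal.zero_mem _
  · intro i a c
    show coeff 0 ((K.Φ.map (pderiv i) + ∑ j, b i j • t j) a c) = _
    rw [Matrix.add_apply, Matrix.map_apply, coeff_add, coeff_pderiv, zero_add, Finsupp.zero_apply,
      Nat.cast_zero, zero_add, mul_one, Matrix.sum_apply, coeff_sum, Finset.sum_eq_zero, add_zero]
    intro j _
    rw [Matrix.smul_apply, smul_eq_mul]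
    have h1 : coeff 0 (b i j) = 0 := by
      refine hmg_coeff_zero (hb1 i j) ?_
      rcases hw i with h | h <;> rcases hw j with h' | h' <;> rw [h, h'] <;> norm_num
    have h2 : coeff 0 (b i j * t j a c) = coeff 0 (b i j) * coeff 0 (t j a c) := by
      simp only [← constantCoeff_eq, map_mul]
    rw [h2, h1, zero_mul]
  · refine ⟨hZH, ?_⟩
    intro a c
    have h1 : dd K.toPO K.toPO (-1) (ZM d) = 0 := by
      rw [dd_apply, neg_one_smul, sub_neg_eq_add, hPZ, neg_add_cancel]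
    rw [h1]
    exact Ideal.zero_mem _
  · intro i
    show ZM d * (K.Φ.map (pderiv i) + ∑ j, b i j • t j) =
      -((K.Φ.map (pderiv i) + ∑ j, b i j • t j) * ZM d)
    rw [Matrix.mul_add, Matrix.add_mul, neg_add, hd4, Matrix.mul_sum, Matrix.sum_mul,
      ← Finset.sum_neg_distrib]
    congr 1
    refine Finset.sum_congr rfl fun j _ => ?_
    rw [Matrix.mul_smul, ht3, Matrix.smul_mul, smul_neg]
  · intro j
    rw [ZM, Matrix.diagonal_apply, hd2, C_1]
    by_cases h : j = o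
    · rw [if_pos h, if_pos h.symm]
    · rw [if_neg h, if_neg fun h' => h h'.symm]

end Pool.Agent.VDC.XIC_

namespace Pool.Agent.VDC

open XIC_

theorem p_XIC (h : T_KT) : T_XIC := by
  intro f hf D K o hK ho
  have hf6 : Hmg f 6 := (p_KA f hf).1
  have h1 : (∀ i, NH K.toPO (X i : Sr) (wt i)) ∧ GZ K.toPO o := by
    subst hK
    have ho' := eq_of_heq ho
    subst ho'
    exact ⟨(h f D).nh, gz_kk D⟩
  exact main hf6 K o h1.1 h1.2

end Pool.Agent.VDC
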