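import Pool.Agent.VDC.T1

/-!
# VDC-YON: objects representing the same functionals are isomorphic
-/

set_option autoImplicit false

open MvPolynomial CategoryTheory

noncomputable section

namespace Pool.Agent.VDC

namespace YON_

variable {f : Sr}

/-- one side of the argument: `1 - g' g` is a boundary -/
lemma side (hPULL : T_PULL) (hPULC : T_PULC) (A A' : CM f) (p : Fin 4 → ℂ) (n r r' : ℤ)
    (α : A.ι → ℂ) (α' : A'.ι → ℂ) (hA : Rp A p n r α)
    (g : Matrix A'.ι A.ι Sr) (hg : g ∈ Zc A.toPO A'.toPO ⊥ 1 (r - r'))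
    (h1 : α - pull A.toPO A'.toPO p n r α' g ∈ BF A.toPO p n r)
    (g' : Matrix A.ι A'.ι Sr) (hg' : g' ∈ Zc A'.toPO A.toPO ⊥ 1 (r' - r))
    (h2 : α' - pull A'.toPO A.toPO p n r' α g' ∈ BF A'.toPO p n r') :
    (1 : Matrix A.ι A.ι Sr) - g' * g ∈ Bc A.toPO A.toPO ⊥ 1 (r - r) := by
  obtain ⟨hC1, hC2, hC3⟩ := hPULC
  have hs : (1 : ℤ) * 1 = 1 := by norm_num
  have hP2 := (hPULL f A' A p n r' r 1 hs).2.1
  have hαF : α ∈ Fn A.toPO n r := hA.mem.1
  have e1 : pull A.toPO A'.toPO p n r (pull A'.toPO A.toPO p n r' α g') g =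
      pull A.toPO A.toPO p n r α (g' * g) :=
    hC1 A.toPO A'.toPO A.toPO p n r' r r α hαF g' hg'.1 g hg.1
  have h3 := hP2 _ h2 g hg
  have e2 : pull A.toPO A'.toPO p n r (α' - pull A'.toPO A.toPO p n r' α g') g =
      pull A.toPO A'.toPO p n r α' g - pull A.toPO A.toPO p n r α (g' * g) := by
    have h4 := (hC2 A.toPO A'.toPO p n r α' (pull A'.toPO A.toPO p n r' α g') g g (-1)).1
    rw [neg_one_smul, ← sub_eq_add_neg, e1, neg_one_smul, ← sub_eq_add_neg] at h4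
    exact h4
  rw [e2] at h3
  have h5 := add_mem h1 h3
  have e3 : pull A.toPO A.toPO p n r α 1 = α := hC3 A.toPO p n r α hαF
  have e4 : pull A.toPO A.toPO p n r α ((1 : Matrix A.ι A.ι Sr) - g' * g) =
      α - pull A.toPO A.toPO p n r α (g' * g) := by
    have h6 := (hC2 A.toPO A.toPO p n r α α (1 : Matrix A.ι A.ι Sr) (g' * g) (-1)).2
    rw [neg_one_smul, ← sub_eq_add_neg, e3, neg_one_smul, ← sub_eq_add_neg] at h6
    exact h6
  have e5 : α - pull A.toPO A'.toPO p n r α' g +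
      (pull A.toPO A'.toPO p n r α' g - pull A.toPO A.toPO p n r α (g' * g)) =
      pull A.toPO A.toPO p n r α ((1 : Matrix A.ι A.ι Sr) - g' * g) := by
    rw [e4]; abel
  rw [e5] at h5
  refine hA.inj A 1 r hs _ ?_ h5
  -- the cycle condition
  have hz : ∀ {X Y : CM f} {ρ : ℤ} {b : Matrix Y.ι X.ι Sr}, b ∈ Zc X.toPO Y.toPO ⊥ 1 ρ →
      Y.Φ * b = b * X.Φ := by
    intro X Y ρ b hb
    ext1 i j
    have h4 := hb.2 i j
    rw [dd_apply, Ideal.mem_bot, one_smul, Matrix.sub_apply, sub_eq_zero] at h4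
    exact h4
  have c1 : A'.Φ * g = g * A.Φ := hz hg
  have c2 : A.Φ * g' = g' * A'.Φ := hz hg'
  refine ⟨?_, ?_⟩
  · intro i j
    rw [Matrix.sub_apply]
    refine Hmg.sub ?_ ?_
    · by_cases h : i = j
      · subst h
        rw [Matrix.one_apply_eq]
        exact Hmg.one.congr (by ring)
      · rw [Matrix.one_apply_ne h]
        exact Hmg.zero _
    · rw [Matrix.mul_apply]
      exact Hmg.sum fun k _ => ((hg'.1 i k).mul (hg.1 k j)).congr (by ring)
  · intro i j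
    show dd A.toPO A.toPO 1 (1 - g' * g) i j ∈ _
    have h7 : dd A.toPO A.toPO 1 (1 - g' * g) = 0 := by
      show A.Φ * (1 - g' * g) - (1 : ℤ) • ((1 - g' * g) * A.Φ) = 0
      rw [one_smul, Matrix.mul_sub, Matrix.sub_mul, Matrix.mul_one, Matrix.one_mul,
        ← Matrix.mul_assoc, c2, Matrix.mul_assoc, c1, Matrix.mul_assoc, sub_self]
    rw [h7]
    exact Ideal.zero_mem _

/-- a boundary of sign `1` and degree `0` -/
lemma bdry {X : CM f} {ρ : ℤ} (hρ : ρ = 0) {b : Matrix X.ι X.ι Sr}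
    (hb : b ∈ Bc X.toPO X.toPO ⊥ 1 ρ) : ∃ h : Matrix X.ι X.ι Sr,
      (∀ i j, Hmg (h i j) (X.deg j - 3 - X.deg i)) ∧ b = X.Φ * h + h * X.Φ := by
  subst hρ
  obtain ⟨_, hb2⟩ := hb
  obtain ⟨y, hy, c, hc, hyc⟩ := Submodule.mem_sup.1 hb2
  obtain ⟨h, hh, rfl⟩ := hy
  have hc0 : c = 0 := by
    ext1 i j
    exact (Ideal.mem_bot).1 (hc i j)
  refine ⟨h, fun i j => (hh i j).congr (by ring), ?_⟩
  rw [← hyc, hc0, add_zero, dd_apply, neg_one_smul, sub_neg_eq_add]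

end YON_

open YON_ in
/-- YON -/
theorem p_YON (hPULL : T_PULL) (hPULC : T_PULC) : T_YON := by
  intro f A A' p n r r' α α' _ hA hA'
  have hs : (1 : ℤ) * 1 = 1 := by norm_num
  obtain ⟨g, hg, h1⟩ := hA'.surj A 1 r hs α hA.mem
  obtain ⟨g', hg', h2⟩ := hA.surj A' 1 r' hs α' hA'.mem
  have k1 := side hPULL hPULC A A' p n r r' α α' hA g hg h1 g' hg' h2
  have k2 := side hPULL hPULC A' A p n r' r α' α hA' g' hg' h2 g hg h1
  obtain ⟨h, hh, e⟩ := bdry (sub_self r) k1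
  obtain ⟨h', hh', e'⟩ := bdry (sub_self r') k2
  have hz : A.Φ * g' = g' * A'.Φ := by
    ext1 i j
    have h4 := hg'.2 i j
    rw [dd_apply, Ideal.mem_bot, one_smul, Matrix.sub_apply, sub_eq_zero] at h4
    exact h4
  let a : mor A (tw (r - r') 1 A') := ofZ (r - r') 1 g hg
  let b : mor (tw (r - r') 1 A') A := ⟨g', by
    refine ⟨fun i j => (hg'.1 i j).congr
      (by show _ = (A'.deg j - (r - r')) - A.deg i; ring), ?_⟩
    show A.Φ * g' = g' * (((1 : ℤˣ) : ℤ) • A'.Φ)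
    rw [Units.val_one, one_smul]
    exact hz⟩
  refine ⟨⟨cls a, cls b, ?_, ?_⟩⟩
  · show cls (compM a b) = (nul A A).mkQ (idM A)
    refine (Submodule.Quotient.eq _).2 ?_
    refine ⟨-h, fun i j => (hh i j).neg, ?_⟩
    show g' * g - 1 = A.Φ * (-h) + (-h) * A.Φ
    rw [Matrix.mul_neg, Matrix.neg_mul, ← neg_add, ← e, neg_sub]
  · show cls (compM b a) = (nul (tw (r - r') 1 A') (tw (r - r') 1 A')).mkQ (idM _)
    refine (Submodule.Quotient.eq _).2 ?_
    refine ⟨-h', fun i j => (hh' i j).neg.congr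
      (by show A'.deg j - 3 - A'.deg i = (A'.deg j - (r - r')) - 3 - (A'.deg i - (r - r')); ring),
      ?_⟩
    show g * g' - 1 = (((1 : ℤˣ) : ℤ) • A'.Φ) * (-h') + (-h') * (((1 : ℤˣ) : ℤ) • A'.Φ)
    rw [Units.val_one, one_smul, Matrix.mul_neg, Matrix.neg_mul, ← neg_add, ← e', neg_sub]

end Pool.Agent.VDC
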