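import Pool.Agent.VDC.T1

/-!
# VDC, target ZK: the stabilised residue field is isomorphic to itself with `Φ` replaced by `- Φ`
-/

set_option autoImplicit false

open MvPolynomial CategoryTheory

noncomputable section

namespace Pool.Agent.VDC

namespace ZK_

/-- a diagonal sign operator which anticommutes with `Φ` -/
def HasSign (Y : PO) : Prop :=
  ∃ σ : Y.ι → Sr, (∀ i, σ i * σ i = 1) ∧ (∀ i, Hmg (σ i) 0) ∧
    ∀ i j, σ i * Y.Φ i j = -(Y.Φ i j * σ j)

lemma hasSign_UU (m : ℤ) : HasSign (UU m) :=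
  ⟨fun _ => 1, fun _ => one_mul 1, fun _ => Hmg.one, fun i j => by
    show (1 : Sr) * (0 : Matrix Unit Unit Sr) i j = -((0 : Matrix Unit Unit Sr) i j * 1)
    simp⟩

lemma hasSign_TT (Y : PO) (l a : Sr) (e : ℤ) (hl : Hmg l e) (ha : Hmg a (6 - e))
    (h : HasSign Y) : HasSign (TT Y l a e hl ha) := by
  obtain ⟨σ, h1, h0, h2⟩ := h
  refine ⟨Sum.elim σ (fun i => -σ i), ?_, ?_, ?_⟩
  · rintro (i | i)
    · exact h1 i
    · show -σ i * -σ i = 1
      rw [neg_mul_neg]; exact h1 i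
  · rintro (i | i)
    · exact h0 i
    · exact (h0 i).neg
  · rintro (i | i) (j | j)
    · exact h2 i j
    · show σ i * ((a • (1 : Matrix Y.ι Y.ι Sr)) i j) =
        -((a • (1 : Matrix Y.ι Y.ι Sr)) i j * -σ j)
      rw [Matrix.smul_apply, smul_eq_mul]
      by_cases hij : i = j
      · subst hij
        rw [Matrix.one_apply_eq]; ring
      · rw [Matrix.one_apply_ne hij]; ring
    · show -σ i * ((l • (1 : Matrix Y.ι Y.ι Sr)) i j) =
        -((l • (1 : Matrix Y.ι Y.ι Sr)) i j * σ j)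
      rw [Matrix.smul_apply, smul_eq_mul]
      by_cases hij : i = j
      · subst hij
        rw [Matrix.one_apply_eq]; ring
      · rw [Matrix.one_apply_ne hij]; ring
    · show -σ i * ((-Y.Φ) i j) = -((-Y.Φ) i j * -σ j)
      rw [Matrix.neg_apply]
      have h3 := h2 i j
      linear_combination h3

lemma hasSign_kk {f : Sr} (D : KA f) : HasSign (kk D).toPO :=
  hasSign_TT _ _ _ _ (D.kd.hl 0) (D.kd.ha 0) (hasSign_TT _ _ _ _ (D.kd.hl 3) (D.kd.ha 3)
    (hasSign_TT _ _ _ _ (D.kd.hl 2) (D.kd.ha 2)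
      (hasSign_TT _ _ _ _ (D.kd.hl 1) (D.kd.ha 1) (hasSign_UU _))))

lemma iso_of_hasSign {f : Sr} (X : CM f) (h : HasSign X.toPO) :
    Nonempty (X ≅ tw 0 (-1) X) := by
  obtain ⟨σ, h1, h0, h2⟩ := h
  have hd : Matrix.diagonal σ * Matrix.diagonal σ = (1 : Matrix X.ι X.ι Sr) := by
    rw [Matrix.diagonal_mul_diagonal, ← Matrix.diagonal_one]
    congr 1
    funext i
    exact h1 i
  have hc : Matrix.diagonal σ * X.Φ = -(X.Φ * Matrix.diagonal σ) := by
    ext1 i j
    rw [Matrix.diagonal_mul, Matrix.neg_apply, Matrix.mul_diagonal]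
    exact h2 i j
  let a : mor X (tw 0 (-1) X) := ⟨Matrix.diagonal σ, by
    refine ⟨fun i j => ?_, ?_⟩
    · show Hmg (Matrix.diagonal σ i j) (X.deg j - (X.deg i - 0))
      by_cases hij : i = j
      · subst hij
        rw [Matrix.diagonal_apply_eq]
        exact (h0 i).congr (by ring)
      · rw [Matrix.diagonal_apply_ne _ hij]
        exact Hmg.zero _
    · show (((-1 : ℤˣ) : ℤ) • X.Φ) * Matrix.diagonal σ = Matrix.diagonal σ * X.Φ
      rw [hc, Matrix.smul_mul, Units.val_neg, Units.val_one, neg_smul, one_smul]⟩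
  let b : mor (tw 0 (-1) X) X := ⟨Matrix.diagonal σ, by
    refine ⟨fun i j => ?_, ?_⟩
    · show Hmg (Matrix.diagonal σ i j) ((X.deg j - 0) - X.deg i)
      by_cases hij : i = j
      · subst hij
        rw [Matrix.diagonal_apply_eq]
        exact (h0 i).congr (by ring)
      · rw [Matrix.diagonal_apply_ne _ hij]
        exact Hmg.zero _
    · show X.Φ * Matrix.diagonal σ = Matrix.diagonal σ * (((-1 : ℤˣ) : ℤ) • X.Φ)
      rw [Matrix.mul_smul, hc, Units.val_neg, Units.val_one, neg_smul, one_smul, neg_neg]⟩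
  refine ⟨⟨cls a, cls b, ?_, ?_⟩⟩
  · exact congrArg _ (Subtype.ext hd)
  · exact congrArg _ (Subtype.ext hd)

end ZK_

theorem p_ZK : T_ZK := fun _ D => ZK_.iso_of_hasSign _ (ZK_.hasSign_kk D)

end Pool.Agent.VDC
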