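import Pool.Agent.VDC.Main
import Pool.Agent.VDC.P_KA
import Pool.Agent.VDC.P_CMP
import Pool.Agent.VDC.P_DIV
import Pool.Agent.VDC.P_KS
import Pool.Agent.VDC.P_KI
import Pool.Agent.VDC.P_KP
import Pool.Agent.VDC.P_RU
import Pool.Agent.VDC.P_HSPAN
import Pool.Agent.VDC.P_R
import Pool.Agent.VDC.P_MMEM
import Pool.Agent.VDC.P_MNZ
import Pool.Agent.VDC.P_MINS
import Pool.Agent.VDC.P_FRX
import Pool.Agent.VDC.P_R1
import Pool.Agent.VDC.P_KT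
import Pool.Agent.VDC.P_XIC
import Pool.Agent.VDC.P_COF
import Pool.Agent.VDC.P_XE
import Pool.Agent.VDC.P_NHQ
import Pool.Agent.VDC.P_HD
import Pool.Agent.VDC.P_PULL
import Pool.Agent.VDC.P_PK
import Pool.Agent.VDC.P_HFIN
import Pool.Agent.VDC.P_ETA
import Pool.Agent.VDC.P_KSP
import Pool.Agent.VDC.P_EUL
import Pool.Agent.VDC.P_SIG
import Pool.Agent.VDC.P_SIGD
import Pool.Agent.VDC.P_INJ
import Pool.Agent.VDC.P_LES
import Pool.Agent.VDC.P_HVAN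
import Pool.Agent.VDC.P_DEC
import Pool.Agent.VDC.P_SYM
import Pool.Agent.VDC.P_VAR
import Pool.Agent.VDC.P_LIN
import Pool.Agent.VDC.P_SPL
import Pool.Agent.VDC.P_RET
import Pool.Agent.VDC.P_ZK
import Pool.Agent.VDC.P_TWC
import Pool.Agent.VDC.P_CLS
import Pool.Agent.VDC.P_TWQ
import Pool.Agent.VDC.P_TWP
import Pool.Agent.VDC.P_TWI
import Pool.Agent.VDC.P_NAT
import Pool.Agent.VDC.P_MU0
import Pool.Agent.VDC.P_NUL
import Pool.Agent.VDC.P_NHD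
import Pool.Agent.VDC.P_NHA
import Pool.Agent.VDC.P_JN
import Pool.Agent.VDC.P_DUAL
import Pool.Agent.VDC.P_CH1
import Pool.Agent.VDC.P_CH2
import Pool.Agent.VDC.P_CH3
import Pool.Agent.VDC.P_TR0
import Pool.Agent.VDC.P_SER
import Pool.Agent.VDC.P_FDH
import Pool.Agent.VDC.P_SFU
import Pool.Agent.VDC.P_VCOM
import Pool.Agent.VDC.P_KKE
import Pool.Agent.VDC.P_TW
import Pool.Agent.VDC.P_NRM
import Pool.Agent.VDC.P_PULC
import Pool.Agent.VDC.P_BZF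
import Pool.Agent.VDC.P_EXT
import Pool.Agent.VDC.P_FRM
import Pool.Agent.VDC.P_YON
import Pool.Agent.VDC.P_IDK
import Pool.Agent.VDC.P_IDI
import Pool.Agent.VDC.P_IDEM
import Pool.Agent.VDC.P_LINE
import Pool.Agent.VDC.P_WC
import Pool.Agent.VDC.P_CISO
import Pool.Agent.VDC.P_STP
import Pool.Agent.VDC.P_GMU
import Pool.Agent.VDC.P_FIN
import Pool.Agent.VDC.P_DISC
import Pool.Agent.VDC.P_ALG

/-!
# VDC: all targets together
-/

set_option autoImplicit false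

open MvPolynomial CategoryTheory

noncomputable section

namespace Pool.Agent.VDC

theorem t_KA : T_KA := p_KA 

theorem t_CMP : T_CMP := p_CMP 

theorem t_DIV : T_DIV := p_DIV t_CMP

theorem t_KS : T_KS := p_KS t_DIV

theorem t_KI : T_KI := p_KI t_DIV

theorem t_KP : T_KP := p_KP 

theorem t_RU : T_RU := p_RU 

theorem t_HSPAN : T_HSPAN := p_HSPAN t_CMP

theorem t_R : T_R := p_R t_KS t_KI t_KP t_RU t_HSPAN

theorem t_MMEM : T_MMEM := p_MMEM 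

theorem t_MNZ : T_MNZ := p_MNZ t_MMEM

theorem t_MINS : T_MINS := p_MINS 

theorem t_FRX : T_FRX := p_FRX t_MNZ t_MINS t_MMEM

theorem t_R1 : T_R1 := p_R1 t_R t_FRX

theorem t_KT : T_KT := p_KT t_R1

theorem t_XIC : T_XIC := p_XIC t_KT

theorem t_COF : T_COF := p_COF 

theorem t_XE : T_XE := p_XE t_KT t_XIC t_COF t_KA

theorem t_NHQ : T_NHQ := p_NHQ 

theorem t_HD : T_HD := p_HD 

theorem t_PULL : T_PULL := p_PULL 

theorem t_PK : T_PK := p_PK t_R1 t_PULL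

theorem t_HFIN : T_HFIN := p_HFIN 

theorem t_ETA : T_ETA := p_ETA t_HFIN

theorem t_KSP : T_KSP := p_KSP t_HFIN

theorem t_EUL : T_EUL := p_EUL t_HFIN t_KA t_MMEM t_CMP

theorem t_SIG : T_SIG := p_SIG t_HFIN

theorem t_SIGD : T_SIGD := p_SIGD 

theorem t_INJ : T_INJ := p_INJ t_DIV

theorem t_LES : T_LES := p_LES t_DIV t_INJ t_HFIN

theorem t_HVAN : T_HVAN := p_HVAN 

theorem t_DEC : T_DEC := p_DEC t_LES t_HVAN

theorem t_SYM : T_SYM := p_SYM t_SIG t_SIGD t_DEC t_MINS t_MNZ t_HSPAN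

theorem t_VAR : T_VAR := p_VAR t_ETA t_KSP t_EUL t_SYM t_HFIN

theorem t_LIN : T_LIN := p_LIN 

theorem t_SPL : T_SPL := p_SPL t_INJ t_MNZ t_MINS t_HSPAN

theorem t_RET : T_RET := p_RET t_LIN t_SPL t_R1

theorem t_ZK : T_ZK := p_ZK 

theorem t_TWC : T_TWC := p_TWC 

theorem t_CLS : T_CLS := p_CLS t_NHQ t_HD t_PK t_VAR t_RET t_ZK t_TWC

theorem t_TWQ : T_TWQ := p_TWQ 

theorem t_TWP : T_TWP := p_TWP 

theorem t_TWI : T_TWI := p_TWI 

theorem t_NAT : T_NAT := p_NAT t_TWQ t_TWP t_TWI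

theorem t_MU0 : T_MU0 := p_MU0 t_NAT

theorem t_NUL : T_NUL := p_NUL t_CMP

theorem t_NHD : T_NHD := p_NHD 

theorem t_NHA : T_NHA := p_NHA 

theorem t_JN : T_JN := p_JN t_NUL t_NHD t_NHA t_KA

theorem t_DUAL : T_DUAL := p_DUAL t_HFIN t_MMEM

theorem t_CH1 : T_CH1 := p_CH1 t_DIV t_MNZ t_MINS t_HSPAN

theorem t_CH2 : T_CH2 := p_CH2 

theorem t_CH3 : T_CH3 := p_CH3 

theorem t_TR0 : T_TR0 := p_TR0 t_MNZ t_MMEM

theorem t_SER : T_SER := p_SER t_JN t_INJ t_DUAL t_CH1 t_CH2 t_CH3 t_TR0 t_MNZ t_MINS t_HSPAN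

theorem t_FDH : T_FDH := p_FDH t_HFIN

theorem t_SFU : T_SFU := p_SFU t_SER t_FDH

theorem t_VCOM : T_VCOM := p_VCOM t_SFU t_TWC

theorem t_KKE : T_KKE := p_KKE t_CLS t_MU0 t_XE t_VCOM t_PK t_HD

theorem t_TW : T_TW := p_TW t_TWC

theorem t_NRM : T_NRM := p_NRM t_TW t_TWC t_VCOM

theorem t_PULC : T_PULC := p_PULC 

theorem t_BZF : T_BZF := p_BZF 

theorem t_EXT : T_EXT := p_EXT t_PULL t_PULC t_BZF

theorem t_FRM : T_FRM := p_FRM t_MNZ t_MINS t_MMEM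

theorem t_YON : T_YON := p_YON t_PULL t_PULC

theorem t_IDK : T_IDK := p_IDK t_R

theorem t_IDI : T_IDI := p_IDI 

theorem t_IDEM : T_IDEM := p_IDEM t_FRM t_R t_YON t_IDK t_IDI

theorem t_LINE : T_LINE := p_LINE t_EXT t_IDEM t_PULL t_PULC

theorem t_WC : T_WC := p_WC 

theorem t_CISO : T_CISO := p_CISO t_WC

theorem t_STP : T_STP := p_STP t_LINE t_CISO t_WC t_TWQ t_IDI

theorem t_GMU : T_GMU := p_GMU 

theorem t_FIN : T_FIN := p_FIN t_STP t_GMU t_TWQ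

theorem t_DISC : T_DISC := p_DISC 

theorem t_ALG : T_ALG := p_ALG t_DISC

/-- categorical Torelli, in terms of the equations -/
theorem main_eq (f f' : Sr) (hf : IsVDC f) (hf' : IsVDC f') (h : Nonempty (ExactEquiv f f')) :
    ∃ (g : (Fin 3 → ℂ) ≃ₗ[ℂ] (Fin 3 → ℂ)) (lam : ℂ), lam ≠ 0 ∧
      ∀ v c, eval (vp (g v) (lam * c)) f' = lam ^ 3 * eval (vp v c) f :=
  main_of t_KA t_XE t_KT t_KKE t_NRM t_FIN t_ALG
    f f' hf hf' h

end Pool.Agent.VDC
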