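import Pool.Agent.VDC.T3

/-!
# VDC: proof of ISO
-/

set_option autoImplicit false

open MvPolynomial CategoryTheory AlgebraicGeometry

noncomputable section

namespace Pool.Agent.VDC.ISO_

open Pool.Agent.VDC

/-- the linear forms -/
def lf (g : (Fin 3 → ℂ) ≃ₗ[ℂ] (Fin 3 → ℂ)) (i : Fin 3) : Sr :=
  ∑ j : Fin 3, (g (Pi.single j 1) i) • (X (Fin.castSucc j) : Sr)

/-- the images of the variables -/
def lin (g : (Fin 3 → ℂ) ≃ₗ[ℂ] (Fin 3 → ℂ)) (lam : ℂ) : Fin 4 → Sr :=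
  ![lf g 0, lf g 1, lf g 2, lam • (X 3 : Sr)]

/-- the substitution -/
def sb (g : (Fin 3 → ℂ) ≃ₗ[ℂ] (Fin 3 → ℂ)) (lam : ℂ) : Sr →ₐ[ℂ] Sr := aeval (lin g lam)

/-- the map on points -/
def tp (g : (Fin 3 → ℂ) ≃ₗ[ℂ] (Fin 3 → ℂ)) (lam : ℂ) (w : Fin 4 → ℂ) : Fin 4 → ℂ :=
  vp (g fun j => w (Fin.castSucc j)) (lam * w 3)

theorem vp_self (w : Fin 4 → ℂ) : vp (fun j => w (Fin.castSucc j)) (w 3) = w := by
  funext i
  fin_cases i <;> rfl

theorem vp_cast (v : Fin 3 → ℂ) (c : ℂ) : (fun j : Fin 3 => vp v c (Fin.castSucc j)) = v := by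
  funext i
  fin_cases i <;> rfl

theorem vp_last (v : Fin 3 → ℂ) (c : ℂ) : vp v c 3 = c := rfl

theorem eval_lf (g : (Fin 3 → ℂ) ≃ₗ[ℂ] (Fin 3 → ℂ)) (i : Fin 3) (w : Fin 4 → ℂ) :
    eval w (lf g i) = g (fun j => w (Fin.castSucc j)) i := by
  have h : (fun j => w (Fin.castSucc j)) =
      ∑ j : Fin 3, w (Fin.castSucc j) • (Pi.single j 1 : Fin 3 → ℂ) := by
    funext k
    simp [Finset.sum_apply, Pi.single_apply]
  rw [h, map_sum]
  simp only [lf, map_sum, map_smul, smul_eval, eval_X, Finset.sum_apply, Pi.smul_apply,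
    smul_eq_mul]
  exact Finset.sum_congr rfl fun j _ => mul_comm _ _

theorem eval_lin (g : (Fin 3 → ℂ) ≃ₗ[ℂ] (Fin 3 → ℂ)) (lam : ℂ) (w : Fin 4 → ℂ) :
    (fun i => eval w (lin g lam i)) = tp g lam w := by
  funext i
  fin_cases i
  · exact eval_lf g 0 w
  · exact eval_lf g 1 w
  · exact eval_lf g 2 w
  · show eval w (lam • (X 3 : Sr)) = lam * w 3
    rw [smul_eval, eval_X]

theorem eval_sb (g : (Fin 3 → ℂ) ≃ₗ[ℂ] (Fin 3 → ℂ)) (lam : ℂ) (w : Fin 4 → ℂ) (p : Sr) :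
    eval w (sb g lam p) = eval (tp g lam w) p := by
  rw [← eval_lin]
  unfold sb
  induction p using MvPolynomial.induction_on with
  | C a => simp [algebraMap_eq]
  | add p q hp hq => rw [map_add, map_add, hp, hq, map_add]
  | mul_X p i hp => rw [map_mul, map_mul, hp, map_mul, aeval_X, eval_X]

theorem tp_inv (g : (Fin 3 → ℂ) ≃ₗ[ℂ] (Fin 3 → ℂ)) {lam : ℂ} (h : lam ≠ 0) (w : Fin 4 → ℂ) :
    tp g.symm lam⁻¹ (tp g lam w) = w := by
  unfold tp
  rw [vp_cast, vp_last, LinearEquiv.symm_apply_apply, inv_mul_cancel_left₀ h, vp_self]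

theorem sb_inv (g : (Fin 3 → ℂ) ≃ₗ[ℂ] (Fin 3 → ℂ)) {lam : ℂ} (h : lam ≠ 0) (p : Sr) :
    sb g lam (sb g.symm lam⁻¹ p) = p := by
  apply MvPolynomial.funext
  intro w
  rw [eval_sb, eval_sb, tp_inv g h]

theorem sb_inv' (g : (Fin 3 → ℂ) ≃ₗ[ℂ] (Fin 3 → ℂ)) {lam : ℂ} (h : lam ≠ 0) (p : Sr) :
    sb g.symm lam⁻¹ (sb g lam p) = p := by
  have h1 := sb_inv g.symm (inv_ne_zero h) p
  rw [LinearEquiv.symm_symm, inv_inv] at h1
  exact h1

theorem hmg_pow {p : Sr} {m : ℤ} (hp : Hmg p m) (k : ℕ) : Hmg (p ^ k) (m * k) := by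
  induction k with
  | zero => simpa using Hmg.one
  | succ k ih =>
    rw [pow_succ]
    exact (ih.mul hp).congr (by push_cast; ring)

theorem hmg_prod {ι : Type} (s : Finset ι) (q : ι → Sr) (d : ι → ℤ) (h : ∀ i, Hmg (q i) (d i)) :
    Hmg (∏ i ∈ s, q i) (∑ i ∈ s, d i) := by
  classical
  induction s using Finset.induction_on with
  | empty => simpa using Hmg.one
  | insert i s hi ih =>
    rw [Finset.prod_insert hi, Finset.sum_insert hi]
    exact (h i).mul ih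

theorem hmg_lin (g : (Fin 3 → ℂ) ≃ₗ[ℂ] (Fin 3 → ℂ)) (lam : ℂ) (i : Fin 4) :
    Hmg (lin g lam i) (wt i) := by
  have h1 : ∀ i : Fin 3, Hmg (lf g i) 1 := by
    intro i
    refine Hmg.sum fun j _ => Hmg.csmul _ ?_
    refine (Hmg.X (Fin.castSucc j)).congr ?_
    fin_cases j <;> rfl
  fin_cases i
  · exact h1 0
  · exact h1 1
  · exact h1 2
  · exact (Hmg.X 3).csmul lam

theorem hmg_sb (g : (Fin 3 → ℂ) ≃ₗ[ℂ] (Fin 3 → ℂ)) (lam : ℂ) {p : Sr} {m : ℤ} (hp : Hmg p m) :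
    Hmg (sb g lam p) m := by
  rw [← support_sum_monomial_coeff p, map_sum]
  refine Hmg.sum fun a ha => ?_
  have h1 : sb g lam (monomial a (coeff a p)) = coeff a p • ∏ i : Fin 4, lin g lam i ^ (a i) := by
    unfold sb
    rw [aeval_monomial, Finsupp.prod_fintype _ _ (fun i => pow_zero _), Algebra.smul_def]
  rw [h1]
  refine Hmg.csmul _ ((hmg_prod _ _ _ fun i => hmg_pow (hmg_lin g lam i) (a i)).congr ?_)
  exact hp a (mem_support_iff.1 ha)

theorem hmg_sb_iff (g : (Fin 3 → ℂ) ≃ₗ[ℂ] (Fin 3 → ℂ)) {lam : ℂ} (h : lam ≠ 0) {p : Sr} {m : ℤ} :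
    Hmg (sb g lam p) m ↔ Hmg p m := by
  refine ⟨fun h1 => ?_, hmg_sb g lam⟩
  have h2 := hmg_sb g.symm lam⁻¹ h1
  rwa [sb_inv' g h] at h2

/-- the map of quadratic algebras -/
def qm {f f' : Sr} (θ : Sr →ₐ[ℂ] Sr) (κ : ℂ) (h : θ f' = κ ^ 2 • f) : RR f' →ₐ[ℂ] RR f :=
  AlgHom.ofLinearMap
    { toFun := fun r => (⟨θ r.re, κ • θ r.im⟩ : RR f)
      map_add' := fun a b => by
        ext1
        · simp
        · simp [smul_add]
      map_smul' := fun c a => by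
        ext1
        · simp
        · simp [smul_comm κ c] }
    (by
      ext1
      · show θ 1 = 1
        exact map_one θ
      · show κ • θ 0 = 0
        rw [map_zero, smul_zero])
    (fun a b => by
      ext1
      · show θ (a * b).re = _
        rw [QuadraticAlgebra.re_mul, QuadraticAlgebra.re_mul]
        show θ (a.re * b.re + -f' * a.im * b.im) =
          θ a.re * θ b.re + -f * (κ • θ a.im) * (κ • θ b.im)
        rw [map_add, map_mul, map_mul, map_mul, map_neg, h]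
        simp only [smul_eq_C_mul, map_pow]
        ring
      · show κ • θ (a * b).im = _
        rw [QuadraticAlgebra.im_mul, QuadraticAlgebra.im_mul]
        show κ • θ (a.re * b.im + a.im * b.re + 0 * a.im * b.im) =
          θ a.re * (κ • θ b.im) + (κ • θ a.im) * θ b.re + 0 * (κ • θ a.im) * (κ • θ b.im)
        simp only [map_add, map_mul, zero_mul, add_zero, smul_eq_C_mul]
        ring)

theorem qm_re {f f' : Sr} (θ : Sr →ₐ[ℂ] Sr) (κ : ℂ) (h : θ f' = κ ^ 2 • f) (r : RR f') :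
    (qm θ κ h r).re = θ r.re := rfl

theorem qm_im {f f' : Sr} (θ : Sr →ₐ[ℂ] Sr) (κ : ℂ) (h : θ f' = κ ^ 2 • f) (r : RR f') :
    (qm θ κ h r).im = κ • θ r.im := rfl

theorem hmg_smul_iff {p : Sr} {m : ℤ} {c : ℂ} (hc : c ≠ 0) : Hmg (c • p) m ↔ Hmg p m := by
  refine ⟨fun h => ?_, fun h => h.csmul c⟩
  have h1 := h.csmul c⁻¹
  rwa [smul_smul, inv_mul_cancel₀ hc, one_smul] at h1

end Pool.Agent.VDC.ISO_

namespace Pool.Agent.VDC

open ISO_

theorem p_ISO : T_ISO := by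
  intro f f' g lam hlam H
  obtain ⟨κ, hκ⟩ := IsAlgClosed.exists_pow_nat_eq (lam ^ 3) (n := 2) (by norm_num)
  have hκ0 : κ ≠ 0 := by
    rintro rfl
    rw [zero_pow (by norm_num)] at hκ
    exact pow_ne_zero 3 hlam hκ.symm
  have h1 : sb g lam f' = κ ^ 2 • f := by
    apply MvPolynomial.funext
    intro w
    rw [eval_sb, smul_eval, hκ]
    have h2 := H (fun j => w (Fin.castSucc j)) (w 3)
    rw [vp_self] at h2
    exact h2
  have h2 : sb g.symm lam⁻¹ f = κ⁻¹ ^ 2 • f' := by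
    have h3 := congrArg (sb g.symm lam⁻¹) h1
    rw [sb_inv' g hlam, map_smul] at h3
    rw [h3, smul_smul, ← mul_pow, inv_mul_cancel₀ hκ0, one_pow, one_smul]
  refine ⟨AlgEquiv.ofAlgHom (qm (sb g lam) κ h1) (qm (sb g.symm lam⁻¹) κ⁻¹ h2) ?_ ?_, ?_⟩
  · apply AlgHom.ext
    intro r
    rw [AlgHom.comp_apply]
    ext1
    · rw [qm_re, qm_re, sb_inv g hlam]
      rfl
    · rw [qm_im, qm_im, map_smul, sb_inv g hlam, smul_smul, mul_inv_cancel₀ hκ0, one_smul]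
      rfl
  · apply AlgHom.ext
    intro r
    rw [AlgHom.comp_apply]
    ext1
    · rw [qm_re, qm_re, sb_inv' g hlam]
      rfl
    · rw [qm_im, qm_im, map_smul, sb_inv' g hlam, smul_smul, inv_mul_cancel₀ hκ0, one_smul]
      rfl
  · intro n r
    show (Hmg r.re n ∧ Hmg r.im ((n : ℤ) - 3)) ↔
      (Hmg (sb g lam r.re) n ∧ Hmg (κ • sb g lam r.im) ((n : ℤ) - 3))
    rw [hmg_smul_iff hκ0, hmg_sb_iff g hlam, hmg_sb_iff g hlam]

end Pool.Agent.VDC
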