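import Pool.Agent.VDC.Defs

/-!
# VDC: internal definitions for the proof (see Blueprint.lean.txt)
-/

set_option autoImplicit false

open MvPolynomial CategoryTheory

noncomputable section

namespace Pool.Agent.VDC

/-! ### graded maps modulo an ideal -/

/-- `S`-linear maps `X → Y` of degree `ρ` -/
def HM (X Y : PO) (ρ : ℤ) : Submodule ℂ (Matrix Y.ι X.ι Sr) where
  carrier := {g | ∀ i j, Hmg (g i j) (X.deg j + ρ - Y.deg i)}
  add_mem' ha hb i j := (ha i j).add (hb i j)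
  zero_mem' _ _ := Hmg.zero _
  smul_mem' c _ ha i j := (ha i j).csmul c

/-- matrices with entries in an ideal -/
def IM (I : Ideal Sr) (ι κ : Type) : Submodule ℂ (Matrix ι κ Sr) where
  carrier := {g | ∀ i j, g i j ∈ I}
  add_mem' ha hb i j := I.add_mem (ha i j) (hb i j)
  zero_mem' _ _ := I.zero_mem
  smul_mem' c g ha i j := by
    show c • g i j ∈ I
    rw [MvPolynomial.smul_eq_C_mul]
    exact I.mul_mem_left _ (ha i j)

/-- the differential: `g ↦ Φ g - s g Φ` -/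
def dd (X Y : PO) (s : ℤ) : Matrix Y.ι X.ι Sr →ₗ[ℂ] Matrix Y.ι X.ι Sr where
  toFun g := Y.Φ * g - s • (g * X.Φ)
  map_add' a b := by rw [Matrix.mul_add, Matrix.add_mul, smul_add]; abel
  map_smul' c a := by
    rw [Matrix.mul_smul, Matrix.smul_mul, smul_comm s c, ← smul_sub, RingHom.id_apply]

lemma dd_apply (X Y : PO) (s : ℤ) (g : Matrix Y.ι X.ι Sr) :
    dd X Y s g = Y.Φ * g - s • (g * X.Φ) := rfl

/-- cycles modulo `I`, of sign `s` and degree `ρ` -/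
def Zc (X Y : PO) (I : Ideal Sr) (s ρ : ℤ) : Submodule ℂ (Matrix Y.ι X.ι Sr) :=
  HM X Y ρ ⊓ (IM I Y.ι X.ι).comap (dd X Y s)

/-- boundaries modulo `I`, of sign `s` and degree `ρ`: `g = Φ h + s h Φ` modulo `I` -/
def Bc (X Y : PO) (I : Ideal Sr) (s ρ : ℤ) : Submodule ℂ (Matrix Y.ι X.ι Sr) :=
  HM X Y ρ ⊓ ((HM X Y (ρ - 3)).map (dd X Y (-s)) ⊔ IM I Y.ι X.ι)

/-- the dimension of cycles modulo boundaries -/
def hdim (X Y : PO) (I : Ideal Sr) (s ρ : ℤ) : ℕ :=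
  Module.finrank ℂ (Zc X Y I s ρ ⧸ (Bc X Y I s ρ).comap (Zc X Y I s ρ).subtype)

/-- `h` acts on `X` by zero up to homotopy -/
def NH (X : PO) (h : Sr) (e : ℤ) : Prop :=
  ∃ l ∈ HM X X (e - 3), X.Φ * l + l * X.Φ = h • (1 : Matrix X.ι X.ι Sr)

/-- `Φ ^ 2 = - f` modulo `I` -/
def SqI (Y : PO) (f : Sr) (I : Ideal Sr) : Prop :=
  Y.Φ * Y.Φ + f • (1 : Matrix Y.ι Y.ι Sr) ∈ IM I Y.ι Y.ι

/-- `l` is not a zero divisor modulo `I` -/
def NZ (l : Sr) (I : Ideal Sr) : Prop := ∀ p, l * p ∈ I → p ∈ I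

/-- homogeneous component -/
def cmp (m : ℤ) (p : Sr) : Sr := weightedHomogeneousComponent wt m p

/-- homogeneous ideals -/
def HId (I : Ideal Sr) : Prop := ∀ p ∈ I, ∀ m, cmp m p ∈ I

/-- the ideal generated by the powers `X j ^ n j`, `j ∈ J` -/
def mI (J : Finset (Fin 4)) (n : Fin 4 → ℕ) : Ideal Sr :=
  Ideal.span ((fun j => (X j : Sr) ^ n j) '' (J : Set (Fin 4)))

/-! ### functionals at a point -/

/-- functionals on the generators of levels `0, …, n - 1` (level of `i` is `deg i + ρ`) -/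
def Fn (X : PO) (n ρ : ℤ) : Submodule ℂ (X.ι → ℂ) where
  carrier := {γ | ∀ i, γ i ≠ 0 → 0 ≤ X.deg i + ρ ∧ X.deg i + ρ < n}
  add_mem' := by
    intro a b ha hb i h
    by_cases h1 : a i = 0
    · exact hb i fun h2 => h (by rw [Pi.add_apply, h1, h2, add_zero])
    · exact ha i h1
  zero_mem' := fun i h => absurd rfl h
  smul_mem' := by
    intro c a ha i h
    exact ha i fun h2 => h (by rw [Pi.smul_apply, h2, smul_zero])

/-- functionals vanishing on the image of `Φ`: the maps `X → ℂ[t]/(t ^ n)` of degree `ρ`, where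
`S` acts on `ℂ[t]` by evaluation at `(p 0 t, p 1 t, p 2 t, p 3 t ^ 2)` and `z` by zero -/
def ZF (X : PO) (p : Fin 4 → ℂ) (n ρ : ℤ) : Submodule ℂ (X.ι → ℂ) where
  carrier := {γ | γ ∈ Fn X n ρ ∧
    ∀ j, X.deg j + ρ + 3 < n → ∑ i, γ i * eval p (X.Φ i j) = 0}
  add_mem' := by
    rintro a b ⟨ha, ha'⟩ ⟨hb, hb'⟩
    refine ⟨add_mem ha hb, fun j hj => ?_⟩
    simp only [Pi.add_apply, add_mul, Finset.sum_add_distrib, ha' j hj, hb' j hj, add_zero]
  zero_mem' := ⟨zero_mem _, fun j _ => by simp⟩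
  smul_mem' := by
    rintro c a ⟨ha, ha'⟩
    refine ⟨Submodule.smul_mem _ c ha, fun j hj => ?_⟩
    simp only [Pi.smul_apply, smul_eq_mul, mul_assoc, ← Finset.mul_sum, ha' j hj, mul_zero]

/-- the functionals which are zero in the cohomology -/
def BF (X : PO) (p : Fin 4 → ℂ) (n ρ : ℤ) : Submodule ℂ (X.ι → ℂ) where
  carrier := {γ | γ ∈ Fn X n ρ ∧ ∃ μ ∈ Fn X n (ρ - 3),
    ∀ j, X.deg j + ρ < n → γ j = ∑ i, μ i * eval p (X.Φ i j)}
  add_mem' := by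
    rintro a b ⟨ha, μ, hμ, ha'⟩ ⟨hb, ν, hν, hb'⟩
    refine ⟨add_mem ha hb, μ + ν, add_mem hμ hν, fun j hj => ?_⟩
    simp only [Pi.add_apply, add_mul, Finset.sum_add_distrib, ha' j hj, hb' j hj]
  zero_mem' := ⟨zero_mem _, 0, zero_mem _, fun j _ => by simp⟩
  smul_mem' := by
    rintro c a ⟨ha, μ, hμ, ha'⟩
    refine ⟨Submodule.smul_mem _ c ha, c • μ, Submodule.smul_mem _ c hμ, fun j hj => ?_⟩
    simp only [Pi.smul_apply, smul_eq_mul, mul_assoc, ← Finset.mul_sum, ha' j hj]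

/-- the composition of a functional on `Y` with `g : X → Y`; `ρ` is the total degree -/
def pull (X Y : PO) (p : Fin 4 → ℂ) (n ρ : ℤ) (γ : Y.ι → ℂ) (g : Matrix Y.ι X.ι Sr) :
    X.ι → ℂ :=
  fun j => if X.deg j + ρ < n then ∑ i, γ i * eval p (g i j) else 0

/-- the connecting map from level `< n` to level `n` -/
def dl (X : PO) (p : Fin 4 → ℂ) (n ρ : ℤ) (γ : X.ι → ℂ) : X.ι → ℂ :=
  fun j => if X.deg j + ρ + 3 = n then ∑ i, γ i * eval p (X.Φ i j) else 0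

/-- `α` makes `A` represent the functionals of level `< n` at `p` -/
structure Rp {f : Sr} (A : CM f) (p : Fin 4 → ℂ) (n r : ℤ) (α : A.ι → ℂ) : Prop where
  mem : α ∈ ZF A.toPO p n r
  surj : ∀ (X : CM f) (s ρ : ℤ), s * s = 1 → ∀ γ ∈ ZF X.toPO p n ρ,
    ∃ g ∈ Zc X.toPO A.toPO ⊥ s (ρ - r),
      γ - pull X.toPO A.toPO p n ρ α g ∈ BF X.toPO p n ρ
  inj : ∀ (X : CM f) (s ρ : ℤ), s * s = 1 → ∀ g ∈ Zc X.toPO A.toPO ⊥ s (ρ - r),
    pull X.toPO A.toPO p n ρ α g ∈ BF X.toPO p n ρ → g ∈ Bc X.toPO A.toPO ⊥ s (ρ - r)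

/-! ### Koszul objects -/

/-- one free generator of degree `m`, with `Φ = 0` -/
abbrev UU (m : ℤ) : PO where
  ι := Unit
  deg _ := m
  Φ := 0
  hom _ _ := Hmg.zero _

/-- the Koszul construction: `Φ = (Φ_Y, a; l, - Φ_Y)`, whose square is `Φ_Y ^ 2 + l a` -/
abbrev TT (Y : PO) (l a : Sr) (e : ℤ) (hl : Hmg l e) (ha : Hmg a (6 - e)) : PO where
  ι := Y.ι ⊕ Y.ι
  deg := Sum.elim Y.deg (fun i => Y.deg i + 3 - e)
  Φ := Matrix.fromBlocks Y.Φ (a • 1) (l • 1) (-Y.Φ)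
  hom := by
    rintro (i | i) (j | j)
    · exact Y.hom i j
    · show Hmg ((a • (1 : Matrix Y.ι Y.ι Sr)) i j) ((Y.deg j + 3 - e) + 3 - Y.deg i)
      rw [Matrix.smul_apply, smul_eq_mul]
      by_cases h : i = j
      · subst h
        rw [Matrix.one_apply_eq, mul_one]
        exact ha.congr (by ring)
      · rw [Matrix.one_apply_ne h, mul_zero]
        exact Hmg.zero _
    · show Hmg ((l • (1 : Matrix Y.ι Y.ι Sr)) i j) (Y.deg j + 3 - (Y.deg i + 3 - e))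
      rw [Matrix.smul_apply, smul_eq_mul]
      by_cases h : i = j
      · subst h
        rw [Matrix.one_apply_eq, mul_one]
        exact hl.congr (by ring)
      · rw [Matrix.one_apply_ne h, mul_zero]
        exact Hmg.zero _
    · exact (Y.hom i j).neg.congr (by show _ = (Y.deg j + 3 - e) + 3 - (Y.deg i + 3 - e); ring)

lemma TT_sq (Y : PO) (l a : Sr) (e : ℤ) (hl : Hmg l e) (ha : Hmg a (6 - e)) (q : Sr)
    (h : Y.Φ * Y.Φ = q • (1 : Matrix Y.ι Y.ι Sr)) :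
    (TT Y l a e hl ha).Φ * (TT Y l a e hl ha).Φ =
      (q + l * a) • (1 : Matrix (TT Y l a e hl ha).ι (TT Y l a e hl ha).ι Sr) := by
  show Matrix.fromBlocks Y.Φ (a • 1) (l • 1) (-Y.Φ) *
    Matrix.fromBlocks Y.Φ (a • 1) (l • 1) (-Y.Φ) = (q + l * a) • 1
  rw [Matrix.fromBlocks_multiply, ← Matrix.fromBlocks_one, Matrix.fromBlocks_smul]
  congr 1 <;> simp only [h, Matrix.mul_smul, Matrix.smul_mul, Matrix.mul_one, Matrix.one_mul,
    Matrix.mul_neg, Matrix.neg_mul, neg_neg, smul_neg, add_neg_cancel, smul_zero,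
    smul_smul, ← add_smul, add_comm, mul_comm]

/-- Koszul data: `∑ l i * a i = - f` -/
structure KD (f : Sr) where
  l : Fin 4 → Sr
  a : Fin 4 → Sr
  e : Fin 4 → ℤ
  hl : ∀ i, Hmg (l i) (e i)
  ha : ∀ i, Hmg (a i) (6 - e i)
  sum : ∑ i, l i * a i = -f

/-- the Koszul object of the data, with lowest generator in degree `m` -/
abbrev KD.obj {f : Sr} (D : KD f) (m : ℤ) : CM f where
  toPO := TT (TT (TT (TT (UU m) (D.l 1) (D.a 1) (D.e 1) (D.hl 1) (D.ha 1))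
    (D.l 2) (D.a 2) (D.e 2) (D.hl 2) (D.ha 2)) (D.l 3) (D.a 3) (D.e 3) (D.hl 3) (D.ha 3))
    (D.l 0) (D.a 0) (D.e 0) (D.hl 0) (D.ha 0)
  sq := by
    rw [TT_sq _ _ _ _ _ _ _ (TT_sq _ _ _ _ _ _ _ (TT_sq _ _ _ _ _ _ _
      (TT_sq _ _ _ _ _ _ 0 (by simp)))), ← neg_smul, ← D.sum, Fin.sum_univ_four]
    congr 1
    ring

/-- the functional which is `1` on the top generator -/
def top (f : Sr) (D : KD f) (m : ℤ) : (D.obj m).ι → ℂ :=
  Pi.single (Sum.inr (Sum.inr (Sum.inr (Sum.inr ())))) 1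

/-- decompositions of `- f` along the variables -/
structure KA (f : Sr) where
  a : Fin 4 → Sr
  ha : ∀ i, Hmg (a i) (6 - wt i)
  sum : ∑ i, (X i : Sr) * a i = -f

lemma Hmg.X (i : Fin 4) : Hmg (X i : Sr) (wt i) := by
  classical
  intro a h
  rw [coeff_X] at h
  have h1 : Finsupp.single i 1 = a := by
    by_contra h2
    exact h (if_neg h2)
  rw [← h1, wd, Finset.sum_eq_single i]
  · simp
  · intro b _ hb
    simp [hb.symm]
  · simp

/-- the Koszul data on the variables -/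
def KA.kd {f : Sr} (D : KA f) : KD f where
  l := X
  a := D.a
  e := wt
  hl := Hmg.X
  ha := D.ha
  sum := D.sum

/-- the stabilised residue field, with top generator in degree `0` -/
abbrev kk {f : Sr} (D : KA f) : CM f := D.kd.obj (-7)

/-- multiplication by a polynomial of degree `2`, as a map `X → X(2)` -/
def mu {f : Sr} (h : Sr) (hh : Hmg h 2) (X : CM f) : mor X (tw 2 1 X) :=
  ⟨h • (1 : Matrix X.ι X.ι Sr), by
    constructor
    · intro i j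
      show Hmg ((h • (1 : Matrix X.ι X.ι Sr)) i j) (X.deg j - (X.deg i - 2))
      rw [Matrix.smul_apply, smul_eq_mul]
      by_cases hij : i = j
      · subst hij
        rw [Matrix.one_apply_eq, mul_one]
        exact hh.congr (by ring)
      · rw [Matrix.one_apply_ne hij, mul_zero]
        exact Hmg.zero _
    · show (((1 : ℤˣ) : ℤ) • X.Φ) * (h • 1) = (h • 1) * X.Φ
      simp⟩

lemma hmg_iff (p : Sr) (m : ℤ) : Hmg p m ↔ IsWeightedHomogeneous wt p m := by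
  have h : ∀ a, wd a = Finsupp.weight wt a := by
    intro a
    rw [Finsupp.weight_apply, wd, Finsupp.sum_fintype _ _ (fun i => by simp)]
    exact Finset.sum_congr rfl fun i _ => by simp [mul_comm]
  constructor
  · intro hp a ha
    rw [← h]; exact hp a ha
  · intro hp a ha
    rw [h]; exact hp ha

/-- a representative of a map `X → tw m s Y`, from a cycle of sign `s` and degree `m` -/
def ofZ {f : Sr} {X Y : CM f} (m : ℤ) (s : ℤˣ) (g : Matrix Y.ι X.ι Sr)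
    (hg : g ∈ Zc X.toPO Y.toPO ⊥ s m) : mor X (tw m s Y) :=
  ⟨g, by
    obtain ⟨h1, h2⟩ := hg
    have h3 : Y.Φ * g = (s : ℤ) • (g * X.Φ) := by
      ext1 i j
      have h4 := h2 i j
      rw [dd_apply, Ideal.mem_bot, Matrix.sub_apply, sub_eq_zero] at h4
      exact h4
    refine ⟨fun i j => (h1 i j).congr
      (by show _ = X.deg j - (Y.deg i - m); ring), ?_⟩
    show ((s : ℤ) • Y.Φ) * g = g * X.Φ
    rw [Matrix.smul_mul, h3, smul_smul, ← Units.val_mul, Int.units_mul_self, Units.val_one,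
      one_smul]⟩

lemma toZ {f : Sr} {X Y : CM f} {m : ℤ} {s : ℤˣ} (g : mor X (tw m s Y)) :
    g.1 ∈ Zc X.toPO Y.toPO ⊥ s m := by
  obtain ⟨g, h1, h2⟩ := g
  have h3 : ((s : ℤ) • Y.Φ) * g = g * X.Φ := h2
  have h4 : dd X.toPO Y.toPO s g = 0 := by
    show Y.Φ * g - (s : ℤ) • (g * X.Φ) = 0
    rw [← h3, Matrix.smul_mul, smul_smul, ← Units.val_mul, Int.units_mul_self, Units.val_one,
      one_smul, sub_self]
  refine ⟨fun i j => (h1 i j).congr (by show X.deg j - (Y.deg i - m) = _; ring), fun i j => ?_⟩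
  show dd X.toPO Y.toPO s g i j ∈ _
  rw [h4]
  exact Ideal.zero_mem _

/-- the point with coordinates `v`, `c` -/
def vp (v : Fin 3 → ℂ) (c : ℂ) : Fin 4 → ℂ := ![v 0, v 1, v 2, c]

/-- a map `X → tw a s Y` as a map `tw b t X → tw (a + b) (s t) Y` -/
def twc {f : Sr} {X Y : CM f} {a : ℤ} {s : ℤˣ} (b : ℤ) (t : ℤˣ) (a' : ℤ) (s' : ℤˣ)
    (ha : a' = a + b) (hs : s' = s * t) (g : mor X (tw a s Y)) : mor (tw b t X) (tw a' s' Y) :=
  ⟨g.1, by
    obtain ⟨g, h1, h2⟩ := g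
    subst ha hs
    refine ⟨fun i j => (h1 i j).congr
      (by show X.deg j - (Y.deg i - a) = (X.deg j - b) - (Y.deg i - (a + b)); ring), ?_⟩
    have h3 : ((s : ℤ) • Y.Φ) * g = g * X.Φ := h2
    show (((s * t : ℤˣ) : ℤ) • Y.Φ) * g = g * ((t : ℤ) • X.Φ)
    rw [Matrix.mul_smul, ← h3, Matrix.smul_mul, Matrix.smul_mul, smul_smul, Units.val_mul,
      mul_comm]⟩

/-- `X` has a nontrivial idempotent endomorphism -/
def Idem {f : Sr} (X : CM f) : Prop := ∃ e : X ⟶ X, e ≫ e = e ∧ e ≠ 0 ∧ e ≠ 𝟙 X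

lemma twc_nul {f : Sr} {X Y : CM f} {a : ℤ} {s : ℤˣ} (b : ℤ) (t : ℤˣ) (a' : ℤ) (s' : ℤˣ)
    (ha : a' = a + b) (hs : s' = s * t) (g : mor X (tw a s Y)) (hg : g ∈ nul X (tw a s Y)) :
    twc b t a' s' ha hs g ∈ nul (tw b t X) (tw a' s' Y) := by
  subst ha hs
  obtain ⟨h, h1, h2⟩ := hg
  refine ⟨(t : ℤ) • h, fun i j => ((h1 i j).zsmul _).congr
    (by show X.deg j - 3 - (Y.deg i - a) = (X.deg j - b) - 3 - (Y.deg i - (a + b)); ring), ?_⟩
  show g.1 = (((s * t : ℤˣ) : ℤ) • Y.Φ) * ((t : ℤ) • h) + ((t : ℤ) • h) * ((t : ℤ) • X.Φ)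
  have h3 : g.1 = ((s : ℤ) • Y.Φ) * h + h * X.Φ := h2
  have ht : (t : ℤ) * (t : ℤ) = 1 := by
    rw [← Units.val_mul, Int.units_mul_self, Units.val_one]
  have ht2 : (t : ℤ) * ((s * t : ℤˣ) : ℤ) = (s : ℤ) := by
    rw [Units.val_mul, mul_comm (s : ℤ), ← mul_assoc, ht, one_mul]
  rw [h3, Matrix.mul_smul, Matrix.smul_mul, Matrix.smul_mul, Matrix.smul_mul, Matrix.mul_smul,
    smul_smul, smul_smul, ht, ht2, one_smul]

/-- `twc` on classes -/
def twq {f : Sr} {X Y : CM f} {a : ℤ} {s : ℤˣ} (b : ℤ) (t : ℤˣ) (a' : ℤ) (s' : ℤˣ)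
    (ha : a' = a + b) (hs : s' = s * t) :
    (X ⟶ tw a s Y) →ₗ[ℂ] (tw b t X ⟶ tw a' s' Y) :=
  Submodule.mapQ (nul X (tw a s Y)) (nul (tw b t X) (tw a' s' Y))
    { toFun := fun g => twc b t a' s' ha hs g
      map_add' := fun _ _ => Subtype.ext rfl
      map_smul' := fun _ _ => Subtype.ext rfl }
    (fun g hg => twc_nul b t a' s' ha hs g hg)

/-- the conditions on Koszul data which make the Koszul object represent the functionals of
level `< n` at `p` -/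
structure Fr {f : Sr} (D : KD f) (p : Fin 4 → ℂ) (n : ℤ) : Prop where
  pos : 1 ≤ n
  one : ∀ m, 0 ≤ m → m < n → ∃ q, Hmg q m ∧ eval p q = 1
  nz0 : NZ (D.l 0) ⊥
  nz3 : NZ (D.l 3) (Ideal.span {D.l 0})
  nz2 : NZ (D.l 2) (Ideal.span {D.l 0} ⊔ Ideal.span {D.l 3})
  nz1 : NZ (D.l 1) (Ideal.span {D.l 0} ⊔ Ideal.span {D.l 3} ⊔ Ideal.span {D.l 2})
  mem : ∀ q m, Hmg q m → (q ∈ Ideal.span {D.l 0} ⊔ Ideal.span {D.l 3} ⊔ Ideal.span {D.l 2} ⊔
    Ideal.span {D.l 1} ↔ n ≤ m ∨ eval p q = 0)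

/-! ### traces -/

/-- the exponent of the socle of `S / (X i ^ n i)` -/
def soc (n : Fin 4 → ℕ) : Fin 4 →₀ ℕ := Finsupp.equivFunOnFinite.symm fun i => n i - 1

/-- the socle coefficient of the trace -/
def Tr {ι : Type} [Fintype ι] (n : Fin 4 → ℕ) (b : Matrix ι ι Sr) : ℂ :=
  coeff (soc n) (Matrix.trace b)

/-- `b` is obtained from `c` by inverting the four connecting maps -/
def Ch (X Y : PO) (n : Fin 4 → ℕ) (s : ℤ) (b c : Matrix Y.ι X.ι Sr) : Prop :=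
  ∃ b₃ b₂ b₁ : Matrix Y.ι X.ι Sr,
    dd X Y s b - (MvPolynomial.X 3 : Sr) ^ n 3 • b₃ ∈ IM (mI {0, 1, 2} n) Y.ι X.ι ∧
    dd X Y (-s) b₃ - (MvPolynomial.X 2 : Sr) ^ n 2 • b₂ ∈ IM (mI {0, 1} n) Y.ι X.ι ∧
    dd X Y s b₂ - (MvPolynomial.X 1 : Sr) ^ n 1 • b₁ ∈ IM (mI {0} n) Y.ι X.ι ∧
    dd X Y (-s) b₁ = (MvPolynomial.X 0 : Sr) ^ n 0 • c

/-- the exponents `2, 2, 2, 1` -/
def n2 : Fin 4 → ℕ := ![2, 2, 2, 1]

/-- cycles killed by the commutator with `l` (in the cohomology) -/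
def Kc (G : PO) (l : Matrix G.ι G.ι Sr) (s ρ : ℤ) : Submodule ℂ (Matrix G.ι G.ι Sr) :=
  Zc G G ⊥ s ρ ⊓ (Bc G G ⊥ (-s) (ρ - 1)).comap
    { toFun := fun g => l * g - s • (g * l)
      map_add' := fun a b => by rw [Matrix.mul_add, Matrix.add_mul, smul_add]; abel
      map_smul' := fun c a => by
        rw [Matrix.mul_smul, Matrix.smul_mul, smul_comm s c, ← smul_sub, RingHom.id_apply] }

/-- the dimension of the kernel of the commutator with `l` -/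
def kapd (G : PO) (l : Matrix G.ι G.ι Sr) (s ρ : ℤ) : ℕ :=
  Module.finrank ℂ (Kc G l s ρ ⧸ (Bc G G ⊥ s ρ).comap (Kc G l s ρ).subtype)

/-- the dimensions of `Hom(k, V ^ ρ k)` -/
def pk (ρ : ℤ) : ℕ :=
  if ρ = 0 ∨ ρ = 1 ∨ ρ = 6 ∨ ρ = 7 then 1 else if 2 ≤ ρ ∧ ρ ≤ 5 then 3 else 0

end Pool.Agent.VDC
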