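import Mathlib

/-!
# The Kuznetsov component of a Veronese double cone, as graded maximal Cohen-Macaulay modules

A Veronese double cone is a smooth hypersurface `Y = {z ^ 2 + f(x, y) = 0}` in `P(1,1,1,2,3)`,
`f = y ^ 3 + f₄(x) y + f₆(x)`.  Let `R = ℂ[x₀,x₁,x₂,y,z] / (z ^ 2 + f)` be its graded coordinate
ring and `S = ℂ[x₀,x₁,x₂,y]`.  A graded maximal Cohen-Macaulay `R`-module is a finite free graded
`S`-module `F` with an `S`-linear operator `Φ` of degree `3` (the action of `z`) such that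
`Φ ^ 2 = - f`.  A map of such modules factors through a graded free `R`-module if and only if it
is of the form `Φ' h + h Φ`.  The stable category `CM f` is triangulated; by theorems of Buchweitz
and Orlov it is the Kuznetsov component of `Y`.
-/

set_option autoImplicit false

open MvPolynomial CategoryTheory

noncomputable section

namespace Pool.Agent.VDC

/-- The ring `S = ℂ[x₀, x₁, x₂, y]`; the variable `y` has index `3`. -/
abbrev Sr : Type := MvPolynomial (Fin 4) ℂ

/-- The degrees of the variables: `1, 1, 1, 2`. -/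
def wt : Fin 4 → ℤ := ![1, 1, 1, 2]

/-- The degree of a monomial. -/
def wd (a : Fin 4 →₀ ℕ) : ℤ := ∑ i, wt i * (a i : ℤ)

/-- `p` is homogeneous of degree `m` (zero is homogeneous of every degree). -/
def Hmg (p : Sr) (m : ℤ) : Prop := ∀ a, coeff a p ≠ 0 → wd a = m

/-- A finite free graded `S`-module with basis `ι`, the basis element `i` of degree `deg i`, and
an operator `Φ` of degree `3`. -/
structure PO where
  ι : Type
  [fin : Fintype ι]
  [dec : DecidableEq ι]
  deg : ι → ℤ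
  Φ : Matrix ι ι Sr
  hom : ∀ i j, Hmg (Φ i j) (deg j + 3 - deg i)

attribute [instance] PO.fin PO.dec

/-- The graded maximal Cohen-Macaulay modules over `R = S[z] / (z ^ 2 + f)`. -/
structure CM (f : Sr) extends PO where
  sq : Φ * Φ = -(f • (1 : Matrix ι ι Sr))

variable {f : Sr}

lemma Hmg.zero (m : ℤ) : Hmg 0 m := fun a h => absurd (by simp) h

lemma Hmg.add {p q : Sr} {m : ℤ} (hp : Hmg p m) (hq : Hmg q m) : Hmg (p + q) m := by
  intro a h
  rw [coeff_add] at h
  by_cases h1 : coeff a p = 0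
  · exact hq a fun h2 => h (by rw [h1, h2, add_zero])
  · exact hp a h1

lemma Hmg.sum {κ : Type*} {s : Finset κ} {p : κ → Sr} {m : ℤ} (h : ∀ k ∈ s, Hmg (p k) m) :
    Hmg (∑ k ∈ s, p k) m := by
  classical
  induction s using Finset.induction_on with
  | empty => simpa using Hmg.zero m
  | insert k s hk ih =>
    rw [Finset.sum_insert hk]
    exact (h k (Finset.mem_insert_self k s)).add
      (ih fun j hj => h j (Finset.mem_insert_of_mem hj))

lemma Hmg.csmul {p : Sr} {m : ℤ} (c : ℂ) (hp : Hmg p m) : Hmg (c • p) m := by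
  intro a h
  rw [coeff_smul] at h
  exact hp a fun h2 => h (by rw [h2, smul_zero])

lemma Hmg.zsmul {p : Sr} {m : ℤ} (c : ℤ) (hp : Hmg p m) : Hmg (c • p) m := by
  intro a h
  rw [coeff_smul] at h
  exact hp a fun h2 => h (by rw [h2, smul_zero])

lemma Hmg.neg {p : Sr} {m : ℤ} (hp : Hmg p m) : Hmg (-p) m := by
  intro a h
  rw [coeff_neg] at h
  exact hp a fun h2 => h (by rw [h2, neg_zero])

lemma Hmg.sub {p q : Sr} {m : ℤ} (hp : Hmg p m) (hq : Hmg q m) : Hmg (p - q) m := by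
  rw [sub_eq_add_neg]; exact hp.add hq.neg

lemma wd_add (a b : Fin 4 →₀ ℕ) : wd (a + b) = wd a + wd b := by
  simp only [wd, Finsupp.add_apply, Nat.cast_add, mul_add, Finset.sum_add_distrib]

lemma Hmg.mul {p q : Sr} {m k : ℤ} (hp : Hmg p m) (hq : Hmg q k) : Hmg (p * q) (m + k) := by
  classical
  intro a h
  rw [coeff_mul] at h
  obtain ⟨⟨b, c⟩, hbc, hne⟩ := Finset.exists_ne_zero_of_sum_ne_zero h
  rw [Finset.HasAntidiagonal.mem_antidiagonal] at hbc
  have h1 := hp b (left_ne_zero_of_mul hne)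
  have h2 := hq c (right_ne_zero_of_mul hne)
  simp only at hbc
  rw [← hbc, wd_add, h1, h2]

lemma Hmg.one : Hmg 1 0 := by
  classical
  intro a h
  rw [coeff_one] at h
  have h1 : a = 0 := by
    by_contra h2
    exact h (if_neg fun h3 => h2 h3.symm)
  rw [h1]; simp [wd]

lemma Hmg.congr {p : Sr} {m k : ℤ} (hp : Hmg p m) (h : m = k) : Hmg p k := h ▸ hp

/-- The `R`-linear maps `X → Y` of degree `0`. -/
def mor (X Y : CM f) : Submodule ℂ (Matrix Y.ι X.ι Sr) where
  carrier := {g | (∀ i j, Hmg (g i j) (X.deg j - Y.deg i)) ∧ Y.Φ * g = g * X.Φ}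
  add_mem' := by
    rintro a b ⟨ha, ha'⟩ ⟨hb, hb'⟩
    refine ⟨fun i j => (ha i j).add (hb i j), ?_⟩
    rw [Matrix.mul_add, Matrix.add_mul, ha', hb']
  zero_mem' := ⟨fun i j => Hmg.zero _, by rw [Matrix.mul_zero, Matrix.zero_mul]⟩
  smul_mem' := by
    rintro c a ⟨ha, ha'⟩
    refine ⟨fun i j => (ha i j).csmul c, ?_⟩
    rw [Matrix.mul_smul, Matrix.smul_mul, ha']

/-- The maps which factor through a graded free `R`-module. -/
def nul (X Y : CM f) : Submodule ℂ (mor X Y) where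
  carrier := {g | ∃ h : Matrix Y.ι X.ι Sr, (∀ i j, Hmg (h i j) (X.deg j - 3 - Y.deg i)) ∧
    g.1 = Y.Φ * h + h * X.Φ}
  add_mem' := by
    rintro a b ⟨h, hh, ha⟩ ⟨k, hk, hb⟩
    refine ⟨h + k, fun i j => (hh i j).add (hk i j), ?_⟩
    rw [Submodule.coe_add, ha, hb, Matrix.mul_add, Matrix.add_mul]
    abel
  zero_mem' := ⟨0, fun i j => Hmg.zero _, by simp⟩
  smul_mem' := by
    rintro c a ⟨h, hh, ha⟩
    refine ⟨c • h, fun i j => (hh i j).csmul c, ?_⟩
    rw [Submodule.coe_smul, ha, Matrix.mul_smul, Matrix.smul_mul, smul_add]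

/-- composition of maps -/
def compM {X Y Z : CM f} (a : mor X Y) (b : mor Y Z) : mor X Z :=
  ⟨b.1 * a.1, by
    obtain ⟨a, ha, ha'⟩ := a
    obtain ⟨b, hb, hb'⟩ := b
    refine ⟨fun i j => ?_, ?_⟩
    · rw [Matrix.mul_apply]
      exact Hmg.sum fun k _ => ((hb i k).mul (ha k j)).congr (by ring)
    · show Z.Φ * (b * a) = b * a * X.Φ
      rw [← Matrix.mul_assoc, hb', Matrix.mul_assoc, ha', Matrix.mul_assoc]⟩

lemma compM_nul_left {X Y Z : CM f} (a : mor X Y) (b : mor Y Z) (ha : a ∈ nul X Y) :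
    compM a b ∈ nul X Z := by
  obtain ⟨h, hh, h1⟩ := ha
  obtain ⟨b, hb, hb'⟩ := b
  refine ⟨b * h, fun i j => ?_, ?_⟩
  · rw [Matrix.mul_apply]
    exact Hmg.sum fun k _ => ((hb i k).mul (hh k j)).congr (by ring)
  · show b * a.1 = Z.Φ * (b * h) + b * h * X.Φ
    rw [h1, Matrix.mul_add, ← Matrix.mul_assoc, ← Matrix.mul_assoc, ← hb', Matrix.mul_assoc]

lemma compM_nul_right {X Y Z : CM f} (a : mor X Y) (b : mor Y Z) (hb : b ∈ nul Y Z) :
    compM a b ∈ nul X Z := by
  obtain ⟨h, hh, h1⟩ := hb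
  obtain ⟨a, ha, ha'⟩ := a
  refine ⟨h * a, fun i j => ?_, ?_⟩
  · rw [Matrix.mul_apply]
    exact Hmg.sum fun k _ => ((hh i k).mul (ha k j)).congr (by ring)
  · show b.1 * a = Z.Φ * (h * a) + h * a * X.Φ
    rw [h1, Matrix.add_mul, Matrix.mul_assoc, Matrix.mul_assoc, Matrix.mul_assoc, ha']

/-- composition as a bilinear map on representatives -/
def compB (X Y Z : CM f) : mor X Y →ₗ[ℂ] mor Y Z →ₗ[ℂ] mor X Z :=
  LinearMap.mk₂ ℂ compM
    (fun _ _ _ => Subtype.ext (Matrix.mul_add _ _ _))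
    (fun _ _ _ => Subtype.ext (Matrix.mul_smul _ _ _))
    (fun _ _ _ => Subtype.ext (Matrix.add_mul _ _ _))
    (fun _ _ _ => Subtype.ext (Matrix.smul_mul _ _ _))

/-- composition as a bilinear map on classes -/
def compQ (X Y Z : CM f) :
    (mor X Y ⧸ nul X Y) →ₗ[ℂ] (mor Y Z ⧸ nul Y Z) →ₗ[ℂ] (mor X Z ⧸ nul X Z) :=
  Submodule.liftQ _ (LinearMap.flip (Submodule.liftQ _
    (LinearMap.flip ((compB X Y Z).compr₂ (nul X Z).mkQ)) (by
      intro b hb
      ext a
      exact (Submodule.Quotient.mk_eq_zero _).2 (compM_nul_right a b hb)))) (by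
    intro a ha
    ext b
    exact (Submodule.Quotient.mk_eq_zero _).2 (compM_nul_left a b ha))

/-- the identity -/
def idM (X : CM f) : mor X X :=
  ⟨1, by
    refine ⟨fun i j => ?_, by rw [Matrix.mul_one, Matrix.one_mul]⟩
    by_cases h : i = j
    · subst h
      rw [Matrix.one_apply_eq]
      exact Hmg.one.congr (by ring)
    · rw [Matrix.one_apply_ne h]
      exact Hmg.zero _⟩

/-- The stable category of graded maximal Cohen-Macaulay `R`-modules. -/
instance instCat (f : Sr) : Category (CM f) where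
  Hom X Y := mor X Y ⧸ nul X Y
  id X := (nul X X).mkQ (idM X)
  comp {X Y Z} a b := compQ X Y Z a b
  id_comp {X Y} a := by
    obtain ⟨a, rfl⟩ := Submodule.mkQ_surjective _ a
    exact congrArg _ (Subtype.ext (Matrix.mul_one _))
  comp_id {X Y} a := by
    obtain ⟨a, rfl⟩ := Submodule.mkQ_surjective _ a
    exact congrArg _ (Subtype.ext (Matrix.one_mul _))
  assoc {W X Y Z} a b c := by
    obtain ⟨a, rfl⟩ := Submodule.mkQ_surjective _ a
    obtain ⟨b, rfl⟩ := Submodule.mkQ_surjective _ b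
    obtain ⟨c, rfl⟩ := Submodule.mkQ_surjective _ c
    exact congrArg _ (Subtype.ext (Matrix.mul_assoc _ _ _).symm)

/-- the class of a map in the stable category -/
def cls {X Y : CM f} (g : mor X Y) : X ⟶ Y := (nul X Y).mkQ g

instance (X Y : CM f) : AddCommGroup (X ⟶ Y) :=
  inferInstanceAs (AddCommGroup (mor X Y ⧸ nul X Y))

instance (X Y : CM f) : Module ℂ (X ⟶ Y) :=
  inferInstanceAs (Module ℂ (mor X Y ⧸ nul X Y))

instance instPre (f : Sr) : Preadditive (CM f) where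
  add_comp X Y Z a b c := by
    show compQ X Y Z (a + b) c = compQ X Y Z a c + compQ X Y Z b c
    rw [map_add, LinearMap.add_apply]
  comp_add X Y Z a b c := map_add (compQ X Y Z a) b c

instance instLin (f : Sr) : Linear ℂ (CM f) where
  smul_comp X Y Z r a b := by
    show compQ X Y Z (r • a) b = r • compQ X Y Z a b
    rw [map_smul, LinearMap.smul_apply]
  comp_smul X Y Z a r b := map_smul (compQ X Y Z a) r b

/-- `X` with all degrees lowered by `m` and `Φ` replaced by `s Φ`. -/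
abbrev tw (m : ℤ) (s : ℤˣ) (X : CM f) : CM f where
  ι := X.ι
  deg i := X.deg i - m
  Φ := (s : ℤ) • X.Φ
  hom i j := ((X.hom i j).zsmul _).congr (by ring)
  sq := by
    rw [Matrix.smul_mul, Matrix.mul_smul, smul_smul, ← Units.val_mul, Int.units_mul_self,
      Units.val_one, one_smul]
    exact X.sq

/-- `tw` on maps -/
def twM (m : ℤ) (s : ℤˣ) {X Y : CM f} (g : mor X Y) : mor (tw m s X) (tw m s Y) :=
  ⟨g.1, by
    obtain ⟨g, h1, h2⟩ := g
    refine ⟨fun i j => (h1 i j).congr (by show _ = (X.deg j - m) - (Y.deg i - m); ring), ?_⟩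
    show ((s : ℤ) • Y.Φ) * g = g * ((s : ℤ) • X.Φ)
    rw [Matrix.smul_mul, Matrix.mul_smul, h2]⟩

lemma twM_nul (m : ℤ) (s : ℤˣ) {X Y : CM f} (g : mor X Y) (hg : g ∈ nul X Y) :
    twM m s g ∈ nul (tw m s X) (tw m s Y) := by
  obtain ⟨h, h1, h2⟩ := hg
  refine ⟨(s : ℤ) • h, fun i j => ((h1 i j).zsmul _).congr
    (by show _ = (X.deg j - m) - 3 - (Y.deg i - m); ring), ?_⟩
  show g.1 = ((s : ℤ) • Y.Φ) * ((s : ℤ) • h) + ((s : ℤ) • h) * ((s : ℤ) • X.Φ)
  rw [Matrix.smul_mul, Matrix.mul_smul, Matrix.smul_mul, Matrix.mul_smul, smul_smul, smul_smul,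
    ← Units.val_mul, Int.units_mul_self, Units.val_one, one_smul, one_smul]
  exact h2

/-- `tw` on maps, as a linear map -/
def twL (m : ℤ) (s : ℤˣ) (X Y : CM f) : mor X Y →ₗ[ℂ] mor (tw m s X) (tw m s Y) where
  toFun g := twM m s g
  map_add' _ _ := Subtype.ext rfl
  map_smul' _ _ := Subtype.ext rfl

/-- The functor `X ↦ X(m)` (for `s = 1`), with `Φ` replaced by `s Φ`. -/
def twF (f : Sr) (m : ℤ) (s : ℤˣ) : CM f ⥤ CM f where
  obj := tw m s
  map {X Y} g := Submodule.mapQ (nul X Y) (nul (tw m s X) (tw m s Y)) (twL m s X Y)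
    (fun g hg => twM_nul m s g hg) g
  map_id X := rfl
  map_comp {X Y Z} a b := by
    obtain ⟨a, rfl⟩ := Submodule.mkQ_surjective _ a
    obtain ⟨b, rfl⟩ := Submodule.mkQ_surjective _ b
    rfl

/-- The shift functor `[1]` of the triangulated category `CM f`: `X[1] = (F(3), - Φ)`
(the cokernel of the embedding `m ↦ Φ m ⊗ 1 + m ⊗ z` of `(F, Φ)` in the free module
`F(3) ⊗ R`). -/
def sh (f : Sr) : CM f ⥤ CM f := twF f 3 (-1)

/-- The mapping cone of `g : X → Y`. -/
abbrev cone {X Y : CM f} (g : mor X Y) : CM f where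
  ι := Y.ι ⊕ X.ι
  deg := Sum.elim Y.deg (fun i => X.deg i - 3)
  Φ := Matrix.fromBlocks Y.Φ g.1 0 (-X.Φ)
  hom := by
    obtain ⟨g, h1, h2⟩ := g
    rintro (i | i) (j | j)
    · exact Y.hom i j
    · exact (h1 i j).congr (by show _ = (X.deg j - 3) + 3 - Y.deg i; ring)
    · exact Hmg.zero _
    · exact (X.hom i j).neg.congr (by show _ = (X.deg j - 3) + 3 - (X.deg i - 3); ring)
  sq := by
    obtain ⟨g, h1, h2⟩ := g
    rw [Matrix.fromBlocks_multiply]
    simp only [Matrix.mul_zero, Matrix.zero_mul, add_zero, zero_add, Matrix.mul_neg,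
      Matrix.neg_mul, neg_neg, X.sq, Y.sq, h2, add_neg_cancel]
    ext i j
    rcases i with i | i <;> rcases j with j | j <;>
      simp [Matrix.fromBlocks, Matrix.one_apply, Matrix.smul_apply]

/-- `Y → cone g` -/
def inclM {X Y : CM f} (g : mor X Y) : mor Y (cone g) :=
  ⟨Matrix.fromRows 1 0, by
    constructor
    · rintro (i | i) j
      · show Hmg ((1 : Matrix Y.ι Y.ι Sr) i j) (Y.deg j - Y.deg i)
        by_cases h : i = j
        · subst h
          rw [Matrix.one_apply_eq]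
          exact Hmg.one.congr (by ring)
        · rw [Matrix.one_apply_ne h]
          exact Hmg.zero _
      · exact Hmg.zero _
    · show Matrix.fromBlocks Y.Φ g.1 0 (-X.Φ) * Matrix.fromRows 1 0 = Matrix.fromRows 1 0 * Y.Φ
      rw [Matrix.fromBlocks_mul_fromRows, Matrix.fromRows_mul]
      simp⟩

/-- `cone g → X[1]` -/
def projM {X Y : CM f} (g : mor X Y) : mor (cone g) (tw 3 (-1) X) :=
  ⟨Matrix.fromCols 0 1, by
    constructor
    · rintro i (j | j)
      · exact Hmg.zero _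
      · show Hmg ((1 : Matrix X.ι X.ι Sr) i j) ((X.deg j - 3) - (X.deg i - 3))
        by_cases h : i = j
        · subst h
          rw [Matrix.one_apply_eq]
          exact Hmg.one.congr (by ring)
        · rw [Matrix.one_apply_ne h]
          exact Hmg.zero _
    · show (((-1 : ℤˣ) : ℤ) • X.Φ) * Matrix.fromCols 0 1 =
        Matrix.fromCols 0 1 * Matrix.fromBlocks Y.Φ g.1 0 (-X.Φ)
      rw [Matrix.fromCols_mul_fromBlocks, Matrix.mul_fromCols]
      simp⟩

/-- An exact `ℂ`-linear equivalence `CM f → CM f'`: it commutes with the shift and maps the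
standard triangles `X → Y → cone g → X[1]` to distinguished triangles. -/
structure ExactEquiv (f f' : Sr) where
  F : CM f ⥤ CM f'
  isEquiv : F.IsEquivalence
  additive : F.Additive
  linear : F.Linear ℂ
  comm : sh f ⋙ F ≅ F ⋙ sh f'
  exact : ∀ {X Y : CM f} (g : mor X Y), ∃ g' : mor (F.obj X) (F.obj Y), cls g' = F.map (cls g) ∧
    ∃ e : F.obj (cone g) ≅ cone g', F.map (cls (inclM g)) ≫ e.hom = cls (inclM g') ∧
      e.hom ≫ cls (projM g') = F.map (cls (projM g)) ≫ comm.hom.app X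

/-- `z ^ 2 + f = 0` is a Veronese double cone: `f = y ^ 3 + f₄(x) y + f₆(x)` with `f₄`, `f₆`
homogeneous of degrees `4` and `6` in `x₀, x₁, x₂`, and the hypersurface is smooth. -/
def IsVDC (f : Sr) : Prop :=
  (∃ f₄ f₆ : Sr, Hmg f₄ 4 ∧ Hmg f₆ 6 ∧ (∀ a, coeff a f₄ ≠ 0 → a 3 = 0) ∧
    (∀ a, coeff a f₆ ≠ 0 → a 3 = 0) ∧ f = X 3 ^ 3 + f₄ * X 3 + f₆) ∧
  ∀ p : Fin 4 → ℂ, (∀ i, eval p (pderiv i f) = 0) → p = 0

end Pool.Agent.VDC
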