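import Pool.Agent.VDC.Geo

/-!
# Finitely generated graded free modules over the coordinate ring
-/

set_option autoImplicit false

open MvPolynomial CategoryTheory CategoryTheory.Limits

noncomputable section

namespace Pool.Agent.VDC

/-- `r` is homogeneous of degree `m` (`z` has degree `3`). -/
def RHm {f : Sr} (r : RR f) (m : ℤ) : Prop := Hmg r.re m ∧ Hmg r.im (m - 3)

/-- `f` is homogeneous of degree `6`. -/
class H6 (f : Sr) : Prop where
  out : Hmg f 6

/-- A finitely generated graded free `R`-module, with basis `ι`, the basis element `i` of degree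
`deg i`. -/
structure GF (f : Sr) where
  ι : Type
  [fin : Fintype ι]
  [dec : DecidableEq ι]
  deg : ι → ℤ

attribute [instance] GF.fin GF.dec

variable {f : Sr}

lemma RHm.add {r t : RR f} {m : ℤ} (hr : RHm r m) (ht : RHm t m) : RHm (r + t) m :=
  ⟨hr.1.add ht.1, hr.2.add ht.2⟩

lemma RHm.zero (m : ℤ) : RHm (0 : RR f) m := ⟨Hmg.zero _, Hmg.zero _⟩

lemma RHm.neg {r : RR f} {m : ℤ} (hr : RHm r m) : RHm (-r) m := ⟨hr.1.neg, hr.2.neg⟩

lemma RHm.csmul {r : RR f} {m : ℤ} (c : ℂ) (hr : RHm r m) : RHm (c • r) m :=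
  ⟨hr.1.csmul c, hr.2.csmul c⟩

lemma RHm.one : RHm (1 : RR f) 0 := ⟨Hmg.one, Hmg.zero _⟩

lemma RHm.congr {r : RR f} {m k : ℤ} (hr : RHm r m) (h : m = k) : RHm r k := h ▸ hr

lemma RHm.mul [H6 f] {r t : RR f} {m k : ℤ} (hr : RHm r m) (ht : RHm t k) :
    RHm (r * t) (m + k) := by
  constructor
  · rw [QuadraticAlgebra.re_mul]
    exact (hr.1.mul ht.1).add
      ((((H6.out (f := f)).neg.mul hr.2).mul ht.2).congr (by ring))
  · rw [QuadraticAlgebra.im_mul, zero_mul, zero_mul, add_zero]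
    exact ((hr.1.mul ht.2).congr (by ring)).add ((hr.2.mul ht.1).congr (by ring))

lemma RHm.sum {κ : Type*} {s : Finset κ} {p : κ → RR f} {m : ℤ} (h : ∀ k ∈ s, RHm (p k) m) :
    RHm (∑ k ∈ s, p k) m := by
  classical
  induction s using Finset.induction_on with
  | empty => simpa using RHm.zero m
  | insert k s hk ih =>
    rw [Finset.sum_insert hk]
    exact (h k (Finset.mem_insert_self k s)).add
      (ih fun j hj => h j (Finset.mem_insert_of_mem hj))

/-- the `R`-linear maps `X → Y` of degree `0` -/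
def gfh (X Y : GF f) : Submodule ℂ (Matrix Y.ι X.ι (RR f)) where
  carrier := {g | ∀ i j, RHm (g i j) (X.deg j - Y.deg i)}
  add_mem' ha hb i j := (ha i j).add (hb i j)
  zero_mem' _ _ := RHm.zero _
  smul_mem' c _ ha i j := (ha i j).csmul c

/-- the category of finitely generated graded free `R`-modules -/
instance instGF (f : Sr) [H6 f] : Category (GF f) where
  Hom X Y := gfh X Y
  id X := ⟨1, fun i j => by
    by_cases h : i = j
    · subst h
      rw [Matrix.one_apply_eq]
      exact RHm.one.congr (by ring)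
    · rw [Matrix.one_apply_ne h]
      exact RHm.zero _⟩
  comp a b := ⟨b.1 * a.1, fun i j => by
    rw [Matrix.mul_apply]
    exact RHm.sum fun k _ => ((b.2 i k).mul (a.2 k j)).congr (by ring)⟩
  id_comp a := Subtype.ext (Matrix.mul_one _)
  comp_id a := Subtype.ext (Matrix.one_mul _)
  assoc a b c := Subtype.ext (Matrix.mul_assoc _ _ _).symm

variable [H6 f]

instance (X Y : GF f) : AddCommGroup (X ⟶ Y) := inferInstanceAs (AddCommGroup (gfh X Y))

instance (X Y : GF f) : Module ℂ (X ⟶ Y) := inferInstanceAs (Module ℂ (gfh X Y))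

/-- the matrix of a map -/
def mat {X Y : GF f} (a : X ⟶ Y) : Matrix Y.ι X.ι (RR f) := a.1

/-- the map with a given matrix -/
def ofm {X Y : GF f} (g : Matrix Y.ι X.ι (RR f)) (h : ∀ i j, RHm (g i j) (X.deg j - Y.deg i)) :
    X ⟶ Y := ⟨g, h⟩

lemma gf_ext {X Y : GF f} {a b : X ⟶ Y} (h : mat a = mat b) : a = b := Subtype.ext h

@[simp] lemma mat_ofm {X Y : GF f} (g : Matrix Y.ι X.ι (RR f))
    (h : ∀ i j, RHm (g i j) (X.deg j - Y.deg i)) : mat (ofm g h : X ⟶ Y) = g := rfl

@[simp] lemma mat_comp {X Y Z : GF f} (a : X ⟶ Y) (b : Y ⟶ Z) : mat (a ≫ b) = mat b * mat a := rfl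

@[simp] lemma mat_id (X : GF f) : mat (𝟙 X) = 1 := rfl

@[simp] lemma mat_add {X Y : GF f} (a b : X ⟶ Y) : mat (a + b) = mat a + mat b := rfl

@[simp] lemma mat_zero {X Y : GF f} : mat (0 : X ⟶ Y) = 0 := rfl

@[simp] lemma mat_neg {X Y : GF f} (a : X ⟶ Y) : mat (-a) = - mat a := rfl

@[simp] lemma mat_sub {X Y : GF f} (a b : X ⟶ Y) : mat (a - b) = mat a - mat b := rfl

@[simp] lemma mat_smul {X Y : GF f} (c : ℂ) (a : X ⟶ Y) : mat (c • a) = c • mat a := rfl

lemma mat_hom {X Y : GF f} (a : X ⟶ Y) (i : Y.ι) (j : X.ι) :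
    RHm (mat a i j) (X.deg j - Y.deg i) := a.2 i j

instance instGFPre : Preadditive (GF f) where
  add_comp X Y Z a b c := by
    apply gf_ext
    rw [mat_comp, mat_add, mat_add, mat_comp, mat_comp, Matrix.mul_add]
  comp_add X Y Z a b c := by
    apply gf_ext
    rw [mat_comp, mat_add, mat_add, mat_comp, mat_comp, Matrix.add_mul]

instance instGFLin : Linear ℂ (GF f) where
  smul_comp X Y Z r a b := by
    apply gf_ext
    rw [mat_comp, mat_smul, mat_smul, mat_comp, Matrix.mul_smul]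
  comp_smul X Y Z a r b := by
    apply gf_ext
    rw [mat_comp, mat_smul, mat_smul, mat_comp, Matrix.smul_mul]

/-- the zero module -/
abbrev GF.zero (f : Sr) : GF f := ⟨Empty, fun _ => 0⟩

instance instGFZero : HasZeroObject (GF f) :=
  ⟨GF.zero f, ⟨fun Y => ⟨⟨⟨0⟩, fun a => gf_ext (Matrix.ext fun i j => Empty.elim j)⟩⟩,
    fun Y => ⟨⟨⟨0⟩, fun a => gf_ext (Matrix.ext fun i j => Empty.elim i)⟩⟩⟩⟩

/-- the direct sum -/
abbrev GF.sum (X Y : GF f) : GF f := ⟨X.ι ⊕ Y.ι, Sum.elim X.deg Y.deg⟩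

/-- the identity block -/
lemma one_hom (X : GF f) (i j : X.ι) : RHm ((1 : Matrix X.ι X.ι (RR f)) i j)
    (X.deg j - X.deg i) := (𝟙 X : X ⟶ X).2 i j

/-- the biproduct structure of the direct sum -/
def GF.bic (X Y : GF f) : BinaryBicone X Y where
  pt := X.sum Y
  fst := ofm (Matrix.fromCols 1 0) (by
    rintro i (j | j)
    · exact one_hom X i j
    · exact RHm.zero _)
  snd := ofm (Matrix.fromCols 0 1) (by
    rintro i (j | j)
    · exact RHm.zero _
    · exact one_hom Y i j)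
  inl := ofm (Matrix.fromRows 1 0) (by
    rintro (i | i) j
    · exact one_hom X i j
    · exact RHm.zero _)
  inr := ofm (Matrix.fromRows 0 1) (by
    rintro (i | i) j
    · exact RHm.zero _
    · exact one_hom Y i j)
  inl_fst := gf_ext (by
    show Matrix.fromCols (1 : Matrix X.ι X.ι (RR f)) 0 * Matrix.fromRows 1 0 = 1
    rw [Matrix.fromCols_mul_fromRows]; simp)
  inl_snd := gf_ext (by
    show Matrix.fromCols (0 : Matrix Y.ι X.ι (RR f)) 1 * Matrix.fromRows 1 0 = 0
    rw [Matrix.fromCols_mul_fromRows]; simp)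
  inr_fst := gf_ext (by
    show Matrix.fromCols (1 : Matrix X.ι X.ι (RR f)) 0 * Matrix.fromRows 0 1 = 0
    rw [Matrix.fromCols_mul_fromRows]; simp)
  inr_snd := gf_ext (by
    show Matrix.fromCols (0 : Matrix Y.ι X.ι (RR f)) 1 * Matrix.fromRows 0 1 = 1
    rw [Matrix.fromCols_mul_fromRows]; simp)

lemma bic_total {α β R : Type} [Fintype α] [Fintype β] [DecidableEq α] [DecidableEq β]
    [CommRing R] (a : Matrix (α ⊕ β) α R) (b : Matrix α (α ⊕ β) R) (c : Matrix (α ⊕ β) β R)
    (d : Matrix β (α ⊕ β) R) (ha : a = Matrix.fromRows 1 0) (hb : b = Matrix.fromCols 1 0)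
    (hc : c = Matrix.fromRows 0 1) (hd : d = Matrix.fromCols 0 1) :
    a * b + c * d = (1 : Matrix (α ⊕ β) (α ⊕ β) R) := by
  subst ha hb hc hd
  rw [Matrix.fromRows_mul, Matrix.fromRows_mul, Matrix.one_mul, Matrix.zero_mul,
    Matrix.one_mul, Matrix.zero_mul]
  refine Matrix.ext fun i j => ?_
  rcases i with i | i <;> rcases j with j | j <;> simp [Matrix.one_apply]

instance instGFBip : HasBinaryBiproducts (GF f) where
  has_binary_biproduct X Y := HasBinaryBiproduct.mk
    ⟨GF.bic X Y, isBinaryBilimitOfTotal _ (gf_ext (bic_total _ _ _ _ rfl rfl rfl rfl))⟩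

/-- the free module `R(m)`, generated in degree `- m` -/
abbrev GF.tw (f : Sr) (m : ℤ) : GF f := ⟨Unit, fun _ => -m⟩

end Pool.Agent.VDC
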