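import Pool.Agent.VDC.Defs

/-!
# Veronese double cones as schemes
-/

set_option autoImplicit false

open MvPolynomial CategoryTheory AlgebraicGeometry

noncomputable section

namespace Pool.Agent.VDC

/-- The homogeneous coordinate ring `R = S[z] / (z ^ 2 + f) = S ⊕ S z`: the element `⟨a, b⟩` is
`a + b z`, and `z ^ 2 = - f`. -/
abbrev RR (f : Sr) : Type := QuadraticAlgebra Sr (-f) 0

/-- The homogeneous elements of degree `n` (the degree of `z` is `3`). -/
def grd (f : Sr) (n : ℕ) : Submodule ℂ (RR f) where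
  carrier := {r | Hmg r.re n ∧ Hmg r.im ((n : ℤ) - 3)}
  add_mem' ha hb := ⟨ha.1.add hb.1, ha.2.add hb.2⟩
  zero_mem' := ⟨Hmg.zero _, Hmg.zero _⟩
  smul_mem' c _ ha := ⟨ha.1.csmul c, ha.2.csmul c⟩

/-- The `ℂ`-scheme `Proj R`, for a homogeneous `f` of degree `6` (so that `grd f` is a grading
of `R`). -/
def YY (f : Sr) [GradedAlgebra (grd f)] : Over (Spec (.of ℂ)) :=
  Over.mk (Proj.toSpecZero (grd f) ≫ Spec.map (CommRingCat.ofHom (algebraMap ℂ (grd f 0))))

end Pool.Agent.VDC
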