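import Pool.Agent.VDC.T2

/-!
# VDC: the main theorem from the targets
-/

set_option autoImplicit false

open MvPolynomial CategoryTheory

noncomputable section

namespace Pool.Agent.VDC

/-- categorical Torelli, in terms of the equations -/
theorem main_of (hKA : T_KA) (hXE : T_XE) (hKT : T_KT) (hKKE : T_KKE) (hNRM : T_NRM)
    (hFIN : T_FIN) (hALG : T_ALG) (f f' : Sr) (hf : IsVDC f) (hf' : IsVDC f')
    (h : Nonempty (ExactEquiv f f')) :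
    ∃ (g : (Fin 3 → ℂ) ≃ₗ[ℂ] (Fin 3 → ℂ)) (lam : ℂ), lam ≠ 0 ∧
      ∀ v c, eval (vp (g v) (lam * c)) f' = lam ^ 3 * eval (vp v c) f := by
  obtain ⟨h6, ⟨D⟩⟩ := hKA f hf
  obtain ⟨h6', ⟨D'⟩⟩ := hKA f' hf'
  obtain ⟨A⟩ := hXE f hf D
  obtain ⟨A'⟩ := hXE f' hf' D'
  have hK := hKT f D
  have hK' := hKT f' D'
  obtain ⟨E, e0, e2, e4⟩ := hNRM f f' hf hf' h (kk D) (kk D')
    (fun E => hKKE f f' hf hf' E D D')
  obtain ⟨g, lam, hl, hg⟩ := hFIN f f' h6 h6' (kk D) (tg D.kd (-7)) (kk D') (tg D'.kd (-7))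
    hK hK' A A' E e0 e2 e4
  exact ⟨g, lam, hl, hALG f f' hf hf' g lam hl hg⟩

end Pool.Agent.VDC
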