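import Pool.Agent.VDC.T1

/-!
# VDC: boundaries are cycles (T_BZ) (helper24)
-/

set_option autoImplicit false

open MvPolynomial CategoryTheory

noncomputable section

namespace Pool.Agent.VDC

namespace BZ_

theorem mul_mem_right {I : Ideal Sr} {ι κ ν : Type} [Fintype κ] {A : Matrix ι κ Sr}
    (hA : A ∈ IM I ι κ) (B : Matrix κ ν Sr) : A * B ∈ IM I ι ν := by
  intro i j
  rw [Matrix.mul_apply]
  exact I.sum_mem fun k _ => I.mul_mem_right _ (hA i k)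

theorem mul_mem_left {I : Ideal Sr} {ι κ ν : Type} [Fintype κ] (A : Matrix ι κ Sr)
    {B : Matrix κ ν Sr} (hB : B ∈ IM I κ ν) : A * B ∈ IM I ι ν := by
  intro i j
  rw [Matrix.mul_apply]
  exact I.sum_mem fun k _ => I.mul_mem_left _ (hB k j)

theorem zs_mem {I : Ideal Sr} {ι κ : Type} (s : ℤ) {A : Matrix ι κ Sr}
    (hA : A ∈ IM I ι κ) : s • A ∈ IM I ι κ := by
  intro i j
  rw [Matrix.smul_apply]
  exact zsmul_mem (hA i j) s

theorem dd_mem {X Y : PO} {I : Ideal Sr} (s : ℤ) {c : Matrix Y.ι X.ι Sr}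
    (hc : c ∈ IM I Y.ι X.ι) : dd X Y s c ∈ IM I Y.ι X.ι := by
  rw [dd_apply]
  exact (IM I Y.ι X.ι).sub_mem (mul_mem_left _ hc) (zs_mem s (mul_mem_right hc _))

theorem dd_dd {X Y : PO} (f : Sr) {s : ℤ} (hs : s * s = 1) (h : Matrix Y.ι X.ι Sr) :
    dd X Y s (dd X Y (-s) h) =
      (Y.Φ * Y.Φ + f • (1 : Matrix Y.ι Y.ι Sr)) * h -
        h * (X.Φ * X.Φ + f • (1 : Matrix X.ι X.ι Sr)) := by
  rw [dd_apply, dd_apply, Matrix.mul_sub, Matrix.sub_mul, Matrix.mul_smul, Matrix.smul_mul,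
    smul_sub, smul_smul, neg_smul, mul_neg, hs, neg_smul, one_smul, Matrix.add_mul, Matrix.mul_add,
    Matrix.smul_mul, Matrix.one_mul, Matrix.mul_smul, Matrix.mul_one, Matrix.mul_assoc,
    Matrix.mul_assoc, Matrix.mul_assoc]
  abel

end BZ_

theorem p_BZ : T_BZ := by
  rintro f X Y I s ρ hX hY hs a ⟨h1, h2⟩
  refine ⟨h1, ?_⟩
  obtain ⟨b, hb, c, hc, rfl⟩ := Submodule.mem_sup.1 h2
  obtain ⟨h, _, rfl⟩ := hb
  show dd X Y s (dd X Y (-s) h + c) ∈ IM I Y.ι X.ι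
  rw [map_add, BZ_.dd_dd f hs]
  exact (IM I Y.ι X.ι).add_mem ((IM I Y.ι X.ι).sub_mem (BZ_.mul_mem_right hY _)
    (BZ_.mul_mem_left _ hX)) (BZ_.dd_mem s hc)

end Pool.Agent.VDC
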