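import Pool.Agent.VDC.T1

/-!
# VDC-BZF: functionals which are boundaries are cycles
-/

set_option autoImplicit false

open MvPolynomial

namespace Pool.Agent.VDC

namespace BZF_

lemma wd_nonneg (a : Fin 4 →₀ ℕ) : 0 ≤ wd a := by
  unfold wd
  refine Finset.sum_nonneg fun i _ => ?_
  have h : (0 : ℤ) ≤ wt i := by
    fin_cases i <;> simp [wt]
  positivity

lemma eq_zero_of_neg {p : Sr} {m : ℤ} (hp : Hmg p m) (hm : m < 0) : p = 0 := by
  ext a
  rw [coeff_zero]
  by_contra h
  have h1 := hp a h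
  have h2 := wd_nonneg a
  omega

end BZF_

theorem p_BZF : T_BZF := by
  intro f X p n ρ hn γ hγ
  obtain ⟨h1, μ, hμ, h2⟩ := hγ
  refine ⟨h1, fun j hj => ?_⟩
  have key : ∀ i, γ i * eval p (X.Φ i j) =
      (∑ k, μ k * eval p (X.Φ k i)) * eval p (X.Φ i j) := by
    intro i
    by_cases hi : X.deg i + ρ < n
    · rw [h2 i hi]
    · have h3 : X.Φ i j = 0 := BZF_.eq_zero_of_neg (X.hom i j) (by omega)
      rw [h3, map_zero, mul_zero, mul_zero]
  rw [Finset.sum_congr rfl fun i _ => key i]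
  have h4 : ∑ i, (∑ k, μ k * eval p (X.Φ k i)) * eval p (X.Φ i j) =
      ∑ k, μ k * eval p ((X.Φ * X.Φ) k j) := by
    simp only [Finset.sum_mul, Matrix.mul_apply, map_sum, map_mul, Finset.mul_sum]
    rw [Finset.sum_comm]
    simp only [mul_assoc]
  rw [h4, X.sq]
  refine Finset.sum_eq_zero fun k _ => ?_
  rw [Matrix.neg_apply, Matrix.smul_apply, smul_eq_mul]
  by_cases hk : k = j
  · subst hk
    have h5 : μ k = 0 := by
      by_contra h6
      have h7 := (hμ k h6).1
      omega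
    rw [h5, zero_mul]
  · rw [Matrix.one_apply_ne hk, mul_zero, neg_zero, map_zero, mul_zero]

end Pool.Agent.VDC
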