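import Pool.Agent.VDC.T3
import Pool.Agent.VDC.P_CMP

/-!
# VDC: the grading of the coordinate ring
-/

set_option autoImplicit false

open MvPolynomial

noncomputable section

namespace Pool.Agent.VDC

namespace GRD_

theorem graded (f : Sr) (hf : Hmg f 6) : SetLike.GradedMonoid (grd f) where
  one_mem := ⟨by
      show Hmg ((1 : RR f).re) ((0 : ℕ) : ℤ)
      exact Hmg.one.congr (by simp), by
      show Hmg ((1 : RR f).im) _
      exact Hmg.zero _⟩
  mul_mem := by
    rintro i j x y ⟨hx1, hx2⟩ ⟨hy1, hy2⟩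
    refine ⟨?_, ?_⟩
    · rw [QuadraticAlgebra.re_mul]
      refine Hmg.add ((hx1.mul hy1).congr (by push_cast; ring)) ?_
      exact ((hf.neg.mul hx2).mul hy2).congr (by push_cast; ring)
    · rw [QuadraticAlgebra.im_mul]
      refine Hmg.add (Hmg.add ((hx1.mul hy2).congr (by push_cast; ring))
        ((hx2.mul hy1).congr (by push_cast; ring))) ?_
      rw [zero_mul, zero_mul]
      exact Hmg.zero _

/-- the projection to the part of degree `n` -/
def prj (f : Sr) (n : ℕ) : RR f →ₗ[ℂ] RR f where
  toFun r := ⟨cmp n r.re, cmp ((n : ℤ) - 3) r.im⟩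
  map_add' x y := by
    refine QuadraticAlgebra.ext ?_ ?_
    · exact map_add (weightedHomogeneousComponent wt (n : ℤ)) x.re y.re
    · exact map_add (weightedHomogeneousComponent wt ((n : ℤ) - 3)) x.im y.im
  map_smul' c x := by
    refine QuadraticAlgebra.ext ?_ ?_
    · exact map_smul (weightedHomogeneousComponent wt (n : ℤ)) c x.re
    · exact map_smul (weightedHomogeneousComponent wt ((n : ℤ) - 3)) c x.im

theorem prj_same {f : Sr} {n : ℕ} {r : RR f} (hr : r ∈ grd f n) : prj f n r = r :=
  QuadraticAlgebra.ext (p_CMP.2.1 _ _ hr.1) (p_CMP.2.1 _ _ hr.2)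

theorem prj_ne {f : Sr} {n m : ℕ} {r : RR f} (hr : r ∈ grd f m) (h : n ≠ m) :
    prj f n r = 0 :=
  QuadraticAlgebra.ext (p_CMP.2.2.1 _ _ _ hr.1 (by exact_mod_cast h))
    (p_CMP.2.2.1 _ _ _ hr.2 (by omega))

theorem prj_coe (f : Sr) (n : ℕ) (p : DirectSum ℕ fun n => grd f n) :
    prj f n (DirectSum.coeLinearMap (grd f) p) = (p n : RR f) := by
  classical
  induction p using DirectSum.induction_on with
  | zero => simp
  | of m x =>
    rw [DirectSum.coeLinearMap_of]
    by_cases h : n = m
    · subst h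
      rw [prj_same x.2, DirectSum.of_eq_same]
    · rw [prj_ne x.2 h, DirectSum.of_eq_of_ne _ _ _ h]
      rfl
  | add p q hp hq =>
    rw [map_add, map_add, hp, hq, DirectSum.add_apply]
    rfl

theorem wd_nonneg (a : Fin 4 →₀ ℕ) : 0 ≤ wd a := by
  refine Finset.sum_nonneg fun i _ => ?_
  refine mul_nonneg ?_ (by positivity)
  fin_cases i <;> simp [wt]

theorem hmg_monomial (a : Fin 4 →₀ ℕ) (c : ℂ) : Hmg (monomial a c) (wd a) := by
  classical
  intro b hb
  rw [coeff_monomial] at hb
  by_contra h
  exact hb (if_neg fun h2 => h (by rw [h2]))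

/-- `p ↦ p + 0 z` -/
def inl (f : Sr) : Sr →ₗ[ℂ] RR f where
  toFun p := ⟨p, 0⟩
  map_add' _ _ := QuadraticAlgebra.ext rfl (add_zero (0 : Sr)).symm
  map_smul' c _ := QuadraticAlgebra.ext rfl (smul_zero c).symm

/-- `p ↦ 0 + p z` -/
def inr (f : Sr) : Sr →ₗ[ℂ] RR f where
  toFun p := ⟨0, p⟩
  map_add' _ _ := QuadraticAlgebra.ext (add_zero (0 : Sr)).symm rfl
  map_smul' c _ := QuadraticAlgebra.ext (smul_zero c).symm rfl

theorem mem_range {f : Sr} {n : ℕ} {r : RR f} (hr : r ∈ grd f n) :
    r ∈ LinearMap.range (DirectSum.coeLinearMap (grd f)) := by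
  classical
  exact ⟨DirectSum.of (fun n => grd f n) n ⟨r, hr⟩, DirectSum.coeLinearMap_of _ _ _⟩

theorem internal (f : Sr) : DirectSum.IsInternal (grd f) := by
  constructor
  · rw [injective_iff_map_eq_zero]
    intro p hp
    have hp' : DirectSum.coeLinearMap (grd f) p = 0 := hp
    refine DirectSum.ext fun n => Subtype.ext ?_
    have h1 := prj_coe f n p
    rw [hp', map_zero] at h1
    exact h1.symm
  · intro r
    have h1 : ∀ p : Sr, inl f p ∈ LinearMap.range (DirectSum.coeLinearMap (grd f)) := by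
      intro p
      rw [← support_sum_monomial_coeff p, map_sum]
      refine Submodule.sum_mem _ fun a _ => ?_
      refine mem_range (n := (wd a).toNat) ⟨?_, Hmg.zero _⟩
      exact (hmg_monomial a _).congr (Int.toNat_of_nonneg (wd_nonneg a)).symm
    have h2 : ∀ p : Sr, inr f p ∈ LinearMap.range (DirectSum.coeLinearMap (grd f)) := by
      intro p
      rw [← support_sum_monomial_coeff p, map_sum]
      refine Submodule.sum_mem _ fun a _ => ?_
      refine mem_range (n := (wd a).toNat + 3) ⟨Hmg.zero _, ?_⟩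
      refine (hmg_monomial a _).congr ?_
      have := Int.toNat_of_nonneg (wd_nonneg a)
      push_cast
      omega
    have h3 : r = inl f r.re + inr f r.im := by
      refine QuadraticAlgebra.ext ?_ ?_
      · show r.re = r.re + 0
        rw [add_zero]
      · show r.im = 0 + r.im
        rw [zero_add]
    have h4 : r ∈ LinearMap.range (DirectSum.coeLinearMap (grd f)) := by
      rw [h3]
      exact Submodule.add_mem _ (h1 _) (h2 _)
    obtain ⟨p, hp⟩ := h4
    exact ⟨p, hp⟩

end GRD_

open GRD_ in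
theorem p_GRD : T_GRD := by
  intro f hf
  exact ⟨{ toGradedMonoid := graded f hf, toDecomposition := (internal f).chooseDecomposition _ }⟩

end Pool.Agent.VDC

end
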