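import Pool.Agent.VDC.T1

/-!
# VDC: graded maps vanish in small degrees
-/

set_option autoImplicit false

open MvPolynomial

noncomputable section

namespace Pool.Agent.VDC

namespace HVAN_

lemma wt_nonneg (i : Fin 4) : 0 ≤ wt i := by
  fin_cases i <;> simp [wt]

lemma wd_nonneg (a : Fin 4 →₀ ℕ) : 0 ≤ wd a :=
  Finset.sum_nonneg fun i _ => mul_nonneg (wt_nonneg i) (Int.natCast_nonneg _)

lemma hmg_neg {p : Sr} {m : ℤ} (hp : Hmg p m) (hm : m < 0) : p = 0 := by
  ext a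
  rw [coeff_zero]
  by_contra h
  have h1 := hp a h
  have h2 := wd_nonneg a
  omega

end HVAN_

theorem p_HVAN : T_HVAN := by
  intro X Y
  refine ⟨-1 - ∑ j, |X.deg j| - ∑ i, |Y.deg i|, fun ρ hρ => ?_⟩
  rw [eq_bot_iff]
  intro g hg
  rw [Submodule.mem_bot]
  ext1 i j
  have h1 : |X.deg j| ≤ ∑ j, |X.deg j| :=
    Finset.single_le_sum (f := fun j => |X.deg j|) (fun _ _ => abs_nonneg _) (Finset.mem_univ j)
  have h2 : |Y.deg i| ≤ ∑ i, |Y.deg i| :=
    Finset.single_le_sum (f := fun i => |Y.deg i|) (fun _ _ => abs_nonneg _) (Finset.mem_univ i)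
  have h3 := le_abs_self (X.deg j)
  have h4 := neg_abs_le (Y.deg i)
  refine HVAN_.hmg_neg (hg i j) ?_
  linarith

end Pool.Agent.VDC
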