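import Pool.Agent.VDC.T2

/-!
# VDC-KT: properties of `k`
-/

set_option autoImplicit false

open MvPolynomial CategoryTheory

noncomputable section

namespace Pool.Agent.VDC

namespace KT_

/-! ### null homotopies on Koszul objects -/

lemma one_hmg {ι : Type} [DecidableEq ι] (i j : ι) (m : ℤ) (h : i = j → m = 0) :
    Hmg ((1 : Matrix ι ι Sr) i j) m := by
  by_cases hij : i = j
  · subst hij
    rw [Matrix.one_apply_eq]
    exact Hmg.one.congr (h rfl).symm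
  · rw [Matrix.one_apply_ne hij]
    exact Hmg.zero _

lemma nh_new (Y : PO) (l a : Sr) (e : ℤ) (hl : Hmg l e) (ha : Hmg a (6 - e)) :
    NH (TT Y l a e hl ha) l e := by
  refine ⟨Matrix.fromBlocks 0 1 0 0, ?_, ?_⟩
  · rintro (i | i) (j | j)
    · exact Hmg.zero _
    · exact one_hmg i j _ (by
        rintro rfl
        show (Y.deg i + 3 - e) + (e - 3) - Y.deg i = 0
        ring)
    · exact Hmg.zero _
    · exact Hmg.zero _
  · show Matrix.fromBlocks Y.Φ (a • 1) (l • 1) (-Y.Φ) * Matrix.fromBlocks 0 1 0 0 +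
      Matrix.fromBlocks 0 1 0 0 * Matrix.fromBlocks Y.Φ (a • 1) (l • 1) (-Y.Φ) =
      l • (1 : Matrix (Y.ι ⊕ Y.ι) (Y.ι ⊕ Y.ι) Sr)
    rw [Matrix.fromBlocks_multiply, Matrix.fromBlocks_multiply, Matrix.fromBlocks_add,
      ← Matrix.fromBlocks_one, Matrix.fromBlocks_smul]
    simp

lemma nh_old (Y : PO) (l a : Sr) (e : ℤ) (hl : Hmg l e) (ha : Hmg a (6 - e)) (h : Sr) (d : ℤ)
    (hY : NH Y h d) : NH (TT Y l a e hl ha) h d := by
  obtain ⟨t, ht, h1⟩ := hY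
  refine ⟨Matrix.fromBlocks t 0 0 (-t), ?_, ?_⟩
  · rintro (i | i) (j | j)
    · exact ht i j
    · exact Hmg.zero _
    · exact Hmg.zero _
    · exact (ht i j).neg.congr (by
        show _ = (Y.deg j + 3 - e) + (d - 3) - (Y.deg i + 3 - e)
        ring)
  · show Matrix.fromBlocks Y.Φ (a • 1) (l • 1) (-Y.Φ) * Matrix.fromBlocks t 0 0 (-t) +
      Matrix.fromBlocks t 0 0 (-t) * Matrix.fromBlocks Y.Φ (a • 1) (l • 1) (-Y.Φ) =
      h • (1 : Matrix (Y.ι ⊕ Y.ι) (Y.ι ⊕ Y.ι) Sr)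
    rw [Matrix.fromBlocks_multiply, Matrix.fromBlocks_multiply, Matrix.fromBlocks_add,
      ← Matrix.fromBlocks_one, Matrix.fromBlocks_smul]
    congr 1 <;> simp [h1]

/-! ### constant coefficients -/

lemma red_TT (Y : PO) (l a : Sr) (e : ℤ) (hl : Hmg l e) (ha : Hmg a (6 - e))
    (h0 : coeff 0 l = 0) (h1 : coeff 0 a = 0) (hY : ∀ i j, coeff 0 (Y.Φ i j) = 0) :
    ∀ i j, coeff 0 ((TT Y l a e hl ha).Φ i j) = 0 := by
  have key : ∀ (q : Sr) (i j : Y.ι), coeff 0 q = 0 →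
      coeff 0 ((q • (1 : Matrix Y.ι Y.ι Sr)) i j) = 0 := by
    intro q i j hq
    rw [Matrix.smul_apply, smul_eq_mul, ← constantCoeff_eq, map_mul, constantCoeff_eq, hq,
      zero_mul]
  rintro (i | i) (j | j)
  · exact hY i j
  · exact key a i j h1
  · exact key l i j h0
  · show coeff 0 (-(Y.Φ i j)) = 0
    rw [coeff_neg, hY i j, neg_zero]

lemma coeff0 {p : Sr} {m : ℤ} (hp : Hmg p m) (hm : m ≠ 0) : coeff 0 p = 0 := by
  by_contra h
  apply hm
  rw [← hp 0 h]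
  simp [wd]

lemma eval0 (p : Sr) : eval (0 : Fin 4 → ℂ) p = coeff 0 p := by
  rw [eval_zero, constantCoeff_eq]

/-! ### the abstract part -/

variable {f : Sr} {K : CM f} {o : K.ι}

lemma pull0 (ρ : ℤ) (g : Matrix K.ι K.ι Sr) (j : K.ι) :
    pull K.toPO K.toPO 0 1 ρ (Pi.single o 1) g j =
      if K.deg j + ρ < 1 then coeff 0 (g o j) else 0 := by
  unfold pull
  split_ifs
  · rw [Finset.sum_eq_single o]
    · rw [Pi.single_eq_same, one_mul, eval0]
    · intro b _ hb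
      rw [Pi.single_eq_of_ne hb, zero_mul]
    · intro h
      exact absurd (Finset.mem_univ o) h
  · rfl

lemma bnd (red : ∀ i j, coeff 0 (K.Φ i j) = 0) (s ρ : ℤ) (g : Matrix K.ι K.ι Sr)
    (hg : g ∈ Bc K.toPO K.toPO ⊥ s ρ) (i j : K.ι) : coeff 0 (g i j) = 0 := by
  obtain ⟨-, h2⟩ := hg
  obtain ⟨u, hu, c, hc, huc⟩ := Submodule.mem_sup.1 h2
  obtain ⟨h, -, rfl⟩ := hu
  have hc0 : c i j = 0 := (Ideal.mem_bot).1 (hc i j)
  rw [← huc, Matrix.add_apply, hc0, add_zero, dd_apply, Matrix.sub_apply, Matrix.smul_apply,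
    coeff_sub, coeff_smul, Matrix.mul_apply, Matrix.mul_apply, ← constantCoeff_eq, map_sum,
    map_sum]
  have e1 : ∀ k, constantCoeff (K.Φ i k * h k j) = 0 := fun k => by
    rw [map_mul, constantCoeff_eq, red, zero_mul]
  have e2 : ∀ k, constantCoeff (h i k * K.Φ k j) = 0 := fun k => by
    rw [map_mul, constantCoeff_eq, red, mul_zero]
  simp [e1, e2]

lemma abs_inj (rp : ∀ p, Rp K p 1 0 (Pi.single o 1)) (red : ∀ i j, coeff 0 (K.Φ i j) = 0)
    (s ρ : ℤ) (hs : s * s = 1) (g : Matrix K.ι K.ι Sr) (hg : g ∈ Zc K.toPO K.toPO ⊥ s ρ) :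
    (g ∈ Bc K.toPO K.toPO ⊥ s ρ ↔ ∀ j, coeff 0 (g o j) = 0) := by
  constructor
  · intro h j
    exact bnd red s ρ g h o j
  · intro h
    have h1 := (rp 0).inj K s ρ hs g (by rwa [sub_zero])
    rw [sub_zero] at h1
    apply h1
    have h2 : pull K.toPO K.toPO 0 1 ρ (Pi.single o 1) g = 0 := by
      funext j
      rw [pull0, h j]
      simp
    rw [h2]
    exact zero_mem _

lemma abs_surj (rp : ∀ p, Rp K p 1 0 (Pi.single o 1)) (red : ∀ i j, coeff 0 (K.Φ i j) = 0)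
    (dg : K.deg o = 0) (s ρ : ℤ) (hs : s * s = 1) (γ : K.ι → ℂ)
    (hγ : ∀ j, γ j ≠ 0 → K.deg j + ρ = 0) :
    ∃ g ∈ Zc K.toPO K.toPO ⊥ s ρ, ∀ j, coeff 0 (g o j) = γ j := by
  have h1 : γ ∈ ZF K.toPO 0 1 ρ := by
    refine ⟨fun i hi => ?_, fun j _ => ?_⟩
    · have := hγ i hi
      omega
    · apply Finset.sum_eq_zero
      intro i _
      rw [eval0, red, mul_zero]
  obtain ⟨g, hg, h2⟩ := (rp 0).surj K s ρ hs γ h1
  rw [sub_zero] at hg
  refine ⟨g, hg, fun j => ?_⟩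
  obtain ⟨h3, μ, -, h4⟩ := h2
  by_cases hj : K.deg j + ρ < 1
  · have h5 := h4 j hj
    have h6 : ∑ i, μ i * eval (0 : Fin 4 → ℂ) (K.Φ i j) = 0 := by
      apply Finset.sum_eq_zero
      intro i _
      rw [eval0, red, mul_zero]
    rw [h6, Pi.sub_apply, pull0, if_pos hj, sub_eq_zero] at h5
    exact h5.symm
  · have h5 : γ j = 0 := by
      by_contra h
      have := hγ j h
      omega
    have h6 := hg.1 o j
    rw [dg, sub_zero] at h6
    rw [h5]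
    exact coeff0 h6 (by omega)

end KT_

open KT_ in
theorem p_KT (h1 : T_R1) : T_KT := by
  intro f D
  have rp : ∀ p, Rp (kk D) p 1 0 (Pi.single (tg D.kd (-7)) 1) := fun p => h1 f D p
  have a0 : ∀ i, coeff 0 (D.kd.a i) = 0 := fun i =>
    coeff0 (D.ha i) (by fin_cases i <;> simp [wt])
  have l0 : ∀ i, coeff 0 (D.kd.l i) = 0 := fun i => coeff_zero_X i
  have red : ∀ i j, coeff 0 ((kk D).Φ i j) = 0 := by
    refine red_TT _ _ _ _ (D.kd.hl 0) (D.kd.ha 0) (l0 0) (a0 0) ?_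
    refine red_TT _ _ _ _ (D.kd.hl 3) (D.kd.ha 3) (l0 3) (a0 3) ?_
    refine red_TT _ _ _ _ (D.kd.hl 2) (D.kd.ha 2) (l0 2) (a0 2) ?_
    refine red_TT _ _ _ _ (D.kd.hl 1) (D.kd.ha 1) (l0 1) (a0 1) ?_
    intro i j
    exact coeff_zero 0
  have w0 : D.kd.e 0 = 1 := rfl
  have w1 : D.kd.e 1 = 1 := rfl
  have w2 : D.kd.e 2 = 1 := rfl
  have w3 : D.kd.e 3 = 2 := rfl
  have dg : (kk D).deg (tg D.kd (-7)) = 0 := by
    show ((((-7 : ℤ) + 3 - D.kd.e 1) + 3 - D.kd.e 2) + 3 - D.kd.e 3) + 3 - D.kd.e 0 = 0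
    rw [w0, w1, w2, w3]
    norm_num
  have dn : ∀ i, i ≠ tg D.kd (-7) → (kk D).deg i < 0 := by
    intro i hi
    rcases i with i | i <;> rcases i with i | i <;> rcases i with i | i <;> rcases i with i | i <;>
      first
      | exact absurd rfl hi
      | (simp only [Sum.elim_inl, Sum.elim_inr, w0, w1, w2, w3]; norm_num)
  exact
    { rp := rp
      dg := dg
      dn := dn
      red := red
      inj := abs_inj rp red
      surj := abs_surj rp red dg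
      nh := by
        intro i
        have n1 := nh_new (UU (-7)) (D.kd.l 1) (D.kd.a 1) (D.kd.e 1) (D.kd.hl 1) (D.kd.ha 1)
        have n1' := nh_old _ _ _ _ (D.kd.hl 2) (D.kd.ha 2) _ _ n1
        have n1'' := nh_old _ _ _ _ (D.kd.hl 3) (D.kd.ha 3) _ _ n1'
        have n2 := nh_new (TT (UU (-7)) (D.kd.l 1) (D.kd.a 1) (D.kd.e 1) (D.kd.hl 1) (D.kd.ha 1))
          (D.kd.l 2) (D.kd.a 2) (D.kd.e 2) (D.kd.hl 2) (D.kd.ha 2)
        have n2' := nh_old _ _ _ _ (D.kd.hl 3) (D.kd.ha 3) _ _ n2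
        fin_cases i
        · exact nh_new _ _ _ _ (D.kd.hl 0) (D.kd.ha 0)
        · exact nh_old _ _ _ _ (D.kd.hl 0) (D.kd.ha 0) _ _ n1''
        · exact nh_old _ _ _ _ (D.kd.hl 0) (D.kd.ha 0) _ _ n2'
        · exact nh_old _ _ _ _ (D.kd.hl 0) (D.kd.ha 0) _ _
            (nh_new _ _ _ _ (D.kd.hl 3) (D.kd.ha 3)) }

end Pool.Agent.VDC
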