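import Pool.Agent.VDC.T3

set_option autoImplicit false

open MvPolynomial CategoryTheory AlgebraicGeometry HomogeneousIdeal HomogeneousLocalization

noncomputable section

namespace Pool.Agent.VDC

namespace PRJ_

section gen

variable {A B C : Type} [CommRing A] [CommRing B] [CommRing C] [Algebra ℂ A] [Algebra ℂ B]
  [Algebra ℂ C] (𝒜 : ℕ → Submodule ℂ A) (ℬ : ℕ → Submodule ℂ B) [GradedAlgebra 𝒜]
  [GradedAlgebra ℬ]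

/-- the graded ring homomorphism of an isomorphism -/
def gh (e : A ≃ₐ[ℂ] B) (h : ∀ n r, r ∈ 𝒜 n ↔ e r ∈ ℬ n) : GradedRingHom 𝒜 ℬ where
  toRingHom := (e : A →+* B)
  map_mem hx := (h _ _).1 hx

omit [GradedAlgebra 𝒜] [GradedAlgebra ℬ] in
theorem gh_apply (e : A ≃ₐ[ℂ] B) (h : ∀ n r, r ∈ 𝒜 n ↔ e r ∈ ℬ n) (x : A) :
    gh 𝒜 ℬ e h x = e x := rfl

theorem irr (e : A ≃ₐ[ℂ] B) (h : ∀ n r, r ∈ 𝒜 n ↔ e r ∈ ℬ n) :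
    irrelevant ℬ ≤ (irrelevant 𝒜).map (gh 𝒜 ℬ e h) := by
  rw [← toIdeal_le_toIdeal_iff]
  refine (toIdeal_irrelevant_le _).mpr fun i hi x hx => ?_
  have h1 : e.symm x ∈ 𝒜 i := (h i _).2 (by rw [AlgEquiv.apply_symm_apply]; exact hx)
  have h2 : e.symm x ∈ (irrelevant 𝒜).toIdeal := mem_irrelevant_of_mem 𝒜 hi h1
  have h3 := Ideal.mem_map_of_mem (gh 𝒜 ℬ e h) h2
  rw [gh_apply, AlgEquiv.apply_symm_apply] at h3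
  exact h3

omit [GradedAlgebra 𝒜] [GradedAlgebra ℬ] in
theorem symm_iff {e : A ≃ₐ[ℂ] B} (h : ∀ n r, r ∈ 𝒜 n ↔ e r ∈ ℬ n) (n : ℕ) (r : B) :
    r ∈ ℬ n ↔ e.symm r ∈ 𝒜 n := by
  rw [h, AlgEquiv.apply_symm_apply]

theorem comp_id (e : A ≃ₐ[ℂ] B) (h : ∀ n r, r ∈ 𝒜 n ↔ e r ∈ ℬ n) :
    (gh ℬ 𝒜 e.symm (symm_iff 𝒜 ℬ h)).comp (gh 𝒜 ℬ e h) = GradedRingHom.id 𝒜 := by
  refine GradedRingHom.ext fun x => ?_
  exact e.symm_apply_apply x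

/-- the isomorphism of schemes -/
def isoP (e : A ≃ₐ[ℂ] B) (h : ∀ n r, r ∈ 𝒜 n ↔ e r ∈ ℬ n) : Proj ℬ ≅ Proj 𝒜 where
  hom := Proj.map (gh 𝒜 ℬ e h) (irr 𝒜 ℬ e h)
  inv := Proj.map (gh ℬ 𝒜 e.symm (symm_iff 𝒜 ℬ h)) (irr ℬ 𝒜 e.symm (symm_iff 𝒜 ℬ h))
  hom_inv_id := by
    rw [← Proj.map_comp, ← Proj.map_id]
    congr 1
    exact comp_id ℬ 𝒜 e.symm (symm_iff 𝒜 ℬ h)
  inv_hom_id := by
    rw [← Proj.map_comp, ← Proj.map_id]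
    congr 1
    exact comp_id 𝒜 ℬ e h

theorem key (e : A ≃ₐ[ℂ] B) (h : ∀ n r, r ∈ 𝒜 n ↔ e r ∈ ℬ n) {i : ℕ} (hi : 0 < i) (a : A)
    (ha : a ∈ 𝒜 i) :
    Proj.awayι ℬ (gh 𝒜 ℬ e h a) ((gh 𝒜 ℬ e h).2 ha) hi ≫
      Proj.map (gh 𝒜 ℬ e h) (irr 𝒜 ℬ e h) ≫ Proj.toSpecZero 𝒜 ≫
      Spec.map (CommRingCat.ofHom (algebraMap ℂ (𝒜 0))) =
    Proj.awayι ℬ (gh 𝒜 ℬ e h a) ((gh 𝒜 ℬ e h).2 ha) hi ≫
      Proj.toSpecZero ℬ ≫ Spec.map (CommRingCat.ofHom (algebraMap ℂ (ℬ 0))) := by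
  rw [Proj.awayι_comp_map_assoc (gh 𝒜 ℬ e h) (irr 𝒜 ℬ e h) hi a ha,
    Proj.awayι_toSpecZero_assoc, Proj.awayι_toSpecZero_assoc,
    ← Spec.map_comp, ← Spec.map_comp, ← Spec.map_comp, ← CommRingCat.ofHom_comp,
    ← CommRingCat.ofHom_comp, ← CommRingCat.ofHom_comp]
  congr 2
  refine RingHom.ext fun c => ?_
  refine HomogeneousLocalization.val_injective _ ?_
  have hc : Submonoid.powers a ≤
      Submonoid.comap (gh 𝒜 ℬ e h) (Submonoid.powers (gh 𝒜 ℬ e h a)) := by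
    rintro _ ⟨n, rfl⟩
    exact ⟨n, by simp⟩
  change val (HomogeneousLocalization.map (gh 𝒜 ℬ e h) hc
      (HomogeneousLocalization.mk ⟨0, algebraMap ℂ (𝒜 0) c, 1, one_mem _⟩)) =
    val (HomogeneousLocalization.mk ⟨0, algebraMap ℂ (ℬ 0) c, 1, one_mem _⟩)
  rw [map_mk, val_mk, val_mk]
  congr 1
  · exact e.commutes c
  · exact Subtype.ext (map_one e)

theorem str (e : A ≃ₐ[ℂ] B) (h : ∀ n r, r ∈ 𝒜 n ↔ e r ∈ ℬ n) :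
    (isoP 𝒜 ℬ e h).hom ≫ Proj.toSpecZero 𝒜 ≫
      Spec.map (CommRingCat.ofHom (algebraMap ℂ (𝒜 0))) =
    Proj.toSpecZero ℬ ≫ Spec.map (CommRingCat.ofHom (algebraMap ℂ (ℬ 0))) := by
  refine (Proj.mapAffineOpenCover (gh 𝒜 ℬ e h) (irr 𝒜 ℬ e h)).openCover.hom_ext _ _
    fun s => ?_
  exact key 𝒜 ℬ e h s.1.2 s.2.1 s.2.2

end gen

end PRJ_

open PRJ_ in
theorem p_PRJ : T_PRJ := by
  intro f f' _ _ e h
  exact ⟨Over.isoMk (isoP (grd f') (grd f) e h) (str (grd f') (grd f) e h)⟩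

end Pool.Agent.VDC
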