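import Pool.Agent.VDC.T2

/-!
# VDC: TRI, compositions in triangles vanish
-/

set_option autoImplicit false

open MvPolynomial CategoryTheory

noncomputable section

namespace Pool.Agent.VDC

namespace TRI_

lemma cls_comp_eq_zero {f : Sr} {X Y Z : CM f} (a : mor X Y) (b : mor Y Z)
    (h : compM a b ∈ nul X Z) : cls a ≫ cls b = 0 :=
  (Submodule.Quotient.mk_eq_zero _).2 h

lemma one_hom {ι : Type} [DecidableEq ι] (a b : ι → ℤ) (h : ∀ i, a i = b i) (i j : ι) :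
    Hmg ((1 : Matrix ι ι Sr) i j) (a j - b i) := by
  by_cases hij : i = j
  · subst hij
    rw [Matrix.one_apply_eq]
    exact Hmg.one.congr (by rw [h]; ring)
  · rw [Matrix.one_apply_ne hij]
    exact Hmg.zero _

end TRI_

open TRI_

theorem p_TRI : T_TRI := by
  intro f X Y g
  refine ⟨cls_comp_eq_zero _ _ ?_, cls_comp_eq_zero _ _ ?_, cls_comp_eq_zero _ _ ?_⟩
  · refine ⟨(Matrix.fromRows 0 1 : Matrix (Y.ι ⊕ X.ι) X.ι Sr), ?_, ?_⟩
    · rintro (i | i) j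
      · exact Hmg.zero _
      · show Hmg ((1 : Matrix X.ι X.ι Sr) i j) (X.deg j - 3 - (X.deg i - 3))
        exact one_hom (fun i => X.deg i - 3) (fun i => X.deg i - 3) (fun i => rfl) i j
    · show (Matrix.fromRows 1 0 : Matrix (Y.ι ⊕ X.ι) Y.ι Sr) * g.1 =
        Matrix.fromBlocks Y.Φ g.1 0 (-X.Φ) * (Matrix.fromRows 0 1 : Matrix (Y.ι ⊕ X.ι) X.ι Sr) +
          (Matrix.fromRows 0 1 : Matrix (Y.ι ⊕ X.ι) X.ι Sr) * X.Φ
      rw [Matrix.fromBlocks_mul_fromRows, Matrix.fromRows_mul, Matrix.fromRows_mul]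
      ext i j
      rcases i with i | i <;> simp
  · refine ⟨0, fun i j => Hmg.zero _, ?_⟩
    show (Matrix.fromCols 0 1 : Matrix X.ι (Y.ι ⊕ X.ι) Sr) *
      (Matrix.fromRows 1 0 : Matrix (Y.ι ⊕ X.ι) Y.ι Sr) = _
    rw [Matrix.fromCols_mul_fromRows]
    simp
  · refine ⟨(Matrix.fromCols 1 0 : Matrix Y.ι (Y.ι ⊕ X.ι) Sr), ?_, ?_⟩
    · rintro i (j | j)
      · show Hmg ((1 : Matrix Y.ι Y.ι Sr) i j) (Y.deg j - 3 - (Y.deg i - 3))
        exact one_hom (fun i => Y.deg i - 3) (fun i => Y.deg i - 3) (fun i => rfl) i j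
      · exact Hmg.zero _
    · show g.1 * (Matrix.fromCols 0 1 : Matrix X.ι (Y.ι ⊕ X.ι) Sr) =
        (((-1 : ℤˣ) : ℤ) • Y.Φ) * (Matrix.fromCols 1 0 : Matrix Y.ι (Y.ι ⊕ X.ι) Sr) +
          (Matrix.fromCols 1 0 : Matrix Y.ι (Y.ι ⊕ X.ι) Sr) *
            Matrix.fromBlocks Y.Φ g.1 0 (-X.Φ)
      rw [Matrix.fromCols_mul_fromBlocks, Matrix.mul_fromCols, Matrix.mul_fromCols]
      ext i j
      rcases j with j | j <;> simp

end Pool.Agent.VDC
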