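import Pool.Agent.VDC.T2

/-!
# VDC: WK (weak kernel of the projection)
-/

set_option autoImplicit false

open MvPolynomial CategoryTheory

noncomputable section

namespace Pool.Agent.VDC

/-- weak kernel of the projection -/
theorem p_WK : T_WK := by
  intro f X Y Z g w hw
  obtain ⟨w0, rfl⟩ := Submodule.mkQ_surjective _ w
  have hw' : compM w0 (projM g) ∈ nul Z (tw 3 (-1) X) :=
    (Submodule.Quotient.mk_eq_zero _).1 hw
  obtain ⟨h, hdeg, hh⟩ := hw'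
  obtain ⟨w0, hwd, hwc⟩ := w0
  obtain ⟨g, hgd, hgc⟩ := g
  -- the two blocks of w0
  set w1 : Matrix Y.ι Z.ι Sr := Matrix.toRows₁ w0 with hw1
  set w2 : Matrix X.ι Z.ι Sr := Matrix.toRows₂ w0 with hw2
  have hw12 : w0 = Matrix.fromRows w1 w2 := (Matrix.fromRows_toRows w0).symm
  have hp : w2 = (((-1 : ℤˣ) : ℤ) • X.Φ) * h + h * Z.Φ := by
    have h1 : (Matrix.fromCols 0 1 : Matrix X.ι (Y.ι ⊕ X.ι) Sr) * w0 =
        (((-1 : ℤˣ) : ℤ) • X.Φ) * h + h * Z.Φ := hh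
    rw [hw12, Matrix.fromCols_mul_fromRows, Matrix.zero_mul, Matrix.one_mul, zero_add] at h1
    exact h1
  have hp' : w2 = -(X.Φ * h) + h * Z.Φ := by
    rw [hp]
    simp
  have hc : Y.Φ * w1 + g * w2 = w1 * Z.Φ := by
    have h1 : Matrix.fromBlocks Y.Φ g 0 (-X.Φ) * w0 = w0 * Z.Φ := hwc
    rw [hw12, Matrix.fromBlocks_mul_fromRows, Matrix.fromRows_mul] at h1
    exact (Matrix.fromRows_ext_iff _ _ _ _).1 h1 |>.1
  have hgc' : Y.Φ * g = g * X.Φ := hgc
  let k0 : mor Z Y := ⟨w1 - g * h, by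
    refine ⟨fun i j => ?_, ?_⟩
    · refine Hmg.sub (hwd (Sum.inl i) j) ?_
      rw [Matrix.mul_apply]
      exact Hmg.sum fun k _ => ((hgd i k).mul (hdeg k j)).congr
        (by show X.deg k - Y.deg i + (Z.deg j - 3 - (X.deg k - 3)) = Z.deg j - Y.deg i; ring)
    · rw [Matrix.mul_sub, Matrix.sub_mul, ← hc, hp', ← Matrix.mul_assoc, hgc', Matrix.mul_add,
        Matrix.mul_neg, Matrix.mul_assoc, Matrix.mul_assoc]
      abel⟩
  refine ⟨cls k0, ?_⟩
  have key : (⟨w0, hwd, hwc⟩ : mor Z (cone ⟨g, hgd, hgc⟩)) - compM k0 (inclM ⟨g, hgd, hgc⟩) ∈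
      nul Z (cone ⟨g, hgd, hgc⟩) := by
    refine ⟨Matrix.fromRows 0 h, ?_, ?_⟩
    · rintro (i | i) j
      · exact Hmg.zero _
      · exact hdeg i j
    · show w0 - (Matrix.fromRows 1 0 : Matrix (Y.ι ⊕ X.ι) Y.ι Sr) * (w1 - g * h) =
        Matrix.fromBlocks Y.Φ g 0 (-X.Φ) * Matrix.fromRows 0 h + Matrix.fromRows 0 h * Z.Φ
      rw [Matrix.fromBlocks_mul_fromRows, Matrix.fromRows_mul, Matrix.fromRows_mul, hw12]
      ext i j
      rcases i with i | i
      · simp [Matrix.sub_apply, Matrix.add_apply]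
      · simp [Matrix.sub_apply, Matrix.add_apply, hp']
  exact (Submodule.Quotient.eq _).2 key

end Pool.Agent.VDC
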