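import Mathlib

/-!
# VDC: Serre duality for matrix factorisations, algebraic part

`Φ`, `Ψ` are square matrices over a commutative ring with `Φ² = - f`, `Ψ² = - f`. A matrix `a` with
`Ψ a = ε a Φ` (`ε = ± 1`) is closed of type `ε`, and `DD ε h = Ψ h + ε h Φ` is exact of type `ε`.
The elements `s i` act by homotopies `lam i`, `Φ lam i + lam i Φ = s i`, and every `s i` is a
non zero divisor modulo the ideals generated by other `s j`.
-/

set_option autoImplicit false

namespace Pool.Agent.VDC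

variable {S : Type} [CommRing S]

section basic

variable {ι κ μ : Type} [Fintype ι] [Fintype κ] [Fintype μ]

/-- all entries lie in the ideal -/
def InM {ι κ : Type} (J : Ideal S) (h : Matrix κ ι S) : Prop := ∀ i j, h i j ∈ J

omit [Fintype ι] [Fintype κ] in
lemma InM.zero (J : Ideal S) : InM J (0 : Matrix κ ι S) := fun _ _ => J.zero_mem

omit [Fintype ι] [Fintype κ] in
lemma InM.add {J : Ideal S} {h h' : Matrix κ ι S} (a : InM J h) (b : InM J h') :
    InM J (h + h') := fun i j => J.add_mem (a i j) (b i j)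

omit [Fintype ι] [Fintype κ] in
lemma InM.sub {J : Ideal S} {h h' : Matrix κ ι S} (a : InM J h) (b : InM J h') :
    InM J (h - h') := fun i j => J.sub_mem (a i j) (b i j)

omit [Fintype ι] [Fintype κ] in
lemma InM.neg {J : Ideal S} {h : Matrix κ ι S} (a : InM J h) : InM J (-h) :=
  fun i j => J.neg_mem (a i j)

omit [Fintype ι] [Fintype κ] in
lemma InM.smul {J : Ideal S} {h : Matrix κ ι S} (a : InM J h) (c : S) : InM J (c • h) :=
  fun i j => J.mul_mem_left _ (a i j)

omit [Fintype ι] [Fintype κ] in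
lemma InM.smul_mem {J : Ideal S} {c : S} (hc : c ∈ J) (h : Matrix κ ι S) : InM J (c • h) :=
  fun i j => J.mul_mem_right _ hc

omit [Fintype ι] [Fintype κ] in
lemma InM.mono {J J' : Ideal S} (hJ : J ≤ J') {h : Matrix κ ι S} (a : InM J h) : InM J' h :=
  fun i j => hJ (a i j)

omit [Fintype ι] [Fintype μ] in
lemma InM.mul_left {J : Ideal S} (A : Matrix μ κ S) {h : Matrix κ ι S} (a : InM J h) :
    InM J (A * h) := by
  intro i j
  rw [Matrix.mul_apply]
  exact J.sum_mem fun k _ => J.mul_mem_left _ (a k j)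

omit [Fintype κ] [Fintype μ] in
lemma InM.mul_right {J : Ideal S} {h : Matrix κ ι S} (a : InM J h) (A : Matrix ι μ S) :
    InM J (h * A) := by
  intro i j
  rw [Matrix.mul_apply]
  exact J.sum_mem fun k _ => J.mul_mem_right _ (a i k)

lemma InM.trace {J : Ideal S} {h : Matrix ι ι S} (a : InM J h) : h.trace ∈ J :=
  J.sum_mem fun i _ => a i i

/-- exact elements -/
def DD (ε : S) (Ψ : Matrix κ κ S) (Φ : Matrix ι ι S) (h : Matrix κ ι S) : Matrix κ ι S :=
  Ψ * h + ε • (h * Φ)

lemma DD_add (ε : S) (Ψ : Matrix κ κ S) (Φ : Matrix ι ι S) (h h' : Matrix κ ι S) :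
    DD ε Ψ Φ (h + h') = DD ε Ψ Φ h + DD ε Ψ Φ h' := by
  unfold DD
  rw [Matrix.mul_add, Matrix.add_mul, smul_add]
  abel

lemma DD_sub (ε : S) (Ψ : Matrix κ κ S) (Φ : Matrix ι ι S) (h h' : Matrix κ ι S) :
    DD ε Ψ Φ (h - h') = DD ε Ψ Φ h - DD ε Ψ Φ h' := by
  unfold DD
  rw [Matrix.mul_sub, Matrix.sub_mul, smul_sub]
  abel

lemma DD_smul (ε : S) (Ψ : Matrix κ κ S) (Φ : Matrix ι ι S) (c : S) (h : Matrix κ ι S) :
    DD ε Ψ Φ (c • h) = c • DD ε Ψ Φ h := by
  unfold DD
  rw [Matrix.mul_smul, Matrix.smul_mul, smul_add, smul_comm ε c]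

lemma InM.DD {J : Ideal S} (ε : S) (Ψ : Matrix κ κ S) (Φ : Matrix ι ι S) {h : Matrix κ ι S}
    (a : InM J h) : InM J (DD ε Ψ Φ h) :=
  (a.mul_left Ψ).add ((a.mul_right Φ).smul ε)

variable [DecidableEq ι] [DecidableEq κ]

/-- exact elements are closed -/
lemma DD_DD {f ε : S} (hε : ε * ε = 1) {Ψ : Matrix κ κ S} {Φ : Matrix ι ι S}
    (hΨ : Ψ * Ψ = -(f • (1 : Matrix κ κ S))) (hΦ : Φ * Φ = -(f • (1 : Matrix ι ι S)))
    (h : Matrix κ ι S) : DD (-ε) Ψ Φ (DD ε Ψ Φ h) = 0 := by
  unfold DD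
  rw [Matrix.mul_add, ← Matrix.mul_assoc, hΨ, Matrix.mul_smul, Matrix.add_mul, Matrix.smul_mul,
    Matrix.mul_assoc h Φ Φ, hΦ, smul_add, smul_smul, neg_mul, hε, Matrix.neg_mul, Matrix.smul_mul,
    Matrix.one_mul, Matrix.mul_neg, Matrix.mul_smul, Matrix.mul_one, Matrix.mul_assoc Ψ h Φ]
  simp

/-- the homotopy -/
lemma DD_homotopy (ε : S) {s : S} {Ψ lam : Matrix κ κ S} (Φ : Matrix ι ι S)
    (hl : Ψ * lam + lam * Ψ = s • (1 : Matrix κ κ S)) (h : Matrix κ ι S) :
    DD ε Ψ Φ (lam * h) + lam * DD (-ε) Ψ Φ h = s • h := by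
  have h1 : s • h = (Ψ * lam + lam * Ψ) * h := by
    rw [hl, Matrix.smul_mul, Matrix.one_mul]
  rw [h1]
  unfold DD
  rw [Matrix.mul_add, Matrix.add_mul, Matrix.mul_smul, Matrix.mul_assoc lam h Φ,
    Matrix.mul_assoc Ψ lam h, Matrix.mul_assoc lam Ψ h, neg_smul]
  abel

end basic

section sequence

variable {m : ℕ} (s : Fin m → S)

/-- the ideal generated by some elements of the sequence -/
def JJ (K : Set (Fin m)) : Ideal S := Ideal.span (s '' K)

/-- every element of the sequence is a non zero divisor modulo the ideals generated by other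
elements -/
def Reg : Prop := ∀ (K : Set (Fin m)) (i : Fin m), i ∉ K → ∀ z, s i * z ∈ JJ s K → z ∈ JJ s K

lemma mem_JJ {K : Set (Fin m)} {i : Fin m} (hi : i ∈ K) : s i ∈ JJ s K :=
  Ideal.subset_span ⟨i, hi, rfl⟩

lemma JJ_mono {K K' : Set (Fin m)} (h : K ⊆ K') : JJ s K ≤ JJ s K' :=
  Ideal.span_mono (Set.image_mono h)

lemma JJ_insert (K : Set (Fin m)) (i : Fin m) {z : S} (hz : z ∈ JJ s (insert i K)) :
    ∃ x, z - s i * x ∈ JJ s K := by
  unfold JJ at hz
  rw [Set.image_insert_eq, Ideal.mem_span_insert] at hz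
  obtain ⟨a, y, hy, rfl⟩ := hz
  refine ⟨a, ?_⟩
  have : a * s i + y - s i * a = y := by ring
  rw [this]
  exact hy

lemma JJ_insertM {ι κ : Type} (K : Set (Fin m)) (i : Fin m) {h : Matrix κ ι S}
    (hh : InM (JJ s (insert i K)) h) : ∃ x : Matrix κ ι S, InM (JJ s K) (h - s i • x) := by
  choose x hx using fun a b => JJ_insert s K i (hh a b)
  exact ⟨Matrix.of fun a b => x a b, fun a b => hx a b⟩

variable {s}

lemma Reg.mat (hs : Reg s) {ι κ : Type} {K : Set (Fin m)} {i : Fin m} (hi : i ∉ K)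
    {h : Matrix κ ι S} (hh : InM (JJ s K) (s i • h)) : InM (JJ s K) h :=
  fun a b => hs K i hi _ (hh a b)

variable {ι κ : Type} [Fintype ι] [DecidableEq ι] [Fintype κ] [DecidableEq κ]

/-- products of homotopies anticommute with `Φ` -/
lemma prod_comm {Φ : Matrix ι ι S} {lam : Fin m → Matrix ι ι S}
    (hl : ∀ i, Φ * lam i + lam i * Φ = s i • (1 : Matrix ι ι S)) (L : List (Fin m)) :
    InM (JJ s {j | j ∈ L}) (Φ * (L.map lam).prod - (-1 : S) ^ L.length • ((L.map lam).prod * Φ)) := by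
  induction L with
  | nil =>
    simp only [List.map_nil, List.prod_nil, List.length_nil, pow_zero, one_smul, mul_one, one_mul,
      sub_self]
    exact InM.zero _
  | cons k L ih =>
    have h1 : Φ * ((k :: L).map lam).prod -
        (-1 : S) ^ (k :: L).length • (((k :: L).map lam).prod * Φ) =
        s k • (L.map lam).prod -
          lam k * (Φ * (L.map lam).prod - (-1 : S) ^ L.length • ((L.map lam).prod * Φ)) := by
      have h2 : s k • (L.map lam).prod = (Φ * lam k + lam k * Φ) * (L.map lam).prod := by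
        rw [hl, Matrix.smul_mul, Matrix.one_mul]
      rw [h2]
      simp only [List.map_cons, List.prod_cons, List.length_cons, pow_succ, mul_neg, mul_one,
        neg_smul, mul_sub, add_mul, mul_smul_comm, mul_assoc]
      abel
    rw [h1]
    refine InM.sub ?_ ?_
    · exact InM.smul_mem (mem_JJ s (by simp)) _
    · exact (ih.mono (JJ_mono s (fun j hj => List.mem_cons_of_mem k hj))).mul_left _

/-- traces of elements that anticommute with `Φ` modulo an ideal -/
lemma trace_mem (hs : Reg s) {Φ lam e : Matrix ι ι S} {K : Set (Fin m)} {i : Fin m} (hi : i ∉ K)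
    (hl : Φ * lam + lam * Φ = s i • (1 : Matrix ι ι S)) (he : InM (JJ s K) (Φ * e + e * Φ)) :
    e.trace ∈ JJ s K := by
  apply hs K i hi
  have h1 : s i * e.trace = (lam * (Φ * e + e * Φ)).trace := by
    have h2 : s i * e.trace = ((Φ * lam + lam * Φ) * e).trace := by
      rw [hl, Matrix.smul_mul, Matrix.one_mul, Matrix.trace_smul, smul_eq_mul]
    rw [h2, Matrix.add_mul, Matrix.mul_add, Matrix.trace_add, Matrix.trace_add, Matrix.mul_assoc,
      Matrix.trace_mul_comm Φ, Matrix.mul_assoc, Matrix.mul_assoc, add_comm]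
  rw [h1]
  exact (he.mul_left _).trace

end sequence

end Pool.Agent.VDC
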