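import Pool.Agent.VDC.SDa

/-!
# VDC: Serre duality for matrix factorisations, the two inductions
-/

set_option autoImplicit false

namespace Pool.Agent.VDC

variable {S : Type} [CommRing S] {m : ℕ} {s : Fin m → S} {ι κ : Type} [Fintype ι]
  [DecidableEq ι] [Fintype κ] [DecidableEq κ]

lemma initial_zero : {j : Fin m | (j : ℕ) < 0} = ∅ := by
  ext j
  simp

lemma initial_succ {k : ℕ} (hk : k < m) :
    {j : Fin m | (j : ℕ) < k + 1} = insert ⟨k, hk⟩ {j : Fin m | (j : ℕ) < k} := by
  ext j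
  simp only [Set.mem_ofPred_eq, Set.mem_insert_iff, Fin.ext_iff]
  omega

lemma InM_empty {h : Matrix κ ι S} (hh : InM (JJ s (∅ : Set (Fin m))) h) : h = 0 := by
  ext i j
  have := hh i j
  unfold JJ at this
  rw [Set.image_empty, Ideal.span_empty] at this
  simpa using this

/-- one step of the correction of a cycle modulo an ideal -/
lemma correct (hs : Reg s) {f η : S} (hη : η * η = 1) {Ψ : Matrix κ κ S} {Φ : Matrix ι ι S}
    (hΨ : Ψ * Ψ = -(f • (1 : Matrix κ κ S))) (hΦ : Φ * Φ = -(f • (1 : Matrix ι ι S)))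
    {K : Set (Fin m)} {k : Fin m} (hk : k ∉ K) {lam : Matrix κ κ S}
    (hl : Ψ * lam + lam * Ψ = s k • (1 : Matrix κ κ S)) {v z : Matrix κ ι S}
    (hz : InM (JJ s K) (DD η Ψ Φ v - s k • z)) :
    InM (JJ s K) (DD (-η) Ψ Φ z) ∧ InM (JJ s K) (DD η Ψ Φ (v - lam * z)) := by
  have h1 := InM.DD (-η) Ψ Φ hz
  rw [DD_sub, DD_DD hη hΨ hΦ, DD_smul, zero_sub] at h1
  have h2 : InM (JJ s K) (DD (-η) Ψ Φ z) := by
    refine hs.mat hk ?_
    have := h1.neg
    rwa [neg_neg] at this
  refine ⟨h2, ?_⟩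
  have h3 := DD_homotopy η Φ hl z
  have h4 : DD η Ψ Φ (v - lam * z) = (DD η Ψ Φ v - s k • z) + lam * DD (-η) Ψ Φ z := by
    rw [DD_sub, ← h3]
    abel
  rw [h4]
  exact hz.add (h2.mul_left _)

/-- first induction: vanishing of the pairing with all elements that are closed modulo the
ideal -/
theorem pairing_van (hs : Reg s) {f ε : S} (hε : ε * ε = 1) {Ψ : Matrix κ κ S}
    {Φ : Matrix ι ι S} (hΨ : Ψ * Ψ = -(f • (1 : Matrix κ κ S)))
    (hΦ : Φ * Φ = -(f • (1 : Matrix ι ι S))) {lam : Fin m → Matrix ι ι S}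
    (hl : ∀ i, Φ * lam i + lam i * Φ = s i • (1 : Matrix ι ι S)) {a : Matrix κ ι S}
    (ha : DD (-ε) Ψ Φ a = 0) {A : Type} [AddCommGroup A] (res : S →+ A)
    (hres : ∀ z ∈ JJ s Set.univ, res z = 0)
    (hyp : ∀ L : List (Fin m), L.Pairwise (· > ·) → (∀ i, i ∈ L) → ∀ b : Matrix ι κ S,
      DD (ε * (-1) ^ m) Φ Ψ b = 0 → res ((L.map lam).prod * b * a).trace = 0) (k : ℕ)
    (hk : k ≤ m) : ∀ L : List (Fin m), L.Pairwise (· > ·) → (∀ j ∈ L, k ≤ (j : ℕ)) →
    ∀ v : Matrix ι κ S, InM (JJ s {j | (j : ℕ) < k}) (DD (ε * (-1) ^ L.length) Φ Ψ v) →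
    res ((L.map lam).prod * v * a).trace = 0 := by
  induction k with
  | zero =>
    intro L hL _ v hv
    rw [initial_zero] at hv
    have hv0 := InM_empty hv
    by_cases hall : ∀ i, i ∈ L
    · have hlen : L.length = m := by
        have h1 : L.Nodup := hL.imp (fun h => ne_of_gt h)
        have h2 : L.toFinset = Finset.univ := by
          ext i
          simp [hall i]
        have h3 := List.toFinset_card_of_nodup h1
        rw [h2, Finset.card_univ, Fintype.card_fin] at h3
        exact h3.symm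
      rw [hlen] at hv0
      exact hyp L hL hall v hv0
    · push Not at hall
      obtain ⟨i, hi⟩ := hall
      apply hres
      have hle : JJ s {j | j ∈ L} ≤ JJ s Set.univ := JJ_mono s (Set.subset_univ _)
      apply hle
      refine trace_mem hs (K := {j | j ∈ L}) (i := i) hi (hl i) ?_
      have h1 := (prod_comm hl L).mul_right (v * a)
      have h2 : Φ * v = -((ε * (-1) ^ L.length) • (v * Ψ)) := by
        have := hv0
        unfold DD at this
        exact eq_neg_of_add_eq_zero_left this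
      have h3 : Ψ * a = ε • (a * Φ) := by
        have := ha
        unfold DD at this
        rw [neg_smul, ← sub_eq_add_neg] at this
        exact sub_eq_zero.1 this
      have h5 : ((-1 : S) ^ L.length) * (-1) ^ L.length = 1 := by
        rw [← mul_pow]
        simp
      have h6 : (-1 : S) ^ L.length • ((L.map lam).prod * Φ) * (v * a) =
          -((L.map lam).prod * v * a * Φ) := by
        rw [Matrix.smul_mul, Matrix.mul_assoc, ← Matrix.mul_assoc Φ v a, h2, Matrix.neg_mul,
          Matrix.smul_mul, Matrix.mul_assoc v Ψ a, h3, Matrix.mul_smul, smul_smul,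
          Matrix.mul_neg, Matrix.mul_smul, smul_neg, smul_smul]
        have h7 : (-1 : S) ^ L.length * (ε * (-1) ^ L.length * ε) = 1 := by
          calc (-1 : S) ^ L.length * (ε * (-1) ^ L.length * ε) =
              (ε * ε) * (((-1 : S) ^ L.length) * (-1) ^ L.length) := by ring
            _ = 1 := by rw [hε, h5, one_mul]
        rw [h7, one_smul]
        simp only [Matrix.mul_assoc]
      rw [Matrix.sub_mul, h6, sub_neg_eq_add] at h1
      have h8 : Φ * ((L.map lam).prod * v * a) = Φ * (L.map lam).prod * (v * a) := by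
        simp only [Matrix.mul_assoc]
      rw [h8]
      exact h1
  | succ k ih =>
    intro L hL hLk v hv
    have hkm : k < m := hk
    rw [initial_succ hkm] at hv
    obtain ⟨z, hz⟩ := JJ_insertM s _ _ hv
    have hη : ε * (-1) ^ L.length * (ε * (-1) ^ L.length) = 1 := by
      calc ε * (-1) ^ L.length * (ε * (-1) ^ L.length) = (ε * ε) * ((-1) * (-1)) ^ L.length := by
            rw [mul_pow]
            ring
        _ = 1 := by rw [hε]; simp
    have hkK : (⟨k, hkm⟩ : Fin m) ∉ {j : Fin m | (j : ℕ) < k} := by simp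
    obtain ⟨h1, h2⟩ := correct hs hη hΦ hΨ hkK (hl ⟨k, hkm⟩) hz
    have h3 := ih hkm.le L hL (fun j hj => (Nat.le_succ k).trans (hLk j hj)) _ h2
    have h4 := ih hkm.le (L ++ [⟨k, hkm⟩]) (by
      rw [List.pairwise_append]
      refine ⟨hL, List.pairwise_singleton _ _, fun x hx y hy => ?_⟩
      rw [List.mem_singleton] at hy
      rw [hy, gt_iff_lt, Fin.lt_def]
      exact hLk x hx) (by
      intro j hj
      rw [List.mem_append, List.mem_singleton] at hj
      rcases hj with hj | rfl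
      · exact (Nat.le_succ k).trans (hLk j hj)
      · exact le_rfl) z (by
      rw [List.length_append, List.length_singleton, pow_succ, mul_neg, mul_one, mul_neg]
      exact h1)
    rw [List.map_append, List.prod_append, List.map_singleton, List.prod_singleton] at h4
    have h5 : (L.map lam).prod * v * a = (L.map lam).prod * (v - lam ⟨k, hkm⟩ * z) * a +
        (L.map lam).prod * lam ⟨k, hkm⟩ * z * a := by
      rw [Matrix.mul_sub, Matrix.sub_mul]
      simp only [Matrix.mul_assoc]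
      abel
    rw [h5, Matrix.trace_add, map_add, h3, h4, add_zero]

/-- second induction: exactness modulo the ideal implies exactness -/
theorem exact_lift (hs : Reg s) {f ε : S} (hε : ε * ε = 1) {Ψ : Matrix κ κ S}
    {Φ : Matrix ι ι S} (hΨ : Ψ * Ψ = -(f • (1 : Matrix κ κ S)))
    (hΦ : Φ * Φ = -(f • (1 : Matrix ι ι S))) {lam : Fin m → Matrix κ κ S}
    (hl : ∀ i, Ψ * lam i + lam i * Ψ = s i • (1 : Matrix κ κ S)) {a : Matrix κ ι S}
    (ha : DD (-ε) Ψ Φ a = 0) (k : ℕ) (hk : k ≤ m) (h : Matrix κ ι S)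
    (hh : InM (JJ s {j | (j : ℕ) < k}) (a - DD ε Ψ Φ h)) :
    ∃ h' : Matrix κ ι S, a = DD ε Ψ Φ h' := by
  induction k generalizing h with
  | zero =>
    rw [initial_zero] at hh
    exact ⟨h, sub_eq_zero.1 (InM_empty hh)⟩
  | succ k ih =>
    have hkm : k < m := hk
    rw [initial_succ hkm] at hh
    obtain ⟨e, he⟩ := JJ_insertM s _ _ hh
    have hkK : (⟨k, hkm⟩ : Fin m) ∉ {j : Fin m | (j : ℕ) < k} := by simp
    have h1 := InM.DD (-ε) Ψ Φ he
    rw [DD_sub, DD_sub, ha, DD_DD hε hΨ hΦ, DD_smul, sub_zero, zero_sub] at h1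
    have h2 : InM (JJ s {j : Fin m | (j : ℕ) < k}) (DD (-ε) Ψ Φ e) := by
      refine hs.mat hkK ?_
      have := h1.neg
      rwa [neg_neg] at this
    refine ih hkm.le (h + lam ⟨k, hkm⟩ * e) ?_
    have h3 := DD_homotopy ε Φ (hl ⟨k, hkm⟩) e
    have h4 : a - DD ε Ψ Φ (h + lam ⟨k, hkm⟩ * e) =
        (a - DD ε Ψ Φ h - s ⟨k, hkm⟩ • e) + lam ⟨k, hkm⟩ * DD (-ε) Ψ Φ e := by
      rw [DD_add, ← h3]
      abel
    rw [h4]
    exact he.add (h2.mul_left _)

end Pool.Agent.VDC
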