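import Pool.Agent.VDC.SDb

/-!
# VDC: Serre duality for matrix factorisations over polynomial rings

The residue with respect to the powers `X i ^ N` of the variables is the coefficient of the
monomial `∏ X i ^ (N - 1)`.
-/

set_option autoImplicit false

open MvPolynomial

namespace Pool.Agent.VDC

noncomputable section

variable {k : Type} [Field k] {m : ℕ}

/-- the powers of the variables -/
def sq (k : Type) [Field k] (m N : ℕ) (i : Fin m) : MvPolynomial (Fin m) k := X i ^ N

/-- the largest exponent -/
def topm (m N : ℕ) : Fin m →₀ ℕ := Finsupp.equivFunOnFinite.symm fun _ => N - 1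

lemma topm_apply (N : ℕ) (i : Fin m) : topm m N i = N - 1 := rfl

lemma mem_JJ_iff (N : ℕ) (K : Set (Fin m)) (z : MvPolynomial (Fin m) k) :
    z ∈ JJ (sq k m N) K ↔ ∀ μ ∈ z.support, ∃ i ∈ K, N ≤ μ i := by
  have h1 : sq k m N '' K =
      (fun μ : Fin m →₀ ℕ => monomial μ (1 : k)) '' ((fun i => Finsupp.single i N) '' K) := by
    rw [Set.image_image]
    refine Set.image_congr fun i _ => ?_
    exact X_pow_eq_monomial
  unfold JJ
  rw [h1, mem_ideal_span_monomial_image]
  refine forall₂_congr fun μ _ => ?_
  constructor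
  · rintro ⟨_, ⟨i, hi, rfl⟩, h⟩
    exact ⟨i, hi, by simpa using h i⟩
  · rintro ⟨i, hi, h⟩
    refine ⟨_, ⟨i, hi, rfl⟩, ?_⟩
    exact Finsupp.single_le_iff.2 h

theorem reg_sq (N : ℕ) : Reg (sq k m N) := by
  intro K i hi z hz
  rw [mem_JJ_iff] at hz ⊢
  intro μ hμ
  have h1 : Finsupp.single i N + μ ∈ (sq k m N i * z).support := by
    rw [mem_support_iff]
    unfold sq
    rw [X_pow_eq_monomial, coeff_monomial_mul, one_mul]
    exact mem_support_iff.1 hμ
  obtain ⟨j, hj, h2⟩ := hz _ h1
  refine ⟨j, hj, ?_⟩
  have hji : i ≠ j := by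
    rintro rfl
    exact hi hj
  rw [Finsupp.add_apply, Finsupp.single_eq_of_ne hji.symm, zero_add] at h2
  exact h2

/-- the residue -/
def res (k : Type) [Field k] (m N : ℕ) : MvPolynomial (Fin m) k →ₗ[k] k where
  toFun z := coeff (topm m N) z
  map_add' x y := coeff_add _ x y
  map_smul' c x := coeff_smul _ c x

lemma res_apply (N : ℕ) (z : MvPolynomial (Fin m) k) : res k m N z = coeff (topm m N) z := rfl

lemma res_JJ {N : ℕ} (hN : 1 ≤ N) {z : MvPolynomial (Fin m) k}
    (hz : z ∈ JJ (sq k m N) Set.univ) : res k m N z = 0 := by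
  by_contra h
  rw [mem_JJ_iff] at hz
  obtain ⟨i, _, hi⟩ := hz (topm m N) (mem_support_iff.2 h)
  rw [topm_apply] at hi
  omega

/-- the residue pairing is nondegenerate -/
lemma mem_JJ_of_res {N : ℕ} (z : MvPolynomial (Fin m) k)
    (hz : ∀ y, res k m N (z * y) = 0) : z ∈ JJ (sq k m N) Set.univ := by
  rw [mem_JJ_iff]
  intro μ hμ
  by_contra hcon
  push Not at hcon
  have hle : μ ≤ topm m N := by
    intro i
    have := hcon i (Set.mem_univ i)
    rw [topm_apply]
    omega
  have h1 := hz (monomial (topm m N - μ) 1)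
  rw [res_apply, mul_comm, coeff_monomial_mul', if_pos tsub_le_self,
    tsub_tsub_cancel_of_le hle, one_mul] at h1
  exact mem_support_iff.1 hμ h1

/-- functionals that vanish on the ideal are given by the residue pairing -/
lemma exists_of_functional {N : ℕ} (ψ : MvPolynomial (Fin m) k →ₗ[k] k)
    (hψ : ∀ z ∈ JJ (sq k m N) Set.univ, ψ z = 0) :
    ∃ w : MvPolynomial (Fin m) k, ∀ z, res k m N (w * z) = ψ z := by
  classical
  refine ⟨∑ μ ∈ Finset.Icc 0 (topm m N), monomial (topm m N - μ) (ψ (monomial μ 1)), ?_⟩
  intro z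
  induction z using MvPolynomial.induction_on' with
  | monomial ν c =>
    rw [res_apply, Finset.sum_mul, coeff_sum]
    by_cases hν : ν ≤ topm m N
    · rw [Finset.sum_eq_single ν]
      · rw [monomial_mul, tsub_add_cancel_of_le hν, coeff_monomial, if_pos rfl]
        have : (monomial ν c : MvPolynomial (Fin m) k) = c • monomial ν 1 := by
          rw [smul_monomial, smul_eq_mul, mul_one]
        rw [this, map_smul, smul_eq_mul, mul_comm]
      · intro μ hμ hne
        rw [monomial_mul, coeff_monomial, if_neg]
        intro h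
        apply hne
        have hμ' := (Finset.mem_Icc.1 hμ).2
        have h1 : topm m N - μ + ν = topm m N - μ + μ := by
          rw [h, tsub_add_cancel_of_le hμ']
        exact (add_left_cancel h1).symm
      · intro h
        exact absurd (Finset.mem_Icc.2 ⟨zero_le, hν⟩) h
    · rw [Finset.sum_eq_zero]
      · symm
        apply hψ
        rw [mem_JJ_iff]
        intro μ hμ
        have h1 : μ = ν := by
          have := support_monomial_subset hμ
          simpa using this
        subst h1
        by_contra hcon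
        push Not at hcon
        apply hν
        intro i
        have := hcon i (Set.mem_univ i)
        rw [topm_apply]
        omega
      · intro μ hμ
        rw [monomial_mul, coeff_monomial, if_neg]
        intro h
        apply hν
        rw [← h]
        exact le_add_self
  | add p q hp hq =>
    rw [mul_add, map_add, map_add, hp, hq]

variable {ι κ : Type} [Fintype ι] [DecidableEq ι] [Fintype κ] [DecidableEq κ]

lemma trace_single (y : Matrix ι κ (MvPolynomial (Fin m) k)) (i : ι) (j : κ)
    (z : MvPolynomial (Fin m) k) : (y * Matrix.single j i z).trace = y i j * z := by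
  rw [Matrix.trace_mul_comm, Matrix.trace_single_mul, smul_eq_mul, mul_comm]

/-- Serre duality: a closed matrix that is orthogonal to all closed matrices is exact -/
theorem exact_of_orthogonal {N : ℕ} (hN : 1 ≤ N) {f ε : MvPolynomial (Fin m) k}
    (hε : ε * ε = 1) {Ψ : Matrix κ κ (MvPolynomial (Fin m) k)}
    {Φ : Matrix ι ι (MvPolynomial (Fin m) k)} (hΨ : Ψ * Ψ = -(f • 1)) (hΦ : Φ * Φ = -(f • 1))
    {lam : Fin m → Matrix ι ι (MvPolynomial (Fin m) k)}
    (hl : ∀ i, Φ * lam i + lam i * Φ = sq k m N i • 1)
    {lam' : Fin m → Matrix κ κ (MvPolynomial (Fin m) k)}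
    (hl' : ∀ i, Ψ * lam' i + lam' i * Ψ = sq k m N i • 1)
    {a : Matrix κ ι (MvPolynomial (Fin m) k)} (ha : DD (-ε) Ψ Φ a = 0)
    (hyp : ∀ L : List (Fin m), L.Pairwise (· > ·) → (∀ i, i ∈ L) →
      ∀ b : Matrix ι κ (MvPolynomial (Fin m) k), DD (ε * (-1) ^ m) Φ Ψ b = 0 →
      res k m N ((L.map lam).prod * b * a).trace = 0) :
    ∃ h, a = DD ε Ψ Φ h := by
  have huniv : {j : Fin m | (j : ℕ) < m} = Set.univ := by
    ext j
    simp
  let U : Submodule k (Matrix κ ι (MvPolynomial (Fin m) k)) :=
    { carrier := {h | ∃ h₀, InM (JJ (sq k m N) Set.univ) (h - DD ε Ψ Φ h₀)}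
      zero_mem' := by
        refine ⟨0, ?_⟩
        have : DD ε Ψ Φ (0 : Matrix κ ι (MvPolynomial (Fin m) k)) = 0 := by
          simp [DD]
        rw [this, sub_zero]
        exact InM.zero _
      add_mem' := by
        rintro x y ⟨hx, h1⟩ ⟨hy, h2⟩
        refine ⟨hx + hy, ?_⟩
        rw [DD_add, add_sub_add_comm]
        exact h1.add h2
      smul_mem' := by
        rintro c x ⟨hx, h1⟩
        refine ⟨(C c : MvPolynomial (Fin m) k) • hx, ?_⟩
        have h2 : c • x = (C c : MvPolynomial (Fin m) k) • x := by
          ext1 i j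
          simp [smul_eq_C_mul]
        rw [DD_smul, h2, ← smul_sub]
        exact h1.smul _ }
  by_cases haU : a ∈ U
  · obtain ⟨h₀, h1⟩ := haU
    rw [← huniv] at h1
    exact exact_lift (reg_sq N) hε hΨ hΦ hl' ha m le_rfl h₀ h1
  · exfalso
    obtain ⟨φ, hφa, hφU⟩ := Submodule.exists_dual_map_eq_bot_of_notMem haU inferInstance
    have hφU' : ∀ h ∈ U, φ h = 0 := by
      intro h hh
      have : φ h ∈ U.map φ := Submodule.mem_map_of_mem hh
      rwa [hφU, Submodule.mem_bot] at this
    have hψ : ∀ (j : κ) (i : ι), ∃ w : MvPolynomial (Fin m) k, ∀ z,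
        res k m N (w * z) = φ (Matrix.single j i z) := by
      intro j i
      refine exists_of_functional (φ ∘ₗ
        (Matrix.singleLinearMap k j i : MvPolynomial (Fin m) k →ₗ[k] _)) ?_
      intro z hz
      change φ (Matrix.single j i z) = 0
      apply hφU'
      refine ⟨0, ?_⟩
      have h0 : DD ε Ψ Φ (0 : Matrix κ ι (MvPolynomial (Fin m) k)) = 0 := by
        simp [DD]
      rw [h0, sub_zero]
      intro j' i'
      by_cases h : j = j' ∧ i = i'
      · rw [Matrix.single_apply, if_pos h]
        exact hz
      · rw [Matrix.single_apply, if_neg h]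
        exact Ideal.zero_mem _
    choose w hw using hψ
    let v : Matrix ι κ (MvPolynomial (Fin m) k) := Matrix.of fun i j => w j i
    have hv : ∀ h : Matrix κ ι (MvPolynomial (Fin m) k), res k m N (v * h).trace = φ h := by
      intro h
      have h1 : φ h = ∑ j, ∑ i, φ (Matrix.single j i (h j i)) := by
        conv_lhs => rw [Matrix.matrix_eq_sum_single h]
        rw [map_sum]
        refine Finset.sum_congr rfl fun j _ => ?_
        rw [map_sum]
      have h2 : (v * h).trace = ∑ i, ∑ j, w j i * h j i := by
        rw [Matrix.trace]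
        refine Finset.sum_congr rfl fun i _ => ?_
        rw [Matrix.diag_apply, Matrix.mul_apply]
        rfl
      rw [h1, h2, map_sum, Finset.sum_comm]
      refine Finset.sum_congr rfl fun i _ => ?_
      rw [map_sum]
      exact Finset.sum_congr rfl fun j _ => hw j i (h j i)
    have hclosed : InM (JJ (sq k m N) Set.univ) (DD ε Φ Ψ v) := by
      intro i j
      apply mem_JJ_of_res
      intro y
      rw [← trace_single]
      have h1 : φ (DD ε Ψ Φ (Matrix.single j i (ε * y))) = 0 := by
        apply hφU'
        refine ⟨Matrix.single j i (ε * y), ?_⟩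
        rw [sub_self]
        exact InM.zero _
      rw [← hv] at h1
      have h2 : (v * DD ε Ψ Φ (Matrix.single j i (ε * y))).trace =
          (DD ε Φ Ψ v * Matrix.single j i y).trace := by
        have h3 : Matrix.single j i (ε * y) = ε • Matrix.single j i y := by
          rw [Matrix.smul_single, smul_eq_mul]
        rw [h3]
        unfold DD
        rw [Matrix.mul_add, Matrix.add_mul, Matrix.trace_add, Matrix.trace_add, Matrix.mul_smul,
          Matrix.mul_smul, Matrix.smul_mul, smul_smul, hε, one_smul, Matrix.smul_mul,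
          Matrix.trace_smul, ← Matrix.mul_assoc, ← Matrix.mul_assoc,
          Matrix.trace_mul_comm _ Φ, ← Matrix.mul_assoc, Matrix.trace_smul, add_comm]
      rw [← h2]
      exact h1
    have h3 := pairing_van (reg_sq N) hε hΨ hΦ hl ha (res k m N).toAddMonoidHom
      (fun z hz => res_JJ hN hz) hyp m le_rfl [] List.Pairwise.nil (by simp) v (by
        rw [huniv]
        simpa using hclosed)
    apply hφa
    rw [← hv]
    simpa using h3

end

end Pool.Agent.VDC
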