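import Pool.Agent.VDC.SDc

/-!
# VDC: the homotopies from the partial derivatives, cyclicity of the trace
-/

set_option autoImplicit false

open MvPolynomial

namespace Pool.Agent.VDC

noncomputable section

variable {k : Type} [Field k] {m : ℕ} {ι κ μ : Type} [Fintype ι] [DecidableEq ι] [Fintype κ]
  [DecidableEq κ] [Fintype μ]

/-- partial derivative of a matrix -/
def pd {ι κ : Type} (j : Fin m) (A : Matrix κ ι (MvPolynomial (Fin m) k)) :
    Matrix κ ι (MvPolynomial (Fin m) k) := A.map (pderiv j)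

omit [DecidableEq ι] [Fintype κ] [DecidableEq κ] [Fintype μ] in
lemma pd_mul (j : Fin m) (A : Matrix κ ι (MvPolynomial (Fin m) k))
    (B : Matrix ι μ (MvPolynomial (Fin m) k)) : pd j (A * B) = pd j A * B + A * pd j B := by
  ext1 a b
  simp only [pd, Matrix.map_apply, Matrix.mul_apply, Matrix.add_apply, map_sum, Derivation.leibniz,
    smul_eq_mul, Finset.sum_add_distrib]
  rw [add_comm]
  congr 1
  exact Finset.sum_congr rfl fun _ _ => mul_comm _ _

omit [Fintype ι] [DecidableEq ι] [Fintype κ] [DecidableEq κ] in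
lemma pd_smul (j : Fin m) (c : MvPolynomial (Fin m) k) (hc : pderiv j c = 0)
    (A : Matrix κ ι (MvPolynomial (Fin m) k)) : pd j (c • A) = c • pd j A := by
  ext1 a b
  simp [pd, Derivation.leibniz, hc]

/-- the homotopies -/
def lamD (α : Fin m → Fin m → MvPolynomial (Fin m) k) (Φ : Matrix ι ι (MvPolynomial (Fin m) k))
    (i : Fin m) : Matrix ι ι (MvPolynomial (Fin m) k) := -∑ j, α i j • pd j Φ

lemma pd_sq {f : MvPolynomial (Fin m) k} {Φ : Matrix ι ι (MvPolynomial (Fin m) k)}
    (hΦ : Φ * Φ = -(f • 1)) (j : Fin m) : Φ * pd j Φ + pd j Φ * Φ = -(pderiv j f • 1) := by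
  have h1 := congrArg (pd j) hΦ
  rw [pd_mul] at h1
  rw [add_comm, h1]
  ext1 a b
  simp only [pd, Matrix.map_apply, Matrix.neg_apply, Matrix.smul_apply, smul_eq_mul, map_neg]
  by_cases hab : a = b
  · subst hab
    simp
  · simp [Matrix.one_apply_ne hab]

lemma lamD_spec {f : MvPolynomial (Fin m) k} {Φ : Matrix ι ι (MvPolynomial (Fin m) k)}
    (hΦ : Φ * Φ = -(f • 1)) (α : Fin m → Fin m → MvPolynomial (Fin m) k) (i : Fin m) :
    Φ * lamD α Φ i + lamD α Φ i * Φ = (∑ j, α i j * pderiv j f) • 1 := by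
  unfold lamD
  rw [Matrix.mul_neg, Matrix.neg_mul, Matrix.mul_sum, Matrix.sum_mul, ← neg_add,
    ← Finset.sum_add_distrib, Finset.sum_smul, ← Finset.sum_neg_distrib]
  refine Finset.sum_congr rfl fun j _ => ?_
  rw [Matrix.mul_smul, Matrix.smul_mul, ← smul_add, pd_sq hΦ, smul_neg, neg_neg, smul_smul]

/-- closed matrices commute with the homotopies up to exact matrices -/
lemma lamD_comm {ε : MvPolynomial (Fin m) k} (hε : ε * ε = 1)
    {Ψ : Matrix κ κ (MvPolynomial (Fin m) k)} {Φ : Matrix ι ι (MvPolynomial (Fin m) k)}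
    {a : Matrix κ ι (MvPolynomial (Fin m) k)} (ha : DD (-ε) Ψ Φ a = 0)
    (α : Fin m → Fin m → MvPolynomial (Fin m) k) (i : Fin m) :
    lamD α Ψ i * a = ε • (a * lamD α Φ i) + DD (-ε) Ψ Φ (∑ j, α i j • pd j a) := by
  have hε' : ∀ j, pderiv j ε = 0 := by
    intro j
    rcases mul_self_eq_one_iff.1 hε with h | h
    · rw [h]
      exact pderiv_one
    · rw [h, map_neg, pderiv_one, neg_zero]
  have h1 : Ψ * a = ε • (a * Φ) := by
    unfold DD at ha
    rw [neg_smul, ← sub_eq_add_neg] at ha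
    exact sub_eq_zero.1 ha
  have h2 : ∀ j, pd j Ψ * a = ε • (pd j a * Φ) + ε • (a * pd j Φ) - Ψ * pd j a := by
    intro j
    have h3 := congrArg (pd j) h1
    rw [pd_mul, pd_smul j ε (hε' j), pd_mul, smul_add] at h3
    rw [← h3]
    abel
  have h4 : DD (-ε) Ψ Φ (∑ j, α i j • pd j a) =
      ∑ j, α i j • (Ψ * pd j a - ε • (pd j a * Φ)) := by
    unfold DD
    rw [Matrix.mul_sum, Matrix.sum_mul, Finset.smul_sum, ← Finset.sum_add_distrib]
    refine Finset.sum_congr rfl fun j _ => ?_
    rw [Matrix.mul_smul, Matrix.smul_mul, smul_sub, smul_comm (-ε) (α i j), neg_smul, smul_neg]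
    abel
  rw [h4]
  unfold lamD
  rw [Matrix.neg_mul, Matrix.sum_mul, Matrix.mul_neg, Matrix.mul_sum, smul_neg, Finset.smul_sum,
    ← Finset.sum_neg_distrib, ← Finset.sum_neg_distrib, ← Finset.sum_add_distrib]
  refine Finset.sum_congr rfl fun j _ => ?_
  rw [Matrix.smul_mul, Matrix.mul_smul, h2, smul_sub, smul_add, smul_sub, smul_comm ε (α i j)]
  abel

end

section trace

variable {S : Type} [CommRing S] {m : ℕ} {s : Fin m → S} {ι κ : Type} [Fintype ι]
  [DecidableEq ι] [Fintype κ] [DecidableEq κ]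

/-- the trace of a product with one exact factor -/
lemma trace_exact_mid {ε η : S} {Ψ : Matrix κ κ S} {Φ : Matrix ι ι S}
    {lam : Fin m → Matrix ι ι S} {lam' : Fin m → Matrix κ κ S}
    (hl : ∀ i, Φ * lam i + lam i * Φ = s i • (1 : Matrix ι ι S))
    (hl' : ∀ i, Ψ * lam' i + lam' i * Ψ = s i • (1 : Matrix κ κ S)) (L₁ L₂ : List (Fin m))
    (h : Matrix κ ι S) {b : Matrix ι κ S} (hb : Φ * b = η • (b * Ψ))
    (hη : ε * η * (-1) ^ L₂.length = (-1) ^ L₁.length) {K : Set (Fin m)}
    (hK₁ : ∀ j ∈ L₁, j ∈ K) (hK₂ : ∀ j ∈ L₂, j ∈ K) :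
    ((L₁.map lam').prod * DD (-ε) Ψ Φ h * (L₂.map lam).prod * b).trace ∈ JJ s K := by
  have h1 := ((prod_comm hl' L₁).mono (JJ_mono s (K' := K) hK₁)).mul_right
    (h * (L₂.map lam).prod * b)
  have h2 := (((prod_comm hl L₂).mono (JJ_mono s (K' := K) hK₂)).mul_right b).mul_left
    ((L₁.map lam').prod * h)
  have h3 := h1.trace
  have h4 := h2.trace
  have hs1 : ((-1 : S) ^ L₁.length) * (-1) ^ L₁.length = 1 := by
    rw [← mul_pow]
    simp
  have h5 : ((L₁.map lam').prod * DD (-ε) Ψ Φ h * (L₂.map lam).prod * b).trace =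
      -((-1 : S) ^ L₁.length) * ((Ψ * (L₁.map lam').prod -
        (-1 : S) ^ L₁.length • ((L₁.map lam').prod * Ψ)) * (h * (L₂.map lam).prod * b)).trace -
      ε * ((L₁.map lam').prod * h * ((Φ * (L₂.map lam).prod -
        (-1 : S) ^ L₂.length • ((L₂.map lam).prod * Φ)) * b)).trace := by
    have e1 : ((Ψ * (L₁.map lam').prod - (-1 : S) ^ L₁.length • ((L₁.map lam').prod * Ψ)) *
        (h * (L₂.map lam).prod * b)).trace =
        ((L₁.map lam').prod * h * (L₂.map lam).prod * b * Ψ).trace -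
          (-1 : S) ^ L₁.length * ((L₁.map lam').prod * Ψ * h * (L₂.map lam).prod * b).trace := by
      rw [Matrix.sub_mul, Matrix.trace_sub, Matrix.smul_mul, Matrix.trace_smul, smul_eq_mul,
        Matrix.mul_assoc Ψ, Matrix.trace_mul_comm Ψ]
      simp only [Matrix.mul_assoc]
    have e2 : ((L₁.map lam').prod * h * ((Φ * (L₂.map lam).prod -
        (-1 : S) ^ L₂.length • ((L₂.map lam).prod * Φ)) * b)).trace =
        ((L₁.map lam').prod * h * Φ * (L₂.map lam).prod * b).trace -
          (-1 : S) ^ L₂.length * η * ((L₁.map lam').prod * h * (L₂.map lam).prod * b * Ψ).trace := by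
      rw [Matrix.sub_mul, Matrix.mul_sub, Matrix.trace_sub, Matrix.smul_mul,
        Matrix.mul_assoc _ Φ b, hb, Matrix.mul_smul, Matrix.mul_smul, Matrix.mul_smul,
        Matrix.trace_smul, Matrix.trace_smul, smul_eq_mul, smul_eq_mul, ← mul_assoc]
      simp only [Matrix.mul_assoc]
    have e3 : ((L₁.map lam').prod * DD (-ε) Ψ Φ h * (L₂.map lam).prod * b).trace =
        ((L₁.map lam').prod * Ψ * h * (L₂.map lam).prod * b).trace -
        ε * ((L₁.map lam').prod * h * Φ * (L₂.map lam).prod * b).trace := by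
      unfold DD
      rw [Matrix.mul_add, Matrix.add_mul, Matrix.add_mul, Matrix.trace_add, neg_smul,
        Matrix.mul_neg, Matrix.neg_mul, Matrix.neg_mul, Matrix.trace_neg, Matrix.mul_smul,
        Matrix.smul_mul, Matrix.smul_mul, Matrix.trace_smul, smul_eq_mul]
      simp only [Matrix.mul_assoc]
      ring
    rw [e1, e2, e3]
    set x := ((L₁.map lam').prod * Ψ * h * (L₂.map lam).prod * b).trace
    set y := ((L₁.map lam').prod * h * Φ * (L₂.map lam).prod * b).trace
    set z := ((L₁.map lam').prod * h * (L₂.map lam).prod * b * Ψ).trace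
    linear_combination (-x) * hs1 - z * hη
  rw [h5]
  exact Ideal.sub_mem _ (Ideal.mul_mem_left _ _ h3) (Ideal.mul_mem_left _ _ h4)

/-- moving a closed matrix through the homotopies -/
theorem trace_move {ε η : S} {Ψ : Matrix κ κ S} {Φ : Matrix ι ι S}
    {lam : Fin m → Matrix ι ι S} {lam' : Fin m → Matrix κ κ S}
    (hl : ∀ i, Φ * lam i + lam i * Φ = s i • (1 : Matrix ι ι S))
    (hl' : ∀ i, Ψ * lam' i + lam' i * Ψ = s i • (1 : Matrix κ κ S))
    {a : Matrix κ ι S} {h : Fin m → Matrix κ ι S}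
    (hc : ∀ i, lam' i * a = ε • (a * lam i) + DD (-ε) Ψ Φ (h i)) {b : Matrix ι κ S}
    (hb : Φ * b = η • (b * Ψ)) (hεη : ∀ p q : ℕ, p + q + 1 = m →
      ε * η * (-1) ^ q = (-1 : S) ^ p) (L₁ : List (Fin m)) :
    ∀ L₂ : List (Fin m), L₁.length + L₂.length = m →
    ((L₁.map lam').prod * a * (L₂.map lam).prod * b).trace -
      ε ^ L₁.length * (a * ((L₁ ++ L₂).map lam).prod * b).trace ∈ JJ s Set.univ := by
  induction L₁ using List.reverseRecOn with
  | nil =>
    intro L₂ _
    simp
  | append_singleton L₁ i ih =>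
    intro L₂ hlen
    rw [List.length_append, List.length_singleton] at hlen
    have h1 := ih (i :: L₂) (by rw [List.length_cons]; omega)
    have h2 : ((L₁ ++ [i]).map lam').prod * a * (L₂.map lam).prod * b =
        ε • ((L₁.map lam').prod * a * ((i :: L₂).map lam).prod * b) +
        (L₁.map lam').prod * DD (-ε) Ψ Φ (h i) * (L₂.map lam).prod * b := by
      rw [List.map_append, List.prod_append, List.map_singleton, List.prod_singleton,
        Matrix.mul_assoc _ (lam' i) a, hc, Matrix.mul_add, Matrix.add_mul, Matrix.add_mul,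
        List.map_cons, List.prod_cons, Matrix.mul_smul, Matrix.smul_mul, Matrix.smul_mul]
      simp only [Matrix.mul_assoc]
    have h3 := trace_exact_mid (s := s) (ε := ε) (η := η) hl hl' L₁ L₂ (h i) hb
      (hεη _ _ (by omega)) (K := Set.univ) (fun _ _ => Set.mem_univ _) (fun _ _ => Set.mem_univ _)
    have h4 := Ideal.add_mem _ (Ideal.mul_mem_left _ ε h1) h3
    rw [h2, Matrix.trace_add, Matrix.trace_smul, smul_eq_mul, List.length_append,
      List.length_singleton, pow_succ', List.append_assoc, List.singleton_append]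
    convert h4 using 1
    ring

/-- the trace of an exact endomorphism times all homotopies -/
theorem trace_exact {Φ : Matrix ι ι S} {lam : Fin m → Matrix ι ι S}
    (hl : ∀ i, Φ * lam i + lam i * Φ = s i • (1 : Matrix ι ι S)) (L : List (Fin m))
    (h : Matrix ι ι S) :
    ((L.map lam).prod * DD (-(-1) ^ L.length) Φ Φ h).trace ∈ JJ s Set.univ := by
  have h1 := (((prod_comm hl L).mono (JJ_mono s (K' := Set.univ)
    (fun _ _ => Set.mem_univ _))).mul_right h).trace
  have hs1 : ((-1 : S) ^ L.length) * (-1) ^ L.length = 1 := by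
    rw [← mul_pow]
    simp
  have h2 : ((L.map lam).prod * DD (-(-1) ^ L.length) Φ Φ h).trace =
      -((-1 : S) ^ L.length) * ((Φ * (L.map lam).prod -
        (-1 : S) ^ L.length • ((L.map lam).prod * Φ)) * h).trace := by
    unfold DD
    rw [Matrix.sub_mul, Matrix.smul_mul, Matrix.trace_sub, Matrix.trace_smul, Matrix.mul_add,
      Matrix.trace_add, Matrix.mul_smul, Matrix.trace_smul, ← Matrix.mul_assoc,
      ← Matrix.mul_assoc, Matrix.mul_assoc Φ, Matrix.trace_mul_comm Φ, smul_eq_mul, smul_eq_mul]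
    linear_combination (-((L.map lam).prod * Φ * h).trace) * hs1
  rw [h2]
  exact Ideal.mul_mem_left _ _ h1

end trace

end Pool.Agent.VDC
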