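import Pool.Agent.VDC.SDd

/-!
# VDC: powers of the variables in the Jacobian ideal; Serre duality for four variables
-/

set_option autoImplicit false

open MvPolynomial

namespace Pool.Agent.VDC

noncomputable section

section whc

variable {k : Type} [Field k] {m : ℕ}

/-- homogeneous components of a product with a homogeneous factor -/
lemma whc_mul (w : Fin m → ℕ) (n d : ℕ) (p q : MvPolynomial (Fin m) k)
    (hq : IsWeightedHomogeneous w q d) :
    weightedHomogeneousComponent w (n + d) (p * q) = weightedHomogeneousComponent w n p * q := by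
  classical
  set p' := weightedHomogeneousComponent w n p with hp'
  have hp'h : IsWeightedHomogeneous w p' n :=
    weightedHomogeneousComponent_isWeightedHomogeneous _ _
  have h1 : weightedHomogeneousComponent w (n + d) (p' * q) = p' * q :=
    (hp'h.mul hq).weightedHomogeneousComponent_same
  have h2 : weightedHomogeneousComponent w (n + d) ((p - p') * q) = 0 := by
    ext μ
    rw [coeff_weightedHomogeneousComponent, coeff_zero]
    split_ifs with hμ
    · rw [coeff_mul]
      refine Finset.sum_eq_zero fun x hx => ?_
      replace hx := Finset.HasAntidiagonal.mem_antidiagonal.1 hx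
      by_cases hy : coeff x.2 q = 0
      · rw [hy, mul_zero]
      · have h3 := hq hy
        have h4 : Finsupp.weight w x.1 = n := by
          rw [← hx, map_add, h3] at hμ
          omega
        rw [coeff_sub, hp', coeff_weightedHomogeneousComponent, if_pos h4, sub_self, zero_mul]
    · rfl
  have h5 : p * q = p' * q + (p - p') * q := by ring
  rw [h5, map_add, h1, h2, add_zero]

theorem exists_lam [IsAlgClosed k] (w : Fin m → ℕ) (hw : ∀ i, 1 ≤ w i) (D : ℕ)
    (hD : ∀ i, w i ≤ D) (f : MvPolynomial (Fin m) k) (hf : IsWeightedHomogeneous w f D)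
    (hs : ∀ x : Fin m → k, (∀ j, eval x (pderiv j f) = 0) → x = 0) :
    ∃ N : ℕ, 1 ≤ N ∧ ∃ α : Fin m → Fin m → MvPolynomial (Fin m) k,
      (∀ i, ∑ j, α i j * pderiv j f = X i ^ N) ∧
      ∀ i j, ∃ n, n + D = N * w i + w j ∧ IsWeightedHomogeneous w (α i j) n := by
  classical
  set J : Ideal (MvPolynomial (Fin m) k) := Ideal.span (Set.range fun j => pderiv j f) with hJ
  have hrad : ∀ i, ∃ n : ℕ, (X i : MvPolynomial (Fin m) k) ^ n ∈ J := by
    intro i
    have h1 : (X i : MvPolynomial (Fin m) k) ∈ J.radical := by
      rw [← vanishingIdeal_zeroLocus_eq_radical (K := k) J, mem_vanishingIdeal_iff]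
      intro x hx
      rw [mem_zeroLocus_iff] at hx
      have h2 : x = 0 := by
        apply hs
        intro j
        have := hx (pderiv j f) (Ideal.subset_span ⟨j, rfl⟩)
        rwa [← coe_aeval_eq_eval]
      rw [h2]
      simp
    exact h1
  choose n hn using hrad
  set N : ℕ := D + 1 + ∑ i, n i with hN
  have hNn : ∀ i, n i ≤ N := by
    intro i
    have := Finset.single_le_sum (f := n) (fun _ _ => Nat.zero_le _) (Finset.mem_univ i)
    omega
  have hmem : ∀ i, (X i : MvPolynomial (Fin m) k) ^ N ∈ J := fun i =>
    Ideal.pow_mem_of_pow_mem J (hn i) (hNn i)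
  have hex : ∀ i, ∃ c : Fin m → MvPolynomial (Fin m) k, ∑ j, c j * pderiv j f = X i ^ N := by
    intro i
    exact (Ideal.mem_span_range_iff_exists_fun).1 (hmem i)
  choose c hc using hex
  have hdeg : ∀ i j, D ≤ N * w i + w j := by
    intro i j
    have : N * 1 ≤ N * w i := Nat.mul_le_mul_left _ (hw i)
    omega
  refine ⟨N, by omega, fun i j => weightedHomogeneousComponent w (N * w i + w j - D) (c i j),
    fun i => ?_, fun i j => ⟨N * w i + w j - D, Nat.sub_add_cancel (hdeg i j),
      weightedHomogeneousComponent_isWeightedHomogeneous _ _⟩⟩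
  have h1 : IsWeightedHomogeneous w ((X i : MvPolynomial (Fin m) k) ^ N) (N * w i) := by
    have := (isWeightedHomogeneous_X k w i).pow N
    rwa [smul_eq_mul] at this
  have h2 := h1.weightedHomogeneousComponent_same
  rw [← h2, ← hc i, map_sum]
  refine Finset.sum_congr rfl fun j _ => ?_
  have h3 : IsWeightedHomogeneous w (pderiv j f) (D - w j) :=
    hf.pderiv (Nat.sub_add_cancel (hD j))
  rw [← whc_mul w _ _ _ _ h3]
  congr 2
  have := hdeg i j
  have := hD j
  omega

end whc

end

end Pool.Agent.VDC
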