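import Pool.Agent.VDC.SDe

/-!
# VDC: the trace form of Serre duality in four variables

A matrix `a : κ × ι` is closed of type `ε` if `DD (-ε) Ψ Φ a = 0`, that is `Ψ a = ε a Φ`, and it is
exact of type `ε` if `a = DD ε Ψ Φ h = Ψ h + ε h Φ`. Serre duality pairs the type `ε` with the type
`-ε`.
-/

set_option autoImplicit false

open MvPolynomial

namespace Pool.Agent.VDC

noncomputable section

variable {k : Type} [Field k] {ι κ : Type} [Fintype ι] [DecidableEq ι] [Fintype κ] [DecidableEq κ]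

/-- the decreasing list of all variables -/
def L4 : List (Fin 4) := [3, 2, 1, 0]

lemma eq_L4 (L : List (Fin 4)) (h1 : L.Pairwise (· > ·)) (h2 : ∀ i, i ∈ L) : L = L4 := by
  have h3 : L4.Pairwise (· > ·) := by decide
  have h4 : ∀ i, i ∈ L4 := by decide
  have n1 : L.Nodup := h1.imp fun h => ne_of_gt h
  have n2 : L4.Nodup := h3.imp fun h => ne_of_gt h
  have hp : L.Perm L4 := (List.perm_ext_iff_of_nodup n1 n2).2 fun a => ⟨fun _ => h4 a, fun _ => h2 a⟩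
  exact hp.eq_of_pairwise (fun a b _ _ hab hba => absurd hab (not_lt_of_gt hba)) h1 h3

/-- the Serre trace -/
def tau (α : Fin 4 → Fin 4 → MvPolynomial (Fin 4) k) (N : ℕ)
    (Φ : Matrix ι ι (MvPolynomial (Fin 4) k)) :
    Matrix ι ι (MvPolynomial (Fin 4) k) →ₗ[k] k where
  toFun φ := res k 4 N ((L4.map (lamD α Φ)).prod * φ).trace
  map_add' x y := by rw [Matrix.mul_add, Matrix.trace_add, map_add]
  map_smul' c x := by
    rw [Matrix.mul_smul, Matrix.trace_smul, map_smul, RingHom.id_apply]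

lemma tau_apply (α : Fin 4 → Fin 4 → MvPolynomial (Fin 4) k) (N : ℕ)
    (Φ φ : Matrix ι ι (MvPolynomial (Fin 4) k)) :
    tau α N Φ φ = res k 4 N ((L4.map (lamD α Φ)).prod * φ).trace := rfl

variable {α : Fin 4 → Fin 4 → MvPolynomial (Fin 4) k} {N : ℕ} {f : MvPolynomial (Fin 4) k}
  {Φ : Matrix ι ι (MvPolynomial (Fin 4) k)} {Ψ : Matrix κ κ (MvPolynomial (Fin 4) k)}

/-- the trace kills exact endomorphisms of odd type -/
theorem tau_exact (hN : 1 ≤ N) (hα : ∀ i, ∑ j, α i j * pderiv j f = X i ^ N)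
    (hΦ : Φ * Φ = -(f • 1)) (h : Matrix ι ι (MvPolynomial (Fin 4) k)) :
    tau α N Φ (DD (-1) Φ Φ h) = 0 := by
  have hl : ∀ i, Φ * lamD α Φ i + lamD α Φ i * Φ = sq k 4 N i • 1 := fun i => by
    rw [lamD_spec hΦ, hα]
    rfl
  have h1 := trace_exact hl L4 h
  have h2 : (-(-1) ^ L4.length : MvPolynomial (Fin 4) k) = -1 := by
    have : L4.length = 4 := rfl
    rw [this]
    norm_num
  rw [h2] at h1
  exact res_JJ hN h1

/-- the trace is cyclic -/
theorem tau_cyclic (hN : 1 ≤ N) (hα : ∀ i, ∑ j, α i j * pderiv j f = X i ^ N)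
    (hΦ : Φ * Φ = -(f • 1)) (hΨ : Ψ * Ψ = -(f • 1)) {ε : MvPolynomial (Fin 4) k} (hε : ε * ε = 1)
    {a : Matrix κ ι (MvPolynomial (Fin 4) k)} (ha : DD (-ε) Ψ Φ a = 0)
    {b : Matrix ι κ (MvPolynomial (Fin 4) k)} (hb : DD ε Φ Ψ b = 0) :
    tau α N Ψ (a * b) = tau α N Φ (b * a) := by
  have hl : ∀ i, Φ * lamD α Φ i + lamD α Φ i * Φ = sq k 4 N i • 1 := fun i => by
    rw [lamD_spec hΦ, hα]
    rfl
  have hl' : ∀ i, Ψ * lamD α Ψ i + lamD α Ψ i * Ψ = sq k 4 N i • 1 := fun i => by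
    rw [lamD_spec hΨ, hα]
    rfl
  have hb' : Φ * b = (-ε) • (b * Ψ) := by
    unfold DD at hb
    rw [neg_smul]
    exact eq_neg_of_add_eq_zero_left hb
  have h1 := trace_move (ε := ε) (η := -ε) hl hl' (h := fun i => ∑ j, α i j • pd j a)
    (fun i => lamD_comm hε ha α i) hb' (fun p q hpq => by
      have h2 : (-1 : MvPolynomial (Fin 4) k) ^ p * (-1) ^ q = -1 := by
        rw [← pow_add, show p + q = 3 by omega]
        norm_num
      have h3 : (-1 : MvPolynomial (Fin 4) k) ^ q * (-1) ^ q = 1 := by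
        rw [← mul_pow]
        simp
      calc ε * -ε * (-1) ^ q = -(ε * ε) * (-1) ^ q := by ring
        _ = -((-1) ^ q) := by rw [hε]; ring
        _ = ((-1) ^ p * (-1) ^ q) * (-1) ^ q := by rw [h2]; ring
        _ = (-1) ^ p * ((-1) ^ q * (-1) ^ q) := by ring
        _ = (-1) ^ p := by rw [h3, mul_one]) L4 [] rfl
  have h2 := res_JJ hN h1
  rw [map_sub, sub_eq_zero] at h2
  have h3 : ε ^ L4.length = 1 := by
    have : L4.length = 4 := rfl
    rw [this, show ε ^ 4 = (ε * ε) * (ε * ε) by ring, hε, mul_one]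
  rw [h3, one_mul, List.map_nil, List.prod_nil, Matrix.mul_one, List.append_nil, Matrix.mul_assoc,
    Matrix.mul_assoc, Matrix.trace_mul_comm a, Matrix.mul_assoc] at h2
  exact h2

/-- the trace form is nondegenerate -/
theorem tau_nondeg (hN : 1 ≤ N) (hα : ∀ i, ∑ j, α i j * pderiv j f = X i ^ N)
    (hΦ : Φ * Φ = -(f • 1)) (hΨ : Ψ * Ψ = -(f • 1)) {ε : MvPolynomial (Fin 4) k} (hε : ε * ε = 1)
    {a : Matrix κ ι (MvPolynomial (Fin 4) k)} (ha : DD (-ε) Ψ Φ a = 0)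
    (hyp : ∀ b : Matrix ι κ (MvPolynomial (Fin 4) k), DD ε Φ Ψ b = 0 → tau α N Φ (b * a) = 0) :
    ∃ h, a = DD ε Ψ Φ h := by
  have hl : ∀ i, Φ * lamD α Φ i + lamD α Φ i * Φ = sq k 4 N i • 1 := fun i => by
    rw [lamD_spec hΦ, hα]
    rfl
  have hl' : ∀ i, Ψ * lamD α Ψ i + lamD α Ψ i * Ψ = sq k 4 N i • 1 := fun i => by
    rw [lamD_spec hΨ, hα]
    rfl
  refine exact_of_orthogonal hN hε hΨ hΦ hl hl' ha ?_
  intro L hL1 hL2 b hb
  rw [eq_L4 L hL1 hL2, Matrix.mul_assoc]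
  apply hyp
  have : (ε * (-1) ^ 4 : MvPolynomial (Fin 4) k) = ε := by norm_num
  rwa [this] at hb

/-- the trace form is nondegenerate on the other side -/
theorem tau_nondeg' (hN : 1 ≤ N) (hα : ∀ i, ∑ j, α i j * pderiv j f = X i ^ N)
    (hΦ : Φ * Φ = -(f • 1)) (hΨ : Ψ * Ψ = -(f • 1)) {ε : MvPolynomial (Fin 4) k} (hε : ε * ε = 1)
    {b : Matrix ι κ (MvPolynomial (Fin 4) k)} (hb : DD ε Φ Ψ b = 0)
    (hyp : ∀ a : Matrix κ ι (MvPolynomial (Fin 4) k), DD (-ε) Ψ Φ a = 0 →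
      tau α N Φ (b * a) = 0) :
    ∃ h, b = DD (-ε) Φ Ψ h := by
  refine tau_nondeg (ε := -ε) hN hα hΨ hΦ (by rw [neg_mul_neg, hε]) (by rwa [neg_neg]) ?_
  intro a ha
  rw [tau_cyclic hN hα hΦ hΨ hε ha hb]
  exact hyp a ha

end

end Pool.Agent.VDC
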