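import Pool.Agent.VDC.SDf

/-!
# VDC: gradings by integers

`HZ w n p`: the polynomial `p` is weighted homogeneous of the integer degree `n`.
`HM w δ' δ ρ a`: the matrix `a` from `⊕ S(δ i)` to `⊕ S(δ' j)` is homogeneous of degree `ρ`.
-/

set_option autoImplicit false

open MvPolynomial

namespace Pool.Agent.VDC

noncomputable section

section poly

variable {k : Type} [Field k] {m : ℕ} (w : Fin m → ℕ)

/-- weighted homogeneous of an integer degree -/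
def HZ (n : ℤ) (p : MvPolynomial (Fin m) k) : Prop :=
  ∀ μ, coeff μ p ≠ 0 → (Finsupp.weight w μ : ℤ) = n

/-- the component of an integer degree -/
def hc (n : ℤ) : MvPolynomial (Fin m) k →ₗ[k] MvPolynomial (Fin m) k :=
  if 0 ≤ n then weightedHomogeneousComponent w n.toNat else 0

lemma coeff_hc (n : ℤ) (p : MvPolynomial (Fin m) k) (μ : Fin m →₀ ℕ) :
    coeff μ (hc w n p) = if (Finsupp.weight w μ : ℤ) = n then coeff μ p else 0 := by
  classical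
  unfold hc
  by_cases hn : 0 ≤ n
  · rw [if_pos hn, coeff_weightedHomogeneousComponent]
    have : Finsupp.weight w μ = n.toNat ↔ (Finsupp.weight w μ : ℤ) = n := by omega
    by_cases h : (Finsupp.weight w μ : ℤ) = n
    · rw [if_pos h, if_pos (this.2 h)]
    · rw [if_neg h, if_neg (fun h' => h (this.1 h'))]
  · rw [if_neg hn, LinearMap.zero_apply, coeff_zero, if_neg]
    intro h
    apply hn
    rw [← h]
    exact Int.natCast_nonneg _

variable {w}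

lemma HZ_hc (n : ℤ) (p : MvPolynomial (Fin m) k) : HZ w n (hc w n p) := by
  intro μ hμ
  rw [coeff_hc] at hμ
  by_contra h
  rw [if_neg h] at hμ
  exact hμ rfl

lemma HZ.hc_eq {n : ℤ} {p : MvPolynomial (Fin m) k} (h : HZ w n p) : hc w n p = p := by
  ext μ
  rw [coeff_hc]
  split_ifs with h1
  · rfl
  · by_contra h2
    exact h1 (h μ (Ne.symm h2))

lemma HZ.hc_ne {n n' : ℤ} {p : MvPolynomial (Fin m) k} (h : HZ w n p) (hn : n ≠ n') :
    hc w n' p = 0 := by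
  ext μ
  rw [coeff_hc, coeff_zero]
  split_ifs with h1
  · by_contra h2
    exact hn ((h μ h2).symm.trans h1)
  · rfl

lemma HZ_zero (n : ℤ) : HZ w n (0 : MvPolynomial (Fin m) k) := by
  intro μ hμ
  exact absurd (coeff_zero μ) hμ

lemma HZ.add {n : ℤ} {p q : MvPolynomial (Fin m) k} (hp : HZ w n p) (hq : HZ w n q) :
    HZ w n (p + q) := by
  intro μ hμ
  rw [coeff_add] at hμ
  by_cases h : coeff μ p = 0
  · rw [h, zero_add] at hμ
    exact hq μ hμ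
  · exact hp μ h

lemma HZ.neg {n : ℤ} {p : MvPolynomial (Fin m) k} (hp : HZ w n p) : HZ w n (-p) := by
  intro μ hμ
  rw [coeff_neg, neg_ne_zero] at hμ
  exact hp μ hμ

lemma HZ.sub {n : ℤ} {p q : MvPolynomial (Fin m) k} (hp : HZ w n p) (hq : HZ w n q) :
    HZ w n (p - q) := by
  rw [sub_eq_add_neg]
  exact hp.add hq.neg

lemma HZ.smul {n : ℤ} {p : MvPolynomial (Fin m) k} (hp : HZ w n p) (c : k) :
    HZ w n (c • p) := by
  intro μ hμ
  rw [coeff_smul, smul_eq_mul] at hμ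
  exact hp μ (right_ne_zero_of_mul hμ)

lemma HZ.sum {ι : Type} {n : ℤ} (s : Finset ι) {p : ι → MvPolynomial (Fin m) k}
    (hp : ∀ i ∈ s, HZ w n (p i)) : HZ w n (∑ i ∈ s, p i) := by
  classical
  induction s using Finset.induction_on with
  | empty =>
    rw [Finset.sum_empty]
    exact HZ_zero n
  | insert i s hi ih =>
    rw [Finset.sum_insert hi]
    exact (hp i (Finset.mem_insert_self i s)).add
      (ih fun j hj => hp j (Finset.mem_insert_of_mem hj))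

lemma HZ.mul {n n' : ℤ} {p q : MvPolynomial (Fin m) k} (hp : HZ w n p) (hq : HZ w n' q) :
    HZ w (n + n') (p * q) := by
  classical
  intro μ hμ
  rw [coeff_mul] at hμ
  obtain ⟨x, hx, hne⟩ := Finset.exists_ne_zero_of_sum_ne_zero hμ
  replace hx := Finset.HasAntidiagonal.mem_antidiagonal.1 hx
  rw [← hx, map_add, Nat.cast_add, hp _ (left_ne_zero_of_mul hne), hq _ (right_ne_zero_of_mul hne)]

lemma HZ_C (c : k) : HZ w 0 (C c : MvPolynomial (Fin m) k) := by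
  classical
  intro μ hμ
  rw [coeff_C] at hμ
  by_cases h : 0 = μ
  · rw [← h, map_zero, Nat.cast_zero]
  · rw [if_neg h] at hμ
    exact absurd rfl hμ

lemma HZ_one : HZ w 0 (1 : MvPolynomial (Fin m) k) := by
  have := HZ_C (w := w) (1 : k)
  rwa [C_1] at this

lemma HZ_of_isWeightedHomogeneous {n : ℕ} {p : MvPolynomial (Fin m) k}
    (hp : IsWeightedHomogeneous w p n) : HZ w n p := by
  intro μ hμ
  rw [hp hμ]

lemma HZ.isWeightedHomogeneous {n : ℕ} {p : MvPolynomial (Fin m) k} (hp : HZ w n p) :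
    IsWeightedHomogeneous w p n := by
  intro μ hμ
  exact_mod_cast hp μ hμ

lemma HZ.eq_zero_of_neg {n : ℤ} (hn : n < 0) {p : MvPolynomial (Fin m) k} (hp : HZ w n p) :
    p = 0 := by
  ext μ
  rw [coeff_zero]
  by_contra h
  have := hp μ h
  have h2 : (0 : ℤ) ≤ (Finsupp.weight w μ : ℤ) := Int.natCast_nonneg _
  omega

lemma HZ.pderiv {n : ℤ} {p : MvPolynomial (Fin m) k} (hp : HZ w n p) (j : Fin m) :
    HZ w (n - w j) (MvPolynomial.pderiv j p) := by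
  intro μ hμ
  have h1 : coeff (μ + Finsupp.single j 1) p ≠ 0 := by
    intro h
    apply hμ
    rw [coeff_pderiv, h, zero_mul]
  have h2 := hp _ h1
  rw [map_add, Finsupp.weight_single, Nat.cast_add] at h2
  simp only [one_smul] at h2
  omega

lemma hc_mul_right {n d : ℤ} (p : MvPolynomial (Fin m) k) {q : MvPolynomial (Fin m) k}
    (hq : HZ w d q) : hc w (n + d) (p * q) = hc w n p * q := by
  classical
  have h1 : hc w (n + d) (hc w n p * q) = hc w n p * q := ((HZ_hc n p).mul hq).hc_eq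
  have h2 : hc w (n + d) ((p - hc w n p) * q) = 0 := by
    ext μ
    rw [coeff_hc, coeff_zero]
    split_ifs with hμ
    · rw [coeff_mul]
      refine Finset.sum_eq_zero fun x hx => ?_
      replace hx := Finset.HasAntidiagonal.mem_antidiagonal.1 hx
      by_cases hy : coeff x.2 q = 0
      · rw [hy, mul_zero]
      · have h3 := hq _ hy
        have h4 : (Finsupp.weight w x.1 : ℤ) = n := by
          rw [← hx, map_add, Nat.cast_add, h3] at hμ
          omega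
        rw [coeff_sub, coeff_hc, if_pos h4, sub_self, zero_mul]
    · rfl
  have h5 : p * q = hc w n p * q + (p - hc w n p) * q := by ring
  rw [h5, map_add, h1, h2, add_zero]

lemma hc_mul_left {n d : ℤ} {p : MvPolynomial (Fin m) k} (q : MvPolynomial (Fin m) k)
    (hp : HZ w n p) : hc w (n + d) (p * q) = p * hc w d q := by
  rw [mul_comm, add_comm, hc_mul_right q hp, mul_comm]

end poly

section matrix

variable {k : Type} [Field k] {m : ℕ} (w : Fin m → ℕ) {ι κ μ : Type}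

/-- homogeneous matrices of degree `ρ` from `⊕ S(δ i)` to `⊕ S(δ' j)` -/
def HM (δ' : κ → ℤ) (δ : ι → ℤ) (ρ : ℤ) (a : Matrix κ ι (MvPolynomial (Fin m) k)) : Prop :=
  ∀ j i, HZ w (ρ + δ' j - δ i) (a j i)

/-- homogeneous components of a matrix -/
def hM (δ' : κ → ℤ) (δ : ι → ℤ) (ρ : ℤ) :
    Matrix κ ι (MvPolynomial (Fin m) k) →ₗ[k] Matrix κ ι (MvPolynomial (Fin m) k) where
  toFun a := Matrix.of fun j i => hc w (ρ + δ' j - δ i) (a j i)
  map_add' a b := by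
    ext1 j i
    simp
  map_smul' c a := by
    ext1 j i
    simp

lemma hM_apply (δ' : κ → ℤ) (δ : ι → ℤ) (ρ : ℤ) (a : Matrix κ ι (MvPolynomial (Fin m) k))
    (j : κ) (i : ι) : hM w δ' δ ρ a j i = hc w (ρ + δ' j - δ i) (a j i) := rfl

variable {w} {δ : ι → ℤ} {δ' : κ → ℤ} {δ'' : μ → ℤ}

lemma HM_hM (ρ : ℤ) (a : Matrix κ ι (MvPolynomial (Fin m) k)) : HM w δ' δ ρ (hM w δ' δ ρ a) :=
  fun _ _ => HZ_hc _ _

lemma HM.hM_eq {ρ : ℤ} {a : Matrix κ ι (MvPolynomial (Fin m) k)} (h : HM w δ' δ ρ a) :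
    hM w δ' δ ρ a = a := by
  ext1 j i
  exact (h j i).hc_eq

lemma HM.hM_ne {ρ ρ' : ℤ} {a : Matrix κ ι (MvPolynomial (Fin m) k)} (h : HM w δ' δ ρ a)
    (hρ : ρ ≠ ρ') : hM w δ' δ ρ' a = 0 := by
  ext1 j i
  exact (h j i).hc_ne (by omega)

lemma HM_zero (ρ : ℤ) : HM w δ' δ ρ (0 : Matrix κ ι (MvPolynomial (Fin m) k)) :=
  fun _ _ => HZ_zero _

lemma HM.add {ρ : ℤ} {a b : Matrix κ ι (MvPolynomial (Fin m) k)} (ha : HM w δ' δ ρ a)
    (hb : HM w δ' δ ρ b) : HM w δ' δ ρ (a + b) := fun j i => (ha j i).add (hb j i)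

lemma HM.sub {ρ : ℤ} {a b : Matrix κ ι (MvPolynomial (Fin m) k)} (ha : HM w δ' δ ρ a)
    (hb : HM w δ' δ ρ b) : HM w δ' δ ρ (a - b) := fun j i => (ha j i).sub (hb j i)

lemma HM.neg {ρ : ℤ} {a : Matrix κ ι (MvPolynomial (Fin m) k)} (ha : HM w δ' δ ρ a) :
    HM w δ' δ ρ (-a) := fun j i => (ha j i).neg

lemma HM.smul {ρ n : ℤ} {a : Matrix κ ι (MvPolynomial (Fin m) k)} (ha : HM w δ' δ ρ a)
    {c : MvPolynomial (Fin m) k} (hc : HZ w n c) : HM w δ' δ (n + ρ) (c • a) := by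
  intro j i
  rw [Matrix.smul_apply, smul_eq_mul]
  have := hc.mul (ha j i)
  have e : n + ρ + δ' j - δ i = n + (ρ + δ' j - δ i) := by ring
  rw [e]
  exact this

lemma HM.sum {σ : Type} {ρ : ℤ} (s : Finset σ) {a : σ → Matrix κ ι (MvPolynomial (Fin m) k)}
    (ha : ∀ x ∈ s, HM w δ' δ ρ (a x)) : HM w δ' δ ρ (∑ x ∈ s, a x) := by
  intro j i
  rw [Matrix.sum_apply]
  exact HZ.sum s fun x hx => ha x hx j i

lemma HM_one [DecidableEq ι] : HM w δ δ 0 (1 : Matrix ι ι (MvPolynomial (Fin m) k)) := by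
  intro j i
  by_cases h : j = i
  · subst h
    rw [Matrix.one_apply_eq]
    have e : (0 : ℤ) + δ j - δ j = 0 := by ring
    rw [e]
    exact HZ_one
  · rw [Matrix.one_apply_ne h]
    exact HZ_zero _

lemma HM.mul [Fintype κ] {ρ σ : ℤ} {a : Matrix μ κ (MvPolynomial (Fin m) k)}
    {b : Matrix κ ι (MvPolynomial (Fin m) k)} (ha : HM w δ'' δ' ρ a) (hb : HM w δ' δ σ b) :
    HM w δ'' δ (ρ + σ) (a * b) := by
  intro j i
  rw [Matrix.mul_apply]
  refine HZ.sum _ fun x _ => ?_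
  have := (ha j x).mul (hb x i)
  have e : ρ + σ + δ'' j - δ i = ρ + δ'' j - δ' x + (σ + δ' x - δ i) := by ring
  rw [e]
  exact this

lemma HM.pd {ρ : ℤ} {a : Matrix κ ι (MvPolynomial (Fin m) k)} (ha : HM w δ' δ ρ a) (j : Fin m) :
    HM w δ' δ (ρ - w j) (Pool.Agent.VDC.pd j a) := by
  intro x y
  have := (ha x y).pderiv j
  have e : ρ - w j + δ' x - δ y = ρ + δ' x - δ y - w j := by ring
  rw [e]
  exact this

lemma hM_mul_left [Fintype κ] {ρ σ : ℤ} {a : Matrix μ κ (MvPolynomial (Fin m) k)}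
    (b : Matrix κ ι (MvPolynomial (Fin m) k)) (ha : HM w δ'' δ' ρ a) :
    hM w δ'' δ (ρ + σ) (a * b) = a * hM w δ' δ σ b := by
  ext1 j i
  rw [hM_apply, Matrix.mul_apply, Matrix.mul_apply, map_sum]
  refine Finset.sum_congr rfl fun x _ => ?_
  rw [hM_apply, ← hc_mul_left _ (ha j x)]
  congr 2
  ring

lemma hM_mul_right [Fintype κ] {ρ σ : ℤ} (a : Matrix μ κ (MvPolynomial (Fin m) k))
    {b : Matrix κ ι (MvPolynomial (Fin m) k)} (hb : HM w δ' δ σ b) :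
    hM w δ'' δ (ρ + σ) (a * b) = hM w δ'' δ' ρ a * b := by
  ext1 j i
  rw [hM_apply, Matrix.mul_apply, Matrix.mul_apply, map_sum]
  refine Finset.sum_congr rfl fun x _ => ?_
  rw [hM_apply, ← hc_mul_right _ (hb x i)]
  congr 2
  ring

lemma HM.trace [Fintype ι] {ρ : ℤ} {a : Matrix ι ι (MvPolynomial (Fin m) k)}
    (ha : HM w δ δ ρ a) : HZ w ρ a.trace := by
  unfold Matrix.trace
  refine HZ.sum _ fun x _ => ?_
  have := ha x x
  have e : ρ + δ x - δ x = ρ := by ring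
  rw [e] at this
  exact this

variable (w δ) in
lemma hc_trace [Fintype ι] (ρ : ℤ) (a : Matrix ι ι (MvPolynomial (Fin m) k)) :
    hc w ρ a.trace = (hM w δ δ ρ a).trace := by
  unfold Matrix.trace
  rw [map_sum]
  refine Finset.sum_congr rfl fun x _ => ?_
  rw [Matrix.diag_apply, Matrix.diag_apply, hM_apply]
  congr 2
  ring

lemma eq_one_or_neg_one {ε : MvPolynomial (Fin m) k} (hε : ε * ε = 1) : ε = 1 ∨ ε = -1 :=
  mul_self_eq_one_iff.1 hε

lemma hM_smul_sign {ε : MvPolynomial (Fin m) k} (hε : ε * ε = 1) (ρ : ℤ)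
    (a : Matrix κ ι (MvPolynomial (Fin m) k)) : hM w δ' δ ρ (ε • a) = ε • hM w δ' δ ρ a := by
  rcases eq_one_or_neg_one hε with h | h
  · rw [h, one_smul, one_smul]
  · rw [h, neg_smul, neg_smul, one_smul, one_smul, map_neg]

lemma hM_DD [Fintype ι] [Fintype κ] {ε : MvPolynomial (Fin m) k} (hε : ε * ε = 1) {d ρ : ℤ}
    {Ψ : Matrix κ κ (MvPolynomial (Fin m) k)} {Φ : Matrix ι ι (MvPolynomial (Fin m) k)}
    (hΨ : HM w δ' δ' d Ψ) (hΦ : HM w δ δ d Φ) (h : Matrix κ ι (MvPolynomial (Fin m) k)) :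
    hM w δ' δ (d + ρ) (DD ε Ψ Φ h) = DD ε Ψ Φ (hM w δ' δ ρ h) := by
  unfold DD
  rw [map_add, hM_smul_sign hε, hM_mul_left h hΨ, add_comm d ρ, hM_mul_right h hΦ]

lemma HM.DD [Fintype ι] [Fintype κ] {ε : MvPolynomial (Fin m) k} (hε : ε * ε = 1) {d ρ : ℤ}
    {Ψ : Matrix κ κ (MvPolynomial (Fin m) k)} {Φ : Matrix ι ι (MvPolynomial (Fin m) k)}
    (hΨ : HM w δ' δ' d Ψ) (hΦ : HM w δ δ d Φ) {h : Matrix κ ι (MvPolynomial (Fin m) k)}
    (hh : HM w δ' δ ρ h) : HM w δ' δ (d + ρ) (Pool.Agent.VDC.DD ε Ψ Φ h) := by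
  have h1 := hM_DD (ρ := ρ) hε hΨ hΦ h
  rw [hh.hM_eq] at h1
  rw [← h1]
  exact HM_hM _ _

end matrix

section serre

variable {k : Type} [Field k] {ι κ : Type} [Fintype ι] [DecidableEq ι] [Fintype κ] [DecidableEq κ]
  {w : Fin 4 → ℕ} {δ : ι → ℤ} {δ' : κ → ℤ} {d : ℤ} {α : Fin 4 → Fin 4 → MvPolynomial (Fin 4) k}
  {N : ℕ} {f : MvPolynomial (Fin 4) k} {Φ : Matrix ι ι (MvPolynomial (Fin 4) k)}
  {Ψ : Matrix κ κ (MvPolynomial (Fin 4) k)}

omit [DecidableEq ι] in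
lemma HM_lamD (hα : ∀ i j, HZ w (N * w i + w j - 2 * d) (α i j)) (hΦ : HM w δ δ d Φ)
    (i : Fin 4) : HM w δ δ (N * w i - d) (lamD α Φ i) := by
  refine (HM.sum _ fun j _ => ?_).neg
  have := (hΦ.pd j).smul (hα i j)
  have e : (N * w i - d : ℤ) = N * w i + w j - 2 * d + (d - w j) := by ring
  rw [e]
  exact this

lemma HM_prod (hα : ∀ i j, HZ w (N * w i + w j - 2 * d) (α i j)) (hΦ : HM w δ δ d Φ) :
    HM w δ δ (N * (∑ i, (w i : ℤ)) - 4 * d) (L4.map (lamD α Φ)).prod := by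
  have h0 := HM_lamD hα hΦ 0
  have h1 := HM_lamD hα hΦ 1
  have h2 := HM_lamD hα hΦ 2
  have h3 := HM_lamD hα hΦ 3
  have h4 := h3.mul (h2.mul (h1.mul h0))
  have e1 : (L4.map (lamD α Φ)).prod =
      lamD α Φ 3 * (lamD α Φ 2 * (lamD α Φ 1 * lamD α Φ 0)) := by
    simp [L4]
  rw [e1]
  have e : (N * (∑ i, (w i : ℤ)) - 4 * d : ℤ) = N * w 3 - d + (N * w 2 - d +
      (N * w 1 - d + (N * w 0 - d))) := by
    rw [Fin.sum_univ_four]
    ring
  rw [e]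
  exact h4

lemma weight_topm (hN : 1 ≤ N) : (Finsupp.weight w (topm 4 N) : ℤ) = (N - 1) * ∑ i, (w i : ℤ) := by
  rw [Finsupp.weight_apply, Finsupp.sum_fintype _ _ (by simp)]
  push_cast
  rw [Finset.mul_sum]
  refine Finset.sum_congr rfl fun i _ => ?_
  rw [topm_apply, smul_eq_mul]
  push_cast [Nat.cast_sub hN]
  ring

lemma tau_hM (hN : 1 ≤ N) (hα : ∀ i j, HZ w (N * w i + w j - 2 * d) (α i j))
    (hΦ : HM w δ δ d Φ) (φ : Matrix ι ι (MvPolynomial (Fin 4) k)) :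
    tau α N Φ (hM w δ δ (4 * d - ∑ i, (w i : ℤ)) φ) = tau α N Φ φ := by
  have h1 := hM_mul_left (δ := δ) (σ := 4 * d - ∑ i, (w i : ℤ)) φ (HM_prod hα hΦ)
  rw [tau_apply, ← h1, ← hc_trace, res_apply, coeff_hc, if_pos, tau_apply, res_apply]
  rw [weight_topm hN]
  ring

lemma tau_eq_zero (hN : 1 ≤ N) (hα : ∀ i j, HZ w (N * w i + w j - 2 * d) (α i j))
    (hΦ : HM w δ δ d Φ) {ρ : ℤ} {φ : Matrix ι ι (MvPolynomial (Fin 4) k)}
    (hφ : HM w δ δ ρ φ) (hρ : ρ ≠ 4 * d - ∑ i, (w i : ℤ)) : tau α N Φ φ = 0 := by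
  rw [← tau_hM hN hα hΦ, hφ.hM_ne hρ, map_zero]

/-- graded nondegeneracy -/
theorem tau_nondeg_graded (hN : 1 ≤ N) (hα : ∀ i, ∑ j, α i j * pderiv j f = X i ^ N)
    (hα' : ∀ i j, HZ w (N * w i + w j - 2 * d) (α i j))
    (hΦ : Φ * Φ = -(f • 1)) (hΨ : Ψ * Ψ = -(f • 1)) (hΦ' : HM w δ δ d Φ) (hΨ' : HM w δ' δ' d Ψ)
    {ε : MvPolynomial (Fin 4) k} (hε : ε * ε = 1) {ρ σ : ℤ} (hρσ : ρ + σ = 4 * d - ∑ i, (w i : ℤ))
    {a : Matrix κ ι (MvPolynomial (Fin 4) k)} (ha' : HM w δ' δ ρ a) (ha : DD (-ε) Ψ Φ a = 0)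
    (hyp : ∀ b : Matrix ι κ (MvPolynomial (Fin 4) k), HM w δ δ' σ b → DD ε Φ Ψ b = 0 →
      tau α N Φ (b * a) = 0) :
    ∃ h, HM w δ' δ (ρ - d) h ∧ a = DD ε Ψ Φ h := by
  obtain ⟨h, hh⟩ := tau_nondeg hN hα hΦ hΨ hε ha (fun b hb => by
    rw [← tau_hM hN hα' hΦ', ← hρσ, add_comm, hM_mul_right b ha']
    apply hyp _ (HM_hM _ _)
    rw [← hM_DD hε hΦ' hΨ', hb, map_zero])
  refine ⟨hM w δ' δ (ρ - d) h, HM_hM _ _, ?_⟩
  rw [← hM_DD hε hΨ' hΦ', ← hh, add_sub_cancel, ha'.hM_eq]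

/-- graded nondegeneracy on the other side -/
theorem tau_nondeg_graded' (hN : 1 ≤ N) (hα : ∀ i, ∑ j, α i j * pderiv j f = X i ^ N)
    (hα' : ∀ i j, HZ w (N * w i + w j - 2 * d) (α i j))
    (hΦ : Φ * Φ = -(f • 1)) (hΨ : Ψ * Ψ = -(f • 1)) (hΦ' : HM w δ δ d Φ) (hΨ' : HM w δ' δ' d Ψ)
    {ε : MvPolynomial (Fin 4) k} (hε : ε * ε = 1) {ρ σ : ℤ} (hρσ : ρ + σ = 4 * d - ∑ i, (w i : ℤ))
    {b : Matrix ι κ (MvPolynomial (Fin 4) k)} (hb' : HM w δ δ' σ b) (hb : DD ε Φ Ψ b = 0)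
    (hyp : ∀ a : Matrix κ ι (MvPolynomial (Fin 4) k), HM w δ' δ ρ a → DD (-ε) Ψ Φ a = 0 →
      tau α N Φ (b * a) = 0) :
    ∃ h, HM w δ δ' (σ - d) h ∧ b = DD (-ε) Φ Ψ h := by
  refine tau_nondeg_graded (ε := -ε) (ρ := σ) (σ := ρ) hN hα hα' hΨ hΦ hΨ' hΦ'
    (by rw [neg_mul_neg, hε]) (by rw [add_comm, hρσ]) hb' (by rwa [neg_neg]) ?_
  intro a ha' ha
  rw [tau_cyclic hN hα hΦ hΨ hε ha hb]
  exact hyp a ha' ha

end serre

end

end Pool.Agent.VDC
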