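import Pool.Agent.VDC.SDg

/-!
# VDC: existence of the Serre data, finite dimensionality
-/

set_option autoImplicit false

open MvPolynomial

namespace Pool.Agent.VDC

noncomputable section

section data

variable {k : Type} [Field k] {m : ℕ}

/-- smoothness gives the data of the trace form; `D = 2 d` is the degree of `f` -/
theorem exists_serre_data [IsAlgClosed k] (w : Fin m → ℕ) (hw : ∀ i, 1 ≤ w i) (D : ℕ) (d : ℤ)
    (hd : (D : ℤ) = 2 * d) (hD : ∀ i, w i ≤ D) (f : MvPolynomial (Fin m) k)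
    (hf : IsWeightedHomogeneous w f D)
    (hs : ∀ x : Fin m → k, (∀ j, eval x (pderiv j f) = 0) → x = 0) :
    ∃ N : ℕ, 1 ≤ N ∧ ∃ α : Fin m → Fin m → MvPolynomial (Fin m) k,
      (∀ i, ∑ j, α i j * pderiv j f = X i ^ N) ∧
      ∀ i j, HZ w (N * w i + w j - 2 * d) (α i j) := by
  obtain ⟨N, hN, α, h1, h2⟩ := exists_lam w hw D hD f hf hs
  refine ⟨N, hN, α, h1, fun i j => ?_⟩
  obtain ⟨n, hn, h3⟩ := h2 i j
  have h4 := HZ_of_isWeightedHomogeneous h3
  have h5 : (N * w i + w j - 2 * d : ℤ) = n := by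
    rw [← hd]
    have : (n : ℤ) + D = N * w i + w j := by exact_mod_cast hn
    linarith
  rw [h5]
  exact h4

variable (w : Fin m → ℕ) (k)

/-- the space of polynomials of degree `n` -/
def HZs (n : ℤ) : Submodule k (MvPolynomial (Fin m) k) where
  carrier := {p | HZ w n p}
  zero_mem' := HZ_zero n
  add_mem' := HZ.add
  smul_mem' c _ h := h.smul c

lemma finite_weight (hw : ∀ i, 1 ≤ w i) (n : ℤ) :
    {μ : Fin m →₀ ℕ | (Finsupp.weight w μ : ℤ) = n}.Finite := by
  classical
  refine (Finset.finite_toSet (Finset.Icc (0 : Fin m →₀ ℕ)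
    (Finsupp.equivFunOnFinite.symm fun _ => n.toNat))).subset ?_
  intro μ hμ
  rw [Finset.mem_coe, Finset.mem_Icc]
  refine ⟨zero_le, fun i => ?_⟩
  have h1 : (Finsupp.weight w μ : ℤ) = n := hμ
  have h2 : μ i ≤ Finsupp.weight w μ := Finsupp.le_weight w (by have := hw i; omega) μ
  change μ i ≤ n.toNat
  omega

theorem finite_HZs (hw : ∀ i, 1 ≤ w i) (n : ℤ) : FiniteDimensional k (HZs k w n) := by
  classical
  have hfin := finite_weight w hw n
  have h1 : HZs k w n ≤ Submodule.span k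
      ((fun μ : Fin m →₀ ℕ => monomial μ (1 : k)) ''
        {μ : Fin m →₀ ℕ | (Finsupp.weight w μ : ℤ) = n}) := by
    intro p hp
    rw [p.as_sum]
    refine Submodule.sum_mem _ fun μ hμ => ?_
    have h2 : monomial μ (coeff μ p) = coeff μ p • (monomial μ (1 : k)) := by
      rw [smul_monomial, smul_eq_mul, mul_one]
    rw [h2]
    exact Submodule.smul_mem _ _ (Submodule.subset_span ⟨μ, hp μ (mem_support_iff.1 hμ), rfl⟩)
  have h2 : FiniteDimensional k (Submodule.span k
      ((fun μ : Fin m →₀ ℕ => monomial μ (1 : k)) ''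
        {μ : Fin m →₀ ℕ | (Finsupp.weight w μ : ℤ) = n})) :=
    FiniteDimensional.span_of_finite k (hfin.image _)
  exact Submodule.finiteDimensional_of_le h1

variable {ι κ : Type}

/-- the space of homogeneous matrices of degree `ρ` -/
def HMs (δ' : κ → ℤ) (δ : ι → ℤ) (ρ : ℤ) :
    Submodule k (Matrix κ ι (MvPolynomial (Fin m) k)) where
  carrier := {a | HM w δ' δ ρ a}
  zero_mem' := HM_zero ρ
  add_mem' := HM.add
  smul_mem' c _ h := fun j i => (h j i).smul c

lemma finite_HMs [Finite ι] [Finite κ] (hw : ∀ i, 1 ≤ w i) (δ' : κ → ℤ) (δ : ι → ℤ) (ρ : ℤ) :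
    FiniteDimensional k (HMs k w δ' δ ρ) := by
  have h1 : ∀ n : ℤ, FiniteDimensional k (HZs k w n) := fun n => finite_HZs k w hw n
  let L : HMs k w δ' δ ρ →ₗ[k] ((j : κ) → (i : ι) → HZs k w (ρ + δ' j - δ i)) :=
    { toFun := fun a j i => ⟨a.1 j i, a.2 j i⟩
      map_add' := fun _ _ => rfl
      map_smul' := fun _ _ => rfl }
  refine FiniteDimensional.of_injective L ?_
  intro a b hab
  apply Subtype.ext
  ext1 j i
  have h2 := congrFun (congrFun hab j) i
  exact congrArg Subtype.val h2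

end data

end

end Pool.Agent.VDC
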