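import Pool.Agent.VDC.Geo

/-!
# The statement of the categorical Torelli theorem for Veronese double cones

The same objects as in `Pool.Agent.VDC.Defs` and `Pool.Agent.VDC.Geo`, written so that the
statement is short: the stable category of graded maximal Cohen-Macaulay modules over
`R = ℂ[x₀, x₁, x₂, y, z] / (z ^ 2 + f)` and the threefold `Proj R`.
-/

set_option autoImplicit false

open MvPolynomial CategoryTheory AlgebraicGeometry

noncomputable section

namespace Pool.Agent.VDC.Stmt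

variable {f : Sr}

/-! ### The scheme -/

/-- The homogeneous coordinate ring `R = S[z] / (z ^ 2 + f) = S ⊕ S z`: the element `⟨a, b⟩` is
`a + b z`, and `z ^ 2 = - f`. -/
def Coord (f : Sr) : Type := QuadraticAlgebra Sr (-f) 0

/-- the ring structure -/
def coordCommRing (f : Sr) : CommRing (Coord f) := QuadraticAlgebra.instCommRing

instance instCoord (f : Sr) : CommRing (Coord f) := coordCommRing f

/-- the algebra structure -/
def coordAlgebra (f : Sr) : Algebra ℂ (Coord f) := QuadraticAlgebra.instAlgebra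

instance instCoordAlg (f : Sr) : Algebra ℂ (Coord f) := coordAlgebra f

lemma grade_add {r s : Coord f} {n : ℤ}
    (h : Hmg (QuadraticAlgebra.re r) n ∧ Hmg (QuadraticAlgebra.im r) (n - 3))
    (h' : Hmg (QuadraticAlgebra.re s) n ∧ Hmg (QuadraticAlgebra.im s) (n - 3)) :
    Hmg (QuadraticAlgebra.re (r + s)) n ∧ Hmg (QuadraticAlgebra.im (r + s)) (n - 3) :=
  ⟨h.1.add h'.1, h.2.add h'.2⟩

lemma grade_zero {n : ℤ} :
    Hmg (QuadraticAlgebra.re (0 : Coord f)) n ∧ Hmg (QuadraticAlgebra.im (0 : Coord f)) (n - 3) :=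
  ⟨Hmg.zero _, Hmg.zero _⟩

lemma grade_smul {r : Coord f} {n : ℤ} (c : ℂ)
    (h : Hmg (QuadraticAlgebra.re r) n ∧ Hmg (QuadraticAlgebra.im r) (n - 3)) :
    Hmg (QuadraticAlgebra.re (c • r)) n ∧ Hmg (QuadraticAlgebra.im (c • r)) (n - 3) :=
  ⟨h.1.csmul c, h.2.csmul c⟩

/-- The homogeneous elements of degree `n` (the degree of `z` is `3`). -/
def grade (f : Sr) (n : ℕ) : Submodule ℂ (Coord f) where
  carrier := {r | Hmg (QuadraticAlgebra.re r) n ∧ Hmg (QuadraticAlgebra.im r) ((n : ℤ) - 3)}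
  add_mem' := grade_add
  zero_mem' := grade_zero
  smul_mem' c _ h := grade_smul c h

/-- The `ℂ`-scheme `Proj R`, for a homogeneous `f` of degree `6` (so that `grade f` is a grading
of `R`). -/
def ProjR (f : Sr) [GradedAlgebra (grade f)] : Over (Spec (.of ℂ)) :=
  Over.mk (Proj.toSpecZero (grade f) ≫ Spec.map (CommRingCat.ofHom (algebraMap ℂ (grade f 0))))

/-! ### The stable category of graded maximal Cohen-Macaulay modules -/

/-- The `R`-linear maps `X → Y` of degree `0`: the homogeneous matrices which commute with the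
action `Φ` of `z`. -/
def Mor (X Y : CM f) : Type := mor X Y

/-- the matrix of a map -/
def Mor.mat {X Y : CM f} (g : Mor X Y) : Matrix Y.ι X.ι Sr := Subtype.val g

instance (X Y : CM f) : AddCommGroup (Mor X Y) := Submodule.addCommGroup (mor X Y)

instance (X Y : CM f) : Module ℂ (Mor X Y) := Submodule.module (mor X Y)

/-- `g = Y.Φ h + h X.Φ` for some `h` homogeneous of degree `-3`; this holds if and only if `g`
factors through a graded free `R`-module. -/
def Mor.IsNull {X Y : CM f} (g : Mor X Y) : Prop :=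
  ∃ h : Matrix Y.ι X.ι Sr, (∀ i j, Hmg (h i j) (X.deg j - 3 - Y.deg i)) ∧
    g.mat = Y.Φ * h + h * X.Φ

lemma Mor.IsNull.add {X Y : CM f} {g g' : Mor X Y} (h : g.IsNull) (h' : g'.IsNull) :
    (g + g').IsNull := (nul X Y).add_mem' h h'

lemma Mor.IsNull.zero {X Y : CM f} : (0 : Mor X Y).IsNull := (nul X Y).zero_mem'

lemma Mor.IsNull.smul {X Y : CM f} {g : Mor X Y} (c : ℂ) (h : g.IsNull) : (c • g).IsNull :=
  (nul X Y).smul_mem' c h

/-- the maps which factor through a graded free `R`-module -/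
def Nul (X Y : CM f) : Submodule ℂ (Mor X Y) where
  carrier := {g | g.IsNull}
  add_mem' := Mor.IsNull.add
  zero_mem' := Mor.IsNull.zero
  smul_mem' c _ h := Mor.IsNull.smul c h

/-- The morphisms of the stable category. -/
def StHom (X Y : CM f) : Type := Mor X Y ⧸ Nul X Y

instance (X Y : CM f) : AddCommGroup (StHom X Y) := Submodule.Quotient.addCommGroup (Nul X Y)

instance (X Y : CM f) : Module ℂ (StHom X Y) := Submodule.Quotient.module (Nul X Y)

/-- the class of a map -/
def toSt {X Y : CM f} (g : Mor X Y) : StHom X Y := Submodule.Quotient.mk g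

lemma toSt_surjective {X Y : CM f} : Function.Surjective (toSt : Mor X Y → StHom X Y) :=
  Submodule.Quotient.mk_surjective (Nul X Y)

/-- a map in a class -/
def rep {X Y : CM f} (a : StHom X Y) : Mor X Y := Function.surjInv toSt_surjective a

lemma id_mem (X : CM f) : (1 : Matrix X.ι X.ι Sr) ∈ mor X X := (idM X).2

lemma comp_mem {X Y Z : CM f} (a : Mor X Y) (b : Mor Y Z) : b.mat * a.mat ∈ mor X Z :=
  (compM a b).2

/-- the identity -/
def Mor.id (X : CM f) : Mor X X := ⟨1, id_mem X⟩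

/-- composition of maps: the product of the matrices -/
def Mor.comp {X Y Z : CM f} (a : Mor X Y) (b : Mor Y Z) : Mor X Z := ⟨b.mat * a.mat, comp_mem a b⟩

lemma toSt_rep {X Y : CM f} (a : StHom X Y) : toSt (rep a) = a :=
  Function.surjInv_eq toSt_surjective a

/-- composition of classes agrees with the composition in `Defs` -/
lemma toSt_comp {X Y Z : CM f} (a : StHom X Y) (b : StHom Y Z) :
    toSt ((rep a).comp (rep b)) = compQ X Y Z a b := by
  show (nul X Z).mkQ (compM (rep a) (rep b)) = compQ X Y Z a b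
  conv_rhs => rw [← toSt_rep a, ← toSt_rep b]
  rfl

lemma toSt_comp' {X Y Z : CM f} (a : Mor X Y) (b : Mor Y Z) :
    toSt ((rep (toSt a)).comp (rep (toSt b))) = toSt (a.comp b) := by
  rw [toSt_comp]
  rfl

attribute [-instance] instCat instPre instLin

/-- The stable category of graded maximal Cohen-Macaulay modules over `R`. -/
instance stCat (f : Sr) : Category (CM f) where
  Hom X Y := StHom X Y
  id X := toSt (Mor.id X)
  comp a b := toSt ((rep a).comp (rep b))
  id_comp {X Y} a := by exact (toSt_comp _ _).trans ((instCat f).id_comp a)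
  comp_id {X Y} a := by exact (toSt_comp _ _).trans ((instCat f).comp_id a)
  assoc {W X Y Z} a b c := by
    rw [toSt_comp, toSt_comp, toSt_comp, toSt_comp]
    exact (instCat f).assoc a b c

lemma stCat_add_comp {X Y Z : CM f} (a b : StHom X Y) (c : StHom Y Z) :
    toSt ((rep (a + b)).comp (rep c)) =
      toSt ((rep a).comp (rep c)) + toSt ((rep b).comp (rep c)) := by
  rw [toSt_comp, toSt_comp, toSt_comp]
  exact (instPre f).add_comp X Y Z a b c

lemma stCat_comp_add {X Y Z : CM f} (a : StHom X Y) (b c : StHom Y Z) :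
    toSt ((rep a).comp (rep (b + c))) =
      toSt ((rep a).comp (rep b)) + toSt ((rep a).comp (rep c)) := by
  rw [toSt_comp, toSt_comp, toSt_comp]
  exact (instPre f).comp_add X Y Z a b c

lemma stCat_smul_comp {X Y Z : CM f} (r : ℂ) (a : StHom X Y) (c : StHom Y Z) :
    toSt ((rep (r • a)).comp (rep c)) = r • toSt ((rep a).comp (rep c)) := by
  rw [toSt_comp, toSt_comp]
  exact (instLin f).smul_comp X Y Z r a c

lemma stCat_comp_smul {X Y Z : CM f} (a : StHom X Y) (r : ℂ) (b : StHom Y Z) :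
    toSt ((rep a).comp (rep (r • b))) = r • toSt ((rep a).comp (rep b)) := by
  rw [toSt_comp, toSt_comp]
  exact (instLin f).comp_smul X Y Z a r b

instance stPre (f : Sr) : Preadditive (CM f) where
  homGroup X Y := instAddCommGroupStHom X Y
  add_comp _ _ _ a b c := stCat_add_comp a b c
  comp_add _ _ _ a b c := stCat_comp_add a b c

instance stLin (f : Sr) : Linear ℂ (CM f) where
  homModule X Y := instModuleComplexStHom X Y
  smul_comp _ _ _ r a b := stCat_smul_comp r a b
  comp_smul _ _ _ a r b := stCat_comp_smul a r b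

/-- the morphism given by a map -/
def mk {X Y : CM f} (g : Mor X Y) : X ⟶ Y := toSt g

/-! ### The triangulated structure -/

lemma sh_hom (X : CM f) (i j : X.ι) :
    Hmg ((((-1 : ℤˣ) : ℤ) • X.Φ) i j) (X.deg j - 3 + 3 - (X.deg i - 3)) :=
  (tw 3 (-1) X).hom i j

lemma sh_sq (X : CM f) :
    (((-1 : ℤˣ) : ℤ) • X.Φ) * (((-1 : ℤˣ) : ℤ) • X.Φ) = -(f • (1 : Matrix X.ι X.ι Sr)) :=
  (tw 3 (-1) X).sq

/-- `X[1] = (X(3), - Φ)`: the degrees are lowered by `3` and `Φ` is replaced by `- Φ`. -/
def shObj (X : CM f) : CM f where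
  ι := X.ι
  deg i := X.deg i - 3
  Φ := ((-1 : ℤˣ) : ℤ) • X.Φ
  hom := sh_hom X
  sq := sh_sq X

lemma shMap_mem {X Y : CM f} (g : Mor X Y) : g.mat ∈ mor (shObj X) (shObj Y) :=
  (twM 3 (-1) g).2

/-- the shift on maps -/
def shMap {X Y : CM f} (g : Mor X Y) : Mor (shObj X) (shObj Y) := ⟨g.mat, shMap_mem g⟩

lemma shMap_congr {X Y : CM f} {g g' : Mor X Y} (h : toSt g = toSt g') :
    toSt (shMap g) = toSt (shMap g') :=
  (Submodule.Quotient.eq (Nul (shObj X) (shObj Y))).2
    (twM_nul 3 (-1) (g - g') ((Submodule.Quotient.eq (Nul X Y)).1 h))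

/-- The shift functor `[1]`. -/
def shift (f : Sr) : CM f ⥤ CM f where
  obj X := shObj X
  map a := mk (shMap (rep a))
  map_id X := by exact shMap_congr (toSt_rep _)
  map_comp {X Y Z} a b := by
    refine (shMap_congr (toSt_rep _)).trans ?_
    exact (toSt_comp' (shMap (rep a)) (shMap (rep b))).symm

lemma cone_hom {X Y : CM f} (g : Mor X Y) (i j : Y.ι ⊕ X.ι) :
    Hmg (Matrix.fromBlocks Y.Φ g.mat 0 (-X.Φ) i j)
      (Sum.elim Y.deg (fun i => X.deg i - 3) j + 3 - Sum.elim Y.deg (fun i => X.deg i - 3) i) :=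
  (cone g).hom i j

lemma cone_sq {X Y : CM f} (g : Mor X Y) :
    Matrix.fromBlocks Y.Φ g.mat 0 (-X.Φ) * Matrix.fromBlocks Y.Φ g.mat 0 (-X.Φ) =
      -(f • (1 : Matrix (Y.ι ⊕ X.ι) (Y.ι ⊕ X.ι) Sr)) :=
  (cone g).sq

/-- The mapping cone of `g : X → Y`: the module `Y ⊕ X(3)` with the operator
`[[Φ, g], [0, - Φ]]`. -/
def Cone {X Y : CM f} (g : Mor X Y) : CM f where
  ι := Y.ι ⊕ X.ι
  deg := Sum.elim Y.deg (fun i => X.deg i - 3)
  Φ := Matrix.fromBlocks Y.Φ g.mat 0 (-X.Φ)
  hom := cone_hom g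
  sq := cone_sq g

lemma incl_mem {X Y : CM f} (g : Mor X Y) : Matrix.fromRows 1 0 ∈ mor Y (Cone g) := (inclM g).2

lemma proj_mem {X Y : CM f} (g : Mor X Y) :
    Matrix.fromCols 0 (1 : Matrix X.ι X.ι Sr) ∈ mor (Cone g) (shObj X) := (projM g).2

/-- `Y → cone g` -/
def incl {X Y : CM f} (g : Mor X Y) : Mor Y (Cone g) := ⟨Matrix.fromRows 1 0, incl_mem g⟩

/-- `cone g → X[1]` -/
def proj {X Y : CM f} (g : Mor X Y) : Mor (Cone g) (shObj X) :=
  ⟨Matrix.fromCols 0 (1 : Matrix X.ι X.ι Sr), proj_mem g⟩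

/-- An exact `ℂ`-linear equivalence from the stable category of `R` to that of `R'`: it commutes
with the shift and maps the standard triangles `X → Y → cone g → X[1]` to triangles isomorphic to
standard ones. -/
structure ExactEquiv (f f' : Sr) where
  F : CM f ⥤ CM f'
  isEquiv : F.IsEquivalence
  additive : F.Additive
  linear : F.Linear ℂ
  comm : shift f ⋙ F ≅ F ⋙ shift f'
  exact : ∀ {X Y : CM f} (g : Mor X Y), ∃ g' : Mor (F.obj X) (F.obj Y), mk g' = F.map (mk g) ∧
    ∃ e : F.obj (Cone g) ≅ Cone g', F.map (mk (incl g)) ≫ e.hom = mk (incl g') ∧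
      e.hom ≫ mk (proj g') = F.map (mk (proj g)) ≫ comm.hom.app X

end Pool.Agent.VDC.Stmt
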