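import Pool.Agent.VDC.Stmt
import Pool.Agent.VDC.Core

/-!
# The two forms of the statement agree
-/

set_option autoImplicit false

open MvPolynomial CategoryTheory AlgebraicGeometry

noncomputable section

namespace Pool.Agent.VDC.Stmt

variable {f f' : Sr}

attribute [-instance] stCat stPre stLin

/-- the objects map of a functor for `stCat` -/
abbrev fo (F : @Functor (CM f) (stCat f) (CM f') (stCat f')) (X : CM f) : CM f' :=
  @Prefunctor.obj (CM f) _ (CM f') _
    (@CategoryTheory.Functor.toPrefunctor (CM f) (stCat f) (CM f') (stCat f') F) X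

/-- the action on maps of a functor for `stCat` -/
abbrev fm (F : @Functor (CM f) (stCat f) (CM f') (stCat f')) {X Y : CM f} (a : StHom X Y) :
    StHom (fo F X) (fo F Y) :=
  @Prefunctor.map (CM f) _ (CM f') _
    (@CategoryTheory.Functor.toPrefunctor (CM f) (stCat f) (CM f') (stCat f') F) X Y a

lemma fm_comp (F : @Functor (CM f) (stCat f) (CM f') (stCat f')) {X Y Z : CM f} (a : StHom X Y)
    (b : StHom Y Z) : fm F (compQ X Y Z a b) = compQ _ _ _ (fm F a) (fm F b) := by
  rw [← toSt_comp, ← toSt_comp]
  exact @CategoryTheory.Functor.map_comp (CM f) (stCat f) (CM f') (stCat f') F X Y Z a b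

/-- an isomorphism for `stCat`, as an isomorphism for `instCat` -/
def isoOld {X Y : CM f} (e : @Iso (CM f) (stCat f) X Y) : @Iso (CM f) (instCat f) X Y :=
  @Iso.mk (CM f) (instCat f) X Y (@Iso.hom (CM f) (stCat f) X Y e) (@Iso.inv (CM f) (stCat f) X Y e)
    ((toSt_comp (X := X) (Y := Y) (Z := X) _ _).symm.trans
      (@Iso.hom_inv_id (CM f) (stCat f) X Y e))
    ((toSt_comp (X := Y) (Y := X) (Z := Y) _ _).symm.trans
      (@Iso.inv_hom_id (CM f) (stCat f) X Y e))

/-- a functor for `stCat`, as a functor for `instCat` -/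
def funOld (F : @Functor (CM f) (stCat f) (CM f') (stCat f')) :
    @Functor (CM f) (instCat f) (CM f') (instCat f') where
  obj X := fo F X
  map a := fm F a
  map_id X := @CategoryTheory.Functor.map_id (CM f) (stCat f) (CM f') (stCat f') F X
  map_comp a b := fm_comp F a b

theorem isEquiv_old (F : @Functor (CM f) (stCat f) (CM f') (stCat f'))
    (hF : @Functor.IsEquivalence (CM f) (stCat f) (CM f') (stCat f') F) :
    @Functor.IsEquivalence (CM f) (instCat f) (CM f') (instCat f') (funOld F) := by
  refine @Functor.IsEquivalence.mk (CM f) (instCat f) (CM f') (instCat f') (funOld F) ?_ ?_ ?_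
  · exact @Functor.Faithful.mk (CM f) (instCat f) (CM f') (instCat f') (funOld F)
      (fun {X Y} => @Functor.Faithful.map_injective (CM f) (stCat f) (CM f') (stCat f') F
        (@Functor.IsEquivalence.faithful (CM f) (stCat f) (CM f') (stCat f') F hF) X Y)
  · exact @Functor.Full.mk (CM f) (instCat f) (CM f') (instCat f') (funOld F)
      (fun {X Y} => @Functor.Full.map_surjective (CM f) (stCat f) (CM f') (stCat f') F
        (@Functor.IsEquivalence.full (CM f) (stCat f) (CM f') (stCat f') F hF) X Y)
  · refine @Functor.EssSurj.mk (CM f) (CM f') (instCat f) (instCat f') (funOld F) ?_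
    intro Y
    obtain ⟨X, ⟨e⟩⟩ := @Functor.EssSurj.mem_essImage (CM f) (CM f') (stCat f) (stCat f') F
      (@Functor.IsEquivalence.essSurj (CM f) (stCat f) (CM f') (stCat f') F hF) Y
    exact ⟨X, ⟨isoOld e⟩⟩

lemma shm_eq {X Y : CM f} (a : StHom X Y) :
    toSt (shMap (rep a)) = (sh f).map (X := X) (Y := Y) a := by
  obtain ⟨g, rfl⟩ := toSt_surjective a
  exact shMap_congr (toSt_rep _)

/-- the isomorphism with the shifts -/
def commOld (F : @Functor (CM f) (stCat f) (CM f') (stCat f'))
    (c : @Iso (@Functor (CM f) (stCat f) (CM f') (stCat f'))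
      (@Functor.category (CM f) (stCat f) (CM f') (stCat f'))
      (@Functor.comp (CM f) (stCat f) (CM f) (stCat f) (CM f') (stCat f') (shift f) F)
      (@Functor.comp (CM f) (stCat f) (CM f') (stCat f') (CM f') (stCat f') F (shift f'))) :
    sh f ⋙ funOld F ≅ funOld F ⋙ sh f' :=
  NatIso.ofComponents
    (fun X => isoOld (@Iso.app (CM f) (stCat f) (CM f') (stCat f') _ _ c X))
    (fun {X Y} a => by
      have h := @NatTrans.naturality (CM f) (stCat f) (CM f') (stCat f') _ _
        (@Iso.hom (@Functor (CM f) (stCat f) (CM f') (stCat f'))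
          (@Functor.category (CM f) (stCat f) (CM f') (stCat f')) _ _ c) X Y a
      have h2 := (toSt_comp _ _).symm.trans (h.trans (toSt_comp _ _))
      have e1 : fm F (toSt (shMap (rep a))) = fm F ((sh f).map (X := X) (Y := Y) a) :=
        congrArg (fun c => fm F c) (shm_eq a)
      have e2 : toSt (shMap (rep (fm F a))) = (sh f').map (X := fo F X) (Y := fo F Y) (fm F a) :=
        shm_eq _
      exact Eq.trans (congrArg (fun u => compQ _ _ _ u _) e1.symm)
        (h2.trans (congrArg (fun u => compQ _ _ _ _ u) e2)))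

/-- an equivalence for `Stmt` is one for `Defs` -/
def toOld (E : ExactEquiv f f') : Pool.Agent.VDC.ExactEquiv f f' where
  F := funOld E.F
  isEquiv := isEquiv_old E.F E.isEquiv
  additive := @Functor.Additive.mk (CM f) (CM f') (instCat f) (instCat f') _ _ (funOld E.F)
    (fun {X Y} {a b} => @Functor.Additive.map_add (CM f) (CM f') (stCat f) (stCat f') _ _ E.F
      E.additive X Y a b)
  linear := @Functor.Linear.mk ℂ _ (CM f) (CM f') (instCat f) (instCat f') _ _ _ _ (funOld E.F)
    (fun {X Y} a r => @Functor.Linear.map_smul ℂ _ (CM f) (CM f') (stCat f) (stCat f') _ _ _ _ E.F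
      E.linear X Y a r)
  comm := commOld E.F E.comm
  exact {X Y} g := by
    obtain ⟨g', h1, e, h2, h3⟩ := @ExactEquiv.exact _ _ E X Y g
    refine ⟨g', h1, isoOld e, ?_, ?_⟩
    · exact (toSt_comp _ _).symm.trans h2
    · exact (toSt_comp _ _).symm.trans (h3.trans (toSt_comp _ _))

end Pool.Agent.VDC.Stmt
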