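import Pool.Agent.VDC.Core

/-!
# VDC: first list of targets (proofs: Blueprint.lean.txt)
-/

set_option autoImplicit false

open MvPolynomial CategoryTheory

noncomputable section

namespace Pool.Agent.VDC

/-! ## M: polynomials and monomial ideals -/

/-- homogeneous components -/
def T_CMP : Prop :=
  (∀ p m, Hmg (cmp m p) m) ∧ (∀ p m, Hmg p m → cmp m p = p) ∧
  (∀ p m k, Hmg p m → k ≠ m → cmp k p = 0) ∧
  (∀ l e p m, Hmg l e → cmp m (l * p) = l * cmp (m - e) p)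

/-- membership in a monomial ideal -/
def T_MMEM : Prop :=
  ∀ (J : Finset (Fin 4)) (n : Fin 4 → ℕ) (p : Sr),
    p ∈ mI J n ↔ ∀ a, coeff a p ≠ 0 → ∃ j ∈ J, n j ≤ a j

/-- `X r ^ n r` is not a zero divisor modulo the other powers -/
def T_MNZ : Prop :=
  ∀ (J : Finset (Fin 4)) (n : Fin 4 → ℕ) (r : Fin 4), r ∉ J → NZ ((X r : Sr) ^ n r) (mI J n)

/-- enlarging `J` -/
def T_MINS : Prop :=
  (∀ n : Fin 4 → ℕ, mI ∅ n = ⊥) ∧ ∀ (J : Finset (Fin 4)) (n : Fin 4 → ℕ) (r : Fin 4),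
    mI (insert r J) n = mI J n ⊔ Ideal.span {(X r : Sr) ^ n r}

/-- spans of homogeneous polynomials are homogeneous -/
def T_HSPAN : Prop :=
  (∀ s : Set Sr, (∀ p ∈ s, ∃ m, Hmg p m) → HId (Ideal.span s)) ∧
  (∀ I J : Ideal Sr, HId I → HId J → HId (I ⊔ J))

/-! ## H: homological lemmas -/

/-- division with homogeneous quotient -/
def T_DIV : Prop :=
  ∀ (X Y : PO) (I : Ideal Sr) (l : Sr) (e ρ : ℤ), HId I → Hmg l e → ∀ g ∈ HM X Y ρ,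
    g ∈ IM (I ⊔ Ideal.span {l}) Y.ι X.ι → ∃ g' ∈ HM X Y (ρ - e), g - l • g' ∈ IM I Y.ι X.ι

/-- the spaces of homogeneous matrices are finite dimensional -/
def T_HFIN : Prop := ∀ (X Y : PO) (ρ : ℤ), Module.Finite ℂ (HM X Y ρ)

/-- and vanish in small degrees -/
def T_HVAN : Prop := ∀ X Y : PO, ∃ ρ₀ : ℤ, ∀ ρ ≤ ρ₀, HM X Y ρ = ⊥

/-- boundaries are cycles -/
def T_BZ : Prop :=
  ∀ (f : Sr) (X Y : PO) (I : Ideal Sr) (s ρ : ℤ), SqI X f I → SqI Y f I → s * s = 1 →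
    Bc X Y I s ρ ≤ Zc X Y I s ρ

/-- if `l` acts by zero, nothing dies modulo `l` -/
def T_INJ : Prop :=
  ∀ (f : Sr) (X Y : CM f) (I : Ideal Sr) (l : Sr) (e s ρ : ℤ), s * s = 1 → HId I → Hmg l e →
    NZ l I → (NH X.toPO l e ∨ NH Y.toPO l e) → ∀ a ∈ Zc X.toPO Y.toPO I s ρ,
    a ∈ Bc X.toPO Y.toPO (I ⊔ Ideal.span {l}) s ρ → a ∈ Bc X.toPO Y.toPO I s ρ

/-- the long exact sequence, when `l` acts by zero -/
def T_LES : Prop :=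
  ∀ (f : Sr) (X Y : CM f) (I : Ideal Sr) (l : Sr) (e s ρ : ℤ), s * s = 1 → HId I → Hmg l e →
    NZ l I → (NH X.toPO l e ∨ NH Y.toPO l e) →
    hdim X.toPO Y.toPO (I ⊔ Ideal.span {l}) s ρ =
      hdim X.toPO Y.toPO I s ρ + hdim X.toPO Y.toPO I (-s) (ρ + 3 - e)

/-- `hdim` and the category -/
def T_HD : Prop :=
  ∀ (f : Sr) (X Y : CM f) (m : ℤ) (s : ℤˣ),
    hdim X.toPO Y.toPO ⊥ s m = Module.finrank ℂ (X ⟶ tw m s Y)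

/-- the `Hom` spaces are finite dimensional -/
def T_FDH : Prop := ∀ (f : Sr) (X Y : CM f), Module.Finite ℂ (X ⟶ Y)

/-- sums and multiples of polynomials acting by zero -/
def T_NHA : Prop :=
  (∀ (X : PO) (h h' : Sr) (e : ℤ), NH X h e → NH X h' e → NH X (h + h') e) ∧
  (∀ (X : PO) (h q : Sr) (e d : ℤ), NH X h e → Hmg q d → NH X (q * h) (d + e)) ∧
  (∀ (X : PO) (e : ℤ), NH X 0 e)

/-- the partial derivatives act by zero -/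
def T_NHD : Prop :=
  ∀ (f : Sr) (X : CM f) (j : Fin 4), NH X.toPO (pderiv j f) (6 - wt j)

/-- Nullstellensatz -/
def T_NUL : Prop :=
  ∀ f : Sr, Hmg f 6 → (∀ p : Fin 4 → ℂ, (∀ i, eval p (pderiv i f) = 0) → p = 0) →
    ∃ N : ℕ, 1 ≤ N ∧ ∀ i : Fin 4, ∃ q : Fin 4 → Sr, (∀ j, Hmg (q j) (N * wt i - (6 - wt j))) ∧
      (X i : Sr) ^ N = ∑ j, q j * pderiv j f

/-- a power of each variable acts by zero -/
def T_JN : Prop :=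
  ∀ f : Sr, IsVDC f → ∃ N : ℕ, 1 ≤ N ∧
    ∀ (Y : CM f) (i : Fin 4), NH Y.toPO ((X i : Sr) ^ N) (N * wt i)

/-- acting by zero and the category -/
def T_NHQ : Prop :=
  ∀ (f : Sr) (Y : CM f) (h : Sr) (hh : Hmg h 2), cls (mu h hh Y) = 0 ↔ NH Y.toPO h 2

/-- `f` is homogeneous of degree `6` and has a decomposition along the variables -/
def T_KA : Prop := ∀ f : Sr, IsVDC f → Hmg f 6 ∧ Nonempty (KA f)

/-! ## K: Koszul objects -/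

/-- lifting cycles -/
def T_KS : Prop :=
  ∀ (f : Sr) (X : CM f) (Y : PO) (I : Ideal Sr) (l a : Sr) (e : ℤ) (hl : Hmg l e)
    (ha : Hmg a (6 - e)) (s ρ : ℤ), s * s = 1 → HId I → NZ l I → SqI (TT Y l a e hl ha) f I →
    ∀ γ ∈ Zc X.toPO Y (I ⊔ Ideal.span {l}) (-s) (ρ - 3 + e), ∃ g₁ : Matrix Y.ι X.ι Sr,
      (Matrix.fromRows g₁ γ : Matrix (TT Y l a e hl ha).ι X.ι Sr) ∈
        Zc X.toPO (TT Y l a e hl ha) I s ρ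

/-- lifting boundaries -/
def T_KI : Prop :=
  ∀ (f : Sr) (X : CM f) (Y : PO) (I : Ideal Sr) (l a : Sr) (e : ℤ) (hl : Hmg l e)
    (ha : Hmg a (6 - e)) (s ρ : ℤ), s * s = 1 → HId I → NZ l I → SqI (TT Y l a e hl ha) f I →
    ∀ g ∈ Zc X.toPO (TT Y l a e hl ha) I s ρ,
      Matrix.toRows₂ g ∈ Bc X.toPO Y (I ⊔ Ideal.span {l}) (-s) (ρ - 3 + e) →
      g ∈ Bc X.toPO (TT Y l a e hl ha) I s ρ

/-- projecting cycles -/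
def T_KP : Prop :=
  ∀ (f : Sr) (X : CM f) (Y : PO) (I : Ideal Sr) (l a : Sr) (e : ℤ) (hl : Hmg l e)
    (ha : Hmg a (6 - e)) (s ρ : ℤ), s * s = 1 →
    ∀ g ∈ Zc X.toPO (TT Y l a e hl ha) I s ρ,
      Matrix.toRows₂ g ∈ Zc X.toPO Y (I ⊔ Ideal.span {l}) (-s) (ρ - 3 + e)

/-- the last stage: maps to `S / I` are functionals -/
def T_RU : Prop :=
  ∀ (f : Sr) (X : CM f) (p : Fin 4 → ℂ) (n m : ℤ) (I : Ideal Sr),
    (∀ d, 0 ≤ d → d < n → ∃ q, Hmg q d ∧ eval p q = 1) →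
    (∀ q d, Hmg q d → (q ∈ I ↔ n ≤ d ∨ eval p q = 0)) → ∀ s ρ : ℤ, s * s = 1 →
    (∀ γ ∈ ZF X.toPO p n ρ, ∃ g ∈ Zc X.toPO (UU m) I s (ρ + m),
      ∀ j, X.deg j + ρ < n → eval p (g () j) = γ j) ∧
    (∀ g ∈ Zc X.toPO (UU m) I s (ρ + m),
      (fun j => if X.deg j + ρ < n then eval p (g () j) else 0) ∈ BF X.toPO p n ρ →
      g ∈ Bc X.toPO (UU m) I s (ρ + m))

/-- Koszul objects represent functionals -/
def T_R : Prop :=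
  ∀ (f : Sr) (D : KD f) (p : Fin 4 → ℂ) (n m : ℤ), Fr D p n → m = ∑ i, D.e i - 12 →
    Rp (D.obj m) p n 0 (top f D m)

/-- the frame given by the variables -/
def T_FRX : Prop := ∀ (f : Sr) (D : KA f) (p : Fin 4 → ℂ), Fr D.kd p 1

/-- `k` represents the functionals of level `0` -/
def T_R1 : Prop :=
  ∀ (f : Sr) (D : KA f) (p : Fin 4 → ℂ), Rp (kk D) p 1 0 (top f D.kd (-7))

/-- frames for `n = 3` -/
def T_FRM : Prop :=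
  ∀ (f : Sr), Hmg f 6 → ∀ (v : Fin 3 → ℂ) (c : ℂ), v ≠ 0 →
    ∃ D : KD f, Fr D (vp v c) 3 ∧ D.e = ![3, 1, 1, 2] ∧ eval (vp v c) (D.l 0) = 1 ∧
      eval (vp v c) (D.a 0) = - eval (vp v c) f

/-- basic properties of `pull` -/
def T_PULL : Prop :=
  ∀ (f : Sr) (A X : CM f) (p : Fin 4 → ℂ) (n r ρ s : ℤ), s * s = 1 →
    (∀ γ ∈ ZF A.toPO p n r, ∀ g ∈ Zc X.toPO A.toPO ⊥ s (ρ - r),
      pull X.toPO A.toPO p n ρ γ g ∈ ZF X.toPO p n ρ) ∧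
    (∀ γ ∈ BF A.toPO p n r, ∀ g ∈ Zc X.toPO A.toPO ⊥ s (ρ - r),
      pull X.toPO A.toPO p n ρ γ g ∈ BF X.toPO p n ρ) ∧
    (∀ γ ∈ ZF A.toPO p n r, ∀ g ∈ Bc X.toPO A.toPO ⊥ s (ρ - r),
      pull X.toPO A.toPO p n ρ γ g ∈ BF X.toPO p n ρ)

/-- `pull` of a composition; `pull` is linear; `pull` of the identity -/
def T_PULC : Prop :=
  (∀ (X A B : PO) (p : Fin 4 → ℂ) (n r r' ρ : ℤ) (γ : B.ι → ℂ), γ ∈ Fn B n r' →
    ∀ g' ∈ HM A B (r - r'), ∀ g ∈ HM X A (ρ - r),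
      pull X A p n ρ (pull A B p n r γ g') g = pull X B p n ρ γ (g' * g)) ∧
  (∀ (X A : PO) (p : Fin 4 → ℂ) (n ρ : ℤ) (γ γ' : A.ι → ℂ) (g g' : Matrix A.ι X.ι Sr) (c : ℂ),
    pull X A p n ρ (γ + c • γ') g = pull X A p n ρ γ g + c • pull X A p n ρ γ' g ∧
    pull X A p n ρ γ (g + c • g') = pull X A p n ρ γ g + c • pull X A p n ρ γ g') ∧
  (∀ (A : PO) (p : Fin 4 → ℂ) (n ρ : ℤ), ∀ γ ∈ Fn A n ρ, pull A A p n ρ γ 1 = γ)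

/-- functionals which are boundaries are cycles -/
def T_BZF : Prop :=
  ∀ (f : Sr) (X : CM f) (p : Fin 4 → ℂ) (n ρ : ℤ), n ≤ 6 → BF X.toPO p n ρ ≤ ZF X.toPO p n ρ

/-- two objects representing the same functionals are isomorphic -/
def T_YON : Prop :=
  ∀ (f : Sr) (A A' : CM f) (p : Fin 4 → ℂ) (n r r' : ℤ) (α : A.ι → ℂ) (α' : A'.ι → ℂ),
    n ≤ 6 → Rp A p n r α → Rp A' p n r' α' → Nonempty (A ≅ tw (r - r') 1 A')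

/-- the mapping cone represents the functionals of the next level -/
def T_EXT : Prop :=
  ∀ (f : Sr) (A K : CM f) (p : Fin 4 → ℂ) (n r : ℤ) (α : A.ι → ℂ) (β : K.ι → ℂ)
    (u : mor A (tw (r + 3 - n) 1 K)), 1 ≤ n → n ≤ 2 → Rp A p n r α → Rp K p 1 0 β →
    dl A.toPO p n r α - pull A.toPO K.toPO p 1 (r + 3 - n) β u.1 ∈
      BF A.toPO p 1 (r + 3 - n) →
    ∃ μ : A.ι → ℂ, (∀ i, μ i ≠ 0 → A.deg i + r = n) ∧
      Rp (cone u) p (n + 1) (r + 3) (Sum.elim β (α + μ))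

/-- endomorphisms of `k`, dimensions -/
def T_PK : Prop :=
  ∀ (f : Sr) (D : KA f) (s ρ : ℤ), s * s = 1 → hdim (kk D).toPO (kk D).toPO ⊥ s ρ = pk ρ

/-- `k` is isomorphic to `k` with `Φ` replaced by `- Φ` -/
def T_ZK : Prop := ∀ (f : Sr) (D : KA f), Nonempty (kk D ≅ tw 0 (-1) (kk D))

/-- idempotents of the Koszul object for `n = 3` -/
def T_IDK : Prop :=
  ∀ (f : Sr) (D : KD f) (p : Fin 4 → ℂ) (m : ℤ), Fr D p 3 → D.e = ![3, 1, 1, 2] →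
    eval p (D.l 0) = 1 → eval p (D.a 0) = - eval p f → m = ∑ i, D.e i - 12 →
    (Idem (D.obj m) ↔ eval p f ≠ 0)

/-- idempotents of objects representing the functionals of level `< 3` -/
def T_IDEM : Prop :=
  ∀ (f : Sr), Hmg f 6 → ∀ (E : CM f) (v : Fin 3 → ℂ) (c : ℂ) (r : ℤ) (α : E.ι → ℂ), v ≠ 0 →
    Rp E (vp v c) 3 r α → (Idem E ↔ eval (vp v c) f ≠ 0)

/-- idempotents and isomorphisms, twists, equivalences -/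
def T_IDI : Prop :=
  (∀ (f : Sr) (X Y : CM f), Nonempty (X ≅ Y) → (Idem X ↔ Idem Y)) ∧
  (∀ (f : Sr) (X : CM f) (m : ℤ) (s : ℤˣ), Idem (tw m s X) ↔ Idem X) ∧
  (∀ (f f' : Sr) (F : CM f ⥤ CM f') (X : CM f), F.IsEquivalence → F.Additive →
    (Idem (F.obj X) ↔ Idem X))

/-! ## S: Serre duality -/

/-- duality of finite dimensional complexes -/
def T_DUAL : Prop :=
  ∀ (f : Sr) (X Y : CM f) (n : Fin 4 → ℕ) (s ρ : ℤ), (∀ i, 1 ≤ n i) → s * s = 1 →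
    ∀ a ∈ Zc X.toPO Y.toPO (mI Finset.univ n) s ρ,
    (∀ b ∈ Zc Y.toPO X.toPO (mI Finset.univ n) (-s) (∑ i, ((n i : ℤ) - 1) * wt i - ρ),
      Tr n (b * a) = 0) → a ∈ Bc X.toPO Y.toPO (mI Finset.univ n) s ρ

/-- a cycle modulo the powers comes from a cycle -/
def T_CH1 : Prop :=
  ∀ (f : Sr) (X Y : CM f) (n : Fin 4 → ℕ) (s ρ : ℤ), s * s = 1 →
    ∀ b ∈ Zc X.toPO Y.toPO (mI Finset.univ n) s ρ,
    ∃ c ∈ Zc X.toPO Y.toPO ⊥ s (ρ + 12 - ∑ i, (n i : ℤ) * wt i), Ch X.toPO Y.toPO n s b c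

/-- each cycle is obtained -/
def T_CH2 : Prop :=
  ∀ (f : Sr) (X Y : CM f) (n : Fin 4 → ℕ) (s ρ : ℤ), s * s = 1 →
    (∀ i, NH Y.toPO ((MvPolynomial.X i : Sr) ^ n i) (n i * wt i)) →
    ∀ c ∈ Zc X.toPO Y.toPO ⊥ s ρ, ∃ b, Ch X.toPO Y.toPO n s b c

/-- linearity, and composition with maps -/
def T_CH3 : Prop :=
  (∀ (X Y : PO) (n : Fin 4 → ℕ) (s : ℤ) (b c b' c' : Matrix Y.ι X.ι Sr) (t : ℂ),
    Ch X Y n s b c → Ch X Y n s b' c' → Ch X Y n s (b + t • b') (c + t • c')) ∧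
  (∀ (W X Y : PO) (n : Fin 4 → ℕ) (s m : ℤ) (b c : Matrix Y.ι X.ι Sr), Ch X Y n s b c →
    ∀ a ∈ Zc W X ⊥ 1 m, Ch W Y n s (b * a) (c * a)) ∧
  (∀ (X Y W : PO) (n : Fin 4 → ℕ) (s m : ℤ) (b c : Matrix Y.ι X.ι Sr), Ch X Y n s b c →
    ∀ a ∈ Zc Y W ⊥ 1 m, Ch X W n s (a * b) (a * c))

/-- the trace vanishes on boundaries -/
def T_TR0 : Prop :=
  ∀ (f : Sr) (X : CM f) (n : Fin 4 → ℕ) (ρ : ℤ), (∀ i, 1 ≤ n i) →
    (∀ i, NH X.toPO ((MvPolynomial.X i : Sr) ^ n i) (n i * wt i)) →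
    ∀ b, ∀ c ∈ Bc X.toPO X.toPO ⊥ (-1) ρ, Ch X.toPO X.toPO n (-1) b c → Tr n b = 0

/-- Serre duality -/
def T_SER : Prop :=
  ∀ f : Sr, IsVDC f → ∃ t : ∀ X : CM f, (X ⟶ (twF f 7 (-1)).obj X) →ₗ[ℂ] ℂ,
    (∀ (X Y : CM f) (a : X ⟶ Y) (b : Y ⟶ (twF f 7 (-1)).obj X),
      t X (a ≫ b) = t Y (b ≫ (twF f 7 (-1)).map a)) ∧
    (∀ (X Y : CM f) (a : X ⟶ Y), (∀ b : Y ⟶ (twF f 7 (-1)).obj X, t X (a ≫ b) = 0) → a = 0)

/-- equivalences commute with Serre functors -/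
def T_SFU : Prop :=
  ∀ (f f' : Sr), IsVDC f → IsVDC f' → ∀ (F : CM f ⥤ CM f'), F.IsEquivalence → F.Additive →
    F.Linear ℂ → Nonempty (twF f 7 (-1) ⋙ F ≅ F ⋙ twF f' 7 (-1))

/-- composition of twists -/
def T_TWC : Prop :=
  ∀ (f : Sr) (m m' : ℤ) (s s' : ℤˣ), Nonempty (twF f m s ⋙ twF f m' s' ≅ twF f (m + m') (s * s')) ∧
    Nonempty (twF f 0 1 ≅ 𝟭 (CM f))

/-- exact equivalences commute with all twists -/
def T_VCOM : Prop :=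
  ∀ (f f' : Sr), IsVDC f → IsVDC f' → ∀ (E : ExactEquiv f f') (ρ : ℤ),
    Nonempty (twF f ρ ρ.negOnePow ⋙ E.F ≅ E.F ⋙ twF f' ρ ρ.negOnePow)

/-- an exact equivalence composed with a twist is an exact equivalence -/
def T_TW : Prop :=
  ∀ (f f' : Sr) (E : ExactEquiv f f') (m : ℤ) (s : ℤˣ),
    ∃ E' : ExactEquiv f f', E'.F = E.F ⋙ twF f' m s

/-! ## C: the characterisation of `k` -/

/-- a cycle of degree `1` whose commutator with `l` is the identity -/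
def T_ETA : Prop :=
  ∀ f : Sr, IsVDC f → ∀ G : CM f, (∀ i, NH G.toPO ((X i : Sr) ^ n2 i) 2) →
    hdim G.toPO G.toPO ⊥ 1 (-2) = 0 →
    ∀ l ∈ HM G.toPO G.toPO (-1), G.Φ * l + l * G.Φ = (X 3 : Sr) • (1 : Matrix G.ι G.ι Sr) →
    ∃ η ∈ Zc G.toPO G.toPO ⊥ (-1) 1, l * η + η * l - 1 ∈ Bc G.toPO G.toPO ⊥ 1 0

/-- the decomposition of the endomorphisms -/
def T_KSP : Prop :=
  ∀ (f : Sr) (G : CM f) (l η : Matrix G.ι G.ι Sr), l ∈ HM G.toPO G.toPO (-1) →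
    G.Φ * l + l * G.Φ = (X 3 : Sr) • (1 : Matrix G.ι G.ι Sr) →
    hdim G.toPO G.toPO ⊥ 1 (-2) = 0 → η ∈ Zc G.toPO G.toPO ⊥ (-1) 1 →
    l * η + η * l - 1 ∈ Bc G.toPO G.toPO ⊥ 1 0 → ∀ s ρ : ℤ, s * s = 1 →
    hdim G.toPO G.toPO ⊥ s ρ = kapd G.toPO l s ρ + kapd G.toPO l (-s) (ρ - 1)

/-- the Euler class -/
def T_EUL : Prop :=
  ∀ f : Sr, IsVDC f → ∀ G : CM f, (∀ i, NH G.toPO ((X i : Sr) ^ n2 i) 2) →
    hdim G.toPO G.toPO ⊥ 1 (-2) = 0 →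
    ∀ l ∈ HM G.toPO G.toPO (-1), G.Φ * l + l * G.Φ = (X 3 : Sr) • (1 : Matrix G.ι G.ι Sr) →
    kapd G.toPO l (-1) 3 = 0 → ∃ h ∈ HM G.toPO G.toPO 0,
      G.Φ * h - h * G.Φ - G.Φ ∈ IM (mI Finset.univ n2) G.ι G.ι

/-- an operator anticommuting with `Φ` -/
def T_SIG : Prop :=
  ∀ (X : PO) (I : Ideal Sr) (h : Matrix X.ι X.ι Sr), h ∈ HM X X 0 →
    X.Φ * h - h * X.Φ - X.Φ ∈ IM I X.ι X.ι → ∃ σ ∈ HM X X 0, ∃ σ' ∈ HM X X 0,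
      σ * σ' = 1 ∧ σ' * σ = 1 ∧ X.Φ * σ + σ * X.Φ ∈ IM I X.ι X.ι

/-- it gives a symmetry of the dimensions -/
def T_SIGD : Prop :=
  ∀ (X Y : PO) (I : Ideal Sr) (σ σ' : Matrix X.ι X.ι Sr), σ ∈ HM X X 0 → σ' ∈ HM X X 0 →
    σ * σ' = 1 → σ' * σ = 1 → X.Φ * σ + σ * X.Φ ∈ IM I X.ι X.ι → ∀ s ρ : ℤ,
    hdim X Y I s ρ = hdim X Y I (-s) ρ

/-- descending the symmetry -/
def T_DEC : Prop :=
  ∀ (f : Sr) (X Y : CM f) (I : Ideal Sr) (l : Sr) (e : ℤ), HId I → Hmg l e → NZ l I → e ≠ 3 →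
    NH Y.toPO l e →
    (∀ s ρ : ℤ, s * s = 1 → hdim X.toPO Y.toPO (I ⊔ Ideal.span {l}) s ρ =
      hdim X.toPO Y.toPO (I ⊔ Ideal.span {l}) (-s) ρ) →
    ∀ s ρ : ℤ, s * s = 1 → hdim X.toPO Y.toPO I s ρ = hdim X.toPO Y.toPO I (-s) ρ

/-- the symmetry -/
def T_SYM : Prop :=
  ∀ (f : Sr) (G : CM f), (∀ i, NH G.toPO ((X i : Sr) ^ n2 i) 2) →
    (∃ h ∈ HM G.toPO G.toPO 0, G.Φ * h - h * G.Φ - G.Φ ∈ IM (mI Finset.univ n2) G.ι G.ι) →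
    ∀ s ρ : ℤ, s * s = 1 → hdim G.toPO G.toPO ⊥ s ρ = hdim G.toPO G.toPO ⊥ (-s) ρ

/-- the variables act by zero -/
def T_VAR : Prop :=
  ∀ f : Sr, IsVDC f → ∀ G : CM f, (∀ i, NH G.toPO ((X i : Sr) ^ n2 i) 2) →
    (∀ ρ : ℤ, hdim G.toPO G.toPO ⊥ ρ.negOnePow ρ = pk ρ) →
    ∀ i, NH G.toPO (X i : Sr) (wt i)

/-- graded linear algebra: a complex over a field splits -/
def T_LIN : Prop :=
  ∀ (ι : Type) [Fintype ι] [DecidableEq ι] (deg : ι → ℤ) (M : Matrix ι ι ℂ),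
    (∀ i j, M i j ≠ 0 → deg i = deg j + 3) → M * M = 0 → ∃ P N : Matrix ι ι ℂ,
      (∀ i j, P i j ≠ 0 → deg i = deg j) ∧ (∀ i j, N i j ≠ 0 → deg i + 3 = deg j) ∧
      P * P = P ∧ M * P = 0 ∧ P * M = 0 ∧ P + M * N + N * M = 1

/-- a splitting criterion, modulo the variables -/
def T_SPL : Prop :=
  ∀ (f : Sr) (G K : CM f) (i : mor G K) (h₁ : Matrix G.ι K.ι Sr) (h₂ : Matrix G.ι G.ι Sr),
    (∀ j, NH G.toPO (X j : Sr) (wt j)) → h₁ ∈ HM K.toPO G.toPO 0 → h₂ ∈ HM G.toPO G.toPO (-3) →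
    G.Φ * h₁ - h₁ * K.Φ ∈ IM (mI Finset.univ 1) G.ι K.ι →
    h₁ * i.1 + G.Φ * h₂ + h₂ * G.Φ - 1 ∈ IM (mI Finset.univ 1) G.ι G.ι →
    ∃ r : K ⟶ G, cls i ≫ r = 𝟙 G

/-- an object on which the variables act by zero is a retract of a sum of twists of `k` -/
def T_RET : Prop :=
  ∀ (f : Sr) (D : KA f) (G : CM f), (∀ i, NH G.toPO (X i : Sr) (wt i)) →
    ∃ (a : ∀ i : G.ι, G ⟶ tw (-(G.deg i)) 1 (kk D)) (b : ∀ i : G.ι, tw (-(G.deg i)) 1 (kk D) ⟶ G),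
      𝟙 G = ∑ i, a i ≫ b i

/-- conclusion -/
def T_CLS : Prop :=
  ∀ f : Sr, IsVDC f → ∀ (D : KA f) (G : CM f), (∀ h hh, cls (mu h hh G) = 0) →
    (∀ ρ : ℤ, Module.finrank ℂ (G ⟶ tw ρ ρ.negOnePow G) =
      Module.finrank ℂ (kk D ⟶ tw ρ ρ.negOnePow (kk D))) →
    ∃ m : ℤ, Nonempty (G ≅ tw m m.negOnePow (kk D))

end Pool.Agent.VDC
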