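import Pool.Agent.VDC.T1

/-!
# VDC: second list of targets (proofs: Blueprint.lean.txt)
-/

set_option autoImplicit false

open MvPolynomial CategoryTheory

noncomputable section

namespace Pool.Agent.VDC

/-! ## N: maps between twists of `k` -/

/-- shift by `(2)` of maps `X → Y(2)` -/
def sxx {f : Sr} {X Y : CM f} : (X ⟶ tw 2 1 Y) →ₗ[ℂ] (tw 2 1 X ⟶ tw 4 1 Y) :=
  twq 2 1 4 1 (by norm_num) (by norm_num)

/-- shift by `V` of maps `X → Y(2)` -/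
def syx {f : Sr} {X Y : CM f} : (X ⟶ tw 2 1 Y) →ₗ[ℂ] (tw 1 (-1) X ⟶ tw 3 (-1) Y) :=
  twq 1 (-1) 3 (-1) (by norm_num) (by norm_num)

/-- shift by `(2)` of maps `X → V Y` -/
def sxy {f : Sr} {X Y : CM f} : (X ⟶ tw 1 (-1) Y) →ₗ[ℂ] (tw 2 1 X ⟶ tw 3 (-1) Y) :=
  twq 2 1 3 (-1) (by norm_num) (by norm_num)

/-- shift by `[1]` of maps `X → V Y` -/
def szy {f : Sr} {X Y : CM f} : (X ⟶ tw 1 (-1) Y) →ₗ[ℂ] (tw 3 (-1) X ⟶ tw 4 1 Y) :=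
  twq 3 (-1) 4 1 (by norm_num) (by norm_num)

/-- the properties of `k` and its top generator `o` which we use -/
structure KT {f : Sr} (K : CM f) (o : K.ι) : Prop where
  rp : ∀ p, Rp K p 1 0 (Pi.single o 1)
  dg : K.deg o = 0
  dn : ∀ i, i ≠ o → K.deg i < 0
  red : ∀ i j, coeff 0 (K.Φ i j) = 0
  inj : ∀ s ρ : ℤ, s * s = 1 → ∀ g ∈ Zc K.toPO K.toPO ⊥ s ρ,
    (g ∈ Bc K.toPO K.toPO ⊥ s ρ ↔ ∀ j, coeff 0 (g o j) = 0)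
  surj : ∀ s ρ : ℤ, s * s = 1 → ∀ γ : K.ι → ℂ, (∀ j, γ j ≠ 0 → K.deg j + ρ = 0) →
    ∃ g ∈ Zc K.toPO K.toPO ⊥ s ρ, ∀ j, coeff 0 (g o j) = γ j
  nh : ∀ i, NH K.toPO (X i : Sr) (wt i)

/-- the maps `xi v : k → k(2)` and `et : k → V k` -/
structure XE {f : Sr} (K : CM f) (o : K.ι) where
  xi : (Fin 3 → ℂ) ≃ₗ[ℂ] (K ⟶ tw 2 1 K)
  et : K ⟶ tw 1 (-1) K
  span : ∀ a : K ⟶ tw 1 (-1) K, ∃ c : ℂ, a = c • et
  ne : et ≠ 0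
  symx : ∀ (v : Fin 3 → ℂ) (g : mor K (tw 2 1 K)), cls g = xi v → ∀ j,
    coeff 0 (g.1 o j) = ∑ i : Fin 3, v i * coeff (Finsupp.single (Fin.castSucc i) 1) (K.Φ o j)
  syme : ∀ e : mor K (tw 1 (-1) K), cls e = et → ∀ j,
    coeff 0 (e.1 o j) = coeff (Finsupp.single 3 1) (K.Φ o j)
  anti : ∀ v w, xi v ≫ sxx (xi w) = -(xi w ≫ sxx (xi v))
  prod : ∀ v w, xi v ≫ sxx (xi w) = 0 → ¬ LinearIndependent ℂ ![v, w]
  comm : ∀ v, et ≫ syx (xi v) = xi v ≫ sxy et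
  nz : ∀ v, xi v ≫ sxy et = 0 → v = 0

/-- the top generator -/
abbrev tg {f : Sr} (D : KD f) (m : ℤ) : (D.obj m).ι := Sum.inr (Sum.inr (Sum.inr (Sum.inr ())))

/-- the properties of `k` -/
def T_KT : Prop := ∀ (f : Sr) (D : KA f), KT (kk D) (tg D.kd (-7))

/-- explicit cycles on `k` (here `K = k`, `o` the top generator; `C i` is the matrix of the
coefficients of `X i` in `Φ`) -/
def T_XIC : Prop :=
  ∀ f : Sr, IsVDC f → ∀ (D : KA f) (K : CM f) (o : K.ι), K = kk D → HEq o (tg D.kd (-7)) →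
    ∃ (ξ : Fin 4 → Matrix K.ι K.ι Sr) (Z : Matrix K.ι K.ι Sr),
      (∀ i, ξ i ∈ Zc K.toPO K.toPO ⊥ (-1) (3 - wt i)) ∧
      (∀ i a b, coeff 0 (ξ i a b) = coeff (Finsupp.single i 1) (K.Φ a b)) ∧
      Z ∈ Zc K.toPO K.toPO ⊥ (-1) 0 ∧ Z * Z = 1 ∧ (∀ i, Z * ξ i = -(ξ i * Z)) ∧
      (∀ j, Z o j = if j = o then 1 else 0)

/-- the linear coefficients of `Φ` on `k`: the top row has independent entries, also of the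
products -/
def T_COF : Prop :=
  ∀ (f : Sr) (D : KA f) (K : CM f) (o : K.ι), K = kk D → HEq o (tg D.kd (-7)) →
    ∃ t : Fin 4 → K.ι, Function.Injective t ∧
      (∀ j, K.deg j = -2 ↔ ∃ i : Fin 3, j = t (Fin.castSucc i)) ∧ (∀ j, K.deg j = -1 ↔ j = t 3) ∧
      (∀ i j, coeff (Finsupp.single i 1) (K.Φ o (t j)) ≠ 0 ↔ i = j) ∧
      (∀ i : Fin 4, ∀ j, coeff (Finsupp.single i 1) (K.Φ o j) ≠ 0 → j = t i) ∧
      ∃ q : Fin 4 → Fin 4 → K.ι, (∀ i j, i ≠ j → K.deg (q i j) = wt i + wt j - 6) ∧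
        (∀ i j, q i j = q j i) ∧ (∀ i j k l, i ≠ j → (coeff (Finsupp.single k 1)
          (K.Φ (t l) (q i j)) ≠ 0 ↔ (k = i ∧ l = j) ∨ (k = j ∧ l = i)))

/-- the basic maps exist -/
def T_XE : Prop := ∀ f : Sr, IsVDC f → ∀ D : KA f, Nonempty (XE (kk D) (tg D.kd (-7)))

/-- `twq` is bijective -/
def T_TWQ : Prop :=
  ∀ (f : Sr) (X Y : CM f) (a : ℤ) (s : ℤˣ) (b : ℤ) (t : ℤˣ) (a' : ℤ) (s' : ℤˣ)
    (ha : a' = a + b) (hs : s' = s * t),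
    Function.Bijective (twq b t a' s' ha hs : (X ⟶ tw a s Y) → (tw b t X ⟶ tw a' s' Y))

/-- `twq` and compositions -/
def T_TWP : Prop :=
  ∀ (f : Sr) (X Y W : CM f) (a : ℤ) (s : ℤˣ) (b : ℤ) (t : ℤˣ) (c : ℤ) (r : ℤˣ)
    (a₁ : ℤ) (s₁ : ℤˣ) (h₁ : a₁ = a + c) (h₁' : s₁ = s * r)
    (a₂ : ℤ) (s₂ : ℤˣ) (h₂ : a₂ = b + a) (h₂' : s₂ = t * s)
    (a₃ : ℤ) (s₃ : ℤˣ) (h₃ : a₃ = b + a₁) (h₃' : s₃ = t * s₁) (h₄ : a₃ = a₂ + c)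
    (h₄' : s₃ = s₂ * r) (x : X ⟶ tw a s Y) (y : Y ⟶ tw b t W),
    twq c r a₁ s₁ h₁ h₁' x ≫ twq a₁ s₁ a₃ s₃ h₃ h₃' y =
      twq c r a₃ s₃ h₄ h₄' (x ≫ twq a s a₂ s₂ h₂ h₂' y)

/-- `twq` and the functors `twF` -/
def T_TWI : Prop :=
  ∀ (f : Sr) (m m' m'' : ℤ) (s s' s'' : ℤˣ) (hm : m'' = m' + m) (hs : s'' = s' * s) (Y : CM f),
    ∃ j : tw m s (tw m' s' Y) ≅ tw m'' s'' Y, ∀ (X : CM f) (a : X ⟶ tw m' s' Y),
      (twF f m s).map a ≫ j.hom = twq m s m'' s'' hm hs a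

/-- natural transformations `Id → (2)` vanish on `k` -/
def T_NAT : Prop :=
  ∀ (f : Sr) (K : CM f) (o : K.ι), XE K o → ∀ (η : 𝟭 (CM f) ⟶ twF f 2 1), η.app K = 0

/-- so the image of `k` is killed by polynomials of degree `2` -/
def T_MU0 : Prop :=
  ∀ (f f' : Sr) (F : CM f ⥤ CM f'), F.IsEquivalence → F.Additive →
    Nonempty (twF f 2 1 ⋙ F ≅ F ⋙ twF f' 2 1) → ∀ (K : CM f) (o : K.ι), XE K o →
    ∀ (h : Sr) (hh : Hmg h 2), cls (mu h hh (F.obj K)) = 0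

/-- the image of `k` is a twist of `k` -/
def T_KKE : Prop :=
  ∀ (f f' : Sr), IsVDC f → IsVDC f' → ∀ (E : ExactEquiv f f') (D : KA f) (D' : KA f'),
    ∃ m : ℤ, Nonempty (E.F.obj (kk D) ≅ tw m m.negOnePow (kk D'))

/-- normalisation -/
def T_NRM : Prop :=
  ∀ (f f' : Sr), IsVDC f → IsVDC f' → Nonempty (ExactEquiv f f') → ∀ (K : CM f) (K' : CM f'),
    (∀ E : ExactEquiv f f', ∃ m : ℤ, Nonempty (E.F.obj K ≅ tw m m.negOnePow K')) →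
    ∃ E : ExactEquiv f f', Nonempty (E.F.obj K ≅ K') ∧
      Nonempty (E.F.obj (tw 2 1 K) ≅ tw 2 1 K') ∧ Nonempty (E.F.obj (tw 4 1 K) ≅ tw 4 1 K')

/-! ## F: triangles and the functor -/

/-- compositions of two maps in a triangle vanish -/
def T_TRI : Prop :=
  ∀ (f : Sr) (X Y : CM f) (g : mor X Y), cls g ≫ cls (inclM g) = 0 ∧
    cls (inclM g) ≫ cls (projM g) = 0 ∧
    cls (projM g) ≫ (cls (twM 3 (-1) g) : tw 3 (-1) X ⟶ tw 3 (-1) Y) = 0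

/-- the cone is a weak cokernel -/
def T_WC : Prop :=
  ∀ (f : Sr) (X Y Z : CM f) (g : mor X Y) (w : cone g ⟶ Z), cls (inclM g) ≫ w = 0 →
    ∃ k : tw 3 (-1) X ⟶ Z, w = cls (projM g) ≫ k

/-- weak kernel of the projection -/
def T_WK : Prop :=
  ∀ (f : Sr) (X Y Z : CM f) (g : mor X Y) (w : Z ⟶ cone g), w ≫ cls (projM g) = 0 →
    ∃ k : Z ⟶ Y, w = k ≫ cls (inclM g)

/-- isomorphic maps have isomorphic cones -/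
def T_CISO : Prop :=
  ∀ (f : Sr) (X Y X' Y' : CM f) (g : mor X Y) (g' : mor X' Y') (a : X ≅ X') (b : Y ≅ Y'),
    cls g ≫ b.hom = a.hom ≫ cls g' → ∃ θ : cone g ≅ cone g',
      cls (inclM g) ≫ θ.hom = b.hom ≫ cls (inclM g') ∧
      θ.hom ≫ cls (projM g') = cls (projM g) ≫ (sh f).map a.hom

/-- the line of lifts of `xi v` and the idempotents of the cones -/
def T_LINE : Prop :=
  ∀ f : Sr, Hmg f 6 → ∀ (K : CM f) (o : K.ι), KT K o → ∀ (E : XE K o) (v : Fin 3 → ℂ)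
    (g : mor K (tw 2 1 K)), v ≠ 0 → cls g = E.xi v →
    ∃ u₀ : cone g ⟶ tw 4 1 K, cls (inclM g) ≫ u₀ = sxx (E.xi v) ∧
      ∀ (t : ℂ) (u : mor (cone g) (tw 4 1 K)),
        cls u = u₀ - t • (cls (projM g) ≫ szy E.et) → (Idem (cone u) ↔ eval (vp v t) f ≠ 0)

/-- the functor and the lines -/
def T_STP : Prop :=
  ∀ (f f' : Sr), Hmg f 6 → Hmg f' 6 → ∀ (K : CM f) (o : K.ι) (K' : CM f') (o' : K'.ι),
    KT K o → KT K' o' → ∀ (A : XE K o) (A' : XE K' o') (E : ExactEquiv f f')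
    (φ₀ : E.F.obj K ≅ K') (φ₂ : E.F.obj (tw 2 1 K) ≅ tw 2 1 K')
    (φ₄ : E.F.obj (tw 4 1 K) ≅ tw 4 1 K') (v v' : Fin 3 → ℂ) (lam : ℂ),
    v ≠ 0 → v' ≠ 0 → lam ≠ 0 →
    E.F.map (A.xi v) ≫ φ₂.hom = φ₀.hom ≫ A'.xi v' →
    E.F.map (sxx (A.xi v)) ≫ φ₄.hom = φ₂.hom ≫ sxx (A'.xi v') →
    E.F.map (szy A.et) ≫ φ₄.hom =
      lam • (E.comm.hom.app K ≫ (sh f').map φ₀.hom ≫ szy A'.et) →
    ∃ ν : ℂ, ∀ t : ℂ, eval (vp v t) f = 0 ↔ eval (vp v' (ν + lam * t)) f' = 0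

/-- linear maps which agree up to scalars on each vector -/
def T_GMU : Prop :=
  ∀ g g' : (Fin 3 → ℂ) ≃ₗ[ℂ] (Fin 3 → ℂ), (∀ v, ¬ LinearIndependent ℂ ![g v, g' v]) →
    ∃ μ : ℂ, μ ≠ 0 ∧ ∀ v, g' v = μ • g v

/-- the comparison of the branch divisors -/
def T_FIN : Prop :=
  ∀ (f f' : Sr), Hmg f 6 → Hmg f' 6 → ∀ (K : CM f) (o : K.ι) (K' : CM f') (o' : K'.ι),
    KT K o → KT K' o' → ∀ (_ : XE K o) (_ : XE K' o') (E : ExactEquiv f f'),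
    Nonempty (E.F.obj K ≅ K') → Nonempty (E.F.obj (tw 2 1 K) ≅ tw 2 1 K') →
    Nonempty (E.F.obj (tw 4 1 K) ≅ tw 4 1 K') →
    ∃ (g : (Fin 3 → ℂ) ≃ₗ[ℂ] (Fin 3 → ℂ)) (lam : ℂ), lam ≠ 0 ∧ ∀ v, v ≠ 0 → ∃ ν : ℂ, ∀ c : ℂ,
      eval (vp v c) f = 0 ↔ eval (vp (g v) (ν + lam * c)) f' = 0

/-! ## A: algebra -/

/-- the discriminant does not vanish identically -/
def T_DISC : Prop :=
  ∀ f f₄ f₆ : Sr, IsVDC f → Hmg f₄ 4 → Hmg f₆ 6 → (∀ a, coeff a f₄ ≠ 0 → a 3 = 0) →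
    (∀ a, coeff a f₆ ≠ 0 → a 3 = 0) →
    f = X 3 ^ 3 + f₄ * X 3 + f₆ → 4 * f₄ ^ 3 + 27 * f₆ ^ 2 ≠ 0

/-- from the zero sets to the equations -/
def T_ALG : Prop :=
  ∀ (f f' : Sr), IsVDC f → IsVDC f' → ∀ (g : (Fin 3 → ℂ) ≃ₗ[ℂ] (Fin 3 → ℂ)) (lam : ℂ),
    lam ≠ 0 → (∀ v, v ≠ 0 → ∃ ν : ℂ, ∀ c : ℂ,
      eval (vp v c) f = 0 ↔ eval (vp (g v) (ν + lam * c)) f' = 0) →
    ∀ v c, eval (vp (g v) (lam * c)) f' = lam ^ 3 * eval (vp v c) f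

end Pool.Agent.VDC
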