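import Pool.Agent.VDC.Geo
import Pool.Agent.VDC.Core

/-!
# VDC: targets on the schemes
-/

set_option autoImplicit false

open MvPolynomial CategoryTheory AlgebraicGeometry

noncomputable section

namespace Pool.Agent.VDC

/-- `grd f` is a grading -/
def T_GRD : Prop := ∀ f : Sr, Hmg f 6 → Nonempty (GradedAlgebra (grd f))

/-- the isomorphism of graded algebras -/
def T_ISO : Prop :=
  ∀ (f f' : Sr) (g : (Fin 3 → ℂ) ≃ₗ[ℂ] (Fin 3 → ℂ)) (lam : ℂ), lam ≠ 0 →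
    (∀ v c, eval (vp (g v) (lam * c)) f' = lam ^ 3 * eval (vp v c) f) →
    ∃ e : RR f' ≃ₐ[ℂ] RR f, ∀ n r, r ∈ grd f' n ↔ e r ∈ grd f n

/-- isomorphic graded algebras give isomorphic schemes -/
def T_PRJ : Prop :=
  ∀ (f f' : Sr) [GradedAlgebra (grd f)] [GradedAlgebra (grd f')] (e : RR f' ≃ₐ[ℂ] RR f),
    (∀ n r, r ∈ grd f' n ↔ e r ∈ grd f n) → Nonempty (YY f ≅ YY f')

end Pool.Agent.VDC
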